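import Pool.Agent.CRM.StG
import Pool.Agent.BWM.C18

/-!
COV: the jets are covariant.
-/

open Complex MeasureTheory Filter Topology Set
open UpperHalfPlane hiding I
open scoped ContDiff MatrixGroups

namespace CRM

open QE QE.NC QJ U3 NFP

noncomputable section

namespace COV

theorem contDiff_jet {σ : ℂ → ℝ} {h : ℕ → ℝ} {φ : ℕ → ℂ → ℂ} (hσ : ContDiff ℝ ∞ σ)
    (hφ : ∀ n, ContDiff ℝ ∞ (φ n)) (m n : ℕ) : ContDiff ℝ ∞ (QJ.jet σ h φ m n) := by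
  induction m with
  | zero => exact hφ n
  | succ m ih => exact contDiff_const.mul (contDiff_D hσ m ih)

theorem exp_int (x : ℝ) (k : ℤ) : Real.exp (k * x) = Real.exp x ^ k := by
  rw [mul_comm, Real.exp_mul, Real.rpow_intCast]

/-- the conformal factor at the image -/
theorem ex_mob {Γ : Subgroup SL(2, ℝ)} {ρ : ℍ → ℝ} (hF : Fac Γ ρ) {V : Set ℂ} {σ : ℂ → ℝ}
    (hV : V ⊆ UH) (hg : ∀ z ∈ V, Real.exp (2 * σ z) = gr ρ z) {γ : SL(2, ℝ)} (hγ : γ ∈ Γ)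
    {z : ℂ} (hz : z ∈ V) (hz' : mob γ z ∈ V) (k : ℤ) :
    QJ.ex σ k (mob γ z) = QJ.ex σ k z * ((‖den γ z‖ : ℂ) ^ 2) ^ k := by
  have hzU := hV hz
  have h0 : ‖den γ z‖ ≠ 0 := norm_ne_zero_iff.2 (den_ne_zero γ hzU)
  have h0' : 0 < ‖den γ z‖ := lt_of_le_of_ne (norm_nonneg _) h0.symm
  have him : 0 < z.im := hzU
  have h1 : Real.exp (2 * σ (mob γ z)) = Real.exp (2 * σ z) * (‖den γ z‖ ^ 2) ^ 2 := by
    rw [hg _ hz', hg _ hz]
    unfold gr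
    rw [ofComplex_mob, hF.inv γ hγ, mob_im γ hzU]
    field_simp
  have h2 : Real.exp (σ (mob γ z)) = Real.exp (σ z) * ‖den γ z‖ ^ 2 := by
    have h3 : Real.exp (σ (mob γ z)) ^ 2 = (Real.exp (σ z) * ‖den γ z‖ ^ 2) ^ 2 := by
      rw [mul_pow, ← Real.exp_nat_mul, ← Real.exp_nat_mul]
      exact_mod_cast h1
    have h4 : (0 : ℝ) ≤ Real.exp (σ z) * ‖den γ z‖ ^ 2 := by positivity
    exact (pow_left_inj₀ (Real.exp_pos _).le h4 two_ne_zero).1 h3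
  unfold QJ.ex
  rw [exp_int, exp_int, h2, mul_zpow]
  push_cast
  rfl

/-- the induction step -/
theorem D_mob {Γ : Subgroup SL(2, ℝ)} {ρ : ℍ → ℝ} (hF : Fac Γ ρ) {V : Set ℂ} {σ : ℂ → ℝ}
    (hVo : IsOpen V) (hV : V ⊆ UH) (hσ : ContDiff ℝ ∞ σ)
    (hg : ∀ z ∈ V, Real.exp (2 * σ z) = gr ρ z) {γ : SL(2, ℝ)} (hγ : γ ∈ Γ)
    {f : ℂ → ℂ} (hf : ContDiff ℝ ∞ f) (m : ℕ)
    (hcov : ∀ z ∈ V, mob γ z ∈ V → f z = phase γ z ^ m * f (mob γ z))
    {z : ℂ} (hz : z ∈ V) (hz' : mob γ z ∈ V) :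
    QJ.D σ m f z = phase γ z ^ (m + 1) * QJ.D σ m f (mob γ z) := by
  have hUo := isOpen_UH
  have hzU := hV hz
  have hcm : ContinuousOn (mob γ) V := (continuousOn_mob γ).mono hV
  have hW : IsOpen (V ∩ mob γ ⁻¹' V) := hcm.isOpen_inter_preimage hVo hVo
  have hzW : z ∈ V ∩ mob γ ⁻¹' V := ⟨hz, hz'⟩
  set F : ℂ → ℂ := fun y => QJ.ex σ (-(m : ℤ)) y * f y with hFd
  have hFs : ContDiff ℝ ∞ F := (contDiff_ex hσ _).mul hf
  have key : ∀ w ∈ V ∩ mob γ ⁻¹' V, QJ.ex σ (-(m : ℤ)) w * f w =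
      (starRingEnd ℂ) (den γ w ^ (2 * m)) * F (mob γ w) := by
    rintro w ⟨hw, hw'⟩
    have hwU := hV hw
    have d0 := den_ne_zero γ hwU
    have c0 : (starRingEnd ℂ) (den γ w) ≠ 0 := by rwa [Ne, map_eq_zero]
    have hN : (‖den γ w‖ : ℂ) ^ 2 = den γ w * (starRingEnd ℂ) (den γ w) :=
      (Complex.mul_conj' _).symm
    rw [hFd]
    change _ = _ * (QJ.ex σ (-(m : ℤ)) (mob γ w) * f (mob γ w))
    rw [ex_mob hF hV hg hγ hw hw', hcov w hw hw', phase_eq_div γ hwU, hN, zpow_neg, zpow_natCast,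
      map_pow, div_pow, mul_pow]
    field_simp
    ring
  have hden : DifferentiableAt ℝ (fun w => den γ w ^ (2 * m)) z :=
    (((contDiff_den γ).pow (2 * m)).contDiffAt).differentiableAt (by simp)
  have hdzb : dzb (fun w => den γ w ^ (2 * m)) z = 0 := by
    have h1 : DifferentiableAt ℂ (fun w => den γ w ^ (2 * m)) z := by
      unfold den
      fun_prop
    have h2 := (h1.hasDerivAt.hasFDerivAt.restrictScalars ℝ).fderiv
    unfold dzb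
    rw [h2]
    simp
    ring_nf
    simp
  have h1 : dz (fun w => QJ.ex σ (-(m : ℤ)) w * f w) z =
      (starRingEnd ℂ) (den γ z ^ (2 * m)) * (1 / den γ z ^ 2 * dz F (mob γ z)) := by
    have hd1 : DifferentiableAt ℝ (fun w => (starRingEnd ℂ) (den γ w ^ (2 * m))) z :=
      Complex.conjCLE.differentiableAt.comp z hden
    have hd2 : DifferentiableAt ℝ F (mob γ z) := hFs.contDiffAt.differentiableAt (by simp)
    have hd3 : DifferentiableAt ℝ (fun w => F (mob γ w)) z :=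
      hd2.comp z (differentiableAt_mob γ hzU)
    rw [dz_congr_on hW key hzW, dz_mul hd1 hd3, dz_conj hden, hdzb, dz_comp_mob γ hzU hd2,
      map_zero]
    ring
  unfold QJ.D
  rw [h1]
  have h2 := ex_mob hF hV hg hγ hz hz' ((m : ℤ) - 1)
  have d0 := den_ne_zero γ hzU
  have c0 : (starRingEnd ℂ) (den γ z) ≠ 0 := by rwa [Ne, map_eq_zero]
  have hN : (‖den γ z‖ : ℂ) ^ 2 = den γ z * (starRingEnd ℂ) (den γ z) :=
    (Complex.mul_conj' _).symm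
  have e0 : den γ z * (starRingEnd ℂ) (den γ z) ≠ 0 := mul_ne_zero d0 c0
  rw [h2, hN, phase_eq_div γ hzU, zpow_sub_one₀ e0, zpow_natCast, map_pow, div_pow, mul_pow]
  change _ = _ * (2 * _ * dz F (mob γ z))
  field_simp
  ring

theorem jet_cov {Γ : Subgroup SL(2, ℝ)} {ρ : ℍ → ℝ} (hF : Fac Γ ρ) {h : ℕ → ℝ} {φ : ℕ → ℂ → ℂ}
    {V : Set ℂ} {σ : ℂ → ℝ} {φ' : ℕ → ℂ → ℂ} (hA : Agree V UH (gr ρ) h φ σ φ')
    (hφ : ∀ γ ∈ Γ, ∀ n, ∀ z ∈ UH, φ n (mob γ z) = φ n z) {γ : SL(2, ℝ)} (hγ : γ ∈ Γ)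
    (m n : ℕ) : ∀ z ∈ V, mob γ z ∈ V →
      QJ.jet σ h φ' m n z = phase γ z ^ m * QJ.jet σ h φ' m n (mob γ z) := by
  induction m with
  | zero =>
    intro z hz hz'
    change φ' n z = phase γ z ^ 0 * φ' n (mob γ z)
    rw [pow_zero, one_mul, hA.eφ n z hz, hA.eφ n _ hz', hφ γ hγ n z (hA.sub hz)]
  | succ m ih =>
    intro z hz hz'
    have h1 := D_mob hF hA.op hA.sub hA.loc.sm hA.eg hγ (contDiff_jet hA.loc.sm hA.loc.smφ m n)
      m ih hz hz'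
    change (h n : ℂ) * QJ.D σ m (QJ.jet σ h φ' m n) z =
      phase γ z ^ (m + 1) * ((h n : ℂ) * QJ.D σ m (QJ.jet σ h φ' m n) (mob γ z))
    rw [h1]
    ring

end COV

open COV in
/-- COV: the jets are covariant. -/
theorem t_COV : StmtCov := by
  intro Γ ρ hF h φ V σ φ' hA hφ γ hγ j n z hz hz'
  have hzU := hA.sub hz
  cases j with
  | ofNat m =>
    rw [Int.ofNat_eq_natCast, zpow_natCast]
    exact jet_cov hF hA hφ hγ m n z hz hz'
  | negSucc m =>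
    change (-1) ^ (m + 1) * (starRingEnd ℂ) (QJ.jet σ h φ' (m + 1) n z)
      = phase γ z ^ (Int.negSucc m) * ((-1) ^ (m + 1)
        * (starRingEnd ℂ) (QJ.jet σ h φ' (m + 1) n (mob γ z)))
    rw [jet_cov hF hA hφ hγ (m + 1) n z hz hz', map_mul, map_pow, conj_phase γ hzU,
      zpow_negSucc, inv_pow]
    ring

end

end CRM
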