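import Pool.Agent.CRM.StG

/-!
The crossing measure of a semiclassical measure: invariance of the limits of the four-jet integrals.
-/

open Complex MeasureTheory Filter Topology Set
open UpperHalfPlane hiding I
open scoped ContDiff MatrixGroups

namespace CRM

open QE QE.NC QJ U3 NFP

noncomputable section

namespace INE

/-- the composition of a test function with a Moebius transformation -/
def pb (γ : SL(2, ℝ)) (ζ : ℂ → ℂ) : ℂ → ℂ := UH.indicator fun z => ζ (mob γ z)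

theorem pb_of_mem (γ : SL(2, ℝ)) (ζ : ℂ → ℂ) {z : ℂ} (hz : z ∈ UH) : pb γ ζ z = ζ (mob γ z) :=
  Set.indicator_of_mem hz _

theorem pb_of_notMem (γ : SL(2, ℝ)) (ζ : ℂ → ℂ) {z : ℂ} (hz : z ∉ UH) : pb γ ζ z = 0 :=
  Set.indicator_of_notMem hz _

/-- the preimage of the support -/
def KK (γ : SL(2, ℝ)) (ζ : ℂ → ℂ) : Set ℂ := mob γ⁻¹ '' tsupport ζ

theorem isCompact_KK (γ : SL(2, ℝ)) {ζ : ℂ → ℂ} (hζ : Test UH ζ) : IsCompact (KK γ ζ) :=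
  IsCompact.image_of_continuousOn hζ.supp ((continuousOn_mob γ⁻¹).mono hζ.sub)

theorem KK_sub (γ : SL(2, ℝ)) (ζ : ℂ → ℂ) : KK γ ζ ⊆ UH := by
  rintro _ ⟨z, _, rfl⟩
  exact mob_mem _ z

theorem mob_KK (γ : SL(2, ℝ)) {ζ : ℂ → ℂ} (hζ : Test UH ζ) : mob γ '' KK γ ζ = tsupport ζ := by
  ext w
  constructor
  · rintro ⟨_, ⟨z, hz, rfl⟩, rfl⟩
    rw [mob_mob_inv γ (hζ.sub hz)]
    exact hz
  · intro hw
    exact ⟨mob γ⁻¹ w, ⟨w, hw, rfl⟩, mob_mob_inv γ (hζ.sub hw)⟩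

theorem pb_zero (γ : SL(2, ℝ)) (ζ : ℂ → ℂ) {z : ℂ} (hz : z ∉ KK γ ζ) : pb γ ζ z = 0 := by
  by_cases h : z ∈ UH
  · rw [pb_of_mem γ ζ h]
    by_contra h0
    exact hz ⟨mob γ z, subset_tsupport ζ h0, mob_inv_mob γ h⟩
  · exact pb_of_notMem γ ζ h

theorem tsupport_pb (γ : SL(2, ℝ)) {ζ : ℂ → ℂ} (hζ : Test UH ζ) :
    tsupport (pb γ ζ) ⊆ KK γ ζ := by
  refine closure_minimal ?_ (isCompact_KK γ hζ).isClosed
  intro z hz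
  by_contra h
  exact hz (pb_zero γ ζ h)

theorem test_pb (γ : SL(2, ℝ)) {ζ : ℂ → ℂ} (hζ : Test UH ζ) : Test UH (pb γ ζ) := by
  refine ⟨?_, HasCompactSupport.intro (isCompact_KK γ hζ) fun z hz => pb_zero γ ζ hz,
    (tsupport_pb γ hζ).trans (KK_sub γ ζ)⟩
  rw [contDiff_iff_contDiffAt]
  intro z
  by_cases hz : z ∈ UH
  · have h1 : ContDiffAt ℝ ∞ (fun z => ζ (mob γ z)) z :=
      hζ.smooth.contDiffAt.comp z ((contDiffOn_mob γ).contDiffAt (isOpen_UH.mem_nhds hz))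
    refine h1.congr_of_eventuallyEq ?_
    filter_upwards [isOpen_UH.mem_nhds hz] with w hw
    exact pb_of_mem γ ζ hw
  · have hz' : z ∈ (KK γ ζ)ᶜ := fun h => hz (KK_sub γ ζ h)
    have : pb γ ζ =ᶠ[𝓝 z] fun _ => 0 := by
      filter_upwards [(isCompact_KK γ hζ).isClosed.isOpen_compl.mem_nhds hz'] with w hw
      exact pb_zero γ ζ hw
    exact contDiffAt_const.congr_of_eventuallyEq this

/-- the conformal factor is transformed with the Jacobian -/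
theorem gr_mob {Γ : Subgroup SL(2, ℝ)} {ρ : ℍ → ℝ} (hF : Fac Γ ρ) {γ : SL(2, ℝ)} (hγ : γ ∈ Γ)
    {z : ℂ} (hz : z ∈ UH) : (1 / ‖den γ z‖ ^ 4) * gr ρ (mob γ z) = gr ρ z := by
  unfold gr
  rw [ofComplex_mob, hF.inv γ hγ, mob_im γ hz]
  have h1 : ‖den γ z‖ ≠ 0 := norm_ne_zero_iff.2 (den_ne_zero γ hz)
  have h2 : z.im ≠ 0 := ne_of_gt hz
  field_simp

theorem gr_pos (ρ : ℍ → ℝ) {z : ℂ} (hz : z ∈ UH) : 0 < gr ρ z := by
  have h2 : 0 < z.im := hz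
  unfold gr
  positivity

theorem contDiffOn_gr {Γ : Subgroup SL(2, ℝ)} {ρ : ℍ → ℝ} (hF : Fac Γ ρ) :
    ContDiffOn ℝ ∞ (gr ρ) UH := by
  have h1 : ContDiffOn ℝ ∞ (fun z => Real.exp (2 * ro ρ z)) UH :=
    Real.contDiff_exp.comp_contDiffOn (contDiffOn_const.mul hF.smooth)
  have h2 : ContDiffOn ℝ ∞ (fun z : ℂ => z.im ^ 2) UH :=
    (Complex.imCLM.contDiff.pow 2).contDiffOn
  exact h1.div h2 fun z hz => by
    have h3 : 0 < z.im := hz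
    positivity

/-- the four-jet integrals of a test function and of its composition with `γ` agree -/
theorem E4_inv (hV : StmtCov) {Γ : Subgroup SL(2, ℝ)} {ρ : ℍ → ℝ} (hF : Fac Γ ρ) {h : ℕ → ℝ}
    {φ : ℕ → ℂ → ℂ} {V : Set ℂ} {σ : ℂ → ℝ} {φ' : ℕ → ℂ → ℂ} (A : Agree V UH (gr ρ) h φ σ φ')
    (hφ : ∀ γ ∈ Γ, ∀ n, ∀ z ∈ UH, φ n (mob γ z) = φ n z) {ζ : ℂ → ℂ} (hζ : Test UH ζ)
    {γ : SL(2, ℝ)} (hγ : γ ∈ Γ) (h1 : tsupport ζ ⊆ V) (h2 : KK γ ζ ⊆ V) {a b c d : ℤ}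
    (habcd : a + b + c + d = 0) (n : ℕ) :
    E4 σ h φ' (fun z => pb γ ζ z * ((Real.exp (2 * σ z) : ℝ) : ℂ)) a b c d n
      = E4 σ h φ' (fun z => ζ z * ((Real.exp (2 * σ z) : ℝ) : ℂ)) a b c d n := by
  unfold E4
  set Q : ℂ → ℂ := fun z => QJ.E σ h φ' a n z * QJ.E σ h φ' b n z * QJ.E σ h φ' c n z
    * QJ.E σ h φ' d n z with hQ
  have hQi : ∀ z ∈ V, mob γ z ∈ V → Q z = Q (mob γ z) := by
    intro z hz hz'
    have hc := fun j => hV Γ ρ hF h φ V σ φ' A hφ γ hγ j n z hz hz'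
    have hp : phase γ z ≠ 0 := phase_ne_zero γ (A.sub hz)
    have h4 : phase γ z ^ a * phase γ z ^ b * phase γ z ^ c * phase γ z ^ d = 1 := by
      rw [← zpow_add₀ hp, ← zpow_add₀ hp, ← zpow_add₀ hp, habcd, zpow_zero]
    simp only [hQ]
    rw [hc a, hc b, hc c, hc d]
    linear_combination (QJ.E σ h φ' a n (mob γ z) * QJ.E σ h φ' b n (mob γ z)
      * QJ.E σ h φ' c n (mob γ z) * QJ.E σ h φ' d n (mob γ z)) * h4
  have hl : ∫ z, pb γ ζ z * ((Real.exp (2 * σ z) : ℝ) : ℂ) * Q z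
      = ∫ z in KK γ ζ, pb γ ζ z * ((Real.exp (2 * σ z) : ℝ) : ℂ) * Q z := by
    rw [setIntegral_eq_integral_of_forall_compl_eq_zero]
    intro z hz
    rw [pb_zero γ ζ hz, zero_mul, zero_mul]
  have hr : ∫ z, ζ z * ((Real.exp (2 * σ z) : ℝ) : ℂ) * Q z
      = ∫ z in tsupport ζ, ζ z * ((Real.exp (2 * σ z) : ℝ) : ℂ) * Q z := by
    rw [setIntegral_eq_integral_of_forall_compl_eq_zero]
    intro z hz
    rw [image_eq_zero_of_notMem_tsupport hz, zero_mul, zero_mul]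
  rw [hl, hr, ← mob_KK γ hζ, Mob.int_image γ (isCompact_KK γ hζ) (KK_sub γ ζ)]
  refine setIntegral_congr_fun (isCompact_KK γ hζ).measurableSet fun z hz => ?_
  have hzU : z ∈ UH := KK_sub γ ζ hz
  have hzV : z ∈ V := h2 hz
  have hmV : mob γ z ∈ V := h1 (by rw [← mob_KK γ hζ]; exact ⟨z, hz, rfl⟩)
  beta_reduce
  rw [pb_of_mem γ ζ hzU, hQi z hzV hmV, A.eg z hzV, A.eg _ hmV, ← gr_mob hF hγ hzU]
  push_cast
  ring

theorem gk_zero (t : ℂ) : gk 0 t = 0 := by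
  simp [gk]

theorem lk_gk (t : ℂ) {k : ℤ} (hk : Even k) :
    lk (fun j => (gk j t : ℂ)) k (-k) 0 0 = -2 * (gk k t : ℂ) := by
  have h1 : (k - -k) % 2 = 0 := by omega
  obtain ⟨m, hm⟩ := hk
  have h2 : (k - 0) % 2 = 0 := by omega
  unfold lk
  rw [if_pos ⟨h1, h2, h2⟩, add_neg_cancel, add_zero]
  beta_reduce
  rw [gk_zero, ofReal_zero]
  ring

theorem test_ex {V : Set ℂ} (hV : IsOpen V) {ζ : ℂ → ℂ} (hζ : Test V ζ) {σ : ℂ → ℝ}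
    (hσ : ContDiff ℝ ∞ σ) : Test V (fun z => ζ z * ((Real.exp (2 * σ z) : ℝ) : ℂ)) := by
  refine hζ.mul hV ?_
  have h1 : ContDiff ℝ ∞ (fun z => Real.exp (2 * σ z)) :=
    Real.contDiff_exp.comp (contDiff_const.mul hσ)
  exact (Complex.ofRealCLM.contDiff.comp h1).contDiffOn

/-- the limit for the test function `ζ e^{2σ}` -/
theorem lim_eq (hN : StmtLnk) {Γ : Subgroup SL(2, ℝ)} {ρ : ℍ → ℝ} (hF : Fac Γ ρ) {h : ℕ → ℝ}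
    {φ : ℕ → ℂ → ℂ} {μ ϖ : Measure (ℍ × S1)} (hμ : FinK μ) (hJ : JG ρ h φ μ)
    (hC : Crossing ρ μ ϖ) {V : Set ℂ} {σ : ℂ → ℝ} {φ' : ℕ → ℂ → ℂ}
    (A : Agree V UH (gr ρ) h φ σ φ') {ζ : ℂ → ℂ} (hζ : Test V ζ) {k : ℤ} (hk : Even k) :
    Tendsto (fun n => E4 σ h φ' (fun z => ζ z * ((Real.exp (2 * σ z) : ℝ) : ℂ)) k (-k) 0 0 n
      - cl4 k (-k) 0 0 * E4 σ h φ' (fun z => ζ z * ((Real.exp (2 * σ z) : ℝ) : ℂ)) 0 0 0 0 n) atTop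
      (𝓝 (-2 * ∫ p : ℍ × S1, ζ p.1 * (gk k (p.2 : ℂ) : ℂ) ∂ϖ)) := by
  have h1 := hN Γ ρ hF h φ μ ϖ hμ hJ hC V σ φ' A _ (test_ex A.op hζ A.loc.sm) k (-k) 0 0
    (by ring)
  have h2 : ∫ p : ℍ × S1, ζ p.1 * ((Real.exp (2 * σ p.1) : ℝ) : ℂ)
      * ((Real.exp (-(2 * σ p.1)) : ℝ) : ℂ) * lk (fun k => (gk k (p.2 : ℂ) : ℂ)) k (-k) 0 0 ∂ϖ
      = -2 * ∫ p : ℍ × S1, ζ p.1 * (gk k (p.2 : ℂ) : ℂ) ∂ϖ := by
    rw [← integral_const_mul]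
    congr 1
    funext p
    rw [lk_gk _ hk]
    have h3 : ((Real.exp (2 * σ p.1) : ℝ) : ℂ) * ((Real.exp (-(2 * σ p.1)) : ℝ) : ℂ) = 1 := by
      rw [← ofReal_mul, ← Real.exp_add, add_neg_cancel, Real.exp_zero, ofReal_one]
    linear_combination (-2 * ζ p.1 * (gk k (p.2 : ℂ) : ℂ)) * h3
  rw [← h2]
  exact h1

end INE

open INE in
theorem t_INE (hV : StmtCov) (hL : StmtLcz) (hN : StmtLnk) : StmtIne := by
  intro Γ ρ hF h φ μ ϖ hU hμ hJ hC hφ ζ hζ γ hγ k hk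
  have hK : IsCompact (tsupport ζ ∪ KK γ ζ) := IsCompact.union hζ.supp (isCompact_KK γ hζ)
  obtain ⟨V, F, σ, φ', hKV, -, -, -, A⟩ := hL UH (gr ρ) h φ isOpen_UH (contDiffOn_gr hF)
    (fun z hz => gr_pos ρ hz) hU _ hK (union_subset hζ.sub (KK_sub γ ζ))
  have h1 : tsupport ζ ⊆ V := subset_union_left.trans hKV
  have h2 : KK γ ζ ⊆ V := subset_union_right.trans hKV
  have T1 : Test V ζ := ⟨hζ.smooth, hζ.supp, h1⟩
  have T2 : Test V (pb γ ζ) := ⟨(test_pb γ hζ).smooth, (test_pb γ hζ).supp,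
    (tsupport_pb γ hζ).trans h2⟩
  have L1 := lim_eq hN hF hμ hJ hC A T1 hk
  have L2 := lim_eq hN hF hμ hJ hC A T2 hk
  have e1 : ∀ n, E4 σ h φ' (fun z => pb γ ζ z * ((Real.exp (2 * σ z) : ℝ) : ℂ)) k (-k) 0 0 n
      - cl4 k (-k) 0 0 * E4 σ h φ' (fun z => pb γ ζ z * ((Real.exp (2 * σ z) : ℝ) : ℂ)) 0 0 0 0 n
      = E4 σ h φ' (fun z => ζ z * ((Real.exp (2 * σ z) : ℝ) : ℂ)) k (-k) 0 0 n
      - cl4 k (-k) 0 0 * E4 σ h φ' (fun z => ζ z * ((Real.exp (2 * σ z) : ℝ) : ℂ)) 0 0 0 0 n := by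
    intro n
    rw [E4_inv hV hF A hφ hζ hγ h1 h2 (by ring : k + -k + 0 + 0 = 0) n,
      E4_inv hV hF A hφ hζ hγ h1 h2 (by ring : (0 : ℤ) + 0 + 0 + 0 = 0) n]
  have L3 := L2.congr e1
  have h3 := tendsto_nhds_unique L3 L1
  have h4 : ∫ p : ℍ × S1, pb γ ζ p.1 * (gk k (p.2 : ℂ) : ℂ) ∂ϖ
      = ∫ p : ℍ × S1, ζ p.1 * (gk k (p.2 : ℂ) : ℂ) ∂ϖ :=
    mul_left_cancel₀ (by norm_num : (-2 : ℂ) ≠ 0) h3
  rw [← h4]
  congr 1
  funext p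
  rw [pb_of_mem γ ζ (coe_mem_UH p.1)]

end

end CRM
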