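import Pool.Agent.CRM.StG

/-!
GLM: the local hypotheses for the measure `muS` (helper83).
-/

open Complex MeasureTheory Filter Topology Set
open UpperHalfPlane hiding I
open scoped ContDiff MatrixGroups

namespace CRM

open QE QE.NC QJ U3 NFP

noncomputable section

namespace GLM

lemma pS_continuous : Continuous pS := UpperHalfPlane.continuous_coe.comp continuous_fst

lemma uS_continuous : Continuous uS :=
  continuous_const.mul (Complex.continuous_conj.comp (continuous_subtype_val.comp continuous_snd))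

lemma norm_uS (o : ℍ × S1) : ‖uS o‖ = 1 := by
  unfold uS
  rw [norm_mul, Complex.norm_I, RCLike.norm_conj, one_mul]
  exact mem_sphere_zero_iff_norm.1 o.2.2

lemma finF {μ : Measure (ℍ × S1)} (hμ : FinK μ) {F : Set ℂ} (hF : IsCompact F) (hFU : F ⊆ UH) :
    μ (pS ⁻¹' F) < ⊤ := by
  have h1 : IsCompact ((fun z : ℍ => (z : ℂ)) ⁻¹' F) := by
    refine UpperHalfPlane.isOpenEmbedding_coe.isInducing.isCompact_preimage' hF ?_
    intro z hz
    exact ⟨⟨z, hFU hz⟩, rfl⟩
  have h2 : pS ⁻¹' F = ((fun z : ℍ => (z : ℂ)) ⁻¹' F) ×ˢ univ := by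
    ext o
    exact ⟨fun h => ⟨h, mem_univ _⟩, fun h => h.1⟩
  rw [h2]
  exact hμ _ h1

lemma dens_measurable {σ : ℂ → ℝ} (hσ : Continuous σ) :
    Measurable fun o : ℍ × S1 => ENNReal.ofReal (Real.exp (-(2 * σ (pS o)))) := by
  have h1 : Continuous fun o : ℍ × S1 => Real.exp (-(2 * σ (pS o))) :=
    Real.continuous_exp.comp (continuous_const.mul (hσ.comp pS_continuous)).neg
  exact h1.measurable.ennreal_ofReal

lemma muS_fin {μ : Measure (ℍ × S1)} (hμ : FinK μ) {F : Set ℂ} (hF : IsCompact F) (hFU : F ⊆ UH)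
    {σ : ℂ → ℝ} (hσ : Continuous σ) : muS μ F σ univ ≠ ⊤ := by
  have hFm : MeasurableSet (pS ⁻¹' F) := hF.measurableSet.preimage pS_continuous.measurable
  unfold muS
  rw [withDensity_apply _ MeasurableSet.univ, Measure.restrict_univ]
  obtain ⟨C, hC⟩ := (hF.image (Real.continuous_exp.comp (continuous_const.mul hσ).neg :
    Continuous fun z : ℂ => Real.exp (-(2 * σ z)))).bddAbove
  have h1 : ∫⁻ o in pS ⁻¹' F, ENNReal.ofReal (Real.exp (-(2 * σ (pS o)))) ∂μ ≤
      ∫⁻ _ in pS ⁻¹' F, ENNReal.ofReal C ∂μ := by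
    refine lintegral_mono_ae ?_
    filter_upwards [ae_restrict_mem hFm] with o ho
    exact ENNReal.ofReal_le_ofReal (hC ⟨pS o, ho, rfl⟩)
  refine (h1.trans_lt ?_).ne
  rw [setLIntegral_const]
  exact ENNReal.mul_lt_top ENNReal.ofReal_lt_top (finF hμ hF hFU)

end GLM

open GLM in
theorem t_GLM : StmtGlm := by
  intro ρ h φ μ hμ hJ V σ φ' hA V' F hV'o hV'V hV'F hF hFU
  have hL := hA.loc
  have hσ : Continuous σ := hL.sm.continuous
  have hFm : MeasurableSet (pS ⁻¹' F) := hF.measurableSet.preimage pS_continuous.measurable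
  refine ⟨?_, ?_⟩
  · exact
      { op := hV'o
        hpos := hL.hpos
        hlim := hL.hlim
        sm := hL.sm
        smφ := hL.smφ
        real := hL.real
        eig := fun n z hz => hL.eig n z (hV'V hz)
        bdd := fun K hK hKV => hL.bdd K hK (hKV.trans hV'V) }
  · refine ⟨muS_fin hμ hF hFU hσ, pS_continuous.measurable, uS_continuous.measurable, norm_uS,
      ⟨F, hF, ?_⟩, ?_⟩
    · exact (withDensity_absolutelyContinuous _ _).ae_le (ae_restrict_mem hFm)
    · intro j m ζ hζ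
      have hζV : Test V ζ := ⟨hζ.smooth, hζ.supp, hζ.sub.trans hV'V⟩
      have h1 := hJ V σ φ' hA j m ζ hζV
      have h2 : ∫ o, ζ (pS o) * uS o ^ (j + m) ∂(muS μ F σ) =
          ∫ p : ℍ × S1, ζ p.1 * ((Real.exp (-(2 * σ p.1)) : ℝ) : ℂ)
            * (Complex.I * (starRingEnd ℂ) (p.2 : ℂ)) ^ (j + m) ∂μ := by
        unfold muS
        rw [integral_withDensity_eq_integral_toReal_smul (dens_measurable hσ)
          (ae_of_all _ fun o => ENNReal.ofReal_lt_top)]
        have h3 : ∀ o : ℍ × S1, (ENNReal.ofReal (Real.exp (-(2 * σ (pS o))))).toReal •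
            (ζ (pS o) * uS o ^ (j + m)) = ζ o.1 * ((Real.exp (-(2 * σ o.1)) : ℝ) : ℂ)
              * (Complex.I * (starRingEnd ℂ) (o.2 : ℂ)) ^ (j + m) := by
          intro o
          rw [ENNReal.toReal_ofReal (Real.exp_pos _).le, Complex.real_smul]
          show ((Real.exp (-(2 * σ (o.1 : ℂ))) : ℝ) : ℂ) * (ζ (o.1 : ℂ) *
            (Complex.I * (starRingEnd ℂ) (o.2 : ℂ)) ^ (j + m)) = _
          ring
        simp only [h3]
        refine setIntegral_eq_integral_of_forall_compl_eq_zero fun o ho => ?_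
        have h4 : ζ (o.1 : ℂ) = 0 :=
          image_eq_zero_of_notMem_tsupport fun hh => ho (hV'F (hζ.sub hh))
        rw [h4, zero_mul, zero_mul]
      rw [h2]
      exact h1

end

end CRM
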