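import Pool.Agent.CRM.StG

/-!
The crossing measure of a semiclassical measure: pairs of close points.
-/

open Complex MeasureTheory Filter Topology Set
open UpperHalfPlane hiding I
open scoped ContDiff MatrixGroups

namespace CRM

open QE QE.NC QJ U3 NFP

namespace CLB

/-- `ρ` is continuous -/
lemma cont_rho {Γ : Subgroup SL(2, ℝ)} {ρ : ℍ → ℝ} (h : Fac Γ ρ) : Continuous ρ := by
  have h1 : Continuous fun z : ℍ => ro ρ (z : ℂ) := by
    rw [← continuousOn_univ]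
    exact h.smooth.continuousOn.comp UpperHalfPlane.continuous_coe.continuousOn
      fun z _ => z.im_pos
  refine h1.congr fun z => ?_
  unfold ro
  rw [UpperHalfPlane.ofComplex_apply]

/-- a compact subset of the half plane -/
lemma cpt_box (b R : ℝ) (hb : 0 < b) : IsCompact {w : ℍ | ‖(w : ℂ)‖ ≤ R ∧ b ≤ w.im} := by
  have h1 : IsCompact {w : ℂ | ‖w‖ ≤ R ∧ b ≤ w.im} := by
    have h2 : {w : ℂ | ‖w‖ ≤ R ∧ b ≤ w.im} = Metric.closedBall 0 R ∩ {w : ℂ | b ≤ w.im} := by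
      ext w
      simp
    rw [h2]
    exact (isCompact_closedBall 0 R).inter_right (isClosed_le continuous_const Complex.continuous_im)
  have h3 : {w : ℍ | ‖(w : ℂ)‖ ≤ R ∧ b ≤ w.im} =
      ((↑) : ℍ → ℂ) ⁻¹' {w : ℂ | ‖w‖ ≤ R ∧ b ≤ w.im} := rfl
  rw [h3]
  refine (UpperHalfPlane.isOpenEmbedding_coe.isInducing.isCompact_preimage_iff ?_).2 h1
  rintro w ⟨_, hw⟩
  exact ⟨⟨w, lt_of_lt_of_le hb hw⟩, rfl⟩

/-- the estimate -/
lemma est {A B b D d y v ε : ℝ} (hA : 0 < A) (hB : 0 < B) (hb : 0 < b) (hy : b ≤ y)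
    (hyB : y ≤ B) (hD : D = A + B + 1) (hε : 0 < ε) (hε1 : ε ≤ 1) (hd : 0 ≤ d) (hv : 0 < v)
    (hyv : |y - v| ≤ d) (h : d ^ 2 ≤ A * ε ^ 2 * v) :
    d ≤ D ∧ d ≤ Real.sqrt (A * (B + D)) * ε ∧ min (b / 2) (b ^ 2 / (4 * A)) ≤ v := by
  have h1 := abs_le.1 hyv
  have hε2 : ε ^ 2 ≤ 1 := by nlinarith
  have hAε : A * ε ^ 2 ≤ A := by nlinarith
  have h2 : d ^ 2 ≤ A * v := h.trans (mul_le_mul_of_nonneg_right hAε hv.le)
  have h3 : d ≤ D := by
    by_contra hcon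
    push Not at hcon
    nlinarith
  refine ⟨h3, ?_, ?_⟩
  · refine abs_le_of_sq_le_sq' ?_ (by positivity) |>.2
    rw [mul_pow, Real.sq_sqrt (by rw [hD]; positivity)]
    calc d ^ 2 ≤ A * ε ^ 2 * v := h
      _ ≤ A * ε ^ 2 * (B + D) := by
        refine mul_le_mul_of_nonneg_left ?_ (by positivity)
        linarith
      _ = _ := by ring
  · by_contra hcon
    push Not at hcon
    rw [lt_min_iff] at hcon
    have h4 : v * (4 * A) < b ^ 2 := (lt_div_iff₀ (by positivity)).1 hcon.2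
    have h5 : b / 2 < y - v := by linarith [hcon.1]
    have h6 : (b / 2) ^ 2 < (y - v) ^ 2 := by
      have : 0 < b / 2 := by positivity
      nlinarith
    have h7 : (y - v) ^ 2 ≤ d ^ 2 := by
      rw [← sq_abs]
      exact pow_le_pow_left₀ (abs_nonneg _) hyv 2
    nlinarith

end CLB

theorem t_CLB : StmtClb := by
  intro Γ ρ hF K hK
  rcases K.eq_empty_or_nonempty with h0 | h0
  · subst h0
    exact ⟨0, ∅, isCompact_empty, subset_rfl, fun ε _ _ x _ hx => hx.elim⟩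
  obtain ⟨M, hM⟩ := Berry.bdd_of_cocompact (CLB.cont_rho hF) hF.inv hF.cpt
  obtain ⟨z0, hz0, hmin⟩ := hK.exists_isMinOn h0 UpperHalfPlane.continuous_im.continuousOn
  obtain ⟨R, hR⟩ := hK.exists_bound_of_continuousOn
    (f := fun z : ℍ => (z : ℂ)) UpperHalfPlane.continuous_coe.continuousOn
  set b : ℝ := z0.im with hb
  have hb0 : 0 < b := z0.im_pos
  have him : ∀ z ∈ K, b ≤ z.im := fun z hz => hmin hz
  set B : ℝ := R + 1 with hB
  have hR0 : 0 ≤ R := (norm_nonneg _).trans (hR z0 hz0)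
  have hBK : ∀ z ∈ K, z.im ≤ B := by
    intro z hz
    have h1 := (Complex.abs_im_le_norm (z : ℂ)).trans (hR z hz)
    have h2 := (abs_le.1 h1).2
    show (z : ℂ).im ≤ B
    linarith
  have hB0 : 0 < B := by linarith
  set A : ℝ := Real.exp (2 * M) * B with hA
  have hA0 : 0 < A := by positivity
  set D : ℝ := A + B + 1 with hD
  set b' : ℝ := min (b / 2) (b ^ 2 / (4 * A)) with hb'
  have hb'0 : 0 < b' := lt_min (by positivity) (by positivity)
  refine ⟨Real.sqrt (A * (B + D)), {w : ℍ | ‖(w : ℂ)‖ ≤ R + D ∧ b' ≤ w.im},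
    CLB.cpt_box b' (R + D) hb'0, fun z hz => ⟨?_, ?_⟩, fun ε hε hε1 x hx hxK => ?_⟩
  · have := hR z hz
    linarith
  · exact (min_le_left _ _).trans ((half_le_self hb0.le).trans (him z hz))
  · obtain ⟨⟨z, t⟩, w, t'⟩ := x
    have hx' : Real.exp (ρ z + ρ w) * ‖(z : ℂ) - (w : ℂ)‖ ^ 2 < ε ^ 2 * (z.im * w.im) := hx
    have hz : z ∈ K := hxK
    show (‖(w : ℂ)‖ ≤ R + D ∧ b' ≤ w.im) ∧ ‖(z : ℂ) - (w : ℂ)‖ ≤ Real.sqrt (A * (B + D)) * ε
    set d : ℝ := ‖(z : ℂ) - (w : ℂ)‖ with hd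
    have h1 : d ^ 2 ≤ A * ε ^ 2 * w.im := by
      have h2 : Real.exp (-(2 * M)) ≤ Real.exp (ρ z + ρ w) := by
        apply Real.exp_le_exp.2
        have h3 := (abs_le.1 (hM z)).1
        have h4 := (abs_le.1 (hM w)).1
        linarith
      have h3 : Real.exp (-(2 * M)) * d ^ 2 ≤ ε ^ 2 * (B * w.im) := by
        refine (mul_le_mul_of_nonneg_right h2 (sq_nonneg d)).trans (hx'.le.trans ?_)
        have := hBK z hz
        have h5 := w.im_pos
        gcongr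
      have h4 : Real.exp (2 * M) * (Real.exp (-(2 * M)) * d ^ 2) = d ^ 2 := by
        rw [← mul_assoc, ← Real.exp_add, add_neg_cancel, Real.exp_zero, one_mul]
      calc d ^ 2 = Real.exp (2 * M) * (Real.exp (-(2 * M)) * d ^ 2) := h4.symm
        _ ≤ Real.exp (2 * M) * (ε ^ 2 * (B * w.im)) :=
          mul_le_mul_of_nonneg_left h3 (Real.exp_pos _).le
        _ = A * ε ^ 2 * w.im := by rw [hA]; ring
    have h2 : |z.im - w.im| ≤ d := by
      have := Complex.abs_im_le_norm ((z : ℂ) - (w : ℂ))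
      exact this
    obtain ⟨e1, e2, e3⟩ := CLB.est hA0 hB0 hb0 (him z hz) (hBK z hz) hD hε hε1 (norm_nonneg _)
      w.im_pos h2 h1
    refine ⟨⟨?_, e3⟩, e2⟩
    have h3 : ‖(w : ℂ)‖ ≤ ‖(z : ℂ)‖ + d := by
      rw [hd, norm_sub_rev]
      calc ‖(w : ℂ)‖ = ‖(z : ℂ) + ((w : ℂ) - z)‖ := by congr 1; ring
        _ ≤ _ := norm_add_le _ _
    have h4 := hR z hz
    linarith

end CRM
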