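import Pool.Agent.CRM.StQ
import Pool.Agent.CRM.CLB
import Pool.Agent.NFP.SemTwo
import Pool.Agent.NFP.Ker
import Pool.Agent.BWM.C22

/-!
QES: quantum ergodicity means that the semiclassical measure is the Liouville measure.
-/

open Complex MeasureTheory Filter Topology Set
open UpperHalfPlane hiding I
open scoped ContDiff MatrixGroups ProbabilityTheory

namespace CRM

open QE QE.NC QJ U3 NFP

noncomputable section

namespace QES

lemma cont_dirS : Continuous dirS := by
  refine Continuous.subtype_mk ?_ _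
  fun_prop

lemma prob_angle : IsProbabilityMeasure angle := by
  refine ProbabilityTheory.cond_isProbabilityMeasure_of_finite ?_ ?_
  · rw [Real.volume_Ioc, Ne, ENNReal.ofReal_eq_zero, not_le, sub_zero]
    positivity
  · rw [Real.volume_Ioc]
    exact ENNReal.ofReal_ne_top

instance prob_uniS : IsProbabilityMeasure uniS := by
  have := prob_angle
  unfold uniS
  exact Measure.isProbabilityMeasure_map cont_dirS.measurable.aemeasurable

/-- integrals over the circle -/
lemma int_uniS {f : S1 → ℂ} (hf : Continuous f) :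
    ∫ t, f t ∂uniS = ((1 / (2 * Real.pi) : ℝ) : ℂ) * ∫ θ in (0 : ℝ)..(2 * Real.pi), f (dirS θ) := by
  unfold uniS
  rw [integral_map cont_dirS.measurable.aemeasurable hf.aestronglyMeasurable, PWL.angle_int,
    one_div, Complex.real_smul]

lemma area_lt {ρ : ℍ → ℝ} (hρ : Continuous ρ) {K : Set ℍ} (hK : IsCompact K) :
    Berry.area ρ K < ⊤ := by
  have h1 : Continuous fun z : ℍ => Real.exp (2 * ρ z) :=
    Real.continuous_exp.comp (continuous_const.mul hρ)
  have : IsLocallyFiniteMeasure (Berry.area ρ) :=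
    IsLocallyFiniteMeasure.withDensity_ofReal h1
  exact hK.measure_lt_top

lemma re_dirS (θ : ℝ) : ((dirS θ : S1) : ℂ).re = Real.cos θ := by
  show (Complex.exp (θ * Complex.I)).re = Real.cos θ
  rw [Complex.exp_ofReal_mul_I_re]

lemma im_dirS (θ : ℝ) : ((dirS θ : S1) : ℂ).im = Real.sin θ := by
  show (Complex.exp (θ * Complex.I)).im = Real.sin θ
  rw [Complex.exp_ofReal_mul_I_im]

lemma smooth_gR {ρ : ℍ → ℝ} (h : ContDiffOn ℝ ∞ (ro ρ) UH) : ContDiffOn ℝ ∞ (gR ρ) UH := by
  have h1 : ContDiffOn ℝ ∞ (fun z : ℂ => Real.exp (2 * ro ρ z) / z.im ^ 2) UH := by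
    refine (contDiffOn_const.mul h).exp.div ((Complex.imCLM.contDiff.contDiffOn).pow 2) ?_
    intro z hz
    have hz' : 0 < z.im := hz
    exact (pow_pos hz' 2).ne'
  exact Complex.ofRealCLM.contDiff.comp_contDiffOn h1

end QES

open QES in
theorem t_QES : StmtQes := by
  intro Γ ρ hF φ m hs hq
  have hρ : Continuous ρ := SEMTWO.cont_rho hF.smooth
  have hprod : (Berry.area ρ) ⊗ₘ (ProbabilityTheory.Kernel.const ℍ uniS)
      = (Berry.area ρ).prod uniS := Measure.compProd_const
  rw [hprod]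
  have hfin : ∀ K : Set ℍ, IsCompact K → ((Berry.area ρ).prod uniS) (K ×ˢ univ) < ⊤ := by
    intro K hK
    rw [Measure.prod_prod, measure_univ, mul_one]
    exact area_lt hρ hK
  refine ⟨hfin, ?_⟩
  intro j k ζ h1 h2 h3
  have hζ : Test UH ζ := ⟨h1, h2, h3⟩
  have hζ' : Test UH (fun z => ζ z * gR ρ z) :=
    hζ.mul (isOpen_lt continuous_const Complex.continuous_im) (smooth_gR hF.smooth)
  have h4 := hq j k _ hζ'.smooth hζ'.supp hζ'.sub
  have tr : ∀ G : ℂ → ℂ, ∫ z : ℍ, ζ z * G z ∂(Berry.area ρ)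
      = ∫ z : ℂ, (ζ z * gR ρ z) * G z := by
    intro G
    rw [SEMTWO.int_area hρ (fun z => ζ z * G z)]
    rw [← setIntegral_eq_integral_of_forall_compl_eq_zero (s := UH)
      (f := fun z : ℂ => (ζ z * gR ρ z) * G z)]
    · refine setIntegral_congr_fun (measurableSet_lt measurable_const Complex.measurable_im) ?_
      intro z _
      simp only
      ring
    · intro z hz
      rw [image_eq_zero_of_notMem_tsupport fun hh => hz (hζ.sub hh), zero_mul, zero_mul]
  have hcr : Continuous fun p : ℍ × S1 => Real.exp (ρ p.1) / p.1.im :=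
    (Real.continuous_exp.comp (hρ.comp continuous_fst)).div
      (UpperHalfPlane.continuous_im.comp continuous_fst) fun p => p.1.im_pos.ne'
  have hcw : Continuous fun p : ℍ × S1 => (p.2 : ℂ) := continuous_subtype_val.comp continuous_snd
  have hG : Continuous fun p : ℍ × S1 => (((Real.exp (ρ p.1) / p.1.im * (p.2 : ℂ).re) ^ j
          * (Real.exp (ρ p.1) / p.1.im * (p.2 : ℂ).im) ^ k : ℝ) : ℂ) :=
    continuous_ofReal.comp (((hcr.mul (continuous_re.comp hcw)).pow j).mul
        ((hcr.mul (continuous_im.comp hcw)).pow k))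
  have hlim : ∫ p : ℍ × S1, ζ p.1 * (((Real.exp (ρ p.1) / p.1.im * (p.2 : ℂ).re) ^ j
          * (Real.exp (ρ p.1) / p.1.im * (p.2 : ℂ).im) ^ k : ℝ) : ℂ) ∂((Berry.area ρ).prod uniS)
      = ∫ z : ℂ, (ζ z * gR ρ z) * ((1 / (2 * Real.pi) * ∫ θ in (0 : ℝ)..(2 * Real.pi),
        (Real.exp (ρ (ofComplex z)) / z.im * Real.cos θ) ^ j
          * (Real.exp (ρ (ofComplex z)) / z.im * Real.sin θ) ^ k : ℝ) : ℂ) := by
    rw [← tr, integral_prod _ (SEMTWO.int_mu hfin hζ hG)]
    refine integral_congr_ae (Eventually.of_forall fun z => ?_)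
    simp only
    rw [integral_const_mul]
    congr 1
    rw [int_uniS (f := fun t : S1 => (((Real.exp (ρ z) / z.im * (t : ℂ).re) ^ j
          * (Real.exp (ρ z) / z.im * (t : ℂ).im) ^ k : ℝ) : ℂ))
      (hG.comp (Continuous.prodMk_right z))]
    simp only [re_dirS, im_dirS]
    rw [intervalIntegral.integral_ofReal, ← Complex.ofReal_mul, ofComplex_apply]
    rfl
  rw [hlim]
  refine h4.congr fun n => ?_
  rw [← tr]
  refine integral_congr_ae (Eventually.of_forall fun z => ?_)
  simp only [ofComplex_apply]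

end

end CRM
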