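import Pool.Agent.CRM.Stmts

/-!
DNS: density of the trigonometric polynomials (Stone-Weierstrass on `K × S¹`, and a cutoff function).
-/

open Complex MeasureTheory Filter Topology Set
open scoped ContDiff Manifold

namespace CRM

open QE QJ U3

noncomputable section

namespace DNS

section

variable (K : Set ℂ)

/-- the functions `g(z) t ^ k` with smooth `g` -/
def mon : Submonoid C(K × Circle, ℂ) where
  carrier := {F | ∃ (k : ℤ) (g : ℂ → ℂ), ContDiff ℝ ∞ g ∧ ∀ x, F x = g x.1 * (x.2 : ℂ) ^ k}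
  mul_mem' := by
    rintro F G ⟨k, g, hg, hF⟩ ⟨l, h, hh, hG⟩
    refine ⟨k + l, fun z => g z * h z, hg.mul hh, fun x => ?_⟩
    rw [ContinuousMap.mul_apply, hF, hG, zpow_add₀ (Circle.coe_ne_zero x.2)]
    ring
  one_mem' := ⟨0, fun _ => 1, contDiff_const, fun x => by simp⟩

theorem mon_star {F : C(K × Circle, ℂ)} (h : F ∈ mon K) : star F ∈ mon K := by
  obtain ⟨k, g, hg, hF⟩ := h
  refine ⟨-k, fun z => (starRingEnd ℂ) (g z), conjCLE.contDiff.comp hg, fun x => ?_⟩
  have h1 : star F x = (starRingEnd ℂ) (F x) := rfl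
  rw [h1, hF, map_mul, map_zpow₀, ← Circle.coe_inv_eq_conj, Circle.coe_inv, inv_zpow, zpow_neg]

/-- the algebra generated by them -/
def alg : StarSubalgebra ℂ C(K × Circle, ℂ) :=
  { Algebra.adjoin ℂ (mon K : Set C(K × Circle, ℂ)) with
    star_mem' := by
      intro a ha
      have ha' : a ∈ Algebra.adjoin ℂ (mon K : Set C(K × Circle, ℂ)) := ha
      change star a ∈ Algebra.adjoin ℂ (mon K : Set C(K × Circle, ℂ))
      induction ha' using Algebra.adjoin_induction with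
      | mem x hx => exact Algebra.subset_adjoin (mon_star K hx)
      | algebraMap c =>
        rw [← algebraMap_star_comm]
        exact Subalgebra.algebraMap_mem _ _
      | add x y hx hy h1 h2 =>
        rw [star_add]
        exact add_mem (h1 hx) (h2 hy)
      | mul x y hx hy h1 h2 =>
        rw [star_mul]
        exact mul_mem (h2 hy) (h1 hx) }

theorem mem_alg {F : C(K × Circle, ℂ)} (h : F ∈ mon K) : F ∈ alg K :=
  Algebra.subset_adjoin (R := ℂ) (A := C(K × Circle, ℂ)) h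

theorem separates : (alg K).SeparatesPoints := by
  intro x y hxy
  by_cases h1 : x.1 = y.1
  · have h2 : x.2 ≠ y.2 := fun h => hxy (Prod.ext h1 h)
    let F : C(K × Circle, ℂ) := ⟨fun x => (x.2 : ℂ), by fun_prop⟩
    refine ⟨F, ⟨F, mem_alg K ⟨1, fun _ => 1, contDiff_const, fun x => ?_⟩, rfl⟩, ?_⟩
    · rw [zpow_one, one_mul]
      rfl
    · exact fun h => h2 (Subtype.ext h)
  · let F : C(K × Circle, ℂ) := ⟨fun x => (x.1 : ℂ), by fun_prop⟩
    refine ⟨F, ⟨F, mem_alg K ⟨0, fun z => z, contDiff_id, fun x => ?_⟩, rfl⟩, ?_⟩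
    · rw [zpow_zero, mul_one]
      rfl
    · exact fun h => h1 (Subtype.ext h)

/-- the elements of the algebra are trigonometric polynomials -/
theorem form {F : C(K × Circle, ℂ)} (h : F ∈ alg K) :
    ∃ (N₀ : ℕ) (g : ℤ → ℂ → ℂ), (∀ k, ContDiff ℝ ∞ (g k)) ∧ ∀ N : ℕ, N₀ ≤ N → ∀ x,
      F x = ∑ k ∈ Finset.Icc (-(N : ℤ)) N, g k x.1 * (x.2 : ℂ) ^ k := by
  classical
  have h1 : F ∈ Submodule.span ℂ (mon K : Set C(K × Circle, ℂ)) := by
    have h2 : F ∈ Subalgebra.toSubmodule (Algebra.adjoin ℂ (mon K : Set C(K × Circle, ℂ))) := h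
    rwa [Algebra.adjoin_eq_span, Submonoid.closure_eq] at h2
  clear h
  induction h1 using Submodule.span_induction with
  | mem F hF =>
    obtain ⟨k, g, hg, hF⟩ := hF
    refine ⟨k.natAbs, fun l => if l = k then g else 0, fun l => ?_, fun N hN x => ?_⟩
    · by_cases h : l = k
      · simpa [h] using hg
      · simp only [h, if_false]
        exact contDiff_const
    · rw [hF, Finset.sum_eq_single k]
      · simp only [if_true]
      · intro l _ hl
        simp only [if_neg hl, Pi.zero_apply, zero_mul]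
      · intro h
        refine absurd (Finset.mem_Icc.2 ?_) h
        constructor <;> omega
  | zero => exact ⟨0, fun _ _ => 0, fun _ => contDiff_const, fun N _ x => by simp⟩
  | add F G _ _ hF hG =>
    obtain ⟨N, f, hf, hF⟩ := hF
    obtain ⟨M, g, hg, hG⟩ := hG
    refine ⟨max N M, fun k z => f k z + g k z, fun k => (hf k).add (hg k), fun L hL x => ?_⟩
    rw [ContinuousMap.add_apply, hF L (le_of_max_le_left hL), hG L (le_of_max_le_right hL),
      ← Finset.sum_add_distrib]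
    exact Finset.sum_congr rfl fun k _ => by ring
  | smul c F _ hF =>
    obtain ⟨N, f, hf, hF⟩ := hF
    refine ⟨N, fun k z => c * f k z, fun k => contDiff_const.mul (hf k), fun L hL x => ?_⟩
    rw [ContinuousMap.smul_apply, hF L hL, smul_eq_mul, Finset.mul_sum]
    exact Finset.sum_congr rfl fun k _ => by ring

/-- approximation on `K × S¹` -/
theorem approx (hK : IsCompact K) {f : ℂ × ℂ → ℂ} (hf : Continuous f) {δ : ℝ} (hδ : 0 < δ) :
    ∃ (N : ℕ) (g : ℤ → ℂ → ℂ), (∀ k, ContDiff ℝ ∞ (g k)) ∧ ∀ z ∈ K, ∀ t : ℂ, ‖t‖ = 1 →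
      ‖f (z, t) - ∑ k ∈ Finset.Icc (-(N : ℤ)) N, g k z * t ^ k‖ ≤ δ := by
  have : CompactSpace K := isCompact_iff_compactSpace.1 hK
  have h1 := ContinuousMap.starSubalgebra_topologicalClosure_eq_top_of_separatesPoints (alg K)
    (separates K)
  let F : C(K × Circle, ℂ) := ⟨fun x => f (x.1, (x.2 : ℂ)), by fun_prop⟩
  have h2 : F ∈ (alg K).topologicalClosure := by
    rw [h1]
    trivial
  have h3 : F ∈ closure ((alg K : StarSubalgebra ℂ C(K × Circle, ℂ)) : Set C(K × Circle, ℂ)) := h2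
  obtain ⟨G, hG, hFG⟩ := Metric.mem_closure_iff.1 h3 δ hδ
  obtain ⟨N, g, hg, hgG⟩ := form K hG
  refine ⟨N, g, hg, fun z hz t ht => ?_⟩
  have h4 := hgG N le_rfl (⟨z, hz⟩, (⟨t, mem_sphere_zero_iff_norm.2 ht⟩ : Circle))
  have h5 : F (⟨z, hz⟩, (⟨t, mem_sphere_zero_iff_norm.2 ht⟩ : Circle)) = f (z, t) := rfl
  have h6 := (ContinuousMap.dist_apply_le_dist (f := F) (g := G)
    (⟨z, hz⟩, (⟨t, mem_sphere_zero_iff_norm.2 ht⟩ : Circle))).trans hFG.le
  rw [dist_eq_norm, h5, h4] at h6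
  exact h6

end

end DNS

theorem t_DNS : StmtDns := by
  intro V f hV hf
  obtain ⟨hc, K₁, hK₁, hK₁V, hf0⟩ := hf
  obtain ⟨K, hK, hK₁K, hKV⟩ := exists_compact_between hK₁ hV hK₁V
  obtain ⟨χ, hχ1, hχ2, hχ3⟩ := exists_contMDiffMap_one_nhds_of_subset_interior (n := (⊤ : ℕ∞))
    𝓘(ℝ, ℂ) hK₁.isClosed hK₁K
  have hχs : ContDiff ℝ ∞ (χ : ℂ → ℝ) := χ.contMDiff.contDiff
  have hχc : ContDiff ℝ ∞ (fun z => (χ z : ℂ)) := ofRealCLM.contDiff.comp hχs
  have hone : ∀ z ∈ K₁, χ z = 1 := fun z hz =>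
    (hχ1.filter_mono (nhds_le_nhdsSet hz)).self_of_nhds
  refine ⟨K, hK, hKV, fun δ hδ => ?_⟩
  obtain ⟨N, g, hg, hfg⟩ := DNS.approx K hK hc hδ
  have hts : ∀ k, tsupport (fun z => (χ z : ℂ) * g k z) ⊆ K := by
    intro k
    refine closure_minimal (fun z hz => ?_) hK.isClosed
    by_contra h
    exact hz (by simp [hχ2 z h])
  have hfK : ∀ z, z ∉ K → ∀ t, f (z, t) = 0 := fun z hz t =>
    hf0 z (fun h => hz (interior_subset (hK₁K h))) t
  refine ⟨N, fun k z => (χ z : ℂ) * g k z, fun k => ⟨hχc.mul (hg k),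
    hK.of_isClosed_subset (isClosed_tsupport _) (hts k), (hts k).trans hKV⟩, hts, hfK,
    fun z t ht => ?_⟩
  have h1 : f (z, t) - ∑ k ∈ Finset.Icc (-(N : ℤ)) N, (χ z : ℂ) * g k z * t ^ k =
      (χ z : ℂ) * (f (z, t) - ∑ k ∈ Finset.Icc (-(N : ℤ)) N, g k z * t ^ k) := by
    have h2 : f (z, t) = (χ z : ℂ) * f (z, t) := by
      by_cases hz : z ∈ K₁
      · rw [hone z hz, ofReal_one, one_mul]
      · rw [hf0 z hz, mul_zero]
    rw [mul_sub, ← h2, Finset.mul_sum]
    congr 1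
    exact Finset.sum_congr rfl fun k _ => by ring
  rw [h1, norm_mul]
  by_cases hz : z ∈ K
  · obtain ⟨h3, h4⟩ := hχ3 z
    rw [Complex.norm_real, Real.norm_of_nonneg h3]
    calc χ z * ‖f (z, t) - ∑ k ∈ Finset.Icc (-(N : ℤ)) N, g k z * t ^ k‖ ≤ 1 * δ :=
          mul_le_mul h4 (hfg z hz t ht) (norm_nonneg _) zero_le_one
      _ = δ := one_mul δ
  · rw [hχ2 z hz, ofReal_zero, norm_zero, zero_mul]
    exact hδ.le

end

end CRM
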