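import Pool.Agent.CRM.StG

/-!
CRM, module EXF: existence of the limits for all test functions.
-/

open Complex MeasureTheory Filter Topology Set
open UpperHalfPlane hiding I
open scoped ContDiff MatrixGroups

namespace CRM

open QE QE.NC QJ U3 NFP

noncomputable section

namespace EXF

/-- the conjugate direction of a complex number -/
def dirc (t : ℂ) : S1 :=
  ⟨(starRingEnd ℂ) (if t = 0 then 1 else t / (‖t‖ : ℂ)), by
    rw [mem_sphere_zero_iff_norm, RCLike.norm_conj]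
    split_ifs with h
    · exact norm_one
    · rw [norm_div, Complex.norm_real, norm_norm, div_self (norm_ne_zero_iff.mpr h)]⟩

lemma dirc_conj (t : S1) : dirc ((starRingEnd ℂ) (t : ℂ)) = t := by
  have h1 : ‖(t : ℂ)‖ = 1 := by
    have := t.2
    rwa [mem_sphere_zero_iff_norm] at this
  have h2 : (starRingEnd ℂ) (t : ℂ) ≠ 0 := by
    rw [← norm_ne_zero_iff, RCLike.norm_conj, h1]
    exact one_ne_zero
  apply Subtype.ext
  unfold dirc
  simp only
  rw [if_neg h2, RCLike.norm_conj, h1, Complex.ofReal_one, div_one, Complex.conj_conj]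

lemma norm_conj_S1 (t : S1) : ‖(starRingEnd ℂ) (t : ℂ)‖ = 1 := by
  have := t.2
  rw [mem_sphere_zero_iff_norm] at this
  rw [RCLike.norm_conj, this]

lemma continuousAt_dirc {t : ℂ} (ht : t ≠ 0) : ContinuousAt dirc t := by
  rw [Topology.IsInducing.subtypeVal.continuousAt_iff]
  have h1 : ContinuousAt (fun s : ℂ => (starRingEnd ℂ) (s / (‖s‖ : ℂ))) t := by
    refine Complex.continuous_conj.continuousAt.comp ?_
    refine ContinuousAt.div continuousAt_id ?_ ?_
    · exact (Complex.continuous_ofReal.comp continuous_norm).continuousAt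
    · rw [Complex.ofReal_ne_zero]
      exact norm_ne_zero_iff.mpr ht
  refine h1.congr ?_
  filter_upwards [isOpen_ne.mem_nhds ht] with s hs
  have hs' : s ≠ 0 := hs
  unfold dirc
  simp only [Function.comp_apply]
  rw [if_neg hs']

/-- the extension of a function on `ℍ × S1` to a function on `ℂ × ℂ`, after multiplication with a
function `c` of the base point and in the convention of the jets for the direction -/
def gx (c : ℂ → ℝ) (f : ℍ × S1 → ℝ) (x : ℂ × ℂ) : ℂ :=
  if 0 < x.1.im then ((c x.1 * (min ‖x.2‖ 1 * f (ofComplex x.1, dirc x.2)) : ℝ) : ℂ) else 0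

lemma gx_conj (c : ℂ → ℝ) (f : ℍ × S1 → ℝ) (z : ℍ) (t : S1) :
    gx c f (z, (starRingEnd ℂ) (t : ℂ)) = ((c z * f (z, t) : ℝ) : ℂ) := by
  have hz : 0 < (z : ℂ).im := z.im_pos
  unfold gx
  simp only
  rw [if_pos hz, norm_conj_S1, min_self, one_mul, dirc_conj, ofComplex_apply]

lemma gx_zero {c : ℂ → ℝ} {f : ℍ × S1 → ℝ} {K : Set ℂ}
    (hf0 : ∀ (z : ℍ) (t : S1), (z : ℂ) ∉ K → f (z, t) = 0) {z : ℂ} (hz : z ∉ K) (t : ℂ) :
    gx c f (z, t) = 0 := by
  unfold gx
  simp only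
  split_ifs with h
  · rw [hf0 (ofComplex z) (dirc t) (by
      rw [show ((ofComplex z : ℍ) : ℂ) = z by rw [ofComplex_apply_of_im_pos h]]
      exact hz)]
    simp
  · rfl

/-- functions on `ℍ × S1` which vanish over the complement of a compact set are bounded -/
lemma bounded {f : ℍ × S1 → ℝ} {K : Set ℂ} (hf : Continuous f) (hK : IsCompact K) (hKU : K ⊆ UH)
    (hf0 : ∀ (z : ℍ) (t : S1), (z : ℂ) ∉ K → f (z, t) = 0) : ∃ C, ∀ x, ‖f x‖ ≤ C := by
  have hK' : IsCompact ((fun z : ℍ => (z : ℂ)) ⁻¹' K) := by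
    refine isOpenEmbedding_coe.isInducing.isCompact_preimage' hK ?_
    intro z hz
    exact ⟨⟨z, hKU hz⟩, rfl⟩
  refine hf.bounded_above_of_compact_support ?_
  refine HasCompactSupport.intro (hK'.prod isCompact_univ) ?_
  intro x hx
  apply hf0 x.1 x.2
  intro h
  exact hx ⟨h, mem_univ _⟩

lemma cont_gx {c : ℂ → ℝ} {f : ℍ × S1 → ℝ} {K : Set ℂ} (hc : Continuous c) (hf : Continuous f)
    (hK : IsCompact K) (hKU : K ⊆ UH)
    (hf0 : ∀ (z : ℍ) (t : S1), (z : ℂ) ∉ K → f (z, t) = 0) : Continuous (gx c f) := by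
  obtain ⟨C, hC⟩ := bounded hf hK hKU hf0
  rw [continuous_iff_continuousAt]
  rintro ⟨z, t⟩
  by_cases hz : z ∈ K
  · have hzU : 0 < z.im := hKU hz
    have hev : ∀ᶠ x : ℂ × ℂ in 𝓝 (z, t), 0 < x.1.im :=
      (isOpen_lt continuous_const (Complex.continuous_im.comp continuous_fst)).mem_nhds hzU
    have he : (fun x : ℂ × ℂ => ((c x.1 * (min ‖x.2‖ 1 * f (ofComplex x.1, dirc x.2)) : ℝ) : ℂ))
        =ᶠ[𝓝 (z, t)] gx c f := by
      filter_upwards [hev] with x hx
      unfold gx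
      rw [if_pos hx]
    refine ContinuousAt.congr ?_ he
    refine Complex.continuous_ofReal.continuousAt.comp ?_
    refine ContinuousAt.mul (hc.comp continuous_fst).continuousAt ?_
    by_cases ht : t = 0
    · subst ht
      have h0 : (fun x : ℂ × ℂ => min ‖x.2‖ 1 * f (ofComplex x.1, dirc x.2)) (z, (0 : ℂ)) = 0 := by
        simp
      unfold ContinuousAt
      rw [h0]
      have h1 : Tendsto (fun x : ℂ × ℂ => ‖x.2‖ * C) (𝓝 (z, (0 : ℂ))) (𝓝 0) := by
        have h2 : Continuous fun x : ℂ × ℂ => ‖x.2‖ * C :=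
          (continuous_norm.comp continuous_snd).mul continuous_const
        have h3 := h2.tendsto (z, (0 : ℂ))
        simpa using h3
      refine squeeze_zero_norm (fun x => ?_) h1
      rw [norm_mul, Real.norm_of_nonneg (le_min (norm_nonneg _) zero_le_one)]
      exact mul_le_mul (min_le_left _ _) (hC _) (norm_nonneg _) (norm_nonneg _)
    · refine ContinuousAt.mul ((continuous_norm.comp continuous_snd).min
        continuous_const).continuousAt ?_
      have h1 : ContinuousAt (fun x : ℂ × ℂ => (ofComplex x.1 : ℍ)) (z, t) :=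
        ContinuousAt.comp (f := fun x : ℂ × ℂ => x.1) (g := fun w : ℂ => (ofComplex w : ℍ))
          (contMDiffAt_ofComplex (n := 0) hzU).continuousAt continuousAt_fst
      have h2 : ContinuousAt (fun x : ℂ × ℂ => dirc x.2) (z, t) :=
        ContinuousAt.comp (f := fun x : ℂ × ℂ => x.2) (g := dirc)
          (continuousAt_dirc ht) continuousAt_snd
      exact hf.continuousAt.comp (h1.prodMk h2)
  · have he : (fun _ : ℂ × ℂ => (0 : ℂ)) =ᶠ[𝓝 (z, t)] gx c f := by
      have h1 : ∀ᶠ x : ℂ × ℂ in 𝓝 (z, t), x.1 ∉ K :=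
        (hK.isClosed.isOpen_compl.preimage continuous_fst).mem_nhds hz
      filter_upwards [h1] with x hx
      exact (gx_zero hf0 hx x.2).symm
    exact continuousAt_const.congr he

/-- the extension is a test function -/
lemma tf_gx {V : Set ℂ} {c : ℂ → ℝ} {f : ℍ × S1 → ℝ} {K : Set ℂ} (hc : Continuous c)
    (hf : Continuous f) (hK : IsCompact K) (hKU : K ⊆ UH) (hKV : K ⊆ V)
    (hf0 : ∀ (z : ℍ) (t : S1), (z : ℂ) ∉ K → f (z, t) = 0) : TF V (gx c f) where
  cont := cont_gx hc hf hK hKU hf0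
  supp := ⟨K, hK, hKV, fun _ hz t => gx_zero hf0 hz t⟩

lemma isOpen_UH' : IsOpen UH := isOpen_lt continuous_const Complex.continuous_im

lemma smooth_gr {Γ : Subgroup SL(2, ℝ)} {ρ : ℍ → ℝ} (hF : Fac Γ ρ) :
    ContDiffOn ℝ ∞ (gr ρ) UH := by
  have h1 : ContDiffOn ℝ ∞ (fun z : ℂ => ρ (ofComplex z)) UH := hF.smooth
  have h2 : ContDiffOn ℝ ∞ (fun z : ℂ => z.im ^ 2) UH :=
    (Complex.imCLM.contDiff.pow 2).contDiffOn
  exact ((contDiffOn_const.mul h1).exp).div h2 fun z hz => pow_ne_zero 2 (ne_of_gt hz)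

lemma pos_gr (ρ : ℍ → ℝ) : ∀ z ∈ UH, 0 < gr ρ z := fun _ hz =>
  div_pos (Real.exp_pos _) (pow_pos hz 2)

end EXF

/-- EXF -/
theorem t_EXF (hL : StmtLcz) (hG : StmtGlm) (hC : StmtCrl) (hK : StmtGkr) : StmtExf := by
  intro Γ ρ hF h φ μ hU hμ hJ f hf hfs
  -- the projection of the support
  have hK0c : IsCompact ((fun o : ℍ × S1 => (o.1 : ℂ)) '' tsupport f) :=
    hfs.image (UpperHalfPlane.continuous_coe.comp continuous_fst)
  have hK0U : (fun o : ℍ × S1 => (o.1 : ℂ)) '' tsupport f ⊆ UH := by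
    rintro _ ⟨o, -, rfl⟩
    exact o.1.im_pos
  have hf0 : ∀ (z : ℍ) (t : S1), (z : ℂ) ∉ (fun o : ℍ × S1 => (o.1 : ℂ)) '' tsupport f →
      f (z, t) = 0 := by
    intro z t hz
    apply image_eq_zero_of_notMem_tsupport
    intro hzt
    exact hz ⟨(z, t), hzt, rfl⟩
  obtain ⟨V, F, σ, φ', hKV, hVF, hFU, hFc, A⟩ := hL UH (gr ρ) h φ EXF.isOpen_UH'
    (EXF.smooth_gr hF) (EXF.pos_gr ρ) hU _ hK0c hK0U
  obtain ⟨LB, LM⟩ := hG ρ h φ μ hμ hJ V σ φ' A V F A.op subset_rfl hVF hFc hFU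
  obtain ⟨hP, hT, -⟩ := hC V σ h φ' (ℍ × S1) (muS μ F σ) pS uS LB LM
  have hcσ : Continuous fun z : ℂ => Real.exp (2 * σ z) :=
    Real.continuous_exp.comp (continuous_const.mul LB.sm.continuous)
  have hTF : TF V (EXF.gx (fun z => Real.exp (2 * σ z)) f) :=
    EXF.tf_gx hcσ hf hK0c hK0U hKV hf0
  obtain ⟨l, hl⟩ := hT _ hTF
  have hd := hK Γ ρ hF μ hμ V F σ A.op hVF hFU hFc LB.sm A.eg hP f _ hf hK0c hKV hf0 _ hTF
    (fun z t _ => EXF.gx_conj _ f z t)
  refine ⟨l.re, ?_⟩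
  have h1 := (Complex.continuous_re.tendsto _).comp (hl.sub hd)
  rw [sub_zero] at h1
  refine h1.congr fun ε => ?_
  simp only [Function.comp_apply, sub_sub_cancel, Complex.ofReal_re]

end

end CRM
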