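import Pool.Agent.CRM.Stmts

/-!
KCP: the product of a kernel and a kernel on a much smaller scale.
-/

open Complex MeasureTheory Filter Topology Set
open scoped ContDiff

namespace CRM

open QE QJ U3

namespace KCP

/-- bounds for the conformal factor -/
structure Sg (σ : ℂ → ℝ) (B : Set ℂ) (A : ℝ) : Prop where
  bd : ∀ y ∈ B, |σ y| ≤ A
  lip : ∀ y ∈ B, ∀ w ∈ B, |σ y - σ w| ≤ A * ‖y - w‖

/-- bounds for the bump function -/
structure Bt (β : ℝ → ℝ) (A : ℝ) : Prop where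
  nn : ∀ t, 0 ≤ β t
  bd : ∀ t, 0 ≤ t → β t ≤ A
  lip : ∀ t t', 0 ≤ t → 0 ≤ t' → |β t - β t'| ≤ A * |t - t'|
  supp : ∀ t, 1 ≤ t → β t = 0

lemma r2_nonneg (σ : ℂ → ℝ) (y w : ℂ) : 0 ≤ r2 σ y w := by unfold r2; positivity

lemma exp_two (A : ℝ) : Real.exp (2 * A) = Real.exp A ^ 2 := by
  rw [← Real.exp_nat_mul]; norm_num

variable {σ : ℂ → ℝ} {B : Set ℂ} {A : ℝ} {β b : ℝ → ℝ}

lemma supp_le (hσ : Sg σ B A) (hβ : Bt β A) {y w : ℂ} (hy : y ∈ B) (hw : w ∈ B) {τ : ℝ}
    (hτ : 0 < τ) (h : β (r2 σ y w / τ ^ 2) ≠ 0) : ‖y - w‖ ≤ Real.exp A * τ := by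
  have h1 : r2 σ y w / τ ^ 2 < 1 := by
    by_contra hc
    exact h (hβ.supp _ (not_lt.1 hc))
  have hτ2 : 0 < τ ^ 2 := by positivity
  rw [div_lt_one hτ2] at h1
  have h2 : Real.exp (-(2 * A)) ≤ Real.exp (σ y + σ w) := by
    apply Real.exp_le_exp.2
    have := abs_le.1 (hσ.bd y hy)
    have := abs_le.1 (hσ.bd w hw)
    linarith
  have h3 : Real.exp (-(2 * A)) * ‖w - y‖ ^ 2 < τ ^ 2 :=
    lt_of_le_of_lt (mul_le_mul_of_nonneg_right h2 (by positivity)) h1
  have h4 : ‖w - y‖ ^ 2 ≤ (Real.exp A * τ) ^ 2 := by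
    have e1 : Real.exp (2 * A) * (Real.exp (-(2 * A)) * ‖w - y‖ ^ 2) = ‖w - y‖ ^ 2 := by
      rw [← mul_assoc, ← Real.exp_add]
      simp
    have e2 : Real.exp (2 * A) * (Real.exp (-(2 * A)) * ‖w - y‖ ^ 2) ≤
        Real.exp (2 * A) * τ ^ 2 := mul_le_mul_of_nonneg_left h3.le (Real.exp_pos _).le
    rw [e1, exp_two] at e2
    linarith [mul_pow (Real.exp A) τ 2]
  rw [norm_sub_rev]
  exact (pow_le_pow_iff_left₀ (norm_nonneg _) (by positivity) (by norm_num)).1 h4

lemma ke_nonneg (hβ : Bt β A) (σ : ℂ → ℝ) (τ : ℝ) (y w : ℂ) : 0 ≤ ke β σ τ y w := by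
  unfold ke gb
  have := hβ.nn (r2 σ y w / τ ^ 2)
  positivity

lemma ke_le (hσ : Sg σ B A) (hβ : Bt β A) (y : ℂ) {w : ℂ} (hw : w ∈ B) {τ : ℝ} (hτ : 0 < τ) :
    ke β σ τ y w ≤ Real.exp A ^ 2 * A / τ ^ 2 := by
  unfold ke gb
  rw [← mul_div_assoc]
  refine div_le_div_of_nonneg_right ?_ (by positivity)
  have h1 : Real.exp (2 * σ w) ≤ Real.exp A ^ 2 := by
    rw [← exp_two]
    apply Real.exp_le_exp.2
    have := abs_le.1 (hσ.bd w hw)
    linarith
  exact mul_le_mul h1 (hβ.bd _ (div_nonneg (r2_nonneg _ _ _) (by positivity))) (hβ.nn _)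
    (by positivity)

lemma ke_ne (hσ : Sg σ B A) (hβ : Bt β A) {y w : ℂ} (hy : y ∈ B) (hw : w ∈ B) {τ : ℝ}
    (hτ : 0 < τ) (h : ke β σ τ y w ≠ 0) : ‖y - w‖ ≤ Real.exp A * τ := by
  apply supp_le hσ hβ hy hw hτ
  intro h1
  apply h
  unfold ke gb
  rw [h1]
  simp

lemma exp_lip {a a' A : ℝ} (h : a ≤ A) (h' : a' ≤ A) :
    |Real.exp a - Real.exp a'| ≤ Real.exp A * |a - a'| := by
  have key : ∀ x y : ℝ, x ≤ y → y ≤ A → Real.exp y - Real.exp x ≤ Real.exp A * (y - x) := by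
    intro x y hxy hy
    have h1 : Real.exp x = Real.exp y * Real.exp (x - y) := by
      rw [← Real.exp_add]; congr 1; ring
    have h2 := Real.add_one_le_exp (x - y)
    have h3 : Real.exp y ≤ Real.exp A := Real.exp_le_exp.2 hy
    have h4 : 0 < Real.exp y := Real.exp_pos y
    calc Real.exp y - Real.exp x = Real.exp y * (1 - Real.exp (x - y)) := by rw [h1]; ring
      _ ≤ Real.exp y * (y - x) := mul_le_mul_of_nonneg_left (by linarith) h4.le
      _ ≤ Real.exp A * (y - x) := mul_le_mul_of_nonneg_right h3 (by linarith)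
  rcases le_total a a' with h1 | h1
  · rw [abs_sub_comm, abs_of_nonneg (by linarith [Real.exp_le_exp.2 h1]), abs_sub_comm,
      abs_of_nonneg (by linarith)]
    exact key _ _ h1 h'
  · rw [abs_of_nonneg (by linarith [Real.exp_le_exp.2 h1]), abs_of_nonneg (by linarith)]
    exact key _ _ h1 h

/-- the kernel with constant conformal factor has integral one -/
lemma mass_const (hb : Bump b) (c : ℝ) {τ : ℝ} (hτ : 0 < τ) (w : ℂ) :
    ∫ y, Real.exp (2 * c) * (b (Real.exp (2 * c) * ‖w - y‖ ^ 2 / τ ^ 2) / τ ^ 2) = 1 := by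
  have h1 := Measure.integral_comp_smul (volume : Measure ℂ) (fun v : ℂ => b (‖v‖ ^ 2))
    (Real.exp c / τ)
  rw [hb.mass, Complex.finrank_real_complex, smul_eq_mul, mul_one] at h1
  have h2 := integral_sub_right_eq_self (μ := (volume : Measure ℂ))
    (fun x : ℂ => b (‖(Real.exp c / τ) • x‖ ^ 2)) w
  rw [h1] at h2
  have h3 : ∀ y : ℂ, ‖(Real.exp c / τ) • (y - w)‖ ^ 2 =
      Real.exp (2 * c) * ‖w - y‖ ^ 2 / τ ^ 2 := by
    intro y
    rw [norm_smul, mul_pow, Real.norm_eq_abs, sq_abs, div_pow, exp_two, norm_sub_rev]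
    ring
  have h4 : ∀ y : ℂ, Real.exp (2 * c) * (b (Real.exp (2 * c) * ‖w - y‖ ^ 2 / τ ^ 2) / τ ^ 2) =
      (Real.exp (2 * c) / τ ^ 2) * b (‖(Real.exp c / τ) • (y - w)‖ ^ 2) := by
    intro y
    rw [h3]
    ring
  rw [integral_congr_ae (Eventually.of_forall h4), integral_const_mul, h2,
    abs_of_nonneg (by positivity), div_pow, exp_two]
  have := Real.exp_pos c
  field_simp

lemma cont_ke (hσ : Continuous σ) (hβ : Continuous β) (τ : ℝ) (w : ℂ) :
    Continuous fun y => ke β σ τ y w := by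
  unfold ke gb r2
  fun_prop

lemma vol_ball (w : ℂ) {r : ℝ} (hr : 0 ≤ r) :
    (volume : Measure ℂ).real (Metric.closedBall w r) = Real.pi * r ^ 2 := by
  rw [measureReal_def, Complex.volume_closedBall, ENNReal.toReal_mul, ENNReal.toReal_pow,
    ENNReal.toReal_ofReal hr]
  simp [mul_comm]

/-- the mass of the kernel on a small scale -/
lemma mass (hσ : Sg σ B A) (hσc : Continuous σ) (hb : Bt b A) (hbb : Bump b) {w : ℂ} {τ : ℝ}
    (hτ : 0 < τ) (hB : Metric.closedBall w (Real.exp A * τ) ⊆ B) :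
    |(∫ y in Metric.closedBall w (Real.exp A * τ), ke b σ τ y w) - 1| ≤
      Real.pi * Real.exp A ^ 9 * A ^ 2 * τ := by
  have hE : 0 < Real.exp A := Real.exp_pos A
  have hw : w ∈ B := hB (Metric.mem_closedBall_self (by positivity))
  have hA : 0 ≤ A := (abs_nonneg _).trans (hσ.bd w hw)
  have h0 : ∫ y in Metric.closedBall w (Real.exp A * τ),
      Real.exp (2 * σ w) * (b (Real.exp (2 * σ w) * ‖w - y‖ ^ 2 / τ ^ 2) / τ ^ 2) = 1 := by
    rw [setIntegral_eq_integral_of_forall_compl_eq_zero, mass_const hbb (σ w) hτ w]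
    intro y hy
    rw [hb.supp, zero_div, mul_zero]
    rw [Metric.mem_closedBall, not_le, dist_eq_norm, norm_sub_rev] at hy
    rw [le_div_iff₀ (by positivity), one_mul]
    have h1 : Real.exp (-(2 * A)) ≤ Real.exp (2 * σ w) := by
      apply Real.exp_le_exp.2
      have := abs_le.1 (hσ.bd w hw)
      linarith
    have h2 : (Real.exp A * τ) ^ 2 ≤ ‖w - y‖ ^ 2 := pow_le_pow_left₀ (by positivity) hy.le 2
    have h3 : Real.exp (-(2 * A)) * (Real.exp A * τ) ^ 2 = τ ^ 2 := by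
      rw [Real.exp_neg, exp_two, mul_pow]
      field_simp
    calc τ ^ 2 = Real.exp (-(2 * A)) * (Real.exp A * τ) ^ 2 := h3.symm
      _ ≤ Real.exp (2 * σ w) * ‖w - y‖ ^ 2 := mul_le_mul h1 h2 (by positivity) (by positivity)
  have hc0 : Continuous fun y : ℂ =>
      Real.exp (2 * σ w) * (b (Real.exp (2 * σ w) * ‖w - y‖ ^ 2 / τ ^ 2) / τ ^ 2) := by
    have := hbb.smooth.continuous
    fun_prop
  have hc1 := cont_ke hσc hbb.smooth.continuous τ w
  have hcp : IsCompact (Metric.closedBall w (Real.exp A * τ)) := isCompact_closedBall _ _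
  rw [← h0, ← integral_sub (hc1.continuousOn.integrableOn_compact hcp)
    (hc0.continuousOn.integrableOn_compact hcp), ← Real.norm_eq_abs]
  have hbound : ∀ y ∈ Metric.closedBall w (Real.exp A * τ), ‖ke b σ τ y w -
      Real.exp (2 * σ w) * (b (Real.exp (2 * σ w) * ‖w - y‖ ^ 2 / τ ^ 2) / τ ^ 2)‖ ≤
        Real.exp A ^ 7 * A ^ 2 / τ := by
    intro y hy
    have hyB := hB hy
    rw [Metric.mem_closedBall, dist_eq_norm] at hy
    have h1 : ‖w - y‖ ≤ Real.exp A * τ := by rwa [norm_sub_rev]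
    have h2 : Real.exp (2 * σ w) ≤ Real.exp A ^ 2 := by
      rw [← exp_two]
      apply Real.exp_le_exp.2
      have := abs_le.1 (hσ.bd w hw)
      linarith
    have h3 : |Real.exp (σ y + σ w) - Real.exp (2 * σ w)| ≤
        Real.exp A ^ 2 * (A * (Real.exp A * τ)) := by
      have e1 := exp_lip (a := σ y + σ w) (a' := 2 * σ w) (A := 2 * A)
        (by have := abs_le.1 (hσ.bd y hyB); have := abs_le.1 (hσ.bd w hw); linarith)
        (by have := abs_le.1 (hσ.bd w hw); linarith)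
      rw [exp_two A] at e1
      refine e1.trans (mul_le_mul_of_nonneg_left ?_ (by positivity))
      have e2 : σ y + σ w - 2 * σ w = σ y - σ w := by ring
      rw [e2]
      exact (hσ.lip y hyB w hw).trans (mul_le_mul_of_nonneg_left hy hA)
    have h4 : |r2 σ y w / τ ^ 2 - Real.exp (2 * σ w) * ‖w - y‖ ^ 2 / τ ^ 2| ≤
        Real.exp A ^ 2 * (A * (Real.exp A * τ)) * (Real.exp A ^ 2) := by
      have e1 : r2 σ y w / τ ^ 2 - Real.exp (2 * σ w) * ‖w - y‖ ^ 2 / τ ^ 2 =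
          (Real.exp (σ y + σ w) - Real.exp (2 * σ w)) * (‖w - y‖ ^ 2 / τ ^ 2) := by
        unfold r2
        ring
      have e2 : ‖w - y‖ ^ 2 / τ ^ 2 ≤ Real.exp A ^ 2 := by
        rw [div_le_iff₀ (by positivity), ← mul_pow]
        exact pow_le_pow_left₀ (norm_nonneg _) h1 2
      rw [e1, abs_mul, abs_of_nonneg (a := ‖w - y‖ ^ 2 / τ ^ 2) (by positivity)]
      exact mul_le_mul h3 e2 (by positivity) (by positivity)
    have h5 : |b (r2 σ y w / τ ^ 2) - b (Real.exp (2 * σ w) * ‖w - y‖ ^ 2 / τ ^ 2)| ≤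
        A * (Real.exp A ^ 2 * (A * (Real.exp A * τ)) * (Real.exp A ^ 2)) :=
      (hb.lip _ _ (div_nonneg (r2_nonneg _ _ _) (by positivity)) (by positivity)).trans
        (mul_le_mul_of_nonneg_left h4 hA)
    have e3 : ke b σ τ y w -
        Real.exp (2 * σ w) * (b (Real.exp (2 * σ w) * ‖w - y‖ ^ 2 / τ ^ 2) / τ ^ 2) =
        Real.exp (2 * σ w) * ((b (r2 σ y w / τ ^ 2) -
          b (Real.exp (2 * σ w) * ‖w - y‖ ^ 2 / τ ^ 2)) / τ ^ 2) := by
      unfold ke gb
      ring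
    rw [e3, norm_mul, norm_div, Real.norm_eq_abs, Real.norm_eq_abs, Real.norm_eq_abs,
      abs_of_pos (Real.exp_pos _), abs_of_nonneg (a := τ ^ 2) (by positivity)]
    calc Real.exp (2 * σ w) * (|b (r2 σ y w / τ ^ 2) -
          b (Real.exp (2 * σ w) * ‖w - y‖ ^ 2 / τ ^ 2)| / τ ^ 2)
        ≤ Real.exp A ^ 2 * (A * (Real.exp A ^ 2 * (A * (Real.exp A * τ)) * (Real.exp A ^ 2)) /
            τ ^ 2) := by
          refine mul_le_mul h2 (div_le_div_of_nonneg_right h5 (by positivity)) (by positivity)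
            (by positivity)
      _ = Real.exp A ^ 7 * A ^ 2 / τ := by
          field_simp
  refine (norm_setIntegral_le_of_norm_le_const hcp.measure_lt_top hbound).trans (le_of_eq ?_)
  rw [vol_ball w (by positivity)]
  field_simp

/-- the kernel is a Lipschitz function of its first argument -/
lemma ke_lip (hσ : Sg σ B A) (hβ : Bt β A) {y w z : ℂ} (hy : y ∈ B) (hw : w ∈ B) (hz : z ∈ B)
    {ε : ℝ} (hε : 0 < ε) (hε1 : ε ≤ 1) (hyw : ‖y - w‖ ≤ Real.exp A * ε) :
    |ke β σ ε y z - ke β σ ε w z| ≤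
      Real.exp A ^ 2 * (A * (4 * Real.exp A ^ 4 * A + 4 * Real.exp A ^ 3)) * ‖y - w‖ / ε ^ 3 := by
  have hE : 0 < Real.exp A := Real.exp_pos A
  have hA : 0 ≤ A := (abs_nonneg _).trans (hσ.bd w hw)
  by_cases h0 : ke β σ ε y z = 0 ∧ ke β σ ε w z = 0
  · rw [h0.1, h0.2, sub_self, abs_zero]
    positivity
  have hd : ‖y - z‖ ≤ 2 * Real.exp A * ε ∧ ‖w - z‖ ≤ 2 * Real.exp A * ε := by
    by_cases h1 : ke β σ ε y z = 0
    · have h2 := ke_ne hσ hβ hw hz hε (fun h => h0 ⟨h1, h⟩)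
      have h3 : ‖y - z‖ ≤ ‖y - w‖ + ‖w - z‖ := norm_sub_le_norm_sub_add_norm_sub _ _ _
      have : 0 ≤ Real.exp A * ε := by positivity
      constructor <;> linarith
    · have h2 := ke_ne hσ hβ hy hz hε h1
      have h3 : ‖w - z‖ ≤ ‖w - y‖ + ‖y - z‖ := norm_sub_le_norm_sub_add_norm_sub _ _ _
      rw [norm_sub_rev w y] at h3
      have : 0 ≤ Real.exp A * ε := by positivity
      constructor <;> linarith
  obtain ⟨hd1, hd2⟩ := hd
  have hbz := abs_le.1 (hσ.bd z hz)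
  have hby := abs_le.1 (hσ.bd y hy)
  have hbw := abs_le.1 (hσ.bd w hw)
  have h1 : |Real.exp (σ y + σ z) - Real.exp (σ w + σ z)| ≤ Real.exp A ^ 2 * (A * ‖y - w‖) := by
    have e1 := exp_lip (a := σ y + σ z) (a' := σ w + σ z) (A := 2 * A) (by linarith)
      (by linarith)
    rw [exp_two] at e1
    refine e1.trans (mul_le_mul_of_nonneg_left ?_ (by positivity))
    have e2 : σ y + σ z - (σ w + σ z) = σ y - σ w := by ring
    rw [e2]
    exact hσ.lip y hy w hw
  have h2 : Real.exp (σ w + σ z) ≤ Real.exp A ^ 2 := by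
    rw [← exp_two]
    apply Real.exp_le_exp.2
    linarith
  have h3 : |‖z - y‖ ^ 2 - ‖z - w‖ ^ 2| ≤ ‖y - w‖ * (4 * Real.exp A * ε) := by
    have e1 : ‖z - y‖ ^ 2 - ‖z - w‖ ^ 2 = (‖z - y‖ - ‖z - w‖) * (‖z - y‖ + ‖z - w‖) := by ring
    have e2 : |‖z - y‖ - ‖z - w‖| ≤ ‖y - w‖ := by
      have := abs_norm_sub_norm_le (z - y) (z - w)
      have e3 : z - y - (z - w) = w - y := by ring
      rw [e3, norm_sub_rev w y] at this
      exact this
    rw [e1, abs_mul, abs_of_nonneg (a := ‖z - y‖ + ‖z - w‖) (by positivity)]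
    refine mul_le_mul e2 ?_ (by positivity) (norm_nonneg _)
    rw [norm_sub_rev z y, norm_sub_rev z w]
    linarith
  have h4 : |r2 σ y z - r2 σ w z| ≤
      ‖y - w‖ * ε * (4 * Real.exp A ^ 4 * A + 4 * Real.exp A ^ 3) := by
    have e1 : r2 σ y z - r2 σ w z = (Real.exp (σ y + σ z) - Real.exp (σ w + σ z)) * ‖z - y‖ ^ 2 +
        Real.exp (σ w + σ z) * (‖z - y‖ ^ 2 - ‖z - w‖ ^ 2) := by
      unfold r2
      ring
    have e2 : ‖z - y‖ ^ 2 ≤ (2 * Real.exp A * ε) ^ 2 := by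
      rw [norm_sub_rev]
      exact pow_le_pow_left₀ (norm_nonneg _) hd1 2
    have e3 : |(Real.exp (σ y + σ z) - Real.exp (σ w + σ z)) * ‖z - y‖ ^ 2| ≤
        Real.exp A ^ 2 * (A * ‖y - w‖) * (2 * Real.exp A * ε) ^ 2 := by
      rw [abs_mul, abs_of_nonneg (a := ‖z - y‖ ^ 2) (by positivity)]
      exact mul_le_mul h1 e2 (by positivity) (by positivity)
    have e4 : |Real.exp (σ w + σ z) * (‖z - y‖ ^ 2 - ‖z - w‖ ^ 2)| ≤
        Real.exp A ^ 2 * (‖y - w‖ * (4 * Real.exp A * ε)) := by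
      rw [abs_mul, abs_of_pos (Real.exp_pos _)]
      exact mul_le_mul h2 h3 (abs_nonneg _) (by positivity)
    have e5 : Real.exp A ^ 2 * (A * ‖y - w‖) * (2 * Real.exp A * ε) ^ 2 ≤
        ‖y - w‖ * ε * (4 * Real.exp A ^ 4 * A) := by
      have e6 : Real.exp A ^ 2 * (A * ‖y - w‖) * (2 * Real.exp A * ε) ^ 2 =
          (‖y - w‖ * ε * (4 * Real.exp A ^ 4 * A)) * ε := by ring
      rw [e6]
      exact mul_le_of_le_one_right (by positivity) hε1
    rw [e1]
    refine (abs_add_le _ _).trans ((add_le_add e3 e4).trans ?_)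
    calc _ ≤ ‖y - w‖ * ε * (4 * Real.exp A ^ 4 * A) +
          Real.exp A ^ 2 * (‖y - w‖ * (4 * Real.exp A * ε)) := by linarith
      _ = _ := by ring
  have h5 : |β (r2 σ y z / ε ^ 2) - β (r2 σ w z / ε ^ 2)| ≤
      A * (‖y - w‖ * ε * (4 * Real.exp A ^ 4 * A + 4 * Real.exp A ^ 3) / ε ^ 2) := by
    refine (hβ.lip _ _ (div_nonneg (r2_nonneg _ _ _) (by positivity))
      (div_nonneg (r2_nonneg _ _ _) (by positivity))).trans (mul_le_mul_of_nonneg_left ?_ hA)
    rw [← sub_div, abs_div, abs_of_nonneg (a := ε ^ 2) (by positivity)]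
    exact div_le_div_of_nonneg_right h4 (by positivity)
  have h6 : Real.exp (2 * σ z) ≤ Real.exp A ^ 2 := by
    rw [← exp_two]
    apply Real.exp_le_exp.2
    linarith
  have e7 : ke β σ ε y z - ke β σ ε w z =
      Real.exp (2 * σ z) * ((β (r2 σ y z / ε ^ 2) - β (r2 σ w z / ε ^ 2)) / ε ^ 2) := by
    unfold ke gb
    ring
  rw [e7, abs_mul, abs_div, abs_of_pos (Real.exp_pos _), abs_of_nonneg (a := ε ^ 2) (by positivity)]
  calc Real.exp (2 * σ z) * (|β (r2 σ y z / ε ^ 2) - β (r2 σ w z / ε ^ 2)| / ε ^ 2)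
      ≤ Real.exp A ^ 2 * (A * (‖y - w‖ * ε * (4 * Real.exp A ^ 4 * A + 4 * Real.exp A ^ 3) /
          ε ^ 2) / ε ^ 2) :=
        mul_le_mul h6 (div_le_div_of_nonneg_right h5 (by positivity)) (by positivity)
          (by positivity)
    _ = _ := by
        field_simp

lemma ke_sc (b : ℝ → ℝ) (σ : ℂ → ℝ) {s : ℝ} (ε : ℝ) (y w : ℂ) :
    ke (sc b s) σ ε y w = ke b σ (s * ε) y w := by
  unfold ke gb sc
  rw [mul_pow, div_div, div_div, mul_comm (ε ^ 2) (s ^ 2)]

lemma kb_eq (β : ℝ → ℝ) (σ : ℂ → ℝ) (ε : ℝ) (z w : ℂ) : kb β σ ε z w = ke β σ ε w z := by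
  unfold kb ke gb r2
  rw [add_comm (σ z), norm_sub_rev]

/-- bounds for a bump function -/
lemma exists_Bt (hβ : Bump β) : ∃ A₀ : ℝ, ∀ A, A₀ ≤ A → Bt β A := by
  obtain ⟨S, hS⟩ := (isCompact_Icc (a := (0 : ℝ)) (b := 1)).exists_bound_of_continuousOn
    hβ.smooth.continuous.continuousOn
  obtain ⟨L, hL⟩ := (hβ.smooth.contDiffOn (s := Icc (0 : ℝ) 1)).exists_lipschitzOnWith
    (by simp) (convex_Icc 0 1) isCompact_Icc
  refine ⟨max |S| L, fun A hA => ⟨hβ.nonneg, fun t ht => ?_, ?_, hβ.supp⟩⟩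
  · rcases le_total 1 t with h | h
    · rw [hβ.supp t h]
      exact (abs_nonneg S).trans ((le_max_left _ _).trans hA)
    · exact (le_abs_self _).trans ((hS t ⟨ht, h⟩).trans
        ((le_abs_self S).trans ((le_max_left _ _).trans hA)))
  · have hLA : (L : ℝ) ≤ A := (le_max_right _ _).trans hA
    have h1 : ∀ t t', 0 ≤ t → t ≤ 1 → 0 ≤ t' → t' ≤ 1 → |β t - β t'| ≤ A * |t - t'| := by
      intro t t' ht ht1 ht' ht1'
      have := hL.dist_le_mul t ⟨ht, ht1⟩ t' ⟨ht', ht1'⟩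
      rw [Real.dist_eq, Real.dist_eq] at this
      exact this.trans (mul_le_mul_of_nonneg_right hLA (abs_nonneg _))
    have h10 : β 1 = 0 := hβ.supp 1 le_rfl
    intro t t' ht ht'
    have hA0 : 0 ≤ A := (NNReal.coe_nonneg L).trans hLA
    rcases le_total t 1 with h | h <;> rcases le_total t' 1 with h' | h'
    · exact h1 t t' ht h ht' h'
    · have := h1 t 1 ht h zero_le_one le_rfl
      rw [hβ.supp t' h']
      rw [h10] at this
      refine this.trans (mul_le_mul_of_nonneg_left ?_ hA0)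
      rw [abs_of_nonpos (by linarith), abs_of_nonpos (by linarith)]
      linarith
    · have := h1 1 t' zero_le_one le_rfl ht' h'
      rw [hβ.supp t h]
      rw [h10] at this
      refine this.trans (mul_le_mul_of_nonneg_left ?_ hA0)
      rw [abs_of_nonneg (by linarith), abs_of_nonneg (by linarith)]
      linarith
    · rw [hβ.supp t h, hβ.supp t' h', sub_self, abs_zero]
      positivity

lemma exists_Sg {σ : ℂ → ℝ} (hσ : ContDiff ℝ ∞ σ) (R : ℝ) :
    ∃ A₀ : ℝ, ∀ A, A₀ ≤ A → Sg σ (Metric.closedBall 0 R) A := by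
  have hc : IsCompact (Metric.closedBall (0 : ℂ) R) := isCompact_closedBall _ _
  obtain ⟨S, hS⟩ := hc.exists_bound_of_continuousOn hσ.continuous.continuousOn
  obtain ⟨L, hL⟩ := (hσ.contDiffOn (s := Metric.closedBall (0 : ℂ) R)).exists_lipschitzOnWith
    (by simp) (convex_closedBall 0 R) hc
  refine ⟨max |S| L, fun A hA => ⟨fun y hy => ?_, fun y hy w hw => ?_⟩⟩
  · exact (hS y hy).trans ((le_abs_self S).trans ((le_max_left _ _).trans hA))
  · have := hL.dist_le_mul y hy w hw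
    rw [Real.dist_eq, dist_eq_norm] at this
    exact this.trans (mul_le_mul_of_nonneg_right ((le_max_right _ _).trans hA) (norm_nonneg _))

/-- bounds for a test function -/
structure Zt (ζ : ℂ → ℂ) (A : ℝ) : Prop where
  bd : ∀ y, ‖ζ y‖ ≤ A
  lip : ∀ y w, ‖ζ y - ζ w‖ ≤ A * ‖y - w‖

lemma exists_Zt {V : Set ℂ} {ζ : ℂ → ℂ} (hζ : Test V ζ) : ∃ A₀ : ℝ, ∀ A, A₀ ≤ A → Zt ζ A := by
  obtain ⟨S, hS⟩ := hζ.supp.exists_bound_of_continuous hζ.smooth.continuous
  obtain ⟨L, hL⟩ := ContDiff.lipschitzWith_of_hasCompactSupport hζ.supp hζ.smooth (by simp)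
  refine ⟨max |S| L, fun A hA => ⟨fun y => ?_, fun y w => ?_⟩⟩
  · exact (hS y).trans ((le_abs_self S).trans ((le_max_left _ _).trans hA))
  · have := hL.dist_le_mul y w
    rw [dist_eq_norm, dist_eq_norm] at this
    exact this.trans (mul_le_mul_of_nonneg_right ((le_max_right _ _).trans hA) (norm_nonneg _))

/-- the main estimate -/
lemma main {ζ : ℂ → ℂ} {R : ℝ} {A ε s : ℝ} {z w : ℂ}
    (hσ : Sg σ (Metric.closedBall 0 (R + 1)) A) (hσc : Continuous σ) (hβ : Bt β A)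
    (hβc : Continuous β) (hb : Bt b A) (hbb : Bump b) (hζ : Zt ζ A) (hζc : Continuous ζ)
    (hζR : tsupport ζ ⊆ Metric.closedBall 0 R) (hzR : z ∈ Metric.closedBall (0 : ℂ) R)
    (hwR : w ∈ Metric.closedBall (0 : ℂ) R) (hε : 0 < ε) (hε1 : ε ≤ 1)
    (hεE : Real.exp A * ε ≤ 1) (hs : 0 < s) (hs1 : s ≤ 1) :
    ‖(∫ y, ζ y * ((ke β σ ε y z * ke b σ (s * ε) y w : ℝ) : ℂ)) - ζ z * (ke β σ ε w z : ℂ)‖ ≤
      ((A ^ 2 * Real.exp A ^ 3 + A * Real.exp A *
          (Real.exp A ^ 2 * (A * (4 * Real.exp A ^ 4 * A + 4 * Real.exp A ^ 3)))) *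
            (1 + Real.pi * Real.exp A ^ 9 * A ^ 2) +
        A ^ 2 * Real.exp A ^ 2 * (Real.pi * Real.exp A ^ 9 * A ^ 2) +
        A ^ 2 * Real.exp A ^ 3) * (s + ε) / ε ^ 2 ∧
    (∫ y, ‖ζ y‖ * (ke β σ ε y z * ke b σ (s * ε) y w)) ≤
      A ^ 2 * Real.exp A ^ 2 * (1 + Real.pi * Real.exp A ^ 9 * A ^ 2) / ε ^ 2 := by
  have hE : 0 < Real.exp A := Real.exp_pos A
  have hA : 0 ≤ A := (norm_nonneg _).trans (hζ.bd 0)
  have hsub : Metric.closedBall (0 : ℂ) R ⊆ Metric.closedBall 0 (R + 1) :=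
    Metric.closedBall_subset_closedBall (by linarith)
  have hzB := hsub hzR
  have hwB := hsub hwR
  have hτ : 0 < s * ε := by positivity
  have hτε : s * ε ≤ ε := mul_le_of_le_one_left hε.le hs1
  have hEτ : Real.exp A * (s * ε) ≤ 1 := (mul_le_mul_of_nonneg_left hτε hE.le).trans hεE
  have hDB : Metric.closedBall w (Real.exp A * (s * ε)) ⊆ Metric.closedBall 0 (R + 1) := by
    intro y hy
    rw [Metric.mem_closedBall] at hy hwR ⊢
    have := dist_triangle y w 0
    linarith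
  have hcp : IsCompact (Metric.closedBall w (Real.exp A * (s * ε))) := isCompact_closedBall _ _
  -- the mass
  have hm := mass hσ hσc hb hbb hτ hDB
  have hm3 : 0 ≤ Real.pi * Real.exp A ^ 9 * A ^ 2 := by positivity
  generalize hM3 : Real.pi * Real.exp A ^ 9 * A ^ 2 = m₃ at *
  have hτ1 : s * ε ≤ 1 := hτε.trans hε1
  have hmass : ∫ y in Metric.closedBall w (Real.exp A * (s * ε)), ke b σ (s * ε) y w ≤ 1 + m₃ := by
    have h1 := (abs_le.1 hm).2
    have h2 : m₃ * (s * ε) ≤ m₃ := mul_le_of_le_one_right hm3 hτ1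
    linarith
  have hk0 : ∀ y, 0 ≤ ke b σ (s * ε) y w := fun y => ke_nonneg hb σ _ y w
  have hkβ0 : ∀ y, 0 ≤ ke β σ ε y z := fun y => ke_nonneg hβ σ _ y z
  have hkc := cont_ke hσc hbb.smooth.continuous (s * ε) w
  have hkβc := cont_ke hσc hβc ε z
  have hout : ∀ y, y ∉ Metric.closedBall w (Real.exp A * (s * ε)) →
      ζ y = 0 ∨ ke b σ (s * ε) y w = 0 := by
    intro y hy
    by_contra hcon
    rw [not_or] at hcon
    apply hy
    have hyB : y ∈ Metric.closedBall (0 : ℂ) (R + 1) := hsub (hζR (subset_tsupport _ hcon.1))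
    rw [Metric.mem_closedBall, dist_eq_norm]
    exact ke_ne hσ hb hyB hwB hτ hcon.2
  have hkβ : ∀ y, ke β σ ε y z ≤ Real.exp A ^ 2 * A / ε ^ 2 := fun y => ke_le hσ hβ y hzB hε
  have hintk : IntegrableOn (fun y => ke b σ (s * ε) y w)
      (Metric.closedBall w (Real.exp A * (s * ε))) := hkc.continuousOn.integrableOn_compact hcp
  constructor
  · have h1 : ∫ y, ζ y * ((ke β σ ε y z * ke b σ (s * ε) y w : ℝ) : ℂ) =
        ∫ y in Metric.closedBall w (Real.exp A * (s * ε)),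
          (ζ y * (ke β σ ε y z : ℂ)) * (ke b σ (s * ε) y w : ℂ) := by
      rw [← setIntegral_eq_integral_of_forall_compl_eq_zero
        (s := Metric.closedBall w (Real.exp A * (s * ε)))]
      · apply setIntegral_congr_fun hcp.measurableSet
        intro y _
        push_cast
        ring
      · intro y hy
        rcases hout y hy with h | h
        · rw [h, zero_mul]
        · rw [h, mul_zero, Complex.ofReal_zero, mul_zero]
    have hintG : IntegrableOn (fun y => (ζ y * (ke β σ ε y z : ℂ)) * (ke b σ (s * ε) y w : ℂ))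
        (Metric.closedBall w (Real.exp A * (s * ε))) := by
      apply Continuous.continuousOn _ |>.integrableOn_compact hcp
      exact (hζc.mul (Complex.continuous_ofReal.comp hkβc)).mul (Complex.continuous_ofReal.comp hkc)
    have hintW : IntegrableOn (fun y => (ζ w * (ke β σ ε w z : ℂ)) * (ke b σ (s * ε) y w : ℂ))
        (Metric.closedBall w (Real.exp A * (s * ε))) := by
      apply Continuous.continuousOn _ |>.integrableOn_compact hcp
      exact continuous_const.mul (Complex.continuous_ofReal.comp hkc)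
    have h2 : (∫ y in Metric.closedBall w (Real.exp A * (s * ε)),
          (ζ y * (ke β σ ε y z : ℂ)) * (ke b σ (s * ε) y w : ℂ)) - ζ z * (ke β σ ε w z : ℂ) =
        (∫ y in Metric.closedBall w (Real.exp A * (s * ε)),
          (ζ y * (ke β σ ε y z : ℂ) - ζ w * (ke β σ ε w z : ℂ)) * (ke b σ (s * ε) y w : ℂ)) +
        (ζ w * (ke β σ ε w z : ℂ)) * (((∫ y in Metric.closedBall w (Real.exp A * (s * ε)),
          ke b σ (s * ε) y w) - 1 : ℝ) : ℂ) +
        (ζ w - ζ z) * (ke β σ ε w z : ℂ) := by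
      have e1 : (∫ y in Metric.closedBall w (Real.exp A * (s * ε)),
          (ζ y * (ke β σ ε y z : ℂ) - ζ w * (ke β σ ε w z : ℂ)) * (ke b σ (s * ε) y w : ℂ)) =
          (∫ y in Metric.closedBall w (Real.exp A * (s * ε)),
            (ζ y * (ke β σ ε y z : ℂ)) * (ke b σ (s * ε) y w : ℂ)) -
          ∫ y in Metric.closedBall w (Real.exp A * (s * ε)),
            (ζ w * (ke β σ ε w z : ℂ)) * (ke b σ (s * ε) y w : ℂ) := by
        rw [← integral_sub hintG hintW]
        apply integral_congr_ae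
        exact Eventually.of_forall fun y => by simp only; ring
      have e2 : ∫ y in Metric.closedBall w (Real.exp A * (s * ε)),
            (ζ w * (ke β σ ε w z : ℂ)) * (ke b σ (s * ε) y w : ℂ) =
          (ζ w * (ke β σ ε w z : ℂ)) * ((∫ y in Metric.closedBall w (Real.exp A * (s * ε)),
            ke b σ (s * ε) y w : ℝ) : ℂ) := by
        rw [integral_const_mul, integral_complex_ofReal]
      rw [e1, e2]
      push_cast
      ring
    rw [h1, h2]
    have hcw : ‖ζ w * (ke β σ ε w z : ℂ)‖ ≤ A * (Real.exp A ^ 2 * A / ε ^ 2) := by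
      rw [norm_mul, Complex.norm_real, Real.norm_eq_abs, abs_of_nonneg (hkβ0 w)]
      exact mul_le_mul (hζ.bd w) (hkβ w) (hkβ0 w) hA
    have hε2 : 0 < ε ^ 2 := by positivity
    -- first term
    have t1 : ‖∫ y in Metric.closedBall w (Real.exp A * (s * ε)),
          (ζ y * (ke β σ ε y z : ℂ) - ζ w * (ke β σ ε w z : ℂ)) * (ke b σ (s * ε) y w : ℂ)‖ ≤
        ((A ^ 2 * Real.exp A ^ 3 + A * Real.exp A *
          (Real.exp A ^ 2 * (A * (4 * Real.exp A ^ 4 * A + 4 * Real.exp A ^ 3)))) * s / ε ^ 2) *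
            (1 + m₃) := by
      have hpt : ∀ y ∈ Metric.closedBall w (Real.exp A * (s * ε)),
          ‖(ζ y * (ke β σ ε y z : ℂ) - ζ w * (ke β σ ε w z : ℂ)) * (ke b σ (s * ε) y w : ℂ)‖ ≤
          ((A ^ 2 * Real.exp A ^ 3 + A * Real.exp A *
            (Real.exp A ^ 2 * (A * (4 * Real.exp A ^ 4 * A + 4 * Real.exp A ^ 3)))) * s / ε ^ 2) *
              ke b σ (s * ε) y w := by
        intro y hy
        have hyB := hDB hy
        rw [Metric.mem_closedBall, dist_eq_norm] at hy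
        have hyε : ‖y - w‖ ≤ Real.exp A * ε :=
          hy.trans (mul_le_mul_of_nonneg_left hτε hE.le)
        rw [norm_mul, Complex.norm_real, Real.norm_eq_abs, abs_of_nonneg (hk0 y)]
        refine mul_le_mul_of_nonneg_right ?_ (hk0 y)
        have e1 : ζ y * (ke β σ ε y z : ℂ) - ζ w * (ke β σ ε w z : ℂ) =
            (ζ y - ζ w) * (ke β σ ε y z : ℂ) +
              ζ w * ((ke β σ ε y z - ke β σ ε w z : ℝ) : ℂ) := by
          push_cast
          ring
        have e2 : ‖(ζ y - ζ w) * (ke β σ ε y z : ℂ)‖ ≤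
            (A * (Real.exp A * (s * ε))) * (Real.exp A ^ 2 * A / ε ^ 2) := by
          rw [norm_mul, Complex.norm_real, Real.norm_eq_abs, abs_of_nonneg (hkβ0 y)]
          exact mul_le_mul ((hζ.lip y w).trans (mul_le_mul_of_nonneg_left hy hA)) (hkβ y)
            (hkβ0 y) (by positivity)
        have e3 : ‖ζ w * ((ke β σ ε y z - ke β σ ε w z : ℝ) : ℂ)‖ ≤
            A * (Real.exp A ^ 2 * (A * (4 * Real.exp A ^ 4 * A + 4 * Real.exp A ^ 3)) *
              (Real.exp A * (s * ε)) / ε ^ 3) := by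
          rw [norm_mul, Complex.norm_real, Real.norm_eq_abs]
          refine mul_le_mul (hζ.bd w) ?_ (abs_nonneg _) hA
          refine (ke_lip hσ hβ hyB hwB hzB hε hε1 hyε).trans ?_
          refine div_le_div_of_nonneg_right ?_ (by positivity)
          exact mul_le_mul_of_nonneg_left hy (by positivity)
        rw [e1]
        refine (norm_add_le _ _).trans ((add_le_add e2 e3).trans ?_)
        have e4 : (A * (Real.exp A * (s * ε))) * (Real.exp A ^ 2 * A / ε ^ 2) =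
            (A ^ 2 * Real.exp A ^ 3) * s / ε ^ 2 * ε := by
          field_simp
        have e5 : A * (Real.exp A ^ 2 * (A * (4 * Real.exp A ^ 4 * A + 4 * Real.exp A ^ 3)) *
              (Real.exp A * (s * ε)) / ε ^ 3) = (A * Real.exp A *
            (Real.exp A ^ 2 * (A * (4 * Real.exp A ^ 4 * A + 4 * Real.exp A ^ 3)))) * s / ε ^ 2 := by
          field_simp
        have e6 : (A ^ 2 * Real.exp A ^ 3) * s / ε ^ 2 * ε ≤
            (A ^ 2 * Real.exp A ^ 3) * s / ε ^ 2 := mul_le_of_le_one_right (by positivity) hε1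
        rw [e4, e5, add_mul, add_div]
        linarith
      refine (norm_integral_le_of_norm_le (hintk.const_mul _)
        ((ae_restrict_iff' hcp.measurableSet).2 (Eventually.of_forall hpt))).trans ?_
      rw [integral_const_mul]
      exact mul_le_mul_of_nonneg_left hmass (by positivity)
    -- second term
    have t2 : ‖(ζ w * (ke β σ ε w z : ℂ)) * (((∫ y in Metric.closedBall w
          (Real.exp A * (s * ε)), ke b σ (s * ε) y w) - 1 : ℝ) : ℂ)‖ ≤
        A ^ 2 * Real.exp A ^ 2 * m₃ * s / ε ^ 2 := by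
      rw [norm_mul, Complex.norm_real, Real.norm_eq_abs]
      refine (mul_le_mul hcw hm (abs_nonneg _) (by positivity)).trans ?_
      have e1 : A * (Real.exp A ^ 2 * A / ε ^ 2) * (m₃ * (s * ε)) =
          A ^ 2 * Real.exp A ^ 2 * m₃ * s / ε ^ 2 * ε := by
        field_simp
      rw [e1]
      exact mul_le_of_le_one_right (by positivity) hε1
    -- third term
    have t3 : ‖(ζ w - ζ z) * (ke β σ ε w z : ℂ)‖ ≤ A ^ 2 * Real.exp A ^ 3 * ε / ε ^ 2 := by
      by_cases h0 : ke β σ ε w z = 0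
      · rw [h0]
        simp only [Complex.ofReal_zero, mul_zero, norm_zero]
        positivity
      · have h3 := ke_ne hσ hβ hwB hzB hε h0
        rw [norm_mul, Complex.norm_real, Real.norm_eq_abs, abs_of_nonneg (hkβ0 w)]
        refine (mul_le_mul ((hζ.lip w z).trans (mul_le_mul_of_nonneg_left h3 hA)) (hkβ w)
          (hkβ0 w) (by positivity)).trans (le_of_eq ?_)
        field_simp
    refine (norm_add_le _ _).trans ((add_le_add ((norm_add_le _ _).trans (add_le_add t1 t2))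
      t3).trans ?_)
    have hs0 : 0 ≤ s := hs.le
    have a1 : ((A ^ 2 * Real.exp A ^ 3 + A * Real.exp A *
          (Real.exp A ^ 2 * (A * (4 * Real.exp A ^ 4 * A + 4 * Real.exp A ^ 3)))) * s / ε ^ 2) *
            (1 + m₃) + A ^ 2 * Real.exp A ^ 2 * m₃ * s / ε ^ 2 + A ^ 2 * Real.exp A ^ 3 * ε / ε ^ 2 =
        (((A ^ 2 * Real.exp A ^ 3 + A * Real.exp A *
          (Real.exp A ^ 2 * (A * (4 * Real.exp A ^ 4 * A + 4 * Real.exp A ^ 3)))) *
            (1 + m₃) + A ^ 2 * Real.exp A ^ 2 * m₃) * s + A ^ 2 * Real.exp A ^ 3 * ε) / ε ^ 2 := by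
      ring
    rw [a1]
    refine div_le_div_of_nonneg_right ?_ hε2.le
    have p1 : 0 ≤ ((A ^ 2 * Real.exp A ^ 3 + A * Real.exp A *
          (Real.exp A ^ 2 * (A * (4 * Real.exp A ^ 4 * A + 4 * Real.exp A ^ 3)))) *
            (1 + m₃) + A ^ 2 * Real.exp A ^ 2 * m₃) := by positivity
    have p2 : 0 ≤ A ^ 2 * Real.exp A ^ 3 := by positivity
    generalize ((A ^ 2 * Real.exp A ^ 3 + A * Real.exp A *
          (Real.exp A ^ 2 * (A * (4 * Real.exp A ^ 4 * A + 4 * Real.exp A ^ 3)))) *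
            (1 + m₃) + A ^ 2 * Real.exp A ^ 2 * m₃) = X at *
    generalize A ^ 2 * Real.exp A ^ 3 = Y at *
    nlinarith [mul_nonneg p1 hε.le, mul_nonneg p2 hs0]
  · have h1 : ∫ y, ‖ζ y‖ * (ke β σ ε y z * ke b σ (s * ε) y w) =
        ∫ y in Metric.closedBall w (Real.exp A * (s * ε)),
          ‖ζ y‖ * (ke β σ ε y z * ke b σ (s * ε) y w) := by
      rw [setIntegral_eq_integral_of_forall_compl_eq_zero]
      intro y hy
      rcases hout y hy with h | h
      · rw [h, norm_zero, zero_mul]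
      · rw [h, mul_zero, mul_zero]
    rw [h1]
    have hint : IntegrableOn (fun y => ‖ζ y‖ * (ke β σ ε y z * ke b σ (s * ε) y w))
        (Metric.closedBall w (Real.exp A * (s * ε))) := by
      apply Continuous.continuousOn _ |>.integrableOn_compact hcp
      exact hζc.norm.mul (hkβc.mul hkc)
    have h2 : ∫ y in Metric.closedBall w (Real.exp A * (s * ε)),
          ‖ζ y‖ * (ke β σ ε y z * ke b σ (s * ε) y w) ≤
        ∫ y in Metric.closedBall w (Real.exp A * (s * ε)),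
          (A * (Real.exp A ^ 2 * A / ε ^ 2)) * ke b σ (s * ε) y w := by
      apply setIntegral_mono_on hint (hintk.const_mul _) hcp.measurableSet
      intro y _
      rw [← mul_assoc]
      refine mul_le_mul_of_nonneg_right ?_ (hk0 y)
      exact mul_le_mul (hζ.bd y) (hkβ y) (hkβ0 y) hA
    refine h2.trans ?_
    rw [integral_const_mul]
    refine (mul_le_mul_of_nonneg_left hmass (by positivity)).trans (le_of_eq ?_)
    ring

end KCP

theorem t_KCP (hz : StmtKsz) : StmtKcp := by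
  intro β b σ V K₀ ζ hβ hb hσ hζ hV hK₀
  obtain ⟨R, hR⟩ := ((hζ.supp.isCompact.union hK₀).isBounded).subset_closedBall (0 : ℂ)
  obtain ⟨A₁, h₁⟩ := KCP.exists_Bt hβ
  obtain ⟨A₂, h₂⟩ := KCP.exists_Bt hb
  obtain ⟨A₃, h₃⟩ := KCP.exists_Sg hσ (R + 1)
  obtain ⟨A₄, h₄⟩ := KCP.exists_Zt hζ
  obtain ⟨A, hA1, hA2, hA3, hA4⟩ : ∃ A : ℝ, A₁ ≤ A ∧ A₂ ≤ A ∧ A₃ ≤ A ∧ A₄ ≤ A :=
    ⟨max (max A₁ A₂) (max A₃ A₄), (le_max_left _ _).trans (le_max_left _ _),
      (le_max_right _ _).trans (le_max_left _ _), (le_max_left _ _).trans (le_max_right _ _),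
      (le_max_right _ _).trans (le_max_right _ _)⟩
  have hBt := h₁ A hA1
  have hbt := h₂ A hA2
  have hSg := h₃ A hA3
  have hZt := h₄ A hA4
  have hA : 0 ≤ A := (norm_nonneg _).trans (hZt.bd 0)
  obtain ⟨δ, hδ, hδV⟩ := hζ.supp.isCompact.exists_cthickening_subset_open hV hζ.sub
  obtain ⟨C₁, hC₁, hta⟩ := hz β σ (Metric.closedBall 0 (R + 1)) hβ hσ (isCompact_closedBall _ _)
  have hE : 0 < Real.exp A := Real.exp_pos A
  obtain ⟨ε₀, he0, he1, heE, heδ⟩ : ∃ ε₀ : ℝ, 0 < ε₀ ∧ ε₀ ≤ 1 ∧ Real.exp A * ε₀ ≤ 1 ∧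
      Real.exp A * ε₀ ≤ δ := by
    refine ⟨min 1 (min (1 / Real.exp A) (δ / Real.exp A)), ?_, min_le_left _ _, ?_, ?_⟩
    · have : 0 < 1 / Real.exp A := by positivity
      have : 0 < δ / Real.exp A := by positivity
      exact lt_min one_pos (lt_min ‹_› ‹_›)
    · have : min 1 (min (1 / Real.exp A) (δ / Real.exp A)) ≤ 1 / Real.exp A :=
        (min_le_right _ _).trans (min_le_left _ _)
      calc _ ≤ Real.exp A * (1 / Real.exp A) := mul_le_mul_of_nonneg_left this hE.le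
        _ = 1 := by field_simp
    · have : min 1 (min (1 / Real.exp A) (δ / Real.exp A)) ≤ δ / Real.exp A :=
        (min_le_right _ _).trans (min_le_right _ _)
      calc _ ≤ Real.exp A * (δ / Real.exp A) := mul_le_mul_of_nonneg_left this hE.le
        _ = δ := by field_simp
  obtain ⟨c₁, hc₁⟩ : ∃ c₁, c₁ = (A ^ 2 * Real.exp A ^ 3 + A * Real.exp A *
          (Real.exp A ^ 2 * (A * (4 * Real.exp A ^ 4 * A + 4 * Real.exp A ^ 3)))) *
            (1 + Real.pi * Real.exp A ^ 9 * A ^ 2) +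
        A ^ 2 * Real.exp A ^ 2 * (Real.pi * Real.exp A ^ 9 * A ^ 2) +
        A ^ 2 * Real.exp A ^ 3 := ⟨_, rfl⟩
  obtain ⟨c₂, hc₂⟩ : ∃ c₂, c₂ = A ^ 2 * Real.exp A ^ 2 *
    (1 + Real.pi * Real.exp A ^ 9 * A ^ 2) := ⟨_, rfl⟩
  have hc₁0 : 0 ≤ c₁ := by rw [hc₁]; positivity
  have hc₂0 : 0 ≤ c₂ := by rw [hc₂]; positivity
  have hsub : Metric.closedBall (0 : ℂ) R ⊆ Metric.closedBall 0 (R + 1) :=
    Metric.closedBall_subset_closedBall (by linarith)
  have hζR : tsupport ζ ⊆ Metric.closedBall 0 R := subset_union_left.trans hR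
  have hKR : K₀ ⊆ Metric.closedBall 0 R := subset_union_right.trans hR
  refine ⟨c₁ + c₂ + 2 * Real.exp A + 2 * C₁ * Real.exp A, ε₀,
    Metric.cthickening δ (tsupport ζ), he0, hζ.supp.isCompact.cthickening, hδV, ?_⟩
  intro ε s hε hεε hs hs1 z hz' w hw'
  have hε1 : ε ≤ 1 := hεε.le.trans he1
  have hεE : Real.exp A * ε ≤ 1 := (mul_le_mul_of_nonneg_left hεε.le hE.le).trans heE
  have hεδ : Real.exp A * ε ≤ δ := (mul_le_mul_of_nonneg_left hεε.le hE.le).trans heδ
  have hε2 : 0 < ε ^ 2 := by positivity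
  obtain ⟨m1, m2⟩ := KCP.main (z := z) (w := w) hSg hσ.continuous hBt hβ.smooth.continuous hbt hb
    hZt hζ.smooth.continuous hζR (hKR hz') (hKR hw') hε hε1 hεE hs hs1
  rw [← hc₁] at m1
  rw [← hc₂] at m2
  have hzB := hsub (hKR hz')
  have hwB := hsub (hKR hw')
  have hτε : s * ε ≤ ε := mul_le_of_le_one_left hε.le hs1
  have hC1E : 0 < C₁ * Real.exp A := by positivity
  -- the supports
  have hsupp : ∀ y, ζ y * ((ke β σ ε y z * ke (sc b s) σ ε y w : ℝ) : ℂ) ≠ 0 →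
      y ∈ tsupport ζ ∧ ‖y - z‖ ≤ Real.exp A * ε ∧ ‖y - w‖ ≤ Real.exp A * ε := by
    intro y hy
    rw [KCP.ke_sc] at hy
    have h1 : ζ y ≠ 0 := fun h => hy (by rw [h, zero_mul])
    have h2 : ke β σ ε y z ≠ 0 := fun h => hy (by rw [h, zero_mul, Complex.ofReal_zero, mul_zero])
    have h3 : ke b σ (s * ε) y w ≠ 0 :=
      fun h => hy (by rw [h, mul_zero, Complex.ofReal_zero, mul_zero])
    have hyt : y ∈ tsupport ζ := subset_tsupport _ h1
    have hyB := hsub (hζR hyt)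
    exact ⟨hyt, KCP.ke_ne hSg hBt hyB hzB hε h2,
      (KCP.ke_ne hSg hbt hyB hwB (by positivity) h3).trans
        (mul_le_mul_of_nonneg_left hτε hE.le)⟩
  refine ⟨?_, ?_, ?_, ?_⟩
  · rw [KCP.kb_eq]
    simp only [KCP.ke_sc]
    refine m1.trans (div_le_div_of_nonneg_right ?_ hε2.le)
    exact mul_le_mul_of_nonneg_right (by linarith) (by linarith)
  · simp only [KCP.ke_sc]
    refine m2.trans (div_le_div_of_nonneg_right ?_ hε2.le)
    linarith
  · have hfin : ∀ d : ℝ, d ≤ 2 * Real.exp A * ε →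
        d ≤ (c₁ + c₂ + 2 * Real.exp A + 2 * C₁ * Real.exp A) * ε := by
      intro d hd
      refine hd.trans (mul_le_mul_of_nonneg_right ?_ hε.le)
      linarith
    rintro (⟨y, hy⟩ | h)
    · obtain ⟨a1, a2, a3⟩ := hsupp y hy
      constructor
      · rw [norm_sub_rev] at a2
        exact Metric.mem_cthickening_of_dist_le z y δ _ a1 (by rw [dist_eq_norm]; linarith)
      · apply hfin
        have := norm_sub_le_norm_sub_add_norm_sub z y w
        rw [norm_sub_rev z y] at this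
        linarith
    · have h1 : ζ z ≠ 0 := fun h' => h (by rw [h', zero_mul])
      have h2 : ke β σ ε w z ≠ 0 := by
        intro h'
        apply h
        rw [KCP.kb_eq, h', Complex.ofReal_zero, mul_zero]
      constructor
      · exact Metric.self_subset_cthickening _ (subset_tsupport _ h1)
      · apply hfin
        have := KCP.ke_ne hSg hBt hwB hzB hε h2
        rw [norm_sub_rev]
        have : 0 ≤ Real.exp A * ε := by positivity
        linarith
  · intro y hy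
    obtain ⟨a1, a2, a3⟩ := hsupp y hy
    have hyB := hsub (hζR a1)
    obtain ⟨_, _, _, b1, _⟩ := hta ε hε y hyB w hwB
    obtain ⟨_, _, _, _, b2⟩ := hta ε hε y hyB z hzB
    have hn : ‖ta σ y w‖ = 1 := by
      unfold ta
      exact Complex.norm_exp_ofReal_mul_I _
    have e1 : ta σ y w / ta σ y z - 1 = ta σ y w * ((ta σ y z)⁻¹ - 1) + (ta σ y w - 1) := by
      rw [div_eq_mul_inv]
      ring
    rw [e1]
    refine (norm_add_le _ _).trans ?_
    rw [norm_mul, hn, one_mul]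
    rw [norm_sub_rev] at a2 a3
    have b3 : C₁ * ‖z - y‖ ≤ C₁ * (Real.exp A * ε) := mul_le_mul_of_nonneg_left a2 hC₁.le
    have b4 : C₁ * ‖w - y‖ ≤ C₁ * (Real.exp A * ε) := mul_le_mul_of_nonneg_left a3 hC₁.le
    have b5 : 0 ≤ c₁ * ε := by positivity
    have b6 : 0 ≤ c₂ * ε := by positivity
    have b7 : 0 ≤ Real.exp A * ε := by positivity
    linarith

end CRM
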