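import Pool.Agent.CRM.StG
import Pool.Agent.CRM.KCP

/-!
GKR: comparison of the local and the global kernel.
-/

open Complex MeasureTheory Filter Topology Set
open UpperHalfPlane hiding I
open scoped ContDiff MatrixGroups

namespace CRM

open QE QE.NC QJ U3 NFP

namespace GKR

lemma pS_cont : Continuous pS := by
  unfold pS
  exact UpperHalfPlane.continuous_coe.comp continuous_fst

lemma uS_div (o o' : ℍ × S1) :
    uS o / uS o' = (starRingEnd ℂ) ((o.2 / o'.2 : S1) : ℂ) := by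
  unfold uS
  rw [mul_div_mul_left _ _ Complex.I_ne_zero, ← map_div₀, Metric.unitSphere.coe_div]

lemma s2_conj (t : S1) : s2 ((starRingEnd ℂ) (t : ℂ)) = (t : ℂ).im ^ 2 := by
  have h1 : ‖(t : ℂ)‖ = 1 := by simpa using t.2
  have h2 : (t : ℂ).re ^ 2 + (t : ℂ).im ^ 2 = 1 := by
    have := Complex.sq_norm (t : ℂ)
    rw [h1, Complex.normSq_apply] at this
    linarith
  unfold s2
  rw [Complex.sq_norm, Complex.normSq_apply]
  simp only [Complex.sub_re, Complex.sub_im, Complex.one_re, Complex.one_im, pow_two,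
    Complex.mul_re, Complex.mul_im, Complex.conj_re, Complex.conj_im]
  have h3 : (t : ℂ).re ^ 2 = 1 - (t : ℂ).im ^ 2 := by linarith
  have e : ((t : ℂ).re * (t : ℂ).re - -(t : ℂ).im * -(t : ℂ).im - 1) *
      ((t : ℂ).re * (t : ℂ).re - -(t : ℂ).im * -(t : ℂ).im - 1) +
      ((t : ℂ).re * -(t : ℂ).im + -(t : ℂ).im * (t : ℂ).re - 0) *
      ((t : ℂ).re * -(t : ℂ).im + -(t : ℂ).im * (t : ℂ).re - 0) =
      ((t : ℂ).re ^ 2 - (t : ℂ).im ^ 2 - 1) ^ 2 + 4 * (t : ℂ).re ^ 2 * (t : ℂ).im ^ 2 := by ring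
  rw [e, h3]
  ring

variable {μ : Measure (ℍ × S1)} {F : Set ℂ} {σ : ℂ → ℝ}

lemma meas_pre (hF : IsCompact F) : MeasurableSet (pS ⁻¹' F) :=
  (hF.isClosed.preimage pS_cont).measurableSet

lemma pre_lt_top (hμ : FinK μ) (hF : IsCompact F) (hFU : F ⊆ UH) : μ (pS ⁻¹' F) < ⊤ := by
  have h1 : IsCompact ((fun z : ℍ => (z : ℂ)) ⁻¹' F) := by
    refine (UpperHalfPlane.isOpenEmbedding_coe.isInducing.isCompact_preimage_iff ?_).2 hF
    intro z hz
    exact ⟨⟨z, hFU hz⟩, rfl⟩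
  have h2 : pS ⁻¹' F = ((fun z : ℍ => (z : ℂ)) ⁻¹' F) ×ˢ univ := by
    ext o
    simp [pS]
  rw [h2]
  exact hμ _ h1

/-- the density of the measure with respect to the local one -/
noncomputable def de (σ : ℂ → ℝ) (o : ℍ × S1) : ENNReal := ENNReal.ofReal (Real.exp (2 * σ (pS o)))

lemma de_meas (hσ : Continuous σ) : Measurable (de σ) := by
  unfold de
  have := pS_cont
  exact (Real.continuous_exp.comp (continuous_const.mul (hσ.comp this))).measurable.ennreal_ofReal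

lemma restrict_eq (hσ : Continuous σ) :
    μ.restrict (pS ⁻¹' F) = (muS μ F σ).withDensity (de σ) := by
  have hm : Measurable fun o : ℍ × S1 => ENNReal.ofReal (Real.exp (-(2 * σ (pS o)))) := by
    have := pS_cont
    exact (Real.continuous_exp.comp (continuous_const.mul (hσ.comp this)).neg).measurable.ennreal_ofReal
  unfold muS
  rw [← withDensity_mul _ hm (de_meas hσ)]
  have h1 : (fun o : ℍ × S1 => ENNReal.ofReal (Real.exp (-(2 * σ (pS o))))) * de σ = 1 := by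
    funext o
    simp only [de, Pi.mul_apply, Pi.one_apply]
    rw [← ENNReal.ofReal_mul (Real.exp_pos _).le, ← Real.exp_add]
    simp
  rw [h1, withDensity_one]

lemma fin_muS (hσ : Continuous σ) (hμ : FinK μ) (hF : IsCompact F) (hFU : F ⊆ UH) :
    IsFiniteMeasure (muS μ F σ) := by
  have hm := meas_pre hF
  refine ⟨?_⟩
  unfold muS
  rw [withDensity_apply _ MeasurableSet.univ, Measure.restrict_univ]
  obtain ⟨C, hC⟩ := (hF.image (Real.continuous_exp.comp (continuous_const.mul hσ).neg)).bddAbove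
  have h1 : ∫⁻ o in pS ⁻¹' F, ENNReal.ofReal (Real.exp (-(2 * σ (pS o)))) ∂μ ≤
      ∫⁻ _ in pS ⁻¹' F, ENNReal.ofReal C ∂μ := by
    refine setLIntegral_mono' hm fun o ho => ENNReal.ofReal_le_ofReal ?_
    exact hC ⟨pS o, ho, rfl⟩
  refine h1.trans_lt ?_
  rw [setLIntegral_const]
  exact ENNReal.mul_lt_top ENNReal.ofReal_lt_top (pre_lt_top hμ hF hFU)

lemma ae_muS (hF : IsCompact F) : ∀ᵐ o ∂(muS μ F σ), pS o ∈ F := by
  unfold muS
  refine (withDensity_absolutelyContinuous _ _).ae_le ?_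
  exact ae_restrict_mem (meas_pre hF)

lemma ae_pair [SFinite (muS μ F σ)] (hF : IsCompact F) :
    ∀ᵐ x ∂((muS μ F σ).prod (muS μ F σ)), pS x.1 ∈ F ∧ pS x.2 ∈ F := by
  have h1 := (Measure.quasiMeasurePreserving_fst (μ := muS μ F σ) (ν := muS μ F σ)).ae
    (ae_muS (μ := μ) (σ := σ) hF)
  have h2 := (Measure.quasiMeasurePreserving_snd (μ := muS μ F σ) (ν := muS μ F σ)).ae
    (ae_muS (μ := μ) (σ := σ) hF)
  filter_upwards [h1, h2] with x hx1 hx2 using ⟨hx1, hx2⟩

lemma integral_pair [SFinite μ] [SFinite (muS μ F σ)] (hσ : Continuous σ)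
    (H : (ℍ × S1) × (ℍ × S1) → ℝ) :
    ∫ x in (pS ⁻¹' F) ×ˢ (pS ⁻¹' F), H x ∂(μ.prod μ) =
      ∫ x, Real.exp (2 * σ (pS x.1) + 2 * σ (pS x.2)) * H x ∂((muS μ F σ).prod (muS μ F σ)) := by
  have hm : Measurable fun x : (ℍ × S1) × (ℍ × S1) => de σ x.1 * de σ x.2 :=
    ((de_meas hσ).comp measurable_fst).mul ((de_meas hσ).comp measurable_snd)
  rw [← Measure.prod_restrict, restrict_eq hσ, prod_withDensity (de_meas hσ) (de_meas hσ),
    integral_withDensity_eq_integral_toReal_smul hm]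
  · congr 1
    funext x
    simp only [de]
    rw [← ENNReal.ofReal_mul (Real.exp_pos _).le, ← Real.exp_add,
      ENNReal.toReal_ofReal (Real.exp_pos _).le, smul_eq_mul]
  · refine Eventually.of_forall fun x => ?_
    exact ENNReal.mul_lt_top ENNReal.ofReal_lt_top ENNReal.ofReal_lt_top

lemma sigmaFinite (hμ : FinK μ) : SigmaFinite μ := by
  refine ⟨⟨⟨fun n => compactCovering ℍ n ×ˢ univ, fun _ => trivial, fun n => ?_, ?_⟩⟩⟩
  · exact hμ _ (isCompact_compactCovering ℍ n)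
  · rw [← iUnion_prod_const, iUnion_compactCovering, univ_prod_univ]

lemma ro_cont {Γ : Subgroup SL(2, ℝ)} {ρ : ℍ → ℝ} (hF : Fac Γ ρ) : Continuous ρ := by
  have h1 : ContinuousOn (fun z : ℂ => ρ (ofComplex z)) UH := hF.smooth.continuousOn
  have h2 : Continuous fun z : ℍ => ρ (ofComplex (z : ℂ)) :=
    h1.comp_continuous UpperHalfPlane.continuous_coe fun z => z.im_pos
  simpa using h2

lemma clo_meas {ρ : ℍ → ℝ} (hρ : Continuous ρ) (ε : ℝ) : MeasurableSet (clo ρ ε) := by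
  have hc : Continuous fun z : ℍ => (z : ℂ) := UpperHalfPlane.continuous_coe
  have hi : Continuous fun z : ℍ => z.im := UpperHalfPlane.continuous_im
  apply IsOpen.measurableSet
  unfold clo
  apply isOpen_lt
  · have h1 : Continuous fun x : (ℍ × S1) × (ℍ × S1) => ρ x.1.1 := hρ.comp (by fun_prop)
    have h2 : Continuous fun x : (ℍ × S1) × (ℍ × S1) => ρ x.2.1 := hρ.comp (by fun_prop)
    have h3 : Continuous fun x : (ℍ × S1) × (ℍ × S1) => (x.1.1 : ℂ) := hc.comp (by fun_prop)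
    have h4 : Continuous fun x : (ℍ × S1) × (ℍ × S1) => (x.2.1 : ℂ) := hc.comp (by fun_prop)
    exact (Real.continuous_exp.comp (h1.add h2)).mul ((h3.sub h4).norm.pow 2)
  · have h1 : Continuous fun x : (ℍ × S1) × (ℍ × S1) => x.1.1.im := hi.comp (by fun_prop)
    have h2 : Continuous fun x : (ℍ × S1) × (ℍ × S1) => x.2.1.im := hi.comp (by fun_prop)
    exact continuous_const.mul (h1.mul h2)

lemma exp_eq {ρ : ℍ → ℝ} {V : Set ℂ} (hV : ∀ z ∈ V, Real.exp (2 * σ z) = gr ρ z) (z : ℍ)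
    (hz : (z : ℂ) ∈ V) : Real.exp (σ z) = Real.exp (ρ z) / z.im := by
  have h1 := hV z hz
  unfold gr at h1
  rw [ofComplex_apply, KCP.exp_two, KCP.exp_two] at h1
  have h2 : Real.exp (σ z) ^ 2 = (Real.exp (ρ z) / z.im) ^ 2 := by
    rw [div_pow]
    exact h1
  have h3 : 0 ≤ Real.exp (ρ z) / z.im := div_nonneg (Real.exp_pos _).le z.im_pos.le
  exact (pow_left_inj₀ (Real.exp_pos _).le h3 (by norm_num)).1 h2

lemma clo_iff {ρ : ℍ → ℝ} {V : Set ℂ} (hV : ∀ z ∈ V, Real.exp (2 * σ z) = gr ρ z)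
    (x : (ℍ × S1) × (ℍ × S1)) (h1 : pS x.1 ∈ V) (h2 : pS x.2 ∈ V) (ε : ℝ) :
    x ∈ clo ρ ε ↔ r2 σ (pS x.1) (pS x.2) < ε ^ 2 := by
  unfold clo r2
  rw [mem_setOf_eq, Real.exp_add (σ _), Real.exp_add (ρ _)]
  unfold pS at *
  rw [exp_eq hV _ h1, exp_eq hV _ h2, norm_sub_rev (x.2.1 : ℂ)]
  have i1 := x.1.1.im_pos
  have i2 := x.2.1.im_pos
  have e : Real.exp (ρ x.1.1) / x.1.1.im * (Real.exp (ρ x.2.1) / x.2.1.im) *
      ‖(x.1.1 : ℂ) - (x.2.1 : ℂ)‖ ^ 2 = Real.exp (ρ x.1.1) * Real.exp (ρ x.2.1) *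
      ‖(x.1.1 : ℂ) - (x.2.1 : ℂ)‖ ^ 2 / (x.1.1.im * x.2.1.im) := by
    field_simp
  rw [e, div_lt_iff₀ (mul_pos i1 i2)]

lemma close_of_r2 {B : Set ℂ} {A : ℝ} (hσ : KCP.Sg σ B A) {y w : ℂ} (hy : y ∈ B) (hw : w ∈ B)
    {τ : ℝ} (hτ : 0 < τ) (h1 : r2 σ y w < τ ^ 2) : ‖y - w‖ ≤ Real.exp A * τ := by
  have h2 : Real.exp (-(2 * A)) ≤ Real.exp (σ y + σ w) := by
    apply Real.exp_le_exp.2
    have := abs_le.1 (hσ.bd y hy)
    have := abs_le.1 (hσ.bd w hw)
    linarith
  have h3 : Real.exp (-(2 * A)) * ‖w - y‖ ^ 2 < τ ^ 2 :=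
    lt_of_le_of_lt (mul_le_mul_of_nonneg_right h2 (by positivity)) h1
  have h4 : ‖w - y‖ ^ 2 ≤ (Real.exp A * τ) ^ 2 := by
    have e1 : Real.exp (2 * A) * (Real.exp (-(2 * A)) * ‖w - y‖ ^ 2) = ‖w - y‖ ^ 2 := by
      rw [← mul_assoc, ← Real.exp_add]
      simp
    have e2 : Real.exp (2 * A) * (Real.exp (-(2 * A)) * ‖w - y‖ ^ 2) ≤
        Real.exp (2 * A) * τ ^ 2 := mul_le_mul_of_nonneg_left h3.le (Real.exp_pos _).le
    rw [e1, KCP.exp_two] at e2
    linarith [mul_pow (Real.exp A) τ 2]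
  rw [norm_sub_rev]
  exact (pow_le_pow_iff_left₀ (norm_nonneg _) (by positivity) (by norm_num)).1 h4

/-- the function of the pairs -/
noncomputable def Af (f : ℍ × S1 → ℝ) (x : (ℍ × S1) × (ℍ × S1)) : ℝ :=
  ((x.1.2 / x.2.2 : S1) : ℂ).im ^ 2 * f (x.1.1, x.1.2 / x.2.2)

lemma Af_cont {f : ℍ × S1 → ℝ} (hf : Continuous f) : Continuous (Af f) := by
  have h1 : Continuous fun x : (ℍ × S1) × (ℍ × S1) => (x.1.2 / x.2.2 : S1) :=
    (continuous_snd.comp continuous_fst).div' (continuous_snd.comp continuous_snd)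
  have h2 : Continuous fun x : (ℍ × S1) × (ℍ × S1) => x.1.1 :=
    continuous_fst.comp continuous_fst
  unfold Af
  exact ((Complex.continuous_im.comp (continuous_subtype_val.comp h1)).pow 2).mul
    (hf.comp (h2.prodMk h1))

/-- the close pairs for the local kernel -/
def Dl (σ : ℂ → ℝ) (ε : ℝ) : Set ((ℍ × S1) × (ℍ × S1)) := {x | r2 σ (pS x.1) (pS x.2) < ε ^ 2}

lemma Dl_meas (hσ : Continuous σ) (ε : ℝ) : MeasurableSet (Dl σ ε) := by
  apply IsOpen.measurableSet
  unfold Dl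
  have h1 : Continuous fun x : (ℍ × S1) × (ℍ × S1) => pS x.1 := pS_cont.comp continuous_fst
  have h2 : Continuous fun x : (ℍ × S1) × (ℍ × S1) => pS x.2 := pS_cont.comp continuous_snd
  refine isOpen_lt ?_ continuous_const
  unfold r2
  exact (Real.continuous_exp.comp ((hσ.comp h1).add (hσ.comp h2))).mul ((h2.sub h1).norm.pow 2)

lemma XK_eq {f : ℍ × S1 → ℝ} {g : ℂ × ℂ → ℂ} {V K : Set ℂ} (hKV : K ⊆ V)
    (hfK : ∀ (z : ℍ) (t : S1), (z : ℂ) ∉ K → f (z, t) = 0) (hg : TF V g)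
    (hfg : ∀ (z : ℍ) (t : S1), (z : ℂ) ∈ V →
      g (z, (starRingEnd ℂ) (t : ℂ)) = ((Real.exp (2 * σ z) * f (z, t) : ℝ) : ℂ)) (ε : ℝ)
    (m : Measure (ℍ × S1)) :
    XK m pS uS (ki σ ε) g = ((∫ x, (Dl σ ε).indicator (fun x => (Real.pi * ε ^ 2)⁻¹ *
      (Real.exp (2 * σ (pS x.1)) * Real.exp (2 * σ (pS x.1))) * Af f x) x ∂(m.prod m) : ℝ) : ℂ) := by
  rw [← integral_complex_ofReal]
  unfold XK II
  congr 1
  funext x
  beta_reduce
  rw [uS_div, s2_conj]
  have h1 : g (pS x.1, (starRingEnd ℂ) ((x.1.2 / x.2.2 : S1) : ℂ)) =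
      ((Real.exp (2 * σ (pS x.1)) * f (x.1.1, x.1.2 / x.2.2) : ℝ) : ℂ) := by
    by_cases hz : (x.1.1 : ℂ) ∈ V
    · exact hfg x.1.1 _ hz
    · obtain ⟨K', -, hK'V, hK'⟩ := hg.supp
      rw [hK' (pS x.1) (fun h => hz (hK'V h)), hfK _ _ (fun h => hz (hKV h)), mul_zero,
        Complex.ofReal_zero]
  rw [h1]
  by_cases hx : x ∈ Dl σ ε
  · rw [indicator_of_mem hx]
    have hx' : r2 σ (pS x.1) (pS x.2) < ε ^ 2 := hx
    unfold ki Af
    rw [if_pos hx', ← Complex.ofReal_mul]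
    congr 1
    ring
  · rw [indicator_of_notMem hx]
    have hx' : ¬ r2 σ (pS x.1) (pS x.2) < ε ^ 2 := hx
    unfold ki
    rw [if_neg hx']
    simp

lemma XG_eq [SFinite μ] [SFinite (muS μ F σ)] {ρ : ℍ → ℝ} (hρ : Continuous ρ)
    (hσ : Continuous σ) (hF : IsCompact F) {f : ℍ × S1 → ℝ} {ε : ℝ}
    (h : ∀ x, (clo ρ ε).indicator (Af f) x =
      ((pS ⁻¹' F) ×ˢ (pS ⁻¹' F)).indicator ((Dl σ ε).indicator (Af f)) x) :
    XG ρ μ ε f = ∫ x, (Dl σ ε).indicator (fun x => (Real.pi * ε ^ 2)⁻¹ *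
      Real.exp (2 * σ (pS x.1) + 2 * σ (pS x.2)) * Af f x) x ∂((muS μ F σ).prod (muS μ F σ)) := by
  have h0 : XG ρ μ ε f = (Real.pi * ε ^ 2)⁻¹ * ∫ x in clo ρ ε, Af f x ∂(μ.prod μ) := rfl
  rw [h0, ← integral_indicator (clo_meas hρ ε), funext h,
    integral_indicator ((meas_pre hF).prod (meas_pre hF)), integral_pair hσ,
    ← integral_const_mul]
  congr 1
  funext x
  by_cases hx : x ∈ Dl σ ε
  · rw [indicator_of_mem hx, indicator_of_mem hx]
    ring
  · rw [indicator_of_notMem hx, indicator_of_notMem hx]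
    ring

end GKR

open GKR in
theorem t_GKR (hC : StmtClb) : StmtGkr := by
  intro Γ ρ hFac μ hμ V F σ hVo hVF hFU hFc hσ hV hPB f K hf hK hKV hfK g hg hfg
  have hσc : Continuous σ := hσ.continuous
  have hρ : Continuous ρ := ro_cont hFac
  haveI : SigmaFinite μ := sigmaFinite hμ
  haveI : IsFiniteMeasure (muS μ F σ) := fin_muS hσc hμ hFc hFU
  have hKU : K ⊆ UH := fun z hz => hFU (hVF (hKV hz))
  have hKH : IsCompact ((fun z : ℍ => (z : ℂ)) ⁻¹' K) := by
    refine (UpperHalfPlane.isOpenEmbedding_coe.isInducing.isCompact_preimage_iff ?_).2 hK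
    intro z hz
    exact ⟨⟨z, hKU hz⟩, rfl⟩
  obtain ⟨C₁, K₁, -, -, hC₁⟩ := hC Γ ρ hFac _ hKH
  obtain ⟨δ, hδ, hδV⟩ := hK.exists_cthickening_subset_open hVo hKV
  obtain ⟨R, hR⟩ := hFc.isBounded.subset_closedBall (0 : ℂ)
  obtain ⟨A₀, hA₀⟩ := KCP.exists_Sg hσ R
  obtain ⟨M, hM⟩ : ∃ M : ℝ, ∀ p, |f p| ≤ M := by
    obtain ⟨M, hM⟩ := (hKH.prod (isCompact_univ (X := S1))).exists_bound_of_continuousOn
      hf.continuousOn
    refine ⟨max M 0, fun p => ?_⟩
    by_cases hp : (p.1 : ℂ) ∈ K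
    · exact (hM p ⟨hp, mem_univ _⟩).trans (le_max_left _ _)
    · have : f p = 0 := hfK p.1 p.2 hp
      rw [this, abs_zero]
      exact le_max_right _ _
  have hM0 : 0 ≤ M := (abs_nonneg _).trans (hM (UpperHalfPlane.I, 1))
  obtain ⟨A, hA0, hA1⟩ : ∃ A : ℝ, 0 ≤ A ∧ A₀ ≤ A := ⟨max 0 A₀, le_max_left _ _, le_max_right _ _⟩
  have hSg := hA₀ A hA1
  have hE : 0 < Real.exp A := Real.exp_pos A
  obtain ⟨C₂, ε₂, hε₂, hsine⟩ := hPB.sine K hK hKV
  obtain ⟨ε₁, hε₁, h1a, h1b, h1c, h1d⟩ : ∃ ε₁ : ℝ, 0 < ε₁ ∧ ε₁ ≤ 1 ∧ |C₁| * ε₁ ≤ δ ∧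
      Real.exp A * ε₁ ≤ δ ∧ Real.exp A * ε₁ ≤ ε₂ := by
    refine ⟨min (min 1 (δ / (|C₁| + 1))) (min (δ / Real.exp A) (ε₂ / Real.exp A)),
      lt_min (lt_min one_pos (by positivity)) (lt_min (by positivity) (by positivity)),
      (min_le_left _ _).trans (min_le_left _ _), ?_, ?_, ?_⟩
    · have h1 : min (min 1 (δ / (|C₁| + 1))) (min (δ / Real.exp A) (ε₂ / Real.exp A)) ≤
          δ / (|C₁| + 1) := (min_le_left _ _).trans (min_le_right _ _)
      refine (mul_le_mul_of_nonneg_left h1 (abs_nonneg _)).trans ?_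
      rw [mul_div_assoc', div_le_iff₀ (by positivity)]
      nlinarith [abs_nonneg C₁]
    · have h1 : min (min 1 (δ / (|C₁| + 1))) (min (δ / Real.exp A) (ε₂ / Real.exp A)) ≤
          δ / Real.exp A := (min_le_right _ _).trans (min_le_left _ _)
      refine (mul_le_mul_of_nonneg_left h1 hE.le).trans (le_of_eq ?_)
      field_simp
    · have h1 : min (min 1 (δ / (|C₁| + 1))) (min (δ / Real.exp A) (ε₂ / Real.exp A)) ≤
          ε₂ / Real.exp A := (min_le_right _ _).trans (min_le_right _ _)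
      refine (mul_le_mul_of_nonneg_left h1 hE.le).trans (le_of_eq ?_)
      field_simp
  have hnear : ∀ z w : ℂ, z ∈ K → ‖z - w‖ ≤ δ → w ∈ V := by
    intro z w hz hzw
    refine hδV (Metric.mem_cthickening_of_dist_le w z δ K hz ?_)
    rw [dist_eq_norm, norm_sub_rev]
    exact hzw
  have hkey : ∀ ε, 0 < ε → ε < ε₁ → ∀ x, (clo ρ ε).indicator (Af f) x =
      ((pS ⁻¹' F) ×ˢ (pS ⁻¹' F)).indicator ((Dl σ ε).indicator (Af f)) x := by
    intro ε hε hε1 x
    by_cases hz : pS x.1 ∈ K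
    · have hzV := hKV hz
      by_cases hx : x ∈ clo ρ ε
      · have h1 := (hC₁ ε hε (hε1.le.trans h1a) x hx hz).2
        have h2 : pS x.2 ∈ V := by
          refine hnear _ _ hz (h1.trans ?_)
          refine le_trans ?_ h1b
          exact mul_le_mul (le_abs_self _) hε1.le hε.le (abs_nonneg _)
        have h3 : x ∈ Dl σ ε := (clo_iff hV x hzV h2 ε).1 hx
        have h4 : x ∈ (pS ⁻¹' F) ×ˢ (pS ⁻¹' F) := ⟨hVF hzV, hVF h2⟩
        rw [indicator_of_mem hx, indicator_of_mem h4, indicator_of_mem h3]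
      · rw [indicator_of_notMem hx]
        by_cases h4 : x ∈ (pS ⁻¹' F) ×ˢ (pS ⁻¹' F)
        · rw [indicator_of_mem h4]
          by_cases h3 : x ∈ Dl σ ε
          · exfalso
            have h5 := close_of_r2 hSg (hR h4.1) (hR h4.2) hε h3
            have h2 : pS x.2 ∈ V := hnear _ _ hz (h5.trans
              ((mul_le_mul_of_nonneg_left hε1.le hE.le).trans h1c))
            exact hx ((clo_iff hV x hzV h2 ε).2 h3)
          · rw [indicator_of_notMem h3]
        · rw [indicator_of_notMem h4]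
    · have h0 : Af f x = 0 := by
        unfold Af
        rw [hfK _ _ hz, mul_zero]
      have h1 : ∀ S : Set ((ℍ × S1) × (ℍ × S1)), S.indicator (Af f) x = 0 := by
        intro S
        by_cases h : x ∈ S
        · rw [indicator_of_mem h, h0]
        · rw [indicator_of_notMem h]
      rw [h1]
      by_cases h : x ∈ (pS ⁻¹' F) ×ˢ (pS ⁻¹' F)
      · rw [indicator_of_mem h, h1]
      · rw [indicator_of_notMem h]
  have hae := ae_pair (μ := μ) (σ := σ) hFc
  have hp1 : Continuous fun x : (ℍ × S1) × (ℍ × S1) => pS x.1 := pS_cont.comp continuous_fst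
  have hp2 : Continuous fun x : (ℍ × S1) × (ℍ × S1) => pS x.2 := pS_cont.comp continuous_snd
  have hAc := Af_cont hf
  have hAb : ∀ x, |Af f x| ≤ s2 (uS x.1 / uS x.2) * M := by
    intro x
    rw [uS_div, s2_conj]
    unfold Af
    rw [abs_mul, abs_of_nonneg (by positivity)]
    exact mul_le_mul_of_nonneg_left (hM _) (by positivity)
  have hs2 : ∀ x : (ℍ × S1) × (ℍ × S1), s2 (uS x.1 / uS x.2) ≤ 1 := by
    intro x
    rw [uS_div, s2_conj]
    have h1 : ‖((x.1.2 / x.2.2 : S1) : ℂ)‖ = 1 := by simpa using (x.1.2 / x.2.2 : S1).2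
    have h2 := Complex.abs_im_le_norm ((x.1.2 / x.2.2 : S1) : ℂ)
    rw [h1] at h2
    rw [← sq_abs]
    exact pow_le_one₀ (abs_nonneg _) h2
  have hs0 : ∀ x : (ℍ × S1) × (ℍ × S1), 0 ≤ s2 (uS x.1 / uS x.2) := by
    intro x
    unfold s2
    positivity
  have hev : ∀ᶠ ε : ℝ in 𝓝[>] 0, ‖XK (muS μ F σ) pS uS (ki σ ε) g - (XG ρ μ ε f : ℂ)‖ ≤
      (Real.pi)⁻¹ * (Real.exp A ^ 4 * (2 * A) * Real.exp A * M) * (C₂ * Real.exp A ^ 2) * ε := by
    filter_upwards [Ioo_mem_nhdsGT hε₁] with ε hε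
    obtain ⟨hε, hε1⟩ := hε
    rw [XK_eq hKV hfK hg hfg, XG_eq hρ hσc hFc (hkey ε hε hε1), ← Complex.ofReal_sub,
      Complex.norm_real]
    have hint : ∀ w : (ℍ × S1) × (ℍ × S1) → ℝ, Continuous w →
        (∀ x, pS x.1 ∈ F → pS x.2 ∈ F → |w x| ≤ Real.exp A ^ 4) →
        Integrable (fun x => (Dl σ ε).indicator (fun x => (Real.pi * ε ^ 2)⁻¹ * w x * Af f x) x)
          ((muS μ F σ).prod (muS μ F σ)) := by
      intro w hw hwb
      refine Integrable.of_bound (((((continuous_const.mul hw).mul hAc).measurable).indicator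
        (Dl_meas hσc ε)).aestronglyMeasurable) ((Real.pi * ε ^ 2)⁻¹ * Real.exp A ^ 4 * M) ?_
      filter_upwards [hae] with x hx
      refine (norm_indicator_le_norm_self _ _).trans ?_
      rw [norm_mul, norm_mul, Real.norm_eq_abs, Real.norm_eq_abs, Real.norm_eq_abs,
        abs_of_pos (by positivity : 0 < (Real.pi * ε ^ 2)⁻¹)]
      refine mul_le_mul (mul_le_mul_of_nonneg_left (hwb x hx.1 hx.2) (by positivity)) ?_
        (abs_nonneg _) (by positivity)
      refine (hAb x).trans ?_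
      exact mul_le_of_le_one_left hM0 (hs2 x)
    have hb1 : ∀ z ∈ F, Real.exp (2 * σ z) ≤ Real.exp A ^ 2 := by
      intro z hz
      rw [← KCP.exp_two]
      apply Real.exp_le_exp.2
      have := abs_le.1 (hSg.bd z (hR hz))
      linarith
    rw [← integral_sub]
    rotate_left
    · refine hint _ (by fun_prop) fun x hx1 hx2 => ?_
      rw [abs_of_pos (by positivity)]
      calc _ ≤ Real.exp A ^ 2 * Real.exp A ^ 2 :=
            mul_le_mul (hb1 _ hx1) (hb1 _ hx1) (Real.exp_pos _).le (by positivity)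
        _ = _ := by ring
    · refine hint _ (by fun_prop) fun x hx1 hx2 => ?_
      rw [abs_of_pos (by positivity), Real.exp_add]
      calc _ ≤ Real.exp A ^ 2 * Real.exp A ^ 2 :=
            mul_le_mul (hb1 _ hx1) (hb1 _ hx2) (Real.exp_pos _).le (by positivity)
        _ = _ := by ring
    set S : Set ((ℍ × S1) × (ℍ × S1)) := {x | pS x.1 ∈ K ∧ ‖pS x.1 - pS x.2‖ ≤ Real.exp A * ε}
      with hS
    have hSm : MeasurableSet S := by
      apply IsClosed.measurableSet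
      exact (hK.isClosed.preimage hp1).inter (isClosed_le (hp1.sub hp2).norm continuous_const)
    have hs2c : Continuous fun x : (ℍ × S1) × (ℍ × S1) => s2 (uS x.1 / uS x.2) := by
      have h1 : Continuous fun x : (ℍ × S1) × (ℍ × S1) => (x.1.2 / x.2.2 : S1) :=
        (continuous_snd.comp continuous_fst).div' (continuous_snd.comp continuous_snd)
      have h2 : (fun x : (ℍ × S1) × (ℍ × S1) => s2 (uS x.1 / uS x.2)) =
          fun x => ((x.1.2 / x.2.2 : S1) : ℂ).im ^ 2 := by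
        funext x
        rw [uS_div, s2_conj]
      rw [h2]
      exact (Complex.continuous_im.comp (continuous_subtype_val.comp h1)).pow 2
    set c : ℝ := (Real.pi * ε ^ 2)⁻¹ * (Real.exp A ^ 4 * (2 * A) * (Real.exp A * ε) * M) with hc
    have hc0 : 0 ≤ c := by positivity
    refine (norm_integral_le_of_norm_le
      (g := fun x => S.indicator (fun x => c * s2 (uS x.1 / uS x.2)) x) ?_ ?_).trans ?_
    · refine Integrable.of_bound (((continuous_const.mul hs2c).measurable.indicator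
        hSm).aestronglyMeasurable) c ?_
      refine Eventually.of_forall fun x => (norm_indicator_le_norm_self _ _).trans ?_
      rw [norm_mul, Real.norm_eq_abs, Real.norm_eq_abs, abs_of_nonneg hc0,
        abs_of_nonneg (hs0 x)]
      exact mul_le_of_le_one_right hc0 (hs2 x)
    · filter_upwards [hae] with x hx
      by_cases hD : x ∈ Dl σ ε
      · rw [indicator_of_mem hD, indicator_of_mem hD]
        have h5 := close_of_r2 hSg (hR hx.1) (hR hx.2) hε hD
        by_cases hz : pS x.1 ∈ K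
        · have hxS : x ∈ S := ⟨hz, h5⟩
          rw [indicator_of_mem hxS]
          have e1 : (Real.pi * ε ^ 2)⁻¹ * (Real.exp (2 * σ (pS x.1)) * Real.exp (2 * σ (pS x.1))) *
              Af f x - (Real.pi * ε ^ 2)⁻¹ * Real.exp (2 * σ (pS x.1) + 2 * σ (pS x.2)) * Af f x =
              (Real.pi * ε ^ 2)⁻¹ * (Real.exp (2 * σ (pS x.1)) *
              (Real.exp (2 * σ (pS x.1)) - Real.exp (2 * σ (pS x.2)))) * Af f x := by
            rw [Real.exp_add]
            ring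
          rw [e1, norm_mul, norm_mul, norm_mul, Real.norm_eq_abs, Real.norm_eq_abs,
            Real.norm_eq_abs, Real.norm_eq_abs,
            abs_of_pos (by positivity : 0 < (Real.pi * ε ^ 2)⁻¹), abs_of_pos (Real.exp_pos _)]
          have e2 : |Real.exp (2 * σ (pS x.1)) - Real.exp (2 * σ (pS x.2))| ≤
              Real.exp A ^ 2 * (2 * (A * (Real.exp A * ε))) := by
            have e3 := KCP.exp_lip (a := 2 * σ (pS x.1)) (a' := 2 * σ (pS x.2)) (A := 2 * A)
              (by have := abs_le.1 (hSg.bd _ (hR hx.1)); linarith)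
              (by have := abs_le.1 (hSg.bd _ (hR hx.2)); linarith)
            rw [KCP.exp_two A] at e3
            refine e3.trans (mul_le_mul_of_nonneg_left ?_ (by positivity))
            rw [← mul_sub, abs_mul, abs_of_pos (by norm_num : (0 : ℝ) < 2)]
            refine mul_le_mul_of_nonneg_left ?_ (by norm_num)
            exact (hSg.lip _ (hR hx.1) _ (hR hx.2)).trans (mul_le_mul_of_nonneg_left h5 hA0)
          calc (Real.pi * ε ^ 2)⁻¹ * (Real.exp (2 * σ (pS x.1)) *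
              |Real.exp (2 * σ (pS x.1)) - Real.exp (2 * σ (pS x.2))|) * |Af f x|
              ≤ (Real.pi * ε ^ 2)⁻¹ * (Real.exp A ^ 2 *
                (Real.exp A ^ 2 * (2 * (A * (Real.exp A * ε))))) *
                (s2 (uS x.1 / uS x.2) * M) := by
                refine mul_le_mul (mul_le_mul_of_nonneg_left (mul_le_mul (hb1 _ hx.1) e2
                  (abs_nonneg _) (by positivity)) (by positivity)) (hAb x) (abs_nonneg _)
                  (by positivity)
            _ = c * s2 (uS x.1 / uS x.2) := by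
                rw [hc]
                ring
        · have h0 : Af f x = 0 := by
            unfold Af
            rw [hfK _ _ hz, mul_zero]
          rw [h0, mul_zero, mul_zero, sub_zero, norm_zero]
          exact indicator_nonneg (fun y _ => mul_nonneg hc0 (hs0 y)) x
      · rw [indicator_of_notMem hD, indicator_of_notMem hD, sub_zero, norm_zero]
        exact indicator_nonneg (fun y _ => mul_nonneg hc0 (hs0 y)) x
    · rw [integral_indicator hSm, integral_const_mul]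
      have h1 := hsine (Real.exp A * ε) (by positivity)
        (lt_of_lt_of_le (mul_lt_mul_of_pos_left hε1 hE) h1d)
      refine (mul_le_mul_of_nonneg_left h1 hc0).trans (le_of_eq ?_)
      rw [hc]
      field_simp
  refine squeeze_zero_norm' hev ?_
  have h1 : Continuous fun ε : ℝ => (Real.pi)⁻¹ * (Real.exp A ^ 4 * (2 * A) * Real.exp A * M) *
      (C₂ * Real.exp A ^ 2) * ε := by fun_prop
  have h2 := h1.tendsto 0
  rw [mul_zero] at h2
  exact h2.mono_left nhdsWithin_le_nhds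

end CRM
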