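import Pool.Agent.CRM.StG

/-!
IVM: invariance of the crossing measure.
-/

open Complex MeasureTheory Filter Topology Set
open UpperHalfPlane hiding I
open scoped ContDiff MatrixGroups

namespace CRM

open QE QE.NC QJ U3 NFP

namespace IVM

noncomputable section

/-! ### Test functions composed with a Möbius transformation -/

/-- the test function `ζ (γ z)` -/
def tg (γ : SL(2, ℝ)) (ζ : ℂ → ℂ) : ℂ → ℂ := UH.indicator fun z => ζ (mob γ z)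

lemma tg_mem (γ : SL(2, ℝ)) (ζ : ℂ → ℂ) {z : ℂ} (hz : z ∈ UH) : tg γ ζ z = ζ (mob γ z) :=
  indicator_of_mem hz _

lemma coe_mem (z : ℍ) : (z : ℂ) ∈ UH := z.im_pos

lemma tg_coe (γ : SL(2, ℝ)) (ζ : ℂ → ℂ) (z : ℍ) : tg γ ζ z = ζ (mob γ z) :=
  tg_mem γ ζ (coe_mem z)

lemma test_tg (γ : SL(2, ℝ)) {ζ : ℂ → ℂ} (hζ : Test UH ζ) : Test UH (tg γ ζ) := by
  have hKU : mob γ⁻¹ '' tsupport ζ ⊆ UH := by
    rintro _ ⟨z, _, rfl⟩
    exact mob_mem _ _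
  have hK : IsCompact (mob γ⁻¹ '' tsupport ζ) :=
    hζ.supp.isCompact.image_of_continuousOn ((continuousOn_mob γ⁻¹).mono hζ.sub)
  have h0 : ∀ z, z ∉ mob γ⁻¹ '' tsupport ζ → tg γ ζ z = 0 := by
    intro z hz
    by_cases hU : z ∈ UH
    · rw [tg_mem γ ζ hU]
      by_contra h1
      exact hz ⟨mob γ z, subset_tsupport ζ h1, mob_inv_mob γ hU⟩
    · exact indicator_of_notMem hU _
  have hsub : tsupport (tg γ ζ) ⊆ mob γ⁻¹ '' tsupport ζ := by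
    refine closure_minimal (fun z hz => ?_) hK.isClosed
    by_contra h1
    exact hz (h0 z h1)
  refine ⟨?_, HasCompactSupport.intro hK h0, hsub.trans hKU⟩
  rw [contDiff_iff_contDiffAt]
  intro z
  by_cases hU : z ∈ UH
  · have h1 : ContDiffAt ℝ ∞ (fun z => ζ (mob γ z)) z :=
      hζ.smooth.contDiffAt.comp z ((contDiffOn_mob γ).contDiffAt (isOpen_UH.mem_nhds hU))
    refine h1.congr_of_eventuallyEq ?_
    filter_upwards [isOpen_UH.mem_nhds hU] with w hw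
    exact tg_mem γ ζ hw
  · have h1 : z ∉ mob γ⁻¹ '' tsupport ζ := fun h => hU (hKU h)
    refine (contDiffAt_const (c := (0 : ℂ))).congr_of_eventuallyEq ?_
    filter_upwards [hK.isClosed.isOpen_compl.mem_nhds h1] with w hw
    exact h0 w hw

/-! ### The extension of a function to the plane -/

/-- the direction of a complex number -/
def nrm (t : ℂ) : S1 :=
  if h : t ≠ 0 then ⟨t / (‖t‖ : ℂ), by
    rw [mem_sphere_zero_iff_norm, norm_div, Complex.norm_real, norm_norm,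
      div_self (norm_ne_zero_iff.2 h)]⟩
  else ⟨1, by rw [mem_sphere_zero_iff_norm, norm_one]⟩

lemma nrm_coe {t : ℂ} (h : t ≠ 0) : (nrm t : ℂ) = t / (‖t‖ : ℂ) := by
  unfold nrm
  rw [dif_pos h]

lemma norm_S1 (t : S1) : ‖(t : ℂ)‖ = 1 := mem_sphere_zero_iff_norm.1 t.2

lemma nrm_S1 (t : S1) : nrm (t : ℂ) = t := by
  have h0 : (t : ℂ) ≠ 0 := by
    rw [← norm_ne_zero_iff, norm_S1]
    norm_num
  apply Subtype.ext
  rw [nrm_coe h0, norm_S1, Complex.ofReal_one, div_one]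

lemma cont_nrm {t : ℂ} (h : t ≠ 0) : ContinuousAt nrm t := by
  rw [Topology.IsInducing.subtypeVal.continuousAt_iff]
  have h1 : ContinuousAt (fun s : ℂ => s / (‖s‖ : ℂ)) t :=
    continuousAt_id.div (Complex.continuous_ofReal.continuousAt.comp continuousAt_id.norm)
      (by
        show ((‖t‖ : ℝ) : ℂ) ≠ 0
        exact_mod_cast norm_ne_zero_iff.2 h)
  refine h1.congr ?_
  filter_upwards [isOpen_ne.mem_nhds h] with s hs
  exact (nrm_coe hs).symm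

open Classical in
/-- the extension of `f` to the plane -/
def Fx (f : ℍ × S1 → ℝ) (x : ℂ × ℂ) : ℂ :=
  if x.1 ∈ UH then ((f (ofComplex x.1, nrm x.2) * min ‖x.2‖ 1 : ℝ) : ℂ) else 0

lemma Fx_coe (f : ℍ × S1 → ℝ) (z : ℍ) (t : S1) : Fx f ((z : ℂ), (t : ℂ)) = (f (z, t) : ℂ) := by
  unfold Fx
  rw [if_pos (coe_mem z)]
  show ((f (ofComplex (z : ℂ), nrm (t : ℂ)) * min ‖(t : ℂ)‖ 1 : ℝ) : ℂ) = _
  rw [ofComplex_apply, nrm_S1, norm_S1, min_self, mul_one]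

lemma cont_ofComplex {z : ℂ} (hz : z ∈ UH) : ContinuousAt (fun w : ℂ => ofComplex w) z := by
  have h1 : z = ((⟨z, hz⟩ : ℍ) : ℂ) := rfl
  rw [isOpenEmbedding_coe.isInducing.continuousAt_iff]
  refine continuousAt_id.congr ?_
  filter_upwards [isOpen_UH.mem_nhds hz] with w hw
  have h2 : w = ((⟨w, hw⟩ : ℍ) : ℂ) := rfl
  show w = ((ofComplex w : ℍ) : ℂ)
  conv_rhs => rw [h2]
  rw [ofComplex_apply]

lemma tf_Fx {f : ℍ × S1 → ℝ} (hf : Continuous f) (hs : HasCompactSupport f) :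
    TF UH (Fx f) := by
  have hK : IsCompact (UpperHalfPlane.coe '' (Prod.fst '' tsupport f)) :=
    (hs.isCompact.image continuous_fst).image continuous_coe
  have hKU : UpperHalfPlane.coe '' (Prod.fst '' tsupport f) ⊆ UH := by
    rintro _ ⟨z, _, rfl⟩
    exact coe_mem z
  have h0 : ∀ z, z ∉ UpperHalfPlane.coe '' (Prod.fst '' tsupport f) → ∀ t, Fx f (z, t) = 0 := by
    intro z hz t
    unfold Fx
    by_cases hU : z ∈ UH
    · rw [if_pos hU]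
      have h1 : f (ofComplex z, nrm t) = 0 := by
        by_contra h2
        refine hz ⟨ofComplex z, ⟨(ofComplex z, nrm t), subset_tsupport f h2, rfl⟩, ?_⟩
        have h3 : z = ((⟨z, hU⟩ : ℍ) : ℂ) := rfl
        conv_lhs => rw [h3]
        rw [ofComplex_apply, ← h3]
      show ((f (ofComplex z, nrm t) * min ‖t‖ 1 : ℝ) : ℂ) = 0
      rw [h1, zero_mul, Complex.ofReal_zero]
    · rw [if_neg hU]
  refine ⟨?_, ⟨_, hK, hKU, h0⟩⟩
  obtain ⟨M, hM⟩ := hf.bounded_above_of_compact_support hs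
  rw [continuous_iff_continuousAt]
  rintro ⟨z, t⟩
  by_cases hz : z ∈ UpperHalfPlane.coe '' (Prod.fst '' tsupport f)
  · have hU := hKU hz
    have hn : ∀ᶠ x : ℂ × ℂ in 𝓝 (z, t), x.1 ∈ UH :=
      (isOpen_UH.preimage continuous_fst).mem_nhds hU
    by_cases ht : t = 0
    · subst ht
      have e0 : Fx f (z, 0) = 0 := by
        unfold Fx
        rw [if_pos hU]
        show ((f (ofComplex z, nrm 0) * min ‖(0 : ℂ)‖ 1 : ℝ) : ℂ) = 0
        rw [norm_zero, min_eq_left zero_le_one, mul_zero, Complex.ofReal_zero]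
      show Tendsto (Fx f) (𝓝 (z, 0)) (𝓝 (Fx f (z, 0)))
      rw [e0]
      have hb : Tendsto (fun x : ℂ × ℂ => M * ‖x.2‖) (𝓝 (z, 0)) (𝓝 0) := by
        have h1 : Continuous fun x : ℂ × ℂ => M * ‖x.2‖ :=
          continuous_const.mul continuous_snd.norm
        have h2 := h1.tendsto (z, (0 : ℂ))
        simp only [norm_zero, mul_zero] at h2
        exact h2
      refine squeeze_zero_norm (fun x => ?_) hb
      have hM0 : 0 ≤ M := (norm_nonneg _).trans (hM (ofComplex z, nrm 0))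
      unfold Fx
      split_ifs with h3
      · rw [Complex.norm_real, norm_mul]
        refine mul_le_mul (hM _) ?_ (norm_nonneg _) hM0
        rw [Real.norm_eq_abs, abs_of_nonneg (le_min (norm_nonneg _) zero_le_one)]
        exact min_le_left _ _
      · rw [norm_zero]
        exact mul_nonneg hM0 (norm_nonneg _)
    · have h1 : ContinuousAt (fun x : ℂ × ℂ => ofComplex x.1) (z, t) :=
        ContinuousAt.comp (g := fun w : ℂ => ofComplex w) (f := Prod.fst) (cont_ofComplex hU)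
          continuousAt_fst
      have h2 : ContinuousAt (fun x : ℂ × ℂ => nrm x.2) (z, t) :=
        ContinuousAt.comp (g := nrm) (f := Prod.snd) (cont_nrm ht) continuousAt_snd
      have h3 : ContinuousAt (fun x : ℂ × ℂ => f (ofComplex x.1, nrm x.2)) (z, t) :=
        ContinuousAt.comp (g := f) (f := fun x : ℂ × ℂ => (ofComplex x.1, nrm x.2))
          hf.continuousAt (h1.prodMk h2)
      have h4 : ContinuousAt
          (fun x : ℂ × ℂ => ((f (ofComplex x.1, nrm x.2) * min ‖x.2‖ 1 : ℝ) : ℂ)) (z, t) :=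
        Complex.continuous_ofReal.continuousAt.comp
          (h3.mul (continuous_snd.norm.min continuous_const).continuousAt)
      refine h4.congr ?_
      filter_upwards [hn] with x hx
      unfold Fx
      rw [if_pos hx]
  · have h1 : ∀ᶠ x : ℂ × ℂ in 𝓝 (z, t), Fx f x = 0 := by
      filter_upwards [(hK.isClosed.isOpen_compl.preimage continuous_fst).mem_nhds hz] with x hx
      exact h0 x.1 hx x.2
    exact (continuousAt_const (y := (0 : ℂ))).congr (h1.mono fun x hx => hx.symm)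

/-! ### The algebra of the kernels -/

lemma zpow_conj {t : ℂ} (ht : ‖t‖ = 1) (k : ℤ) : t ^ (-k) = (starRingEnd ℂ) t ^ k := by
  rw [zpow_neg, ← inv_zpow, Complex.inv_eq_conj ht]

/-- the second difference of the functions `gk` -/
lemma gk_diff {t : ℂ} (ht : ‖t‖ = 1) (j : ℕ) :
    gk (2 * (j + 1 : ℕ) + 2 : ℤ) t - 2 * gk (2 * (j + 1 : ℕ) : ℤ) t
      + gk (2 * (j + 1 : ℕ) - 2 : ℤ) t = 4 * ck (2 * (j + 1 : ℕ) : ℤ) t := by
  have e1 : ((2 * (j + 1 : ℕ) + 2 : ℤ) / 2).natAbs = j + 2 := by omega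
  have e2 : ((2 * (j + 1 : ℕ) : ℤ) / 2).natAbs = j + 1 := by omega
  have e3 : ((2 * (j + 1 : ℕ) - 2 : ℤ) / 2).natAbs = j := by omega
  have e4 : (2 * (j + 1 : ℕ) : ℤ) = ((2 * (j + 1) : ℕ) : ℤ) := by push_cast; ring
  unfold gk ck
  rw [e1, e2, e3, e4, zpow_natCast]
  set w : ℂ := t ^ 2 with hw
  have hwn : ‖w‖ = 1 := by rw [hw, norm_pow, ht, one_pow]
  have hwc : w * (starRingEnd ℂ) w = 1 := by
    rw [Complex.mul_conj, Complex.normSq_eq_norm_sq, hwn]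
    norm_num
  have hp : ∀ i : ℕ, t ^ (2 * i) = w ^ i := fun i => by rw [hw, pow_mul]
  simp only [hp]
  set S : ℂ := ∑ i ∈ Finset.range j, w ^ i with hS
  have s1 : ∑ i ∈ Finset.range (j + 1), w ^ i = S + w ^ j := Finset.sum_range_succ _ _
  have s2' : ∑ i ∈ Finset.range (j + 2), w ^ i = S + w ^ j + w ^ (j + 1) := by
    rw [Finset.sum_range_succ, s1]
  have hg : S * (w - 1) = w ^ j - 1 := geom_sum_mul w j
  rw [s1, s2']
  have key : ∀ a : ℂ, ((‖a‖ ^ 2 : ℝ) : ℂ) = a * (starRingEnd ℂ) a := fun a => by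
    rw [Complex.mul_conj, Complex.normSq_eq_norm_sq]
  have hre : ∀ a : ℂ, ((2 * a.re : ℝ) : ℂ) = a + (starRingEnd ℂ) a := fun a => by
    rw [Complex.add_conj]
  have goal : (((2 * ‖S + w ^ j + w ^ (j + 1)‖ ^ 2 - 2 * (2 * ‖S + w ^ j‖ ^ 2)
      + 2 * ‖S‖ ^ 2 : ℝ)) : ℂ) = ((4 * (w ^ (j + 1)).re : ℝ) : ℂ) := by
    have h1 : (((2 * ‖S + w ^ j + w ^ (j + 1)‖ ^ 2 - 2 * (2 * ‖S + w ^ j‖ ^ 2)
        + 2 * ‖S‖ ^ 2 : ℝ)) : ℂ) = 2 * ((‖S + w ^ j + w ^ (j + 1)‖ ^ 2 : ℝ) : ℂ)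
          - 4 * ((‖S + w ^ j‖ ^ 2 : ℝ) : ℂ) + 2 * ((‖S‖ ^ 2 : ℝ) : ℂ) := by
      push_cast
      ring
    have h2 : ((4 * (w ^ (j + 1)).re : ℝ) : ℂ) = 2 * ((2 * (w ^ (j + 1)).re : ℝ) : ℂ) := by
      push_cast
      ring
    rw [h1, h2, key, key, key, hre]
    simp only [map_add, map_pow]
    set c : ℂ := (starRingEnd ℂ) w with hc
    set T : ℂ := (starRingEnd ℂ) S with hT
    have hgc : T * (c - 1) = c ^ j - 1 := by
      have := congrArg (starRingEnd ℂ) hg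
      simpa [hc, hT] using this
    have hpw : ∀ i : ℕ, w ^ i * c ^ i = 1 := fun i => by rw [← mul_pow, hwc, one_pow]
    have q0 := hpw j
    have q1 := hpw (j + 1)
    -- S c^j (c - 1) and its conjugate
    have r1 : S * (c ^ j * (c - 1)) = c ^ (j + 1) - c := by
      have : S * (c ^ j * (c - 1)) = -(S * (w - 1)) * (c ^ j * c) := by
        linear_combination (S * c ^ j) * hwc
      rw [this, hg]
      linear_combination (-c) * q0
    have r2 : T * (w ^ j * (w - 1)) = w ^ (j + 1) - w := by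
      have : T * (w ^ j * (w - 1)) = -(T * (c - 1)) * (w ^ j * w) := by
        linear_combination (T * w ^ j) * hwc
      rw [this, hgc]
      linear_combination (-w) * q0
    have q2 : w ^ j * c ^ (j + 1) = c := by
      rw [pow_succ, ← mul_assoc, q0, one_mul]
    have q3 : w ^ (j + 1) * c ^ j = w := by
      rw [pow_succ, mul_comm (w ^ j) w, mul_assoc, q0, mul_one]
    linear_combination 2 * r1 + 2 * r2 + 2 * q1 - 2 * q0 + 2 * q2 + 2 * q3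
  exact_mod_cast goal

lemma gk_two (t : ℂ) : gk 2 t = 2 := by
  unfold gk
  have e1 : ((2 : ℤ) / 2).natAbs = 1 := by decide
  rw [e1]
  simp

/-! ### Integrals -/

lemma isCompact_pre {K : Set ℂ} (hK : IsCompact K) (hKU : K ⊆ UH) :
    IsCompact (UpperHalfPlane.coe ⁻¹' K) := by
  rw [isOpenEmbedding_coe.isInducing.isCompact_preimage_iff]
  · exact hK
  · intro z hz
    exact ⟨⟨z, hKU hz⟩, rfl⟩

lemma isCompact_cyl {K : Set ℂ} (hK : IsCompact K) (hKU : K ⊆ UH) :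
    IsCompact ((UpperHalfPlane.coe ⁻¹' K) ×ˢ (univ : Set S1)) :=
  (isCompact_pre hK hKU).prod isCompact_univ

lemma int_test (ν : Measure (ℍ × S1)) [IsFiniteMeasureOnCompacts ν] {ζ : ℂ → ℂ}
    (hζ : Test UH ζ) {F : S1 → ℂ} (hF : Continuous F) :
    Integrable (fun p : ℍ × S1 => ζ p.1 * F p.2) ν := by
  have h1 : Continuous fun p : ℍ × S1 => ζ p.1 * F p.2 :=
    (hζ.smooth.continuous.comp (continuous_coe.comp continuous_fst)).mul (hF.comp continuous_snd)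
  refine h1.integrable_of_hasCompactSupport ?_
  refine HasCompactSupport.intro (isCompact_cyl hζ.supp.isCompact hζ.sub) fun p hp => ?_
  have h2 : ζ p.1 = 0 := by
    apply image_eq_zero_of_notMem_tsupport
    intro h3
    exact hp ⟨h3, mem_univ _⟩
  show ζ p.1 * F p.2 = 0
  rw [h2, zero_mul]

lemma cont_zpow (k : ℤ) : Continuous fun t : S1 => (t : ℂ) ^ k := by
  rw [continuous_iff_continuousAt]
  intro t
  refine ContinuousAt.zpow₀ continuous_subtype_val.continuousAt k (Or.inl ?_)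
  show (t : ℂ) ≠ 0
  rw [← norm_ne_zero_iff, norm_S1]
  norm_num

lemma cont_gk (k : ℤ) : Continuous fun t : S1 => (gk k (t : ℂ) : ℂ) := by
  unfold gk
  fun_prop

lemma cont_ck (k : ℤ) : Continuous fun t : S1 => (ck k (t : ℂ) : ℂ) := by
  unfold ck
  exact Complex.continuous_ofReal.comp (Complex.continuous_re.comp (cont_zpow k))

/-- approximation of an integral -/
lemma approx (ν : Measure (ℍ × S1)) [IsFiniteMeasureOnCompacts ν] {G : ℍ × S1 → ℂ}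
    (hG : Integrable G ν) {K : Set ℂ} (hK : IsCompact K) (hKU : K ⊆ UH) {δ : ℝ} {N : ℕ}
    {ζ : ℤ → ℂ → ℂ} (h1 : ∀ k, Test UH (ζ k)) (h2 : ∀ k, tsupport (ζ k) ⊆ K)
    (h3 : ∀ (z : ℍ) (t : S1), (z : ℂ) ∉ K → G (z, t) = 0)
    (h4 : ∀ (z : ℍ) (t : S1), ‖G (z, t) - ∑ k ∈ Finset.Icc (-(N : ℤ)) N, ζ k z * (t : ℂ) ^ k‖ ≤ δ) :
    ‖∫ p, G p ∂ν - ∑ k ∈ Finset.Icc (-(N : ℤ)) N, ∫ p : ℍ × S1, ζ k p.1 * (p.2 : ℂ) ^ k ∂ν‖
      ≤ δ * ν.real ((UpperHalfPlane.coe ⁻¹' K) ×ˢ (univ : Set S1)) := by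
  have hi : ∀ k ∈ Finset.Icc (-(N : ℤ)) N,
      Integrable (fun p : ℍ × S1 => ζ k p.1 * (p.2 : ℂ) ^ k) ν :=
    fun k _ => int_test ν (h1 k) (cont_zpow k)
  rw [← integral_finsetSum _ hi, ← integral_sub hG (integrable_finsetSum _ hi)]
  have e : ∫ p : ℍ × S1, (G p - ∑ k ∈ Finset.Icc (-(N : ℤ)) N, ζ k p.1 * (p.2 : ℂ) ^ k) ∂ν
      = ∫ p in (UpperHalfPlane.coe ⁻¹' K) ×ˢ (univ : Set S1),
        (G p - ∑ k ∈ Finset.Icc (-(N : ℤ)) N, ζ k p.1 * (p.2 : ℂ) ^ k) ∂ν := by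
    symm
    apply setIntegral_eq_integral_of_forall_compl_eq_zero
    rintro ⟨z, t⟩ hp
    have hz : (z : ℂ) ∉ K := fun h => hp ⟨h, mem_univ _⟩
    show G (z, t) - ∑ k ∈ Finset.Icc (-(N : ℤ)) N, ζ k z * (t : ℂ) ^ k = 0
    rw [h3 z t hz, zero_sub, neg_eq_zero]
    refine Finset.sum_eq_zero fun k _ => ?_
    rw [image_eq_zero_of_notMem_tsupport (fun h => hz (h2 k h)), zero_mul]
  rw [e]
  exact norm_setIntegral_le_of_norm_le_const
    (isCompact_cyl hK hKU).measure_lt_top (fun p _ => h4 p.1 p.2)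

/-- two measures with the same moments agree -/
lemma ext_of_moments (hD : StmtDns) (ν ν' : Measure (ℍ × S1)) [IsFiniteMeasureOnCompacts ν]
    [IsFiniteMeasureOnCompacts ν']
    (h : ∀ (ζ : ℂ → ℂ), Test UH ζ → ∀ k : ℤ,
      ∫ p : ℍ × S1, ζ p.1 * (p.2 : ℂ) ^ k ∂ν = ∫ p : ℍ × S1, ζ p.1 * (p.2 : ℂ) ^ k ∂ν') :
    ν = ν' := by
  refine Measure.ext_of_integral_eq_on_compactlySupported fun f => ?_
  have hf : Continuous f := f.continuous
  have hs : HasCompactSupport f := f.hasCompactSupport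
  obtain ⟨K, hK, hKU, hδ⟩ := hD UH (Fx f) isOpen_UH (tf_Fx hf hs)
  set m : ℝ := ν.real ((UpperHalfPlane.coe ⁻¹' K) ×ˢ (univ : Set S1))
    + ν'.real ((UpperHalfPlane.coe ⁻¹' K) ×ˢ (univ : Set S1)) with hm
  have hm0 : 0 ≤ m := add_nonneg measureReal_nonneg measureReal_nonneg
  have i1 : Integrable (fun p => (f p : ℂ)) ν := (hf.integrable_of_hasCompactSupport hs).ofReal
  have i2 : Integrable (fun p => (f p : ℂ)) ν' := (hf.integrable_of_hasCompactSupport hs).ofReal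
  have key : ∀ δ : ℝ, 0 < δ → ‖∫ p, (f p : ℂ) ∂ν - ∫ p, (f p : ℂ) ∂ν'‖ ≤ δ * m := by
    intro δ hδ0
    obtain ⟨N, ζ, h1, h2, h3, h4⟩ := hδ δ hδ0
    have g3 : ∀ (z : ℍ) (t : S1), (z : ℂ) ∉ K → (f (z, t) : ℂ) = 0 := by
      intro z t hz
      rw [← Fx_coe]
      exact h3 _ hz _
    have g4 : ∀ (z : ℍ) (t : S1),
        ‖(f (z, t) : ℂ) - ∑ k ∈ Finset.Icc (-(N : ℤ)) N, ζ k z * (t : ℂ) ^ k‖ ≤ δ := by
      intro z t
      rw [← Fx_coe]
      exact h4 z t (norm_S1 t)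
    have a1 := approx ν i1 hK hKU h1 h2 g3 g4
    have a2 := approx ν' i2 hK hKU h1 h2 g3 g4
    have e : ∑ k ∈ Finset.Icc (-(N : ℤ)) N, ∫ p : ℍ × S1, ζ k p.1 * (p.2 : ℂ) ^ k ∂ν
        = ∑ k ∈ Finset.Icc (-(N : ℤ)) N, ∫ p : ℍ × S1, ζ k p.1 * (p.2 : ℂ) ^ k ∂ν' :=
      Finset.sum_congr rfl fun k _ => h (ζ k) (h1 k) k
    rw [e] at a1
    have a3 := norm_sub_le_norm_sub_add_norm_sub (∫ p, (f p : ℂ) ∂ν)
      (∑ k ∈ Finset.Icc (-(N : ℤ)) N, ∫ p : ℍ × S1, ζ k p.1 * (p.2 : ℂ) ^ k ∂ν')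
      (∫ p, (f p : ℂ) ∂ν')
    rw [norm_sub_rev] at a2
    rw [hm, mul_add]
    exact a3.trans (add_le_add a1 a2)
  have h0 : ‖∫ p, (f p : ℂ) ∂ν - ∫ p, (f p : ℂ) ∂ν'‖ ≤ 0 := by
    refine le_of_forall_pos_le_add fun ε hε => ?_
    rw [zero_add]
    refine (key (ε / (m + 1)) (by positivity)).trans ?_
    rw [div_mul_eq_mul_div, div_le_iff₀ (by positivity)]
    nlinarith
  have h5 : ∫ p, (f p : ℂ) ∂ν = ∫ p, (f p : ℂ) ∂ν' :=
    sub_eq_zero.1 (norm_le_zero_iff.1 h0)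
  rw [integral_complex_ofReal, integral_complex_ofReal] at h5
  exact_mod_cast h5

/-- the moments in terms of the functions `gk` -/
lemma even_moment (ν : Measure (ℍ × S1)) [IsFiniteMeasureOnCompacts ν] {ζ : ℂ → ℂ}
    (hζ : Test UH ζ) (j : ℕ)
    (hs : ∫ p : ℍ × S1, ζ p.1 * (p.2 : ℂ) ^ (2 * j) ∂ν
      = ∫ p : ℍ × S1, ζ p.1 * (starRingEnd ℂ) (p.2 : ℂ) ^ (2 * j) ∂ν) :
    ∫ p : ℍ × S1, ζ p.1 * (p.2 : ℂ) ^ (2 * j) ∂ν
      = ∫ p : ℍ × S1, ζ p.1 * (ck (2 * (j : ℤ)) (p.2 : ℂ) : ℂ) ∂ν := by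
  have e0 : ∀ t : S1, (ck (2 * (j : ℤ)) (t : ℂ) : ℂ)
      = ((t : ℂ) ^ (2 * j) + (starRingEnd ℂ) (t : ℂ) ^ (2 * j)) / 2 := by
    intro t
    unfold ck
    have e4 : (2 * (j : ℤ)) = ((2 * j : ℕ) : ℤ) := by push_cast; ring
    rw [e4, zpow_natCast, ← map_pow, Complex.add_conj]
    push_cast
    ring
  have c1 : Continuous fun t : S1 => (t : ℂ) ^ (2 * j) := by fun_prop
  have c2 : Continuous fun t : S1 => (starRingEnd ℂ) (t : ℂ) ^ (2 * j) :=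
    (Complex.continuous_conj.comp continuous_subtype_val).pow _
  have i1 := int_test ν hζ c1
  have i2 := int_test ν hζ c2
  have e1 : ∀ p : ℍ × S1, ζ p.1 * (ck (2 * (j : ℤ)) (p.2 : ℂ) : ℂ)
      = (ζ p.1 * (p.2 : ℂ) ^ (2 * j) + ζ p.1 * (starRingEnd ℂ) (p.2 : ℂ) ^ (2 * j)) / 2 := by
    intro p
    rw [e0]
    ring
  simp only [e1]
  rw [integral_div, integral_add i1 i2, ← hs]
  ring

/-- a function times a test function, integrated: linear combinations -/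
lemma diff_moment (ν : Measure (ℍ × S1)) [IsFiniteMeasureOnCompacts ν] {ζ : ℂ → ℂ}
    (hζ : Test UH ζ) (j : ℕ) :
    4 * ∫ p : ℍ × S1, ζ p.1 * (ck (2 * (j + 1 : ℕ) : ℤ) (p.2 : ℂ) : ℂ) ∂ν
      = ∫ p : ℍ × S1, ζ p.1 * (gk (2 * (j + 1 : ℕ) + 2 : ℤ) (p.2 : ℂ) : ℂ) ∂ν
        - 2 * ∫ p : ℍ × S1, ζ p.1 * (gk (2 * (j + 1 : ℕ) : ℤ) (p.2 : ℂ) : ℂ) ∂ν
        + ∫ p : ℍ × S1, ζ p.1 * (gk (2 * (j + 1 : ℕ) - 2 : ℤ) (p.2 : ℂ) : ℂ) ∂ν := by
  have i1 := int_test ν hζ (cont_gk (2 * (j + 1 : ℕ) + 2 : ℤ))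
  have i2 := int_test ν hζ (cont_gk (2 * (j + 1 : ℕ) : ℤ))
  have i3 := int_test ν hζ (cont_gk (2 * (j + 1 : ℕ) - 2 : ℤ))
  have i12 : Integrable (fun p : ℍ × S1 => ζ p.1 * (gk (2 * (j + 1 : ℕ) + 2 : ℤ) (p.2 : ℂ) : ℂ)
      - 2 * (ζ p.1 * (gk (2 * (j + 1 : ℕ) : ℤ) (p.2 : ℂ) : ℂ))) ν := i1.sub (i2.const_mul 2)
  rw [← integral_const_mul, ← integral_const_mul, ← integral_sub i1 (i2.const_mul 2),
    ← integral_add i12 i3]
  refine integral_congr_ae (Eventually.of_forall fun p => ?_)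
  have h := gk_diff (norm_S1 p.2) j
  have h' : ((gk (2 * (j + 1 : ℕ) + 2 : ℤ) (p.2 : ℂ) : ℂ) - 2 * (gk (2 * (j + 1 : ℕ) : ℤ) (p.2 : ℂ) : ℂ)
      + (gk (2 * (j + 1 : ℕ) - 2 : ℤ) (p.2 : ℂ) : ℂ)) = 4 * (ck (2 * (j + 1 : ℕ) : ℤ) (p.2 : ℂ) : ℂ) := by
    exact_mod_cast h
  show 4 * (ζ p.1 * (ck (2 * (j + 1 : ℕ) : ℤ) (p.2 : ℂ) : ℂ)) =
    ζ p.1 * (gk (2 * (j + 1 : ℕ) + 2 : ℤ) (p.2 : ℂ) : ℂ)
      - 2 * (ζ p.1 * (gk (2 * (j + 1 : ℕ) : ℤ) (p.2 : ℂ) : ℂ))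
      + ζ p.1 * (gk (2 * (j + 1 : ℕ) - 2 : ℤ) (p.2 : ℂ) : ℂ)
  linear_combination (-ζ p.1) * h'

end

end IVM

open IVM in
/-- IVM: invariance of the crossing measure. -/
theorem t_IVM (hD : StmtDns) (hS : StmtSym) (hI : StmtIne) : StmtIvm := by
  intro Γ ρ hF h φ μ ϖ hL hμ hJ hX hφ γ hγ
  have i0 : IsFiniteMeasureOnCompacts ϖ := by
    refine ⟨fun K hK => ?_⟩
    have h1 := hX.fin _ (hK.image continuous_fst)
    refine lt_of_le_of_lt (measure_mono fun p hp => ?_) h1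
    exact ⟨⟨p, hp, rfl⟩, mem_univ _⟩
  have hgc : Continuous fun p : ℍ × S1 => (γ • p.1, p.2) :=
    ((continuous_const_smul γ).comp continuous_fst).prodMk continuous_snd
  have hgm : Measurable fun p : ℍ × S1 => (γ • p.1, p.2) := hgc.measurable
  have i1 : IsFiniteMeasureOnCompacts (Measure.map (fun p : ℍ × S1 => (γ • p.1, p.2)) ϖ) := by
    refine ⟨fun K hK => ?_⟩
    rw [Measure.map_apply hgm hK.measurableSet]
    have h1 := hX.fin _ ((hK.image continuous_fst).image (continuous_const_smul γ⁻¹))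
    refine lt_of_le_of_lt (measure_mono fun p hp => ?_) h1
    refine ⟨⟨γ • p.1, ⟨_, hp, rfl⟩, ?_⟩, mem_univ _⟩
    exact inv_smul_smul γ p.1
  have hmap : ∀ (ζ : ℂ → ℂ), Test UH ζ → ∀ F : S1 → ℂ, Continuous F →
      ∫ p : ℍ × S1, ζ p.1 * F p.2 ∂(Measure.map (fun p : ℍ × S1 => (γ • p.1, p.2)) ϖ)
        = ∫ p : ℍ × S1, tg γ ζ p.1 * F p.2 ∂ϖ := by
    intro ζ hζ F hFc
    rw [integral_map hgm.aemeasurable (int_test _ hζ hFc).aestronglyMeasurable]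
    refine integral_congr_ae (Eventually.of_forall fun p => ?_)
    show ζ ((γ • p.1 : ℍ) : ℂ) * F p.2 = tg γ ζ p.1 * F p.2
    rw [tg_coe]
    unfold mob
    rw [ofComplex_apply]
  refine ext_of_moments hD _ _ fun ζ hζ k => ?_
  rw [hmap ζ hζ _ (cont_zpow k)]
  have hζ' := test_tg γ hζ
  -- the odd moments vanish
  have odd0 : ∀ ξ : ℂ → ℂ, Test UH ξ → ∀ n : ℕ, Odd n →
      ∫ p : ℍ × S1, ξ p.1 * (p.2 : ℂ) ^ n ∂ϖ = 0 := fun ξ hξ n hn =>
    (hS Γ ρ hF h φ μ ϖ hL hμ hJ hX ξ hξ n).1 hn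
  have sym0 : ∀ ξ : ℂ → ℂ, Test UH ξ → ∀ n : ℕ,
      ∫ p : ℍ × S1, ξ p.1 * (p.2 : ℂ) ^ n ∂ϖ
        = ∫ p : ℍ × S1, ξ p.1 * (starRingEnd ℂ) (p.2 : ℂ) ^ n ∂ϖ := fun ξ hξ n =>
    (hS Γ ρ hF h φ μ ϖ hL hμ hJ hX ξ hξ n).2
  have ine0 : ∀ k : ℤ, Even k → ∫ p : ℍ × S1, tg γ ζ p.1 * (gk k (p.2 : ℂ) : ℂ) ∂ϖ
      = ∫ p : ℍ × S1, ζ p.1 * (gk k (p.2 : ℂ) : ℂ) ∂ϖ := by
    intro k hk
    rw [← hI Γ ρ hF h φ μ ϖ hL hμ hJ hX hφ ζ hζ γ hγ k hk]
    refine integral_congr_ae (Eventually.of_forall fun p => ?_)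
    show tg γ ζ p.1 * _ = ζ (mob γ p.1) * _
    rw [tg_coe]
  -- the even moments
  have nat0 : ∀ n : ℕ, ∫ p : ℍ × S1, tg γ ζ p.1 * (p.2 : ℂ) ^ n ∂ϖ
      = ∫ p : ℍ × S1, ζ p.1 * (p.2 : ℂ) ^ n ∂ϖ := by
    intro n
    rcases Nat.even_or_odd' n with ⟨j, rfl | rfl⟩
    · rw [even_moment ϖ hζ j (sym0 ζ hζ _), even_moment ϖ hζ' j (sym0 _ hζ' _)]
      cases j with
      | zero =>
        have h2 := ine0 2 (by decide)
        simp only [gk_two] at h2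
        have e : ∀ ξ : ℂ → ℂ, ∫ p : ℍ × S1, ξ p.1 * ((2 : ℝ) : ℂ) ∂ϖ
            = 2 * ∫ p : ℍ × S1, ξ p.1 * (ck (2 * ((0 : ℕ) : ℤ)) (p.2 : ℂ) : ℂ) ∂ϖ := by
          intro ξ
          rw [← integral_const_mul]
          refine integral_congr_ae (Eventually.of_forall fun p => ?_)
          show ξ p.1 * ((2 : ℝ) : ℂ) = 2 * (ξ p.1 * (ck (2 * ((0 : ℕ) : ℤ)) (p.2 : ℂ) : ℂ))
          have e1 : ck (2 * ((0 : ℕ) : ℤ)) (p.2 : ℂ) = 1 := by
            unfold ck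
            simp
          rw [e1]
          push_cast
          ring
        rw [e, e] at h2
        exact mul_left_cancel₀ two_ne_zero h2
      | succ j =>
        have a1 := diff_moment ϖ hζ j
        have a2 := diff_moment ϖ hζ' j
        rw [ine0 _ (by use (j + 2 : ℤ); push_cast; ring), ine0 _ (by use (j + 1 : ℤ); push_cast; ring),
          ine0 _ (by use (j : ℤ); push_cast; ring), ← a1] at a2
        exact mul_left_cancel₀ (show (4 : ℂ) ≠ 0 by norm_num) a2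
    · rw [odd0 _ hζ' _ ⟨j, rfl⟩, odd0 _ hζ _ ⟨j, rfl⟩]
  have conj0 : ∀ n : ℕ, ∫ p : ℍ × S1, tg γ ζ p.1 * (starRingEnd ℂ) (p.2 : ℂ) ^ n ∂ϖ
      = ∫ p : ℍ × S1, ζ p.1 * (starRingEnd ℂ) (p.2 : ℂ) ^ n ∂ϖ := by
    intro n
    rw [← sym0 _ hζ' n, ← sym0 _ hζ n]
    exact nat0 n
  obtain ⟨n, rfl | rfl⟩ := Int.eq_nat_or_neg k
  · simpa only [zpow_natCast] using nat0 n
  · have e : ∀ (ξ : ℂ → ℂ) (p : ℍ × S1), ξ p.1 * (p.2 : ℂ) ^ (-(n : ℤ))
        = ξ p.1 * (starRingEnd ℂ) (p.2 : ℂ) ^ n := by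
      intro ξ p
      rw [zpow_conj (norm_S1 p.2), zpow_natCast]
    simp only [e]
    exact conj0 n

end CRM
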