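import Pool.Agent.CRM.StG

/-!
LNK: the limits of the four-jet integrals in terms of the crossing measure.
-/

open Complex MeasureTheory Filter Topology Set
open UpperHalfPlane hiding I
open scoped ContDiff MatrixGroups

namespace CRM

open QE QE.NC QJ U3 NFP

noncomputable section

namespace LNK

lemma lk_congr {L L' : ℤ → ℂ} (h : ∀ k, Even k → L k = L' k) (a b c d : ℤ)
    (h0 : a + b + c + d = 0) : lk L a b c d = lk L' a b c d := by
  unfold lk
  split_ifs with h1 h2 h3
  · rw [h (a + b) (by rw [Int.even_iff]; omega), h (a + c) (by rw [Int.even_iff]; omega),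
      h (a + d) (by rw [Int.even_iff]; omega)]
  · exact h _ (by rw [Int.even_iff]; omega)
  · exact h _ (by rw [Int.even_iff]; omega)
  · exact h _ (by rw [Int.even_iff]; omega)

lemma lk_mul (x : ℂ) (L : ℤ → ℂ) (a b c d : ℤ) :
    x * lk L a b c d = lk (fun k => x * L k) a b c d := by
  unfold lk
  split_ifs <;> ring

lemma lk_int {Ω : Type} [MeasurableSpace Ω] (μ : Measure Ω) (F : ℤ → Ω → ℂ)
    (hF : ∀ k, Integrable (F k) μ) (a b c d : ℤ) :
    lk (fun k => ∫ p, F k p ∂μ) a b c d = ∫ p, lk (fun k => F k p) a b c d ∂μ := by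
  unfold lk
  split_ifs
  · have h1 : ∫ p, (F (a + b) p + F (a + c) p + F (a + d) p) ∂μ =
        ∫ p, F (a + b) p ∂μ + ∫ p, F (a + c) p ∂μ + ∫ p, F (a + d) p ∂μ := by
      rw [← integral_add (hF _) (hF _)]
      exact integral_add ((hF _).add (hF _)) (hF _)
    rw [integral_neg]
    exact congrArg Neg.neg h1.symm
  all_goals rfl

lemma gk_conj (k : ℤ) (t : ℂ) : gk k ((starRingEnd ℂ) t) = gk k t := by
  unfold gk
  have h : ∑ i ∈ Finset.range (k / 2).natAbs, (starRingEnd ℂ) t ^ (2 * i) =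
      (starRingEnd ℂ) (∑ i ∈ Finset.range (k / 2).natAbs, t ^ (2 * i)) := by
    rw [map_sum]
    refine Finset.sum_congr rfl fun i _ => ?_
    rw [map_pow]
  rw [h, RCLike.norm_conj]

lemma gk_cont (k : ℤ) : Continuous (gk k) := by
  unfold gk
  fun_prop

lemma cptU {K : Set ℂ} (hK : IsCompact K) (hU : K ⊆ UH) :
    IsCompact ((fun z : ℍ => (z : ℂ)) ⁻¹' K) := by
  have h := UpperHalfPlane.isOpenEmbedding_coe.isInducing
  rw [h.isCompact_preimage_iff]
  · exact hK
  · intro z hz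
    exact ⟨⟨z, hU hz⟩, rfl⟩

lemma finc {ρ : ℍ → ℝ} {μ ϖ : Measure (ℍ × S1)} (h : Crossing ρ μ ϖ) :
    IsFiniteMeasureOnCompacts ϖ where
  lt_top_of_isCompact A hA := by
    refine lt_of_le_of_lt (measure_mono ?_) (h.fin (Prod.fst '' A) (hA.image continuous_fst))
    intro x hx
    exact ⟨⟨x, hx, rfl⟩, mem_univ _⟩

/-- functions which vanish outside of the points over a compact set -/
lemma hcs {β : Type} [Zero β] {K : Set ℂ} (hK : IsCompact K) (hU : K ⊆ UH) {f : ℍ × S1 → β}
    (hf : ∀ p : ℍ × S1, (p.1 : ℂ) ∉ K → f p = 0) : HasCompactSupport f := by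
  have h1 : IsCompact (((fun z : ℍ => (z : ℂ)) ⁻¹' K) ×ˢ (univ : Set S1)) :=
    (cptU hK hU).prod isCompact_univ
  refine HasCompactSupport.intro h1 ?_
  intro p hp
  apply hf
  intro h
  exact hp ⟨h, mem_univ _⟩

lemma real (hG : StmtGlm) (hC : StmtCrl) (hK : StmtGkr) {Γ : Subgroup SL(2, ℝ)} {ρ : ℍ → ℝ}
    (hF : Fac Γ ρ) {h : ℕ → ℝ} {φ : ℕ → ℂ → ℂ} {μ ϖ : Measure (ℍ × S1)} (hμ : FinK μ)
    (hJ : JG ρ h φ μ) (hϖ : Crossing ρ μ ϖ) {V : Set ℂ} {σ : ℂ → ℝ} {φ' : ℕ → ℂ → ℂ}
    (hA : Agree V UH (gr ρ) h φ σ φ') {η : ℂ → ℝ} (hη : Test V (fun z => (η z : ℂ)))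
    (a b c d : ℤ) (h0 : a + b + c + d = 0) :
    Tendsto (fun n => E4 σ h φ' (fun z => (η z : ℂ)) a b c d n
      - cl4 a b c d * E4 σ h φ' (fun z => (η z : ℂ)) 0 0 0 0 n) atTop
      (𝓝 (∫ p : ℍ × S1, (η p.1 : ℂ) * ((Real.exp (-(2 * σ p.1)) : ℝ) : ℂ)
        * lk (fun k => (gk k (p.2 : ℂ) : ℂ)) a b c d ∂ϖ)) := by
  obtain ⟨F, hFc, h1, h2⟩ := exists_compact_between hη.supp hA.op hη.sub
  have hFU : F ⊆ UH := h2.trans hA.sub
  obtain ⟨hL, hM⟩ := hG ρ h φ μ hμ hJ V σ φ' hA (interior F) F isOpen_interior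
    (interior_subset.trans h2) interior_subset hFc hFU
  obtain ⟨hP, -, hc⟩ := hC (interior F) σ h φ' (ℍ × S1) (muS μ F σ) pS uS hL hM
  have hη' : Test (interior F) (fun z => (η z : ℂ)) := ⟨hη.smooth, hη.supp, h1⟩
  obtain ⟨L, hk, hlim, -, -⟩ := hc _ hη'
  let f : ℤ → ℍ × S1 → ℝ := fun k p => η p.1 * (Real.exp (-(2 * σ p.1)) * gk k p.2)
  have hηc : Continuous η := by
    have h3 := Complex.continuous_re.comp hη.smooth.continuous
    exact h3
  have hσ := hL.sm.continuous
  have hfc : ∀ k, Continuous (f k) := by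
    intro k
    have h3 : Continuous fun p : ℍ × S1 => (p.1 : ℂ) :=
      UpperHalfPlane.continuous_coe.comp continuous_fst
    have h4 : Continuous fun p : ℍ × S1 => (p.2 : ℂ) := continuous_subtype_val.comp continuous_snd
    exact (hηc.comp h3).mul ((Real.continuous_exp.comp
      ((continuous_const.mul (hσ.comp h3)).neg)).mul ((gk_cont k).comp h4))
  have hz : ∀ z : ℂ, z ∉ tsupport (fun z => (η z : ℂ)) → η z = 0 := by
    intro z hz
    have h3 := image_eq_zero_of_notMem_tsupport hz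
    exact_mod_cast h3
  have hfs : ∀ k, HasCompactSupport (f k) := by
    intro k
    refine hcs hη.supp (h1.trans (interior_subset.trans hFU)) ?_
    intro p hp
    show η p.1 * _ = 0
    rw [hz _ hp, zero_mul]
  have hLk : ∀ k, Even k → L k = ((∫ p, f k p ∂ϖ : ℝ) : ℂ) := by
    intro k hk'
    have e1 := hK Γ ρ hF μ hμ (interior F) F σ isOpen_interior interior_subset hFU hFc hL.sm
      (fun z hz => hA.eg z (h2 (interior_subset hz))) hP (f k) (tsupport (fun z => (η z : ℂ)))
      (hfc k) hη.supp h1 (by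
        intro z t hp
        show η z * _ = 0
        rw [hz _ hp, zero_mul]) (fun x => (η x.1 : ℂ) * (gk k x.2 : ℂ)) (by
        refine ⟨?_, tsupport (fun z => (η z : ℂ)), hη.supp, h1, ?_⟩
        · exact (Complex.continuous_ofReal.comp (hηc.comp continuous_fst)).mul
            (Complex.continuous_ofReal.comp ((gk_cont k).comp continuous_snd))
        · intro z hp t
          show (η z : ℂ) * _ = 0
          rw [hz _ hp, Complex.ofReal_zero, zero_mul]) (by
        intro z t _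
        show (η z : ℂ) * (gk k ((starRingEnd ℂ) (t : ℂ)) : ℂ) =
          ((Real.exp (2 * σ z) * (η z * (Real.exp (-(2 * σ z)) * gk k t)) : ℝ) : ℂ)
        rw [gk_conj, ← Complex.ofReal_mul]
        congr 1
        have h3 : Real.exp (2 * σ z) * Real.exp (-(2 * σ z)) = 1 := by
          rw [← Real.exp_add, add_neg_cancel, Real.exp_zero]
        linear_combination (-(η z * gk k t)) * h3)
    have e2 := hϖ.lim (f k) (hfc k) (hfs k)
    have e3 := hk k hk'
    have e4 : Tendsto (fun ε => (XG ρ μ ε (f k) : ℂ)) (𝓝[>] 0) (𝓝 (L k)) := by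
      have := e3.sub e1
      simpa using this
    exact tendsto_nhds_unique e4 ((Complex.continuous_ofReal.tendsto _).comp e2)
  have h3 := hlim a b c d h0
  rw [lk_congr hLk a b c d h0] at h3
  have hfin := finc hϖ
  have h4 : lk (fun k => ((∫ p, f k p ∂ϖ : ℝ) : ℂ)) a b c d =
      ∫ p : ℍ × S1, (η p.1 : ℂ) * ((Real.exp (-(2 * σ p.1)) : ℝ) : ℂ)
        * lk (fun k => (gk k (p.2 : ℂ) : ℂ)) a b c d ∂ϖ := by
    have h5 := lk_int ϖ (fun k p => (f k p : ℂ)) (fun k =>
      ((hfc k).integrable_of_hasCompactSupport (hfs k)).ofReal) a b c d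
    have h6 : ∀ k, ((∫ p, f k p ∂ϖ : ℝ) : ℂ) = ∫ p, (f k p : ℂ) ∂ϖ := fun k =>
      integral_complex_ofReal.symm
    simp only [h6]
    rw [h5]
    refine integral_congr_ae (Filter.Eventually.of_forall fun p => ?_)
    show lk (fun k => (f k p : ℂ)) a b c d = (η p.1 : ℂ) * ((Real.exp (-(2 * σ p.1)) : ℝ) : ℂ)
        * lk (fun k => (gk k (p.2 : ℂ) : ℂ)) a b c d
    rw [lk_mul]
    congr 1
    funext k
    show ((η p.1 * (Real.exp (-(2 * σ p.1)) * gk k p.2) : ℝ) : ℂ) = _
    push_cast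
    ring
  rw [← h4]
  exact h3

lemma e4_add {σ : ℂ → ℝ} {h : ℕ → ℝ} {φ : ℕ → ℂ → ℂ} (hσ : ContDiff ℝ ∞ σ)
    (hφ : ∀ n, ContDiff ℝ ∞ (φ n)) {ζ : ℂ → ℂ} (hζ : Continuous ζ) (hs : HasCompactSupport ζ)
    (a b c d : ℤ) (n : ℕ) :
    E4 σ h φ ζ a b c d n = E4 σ h φ (fun z => ((ζ z).re : ℂ)) a b c d n
      + Complex.I * E4 σ h φ (fun z => ((ζ z).im : ℂ)) a b c d n := by
  unfold E4
  have hc : Continuous fun z => E σ h φ a n z * E σ h φ b n z * E σ h φ c n z * E σ h φ d n z :=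
    (((E3Z.contDiff_E hσ hφ a n).continuous.mul (E3Z.contDiff_E hσ hφ b n).continuous).mul
      (E3Z.contDiff_E hσ hφ c n).continuous).mul (E3Z.contDiff_E hσ hφ d n).continuous
  have h1 : Integrable fun z => ((ζ z).re : ℂ) * (E σ h φ a n z * E σ h φ b n z * E σ h φ c n z
      * E σ h φ d n z) := by
    refine Continuous.integrable_of_hasCompactSupport
      ((Complex.continuous_ofReal.comp (Complex.continuous_re.comp hζ)).mul hc) ?_
    refine HasCompactSupport.mul_right ?_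
    exact hs.comp_left (g := fun z : ℂ => (z.re : ℂ)) (by simp)
  have h2 : Integrable fun z => ((ζ z).im : ℂ) * (E σ h φ a n z * E σ h φ b n z * E σ h φ c n z
      * E σ h φ d n z) := by
    refine Continuous.integrable_of_hasCompactSupport
      ((Complex.continuous_ofReal.comp (Complex.continuous_im.comp hζ)).mul hc) ?_
    refine HasCompactSupport.mul_right ?_
    exact hs.comp_left (g := fun z : ℂ => (z.im : ℂ)) (by simp)
  rw [← integral_const_mul, ← integral_add h1 (h2.const_mul _)]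
  refine integral_congr_ae (Filter.Eventually.of_forall fun z => ?_)
  show ζ z * _ = ((ζ z).re : ℂ) * _ + Complex.I * (((ζ z).im : ℂ) * _)
  have h3 := Complex.re_add_im (ζ z)
  linear_combination (-(E σ h φ a n z * E σ h φ b n z * E σ h φ c n z * E σ h φ d n z)) * h3

end LNK

theorem t_LNK (hG : StmtGlm) (hC : StmtCrl) (hK : StmtGkr) : StmtLnk := by
  intro Γ ρ hF h φ μ ϖ hμ hJ hϖ V σ φ' hA ζ hζ a b c d h0
  have hre : Test V (fun z => ((ζ z).re : ℂ)) := by
    have h2 : HasCompactSupport (fun z => ((ζ z).re : ℂ)) :=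
      hζ.supp.comp_left (g := fun z : ℂ => (z.re : ℂ)) (by simp)
    refine ⟨?_, h2, ?_⟩
    · exact Complex.ofRealCLM.contDiff.comp (Complex.reCLM.contDiff.comp hζ.smooth)
    · refine subset_trans (closure_mono ?_) hζ.sub
      intro z hz h3
      apply hz
      show ((ζ z).re : ℂ) = 0
      rw [h3]
      simp
  have him : Test V (fun z => ((ζ z).im : ℂ)) := by
    have h2 : HasCompactSupport (fun z => ((ζ z).im : ℂ)) :=
      hζ.supp.comp_left (g := fun z : ℂ => (z.im : ℂ)) (by simp)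
    refine ⟨?_, h2, ?_⟩
    · exact Complex.ofRealCLM.contDiff.comp (Complex.imCLM.contDiff.comp hζ.smooth)
    · refine subset_trans (closure_mono ?_) hζ.sub
      intro z hz h3
      apply hz
      show ((ζ z).im : ℂ) = 0
      rw [h3]
      simp
  have h1 := LNK.real hG hC hK hF hμ hJ hϖ hA (η := fun z => (ζ z).re) hre a b c d h0
  have h2 := LNK.real hG hC hK hF hμ hJ hϖ hA (η := fun z => (ζ z).im) him a b c d h0
  have h3 := h1.add (h2.const_mul Complex.I)
  have hfin := LNK.finc hϖ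
  have hint : ∀ η : ℂ → ℝ, Continuous η → HasCompactSupport η → tsupport η ⊆ UH →
      Integrable (fun p : ℍ × S1 => (η p.1 : ℂ) * ((Real.exp (-(2 * σ p.1)) : ℝ) : ℂ)
        * lk (fun k => (gk k (p.2 : ℂ) : ℂ)) a b c d) ϖ := by
    intro η h4 h5 h6
    refine Continuous.integrable_of_hasCompactSupport ?_ (LNK.hcs h5 h6 ?_)
    · have h7 : Continuous fun p : ℍ × S1 => (p.1 : ℂ) :=
        UpperHalfPlane.continuous_coe.comp continuous_fst
      have h8 : Continuous fun p : ℍ × S1 => (p.2 : ℂ) :=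
        continuous_subtype_val.comp continuous_snd
      have h9 : ∀ k, Continuous fun p : ℍ × S1 => (gk k (p.2 : ℂ) : ℂ) := fun k =>
        Complex.continuous_ofReal.comp ((LNK.gk_cont k).comp h8)
      refine ((Complex.continuous_ofReal.comp (h4.comp h7)).mul
        (Complex.continuous_ofReal.comp (Real.continuous_exp.comp
          ((continuous_const.mul (hA.loc.sm.continuous.comp h7)).neg)))).mul ?_
      unfold lk
      split_ifs
      · exact (((h9 _).add (h9 _)).add (h9 _)).neg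
      all_goals exact h9 _
    · intro p hp
      have h7 := image_eq_zero_of_notMem_tsupport hp
      show (η p.1 : ℂ) * _ * _ = 0
      rw [h7]
      simp
  have hI : ∫ p : ℍ × S1, ζ p.1 * ((Real.exp (-(2 * σ p.1)) : ℝ) : ℂ)
      * lk (fun k => (gk k (p.2 : ℂ) : ℂ)) a b c d ∂ϖ =
      (∫ p : ℍ × S1, (((ζ p.1).re : ℝ) : ℂ) * ((Real.exp (-(2 * σ p.1)) : ℝ) : ℂ)
        * lk (fun k => (gk k (p.2 : ℂ) : ℂ)) a b c d ∂ϖ) +
      Complex.I * ∫ p : ℍ × S1, (((ζ p.1).im : ℝ) : ℂ) * ((Real.exp (-(2 * σ p.1)) : ℝ) : ℂ)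
        * lk (fun k => (gk k (p.2 : ℂ) : ℂ)) a b c d ∂ϖ := by
    have hr : HasCompactSupport (fun z => (ζ z).re) :=
      hζ.supp.comp_left (g := fun z : ℂ => z.re) (by simp)
    have hi : HasCompactSupport (fun z => (ζ z).im) :=
      hζ.supp.comp_left (g := fun z : ℂ => z.im) (by simp)
    have hr' : tsupport (fun z => (ζ z).re) ⊆ UH := by
      refine subset_trans (closure_mono ?_) (hζ.sub.trans hA.sub)
      intro z hz h3
      apply hz
      show (ζ z).re = 0
      rw [h3]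
      simp
    have hi' : tsupport (fun z => (ζ z).im) ⊆ UH := by
      refine subset_trans (closure_mono ?_) (hζ.sub.trans hA.sub)
      intro z hz h3
      apply hz
      show (ζ z).im = 0
      rw [h3]
      simp
    have e1 := hint (fun z => (ζ z).re) (Complex.continuous_re.comp hζ.smooth.continuous) hr hr'
    have e2 := hint (fun z => (ζ z).im) (Complex.continuous_im.comp hζ.smooth.continuous) hi hi'
    rw [← integral_const_mul, ← integral_add e1 (e2.const_mul _)]
    refine integral_congr_ae (Filter.Eventually.of_forall fun p => ?_)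
    show ζ p.1 * _ * _ = ((ζ p.1).re : ℂ) * _ * _ + Complex.I * (((ζ p.1).im : ℂ) * _ * _)
    have e3 := Complex.re_add_im (ζ p.1)
    linear_combination (-(((Real.exp (-(2 * σ p.1)) : ℝ) : ℂ)
      * lk (fun k => (gk k (p.2 : ℂ) : ℂ)) a b c d)) * e3
  rw [hI]
  refine h3.congr fun n => ?_
  rw [LNK.e4_add hA.loc.sm hA.loc.smφ hζ.smooth.continuous hζ.supp a b c d n,
    LNK.e4_add hA.loc.sm hA.loc.smφ hζ.smooth.continuous hζ.supp 0 0 0 0 n]
  ring

end

end CRM
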