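import Pool.Agent.CRM.Stmts

/-!
The crossing measure of a semiclassical measure, step BMP: bump functions.
-/

open Complex MeasureTheory Filter Topology Set
open scoped ContDiff

namespace CRM

open QE QJ U3

noncomputable section

namespace BMP

/-- A smooth function which is `1` for `t ≤ a` and `0` for `1 ≤ t`. -/
lemma exists_chi (a : ℝ) (ha : a < 1) : ∃ χ : ℝ → ℝ, ContDiff ℝ ∞ χ ∧ (∀ t, 0 ≤ χ t) ∧
    (∀ t, χ t ≤ 1) ∧ (∀ t, t ≤ a → χ t = 1) ∧ ∀ t, 1 ≤ t → χ t = 0 := by
  refine ⟨fun t => 1 - Real.smoothTransition ((t - a) / (1 - a)), ?_, ?_, ?_, ?_, ?_⟩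
  · exact contDiff_const.sub (Real.smoothTransition.contDiff.comp
      ((contDiff_id.sub contDiff_const).div_const _))
  · intro t
    exact sub_nonneg.mpr (Real.smoothTransition.le_one _)
  · intro t
    have := Real.smoothTransition.nonneg ((t - a) / (1 - a))
    linarith
  · intro t ht
    have h1 : (t - a) / (1 - a) ≤ 0 :=
      div_nonpos_of_nonpos_of_nonneg (by linarith) (by linarith)
    change 1 - Real.smoothTransition ((t - a) / (1 - a)) = 1
    rw [Real.smoothTransition.zero_of_nonpos h1, sub_zero]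
  · intro t ht
    have h1 : 1 ≤ (t - a) / (1 - a) := by
      rw [le_div_iff₀ (by linarith)]
      linarith
    change 1 - Real.smoothTransition ((t - a) / (1 - a)) = 0
    rw [Real.smoothTransition.one_of_one_le h1, sub_self]

/-- A continuous function of the square of the distance which vanishes outside the unit disc is
integrable. -/
lemma integrable (χ : ℝ → ℝ) (hc : Continuous χ) (h0 : ∀ t, 1 ≤ t → χ t = 0) :
    Integrable (fun z : ℂ => χ (‖z‖ ^ 2)) := by
  apply Continuous.integrable_of_hasCompactSupport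
  · exact hc.comp (continuous_norm.pow 2)
  · apply HasCompactSupport.intro (isCompact_closedBall (0 : ℂ) 1)
    intro z hz
    apply h0
    have h1 : 1 < ‖z‖ := by
      rw [Metric.mem_closedBall, dist_zero_right, not_le] at hz
      exact hz
    nlinarith

lemma vol (r : ℝ) (hr : 0 ≤ r) :
    (volume (Metric.closedBall (0 : ℂ) r)).toReal = Real.pi * r ^ 2 := by
  rw [Complex.volume_closedBall, ENNReal.toReal_mul, ENNReal.toReal_pow,
    ENNReal.toReal_ofReal hr, ENNReal.coe_toReal, NNReal.coe_real_pi]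
  ring

/-- The mass of a cut-off function. -/
lemma mass (χ : ℝ → ℝ) (a : ℝ) (ha : 0 < a) (hc : Continuous χ) (h0 : ∀ t, 0 ≤ χ t)
    (h1 : ∀ t, χ t ≤ 1) (h2 : ∀ t, t ≤ a → χ t = 1) (h3 : ∀ t, 1 ≤ t → χ t = 0) :
    Real.pi * a ≤ ∫ z : ℂ, χ (‖z‖ ^ 2) ∧ ∫ z : ℂ, χ (‖z‖ ^ 2) ≤ Real.pi := by
  have hi := integrable χ hc h3
  have hind : ∀ r : ℝ, Integrable (indicator (Metric.closedBall (0 : ℂ) r) fun _ => (1 : ℝ)) :=
    fun r => (integrable_indicator_iff Metric.isClosed_closedBall.measurableSet).mpr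
      (integrableOn_const (isCompact_closedBall (0 : ℂ) r).measure_lt_top.ne)
  have hval : ∀ r : ℝ, 0 ≤ r →
      ∫ z : ℂ, indicator (Metric.closedBall (0 : ℂ) r) (fun _ => (1 : ℝ)) z = Real.pi * r ^ 2 := by
    intro r hr
    rw [integral_indicator_const _ Metric.isClosed_closedBall.measurableSet, smul_eq_mul, mul_one,
      Measure.real, vol r hr]
  constructor
  · have e1 : Real.pi * a = Real.pi * (Real.sqrt a) ^ 2 := by rw [Real.sq_sqrt ha.le]
    rw [e1, ← hval (Real.sqrt a) (Real.sqrt_nonneg a)]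
    apply integral_mono (hind _) hi
    intro z
    by_cases hz : z ∈ Metric.closedBall (0 : ℂ) (Real.sqrt a)
    · rw [indicator_of_mem hz]
      rw [Metric.mem_closedBall, dist_zero_right] at hz
      have h4 : ‖z‖ ^ 2 ≤ a := by
        calc ‖z‖ ^ 2 ≤ (Real.sqrt a) ^ 2 := by gcongr
          _ = a := Real.sq_sqrt ha.le
      change (1 : ℝ) ≤ χ (‖z‖ ^ 2)
      rw [h2 _ h4]
    · rw [indicator_of_notMem hz]
      exact h0 _
  · have e1 : Real.pi = Real.pi * (1 : ℝ) ^ 2 := by ring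
    calc ∫ z : ℂ, χ (‖z‖ ^ 2) ≤
        ∫ z : ℂ, indicator (Metric.closedBall (0 : ℂ) 1) (fun _ => (1 : ℝ)) z := by
          apply integral_mono hi (hind _)
          intro z
          by_cases hz : z ∈ Metric.closedBall (0 : ℂ) 1
          · rw [indicator_of_mem hz]
            exact h1 _
          · rw [indicator_of_notMem hz]
            rw [Metric.mem_closedBall, dist_zero_right, not_le] at hz
            change χ (‖z‖ ^ 2) ≤ 0
            rw [h3 _ (by nlinarith)]
      _ = Real.pi := by rw [hval 1 zero_le_one]; ring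

/-- The normalised function. -/
lemma bump_div (χ : ℝ → ℝ) (hc : ContDiff ℝ ∞ χ) (h0 : ∀ t, 0 ≤ χ t)
    (h3 : ∀ t, 1 ≤ t → χ t = 0) (hm : 0 < ∫ z : ℂ, χ (‖z‖ ^ 2)) :
    Bump (fun t => χ t / ∫ z : ℂ, χ (‖z‖ ^ 2)) where
  smooth := hc.div_const _
  nonneg t := div_nonneg (h0 t) hm.le
  supp t ht := by rw [h3 t ht, zero_div]
  mass := by
    rw [integral_div]
    exact div_self hm.ne'

/-- The functions of the first two parts. -/
lemma main (a : ℝ) (ha : 0 < a) (ha1 : a < 1) : ∃ (β : ℝ → ℝ) (c : ℝ), Bump β ∧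
    1 / Real.pi ≤ c ∧ c ≤ 1 / (Real.pi * a) ∧ (∀ t, β t ≤ c) ∧ ∀ t, t ≤ a → β t = c := by
  obtain ⟨χ, hs, h0, h1, h2, h3⟩ := exists_chi a ha1
  obtain ⟨m1, m2⟩ := mass χ a ha hs.continuous h0 h1 h2 h3
  have hpa : 0 < Real.pi * a := mul_pos Real.pi_pos ha
  have hm : 0 < ∫ z : ℂ, χ (‖z‖ ^ 2) := lt_of_lt_of_le hpa m1
  refine ⟨_, 1 / ∫ z : ℂ, χ (‖z‖ ^ 2), bump_div χ hs h0 h3 hm, ?_, ?_, ?_, ?_⟩
  · exact one_div_le_one_div_of_le hm m2
  · exact one_div_le_one_div_of_le hpa m1
  · intro t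
    exact div_le_div_of_nonneg_right (h1 t) hm.le
  · intro t ht
    change χ t / _ = _
    rw [h2 t ht]

lemma bump_integrable {β : ℝ → ℝ} (h : Bump β) : Integrable (fun z : ℂ => β (‖z‖ ^ 2)) :=
  integrable β h.smooth.continuous h.supp

lemma bump_add {β β' : ℝ → ℝ} (h : Bump β) (h' : Bump β') : Bump (fun t => (β t + β' t) / 2) where
  smooth := (h.smooth.add h'.smooth).div_const _
  nonneg t := div_nonneg (add_nonneg (h.nonneg t) (h'.nonneg t)) zero_le_two
  supp t ht := by rw [h.supp t ht, h'.supp t ht, add_zero, zero_div]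
  mass := by
    rw [integral_div, integral_add (bump_integrable h) (bump_integrable h'), h.mass, h'.mass]
    norm_num

lemma bump_sc {β : ℝ → ℝ} {s : ℝ} (h : Bump β) (hs : 0 < s) (hs1 : s ≤ 1) : Bump (sc β s) where
  smooth := (h.smooth.comp (contDiff_id.div_const _)).div_const _
  nonneg t := div_nonneg (h.nonneg _) (sq_nonneg s)
  supp t ht := by
    have h1 : 1 ≤ t / s ^ 2 := by
      rw [le_div_iff₀ (by positivity), one_mul]
      calc s ^ 2 ≤ 1 := pow_le_one₀ hs.le hs1
        _ ≤ t := ht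
    change β (t / s ^ 2) / s ^ 2 = 0
    rw [h.supp _ h1, zero_div]
  mass := by
    change ∫ z : ℂ, β (‖z‖ ^ 2 / s ^ 2) / s ^ 2 = 1
    rw [integral_div]
    have h1 : ∀ z : ℂ, β (‖z‖ ^ 2 / s ^ 2) = (fun w : ℂ => β (‖w‖ ^ 2)) (s⁻¹ • z) := by
      intro z
      change _ = β (‖s⁻¹ • z‖ ^ 2)
      rw [norm_smul, norm_inv, Real.norm_of_nonneg hs.le]
      congr 1
      field_simp
    simp_rw [h1]
    rw [Measure.integral_comp_inv_smul_of_nonneg volume (fun w : ℂ => β (‖w‖ ^ 2)) hs.le, h.mass,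
      Complex.finrank_real_complex, smul_eq_mul, mul_one]
    exact div_self (by positivity)

end BMP

/-- BMP: bump functions. -/
theorem t_BMP : StmtBmp := by
  refine ⟨?_, ?_, fun β β' h h' => BMP.bump_add h h', fun β s h hs hs1 => BMP.bump_sc h hs hs1⟩
  · obtain ⟨β, c, hb, h1, -, -, h2⟩ := BMP.main (1 / 4) (by norm_num) (by norm_num)
    refine ⟨β, c, hb, lt_of_lt_of_le (by positivity) h1, ?_⟩
    intro t _ ht
    exact (h2 t ht).ge
  · intro δ hδ
    have ha : 0 < 1 / (1 + δ) := by positivity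
    have ha1 : 1 / (1 + δ) < 1 := by
      rw [div_lt_one (by positivity)]
      linarith
    obtain ⟨β, c, hb, h1, h2, h3, h4⟩ := BMP.main (1 / (1 + δ)) ha ha1
    refine ⟨β, hb, ?_, ?_⟩
    · intro t _
      have e1 : 1 / (Real.pi * (1 / (1 + δ))) = (1 + δ) / Real.pi := by
        field_simp
      rw [← e1]
      exact (h3 t).trans h2
    · intro t _ ht
      rw [h4 t ht]
      exact h1

end

end CRM
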