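import Pool.Agent.CRM.Stmts

/-!
CRL: the local crossing measure.
-/

open Complex MeasureTheory Filter Topology Set
open scoped ContDiff

namespace CRM

open QE QJ U3

noncomputable section

namespace CRL

variable {Ω : Type} [MeasurableSpace Ω] {μ : Measure Ω} {p u : Ω → ℂ} {V : Set ℂ} {σ : ℂ → ℝ}

theorem integrable_XK (hD : DirM V σ μ p u) (κ : ℂ → ℂ → ℝ)
    (hκ : Continuous fun q : ℂ × ℂ => κ q.1 q.2) (f : ℂ × ℂ → ℂ) (hfm : Measurable f)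
    (hfb : ∀ K, IsCompact K → ∃ C : ℝ, ∀ z ∈ K, ∀ t : ℂ, ‖t‖ = 1 → ‖f (z, t)‖ ≤ C) :
    Integrable (fun x : Ω × Ω => ((κ (p x.1) (p x.2) * s2 (u x.1 / u x.2) : ℝ) : ℂ) *
      f (p x.1, u x.1 / u x.2)) (μ.prod μ) := by
  have : IsFiniteMeasure μ := ⟨hD.fin.lt_top⟩
  obtain ⟨K, hK, hpK⟩ := hD.cpt
  obtain ⟨C2, hC2⟩ := hfb K hK
  obtain ⟨C1, hC1⟩ := (hK.prod hK).exists_bound_of_continuousOn hκ.continuousOn
  have hs2 : Continuous s2 := by unfold s2; fun_prop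
  have m1 : Measurable fun x : Ω × Ω => p x.1 := hD.mp.comp measurable_fst
  have m2 : Measurable fun x : Ω × Ω => p x.2 := hD.mp.comp measurable_snd
  have m3 : Measurable fun x : Ω × Ω => u x.1 / u x.2 :=
    (hD.mu.comp measurable_fst).div (hD.mu.comp measurable_snd)
  have m4 : Measurable fun x : Ω × Ω => κ (p x.1) (p x.2) :=
    hκ.measurable.comp (m1.prodMk m2)
  have m5 : Measurable fun x : Ω × Ω => s2 (u x.1 / u x.2) := hs2.measurable.comp m3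
  have m6 : Measurable fun x : Ω × Ω => f (p x.1, u x.1 / u x.2) := hfm.comp (m1.prodMk m3)
  have m7 : Measurable fun x : Ω × Ω => ((κ (p x.1) (p x.2) * s2 (u x.1 / u x.2) : ℝ) : ℂ) *
      f (p x.1, u x.1 / u x.2) := (Complex.measurable_ofReal.comp (m4.mul m5)).mul m6
  refine Integrable.of_bound m7.aestronglyMeasurable (C1 * 1 * C2) ?_
  have a1 : ∀ᵐ x ∂(μ.prod μ), p x.1 ∈ K := Measure.quasiMeasurePreserving_fst.ae hpK
  have a2 : ∀ᵐ x ∂(μ.prod μ), p x.2 ∈ K := Measure.quasiMeasurePreserving_snd.ae hpK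
  filter_upwards [a1, a2] with x h1 h2
  have hu : ‖u x.1 / u x.2‖ = 1 := by rw [norm_div, hD.unit, hD.unit, div_one]
  have h3 : ‖κ (p x.1) (p x.2)‖ ≤ C1 := hC1 (p x.1, p x.2) ⟨h1, h2⟩
  have h4 : ‖f (p x.1, u x.1 / u x.2)‖ ≤ C2 := hC2 _ h1 _ hu
  have h5 : |s2 (u x.1 / u x.2)| ≤ 1 := by
    unfold s2
    rw [abs_of_nonneg (by positivity)]
    have h6 : ‖(u x.1 / u x.2) ^ 2 - 1‖ ≤ 2 := by
      refine (norm_sub_le _ _).trans ?_
      rw [norm_pow, hu, norm_one]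
      norm_num
    have h7 := norm_nonneg ((u x.1 / u x.2) ^ 2 - 1)
    nlinarith
  rw [norm_mul, Complex.norm_real, norm_mul, Real.norm_eq_abs (s2 _)]
  have h8 : 0 ≤ C1 := (norm_nonneg _).trans h3
  exact mul_le_mul (mul_le_mul h3 h5 (abs_nonneg _) h8) h4 (norm_nonneg _) (by positivity)

theorem continuous_kb (β : ℝ → ℝ) (hβ : Bump β) (hσ : ContDiff ℝ ∞ σ) (ε : ℝ) :
    Continuous fun q : ℂ × ℂ => kb β σ ε q.1 q.2 := by
  have h1 : Continuous β := hβ.smooth.continuous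
  have h2 : Continuous σ := hσ.continuous
  unfold kb r2
  fun_prop

theorem XK_congr (hD : DirM V σ μ p u) (κ : ℂ → ℂ → ℝ) (f g : ℂ × ℂ → ℂ)
    (h : ∀ z t : ℂ, ‖t‖ = 1 → f (z, t) = g (z, t)) : XK μ p u κ f = XK μ p u κ g := by
  unfold XK II
  refine integral_congr_ae (Eventually.of_forall fun x => ?_)
  have hu : ‖u x.1 / u x.2‖ = 1 := by rw [norm_div, hD.unit, hD.unit, div_one]
  change _ * f _ = _ * g _
  rw [h _ _ hu]

/-- the class of the functions for which the integrals exist -/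
def Ok (f : ℂ × ℂ → ℂ) : Prop :=
  Measurable f ∧ ∀ K, IsCompact K → ∃ C : ℝ, ∀ z ∈ K, ∀ t : ℂ, ‖t‖ = 1 → ‖f (z, t)‖ ≤ C

theorem Ok.add {f g : ℂ × ℂ → ℂ} (hf : Ok f) (hg : Ok g) : Ok fun x => f x + g x := by
  refine ⟨hf.1.add hg.1, fun K hK => ?_⟩
  obtain ⟨C1, h1⟩ := hf.2 K hK
  obtain ⟨C2, h2⟩ := hg.2 K hK
  exact ⟨C1 + C2, fun z hz t ht => (norm_add_le _ _).trans (add_le_add (h1 z hz t ht)
    (h2 z hz t ht))⟩

theorem Ok.const_mul {f : ℂ × ℂ → ℂ} (hf : Ok f) (c : ℂ) : Ok fun x => c * f x := by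
  refine ⟨hf.1.const_mul c, fun K hK => ?_⟩
  obtain ⟨C1, h1⟩ := hf.2 K hK
  refine ⟨‖c‖ * C1, fun z hz t ht => ?_⟩
  rw [norm_mul]
  exact mul_le_mul_of_nonneg_left (h1 z hz t ht) (norm_nonneg _)

theorem XK_add (hD : DirM V σ μ p u) (κ : ℂ → ℂ → ℝ)
    (hκ : Continuous fun q : ℂ × ℂ => κ q.1 q.2) {f g : ℂ × ℂ → ℂ} (hf : Ok f) (hg : Ok g) :
    XK μ p u κ (fun x => f x + g x) = XK μ p u κ f + XK μ p u κ g := by
  unfold XK II
  rw [← integral_add (integrable_XK hD κ hκ f hf.1 hf.2) (integrable_XK hD κ hκ g hg.1 hg.2)]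
  refine integral_congr_ae (Eventually.of_forall fun x => ?_)
  exact mul_add _ _ _

theorem XK_const_mul (κ : ℂ → ℂ → ℝ) (f : ℂ × ℂ → ℂ) (c : ℂ) :
    XK μ p u κ (fun x => c * f x) = c * XK μ p u κ f := by
  unfold XK II
  rw [← integral_const_mul]
  refine integral_congr_ae (Eventually.of_forall fun x => ?_)
  exact mul_left_comm _ _ _

/-! ### the functions `gk` -/

theorem gk_neg (j : ℤ) (t : ℂ) : gk (2 * (-j)) t = gk (2 * j) t := by
  unfold gk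
  rw [Int.mul_ediv_cancel_left _ two_ne_zero, Int.mul_ediv_cancel_left _ two_ne_zero,
    Int.natAbs_neg]

theorem gk_nat (n : ℕ) (t : ℂ) :
    gk (2 * (n : ℤ)) t = 2 * ‖∑ i ∈ Finset.range n, t ^ (2 * i)‖ ^ 2 := by
  unfold gk
  rw [Int.mul_ediv_cancel_left _ two_ne_zero, Int.natAbs_natCast]

theorem nsq (z : ℂ) : ((‖z‖ ^ 2 : ℝ) : ℂ) = z * (starRingEnd ℂ) z := by
  rw [Complex.mul_conj, Complex.normSq_eq_norm_sq]

theorem unit_mul_conj {t : ℂ} (ht : ‖t‖ = 1) : t * (starRingEnd ℂ) t = 1 := by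
  rw [← nsq, ht]
  norm_num

/-- the second difference, natural indices -/
theorem gk_nat_diff (n : ℕ) {t : ℂ} (ht : ‖t‖ = 1) :
    ((gk (2 * ((n + 2 : ℕ) : ℤ)) t - 2 * gk (2 * ((n + 1 : ℕ) : ℤ)) t + gk (2 * (n : ℤ)) t : ℝ) : ℂ)
      = 2 * (t ^ (2 * (n + 1)) + (starRingEnd ℂ) t ^ (2 * (n + 1))) := by
  rw [gk_nat, gk_nat, gk_nat]
  set S : ℂ := ∑ i ∈ Finset.range n, t ^ (2 * i) with hS
  have h1 : ∑ i ∈ Finset.range (n + 1), t ^ (2 * i) = S + t ^ (2 * n) := by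
    rw [Finset.sum_range_succ]
  have h2 : ∑ i ∈ Finset.range (n + 2), t ^ (2 * i) = S + t ^ (2 * n) + t ^ (2 * (n + 1)) := by
    rw [Finset.sum_range_succ, h1]
  have h3 : S + t ^ (2 * n) = 1 + t ^ 2 * S := by
    rw [← h1, Finset.sum_range_succ', hS, Finset.mul_sum]
    rw [add_comm]
    simp only [mul_zero, pow_zero]
    congr 1
    refine Finset.sum_congr rfl fun i _ => ?_
    ring
  rw [h2, h1]
  push_cast
  have e : ∀ z : ℂ, (‖z‖ : ℂ) ^ 2 = z * (starRingEnd ℂ) z := fun z => by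
    rw [← nsq]
    push_cast
    rfl
  rw [e, e, e]
  set c := (starRingEnd ℂ) t with hc
  have htc : t * c = 1 := unit_mul_conj ht
  simp only [map_add, map_pow]
  set S' := (starRingEnd ℂ) S with hS'
  rw [← hc]
  have h3' : S' + c ^ (2 * n) = 1 + c ^ 2 * S' := by
    have := congrArg (starRingEnd ℂ) h3
    simp only [map_add, map_pow, map_mul, map_one] at this
    exact this
  have ha : t ^ (2 * (n + 1)) = t ^ 2 * t ^ (2 * n) := by ring
  have hb : c ^ (2 * (n + 1)) = c ^ 2 * c ^ (2 * n) := by ring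
  rw [ha, hb]
  have hu : t ^ 2 * c ^ 2 = 1 := by rw [← mul_pow, htc, one_pow]
  set A := t ^ (2 * n) with hA
  set B := c ^ (2 * n) with hB
  have hAB : A * B = 1 := by rw [hA, hB, ← mul_pow, htc, one_pow]
  set q := t ^ 2 with hq
  set r := c ^ 2 with hr
  -- `S + A = 1 + q S`, `S' + B = 1 + r S'`, `q r = 1`, `A B = 1`
  have k1 : q * A * (S' + B) = q * A + A * S' := by
    rw [h3']
    linear_combination A * S' * hu
  have k2 : r * B * (S + A) = r * B + B * S := by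
    rw [h3]
    linear_combination B * S * hu
  have k3 : q * A * (r * B) = 1 := by linear_combination hAB * (q * r) + hu
  linear_combination 2 * k1 + 2 * k2 + 2 * k3 - 2 * hAB

/-- the second difference -/
theorem gk_diff (j : ℤ) {t : ℂ} (ht : ‖t‖ = 1) :
    ((gk (2 * (j + 1)) t - 2 * gk (2 * j) t + gk (2 * (j - 1)) t : ℝ) : ℂ)
      = 2 * (t ^ (2 * j) + t ^ (-(2 * j))) := by
  have hconj : (starRingEnd ℂ) t = t⁻¹ := by
    have h1 := unit_mul_conj ht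
    have h0 : t ≠ 0 := by
      rintro rfl
      rw [norm_zero] at ht
      exact zero_ne_one ht
    field_simp
    rw [mul_comm] at h1
    exact h1
  have key : ∀ n : ℕ, ((gk (2 * ((n : ℤ) + 1)) t - 2 * gk (2 * (n : ℤ)) t +
      gk (2 * ((n : ℤ) - 1)) t : ℝ) : ℂ) = 2 * (t ^ (2 * (n : ℤ)) + t ^ (-(2 * (n : ℤ)))) := by
    intro n
    rcases n with _ | n
    · have h1 : gk (2 * (((0 : ℕ) : ℤ) - 1)) t = gk (2 * ((1 : ℕ) : ℤ)) t := by
        rw [← gk_neg ((1 : ℕ) : ℤ)]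
        norm_num
      have h2 : gk (2 * (((0 : ℕ) : ℤ) + 1)) t = gk (2 * ((1 : ℕ) : ℤ)) t := by norm_num
      rw [h1, h2, gk_nat, gk_nat]
      norm_num
    · have h1 := gk_nat_diff n ht
      have e1 : ((n + 1 : ℕ) : ℤ) + 1 = ((n + 2 : ℕ) : ℤ) := by push_cast; ring
      have e2 : ((n + 1 : ℕ) : ℤ) - 1 = (n : ℤ) := by push_cast; ring
      have e3 : t ^ (2 * (n + 1)) = t ^ (2 * ((n + 1 : ℕ) : ℤ)) := by
        rw [← zpow_natCast]
        push_cast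
        rfl
      have e4 : t⁻¹ ^ (2 * (n + 1)) = t ^ (-(2 * ((n + 1 : ℕ) : ℤ))) := by
        rw [zpow_neg, ← e3, inv_pow]
      rw [e1, e2, h1, hconj, e3, e4]
  rcases Int.eq_nat_or_neg j with ⟨n, rfl | rfl⟩
  · exact key n
  · have h1 := key n
    have e1 : gk (2 * (-(n : ℤ) + 1)) t = gk (2 * ((n : ℤ) - 1)) t := by
      rw [← gk_neg ((n : ℤ) - 1)]
      congr 1
      ring
    have e2 : gk (2 * (-(n : ℤ) - 1)) t = gk (2 * ((n : ℤ) + 1)) t := by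
      rw [← gk_neg ((n : ℤ) + 1)]
      congr 1
      ring
    rw [e1, e2, gk_neg]
    have h2 : (gk (2 * ((n : ℤ) - 1)) t - 2 * gk (2 * (n : ℤ)) t + gk (2 * ((n : ℤ) + 1)) t : ℝ) =
        gk (2 * ((n : ℤ) + 1)) t - 2 * gk (2 * (n : ℤ)) t + gk (2 * ((n : ℤ) - 1)) t := by ring
    rw [h2, h1]
    have e3 : 2 * -(n : ℤ) = -(2 * (n : ℤ)) := by ring
    rw [e3, neg_neg, add_comm (t ^ (-(2 * (n : ℤ))))]

/-! ### the monomials -/

theorem ok_mono {ζ : ℂ → ℂ} (hζ : Test V ζ) (k : ℤ) : Ok fun x => ζ x.1 * x.2 ^ k := by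
  have hc : Continuous ζ := hζ.smooth.continuous
  refine ⟨(hc.measurable.comp measurable_fst).mul (measurable_snd.pow_const k), fun K hK => ?_⟩
  obtain ⟨C, hC⟩ := hK.exists_bound_of_continuousOn hc.continuousOn
  refine ⟨C, fun z hz t ht => ?_⟩
  rw [norm_mul, norm_zpow, ht, one_zpow, mul_one]
  exact hC z hz

theorem continuous_gk (k : ℤ) : Continuous (gk k) := by
  unfold gk
  fun_prop

theorem ok_gk {ζ : ℂ → ℂ} (hζ : Test V ζ) (k : ℤ) : Ok fun x => ζ x.1 * (gk k x.2 : ℂ) := by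
  have hc : Continuous ζ := hζ.smooth.continuous
  have hg := continuous_gk k
  refine ⟨?_, fun K hK => ?_⟩
  · exact (hc.measurable.comp measurable_fst).mul
      (Complex.measurable_ofReal.comp (hg.measurable.comp measurable_snd))
  · obtain ⟨C, hC⟩ := hK.exists_bound_of_continuousOn hc.continuousOn
    obtain ⟨C', hC'⟩ := (isCompact_sphere (0 : ℂ) 1).exists_bound_of_continuousOn
      hg.continuousOn
    refine ⟨C * C', fun z hz t ht => ?_⟩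
    rw [norm_mul, Complex.norm_real]
    have h1 := hC z hz
    exact mul_le_mul h1 (hC' t (by simpa using ht)) (norm_nonneg _) ((norm_nonneg _).trans h1)

theorem tf_of_test {ζ : ℂ → ℂ} (hζ : Test V ζ) (g : ℂ → ℂ) (hg : Continuous g) :
    TF V fun x => ζ x.1 * g x.2 := by
  refine ⟨?_, tsupport ζ, hζ.supp, hζ.sub, fun z hz t => ?_⟩
  · have hc : Continuous ζ := hζ.smooth.continuous
    fun_prop
  · change ζ z * g t = 0
    rw [image_eq_zero_of_notMem_tsupport hz, zero_mul]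

/-- limits of the monomials of even degree -/
theorem even_lim (hD : DirM V σ μ p u) (hσ : ContDiff ℝ ∞ σ) {ζ : ℂ → ℂ} (hζ : Test V ζ)
    {β : ℝ → ℝ} (hβ : Bump β) (L : ℤ → ℂ)
    (hL : ∀ k : ℤ, Even k → Tendsto (fun ε : ℝ => XK μ p u (kb β σ ε)
      fun x => ζ x.1 * (gk k x.2 : ℂ)) (𝓝[>] 0) (𝓝 (L k)))
    (j : ℤ)
    (hS : Tendsto (fun ε : ℝ => (XK μ p u (kb β σ ε) fun x => ζ x.1 * x.2 ^ (2 * j))
      - XK μ p u (kb β σ ε) fun x => ζ x.1 * x.2 ^ (-(2 * j))) (𝓝[>] 0) (𝓝 0)) :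
    Tendsto (fun ε : ℝ => XK μ p u (kb β σ ε) fun x => ζ x.1 * x.2 ^ (2 * j)) (𝓝[>] 0)
      (𝓝 (1 / 4 * (L (2 * (j + 1)) + (-2 * L (2 * j) + L (2 * (j - 1)))))) := by
  have key : ∀ ε : ℝ, (XK μ p u (kb β σ ε) fun x => ζ x.1 * x.2 ^ (2 * j)) +
      (XK μ p u (kb β σ ε) fun x => ζ x.1 * x.2 ^ (-(2 * j))) =
      1 / 2 * ((XK μ p u (kb β σ ε) fun x => ζ x.1 * (gk (2 * (j + 1)) x.2 : ℂ)) +
        (-2 * (XK μ p u (kb β σ ε) fun x => ζ x.1 * (gk (2 * j) x.2 : ℂ)) +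
          XK μ p u (kb β σ ε) fun x => ζ x.1 * (gk (2 * (j - 1)) x.2 : ℂ))) := by
    intro ε
    have hκ := continuous_kb β hβ hσ ε
    rw [← XK_add hD _ hκ (ok_mono hζ _) (ok_mono hζ _), ← XK_const_mul,
      ← XK_add hD _ hκ ((ok_gk hζ _).const_mul _) (ok_gk hζ _),
      ← XK_add hD _ hκ (ok_gk hζ _) (((ok_gk hζ _).const_mul _).add (ok_gk hζ _)),
      ← XK_const_mul]
    refine XK_congr hD _ _ _ fun z t ht => ?_
    have h1 := gk_diff j ht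
    push_cast at h1
    linear_combination (-(1 / 2) * ζ z) * h1
  have h1 : Tendsto (fun ε : ℝ => 1 / 2 * (1 / 2 *
      ((XK μ p u (kb β σ ε) fun x => ζ x.1 * (gk (2 * (j + 1)) x.2 : ℂ)) +
        (-2 * (XK μ p u (kb β σ ε) fun x => ζ x.1 * (gk (2 * j) x.2 : ℂ)) +
          XK μ p u (kb β σ ε) fun x => ζ x.1 * (gk (2 * (j - 1)) x.2 : ℂ))) +
      ((XK μ p u (kb β σ ε) fun x => ζ x.1 * x.2 ^ (2 * j))
        - XK μ p u (kb β σ ε) fun x => ζ x.1 * x.2 ^ (-(2 * j))))) (𝓝[>] 0)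
      (𝓝 (1 / 2 * (1 / 2 * (L (2 * (j + 1)) + (-2 * L (2 * j) + L (2 * (j - 1)))) + 0))) :=
    ((((hL _ (even_two_mul _)).add (((hL _ (even_two_mul _)).const_mul (-2)).add
      (hL _ (even_two_mul _)))).const_mul (1 / 2)).add hS).const_mul (1 / 2)
  have h2 : (1 / 2 * (1 / 2 * (L (2 * (j + 1)) + (-2 * L (2 * j) + L (2 * (j - 1)))) + 0) : ℂ) =
      1 / 4 * (L (2 * (j + 1)) + (-2 * L (2 * j) + L (2 * (j - 1)))) := by ring
  rw [h2] at h1
  refine h1.congr fun ε => ?_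
  rw [← key ε]
  ring

theorem inv_eq_conj {t : ℂ} (ht : ‖t‖ = 1) : (starRingEnd ℂ) t = t⁻¹ := by
  have h1 := unit_mul_conj ht
  have h0 : t ≠ 0 := by
    rintro rfl
    rw [norm_zero] at ht
    exact zero_ne_one ht
  field_simp
  rw [mul_comm] at h1
  exact h1

end CRL

open CRL in
/-- CRL: the local crossing measure. -/
theorem t_CRL (hB : StmtBmp) (hDi : StmtDir) (hP : StmtPol) (hS : StmtSne) (hK : StmtKbl)
    (hW : StmtSwp) (hO : StmtOdd) (hA : StmtAll) (hI : StmtInd) : StmtCrl := by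
  intro V σ h φ Ω _ μ p u hL hM
  have hD : DirM V σ μ p u := hDi V σ h φ Ω μ p u hL hM
  have hop := hL.op
  have hsm := hL.sm
  obtain ⟨⟨β, c, hβ, hc, hlow⟩, -, -, -⟩ := hB
  have hPB : PairB V μ p u := by
    refine hS V σ Ω μ p u β c hop hsm hD hβ hc hlow fun ζ hζ => ?_
    obtain ⟨L, -, h2⟩ := hP V σ h φ Ω μ p u hL hM ζ hζ
    exact ⟨L 2, h2 2 even_two β β hβ hβ⟩
  -- the functions `gk`
  have hgk : ∀ ζ : ℂ → ℂ, Test V ζ → ∀ L : ℤ → ℂ,
      (∀ k : ℤ, Even k → ∀ β β', Bump β → Bump β' →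
        Tendsto (fun ε : ℝ => ∫ z, ζ z * ((mx β β' σ ε μ p u 0 z - mx β β' σ ε μ p u k z : ℝ) : ℂ))
          (𝓝[>] 0) (𝓝 (L k))) → ∀ β, Bump β → ∀ k : ℤ, Even k →
      Tendsto (fun ε : ℝ => XK μ p u (kb β σ ε) fun x => ζ x.1 * (gk k x.2 : ℂ))
        (𝓝[>] 0) (𝓝 (L k)) := by
    intro ζ hζ L hLk β hβ k hk
    exact hK V σ Ω μ p u ζ k (L k) hop hsm hD hPB hζ hk (hLk k hk) β hβ
  have hodd : ∀ ζ : ℂ → ℂ, Test V ζ → ∀ k : ℤ, Odd k → ∀ β, Bump β →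
      Tendsto (fun ε : ℝ => XK μ p u (kb β σ ε) fun x => ζ x.1 * x.2 ^ k) (𝓝[>] 0) (𝓝 0) := by
    intro ζ hζ k hk β hβ
    refine tendsto_const_nhds.congr' ?_
    filter_upwards [self_mem_nhdsWithin] with ε hε
    exact (hO V σ Ω μ p u ζ k β ε hop hsm hD hζ hk hβ hε).symm
  have hmon : ∀ (k : ℤ) (ζ : ℂ → ℂ), Test V ζ → ∃ l : ℂ, ∀ β, Bump β →
      Tendsto (fun ε : ℝ => XK μ p u (kb β σ ε) fun x => ζ x.1 * x.2 ^ k) (𝓝[>] 0) (𝓝 l) := by
    intro k ζ hζ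
    rcases Int.even_or_odd' k with ⟨j, rfl | rfl⟩
    · obtain ⟨L, -, h2⟩ := hP V σ h φ Ω μ p u hL hM ζ hζ
      exact ⟨_, fun β hβ => even_lim hD hsm hζ hβ L (hgk ζ hζ L h2 β hβ) j
        (hW V σ Ω μ p u ζ (2 * j) β hop hsm hD hPB hζ hβ)⟩
    · exact ⟨0, fun β hβ => hodd ζ hζ _ (odd_two_mul_add_one j) β hβ⟩
  have hall := hA V σ Ω μ p u hop hsm hD hPB hmon
  have hind := hI V σ Ω μ p u hop hsm hD hall
  refine ⟨hPB, fun f hf => ?_, fun ζ hζ => ?_⟩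
  · obtain ⟨l, hl⟩ := hall f hf
    exact ⟨l, hind f hf l β hβ (hl β hβ)⟩
  · obtain ⟨L, h1, h2⟩ := hP V σ h φ Ω μ p u hL hM ζ hζ
    refine ⟨L, fun k hk => ?_, h1, fun k hk => ?_, fun k => ?_⟩
    · exact hind _ (tf_of_test hζ (fun t => (gk k t : ℂ))
        (Complex.continuous_ofReal.comp (continuous_gk k))) _ β hβ (hgk ζ hζ L h2 β hβ k hk)
    · refine hind _ (tf_of_test hζ (fun t => t ^ k) (continuous_pow k)) _ β hβ ?_
      have h3 := hodd ζ hζ (k : ℤ) (by exact_mod_cast hk) β hβ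
      simp only [zpow_natCast] at h3
      exact h3
    · have t1 : TF V fun x => ζ x.1 * x.2 ^ k :=
        tf_of_test hζ (fun t => t ^ k) (continuous_pow k)
      have t2 : TF V fun x => ζ x.1 * (starRingEnd ℂ) x.2 ^ k :=
        tf_of_test hζ (fun t => (starRingEnd ℂ) t ^ k) (Complex.continuous_conj.pow k)
      obtain ⟨l1, hl1⟩ := hall _ t1
      obtain ⟨l2, hl2⟩ := hall _ t2
      have h3 := hW V σ Ω μ p u ζ (k : ℤ) β hop hsm hD hPB hζ hβ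
      have h4 : ∀ ε : ℝ, (XK μ p u (kb β σ ε) fun x => ζ x.1 * x.2 ^ (-(k : ℤ))) =
          XK μ p u (kb β σ ε) fun x => ζ x.1 * (starRingEnd ℂ) x.2 ^ k := by
        intro ε
        refine XK_congr hD _ _ _ fun z t ht => ?_
        change ζ z * t ^ (-(k : ℤ)) = ζ z * (starRingEnd ℂ) t ^ k
        rw [CRL.inv_eq_conj ht, zpow_neg, zpow_natCast, inv_pow]
      simp only [h4, zpow_natCast] at h3
      have h5 : l1 - l2 = 0 := tendsto_nhds_unique ((hl1 β hβ).sub (hl2 β hβ)) h3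
      have h6 := (hind _ t1 l1 β hβ (hl1 β hβ)).sub (hind _ t2 l2 β hβ (hl2 β hβ))
      rw [h5] at h6
      exact h6

end

end CRM
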