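import Pool.Agent.CRM.Stmts

/-!
The crossing measure of a semiclassical measure, step FBN: the mixed quadratic functionals as
integrals over the pairs.
-/

open Complex MeasureTheory Filter Topology Set
open scoped ContDiff

namespace CRM

open QE QJ U3

noncomputable section

namespace FBN

lemma norm_ta (σ : ℂ → ℝ) (z w : ℂ) : ‖ta σ z w‖ = 1 := by
  unfold ta
  exact Complex.norm_exp_ofReal_mul_I _

/-- A bump is bounded on the nonnegative numbers. -/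
lemma bump_bdd {β : ℝ → ℝ} (h : Bump β) : ∃ B : ℝ, 0 ≤ B ∧ ∀ t, 0 ≤ t → β t ≤ B := by
  obtain ⟨B, hB⟩ := (isCompact_Icc (a := (0 : ℝ)) (b := 1)).exists_bound_of_continuousOn
    h.smooth.continuous.continuousOn
  refine ⟨max B 0, le_max_right _ _, ?_⟩
  intro t ht
  by_cases h1 : t ≤ 1
  · have h2 := hB t ⟨ht, h1⟩
    exact ((le_abs_self _).trans h2).trans (le_max_left _ _)
  · rw [h.supp t (not_le.mp h1).le]
    exact le_max_right _ _

/-- The kernel is bounded. -/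
lemma ke_bdd {β : ℝ → ℝ} {σ : ℂ → ℝ} {ε : ℝ} (h : Bump β) (hσ : ContDiff ℝ ∞ σ)
    {K : Set ℂ} (hK : IsCompact K) : ∃ B : ℝ, 0 ≤ B ∧ ∀ z, ∀ w ∈ K, |ke β σ ε z w| ≤ B := by
  obtain ⟨B, hB0, hB⟩ := bump_bdd h
  obtain ⟨M, hM⟩ := hK.exists_bound_of_continuousOn
    (f := fun w => Real.exp (2 * σ w))
    (Real.continuous_exp.comp (continuous_const.mul hσ.continuous)).continuousOn
  refine ⟨max M 0 * (B / ε ^ 2), mul_nonneg (le_max_right _ _) (div_nonneg hB0 (sq_nonneg _)), ?_⟩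
  intro z w hw
  have h1 : 0 ≤ r2 σ z w / ε ^ 2 := by
    unfold r2
    positivity
  have h2 : |gb β σ ε z w| ≤ B / ε ^ 2 := by
    unfold gb
    rw [abs_of_nonneg (div_nonneg (h.nonneg _) (sq_nonneg _))]
    exact div_le_div_of_nonneg_right (hB _ h1) (sq_nonneg _)
  unfold ke
  rw [abs_mul]
  exact mul_le_mul ((hM w hw).trans (le_max_left _ _)) h2 (abs_nonneg _) (le_max_right _ _)

/-- The norm of the kernel. -/
lemma norm_FK {β : ℝ → ℝ} {σ : ℂ → ℝ} {ε : ℝ} (k : ℤ) (z w : ℂ) :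
    ‖PES.FK β σ ε k (z, w)‖ = |ke β σ ε z w| := by
  change ‖(ke β σ ε z w : ℂ) * (ta σ z w)⁻¹ ^ k‖ = _
  rw [norm_mul, norm_zpow, norm_inv, norm_ta, inv_one, one_zpow, mul_one, Complex.norm_real,
    Real.norm_eq_abs]

section

variable {Ω : Type} [MeasurableSpace Ω]

/-- The integrand. -/
def G (β β' : ℝ → ℝ) (σ : ℂ → ℝ) (ε : ℝ) (p u : Ω → ℂ) (k : ℤ) (z : ℂ) (x : Ω × Ω) : ℂ :=
  (PES.FK β σ ε k (z, p x.1) * u x.1 ^ k) *
    (starRingEnd ℂ) (PES.FK β' σ ε k (z, p x.2) * u x.2 ^ k)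

variable {β β' : ℝ → ℝ} {σ : ℂ → ℝ} {ε : ℝ} {p u : Ω → ℂ} {V : Set ℂ} {μ : Measure Ω}

lemma measurable_G (h : Bump β) (h' : Bump β') (hσ : ContDiff ℝ ∞ σ) (hp : Measurable p)
    (hu : Measurable u) (k : ℤ) :
    Measurable fun y : ℂ × (Ω × Ω) => G β β' σ ε p u k y.1 y.2 := by
  have h1 : Measurable fun y : ℂ × (Ω × Ω) => PES.FK β σ ε k (y.1, p y.2.1) :=
    (PES.contDiff_FK h.smooth hσ ε k).continuous.measurable.comp
      (measurable_fst.prodMk (hp.comp (measurable_fst.comp measurable_snd)))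
  have h2 : Measurable fun y : ℂ × (Ω × Ω) => PES.FK β' σ ε k (y.1, p y.2.2) :=
    (PES.contDiff_FK h'.smooth hσ ε k).continuous.measurable.comp
      (measurable_fst.prodMk (hp.comp (measurable_snd.comp measurable_snd)))
  have h3 : Measurable fun y : ℂ × (Ω × Ω) => u y.2.1 ^ k :=
    (hu.comp (measurable_fst.comp measurable_snd)).pow_const k
  have h4 : Measurable fun y : ℂ × (Ω × Ω) => u y.2.2 ^ k :=
    (hu.comp (measurable_snd.comp measurable_snd)).pow_const k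
  exact (h1.mul h3).mul (Complex.continuous_conj.measurable.comp (h2.mul h4))

lemma G_eq_comp (k : ℤ) (z : ℂ) :
    (G β β' σ ε p u k z) = (fun y : ℂ × (Ω × Ω) => G β β' σ ε p u k y.1 y.2) ∘
      (fun x : Ω × Ω => ((z, x) : ℂ × (Ω × Ω))) := rfl

lemma measurable_G' (h : Bump β) (h' : Bump β') (hσ : ContDiff ℝ ∞ σ) (hp : Measurable p)
    (hu : Measurable u) (k : ℤ) (z : ℂ) : Measurable (G β β' σ ε p u k z) := by
  have h1 : Measurable (fun x : Ω × Ω => ((z, x) : ℂ × (Ω × Ω))) := measurable_prodMk_left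
  have h2 := (measurable_G (ε := ε) h h' hσ hp hu k)
  rw [G_eq_comp]
  exact h2.comp h1

lemma ae_prod [SFinite μ] {K : Set ℂ} (h : ∀ᵐ o ∂μ, p o ∈ K) :
    ∀ᵐ x ∂(μ.prod μ), p x.1 ∈ K ∧ p x.2 ∈ K :=
  (Measure.quasiMeasurePreserving_fst.ae h).and (Measure.quasiMeasurePreserving_snd.ae h)

lemma bdd_G (h : Bump β) (h' : Bump β') (hσ : ContDiff ℝ ∞ σ) (hu : ∀ o, ‖u o‖ = 1)
    {K : Set ℂ} (hK : IsCompact K) : ∃ B : ℝ, 0 ≤ B ∧ ∀ (k : ℤ) (z : ℂ) (x : Ω × Ω),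
    p x.1 ∈ K → p x.2 ∈ K → ‖G β β' σ ε p u k z x‖ ≤ B := by
  obtain ⟨B, hB0, hB⟩ := ke_bdd (ε := ε) h hσ hK
  obtain ⟨B', hB0', hB'⟩ := ke_bdd (ε := ε) h' hσ hK
  refine ⟨B * B', mul_nonneg hB0 hB0', ?_⟩
  intro k z x h1 h2
  unfold G
  rw [norm_mul, RCLike.norm_conj, norm_mul, norm_mul, norm_FK, norm_FK,
    PES.norm_zpow_one (hu _), PES.norm_zpow_one (hu _), mul_one, mul_one]
  exact mul_le_mul (hB z _ h1) (hB' z _ h2) (abs_nonneg _) hB0

lemma integrable_G [IsFiniteMeasure μ] (h : Bump β) (h' : Bump β') (hσ : ContDiff ℝ ∞ σ)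
    (hp : Measurable p) (hu : Measurable u) (hu1 : ∀ o, ‖u o‖ = 1)
    {K : Set ℂ} (hK : IsCompact K) (hpK : ∀ᵐ o ∂μ, p o ∈ K) (k : ℤ) (z : ℂ) :
    Integrable (fun x => G β β' σ ε p u k z x) (μ.prod μ) := by
  obtain ⟨B, hB0, hB⟩ := bdd_G (p := p) (ε := ε) h h' hσ hu1 hK
  apply Integrable.of_bound (measurable_G' h h' hσ hp hu k z).aestronglyMeasurable B
  filter_upwards [ae_prod hpK] with x hx
  exact hB k z x hx.1 hx.2

/-- The product of the moments as an integral. -/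
lemma integral_G [SFinite μ] (k : ℤ) (z : ℂ) :
    ∫ x, G β β' σ ε p u k z x ∂(μ.prod μ) =
      pe β σ ε μ p u k z * (starRingEnd ℂ) (pe β' σ ε μ p u k z) := by
  have e : ∀ b : ℝ → ℝ, pe b σ ε μ p u k z = ∫ o, PES.FK b σ ε k (z, p o) * u o ^ k ∂μ := by
    intro b
    unfold pe PES.FK
    refine integral_congr_ae (Filter.Eventually.of_forall fun o => ?_)
    simp only [mul_zpow]
    ring
  rw [e, e, ← integral_conj]
  exact integral_prod_mul (fun o => PES.FK β σ ε k (z, p o) * u o ^ k)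
    (fun o => (starRingEnd ℂ) (PES.FK β' σ ε k (z, p o) * u o ^ k))

lemma mx_eq [IsFiniteMeasure μ] (h : Bump β) (h' : Bump β') (hσ : ContDiff ℝ ∞ σ)
    (hp : Measurable p) (hu : Measurable u) (hu1 : ∀ o, ‖u o‖ = 1)
    {K : Set ℂ} (hK : IsCompact K) (hpK : ∀ᵐ o ∂μ, p o ∈ K) (k : ℤ) (z : ℂ) :
    mx β β' σ ε μ p u k z = ∫ x, (G β β' σ ε p u k z x).re ∂(μ.prod μ) := by
  unfold mx
  rw [← integral_G]
  exact (integral_re (integrable_G h h' hσ hp hu hu1 hK hpK k z)).symm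

/-- The integrand in terms of the phases. -/
lemma re_G (hu1 : ∀ o, ‖u o‖ = 1) (k : ℤ) (z : ℂ) (x : Ω × Ω) :
    (G β β' σ ε p u k z x).re = ke β σ ε z (p x.1) * ke β' σ ε z (p x.2) *
      ck k (ta σ z (p x.2) / ta σ z (p x.1) * (u x.1 / u x.2)) := by
  have hn : ‖(ta σ z (p x.2))⁻¹ ^ k * u x.2 ^ k‖ = 1 := by
    rw [norm_mul, norm_zpow, norm_zpow, norm_inv, norm_ta, hu1, inv_one, one_zpow, mul_one]
  have e1 : (starRingEnd ℂ) (PES.FK β' σ ε k (z, p x.2) * u x.2 ^ k) =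
      (ke β' σ ε z (p x.2) : ℂ) * ((ta σ z (p x.2))⁻¹ ^ k * u x.2 ^ k)⁻¹ := by
    have e2 : PES.FK β' σ ε k (z, p x.2) * u x.2 ^ k =
        (ke β' σ ε z (p x.2) : ℂ) * ((ta σ z (p x.2))⁻¹ ^ k * u x.2 ^ k) := by
      unfold PES.FK
      ring
    rw [e2, map_mul, conj_ofReal, Complex.inv_eq_conj hn]
  have e3 : (ta σ z (p x.1))⁻¹ ^ k * u x.1 ^ k * ((ta σ z (p x.2))⁻¹ ^ k * u x.2 ^ k)⁻¹ =
      (ta σ z (p x.2) / ta σ z (p x.1) * (u x.1 / u x.2)) ^ k := by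
    rw [← mul_zpow, ← mul_zpow, ← inv_zpow, ← mul_zpow]
    congr 1
    rw [mul_inv, inv_inv]
    ring
  have e4 : G β β' σ ε p u k z x = ((ke β σ ε z (p x.1) * ke β' σ ε z (p x.2) : ℝ) : ℂ) *
      (ta σ z (p x.2) / ta σ z (p x.1) * (u x.1 / u x.2)) ^ k := by
    unfold G
    rw [e1, ← e3]
    unfold PES.FK
    push_cast
    ring
  rw [e4, Complex.re_ofReal_mul]
  rfl

end

end FBN

/-- FBN: the mixed quadratic functionals as integrals over the pairs. -/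
theorem t_FBN : StmtFbn := by
  intro V σ Ω _ μ p u β β' ζ ε k hσ hD hβ hβ' hζ hε
  have hfin : IsFiniteMeasure μ := ⟨lt_top_iff_ne_top.mpr hD.fin⟩
  obtain ⟨K, hK, hpK⟩ := hD.cpt
  have hp := hD.mp
  have hu := hD.mu
  have hu1 := hD.unit
  obtain ⟨B, hB0, hB⟩ := FBN.bdd_G (p := p) (ε := ε) hβ hβ' hσ hu1 hK
  -- the integrand
  let H : ℂ → Ω × Ω → ℂ := fun z x =>
    ζ z * (((FBN.G β β' σ ε p u 0 z x).re - (FBN.G β β' σ ε p u k z x).re : ℝ) : ℂ)
  have hH : ∀ z x, H z x = ζ z * ((ke β σ ε z (p x.1) * ke β' σ ε z (p x.2)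
      * (1 - ck k (ta σ z (p x.2) / ta σ z (p x.1) * (u x.1 / u x.2))) : ℝ) : ℂ) := by
    intro z x
    change ζ z * (((FBN.G β β' σ ε p u 0 z x).re - (FBN.G β β' σ ε p u k z x).re : ℝ) : ℂ) = _
    rw [FBN.re_G hu1, FBN.re_G hu1]
    have e : ck 0 (ta σ z (p x.2) / ta σ z (p x.1) * (u x.1 / u x.2)) = 1 := by
      unfold ck
      rw [zpow_zero, Complex.one_re]
    rw [e]
    congr 2
    ring
  -- the left side
  have hL : ∀ z, ζ z * ((mx β β' σ ε μ p u 0 z - mx β β' σ ε μ p u k z : ℝ) : ℂ) =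
      ∫ x, H z x ∂(μ.prod μ) := by
    intro z
    have i0 := (FBN.integrable_G (ε := ε) hβ hβ' hσ hp hu hu1 hK hpK 0 z).re
    have i1 := (FBN.integrable_G (ε := ε) hβ hβ' hσ hp hu hu1 hK hpK k z).re
    rw [FBN.mx_eq hβ hβ' hσ hp hu hu1 hK hpK, FBN.mx_eq hβ hβ' hσ hp hu hu1 hK hpK]
    have e1 : ∫ x, (FBN.G β β' σ ε p u 0 z x).re ∂(μ.prod μ) -
        ∫ x, (FBN.G β β' σ ε p u k z x).re ∂(μ.prod μ) =
        ∫ x, ((FBN.G β β' σ ε p u 0 z x).re - (FBN.G β β' σ ε p u k z x).re) ∂(μ.prod μ) :=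
      (integral_sub i0 i1).symm
    rw [e1, ← integral_complex_ofReal, ← integral_const_mul]
  -- integrability
  have hm : Measurable fun y : ℂ × (Ω × Ω) => H y.1 y.2 := by
    have h0 := FBN.measurable_G (ε := ε) hβ hβ' hσ hp hu 0
    have h1 := FBN.measurable_G (ε := ε) hβ hβ' hσ hp hu k
    have h2 : Measurable fun y : ℂ × (Ω × Ω) => ζ y.1 :=
      hζ.smooth.continuous.measurable.comp measurable_fst
    exact h2.mul (Complex.measurable_ofReal.comp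
      ((Complex.measurable_re.comp h0).sub (Complex.measurable_re.comp h1)))
  have hint : Integrable (Function.uncurry H) ((volume : Measure ℂ).prod (μ.prod μ)) := by
    have hg : Integrable (fun y : ℂ × (Ω × Ω) => ‖ζ y.1‖ * (2 * B))
        ((volume : Measure ℂ).prod (μ.prod μ)) :=
      (hζ.smooth.continuous.integrable_of_hasCompactSupport hζ.supp).norm.mul_prod
        (integrable_const (2 * B))
    refine Integrable.mono' hg hm.aestronglyMeasurable ?_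
    have hae : ∀ᵐ y ∂((volume : Measure ℂ).prod (μ.prod μ)), p y.2.1 ∈ K ∧ p y.2.2 ∈ K :=
      Measure.quasiMeasurePreserving_snd.ae (FBN.ae_prod hpK)
    filter_upwards [hae] with y hy
    change ‖ζ y.1 * (((FBN.G β β' σ ε p u 0 y.1 y.2).re - (FBN.G β β' σ ε p u k y.1 y.2).re : ℝ) :
      ℂ)‖ ≤ ‖ζ y.1‖ * (2 * B)
    rw [norm_mul, Complex.norm_real]
    apply mul_le_mul_of_nonneg_left _ (norm_nonneg _)
    have b0 := (Complex.abs_re_le_norm _).trans (hB 0 y.1 y.2 hy.1 hy.2)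
    have b1 := (Complex.abs_re_le_norm _).trans (hB k y.1 y.2 hy.1 hy.2)
    calc ‖(FBN.G β β' σ ε p u 0 y.1 y.2).re - (FBN.G β β' σ ε p u k y.1 y.2).re‖
        ≤ ‖(FBN.G β β' σ ε p u 0 y.1 y.2).re‖ + ‖(FBN.G β β' σ ε p u k y.1 y.2).re‖ :=
          norm_sub_le _ _
      _ ≤ B + B := add_le_add b0 b1
      _ = 2 * B := by ring
  calc ∫ z, ζ z * ((mx β β' σ ε μ p u 0 z - mx β β' σ ε μ p u k z : ℝ) : ℂ)
      = ∫ z, ∫ x, H z x ∂(μ.prod μ) := integral_congr_ae (Filter.Eventually.of_forall hL)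
    _ = ∫ x, (∫ z, H z x) ∂(μ.prod μ) := integral_integral_swap hint
    _ = _ := by
      unfold II
      refine integral_congr_ae (Filter.Eventually.of_forall fun x => ?_)
      exact integral_congr_ae (Filter.Eventually.of_forall fun z => hH z x)

end

end CRM
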