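import Pool.Agent.CRM.Stmts

/-!
The crossing measure of a semiclassical measure: module IND (from the smooth kernels to the
indicator kernel).
-/

open Complex MeasureTheory Filter Topology Set
open scoped ContDiff

namespace CRM

open QE QJ U3

namespace IND

section

variable {Ω : Type} [MeasurableSpace Ω] {μ : Measure Ω} {p u : Ω → ℂ} {K : Set ℂ} {σ : ℂ → ℝ}

/-- good kernels -/
structure KM (K : Set ℂ) (κ : ℂ → ℂ → ℝ) : Prop where
  meas : Measurable (fun x : ℂ × ℂ => κ x.1 x.2)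
  nonneg : ∀ z w, 0 ≤ κ z w
  bdd : ∃ C, ∀ z ∈ K, ∀ w, κ z w ≤ C

/-- the base data -/
structure BD (μ : Measure Ω) (p u : Ω → ℂ) (K : Set ℂ) : Prop where
  fin : IsFiniteMeasure μ
  mp : Measurable p
  mu : Measurable u
  unit : ∀ o, ‖u o‖ = 1
  ae : ∀ᵐ o ∂μ, p o ∈ K

/-- the real weight -/
noncomputable def wt (p u : Ω → ℂ) (κ : ℂ → ℂ → ℝ) (x : Ω × Ω) : ℝ :=
  κ (p x.1) (p x.2) * s2 (u x.1 / u x.2)

lemma s2_cont : Continuous s2 := by
  unfold s2
  fun_prop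

lemma s2_nonneg (t : ℂ) : 0 ≤ s2 t := by
  unfold s2
  positivity

lemma s2_le {t : ℂ} (ht : ‖t‖ = 1) : s2 t ≤ 1 := by
  unfold s2
  have h1 : ‖t ^ 2 - 1‖ ≤ 2 := by
    refine (norm_sub_le _ _).trans ?_
    rw [norm_pow, ht, norm_one]
    norm_num
  have h2 := norm_nonneg (t ^ 2 - 1)
  nlinarith

lemma quo_unit (hB : BD μ p u K) (x : Ω × Ω) : ‖u x.1 / u x.2‖ = 1 := by
  rw [norm_div, hB.unit, hB.unit, div_one]

lemma quo_meas (hB : BD μ p u K) : Measurable (fun x : Ω × Ω => u x.1 / u x.2) :=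
  (hB.mu.comp measurable_fst).div (hB.mu.comp measurable_snd)

lemma wt_meas (hB : BD μ p u K) {κ : ℂ → ℂ → ℝ} (hκ : KM K κ) : Measurable (wt p u κ) := by
  unfold wt
  refine Measurable.mul ?_ (s2_cont.measurable.comp (quo_meas hB))
  exact hκ.meas.comp ((hB.mp.comp measurable_fst).prodMk (hB.mp.comp measurable_snd))

lemma wt_nonneg {κ : ℂ → ℂ → ℝ} (hκ : KM K κ) (x : Ω × Ω) : 0 ≤ wt p u κ x :=
  mul_nonneg (hκ.nonneg _ _) (s2_nonneg _)

lemma ae_mem (hB : BD μ p u K) : ∀ᵐ x ∂(μ.prod μ), p x.1 ∈ K := by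
  have := hB.fin
  exact (Measure.quasiMeasurePreserving_fst (μ := μ) (ν := μ)).ae hB.ae

lemma wt_bdd (hB : BD μ p u K) {κ : ℂ → ℂ → ℝ} (hκ : KM K κ) :
    ∃ C, ∀ᵐ x ∂(μ.prod μ), wt p u κ x ≤ C := by
  obtain ⟨C, hC⟩ := hκ.bdd
  refine ⟨C, ?_⟩
  filter_upwards [ae_mem hB] with x hx
  have h1 := hC _ hx (p x.2)
  have h2 := hκ.nonneg (p x.1) (p x.2)
  have h3 := s2_le (quo_unit hB x)
  have h4 := s2_nonneg (u x.1 / u x.2)
  unfold wt
  nlinarith

/-- continuous functions with bounded support -/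
structure CB (f : ℂ × ℂ → ℂ) : Prop where
  cont : Continuous f
  supp : ∃ K, IsCompact K ∧ ∀ z, z ∉ K → ∀ t, f (z, t) = 0

lemma CB.bdd {f : ℂ × ℂ → ℂ} (hf : CB f) : ∃ C, 0 ≤ C ∧ ∀ z t, ‖t‖ = 1 → ‖f (z, t)‖ ≤ C := by
  obtain ⟨K, hK, h0⟩ := hf.supp
  have hc : IsCompact (K ×ˢ Metric.sphere (0 : ℂ) 1) := hK.prod (isCompact_sphere 0 1)
  obtain ⟨C, hC⟩ := hc.exists_bound_of_continuousOn hf.cont.continuousOn
  refine ⟨max C 0, le_max_right _ _, fun z t ht => ?_⟩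
  by_cases hz : z ∈ K
  · refine (hC (z, t) ⟨hz, ?_⟩).trans (le_max_left _ _)
    simpa using ht
  · rw [h0 z hz t, norm_zero]
    exact le_max_right _ _

lemma int_ok (hB : BD μ p u K) {κ : ℂ → ℂ → ℝ} (hκ : KM K κ) {f : ℂ × ℂ → ℂ} (hf : CB f) :
    Integrable (fun x : Ω × Ω => ((κ (p x.1) (p x.2) * s2 (u x.1 / u x.2) : ℝ) : ℂ) *
      f (p x.1, u x.1 / u x.2)) (μ.prod μ) := by
  have := hB.fin
  obtain ⟨C, hC⟩ := wt_bdd hB hκ
  obtain ⟨D, hD0, hD⟩ := hf.bdd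
  refine Integrable.of_bound (C := C * D) ?_ ?_
  · refine Measurable.aestronglyMeasurable ?_
    refine Measurable.mul ?_ ?_
    · exact Complex.measurable_ofReal.comp (wt_meas hB hκ)
    · exact hf.cont.measurable.comp ((hB.mp.comp measurable_fst).prodMk (quo_meas hB))
  · filter_upwards [hC] with x hx
    have h1 := wt_nonneg (p := p) (u := u) hκ x
    have h2 := hD (p x.1) _ (quo_unit hB x)
    rw [norm_mul, Complex.norm_real, Real.norm_eq_abs]
    have h3 : |κ (p x.1) (p x.2) * s2 (u x.1 / u x.2)| = wt p u κ x := abs_of_nonneg h1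
    rw [h3]
    exact mul_le_mul hx h2 (norm_nonneg _) (h1.trans hx)

lemma XK_add (hB : BD μ p u K) {κ : ℂ → ℂ → ℝ} (hκ : KM K κ) {f g : ℂ × ℂ → ℂ} (hf : CB f)
    (hg : CB g) (c : ℂ) :
    XK μ p u κ (fun x => f x + c * g x) = XK μ p u κ f + c * XK μ p u κ g := by
  unfold XK II
  rw [← integral_const_mul, ← integral_add (int_ok hB hκ hf) ((int_ok hB hκ hg).const_mul c)]
  congr 1
  ext x
  ring

/-- the real integral -/
noncomputable def XR (μ : Measure Ω) (p u : Ω → ℂ) (κ : ℂ → ℂ → ℝ) (g : ℂ × ℂ → ℝ) : ℝ :=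
  ∫ x, κ (p x.1) (p x.2) * s2 (u x.1 / u x.2) * g (p x.1, u x.1 / u x.2) ∂(μ.prod μ)

lemma XK_real {κ : ℂ → ℂ → ℝ} (g : ℂ × ℂ → ℝ) :
    XK μ p u κ (fun x => (g x : ℂ)) = (XR μ p u κ g : ℂ) := by
  unfold XK II XR
  rw [← integral_complex_ofReal]
  congr 1
  ext x
  push_cast
  ring

lemma XR_int (hB : BD μ p u K) {κ : ℂ → ℂ → ℝ} (hκ : KM K κ) {g : ℂ × ℂ → ℝ}
    (hg : CB (fun x => (g x : ℂ))) :
    Integrable (fun x : Ω × Ω => κ (p x.1) (p x.2) * s2 (u x.1 / u x.2) *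
      g (p x.1, u x.1 / u x.2)) (μ.prod μ) := by
  have h := (int_ok hB hκ hg).re
  refine h.congr (Filter.Eventually.of_forall fun x => ?_)
  simp only [RCLike.re_to_complex]
  rw [← Complex.ofReal_mul, Complex.ofReal_re]

lemma XR_mono (hB : BD μ p u K) {κ κ' : ℂ → ℂ → ℝ} (hκ : KM K κ) (hκ' : KM K κ') {g : ℂ × ℂ → ℝ}
    (hg : CB (fun x => (g x : ℂ))) (hg0 : ∀ x, 0 ≤ g x) {c : ℝ} (h : ∀ z w, κ z w ≤ c * κ' z w) :
    XR μ p u κ g ≤ c * XR μ p u κ' g := by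
  unfold XR
  rw [← integral_const_mul]
  refine integral_mono (XR_int hB hκ hg) ((XR_int hB hκ' hg).const_mul c) fun x => ?_
  have h1 := h (p x.1) (p x.2)
  have h2 := s2_nonneg (u x.1 / u x.2)
  have h3 := hg0 (p x.1, u x.1 / u x.2)
  have h4 := mul_le_mul_of_nonneg_right (mul_le_mul_of_nonneg_right h1 h2) h3
  refine h4.trans (le_of_eq ?_)
  ring

lemma XR_nonneg {κ : ℂ → ℂ → ℝ} (hκ : KM K κ) {g : ℂ × ℂ → ℝ} (hg0 : ∀ x, 0 ≤ g x) :
    0 ≤ XR μ p u κ g :=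
  integral_nonneg fun x => mul_nonneg (mul_nonneg (hκ.nonneg _ _) (s2_nonneg _)) (hg0 _)

lemma r2_nonneg (σ : ℂ → ℝ) (z w : ℂ) : 0 ≤ r2 σ z w := by
  unfold r2
  positivity

lemma r2_cont (hσ : ContDiff ℝ ∞ σ) : Continuous (fun x : ℂ × ℂ => r2 σ x.1 x.2) := by
  have := hσ.continuous
  unfold r2
  fun_prop

lemma km_kb (hσ : ContDiff ℝ ∞ σ) (hK : IsCompact K) {β : ℝ → ℝ} (hβ : Bump β) {ε : ℝ}
    (hε : 0 < ε) : KM K (kb β σ ε) := by
  have hσc := hσ.continuous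
  have hβc := hβ.smooth.continuous
  obtain ⟨M, hM⟩ := hK.exists_bound_of_continuousOn
    (f := fun z => Real.exp (2 * σ z)) (by fun_prop)
  obtain ⟨B, hB⟩ := (isCompact_Icc (a := (0 : ℝ)) (b := 1)).exists_bound_of_continuousOn
    (f := β) hβc.continuousOn
  constructor
  · refine Continuous.measurable ?_
    have := r2_cont hσ
    unfold kb
    fun_prop
  · intro z w
    unfold kb
    have := hβ.nonneg (r2 σ z w / ε ^ 2)
    positivity
  · refine ⟨M * (B / ε ^ 2), fun z hz w => ?_⟩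
    unfold kb
    have h1 := hM z hz
    rw [Real.norm_eq_abs, abs_of_pos (Real.exp_pos _)] at h1
    have hB0 : 0 ≤ B := (norm_nonneg _).trans (hB 0 ⟨le_rfl, zero_le_one⟩)
    have h2 : β (r2 σ z w / ε ^ 2) ≤ B := by
      by_cases h : r2 σ z w / ε ^ 2 ≤ 1
      · have h3 := hB (r2 σ z w / ε ^ 2) ⟨div_nonneg (r2_nonneg _ _ _) (by positivity), h⟩
        exact (le_abs_self _).trans h3
      · rw [hβ.supp _ (not_le.1 h).le]
        exact hB0
    have h3 := hβ.nonneg (r2 σ z w / ε ^ 2)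
    exact mul_le_mul h1 (div_le_div_of_nonneg_right h2 (by positivity)) (by positivity)
      ((Real.exp_pos _).le.trans h1)

lemma km_ki (hσ : ContDiff ℝ ∞ σ) (hK : IsCompact K) {ε : ℝ} (hε : 0 < ε) : KM K (ki σ ε) := by
  have hσc := hσ.continuous
  obtain ⟨M, hM⟩ := hK.exists_bound_of_continuousOn
    (f := fun z => Real.exp (2 * σ z) / (Real.pi * ε ^ 2)) (by fun_prop)
  constructor
  · unfold ki
    refine Measurable.ite ?_ (Continuous.measurable (by fun_prop)) measurable_const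
    exact measurableSet_lt (r2_cont hσ).measurable measurable_const
  · intro z w
    unfold ki
    have := Real.pi_pos
    split_ifs
    · positivity
    · exact le_rfl
  · refine ⟨max M 0, fun z hz w => ?_⟩
    unfold ki
    split_ifs
    · exact (le_abs_self _).trans ((hM z hz).trans (le_max_left _ _))
    · exact le_max_right _ _

lemma kb_le {β : ℝ → ℝ} (hβ : Bump β) {δ : ℝ} (h1 : ∀ t, 0 ≤ t → β t ≤ (1 + δ) / Real.pi) {ε : ℝ}
    (hε : 0 < ε) (z w : ℂ) : kb β σ ε z w ≤ (1 + δ) * ki σ ε z w := by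
  have hπ := Real.pi_pos
  unfold kb ki
  split_ifs with h
  · have h2 := h1 (r2 σ z w / ε ^ 2) (div_nonneg (r2_nonneg _ _ _) (by positivity))
    have h3 : β (r2 σ z w / ε ^ 2) / ε ^ 2 ≤ (1 + δ) / Real.pi / ε ^ 2 :=
      div_le_div_of_nonneg_right h2 (by positivity)
    refine (mul_le_mul_of_nonneg_left h3 (Real.exp_pos _).le).trans (le_of_eq ?_)
    field_simp
  · rw [hβ.supp]
    · simp
    · rw [le_div_iff₀ (by positivity), one_mul]
      exact not_lt.1 h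

lemma le_kb {β : ℝ → ℝ} (hβ : Bump β) {δ : ℝ} (hδ : 0 < δ)
    (h1 : ∀ t, 0 ≤ t → t ≤ 1 / (1 + δ) → 1 / Real.pi ≤ β t) {ε : ℝ}
    (hε : 0 < ε) (z w : ℂ) : ki σ ε z w ≤ (1 + δ) * kb β σ (Real.sqrt (1 + δ) * ε) z w := by
  have hπ := Real.pi_pos
  have hs : Real.sqrt (1 + δ) ^ 2 = 1 + δ := Real.sq_sqrt (by linarith)
  have hpos : 0 < 1 + δ := by linarith
  unfold kb ki
  rw [mul_pow, hs]
  split_ifs with h
  · have h2 := h1 (r2 σ z w / ((1 + δ) * ε ^ 2)) (div_nonneg (r2_nonneg _ _ _) (by positivity)) (by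
      rw [div_le_div_iff₀ (by positivity) hpos]
      nlinarith [r2_nonneg σ z w])
    have h3 : 1 / Real.pi / ((1 + δ) * ε ^ 2) ≤
        β (r2 σ z w / ((1 + δ) * ε ^ 2)) / ((1 + δ) * ε ^ 2) :=
      div_le_div_of_nonneg_right h2 (by positivity)
    have h4 := mul_le_mul_of_nonneg_left h3 (Real.exp_pos (2 * σ z)).le
    have h5 := mul_le_mul_of_nonneg_left h4 hpos.le
    refine le_trans (le_of_eq ?_) h5
    field_simp
  · have := hβ.nonneg (r2 σ z w / ((1 + δ) * ε ^ 2))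
    positivity

lemma nonneg_case (hBmp : StmtBmp) (hB : BD μ p u K) (hK : IsCompact K) (hσ : ContDiff ℝ ∞ σ)
    {g : ℂ × ℂ → ℝ} (hg : CB (fun x => (g x : ℂ))) (hg0 : ∀ x, 0 ≤ g x) {l : ℝ}
    (h : ∀ β, Bump β → Tendsto (fun ε : ℝ => XR μ p u (kb β σ ε) g) (𝓝[>] 0) (𝓝 l)) :
    Tendsto (fun ε : ℝ => XR μ p u (ki σ ε) g) (𝓝[>] 0) (𝓝 l) := by
  have hl : 0 ≤ l := by
    obtain ⟨β, -, hβ, -, -⟩ := hBmp.1
    refine ge_of_tendsto (h β hβ) ?_
    filter_upwards [self_mem_nhdsWithin] with ε hε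
    exact XR_nonneg (km_kb hσ hK hβ hε) hg0
  rw [tendsto_order]
  constructor
  · intro a ha
    rcases lt_or_ge a 0 with ha0 | ha0
    · filter_upwards [self_mem_nhdsWithin] with ε hε
      exact ha0.trans_le (XR_nonneg (km_ki hσ hK hε) hg0)
    · obtain ⟨δ, hδ, hδ'⟩ : ∃ δ : ℝ, 0 < δ ∧ (1 + δ) * a < l := by
        refine ⟨(l - a) / (2 * (a + 1)), div_pos (by linarith) (by linarith), ?_⟩
        have h1 : (l - a) / (2 * (a + 1)) * a ≤ (l - a) / 2 := by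
          rw [div_mul_eq_mul_div, div_le_div_iff₀ (by linarith) (by norm_num)]
          nlinarith
        nlinarith
      obtain ⟨β, hβ, h1, -⟩ := hBmp.2.1 δ hδ
      filter_upwards [self_mem_nhdsWithin, (h β hβ).eventually (lt_mem_nhds hδ')] with ε hε hlt
      have h2 := XR_mono (μ := μ) (p := p) (u := u) hB (km_kb hσ hK hβ hε) (km_ki hσ hK hε) hg hg0
        (c := 1 + δ) (fun z w => kb_le hβ h1 hε z w)
      have h3 : (1 + δ) * a < (1 + δ) * XR μ p u (ki σ ε) g := hlt.trans_le h2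
      exact lt_of_mul_lt_mul_left h3 (by linarith)
  · intro b hb
    obtain ⟨δ, hδ, hδ'⟩ : ∃ δ : ℝ, 0 < δ ∧ l < b / (1 + δ) := by
      refine ⟨(b - l) / (2 * (l + 1)), div_pos (by linarith) (by linarith), ?_⟩
      have hpos : 0 < (b - l) / (2 * (l + 1)) := div_pos (by linarith) (by linarith)
      rw [lt_div_iff₀ (by linarith)]
      have h1 : l * ((b - l) / (2 * (l + 1))) ≤ (b - l) / 2 := by
        rw [mul_div_assoc', div_le_div_iff₀ (by linarith) (by norm_num)]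
        nlinarith
      nlinarith
    obtain ⟨β, hβ, -, h1⟩ := hBmp.2.1 δ hδ
    have hs : 0 < Real.sqrt (1 + δ) := Real.sqrt_pos.2 (by linarith)
    have ht : Tendsto (fun ε : ℝ => Real.sqrt (1 + δ) * ε) (𝓝[>] 0) (𝓝[>] 0) := by
      refine tendsto_nhdsWithin_iff.2 ⟨?_, ?_⟩
      · have h2 : Tendsto (fun ε : ℝ => Real.sqrt (1 + δ) * ε) (𝓝 0) (𝓝 (Real.sqrt (1 + δ) * 0)) :=
          tendsto_id.const_mul _
        rw [mul_zero] at h2
        exact h2.mono_left nhdsWithin_le_nhds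
      · filter_upwards [self_mem_nhdsWithin] with ε hε
        exact mul_pos hs hε
    have h3 := ((h β hβ).comp ht).eventually (gt_mem_nhds hδ')
    filter_upwards [self_mem_nhdsWithin, h3] with ε hε hlt
    have hε' : 0 < Real.sqrt (1 + δ) * ε := mul_pos hs hε
    have h2 := XR_mono (μ := μ) (p := p) (u := u) hB (km_ki hσ hK hε) (km_kb hσ hK hβ hε') hg hg0
      (c := 1 + δ) (fun z w => le_kb hβ hδ h1 hε z w)
    refine h2.trans_lt ?_
    have h4 : XR μ p u (kb β σ (Real.sqrt (1 + δ) * ε)) g < b / (1 + δ) := hlt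
    rw [lt_div_iff₀ (by linarith)] at h4
    linarith

/-- the limit property -/
def LP (μ : Measure Ω) (p u : Ω → ℂ) (σ : ℂ → ℝ) (f : ℂ × ℂ → ℂ) : Prop :=
  ∃ l : ℂ, (∀ β, Bump β → Tendsto (fun ε : ℝ => XK μ p u (kb β σ ε) f) (𝓝[>] 0) (𝓝 l)) ∧
    Tendsto (fun ε : ℝ => XK μ p u (ki σ ε) f) (𝓝[>] 0) (𝓝 l)

lemma LP.add (hB : BD μ p u K) (hK : IsCompact K) (hσ : ContDiff ℝ ∞ σ) {f g : ℂ × ℂ → ℂ}
    (hf : CB f) (hg : CB g) (c : ℂ) (h1 : LP μ p u σ f) (h2 : LP μ p u σ g) :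
    LP μ p u σ (fun x => f x + c * g x) := by
  obtain ⟨l, a1, a2⟩ := h1
  obtain ⟨m, b1, b2⟩ := h2
  refine ⟨l + c * m, fun β hβ => ?_, ?_⟩
  · refine ((a1 β hβ).add ((b1 β hβ).const_mul c)).congr' ?_
    filter_upwards [self_mem_nhdsWithin] with ε hε
    exact (XK_add hB (km_kb hσ hK hβ hε) hf hg c).symm
  · refine (a2.add (b2.const_mul c)).congr' ?_
    filter_upwards [self_mem_nhdsWithin] with ε hε
    exact (XK_add hB (km_ki hσ hK hε) hf hg c).symm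

lemma CB.add {f g : ℂ × ℂ → ℂ} (hf : CB f) (hg : CB g) (c : ℂ) : CB (fun x => f x + c * g x) := by
  obtain ⟨K₁, h1, h2⟩ := hf.supp
  obtain ⟨K₂, h3, h4⟩ := hg.supp
  refine ⟨hf.cont.add (hg.cont.const_mul c), K₁ ∪ K₂, h1.union h3, fun z hz t => ?_⟩
  rw [mem_union, not_or] at hz
  rw [h2 z hz.1 t, h4 z hz.2 t, mul_zero, add_zero]

lemma LP.nonneg (hBmp : StmtBmp) (hB : BD μ p u K) (hK : IsCompact K) (hσ : ContDiff ℝ ∞ σ)
    {g : ℂ × ℂ → ℝ} (hg : CB (fun x => (g x : ℂ))) (hg0 : ∀ x, 0 ≤ g x)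
    (h : ∃ l : ℂ, ∀ β, Bump β →
      Tendsto (fun ε : ℝ => XK μ p u (kb β σ ε) fun x => (g x : ℂ)) (𝓝[>] 0) (𝓝 l)) :
    LP μ p u σ (fun x => (g x : ℂ)) := by
  obtain ⟨l, hl⟩ := h
  have hre : ∀ β, Bump β → Tendsto (fun ε : ℝ => XR μ p u (kb β σ ε) g) (𝓝[>] 0) (𝓝 l.re) := by
    intro β hβ
    have h1 := (Complex.continuous_re.tendsto l).comp (hl β hβ)
    refine h1.congr fun ε => ?_
    simp only [Function.comp_apply]
    rw [XK_real, Complex.ofReal_re]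
  have h2 := nonneg_case hBmp hB hK hσ hg hg0 hre
  have hl' : l = (l.re : ℂ) := by
    obtain ⟨β, -, hβ, -, -⟩ := hBmp.1
    have h3 := (Complex.continuous_ofReal.tendsto l.re).comp (hre β hβ)
    refine tendsto_nhds_unique (hl β hβ) (h3.congr fun ε => ?_)
    simp only [Function.comp_apply]
    rw [XK_real]
  refine ⟨l, hl, ?_⟩
  rw [hl']
  have h4 := (Complex.continuous_ofReal.tendsto l.re).comp h2
  refine h4.congr fun ε => ?_
  simp only [Function.comp_apply]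
  rw [XK_real]

end

end IND

open IND in
theorem t_IND (hB : StmtBmp) : StmtInd := by
  intro V σ Ω _ μ p u hV hσ hD hall f hf l β hβ hl
  obtain ⟨K, hK, hae⟩ := hD.cpt
  have hBD : BD μ p u K := ⟨⟨lt_of_le_of_ne le_top hD.fin⟩, hD.mp, hD.mu, hD.unit, hae⟩
  obtain ⟨K₁, hK₁, hK₁V, hsupp⟩ := hf.supp
  -- the four parts
  have part : ∀ g : ℂ × ℂ → ℝ, Continuous g → (∀ z, z ∉ K₁ → ∀ t, g (z, t) = 0) →
      CB (fun x => ((max (g x) 0 : ℝ) : ℂ)) ∧ LP μ p u σ (fun x => ((max (g x) 0 : ℝ) : ℂ)) := by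
    intro g hg hg0
    have hc : Continuous (fun x => ((max (g x) 0 : ℝ) : ℂ)) := by fun_prop
    have h0 : ∀ z, z ∉ K₁ → ∀ t, ((max (g (z, t)) 0 : ℝ) : ℂ) = 0 := by
      intro z hz t
      rw [hg0 z hz t]
      simp
    refine ⟨⟨hc, K₁, hK₁, h0⟩, ?_⟩
    exact LP.nonneg hB hBD hK hσ ⟨hc, K₁, hK₁, h0⟩ (fun x => le_max_right _ _)
      (hall _ ⟨hc, K₁, hK₁, hK₁V, h0⟩)
  have hfr : Continuous (fun x => (f x).re) := Complex.continuous_re.comp hf.cont
  have hfi : Continuous (fun x => (f x).im) := Complex.continuous_im.comp hf.cont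
  obtain ⟨c1, l1⟩ := part (fun x => (f x).re) hfr (fun z hz t => by simp [hsupp z hz t])
  obtain ⟨c2, l2⟩ := part (fun x => -(f x).re) hfr.neg (fun z hz t => by simp [hsupp z hz t])
  obtain ⟨c3, l3⟩ := part (fun x => (f x).im) hfi (fun z hz t => by simp [hsupp z hz t])
  obtain ⟨c4, l4⟩ := part (fun x => -(f x).im) hfi.neg (fun z hz t => by simp [hsupp z hz t])
  have hsum := ((l1.add hBD hK hσ c1 c2 (-1) l2).add hBD hK hσ (c1.add c2 (-1)) c3 Complex.I l3).add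
    hBD hK hσ ((c1.add c2 (-1)).add c3 Complex.I) c4 (-Complex.I) l4
  have hfe : f = fun x => ((max (f x).re 0 : ℝ) : ℂ) + (-1) * ((max (-(f x).re) 0 : ℝ) : ℂ) +
      Complex.I * ((max (f x).im 0 : ℝ) : ℂ) + -Complex.I * ((max (-(f x).im) 0 : ℝ) : ℂ) := by
    funext x
    have key : ∀ r : ℝ, (r : ℂ) = ((max r 0 : ℝ) : ℂ) - ((max (-r) 0 : ℝ) : ℂ) := by
      intro r
      rw [← Complex.ofReal_sub]
      congr 1
      rcases le_total r 0 with h | h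
      · rw [max_eq_right h, max_eq_left (by linarith)]
        ring
      · rw [max_eq_left h, max_eq_right (by linarith)]
        ring
    conv_lhs => rw [← Complex.re_add_im (f x), key (f x).re, key (f x).im]
    ring
  rw [← hfe] at hsum
  obtain ⟨m, h1, h2⟩ := hsum
  rw [tendsto_nhds_unique hl (h1 β hβ)]
  exact h2

end CRM
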