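import Pool.Agent.CRM.Stmts

/-!
KBL: the kernel `kb` has the same limits as the mixed quadratic functionals.
-/

open Complex MeasureTheory Filter Topology Set
open scoped ContDiff

namespace CRM

open QE QJ U3

namespace KBL

variable {Ω : Type} [MeasurableSpace Ω] {μ : Measure Ω} {p u : Ω → ℂ} {V : Set ℂ} {σ : ℂ → ℝ}
  {β b : ℝ → ℝ} {ε : ℝ} {ζ : ℂ → ℂ} {k : ℤ}

/-! ### Algebra -/

lemma norm_ta (σ : ℂ → ℝ) (z w : ℂ) : ‖ta σ z w‖ = 1 := by
  unfold ta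
  rw [Complex.norm_exp_ofReal_mul_I]

lemma re_zpow {t : ℂ} (ht : ‖t‖ = 1) (k : ℤ) : (t ^ k).re = (t ^ k.natAbs).re := by
  obtain ⟨n, rfl | rfl⟩ := k.eq_nat_or_neg
  · rw [Int.natAbs_natCast, zpow_natCast]
  · rw [Int.natAbs_neg, Int.natAbs_natCast, zpow_neg, zpow_natCast,
      Complex.inv_eq_conj (by rw [norm_pow, ht, one_pow]), Complex.conj_re]

lemma one_sub_re {w : ℂ} (hw : ‖w‖ = 1) : 1 - w.re = ‖w - 1‖ ^ 2 / 2 := by
  have h1 : ‖w - 1‖ ^ 2 = (w.re - 1) ^ 2 + w.im ^ 2 := by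
    rw [← Complex.normSq_eq_norm_sq, Complex.normSq_apply]
    simp
    ring
  have h2 : w.re ^ 2 + w.im ^ 2 = 1 := by
    have h3 : ‖w‖ ^ 2 = 1 := by rw [hw, one_pow]
    rw [← Complex.normSq_eq_norm_sq, Complex.normSq_apply] at h3
    linarith
  rw [h1]
  linarith

lemma ck_gk (hk : Even k) {t : ℂ} (ht : ‖t‖ = 1) : 1 - ck k t = s2 t * gk k t := by
  obtain ⟨j, rfl⟩ := hk
  have e1 : (j + j).natAbs = 2 * j.natAbs := by
    rw [← two_mul, Int.natAbs_mul]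
    rfl
  have e2 : (j + j) / 2 = j := by omega
  unfold ck s2 gk
  rw [re_zpow ht, e1, e2, one_sub_re (by rw [norm_pow, ht, one_pow])]
  have h1 : t ^ (2 * j.natAbs) - 1 = (∑ i ∈ Finset.range j.natAbs, t ^ (2 * i)) * (t ^ 2 - 1) := by
    rw [pow_mul, ← geom_sum_mul]
    congr 1
    exact Finset.sum_congr rfl fun i _ => by rw [pow_mul]
  rw [h1, norm_mul]
  ring

lemma gk_nonneg (k : ℤ) (t : ℂ) : 0 ≤ gk k t := by
  unfold gk
  positivity

lemma gk_le (hk : Even k) {t : ℂ} (ht : ‖t‖ = 1) : gk k t ≤ (k : ℝ) ^ 2 := by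
  obtain ⟨j, rfl⟩ := hk
  have e2 : (j + j) / 2 = j := by omega
  unfold gk
  rw [e2]
  have h1 : ‖∑ i ∈ Finset.range j.natAbs, t ^ (2 * i)‖ ≤ (j.natAbs : ℝ) := by
    refine (norm_sum_le _ _).trans ?_
    have h2 : ∀ i ∈ Finset.range j.natAbs, ‖t ^ (2 * i)‖ = 1 := fun i _ => by
      rw [norm_pow, ht, one_pow]
    rw [Finset.sum_congr rfl h2]
    simp
  have h3 : ((j.natAbs : ℕ) : ℝ) ^ 2 = (j : ℝ) ^ 2 := by
    rw [← Int.cast_natCast, Int.natCast_natAbs, Int.cast_abs, sq_abs]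
  have h4 : ‖∑ i ∈ Finset.range j.natAbs, t ^ (2 * i)‖ ^ 2 ≤ (j : ℝ) ^ 2 := by
    rw [← h3]
    exact pow_le_pow_left₀ (norm_nonneg _) h1 2
  push_cast
  nlinarith [sq_nonneg (j : ℝ)]

lemma s2_nonneg (t : ℂ) : 0 ≤ s2 t := by
  unfold s2
  positivity

lemma s2_le {t : ℂ} (ht : ‖t‖ = 1) : s2 t ≤ 1 := by
  unfold s2
  have h1 : ‖t ^ 2 - 1‖ ≤ 2 := by
    refine (norm_sub_le _ _).trans ?_
    rw [norm_pow, ht, one_pow, norm_one]
    norm_num
  nlinarith [norm_nonneg (t ^ 2 - 1)]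

lemma norm_div_one {s t : ℂ} (hs : ‖s‖ = 1) (ht : ‖t‖ = 1) : ‖s / t‖ = 1 := by
  rw [norm_div, hs, ht, div_one]

/-! ### Continuity and measurability -/

lemma cont_ke (hβ : ContDiff ℝ ∞ β) (hσ : ContDiff ℝ ∞ σ) (ε : ℝ) :
    Continuous fun x : ℂ × ℂ => ke β σ ε x.1 x.2 := by
  have h1 := (PES.contDiff_FK hβ hσ ε 0).continuous
  have h2 := Complex.continuous_re.comp h1
  refine h2.congr fun x => ?_
  show (PES.FK β σ ε 0 x).re = _
  unfold PES.FK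
  rw [zpow_zero, mul_one, Complex.ofReal_re]

lemma cont_ta (hσ : ContDiff ℝ ∞ σ) : Continuous fun x : ℂ × ℂ => ta σ x.1 x.2 := by
  have h4 : Continuous (sg σ) := (PES.contDiff_sg hσ).continuous
  unfold ta
  refine Complex.continuous_exp.comp (Continuous.mul ?_ continuous_const)
  refine Complex.continuous_ofReal.comp (Complex.continuous_im.comp ?_)
  exact ((h4.comp continuous_fst).add (h4.comp continuous_snd)).mul
    (continuous_snd.sub continuous_fst)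

lemma cont_kb (hβ : ContDiff ℝ ∞ β) (hσ : ContDiff ℝ ∞ σ) (ε : ℝ) :
    Continuous fun x : ℂ × ℂ => kb β σ ε x.1 x.2 := by
  have h1 : Continuous fun x : ℂ × ℂ => σ x.1 := hσ.continuous.comp continuous_fst
  have h2 : Continuous fun x : ℂ × ℂ => σ x.2 := hσ.continuous.comp continuous_snd
  have h3 : Continuous fun x : ℂ × ℂ => r2 σ x.1 x.2 := by
    unfold r2
    exact (Real.continuous_exp.comp (h1.add h2)).mul
      ((continuous_snd.sub continuous_fst).norm.pow 2)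
  unfold kb
  exact (Real.continuous_exp.comp (continuous_const.mul h1)).mul
    ((hβ.continuous.comp (h3.div_const _)).div_const _)

lemma ke_nonneg (hβ : Bump β) (σ : ℂ → ℝ) (ε : ℝ) (z w : ℂ) : 0 ≤ ke β σ ε z w := by
  unfold ke gb
  have := hβ.nonneg (r2 σ z w / ε ^ 2)
  positivity

lemma meas_ck (k : ℤ) : Measurable (ck k) :=
  Complex.measurable_re.comp (measurable_id.pow_const k)

lemma cont_s2 : Continuous s2 := by
  unfold s2
  fun_prop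

lemma cont_gk (k : ℤ) : Continuous (gk k) := by
  unfold gk
  fun_prop

/-! ### The two integrands -/

/-- the integrand of the mixed functional -/
noncomputable def AA (β b : ℝ → ℝ) (σ : ℂ → ℝ) (ε : ℝ) (p u : Ω → ℂ) (ζ : ℂ → ℂ) (k : ℤ)
    (x : Ω × Ω) : ℂ :=
  ∫ z, ζ z * ((ke β σ ε z (p x.1) * ke b σ ε z (p x.2)
    * (1 - ck k (ta σ z (p x.2) / ta σ z (p x.1) * (u x.1 / u x.2))) : ℝ) : ℂ)

/-- the integrand of the functional with the kernel `kb` -/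
noncomputable def BB (β : ℝ → ℝ) (σ : ℂ → ℝ) (ε : ℝ) (p u : Ω → ℂ) (ζ : ℂ → ℂ) (k : ℤ)
    (x : Ω × Ω) : ℂ :=
  (kb β σ ε (p x.1) (p x.2) * s2 (u x.1 / u x.2) : ℝ) * (ζ (p x.1) * (gk k (u x.1 / u x.2) : ℂ))

lemma meas_ke (hβ : ContDiff ℝ ∞ β) (hσ : ContDiff ℝ ∞ σ) (ε : ℝ) {Y : Type}
    [MeasurableSpace Y] {f g : Y → ℂ} (hf : Measurable f) (hg : Measurable g) :
    Measurable fun y => ke β σ ε (f y) (g y) :=
  (cont_ke hβ hσ ε).measurable.comp (f := fun y => (f y, g y)) (hf.prodMk hg)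

lemma meas_ta (hσ : ContDiff ℝ ∞ σ) {Y : Type}
    [MeasurableSpace Y] {f g : Y → ℂ} (hf : Measurable f) (hg : Measurable g) :
    Measurable fun y => ta σ (f y) (g y) :=
  Measurable.comp (g := fun x : ℂ × ℂ => ta σ x.1 x.2) (f := fun y => (f y, g y))
    (cont_ta hσ).measurable (hf.prodMk hg)

lemma meas_kb (hβ : ContDiff ℝ ∞ β) (hσ : ContDiff ℝ ∞ σ) (ε : ℝ) {Y : Type}
    [MeasurableSpace Y] {f g : Y → ℂ} (hf : Measurable f) (hg : Measurable g) :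
    Measurable fun y => kb β σ ε (f y) (g y) :=
  Measurable.comp (g := fun x : ℂ × ℂ => kb β σ ε x.1 x.2) (f := fun y => (f y, g y))
    (cont_kb hβ hσ ε).measurable (hf.prodMk hg)

lemma meas_ckc (k : ℤ) {Y : Type} [MeasurableSpace Y] {f : Y → ℂ} (hf : Measurable f) :
    Measurable fun y => ck k (f y) :=
  Measurable.comp (g := ck k) (f := f) (meas_ck k) hf

/-- the integrand of the integrand -/
noncomputable def AI (β b : ℝ → ℝ) (σ : ℂ → ℝ) (ε : ℝ) (p u : Ω → ℂ) (ζ : ℂ → ℂ) (k : ℤ)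
    (q : (Ω × Ω) × ℂ) : ℂ :=
  ζ q.2 * ((ke β σ ε q.2 (p q.1.1) * ke b σ ε q.2 (p q.1.2)
    * (1 - ck k (ta σ q.2 (p q.1.2) / ta σ q.2 (p q.1.1) * (u q.1.1 / u q.1.2))) : ℝ) : ℂ)

lemma meas_AI (hβ : ContDiff ℝ ∞ β) (hb : ContDiff ℝ ∞ b) (hσ : ContDiff ℝ ∞ σ)
    (hp : Measurable p) (hu : Measurable u) (hζ : Continuous ζ) :
    Measurable (AI β b σ ε p u ζ k) := by
  have m1 : Measurable fun q : (Ω × Ω) × ℂ => p q.1.1 :=
    hp.comp (measurable_fst.comp measurable_fst)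
  have m2 : Measurable fun q : (Ω × Ω) × ℂ => p q.1.2 :=
    hp.comp (measurable_snd.comp measurable_fst)
  have m3 : Measurable fun q : (Ω × Ω) × ℂ => u q.1.1 / u q.1.2 :=
    (hu.comp (measurable_fst.comp measurable_fst)).div
      (hu.comp (measurable_snd.comp measurable_fst))
  have m4 : Measurable fun q : (Ω × Ω) × ℂ => q.2 := measurable_snd
  have k1 := meas_ke hβ hσ ε m4 m1
  have k2 := meas_ke hb hσ ε m4 m2
  have k3 := meas_ta hσ m4 m2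
  have k4 := meas_ta hσ m4 m1
  have k5 := meas_ckc k ((k3.div k4).mul m3)
  have k7 := (k1.mul k2).mul (measurable_const (a := (1 : ℝ)) |>.sub k5)
  have k8 : Measurable fun q : (Ω × Ω) × ℂ => ζ q.2 := hζ.measurable.comp m4
  exact k8.mul (Complex.measurable_ofReal.comp k7)

lemma meas_AA (hβ : ContDiff ℝ ∞ β) (hb : ContDiff ℝ ∞ b) (hσ : ContDiff ℝ ∞ σ)
    (hp : Measurable p) (hu : Measurable u) (hζ : Continuous ζ) :
    StronglyMeasurable (AA β b σ ε p u ζ k) :=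
  StronglyMeasurable.integral_prod_right' (ν := (volume : Measure ℂ))
    (meas_AI hβ hb hσ hp hu hζ).stronglyMeasurable

lemma meas_BB (hβ : ContDiff ℝ ∞ β) (hσ : ContDiff ℝ ∞ σ) (hp : Measurable p)
    (hu : Measurable u) (hζ : Continuous ζ) : Measurable (BB β σ ε p u ζ k) := by
  have m1 : Measurable fun q : Ω × Ω => p q.1 := hp.comp measurable_fst
  have m2 : Measurable fun q : Ω × Ω => p q.2 := hp.comp measurable_snd
  have m3 : Measurable fun q : Ω × Ω => u q.1 / u q.2 :=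
    (hu.comp measurable_fst).div (hu.comp measurable_snd)
  have k1 := meas_kb hβ hσ ε m1 m2
  have k2 : Measurable fun q : Ω × Ω => s2 (u q.1 / u q.2) := cont_s2.measurable.comp m3
  have k3 : Measurable fun q : Ω × Ω => gk k (u q.1 / u q.2) := (cont_gk k).measurable.comp m3
  exact (Complex.measurable_ofReal.comp (k1.mul k2)).mul
    ((hζ.measurable.comp m1).mul (Complex.measurable_ofReal.comp k3))

/-! ### The estimate at a pair of points -/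

lemma cont_kel (hβ : ContDiff ℝ ∞ β) (hσ : ContDiff ℝ ∞ σ) (ε : ℝ) (w : ℂ) :
    Continuous fun y : ℂ => ke β σ ε y w :=
  Continuous.comp (g := fun x : ℂ × ℂ => ke β σ ε x.1 x.2) (f := fun y => (y, w))
    (cont_ke hβ hσ ε) (continuous_id.prodMk continuous_const)

lemma cont_tal (hσ : ContDiff ℝ ∞ σ) (w : ℂ) : Continuous fun y : ℂ => ta σ y w :=
  Continuous.comp (g := fun x : ℂ × ℂ => ta σ x.1 x.2) (f := fun y => (y, w))
    (cont_ta hσ) (continuous_id.prodMk continuous_const)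

lemma cont_ckq (hσ : ContDiff ℝ ∞ σ) (k : ℤ) (z w : ℂ) {t : ℂ} (ht : ‖t‖ = 1) :
    Continuous fun y : ℂ => ck k (ta σ y w / ta σ y z * t) := by
  have h0 : ∀ y, ta σ y z ≠ 0 := fun y => by
    rw [← norm_ne_zero_iff, norm_ta]
    norm_num
  have h1 : Continuous fun y : ℂ => ta σ y w / ta σ y z * t :=
    ((cont_tal hσ w).div (cont_tal hσ z) h0).mul continuous_const
  have h2 : ∀ y, ta σ y w / ta σ y z * t ≠ 0 := fun y => by
    rw [← norm_ne_zero_iff, norm_mul, norm_div, norm_ta, norm_ta, ht]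
    norm_num
  have h3 : Continuous fun y : ℂ => (ta σ y w / ta σ y z * t) ^ k :=
    h1.zpow₀ k fun y => Or.inl (h2 y)
  exact Complex.continuous_re.comp h3

lemma pointwise (hβ : Bump β) (hb : Bump b) (hσ : ContDiff ℝ ∞ σ) (hζ : Continuous ζ)
    (hζc : HasCompactSupport ζ) (hk : Even k) (hu : ∀ o, ‖u o‖ = 1) {C C₃ s : ℝ} (x : Ω × Ω)
    (hC : 0 ≤ C) (hC3 : 0 ≤ C₃) (hs : 0 ≤ C * (s + ε) / ε ^ 2)
    (h3 : ∀ q t : ℂ, ‖q‖ = 1 → ‖t‖ = 1 →
      |ck k (q * t) - ck k t| ≤ C₃ * (‖q - 1‖ * Real.sqrt (s2 t) + ‖q - 1‖ ^ 2))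
    (q1 : ‖(∫ y, ζ y * ((ke β σ ε y (p x.1) * ke b σ ε y (p x.2) : ℝ) : ℂ))
      - ζ (p x.1) * (kb β σ ε (p x.1) (p x.2) : ℂ)‖ ≤ C * (s + ε) / ε ^ 2)
    (q2 : (∫ y, ‖ζ y‖ * (ke β σ ε y (p x.1) * ke b σ ε y (p x.2))) ≤ C / ε ^ 2)
    (q4 : ∀ y, ζ y * ((ke β σ ε y (p x.1) * ke b σ ε y (p x.2) : ℝ) : ℂ) ≠ 0 →
      ‖ta σ y (p x.2) / ta σ y (p x.1) - 1‖ ≤ C * ε) (hε : 0 < ε) :
    ‖AA β b σ ε p u ζ k x - BB β σ ε p u ζ k x‖ ≤
      C / ε ^ 2 * (C₃ * (C * ε * Real.sqrt (s2 (u x.1 / u x.2)) + (C * ε) ^ 2))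
        + C * (s + ε) / ε ^ 2 * (s2 (u x.1 / u x.2) * (k : ℝ) ^ 2) := by
  have ht : ‖u x.1 / u x.2‖ = 1 := norm_div_one (hu _) (hu _)
  unfold AA BB
  generalize p x.1 = z at *
  generalize p x.2 = w at *
  generalize u x.1 / u x.2 = t at *
  set I : ℂ → ℂ := fun y => ζ y * ((ke β σ ε y z * ke b σ ε y w : ℝ) : ℂ) with hI
  set B : ℝ := C₃ * (C * ε * Real.sqrt (s2 t) + (C * ε) ^ 2) with hB
  have hB0 : 0 ≤ B := by positivity
  have hIc : Continuous I := hζ.mul (Complex.continuous_ofReal.comp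
    ((cont_kel hβ.smooth hσ ε z).mul (cont_kel hb.smooth hσ ε w)))
  have hIs : HasCompactSupport I := hζc.mul_right
  have hIi : Integrable I := hIc.integrable_of_hasCompactSupport hIs
  have hc1 : Continuous fun y : ℂ => ((1 - ck k (ta σ y w / ta σ y z * t) : ℝ) : ℂ) :=
    Complex.continuous_ofReal.comp (continuous_const.sub (cont_ckq hσ k z w ht))
  have hI1 : Integrable fun y => I y * ((1 - ck k (ta σ y w / ta σ y z * t) : ℝ) : ℂ) :=
    (hIc.mul hc1).integrable_of_hasCompactSupport hIs.mul_right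
  have e1 : (∫ y, ζ y * ((ke β σ ε y z * ke b σ ε y w
      * (1 - ck k (ta σ y w / ta σ y z * t)) : ℝ) : ℂ)) =
        ∫ y, I y * ((1 - ck k (ta σ y w / ta σ y z * t) : ℝ) : ℂ) := by
    refine integral_congr_ae (Filter.Eventually.of_forall fun y => ?_)
    simp only [hI]
    push_cast
    ring
  have e2 : ((kb β σ ε z w * s2 t : ℝ) : ℂ) * (ζ z * (gk k t : ℂ)) =
      ζ z * (kb β σ ε z w : ℂ) * ((1 - ck k t : ℝ) : ℂ) := by
    rw [ck_gk hk ht]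
    push_cast
    ring
  rw [e1, e2]
  have e3 : (∫ y, I y * ((1 - ck k (ta σ y w / ta σ y z * t) : ℝ) : ℂ))
      - (∫ y, I y) * ((1 - ck k t : ℝ) : ℂ) =
        ∫ y, I y * ((ck k t - ck k (ta σ y w / ta σ y z * t) : ℝ) : ℂ) := by
    rw [← integral_mul_const, ← integral_sub hI1 (hIi.mul_const _)]
    refine integral_congr_ae (Filter.Eventually.of_forall fun y => ?_)
    simp only
    push_cast
    ring
  have e4 : ‖∫ y, I y * ((ck k t - ck k (ta σ y w / ta σ y z * t) : ℝ) : ℂ)‖ ≤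
      C / ε ^ 2 * B := by
    have hbd : Integrable fun y => ‖ζ y‖ * (ke β σ ε y z * ke b σ ε y w) * B := by
      refine Continuous.integrable_of_hasCompactSupport ?_ ?_
      · exact (hζ.norm.mul ((cont_kel hβ.smooth hσ ε z).mul
          (cont_kel hb.smooth hσ ε w))).mul continuous_const
      · exact (hζc.norm.mul_right).mul_right
    refine (norm_integral_le_of_norm_le hbd (Filter.Eventually.of_forall fun y => ?_)).trans ?_
    · rw [norm_mul, Complex.norm_real, Real.norm_eq_abs]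
      have hk0 : 0 ≤ ke β σ ε y z * ke b σ ε y w :=
        mul_nonneg (ke_nonneg hβ σ ε y z) (ke_nonneg hb σ ε y w)
      have n1 : ‖I y‖ = ‖ζ y‖ * (ke β σ ε y z * ke b σ ε y w) := by
        simp only [hI]
        rw [norm_mul, Complex.norm_real, Real.norm_eq_abs, abs_of_nonneg hk0]
      by_cases hy : I y = 0
      · rw [hy, norm_zero, zero_mul]
        positivity
      · rw [n1]
        have n2 := q4 y hy
        have n3 := h3 (ta σ y w / ta σ y z) t (norm_div_one (norm_ta _ _ _) (norm_ta _ _ _)) ht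
        rw [abs_sub_comm]
        refine mul_le_mul_of_nonneg_left (n3.trans ?_) (by positivity)
        refine mul_le_mul_of_nonneg_left (add_le_add ?_ ?_) hC3
        · exact mul_le_mul_of_nonneg_right n2 (Real.sqrt_nonneg _)
        · exact pow_le_pow_left₀ (norm_nonneg _) n2 2
    · rw [integral_mul_const]
      exact mul_le_mul_of_nonneg_right q2 hB0
  have e5 : (∫ y, I y * ((1 - ck k (ta σ y w / ta σ y z * t) : ℝ) : ℂ))
      - ζ z * (kb β σ ε z w : ℂ) * ((1 - ck k t : ℝ) : ℂ) =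
      ((∫ y, I y * ((1 - ck k (ta σ y w / ta σ y z * t) : ℝ) : ℂ))
        - (∫ y, I y) * ((1 - ck k t : ℝ) : ℂ))
      + ((∫ y, I y) - ζ z * (kb β σ ε z w : ℂ)) * ((1 - ck k t : ℝ) : ℂ) := by ring
  rw [e5, e3]
  refine (norm_add_le _ _).trans (add_le_add e4 ?_)
  rw [norm_mul, Complex.norm_real, Real.norm_eq_abs, ck_gk hk ht,
    abs_of_nonneg (mul_nonneg (s2_nonneg t) (gk_nonneg k t))]
  exact mul_le_mul q1 (mul_le_mul_of_nonneg_left (gk_le hk ht) (s2_nonneg t))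
    (mul_nonneg (s2_nonneg t) (gk_nonneg k t)) hs

/-- outside of the pairs of close points both integrands vanish -/
lemma outside {x : Ω × Ω}
    (h : ¬ ((∃ y, ζ y * ((ke β σ ε y (p x.1) * ke b σ ε y (p x.2) : ℝ) : ℂ) ≠ 0) ∨
      ζ (p x.1) * (kb β σ ε (p x.1) (p x.2) : ℂ) ≠ 0)) :
    AA β b σ ε p u ζ k x - BB β σ ε p u ζ k x = 0 := by
  rw [not_or] at h
  obtain ⟨h1, h2⟩ := h
  rw [not_not] at h2
  have h3 : ∀ y, ζ y * ((ke β σ ε y (p x.1) * ke b σ ε y (p x.2) : ℝ) : ℂ) = 0 := by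
    intro y
    by_contra h4
    exact h1 ⟨y, h4⟩
  have e1 : AA β b σ ε p u ζ k x = 0 := by
    unfold AA
    have e3 : ∀ y, ζ y * ((ke β σ ε y (p x.1) * ke b σ ε y (p x.2)
        * (1 - ck k (ta σ y (p x.2) / ta σ y (p x.1) * (u x.1 / u x.2))) : ℝ) : ℂ) = 0 := by
      intro y
      rw [Complex.ofReal_mul, ← mul_assoc, h3 y, zero_mul]
    simp only [e3, integral_zero]
  have e2 : BB β σ ε p u ζ k x = 0 := by
    unfold BB
    have e4 : ((kb β σ ε (p x.1) (p x.2) * s2 (u x.1 / u x.2) : ℝ) : ℂ)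
        * (ζ (p x.1) * (gk k (u x.1 / u x.2) : ℂ)) =
        ζ (p x.1) * (kb β σ ε (p x.1) (p x.2) : ℂ) * ((s2 (u x.1 / u x.2) : ℂ)
          * (gk k (u x.1 / u x.2) : ℂ)) := by
      push_cast
      ring
    rw [e4, h2, zero_mul]
  rw [e1, e2, sub_zero]

/-! ### Integration -/

lemma meas_GG (hp : Measurable p) {K : Set ℂ} (hK : IsCompact K) (r : ℝ) :
    MeasurableSet {x : Ω × Ω | p x.1 ∈ K ∧ ‖p x.1 - p x.2‖ ≤ r} := by
  have m1 : Measurable fun q : Ω × Ω => p q.1 := hp.comp measurable_fst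
  have m2 : Measurable fun q : Ω × Ω => p q.2 := hp.comp measurable_snd
  exact (m1 hK.measurableSet).inter (measurableSet_le (m1.sub m2).norm measurable_const)

lemma meas_s2u (hu : Measurable u) : Measurable fun x : Ω × Ω => s2 (u x.1 / u x.2) :=
  cont_s2.measurable.comp ((hu.comp measurable_fst).div (hu.comp measurable_snd))

lemma int_BB [IsFiniteMeasure μ] (hβ : Bump β) (hσ : ContDiff ℝ ∞ σ) (hp : Measurable p)
    (hu : Measurable u) (hu1 : ∀ o, ‖u o‖ = 1) (hζ : Continuous ζ) (hk : Even k)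
    {K₀ : Set ℂ} (hK : IsCompact K₀) (hpK : ∀ᵐ o ∂μ, p o ∈ K₀) :
    Integrable (BB β σ ε p u ζ k) (μ.prod μ) := by
  have hae : ∀ᵐ x ∂(μ.prod μ), p x.1 ∈ K₀ ∧ p x.2 ∈ K₀ :=
    (Measure.quasiMeasurePreserving_fst.ae hpK).and (Measure.quasiMeasurePreserving_snd.ae hpK)
  have h1 : Continuous fun x : ℂ × ℂ => ((kb β σ ε x.1 x.2 : ℝ) : ℂ) * ζ x.1 :=
    (Complex.continuous_ofReal.comp (cont_kb hβ.smooth hσ ε)).mul (hζ.comp continuous_fst)
  obtain ⟨M, hM⟩ := (hK.prod hK).exists_bound_of_continuousOn h1.continuousOn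
  refine Integrable.of_bound (meas_BB hβ.smooth hσ hp hu hζ).aestronglyMeasurable
    (M * (k : ℝ) ^ 2) ?_
  filter_upwards [hae] with x hx
  have ht : ‖u x.1 / u x.2‖ = 1 := norm_div_one (hu1 _) (hu1 _)
  have h2 := hM (p x.1, p x.2) hx
  have e1 : BB β σ ε p u ζ k x = ((kb β σ ε (p x.1) (p x.2) : ℝ) : ℂ) * ζ (p x.1)
      * ((s2 (u x.1 / u x.2) * gk k (u x.1 / u x.2) : ℝ) : ℂ) := by
    unfold BB
    push_cast
    ring
  have h3 : s2 (u x.1 / u x.2) * gk k (u x.1 / u x.2) ≤ 1 * (k : ℝ) ^ 2 :=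
    mul_le_mul (s2_le ht) (gk_le hk ht) (gk_nonneg _ _) zero_le_one
  rw [e1, norm_mul, Complex.norm_real, Real.norm_eq_abs,
    abs_of_nonneg (mul_nonneg (s2_nonneg _) (gk_nonneg _ _))]
  rw [one_mul] at h3
  exact mul_le_mul h2 h3 (mul_nonneg (s2_nonneg _) (gk_nonneg _ _)) ((norm_nonneg _).trans h2)

/-- the difference of the two functionals -/
lemma diff_le [IsFiniteMeasure μ] (hβ : Bump β) (hb : Bump b) (hσ : ContDiff ℝ ∞ σ)
    (hp : Measurable p) (hu : Measurable u) (hu1 : ∀ o, ‖u o‖ = 1) (hζ : Continuous ζ)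
    (hk : Even k) {K₀ K : Set ℂ} (hK₀ : IsCompact K₀) (hpK : ∀ᵐ o ∂μ, p o ∈ K₀)
    (hK : IsCompact K) {α γ r A S : ℝ} (hα : 0 ≤ α) (hγ : 0 ≤ γ)
    (hA : ((μ.prod μ) {x : Ω × Ω | p x.1 ∈ K ∧ ‖p x.1 - p x.2‖ ≤ r}).toReal ≤ A)
    (hS : ∫ x in {x : Ω × Ω | p x.1 ∈ K ∧ ‖p x.1 - p x.2‖ ≤ r}, s2 (u x.1 / u x.2) ∂(μ.prod μ) ≤ S)
    (h : ∀ x : Ω × Ω, p x.1 ∈ K₀ → p x.2 ∈ K₀ →
      ‖AA β b σ ε p u ζ k x - BB β σ ε p u ζ k x‖ ≤
        {x : Ω × Ω | p x.1 ∈ K ∧ ‖p x.1 - p x.2‖ ≤ r}.indicator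
          (fun x => α * s2 (u x.1 / u x.2) + γ) x) :
    ‖(∫ x, AA β b σ ε p u ζ k x ∂(μ.prod μ)) - ∫ x, BB β σ ε p u ζ k x ∂(μ.prod μ)‖ ≤
      α * S + γ * A := by
  have hae : ∀ᵐ x ∂(μ.prod μ), p x.1 ∈ K₀ ∧ p x.2 ∈ K₀ :=
    (Measure.quasiMeasurePreserving_fst.ae hpK).and (Measure.quasiMeasurePreserving_snd.ae hpK)
  have hG := meas_GG hp hK r
  set G : Set (Ω × Ω) := {x : Ω × Ω | p x.1 ∈ K ∧ ‖p x.1 - p x.2‖ ≤ r} with hGd
  have hs1 : ∀ x : Ω × Ω, s2 (u x.1 / u x.2) ≤ 1 := fun x => s2_le (norm_div_one (hu1 _) (hu1 _))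
  have his : Integrable (fun x : Ω × Ω => s2 (u x.1 / u x.2)) (μ.prod μ) := by
    refine Integrable.of_bound (meas_s2u hu).aestronglyMeasurable 1 ?_
    filter_upwards with x
    rw [Real.norm_eq_abs, abs_of_nonneg (s2_nonneg _)]
    exact hs1 x
  have hiR : Integrable (fun x : Ω × Ω => α * s2 (u x.1 / u x.2) + γ) (μ.prod μ) :=
    (his.const_mul α).add (integrable_const γ)
  have hiB := int_BB (μ := μ) (ε := ε) hβ hσ hp hu hu1 hζ hk hK₀ hpK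
  have hm : AEStronglyMeasurable (fun x => AA β b σ ε p u ζ k x - BB β σ ε p u ζ k x)
      (μ.prod μ) :=
    ((meas_AA hβ.smooth hb.smooth hσ hp hu hζ).aestronglyMeasurable).sub
      (meas_BB hβ.smooth hσ hp hu hζ).aestronglyMeasurable
  have hb1 : ∀ᵐ x ∂(μ.prod μ), ‖AA β b σ ε p u ζ k x - BB β σ ε p u ζ k x‖ ≤
      G.indicator (fun x => α * s2 (u x.1 / u x.2) + γ) x := by
    filter_upwards [hae] with x hx
    exact h x hx.1 hx.2
  have hiI : Integrable (G.indicator fun x => α * s2 (u x.1 / u x.2) + γ) (μ.prod μ) :=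
    hiR.indicator hG
  have hiD : Integrable (fun x => AA β b σ ε p u ζ k x - BB β σ ε p u ζ k x) (μ.prod μ) :=
    hiI.mono' hm hb1
  have hiA : Integrable (AA β b σ ε p u ζ k) (μ.prod μ) := by
    have h1 := hiD.add hiB
    refine h1.congr (Filter.Eventually.of_forall fun x => ?_)
    show AA β b σ ε p u ζ k x - BB β σ ε p u ζ k x + BB β σ ε p u ζ k x = _
    ring
  rw [← integral_sub hiA hiB]
  refine (norm_integral_le_of_norm_le hiI hb1).trans ?_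
  rw [integral_indicator hG, integral_add (his.const_mul α).integrableOn
    (integrable_const γ).integrableOn, integral_const_mul, setIntegral_const, smul_eq_mul]
  refine add_le_add (mul_le_mul_of_nonneg_left hS hα) ?_
  rw [mul_comm]
  exact mul_le_mul_of_nonneg_left hA hγ

lemma sqrt_le {a r : ℝ} (ha : 0 ≤ a) (hr : 0 < r) : Real.sqrt a ≤ a / (2 * r) + r / 2 := by
  have h1 := Real.sq_sqrt ha
  have h2 : a / (2 * r) + r / 2 = (Real.sqrt a ^ 2 + r ^ 2) / (2 * r) := by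
    rw [h1]
    field_simp
  rw [h2, le_div_iff₀ (by positivity)]
  nlinarith [sq_nonneg (Real.sqrt a - r)]

end KBL

open KBL in
/-- KBL -/
theorem t_KBL (hB : StmtBmp) (hT : StmtTph) (hK : StmtKcp) (hF : StmtFbn) : StmtKbl := by
  intro V σ Ω _ μ p u ζ k l hV hσ hD hP hζ hk hL β hβ
  haveI : IsFiniteMeasure μ := ⟨lt_top_iff_ne_top.2 hD.fin⟩
  obtain ⟨K₀, hK₀, hpK⟩ := hD.cpt
  obtain ⟨C', ε₀, K, hε₀, hKc, hKV, hQ⟩ := hK β β σ V K₀ ζ hβ hβ hσ hζ hV hK₀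
  obtain ⟨C₁', ε₁, hε₁, hm⟩ := hP.mass K hKc hKV
  obtain ⟨C₂', ε₂, hε₂, hs⟩ := hP.sine K hKc hKV
  obtain ⟨C₃', h3⟩ := hT k
  obtain ⟨C, hC1, hCC⟩ : ∃ C : ℝ, 1 ≤ C ∧ C' ≤ C := ⟨max C' 1, le_max_right _ _, le_max_left _ _⟩
  obtain ⟨C₁, hC10, hCC1⟩ : ∃ C : ℝ, 0 ≤ C ∧ C₁' ≤ C := ⟨max C₁' 0, le_max_right _ _, le_max_left _ _⟩
  obtain ⟨C₂, hC20, hCC2⟩ : ∃ C : ℝ, 0 ≤ C ∧ C₂' ≤ C := ⟨max C₂' 0, le_max_right _ _, le_max_left _ _⟩
  obtain ⟨C₃, hC30, hCC3⟩ : ∃ C : ℝ, 0 ≤ C ∧ C₃' ≤ C := ⟨max C₃' 0, le_max_right _ _, le_max_left _ _⟩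
  have hC0 : 0 < C := by linarith
  have h3' : ∀ q t : ℂ, ‖q‖ = 1 → ‖t‖ = 1 →
      |ck k (q * t) - ck k t| ≤ C₃ * (‖q - 1‖ * Real.sqrt (s2 t) + ‖q - 1‖ ^ 2) := by
    intro q t hq ht
    refine (h3 q t hq ht).trans (mul_le_mul_of_nonneg_right hCC3 ?_)
    positivity
  set D : ℝ := C₂ * C₃ * C ^ 4 + C ^ 3 * C₂ * (k : ℝ) ^ 2 + C ^ 3 * C₃ * C₁ + C ^ 4 * C₃ * C₁
    with hDd
  have hD0 : 0 ≤ D := by positivity
  have key : ∀ ε s : ℝ, 0 < ε → ε < ε₀ → C * ε < ε₁ → C * ε < ε₂ → 0 < s → s ≤ 1 →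
      ‖(∫ z, ζ z * ((mx β (sc β s) σ ε μ p u 0 z - mx β (sc β s) σ ε μ p u k z : ℝ) : ℂ))
        - XK μ p u (kb β σ ε) (fun x => ζ x.1 * (gk k x.2 : ℂ))‖
        ≤ D * (s + ε + Real.sqrt ε) := by
    intro ε s hε hε0 hε1 hε2 hs0 hs1
    have hbs : Bump (sc β s) := hB.2.2.2 β s hβ hs0 hs1
    have eS : (∫ z, ζ z * ((mx β (sc β s) σ ε μ p u 0 z
        - mx β (sc β s) σ ε μ p u k z : ℝ) : ℂ)) =
          ∫ x, AA β (sc β s) σ ε p u ζ k x ∂(μ.prod μ) :=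
      hF V σ Ω μ p u β (sc β s) ζ ε k hσ hD hβ hbs hζ hε
    have eX : XK μ p u (kb β σ ε) (fun x => ζ x.1 * (gk k x.2 : ℂ)) =
        ∫ x, BB β σ ε p u ζ k x ∂(μ.prod μ) := rfl
    rw [eS, eX]
    obtain ⟨r, hr, hr2⟩ : ∃ r : ℝ, 0 < r ∧ r ^ 2 = ε :=
      ⟨Real.sqrt ε, Real.sqrt_pos.2 hε, Real.sq_sqrt hε.le⟩
    have hrs : Real.sqrt ε = r := by rw [← hr2, Real.sqrt_sq hr.le]
    rw [hrs]
    have hA := hm (C * ε) (by positivity) hε1
    have hS := hs (C * ε) (by positivity) hε2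
    have hA' : ((μ.prod μ) {x : Ω × Ω | p x.1 ∈ K ∧ ‖p x.1 - p x.2‖ ≤ C * ε}).toReal
        ≤ C₁ * (C * ε) := hA.trans (mul_le_mul_of_nonneg_right hCC1 (by positivity))
    have hS' : ∫ x in {x : Ω × Ω | p x.1 ∈ K ∧ ‖p x.1 - p x.2‖ ≤ C * ε},
        s2 (u x.1 / u x.2) ∂(μ.prod μ) ≤ C₂ * (C * ε) ^ 2 :=
      hS.trans (mul_le_mul_of_nonneg_right hCC2 (by positivity))
    set α : ℝ := C / ε ^ 2 * (C₃ * (C * ε / (2 * r))) + C * (s + ε) / ε ^ 2 * (k : ℝ) ^ 2 with hα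
    set γ : ℝ := C / ε ^ 2 * (C₃ * (C * ε * r / 2 + (C * ε) ^ 2)) with hγ
    have hα0 : 0 ≤ α := by positivity
    have hγ0 : 0 ≤ γ := by positivity
    have hmain := diff_le (μ := μ) (ε := ε) (ζ := ζ) (k := k) hβ hbs hσ hD.mp hD.mu hD.unit
      hζ.smooth.continuous hk hK₀ hpK hKc hα0 hγ0 hA' hS' (by
        intro x hx1 hx2
        obtain ⟨q1, q2, q3, q4⟩ := hQ ε s hε hε0 hs0 hs1 (p x.1) hx1 (p x.2) hx2
        by_cases hx : x ∈ {x : Ω × Ω | p x.1 ∈ K ∧ ‖p x.1 - p x.2‖ ≤ C * ε}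
        · rw [indicator_of_mem hx]
          have q1' := q1.trans (show C' * (s + ε) / ε ^ 2 ≤ C * (s + ε) / ε ^ 2 by gcongr)
          have q2' := q2.trans (show C' / ε ^ 2 ≤ C / ε ^ 2 by gcongr)
          have q4' : ∀ y, ζ y * ((ke β σ ε y (p x.1) * ke (sc β s) σ ε y (p x.2) : ℝ) : ℂ) ≠ 0 →
              ‖ta σ y (p x.2) / ta σ y (p x.1) - 1‖ ≤ C * ε := fun y hy =>
            (q4 y hy).trans (mul_le_mul_of_nonneg_right hCC hε.le)
          refine (pointwise hβ hbs hσ hζ.smooth.continuous hζ.supp hk hD.unit x hC0.le hC30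
            (by positivity) h3' q1' q2' q4' hε).trans ?_
          have h5 := sqrt_le (s2_nonneg (u x.1 / u x.2)) hr
          have h6 : C / ε ^ 2 * (C₃ * (C * ε * Real.sqrt (s2 (u x.1 / u x.2)) + (C * ε) ^ 2)) ≤
              C / ε ^ 2 * (C₃ * (C * ε * (s2 (u x.1 / u x.2) / (2 * r) + r / 2)
                + (C * ε) ^ 2)) := by gcongr
          refine (add_le_add h6 le_rfl).trans (le_of_eq ?_)
          rw [hα, hγ]
          ring
        · rw [indicator_of_notMem hx, outside, norm_zero]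
          intro h7
          obtain ⟨h8, h9⟩ := q3 h7
          exact hx ⟨h8, h9.trans (mul_le_mul_of_nonneg_right hCC hε.le)⟩)
    refine hmain.trans ?_
    have e7 : α * (C₂ * (C * ε) ^ 2) + γ * (C₁ * (C * ε)) =
        C₂ * C₃ * C ^ 4 * (r / 2) + C ^ 3 * C₂ * (k : ℝ) ^ 2 * (s + ε)
          + C ^ 3 * C₃ * C₁ * (r / 2) + C ^ 4 * C₃ * C₁ * ε := by
      rw [hα, hγ, ← hr2]
      field_simp
      ring
    rw [e7, hDd]
    have p1 : 0 ≤ C₂ * C₃ * C ^ 4 := by positivity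
    have p2 : 0 ≤ C ^ 3 * C₂ * (k : ℝ) ^ 2 := by positivity
    have p3 : 0 ≤ C ^ 3 * C₃ * C₁ := by positivity
    have p4 : 0 ≤ C ^ 4 * C₃ * C₁ := by positivity
    have w1 : r / 2 ≤ s + ε + r := by linarith
    have w2 : s + ε ≤ s + ε + r := by linarith
    have w3 : ε ≤ s + ε + r := by linarith
    have m1 := mul_le_mul_of_nonneg_left w1 p1
    have m2 := mul_le_mul_of_nonneg_left w2 p2
    have m3 := mul_le_mul_of_nonneg_left w1 p3
    have m4 := mul_le_mul_of_nonneg_left w3 p4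
    linarith
  rw [Metric.tendsto_nhds]
  intro η hη
  obtain ⟨s, hs0, hs1, hsD⟩ : ∃ s : ℝ, 0 < s ∧ s ≤ 1 ∧ D * s < η / 3 := by
    refine ⟨min 1 (η / (3 * (D + 1))), by positivity, min_le_left _ _, ?_⟩
    have h1 : D * min 1 (η / (3 * (D + 1))) ≤ D * (η / (3 * (D + 1))) :=
      mul_le_mul_of_nonneg_left (min_le_right _ _) hD0
    have h2 : D * (η / (3 * (D + 1))) < η / 3 := by
      rw [mul_div_assoc', div_lt_div_iff₀ (by positivity) (by norm_num)]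
      nlinarith
    linarith
  have hbs : Bump (sc β s) := hB.2.2.2 β s hβ hs0 hs1
  have t1 := Metric.tendsto_nhds.1 (hL β (sc β s) hβ hbs) (η / 3) (by positivity)
  have t2 : ∀ᶠ ε : ℝ in 𝓝[>] (0 : ℝ), D * (ε + Real.sqrt ε) < η / 3 := by
    have c1 : Continuous fun ε : ℝ => D * (ε + Real.sqrt ε) :=
      continuous_const.mul (continuous_id.add Real.continuous_sqrt)
    have c2 := (c1.tendsto 0).mono_left (nhdsWithin_le_nhds (s := Ioi (0 : ℝ)))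
    have c3 : D * ((0 : ℝ) + Real.sqrt 0) = 0 := by simp
    rw [c3] at c2
    exact c2.eventually_lt_const (by positivity)
  have t3 : ∀ᶠ ε : ℝ in 𝓝[>] (0 : ℝ), 0 < ε := eventually_mem_nhdsWithin
  have t4 : ∀ c : ℝ, 0 < c → ∀ᶠ ε : ℝ in 𝓝[>] (0 : ℝ), ε < c := fun c hc =>
    (eventually_lt_nhds hc).filter_mono nhdsWithin_le_nhds
  filter_upwards [t1, t2, t3, t4 ε₀ hε₀, t4 (ε₁ / C) (by positivity),
    t4 (ε₂ / C) (by positivity)] with ε a1 a2 a3 a4 a5 a6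
  rw [lt_div_iff₀ hC0, mul_comm] at a5 a6
  have a7 := key ε s a3 a4 a5 a6 hs0 hs1
  rw [dist_eq_norm] at a1 ⊢
  have e8 : XK μ p u (kb β σ ε) (fun x => ζ x.1 * (gk k x.2 : ℂ)) - l =
      ((∫ z, ζ z * ((mx β (sc β s) σ ε μ p u 0 z - mx β (sc β s) σ ε μ p u k z : ℝ) : ℂ)) - l)
      - ((∫ z, ζ z * ((mx β (sc β s) σ ε μ p u 0 z - mx β (sc β s) σ ε μ p u k z : ℝ) : ℂ))
        - XK μ p u (kb β σ ε) (fun x => ζ x.1 * (gk k x.2 : ℂ))) := by ring
  rw [e8]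
  refine (norm_sub_le _ _).trans_lt ?_
  have e9 : D * (s + ε + Real.sqrt ε) = D * s + D * (ε + Real.sqrt ε) := by ring
  rw [e9] at a7
  linarith

end CRM
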