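import Pool.Agent.CRM.Stmts

/-!
KEL: a lower bound for the kernel.
-/

open Complex MeasureTheory Filter Topology Set
open scoped ContDiff

namespace CRM

open QE QJ U3

theorem t_KEL : StmtKel := by
  intro β c σ K hβ hc hcβ hσ hK
  have hK' : IsCompact (Metric.cthickening 1 K) := hK.cthickening
  obtain ⟨M, hM⟩ := hK'.exists_bound_of_continuousOn (f := σ) hσ.continuous.continuousOn
  have hM' : ∀ x ∈ Metric.cthickening 1 K, |σ x| ≤ M := fun x hx => hM x hx
  refine ⟨min (min 1 (Real.exp (-M) / 2)) (Real.exp (-(2 * M)) * c), by positivity, ?_⟩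
  intro ε hε hε1 z w hz hzw
  set c₁ : ℝ := min (min 1 (Real.exp (-M) / 2)) (Real.exp (-(2 * M)) * c) with hc₁
  have hc0 : 0 < c₁ := by positivity
  have h1 : c₁ ≤ 1 := (min_le_left _ _).trans (min_le_left _ _)
  have h2 : c₁ ≤ Real.exp (-M) / 2 := (min_le_left _ _).trans (min_le_right _ _)
  have h3 : c₁ ≤ Real.exp (-(2 * M)) * c := min_le_right _ _
  have hz' : z ∈ Metric.cthickening 1 K := Metric.self_subset_cthickening K hz
  have hw' : w ∈ Metric.cthickening 1 K := by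
    refine Metric.mem_cthickening_of_dist_le w z 1 K hz ?_
    rw [dist_comm, dist_eq_norm]
    calc ‖z - w‖ ≤ c₁ * ε := hzw
      _ ≤ 1 * 1 := by gcongr
      _ = 1 := one_mul 1
  have hσz := abs_le.mp (hM' z hz')
  have hσw := abs_le.mp (hM' w hw')
  have hr0 : 0 ≤ r2 σ z w / ε ^ 2 := by
    unfold r2
    positivity
  have hr1 : r2 σ z w / ε ^ 2 ≤ 1 / 4 := by
    rw [div_le_iff₀ (by positivity)]
    have e1 : Real.exp (σ z + σ w) ≤ Real.exp (2 * M) := Real.exp_le_exp.mpr (by linarith)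
    have e2 : ‖w - z‖ ≤ Real.exp (-M) / 2 * ε := by
      rw [norm_sub_rev]
      exact hzw.trans (by gcongr)
    have e3 : ‖w - z‖ ^ 2 ≤ (Real.exp (-M) / 2 * ε) ^ 2 := by gcongr
    have e4 : Real.exp (2 * M) * Real.exp (-M) ^ 2 = 1 := by
      rw [← Real.exp_nat_mul, ← Real.exp_add]
      have : 2 * M + ((2 : ℕ) : ℝ) * -M = 0 := by push_cast; ring
      rw [this, Real.exp_zero]
    calc r2 σ z w = Real.exp (σ z + σ w) * ‖w - z‖ ^ 2 := rfl
      _ ≤ Real.exp (2 * M) * (Real.exp (-M) / 2 * ε) ^ 2 := by gcongr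
      _ = (Real.exp (2 * M) * Real.exp (-M) ^ 2) * (1 / 4 * ε ^ 2) := by ring
      _ = 1 / 4 * ε ^ 2 := by rw [e4, one_mul]
  have hb := hcβ _ hr0 hr1
  have he : Real.exp (-(2 * M)) ≤ Real.exp (2 * σ w) := Real.exp_le_exp.mpr (by linarith)
  calc c₁ / ε ^ 2 ≤ (Real.exp (-(2 * M)) * c) / ε ^ 2 := by gcongr
    _ = Real.exp (-(2 * M)) * (c / ε ^ 2) := by ring
    _ ≤ Real.exp (2 * σ w) * (β (r2 σ z w / ε ^ 2) / ε ^ 2) := by gcongr
    _ = ke β σ ε z w := rfl

end CRM
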