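import Pool.Agent.CRM.Stmts

/-!
LMT: the mollified quartic functionals converge.
-/

open Complex MeasureTheory Filter Topology Set
open scoped ContDiff

namespace CRM

open QE QJ U3

namespace LMT

theorem seq_of_pos {e : ℕ → ℂ} {F : ℝ → ℂ}
    (h : ∀ ε : ℕ → ℝ, (∀ n, 0 < ε n) → Tendsto ε atTop (𝓝 0) →
      Tendsto (fun n => e n - F (ε n)) atTop (𝓝 0))
    (x : ℕ → ℝ) (hx : Tendsto x atTop (𝓝[>] 0)) :
    Tendsto (fun n => e n - F (x n)) atTop (𝓝 0) := by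
  classical
  obtain ⟨h1, h2⟩ := tendsto_nhdsWithin_iff.1 hx
  have h2' : ∀ᶠ n in atTop, 0 < x n := h2
  let y : ℕ → ℝ := fun n => if 0 < x n then x n else 1
  have hy : ∀ n, 0 < y n := by
    intro n
    change 0 < (if 0 < x n then x n else 1)
    split_ifs with h3
    · exact h3
    · exact one_pos
  have hxy : ∀ᶠ n in atTop, x n = y n := by
    filter_upwards [h2'] with n hn
    change x n = (if 0 < x n then x n else 1)
    rw [if_pos hn]
  have h4 := h y hy (h1.congr' hxy)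
  refine h4.congr' ?_
  filter_upwards [hxy] with n hn
  rw [hn]

theorem exists_limit {e : ℕ → ℂ} {F : ℝ → ℂ}
    (h : ∀ x : ℕ → ℝ, Tendsto x atTop (𝓝[>] 0) →
      Tendsto (fun n => e n - F (x n)) atTop (𝓝 0)) :
    ∃ l : ℂ, Tendsto e atTop (𝓝 l) := by
  have hc : Cauchy (map F (𝓝[>] (0 : ℝ))) := by
    rw [cauchy_map_iff']
    rw [tendsto_uniformity_iff_dist_tendsto_zero]
    apply tendsto_of_seq_tendsto
    intro x hx
    have h1 : Tendsto (fun n => (x n).1) atTop (𝓝[>] 0) := tendsto_fst.comp hx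
    have h2 : Tendsto (fun n => (x n).2) atTop (𝓝[>] 0) := tendsto_snd.comp hx
    have h3 := (h _ h2).sub (h _ h1)
    rw [sub_zero] at h3
    have h4 := h3.norm
    rw [norm_zero] at h4
    refine h4.congr fun n => ?_
    change _ = dist (F (x n).1) (F (x n).2)
    rw [dist_eq_norm]
    congr 1
    ring
  obtain ⟨l, hl⟩ := cauchy_map_iff_exists_tendsto.1 hc
  refine ⟨l, ?_⟩
  have hx : Tendsto (fun n : ℕ => (1 : ℝ) / (n + 1)) atTop (𝓝[>] 0) :=
    tendsto_nhdsWithin_iff.2 ⟨tendsto_one_div_add_atTop_nhds_zero_nat,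
      Eventually.of_forall fun n => by
        change (0 : ℝ) < 1 / ((n : ℝ) + 1)
        positivity⟩
  have h5 := (h _ hx).add (hl.comp hx)
  rw [zero_add] at h5
  refine h5.congr fun n => ?_
  change e n - F (1 / ((n : ℝ) + 1)) + F (1 / ((n : ℝ) + 1)) = e n
  ring

theorem limit_of {e : ℕ → ℂ} {F : ℝ → ℂ} {l : ℂ} (he : Tendsto e atTop (𝓝 l))
    (h : ∀ x : ℕ → ℝ, Tendsto x atTop (𝓝[>] 0) →
      Tendsto (fun n => e n - F (x n)) atTop (𝓝 0)) :
    Tendsto F (𝓝[>] 0) (𝓝 l) := by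
  apply tendsto_of_seq_tendsto
  intro x hx
  have h1 := he.sub (h x hx)
  rw [sub_zero] at h1
  refine h1.congr fun n => ?_
  change e n - (e n - F (x n)) = F (x n)
  ring

end LMT

theorem t_LMT (hB : StmtBmp) (hF : StmtFouB) : StmtLmt := by
  intro V σ h φ Ω _ μ p u hL hM ζ hζ a b c d habcd
  let e : ℕ → ℂ := fun n => E4 σ h φ ζ a b c d n - cl4 a b c d * E4 σ h φ ζ 0 0 0 0 n
  let S : (ℝ → ℝ) → ℝ → ℂ := fun β ε => (∫ z, ζ z * wkp (pe β σ ε μ p u) a b c d z)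
        - cl4 a b c d * ∫ z, ζ z * wkp (pe β σ ε μ p u) 0 0 0 0 z
  have key : ∀ β, Bump β → ∀ x : ℕ → ℝ, Tendsto x atTop (𝓝[>] 0) →
      Tendsto (fun n => e n - S β (x n)) atTop (𝓝 0) := by
    intro β hβ
    refine LMT.seq_of_pos (e := e) (F := S β) fun ε hε hε0 => ?_
    have h1 := hF β V σ h φ Ω μ p u ε hβ hL hM hε hε0 ζ hζ a b c d habcd
    refine h1.congr fun n => ?_
    simp only [e, S]
    ring
  obtain ⟨β₀, -, hβ₀, -, -⟩ := hB.1
  obtain ⟨l, hl⟩ := LMT.exists_limit (e := e) (F := S β₀) (key β₀ hβ₀)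
  exact ⟨l, hl, fun β hβ => LMT.limit_of (e := e) (F := S β) hl (key β hβ)⟩

end CRM
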