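import Pool.Agent.CRM.Stmts

/-!
The crossing measure of a semiclassical measure, step MAS: the mass of the pairs of close points.
-/

open Complex MeasureTheory Filter Topology Set
open scoped ContDiff

namespace CRM

open QE QJ U3

noncomputable section

namespace MAS

lemma meas {Ω : Type} [MeasurableSpace Ω] {p : Ω → ℂ} (hp : Measurable p) {K : Set ℂ}
    (hK : IsCompact K) (ε : ℝ) :
    MeasurableSet {x : Ω × Ω | p x.1 ∈ K ∧ ‖p x.1 - p x.2‖ ≤ ε} := by
  apply MeasurableSet.inter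
  · exact (hp.comp measurable_fst) hK.isClosed.measurableSet
  · exact measurableSet_le ((hp.comp measurable_fst).sub (hp.comp measurable_snd)).norm
      measurable_const

end MAS

/-- MAS: the mass of the pairs of close points. -/
theorem t_MAS : StmtMas := by
  intro V σ Ω _ μ p u hV hD K hK hKV
  obtain ⟨r, hr, hrV⟩ := hK.exists_cthickening_subset_open hV hKV
  have hfin : IsFiniteMeasure μ := ⟨lt_top_iff_ne_top.mpr hD.fin⟩
  obtain ⟨C, hC⟩ := hD.grow (Metric.cthickening r K) hK.cthickening hrV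
  refine ⟨max C 0 * (μ univ).toReal, r, hr, ?_⟩
  intro ε hε hεr
  have hCε : 0 ≤ max C 0 * ε := mul_nonneg (le_max_right _ _) hε.le
  have hsec : ∀ o : Ω, μ (Prod.mk o ⁻¹' {x : Ω × Ω | p x.1 ∈ K ∧ ‖p x.1 - p x.2‖ ≤ ε}) ≤
      ENNReal.ofReal (max C 0 * ε) := by
    intro o
    by_cases ho : p o ∈ K
    · have hsub : Prod.mk o ⁻¹' {x : Ω × Ω | p x.1 ∈ K ∧ ‖p x.1 - p x.2‖ ≤ ε} ⊆
          p ⁻¹' (Metric.cthickening r K ∩ Metric.closedBall (p o) ε) := by
        intro w hw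
        have hw2 : ‖p o - p w‖ ≤ ε := hw.2
        have hd : dist (p w) (p o) ≤ ε := by
          rw [dist_comm, dist_eq_norm]
          exact hw2
        refine ⟨?_, hd⟩
        exact Metric.mem_cthickening_of_dist_le _ _ _ _ ho (hd.trans hεr.le)
      have h1 := hC (p o) (Metric.self_subset_cthickening K ho) ε hε
      calc μ (Prod.mk o ⁻¹' {x : Ω × Ω | p x.1 ∈ K ∧ ‖p x.1 - p x.2‖ ≤ ε})
          ≤ μ (p ⁻¹' (Metric.cthickening r K ∩ Metric.closedBall (p o) ε)) := measure_mono hsub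
        _ ≤ ENNReal.ofReal (C * ε) :=
          (ENNReal.le_ofReal_iff_toReal_le (measure_ne_top _ _)
            (ENNReal.toReal_nonneg.trans h1)).mpr h1
        _ ≤ ENNReal.ofReal (max C 0 * ε) :=
          ENNReal.ofReal_le_ofReal (mul_le_mul_of_nonneg_right (le_max_left _ _) hε.le)
    · have hemp : Prod.mk o ⁻¹' {x : Ω × Ω | p x.1 ∈ K ∧ ‖p x.1 - p x.2‖ ≤ ε} = ∅ := by
        ext w
        constructor
        · intro hw
          exact absurd hw.1 ho
        · intro hw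
          exact absurd hw (notMem_empty _)
      rw [hemp, measure_empty]
      exact zero_le
  have h2 : (μ.prod μ) {x : Ω × Ω | p x.1 ∈ K ∧ ‖p x.1 - p x.2‖ ≤ ε} ≤
      ENNReal.ofReal (max C 0 * ε) * μ univ := by
    rw [Measure.prod_apply (MAS.meas hD.mp hK ε)]
    calc ∫⁻ o, μ (Prod.mk o ⁻¹' {x : Ω × Ω | p x.1 ∈ K ∧ ‖p x.1 - p x.2‖ ≤ ε}) ∂μ
        ≤ ∫⁻ _, ENNReal.ofReal (max C 0 * ε) ∂μ := lintegral_mono hsec
      _ = ENNReal.ofReal (max C 0 * ε) * μ univ := lintegral_const _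
  have h3 := ENNReal.toReal_mono
    (ENNReal.mul_ne_top ENNReal.ofReal_ne_top hD.fin) h2
  rw [ENNReal.toReal_mul, ENNReal.toReal_ofReal hCε] at h3
  calc ((μ.prod μ) {x : Ω × Ω | p x.1 ∈ K ∧ ‖p x.1 - p x.2‖ ≤ ε}).toReal
      ≤ max C 0 * ε * (μ univ).toReal := h3
    _ = max C 0 * (μ univ).toReal * ε := by ring

end

end CRM
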