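import Pool.Agent.CRM.Stmts

/-!
ODD: the odd part vanishes.
-/

open Complex MeasureTheory Filter Topology Set
open scoped ContDiff

namespace CRM

open QE QJ U3

noncomputable section

namespace ODD

/-- the test function for fixed second point -/
def ps (β : ℝ → ℝ) (σ : ℂ → ℝ) (ε : ℝ) (ζ : ℂ → ℂ) (w z : ℂ) : ℂ := ζ z * (kb β σ ε z w : ℂ)

lemma kb_smooth {β : ℝ → ℝ} {σ : ℂ → ℝ} (ε : ℝ) (hβ : Bump β) (hσ : ContDiff ℝ ∞ σ) (w : ℂ) :
    ContDiff ℝ ∞ (fun z => kb β σ ε z w) := by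
  unfold kb r2
  have h1 : ContDiff ℝ ∞ (fun z : ℂ => Real.exp (2 * σ z)) :=
    Real.contDiff_exp.comp (contDiff_const.mul hσ)
  have h2 : ContDiff ℝ ∞ (fun z : ℂ => Real.exp (σ z + σ w)) :=
    Real.contDiff_exp.comp (hσ.add contDiff_const)
  have h3 : ContDiff ℝ ∞ (fun z : ℂ => ‖w - z‖ ^ 2) :=
    (contDiff_const.sub contDiff_id).norm_sq ℝ
  have h4 : ContDiff ℝ ∞ (fun z : ℂ => β (Real.exp (σ z + σ w) * ‖w - z‖ ^ 2 / ε ^ 2)) :=
    hβ.smooth.comp ((h2.mul h3).div_const _)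
  exact h1.mul (h4.div_const _)

lemma ps_test {V : Set ℂ} {β : ℝ → ℝ} {σ : ℂ → ℝ} (ε : ℝ) {ζ : ℂ → ℂ} (hβ : Bump β)
    (hσ : ContDiff ℝ ∞ σ) (hζ : Test V ζ) (w : ℂ) : Test V (ps β σ ε ζ w) := by
  have h1 : ContDiff ℝ ∞ (fun z => (kb β σ ε z w : ℂ)) :=
    Complex.ofRealCLM.contDiff.comp (kb_smooth ε hβ hσ w)
  refine ⟨hζ.smooth.mul h1, hζ.supp.mul_right, ?_⟩
  exact (tsupport_mul_subset_left).trans hζ.sub

lemma s2_eq {t : ℂ} (ht : ‖t‖ = 1) :
    (s2 t : ℂ) = (2 - t ^ (2 : ℤ) - t ^ (-2 : ℤ)) / 4 := by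
  have ht0 : t ≠ 0 := by
    intro h
    rw [h, norm_zero] at ht
    exact zero_ne_one ht
  have h1 : (starRingEnd ℂ) t = t⁻¹ := by
    rw [Complex.inv_def, Complex.normSq_eq_norm_sq, ht]
    simp
  have h2 : ((‖t ^ 2 - 1‖ ^ 2 : ℝ) : ℂ) = (t ^ 2 - 1) * (starRingEnd ℂ) (t ^ 2 - 1) := by
    rw [Complex.mul_conj, Complex.normSq_eq_norm_sq]
  unfold s2
  rw [Complex.ofReal_div, h2, map_sub, map_pow, map_one, h1]
  have h3 : t ^ (-2 : ℤ) = (t⁻¹) ^ 2 := by
    rw [zpow_neg, inv_pow]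
    rfl
  have h4 : t ^ (2 : ℤ) = t ^ 2 := rfl
  have h5 : t ^ 2 * t⁻¹ ^ 2 = 1 := by
    rw [← mul_pow, mul_inv_cancel₀ ht0, one_pow]
  rw [h3, h4]
  push_cast
  linear_combination h5 / 4

lemma split {t : ℂ} (ht : ‖t‖ = 1) (k : ℤ) :
    (s2 t : ℂ) * t ^ k = (2 * t ^ k - t ^ (k + 2) - t ^ (k - 2)) / 4 := by
  have ht0 : t ≠ 0 := by
    intro h
    rw [h, norm_zero] at ht
    exact zero_ne_one ht
  rw [s2_eq ht, zpow_add₀ ht0, sub_eq_add_neg k 2, zpow_add₀ ht0]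
  ring

end ODD

theorem t_ODD : StmtOdd := by
  intro V σ Ω _ μ p u ζ k β ε hV hσ hD hζ hk hβ hε
  have hfin : IsFiniteMeasure μ := ⟨lt_top_iff_ne_top.mpr hD.fin⟩
  have hu0 : ∀ o, u o ≠ 0 := by
    intro o h
    have := hD.unit o
    rw [h, norm_zero] at this
    exact zero_ne_one this
  unfold XK II
  set G : Ω × Ω → ℂ := fun x => (kb β σ ε (p x.1) (p x.2) * s2 (u x.1 / u x.2) : ℝ) *
    ((fun x : ℂ × ℂ => ζ x.1 * x.2 ^ k) (p x.1, u x.1 / u x.2)) with hG
  by_cases hint : Integrable G (μ.prod μ)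
  · rw [integral_prod_symm G hint]
    have hz : ∀ y : Ω, ∫ x, G (x, y) ∂μ = 0 := by
      intro y
      have hψ := ODD.ps_test ε hβ hσ hζ (p y)
      -- the three integrals
      have hin : ∀ j : ℤ, Integrable (fun o => ODD.ps β σ ε ζ (p y) (p o) * u o ^ j) μ := by
        intro j
        obtain ⟨C, hC⟩ := hψ.supp.exists_bound_of_continuous hψ.smooth.continuous
        refine Integrable.of_bound (C := C) ?_ (ae_of_all _ fun o => ?_)
        · refine (Measurable.mul ?_ ?_).aestronglyMeasurable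
          · exact hψ.smooth.continuous.measurable.comp hD.mp
          · exact hD.mu.pow_const j
        · rw [norm_mul, norm_zpow, hD.unit o, one_zpow, mul_one]
          exact hC _
      have h0 := hD.odd k hk _ hψ
      have h1 := hD.odd (k + 2) (hk.add_even even_two) _ hψ
      have h2 := hD.odd (k - 2) (hk.sub_even even_two) _ hψ
      have hGe : ∀ x, G (x, y) = (2 * (u y ^ k)⁻¹ / 4) * (ODD.ps β σ ε ζ (p y) (p x) * u x ^ k)
          - ((u y ^ (k + 2))⁻¹ / 4) * (ODD.ps β σ ε ζ (p y) (p x) * u x ^ (k + 2))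
          - ((u y ^ (k - 2))⁻¹ / 4) * (ODD.ps β σ ε ζ (p y) (p x) * u x ^ (k - 2)) := by
        intro x
        have ht : ‖u x / u y‖ = 1 := by
          rw [norm_div, hD.unit, hD.unit, div_one]
        have hs := ODD.split ht k
        have e1 : G (x, y) = ODD.ps β σ ε ζ (p y) (p x) *
            ((s2 (u x / u y) : ℂ) * (u x / u y) ^ k) := by
          rw [hG]
          simp only [ODD.ps]
          push_cast
          ring
        rw [e1, hs, div_zpow, div_zpow, div_zpow]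
        ring
      have i0 := (hin k).const_mul (2 * (u y ^ k)⁻¹ / 4)
      have i1 := (hin (k + 2)).const_mul ((u y ^ (k + 2))⁻¹ / 4)
      have i2 := (hin (k - 2)).const_mul ((u y ^ (k - 2))⁻¹ / 4)
      have e1 := integral_sub (i0.sub i1) i2
      have e2 := integral_sub i0 i1
      rw [integral_congr_ae (ae_of_all _ hGe)]
      refine (e1.trans (congrArg (fun c => c - _) e2)).trans ?_
      rw [integral_const_mul, integral_const_mul, integral_const_mul, h0, h1, h2]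
      simp
    simp [hz]
  · exact integral_undef hint

end

end CRM
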