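import Pool.Agent.CRM.Stmts

/-!
CRM, module POL: polarisation.
-/

open Complex MeasureTheory Filter Topology Set
open scoped ContDiff

namespace CRM

open QE QJ U3

noncomputable section

namespace POL

variable {Ω : Type} [MeasurableSpace Ω] {μ : Measure Ω} {p u : Ω → ℂ} {V : Set ℂ} {σ : ℂ → ℝ}
  {β β' : ℝ → ℝ} {ε : ℝ} {ζ : ℂ → ℂ}

lemma norm_ta (z w : ℂ) : ‖ta σ z w‖ = 1 := by
  unfold ta
  exact Complex.norm_exp_ofReal_mul_I _

lemma norm_tu (D : DirM V σ μ p u) (z : ℂ) (o : Ω) : ‖(ta σ z (p o))⁻¹ * u o‖ = 1 := by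
  rw [norm_mul, norm_inv, norm_ta, D.unit, inv_one, one_mul]

lemma conj_zpow {w : ℂ} (hw : ‖w‖ = 1) (k : ℤ) : (starRingEnd ℂ) (w ^ k) = w ^ (-k) := by
  have h1 : (starRingEnd ℂ) w = w⁻¹ := by
    rw [Complex.inv_def, Complex.normSq_eq_norm_sq, hw]
    simp
  rw [map_zpow₀, h1, inv_zpow, zpow_neg]

/-- the integrand of the mollified moments is integrable -/
lemma int_pe (hβ : Bump β) (hσ : ContDiff ℝ ∞ σ) (D : DirM V σ μ p u) (ε : ℝ) (k : ℤ) (z : ℂ) :
    Integrable (fun o => (ke β σ ε z (p o) : ℂ) * ((ta σ z (p o))⁻¹ * u o) ^ k) μ := by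
  have : IsFiniteMeasure μ := ⟨lt_top_iff_ne_top.mpr D.fin⟩
  obtain ⟨K, hK, hp⟩ := D.cpt
  have hF : Continuous (fun w : ℂ => PES.FK β σ ε k (z, w)) :=
    (PES.contDiff_FK hβ.smooth hσ ε k).continuous.comp (Continuous.prodMk_right z)
  obtain ⟨C, hC⟩ := hK.exists_bound_of_continuousOn hF.continuousOn
  have e : (fun o => (ke β σ ε z (p o) : ℂ) * ((ta σ z (p o))⁻¹ * u o) ^ k)
      = fun o => PES.FK β σ ε k (z, p o) * u o ^ k := by
    funext o
    unfold PES.FK
    rw [mul_zpow]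
    ring
  rw [e]
  refine Integrable.of_bound (C := C) ?_ ?_
  · exact ((hF.measurable.comp D.mp).mul (D.mu.pow_const k)).aestronglyMeasurable
  · filter_upwards [hp] with o ho
    rw [norm_mul, norm_zpow, D.unit, one_zpow, mul_one]
    exact hC _ ho

lemma conj_pe (D : DirM V σ μ p u) (k : ℤ) (z : ℂ) :
    (starRingEnd ℂ) (pe β σ ε μ p u k z) = pe β σ ε μ p u (-k) z := by
  unfold pe
  rw [← integral_conj]
  apply integral_congr_ae
  refine Filter.Eventually.of_forall fun o => ?_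
  simp only [map_mul, Complex.conj_ofReal]
  rw [conj_zpow (norm_tu D z o)]

/-- the diagonal functional -/
lemma mx_diag (D : DirM V σ μ p u) (k : ℤ) (z : ℂ) :
    ((mx β β σ ε μ p u k z : ℝ) : ℂ) = pe β σ ε μ p u k z * pe β σ ε μ p u (-k) z := by
  unfold mx
  rw [← conj_pe D, Complex.mul_conj, Complex.ofReal_re]

lemma pe_half (hβ : Bump β) (hβ' : Bump β') (hσ : ContDiff ℝ ∞ σ) (D : DirM V σ μ p u) (ε : ℝ)
    (k : ℤ) (z : ℂ) : pe (fun t => (β t + β' t) / 2) σ ε μ p u k z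
      = (pe β σ ε μ p u k z + pe β' σ ε μ p u k z) / 2 := by
  unfold pe
  rw [← integral_add (int_pe hβ hσ D ε k z) (int_pe hβ' hσ D ε k z), ← integral_div]
  apply integral_congr_ae
  refine Filter.Eventually.of_forall fun o => ?_
  have h1 : ke (fun t => (β t + β' t) / 2) σ ε z (p o)
      = (ke β σ ε z (p o) + ke β' σ ε z (p o)) / 2 := by
    unfold ke gb
    ring
  simp only [h1]
  push_cast
  ring

lemma mx_pol (hβ : Bump β) (hβ' : Bump β') (hσ : ContDiff ℝ ∞ σ) (D : DirM V σ μ p u) (ε : ℝ)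
    (k : ℤ) (z : ℂ) : mx β β' σ ε μ p u k z
      = 2 * mx (fun t => (β t + β' t) / 2) (fun t => (β t + β' t) / 2) σ ε μ p u k z
        - mx β β σ ε μ p u k z / 2 - mx β' β' σ ε μ p u k z / 2 := by
  unfold mx
  rw [pe_half hβ hβ' hσ D]
  generalize pe β σ ε μ p u k z = X
  generalize pe β' σ ε μ p u k z = Y
  simp only [map_div₀, map_add, Complex.mul_re, Complex.conj_re, Complex.conj_im, Complex.add_re,
    Complex.add_im, Complex.div_ofNat_re, Complex.div_ofNat_im, map_ofNat]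
  ring

/-- the continuous function under the integral -/
lemma cont_mx (hS : StmtPeS) (hβ : Bump β) (hβ' : Bump β') (hσ : ContDiff ℝ ∞ σ)
    (D : DirM V σ μ p u) (hε : 0 < ε) (k : ℤ) :
    Continuous fun z => ((mx β β' σ ε μ p u k z : ℝ) : ℂ) := by
  have h1 : Continuous (pe β σ ε μ p u k) := (hS β V σ Ω μ p u hβ hσ D ε hε k).1.continuous
  have h2 : Continuous (pe β' σ ε μ p u k) := (hS β' V σ Ω μ p u hβ' hσ D ε hε k).1.continuous
  unfold mx
  exact Complex.continuous_ofReal.comp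
    (Complex.continuous_re.comp (h1.mul (Complex.continuous_conj.comp h2)))

lemma isub3 {f g h : ℂ → ℂ} (hf : Integrable f) (hg : Integrable g) (hh : Integrable h) :
    (∫ z, f z) - (∫ z, g z) - (∫ z, h z) = ∫ z, (f z - g z - h z) := by
  have h1 : ∫ z, (f z - g z) = (∫ z, f z) - ∫ z, g z := integral_sub hf hg
  have hfg : Integrable fun z => f z - g z := hf.sub hg
  have h2 : ∫ z, ((f z - g z) - h z) = (∫ z, (f z - g z)) - ∫ z, h z := integral_sub hfg hh
  rw [h2, h1]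

lemma iadd3 {f g h : ℂ → ℂ} (hf : Integrable f) (hg : Integrable g) (hh : Integrable h) :
    (∫ z, f z) + (∫ z, g z) + (∫ z, h z) = ∫ z, (f z + g z + h z) := by
  have h1 : ∫ z, (f z + g z) = (∫ z, f z) + ∫ z, g z := integral_add hf hg
  have hfg : Integrable fun z => f z + g z := hf.add hg
  have h2 : ∫ z, ((f z + g z) + h z) = (∫ z, (f z + g z)) + ∫ z, h z := integral_add hfg hh
  rw [h2, h1]

/-- the functional of the statement -/
def fn (β β' : ℝ → ℝ) (σ : ℂ → ℝ) (μ : Measure Ω) (p u : Ω → ℂ) (ζ : ℂ → ℂ) (k : ℤ) (ε : ℝ) : ℂ :=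
  ∫ z, ζ z * ((mx β β' σ ε μ p u 0 z - mx β β' σ ε μ p u k z : ℝ) : ℂ)

lemma int_mx (hS : StmtPeS) (hβ : Bump β) (hβ' : Bump β') (hσ : ContDiff ℝ ∞ σ)
    (D : DirM V σ μ p u) (hζ : Test V ζ) (hε : 0 < ε) (k : ℤ) :
    Integrable fun z => ζ z * ((mx β β' σ ε μ p u 0 z - mx β β' σ ε μ p u k z : ℝ) : ℂ) := by
  have h1 : Continuous fun z =>
      ((mx β β' σ ε μ p u 0 z : ℝ) : ℂ) - ((mx β β' σ ε μ p u k z : ℝ) : ℂ) :=
    (cont_mx hS hβ hβ' hσ D hε 0).sub (cont_mx hS hβ hβ' hσ D hε k)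
  have h2 := test_int hζ h1
  refine h2.congr (Filter.Eventually.of_forall fun z => ?_)
  simp only [Complex.ofReal_sub]

lemma fn_pol (hS : StmtPeS) (hB : StmtBmp) (hβ : Bump β) (hβ' : Bump β') (hσ : ContDiff ℝ ∞ σ)
    (D : DirM V σ μ p u) (hζ : Test V ζ) (hε : 0 < ε) (k : ℤ) :
    fn β β' σ μ p u ζ k ε
      = 2 * fn (fun t => (β t + β' t) / 2) (fun t => (β t + β' t) / 2) σ μ p u ζ k ε
        - fn β β σ μ p u ζ k ε / 2 - fn β' β' σ μ p u ζ k ε / 2 := by
  have hγ : Bump (fun t => (β t + β' t) / 2) := hB.2.2.1 β β' hβ hβ'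
  unfold fn
  rw [← integral_const_mul, ← integral_div, ← integral_div,
    isub3 ((int_mx hS hγ hγ hσ D hζ hε k).const_mul 2)
      ((int_mx hS hβ hβ hσ D hζ hε k).div_const 2) ((int_mx hS hβ' hβ' hσ D hζ hε k).div_const 2)]
  apply integral_congr_ae
  refine Filter.Eventually.of_forall fun z => ?_
  simp only []
  rw [mx_pol hβ hβ' hσ D ε 0 z, mx_pol hβ hβ' hσ D ε k z]
  push_cast
  ring

/-- the difference of the Wick terms on the diagonal `(k, -k, 0, 0)` -/
lemma wick_diag (D : DirM V σ μ p u) {k : ℤ} (hk : Even k) (z : ℂ) :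
    wkp (pe β σ ε μ p u) k (-k) 0 0 z - wkp (pe β σ ε μ p u) 0 0 0 0 z
      = -2 * ((mx β β σ ε μ p u 0 z - mx β β σ ε μ p u k z : ℝ) : ℂ) := by
  have h1 : (-1 : ℂ) ^ (-k + 0) = 1 := by
    rw [add_zero]
    exact hk.neg.neg_one_zpow
  have h2 : (-1 : ℂ) ^ ((0 : ℤ) + 0) = 1 := by
    rw [add_zero, zpow_zero]
  have h3 := mx_diag (β := β) (ε := ε) D k z
  have h4 := mx_diag (β := β) (ε := ε) D 0 z
  rw [neg_zero] at h4
  rw [Complex.ofReal_sub, h3, h4]
  unfold wkp
  rw [h1, h2]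
  simp only [add_neg_cancel, add_zero]
  ring

lemma int_wkp (hS : StmtPeS) (hβ : Bump β) (hσ : ContDiff ℝ ∞ σ) (D : DirM V σ μ p u)
    (hζ : Test V ζ) (hε : 0 < ε) (a b c d : ℤ) :
    Integrable fun z => ζ z * wkp (pe β σ ε μ p u) a b c d z :=
  test_int hζ (FOUB.cont_wkp (fun k => (hS β V σ Ω μ p u hβ hσ D ε hε k).1.continuous) a b c d)

/-- comparison of the integrals, if the integrands agree on the support of `ζ` -/
lemma wick_int (hS : StmtPeS) (hβ : Bump β) (hσ : ContDiff ℝ ∞ σ) (D : DirM V σ μ p u)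
    (hζ : Test V ζ) (hε : 0 < ε) (a b c d : ℤ) (q : ℂ) (F : ℂ → ℂ)
    (hF : ∀ z ∈ tsupport ζ, wkp (pe β σ ε μ p u) a b c d z
      - q * wkp (pe β σ ε μ p u) 0 0 0 0 z = F z) :
    (∫ z, ζ z * wkp (pe β σ ε μ p u) a b c d z)
      - q * ∫ z, ζ z * wkp (pe β σ ε μ p u) 0 0 0 0 z = ∫ z, ζ z * F z := by
  rw [← integral_const_mul, ← integral_sub (int_wkp hS hβ hσ D hζ hε a b c d)
    ((int_wkp hS hβ hσ D hζ hε 0 0 0 0).const_mul q)]
  apply integral_congr_ae
  refine Filter.Eventually.of_forall fun z => ?_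
  by_cases hz : z ∈ tsupport ζ
  · simp only [← hF z hz]
    ring
  · simp only [image_eq_zero_of_notMem_tsupport hz]
    ring

end POL

/-- POL -/
theorem t_POL (hL : StmtLmt) (hB : StmtBmp) (hD : StmtDir) (hO : StmtPeO) (hS : StmtPeS) :
    StmtPol := by
  intro V σ h φ Ω _ μ p u LB LM ζ hζ
  have D : DirM V σ μ p u := hD V σ h φ Ω μ p u LB LM
  have hσ := LB.sm
  have hk0 : ∀ k : ℤ, k + -k + 0 + 0 = 0 := fun k => by ring
  choose l hl using fun k : ℤ => hL V σ h φ Ω μ p u LB LM ζ hζ k (-k) 0 0 (hk0 k)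
  have hpos : ∀ᶠ ε : ℝ in 𝓝[>] 0, 0 < ε := eventually_mem_nhdsWithin
  -- the diagonal
  have hdiag : ∀ k : ℤ, Even k → ∀ β, Bump β →
      Tendsto (POL.fn β β σ μ p u ζ k) (𝓝[>] 0) (𝓝 (-l k / 2)) := by
    intro k hk β hβ
    have h1 := ((hl k).2 β hβ).const_mul (-1 / 2 : ℂ)
    have e : (-1 / 2 : ℂ) * l k = -l k / 2 := by ring
    rw [e] at h1
    refine h1.congr' ?_
    filter_upwards [hpos] with ε hε
    have hc : cl4 k (-k) 0 0 = 1 := by
      obtain ⟨j, hj⟩ := hk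
      unfold cl4
      rw [if_pos]
      omega
    rw [hc]
    rw [POL.wick_int hS hβ hσ D hζ hε k (-k) 0 0 1
      (fun z => -2 * ((mx β β σ ε μ p u 0 z - mx β β σ ε μ p u k z : ℝ) : ℂ))
      (fun z _ => by rw [one_mul]; exact POL.wick_diag D hk z)]
    unfold POL.fn
    rw [← integral_const_mul]
    apply integral_congr_ae
    refine Filter.Eventually.of_forall fun z => ?_
    ring
  -- the second part
  have hmix : ∀ k : ℤ, Even k → ∀ β β', Bump β → Bump β' →
      Tendsto (POL.fn β β' σ μ p u ζ k) (𝓝[>] 0) (𝓝 (-l k / 2)) := by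
    intro k hk β β' hβ hβ'
    have hγ : Bump (fun t => (β t + β' t) / 2) := hB.2.2.1 β β' hβ hβ'
    have h1 := (((hdiag k hk _ hγ).const_mul 2).sub ((hdiag k hk β hβ).div_const 2)).sub
      ((hdiag k hk β' hβ').div_const 2)
    have e : (2 : ℂ) * (-l k / 2) - -l k / 2 / 2 - -l k / 2 / 2 = -l k / 2 := by ring
    rw [e] at h1
    refine h1.congr' ?_
    filter_upwards [hpos] with ε hε
    exact (POL.fn_pol hS hB hβ hβ' hσ D hζ hε k).symm
  refine ⟨fun k => -l k / 2, ?_, fun k hk β β' hβ hβ' => hmix k hk β β' hβ hβ'⟩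
  -- the first part
  intro a b c d hsum
  obtain ⟨⟨β, -, hβ, -⟩, -⟩ := hB
  obtain ⟨m, hm1, hm2⟩ := hL V σ h φ Ω μ p u LB LM ζ hζ a b c d hsum
  have hm3 := hm2 β hβ
  suffices hs : Tendsto (fun ε : ℝ => (∫ z, ζ z * wkp (pe β σ ε μ p u) a b c d z)
      - cl4 a b c d * ∫ z, ζ z * wkp (pe β σ ε μ p u) 0 0 0 0 z) (𝓝[>] 0)
      (𝓝 (lk (fun k => -l k / 2) a b c d)) by
    rw [← tendsto_nhds_unique hm3 hs]
    exact hm1
  have hodd : ∀ k : ℤ, Odd k → ∀ᶠ ε : ℝ in 𝓝[>] 0, ∀ z ∈ tsupport ζ, pe β σ ε μ p u k z = 0 :=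
    fun k hk => hO β V σ Ω μ p u k hβ LB.op hσ D hk _ hζ.supp hζ.sub
  have e1 : c + d = -(a + b) := by omega
  have e2 : b + d = -(a + c) := by omega
  have e3 : b + c = -(a + d) := by omega
  by_cases hpar : (a - b) % 2 = 0 ∧ (a - c) % 2 = 0 ∧ (a - d) % 2 = 0
  · -- the same parity
    have hl4 : lk (fun k => -l k / 2) a b c d
        = -(-l (a + b) / 2 + -l (a + c) / 2 + -l (a + d) / 2) := by
      unfold lk
      rw [if_pos hpar]
    have hc : cl4 a b c d = 1 := by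
      unfold cl4
      rw [if_pos hpar]
    have k1 : Even (a + b) := Int.even_iff.mpr (by omega)
    have k2 : Even (a + c) := Int.even_iff.mpr (by omega)
    have k3 : Even (a + d) := Int.even_iff.mpr (by omega)
    rw [hl4]
    have h1 := (((hdiag _ k1 β hβ).add (hdiag _ k2 β hβ)).add (hdiag _ k3 β hβ)).neg
    refine h1.congr' ?_
    filter_upwards [hpos] with ε hε
    rw [hc, POL.wick_int hS hβ hσ D hζ hε a b c d 1
      (fun z => -(((mx β β σ ε μ p u 0 z - mx β β σ ε μ p u (a + b) z : ℝ) : ℂ)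
        + ((mx β β σ ε μ p u 0 z - mx β β σ ε μ p u (a + c) z : ℝ) : ℂ)
        + ((mx β β σ ε μ p u 0 z - mx β β σ ε μ p u (a + d) z : ℝ) : ℂ))) ?_]
    · unfold POL.fn
      rw [POL.iadd3 (POL.int_mx hS hβ hβ hσ D hζ hε _) (POL.int_mx hS hβ hβ hσ D hζ hε _)
        (POL.int_mx hS hβ hβ hσ D hζ hε _), ← integral_neg]
      apply integral_congr_ae
      refine Filter.Eventually.of_forall fun z => ?_
      ring
    · intro z _
      have s1 : (-1 : ℂ) ^ (b + d) = 1 := by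
        rw [e2]
        exact k2.neg.neg_one_zpow
      have s2 : (-1 : ℂ) ^ (c + d) = 1 := by
        rw [e1]
        exact k1.neg.neg_one_zpow
      have t0 := POL.mx_diag (β := β) (ε := ε) D 0 z
      rw [neg_zero] at t0
      simp only [Complex.ofReal_sub]
      rw [POL.mx_diag D (a + b) z, POL.mx_diag D (a + c) z, POL.mx_diag D (a + d) z, t0]
      unfold wkp
      rw [s1, s2, e1, e2, e3]
      simp only [add_zero, zpow_zero]
      ring
  · -- exactly one of the sums is even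
    have hc : cl4 a b c d = -1 / 3 := by
      unfold cl4
      rw [if_neg hpar]
    have hw0 : ∀ (P : ℤ → ℂ → ℂ) (z : ℂ), wkp P 0 0 0 0 z = 3 * (P 0 z * P 0 z) := by
      intro P z
      unfold wkp
      simp only [add_zero, zpow_zero]
      ring
    have hdiff : ∀ (k : ℤ) (ε : ℝ) (z : ℂ),
        ((mx β β σ ε μ p u 0 z - mx β β σ ε μ p u k z : ℝ) : ℂ)
          = pe β σ ε μ p u 0 z * pe β σ ε μ p u 0 z
            - pe β σ ε μ p u k z * pe β σ ε μ p u (-k) z := by
      intro k ε z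
      have t0 := POL.mx_diag (β := β) (ε := ε) D 0 z
      rw [neg_zero] at t0
      rw [Complex.ofReal_sub, POL.mx_diag D k z, t0]
    by_cases h12 : (a + b) % 2 = 0
    · have hl4 : lk (fun k => -l k / 2) a b c d = -l (a + b) / 2 := by
        unfold lk
        rw [if_neg hpar, if_pos h12]
      have k1 : Even (a + b) := Int.even_iff.mpr h12
      have k2 : Odd (a + c) := Int.odd_iff.mpr (by omega)
      have k3 : Odd (a + d) := Int.odd_iff.mpr (by omega)
      rw [hl4]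
      refine (hdiag _ k1 β hβ).congr' ?_
      filter_upwards [hpos, hodd _ k2, hodd _ k3] with ε hε o2 o3
      rw [hc, POL.wick_int hS hβ hσ D hζ hε a b c d (-1 / 3)
        (fun z => ((mx β β σ ε μ p u 0 z - mx β β σ ε μ p u (a + b) z : ℝ) : ℂ)) ?_]
      · rfl
      · intro z hz
        have s1 : (-1 : ℂ) ^ (b + d) = -1 := by
          rw [e2]
          exact k2.neg.neg_one_zpow
        rw [hdiff, hw0]
        unfold wkp
        rw [s1, e1, o2 z hz, o3 z hz]
        ring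
    · have k1 : Odd (a + b) := Int.odd_iff.mpr (by omega)
      have s2 : (-1 : ℂ) ^ (c + d) = -1 := by
        rw [e1]
        exact k1.neg.neg_one_zpow
      by_cases h13 : (a + c) % 2 = 0
      · have hl4 : lk (fun k => -l k / 2) a b c d = -l (a + c) / 2 := by
          unfold lk
          rw [if_neg hpar, if_neg h12, if_pos h13]
        have k2 : Even (a + c) := Int.even_iff.mpr h13
        have k3 : Odd (a + d) := Int.odd_iff.mpr (by omega)
        rw [hl4]
        refine (hdiag _ k2 β hβ).congr' ?_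
        filter_upwards [hpos, hodd _ k1, hodd _ k3] with ε hε o1 o3
        rw [hc, POL.wick_int hS hβ hσ D hζ hε a b c d (-1 / 3)
          (fun z => ((mx β β σ ε μ p u 0 z - mx β β σ ε μ p u (a + c) z : ℝ) : ℂ)) ?_]
        · rfl
        · intro z hz
          rw [hdiff, hw0]
          unfold wkp
          rw [s2, e2, o1 z hz, o3 z hz]
          ring
      · have hl4 : lk (fun k => -l k / 2) a b c d = -l (a + d) / 2 := by
          unfold lk
          rw [if_neg hpar, if_neg h12, if_neg h13]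
        have k2 : Odd (a + c) := Int.odd_iff.mpr (by omega)
        have k3 : Even (a + d) := Int.even_iff.mpr (by omega)
        rw [hl4]
        refine (hdiag _ k3 β hβ).congr' ?_
        filter_upwards [hpos, hodd _ k1, hodd _ k2] with ε hε o1 o2
        rw [hc, POL.wick_int hS hβ hσ D hζ hε a b c d (-1 / 3)
          (fun z => ((mx β β σ ε μ p u 0 z - mx β β σ ε μ p u (a + d) z : ℝ) : ℂ)) ?_]
        · rfl
        · intro z hz
          rw [hdiff, hw0]
          unfold wkp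
          rw [s2, e3, o1 z hz, o2 z hz]
          ring

end

end CRM
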