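import Pool.Agent.CRM.Stmts

/-!
SNE: the pairs of close points, weighted by the square of the sine of the angle.
-/

open Complex MeasureTheory Filter Topology Set
open scoped ContDiff Manifold

namespace CRM

open QE QJ U3

noncomputable section

namespace SNE

/-- a real cutoff function -/
lemma exists_cut {U K : Set ℂ} (hU : IsOpen U) (hK : IsCompact K) (hKU : K ⊆ U) :
    ∃ χ : ℂ → ℝ, Test U (fun z => (χ z : ℂ)) ∧ Continuous χ ∧ HasCompactSupport χ ∧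
      (∀ z, 0 ≤ χ z) ∧ (∀ z, χ z ≤ 1) ∧ ∀ z ∈ K, χ z = 1 := by
  obtain ⟨K', hK', hKK', hK'U⟩ := exists_compact_between hK hU hKU
  obtain ⟨f, hf1, hf2, hf3⟩ := exists_contMDiffMap_one_nhds_of_subset_interior (n := (⊤ : ℕ∞))
    𝓘(ℝ, ℂ) hK.isClosed hKK'
  have hfs : ContDiff ℝ ∞ (f : ℂ → ℝ) := f.contMDiff.contDiff
  have hsupp : Function.support (fun z => (f z : ℂ)) ⊆ K' := by
    intro z hz
    by_contra h
    exact hz (by simp [hf2 z h])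
  have hsuppr : Function.support (fun z => f z) ⊆ K' := by
    intro z hz
    by_contra h
    exact hz (hf2 z h)
  have hts : tsupport (fun z => (f z : ℂ)) ⊆ K' :=
    closure_minimal hsupp hK'.isClosed
  have htsr : tsupport (fun z => f z) ⊆ K' :=
    closure_minimal hsuppr hK'.isClosed
  refine ⟨fun z => f z, ⟨ofRealCLM.contDiff.comp hfs,
    hK'.of_isClosed_subset (isClosed_tsupport _) hts, hts.trans hK'U⟩, hfs.continuous,
    hK'.of_isClosed_subset (isClosed_tsupport _) htsr, fun z => (hf3 z).1,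
    fun z => (hf3 z).2, ?_⟩
  intro z hz
  have := hf1.filter_mono (nhds_le_nhdsSet hz)
  exact this.self_of_nhds

lemma norm_ta (σ : ℂ → ℝ) (z w : ℂ) : ‖ta σ z w‖ = 1 := by
  unfold ta
  exact Complex.norm_exp_ofReal_mul_I _

lemma ta_ne (σ : ℂ → ℝ) (z w : ℂ) : ta σ z w ≠ 0 := by
  unfold ta
  exact Complex.exp_ne_zero _

lemma cont_sg {σ : ℂ → ℝ} (hσ : ContDiff ℝ ∞ σ) : Continuous (sg σ) :=
  (PES.contDiff_sg hσ).continuous

lemma cont_ta {σ : ℂ → ℝ} (hσ : ContDiff ℝ ∞ σ) : Continuous fun q : ℂ × ℂ => ta σ q.1 q.2 := by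
  unfold ta
  have h1 : Continuous fun q : ℂ × ℂ => sg σ q.1 := (cont_sg hσ).comp continuous_fst
  have h2 : Continuous fun q : ℂ × ℂ => sg σ q.2 := (cont_sg hσ).comp continuous_snd
  have h3 : Continuous fun q : ℂ × ℂ => (((sg σ q.1 + sg σ q.2) * (q.2 - q.1)).im : ℝ) :=
    Complex.continuous_im.comp ((h1.add h2).mul (continuous_snd.sub continuous_fst))
  exact ((Complex.continuous_ofReal.comp h3).mul continuous_const).cexp

lemma cont_ke {β : ℝ → ℝ} {σ : ℂ → ℝ} (hβ : ContDiff ℝ ∞ β) (hσ : ContDiff ℝ ∞ σ) (ε : ℝ) :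
    Continuous fun q : ℂ × ℂ => ke β σ ε q.1 q.2 := by
  unfold ke gb r2
  have h1 : Continuous fun q : ℂ × ℂ => σ q.1 := hσ.continuous.comp continuous_fst
  have h2 : Continuous fun q : ℂ × ℂ => σ q.2 := hσ.continuous.comp continuous_snd
  have h3 : Continuous fun q : ℂ × ℂ => Real.exp (σ q.1 + σ q.2) * ‖q.2 - q.1‖ ^ 2 :=
    (Real.continuous_exp.comp (h1.add h2)).mul ((continuous_snd.sub continuous_fst).norm.pow 2)
  exact (Real.continuous_exp.comp (continuous_const.mul h2)).mul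
    ((hβ.continuous.comp (h3.div_const _)).div_const _)

lemma cont_s2 : Continuous s2 := by
  unfold s2
  exact (((continuous_id.pow 2).sub continuous_const).norm.pow 2).div_const _

lemma s2_nonneg (t : ℂ) : 0 ≤ s2 t := by
  unfold s2
  positivity

lemma s2_le {t : ℂ} (ht : ‖t‖ = 1) : s2 t ≤ 1 := by
  unfold s2
  have h1 : ‖t ^ 2 - 1‖ ≤ 2 := by
    calc ‖t ^ 2 - 1‖ ≤ ‖t ^ 2‖ + ‖(1 : ℂ)‖ := norm_sub_le _ _
      _ = 2 := by rw [norm_pow, ht, norm_one]; norm_num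
  have h2 : ‖t ^ 2 - 1‖ ^ 2 ≤ 2 ^ 2 := pow_le_pow_left₀ (norm_nonneg _) h1 2
  linarith

lemma one_sub_ck {t : ℂ} (ht : ‖t‖ = 1) : 1 - ck 2 t = 2 * s2 t := by
  unfold ck s2
  have e : t ^ (2 : ℤ) = t ^ 2 := by norm_cast
  rw [e]
  have h1 : ‖t ^ 2‖ = 1 := by rw [norm_pow, ht, one_pow]
  have h2 : ‖t ^ 2 - 1‖ ^ 2 = 2 - 2 * (t ^ 2).re := by
    have h3 : Complex.normSq (t ^ 2) = 1 := by rw [Complex.normSq_eq_norm_sq, h1, one_pow]
    rw [← Complex.normSq_eq_norm_sq]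
    rw [Complex.normSq_apply] at h3 ⊢
    simp only [Complex.sub_re, Complex.sub_im, Complex.one_re, Complex.one_im]
    linarith
  rw [h2]
  ring

lemma s2_mul_ge {q t : ℂ} {b : ℝ} (hq : ‖q‖ = 1) (ht : ‖t‖ = 1) (hb : ‖q - 1‖ ≤ b) :
    s2 t / 2 - b ^ 2 ≤ s2 (q * t) := by
  unfold s2
  have h1 : ‖t ^ 2 - 1‖ ≤ ‖(q * t) ^ 2 - 1‖ + ‖q ^ 2 - 1‖ := by
    have e : t ^ 2 - 1 = ((q * t) ^ 2 - 1) - t ^ 2 * (q ^ 2 - 1) := by ring
    have h2 : ‖t ^ 2 * (q ^ 2 - 1)‖ = ‖q ^ 2 - 1‖ := by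
      rw [norm_mul, norm_pow, ht, one_pow, one_mul]
    calc ‖t ^ 2 - 1‖ = ‖((q * t) ^ 2 - 1) - t ^ 2 * (q ^ 2 - 1)‖ := by rw [← e]
      _ ≤ ‖(q * t) ^ 2 - 1‖ + ‖t ^ 2 * (q ^ 2 - 1)‖ := norm_sub_le _ _
      _ = _ := by rw [h2]
  have h3 : ‖q ^ 2 - 1‖ ≤ 2 * b := by
    have e : q ^ 2 - 1 = (q - 1) * (q + 1) := by ring
    rw [e, norm_mul]
    have h4 : ‖q + 1‖ ≤ 2 := by
      calc ‖q + 1‖ ≤ ‖q‖ + ‖(1 : ℂ)‖ := norm_add_le _ _
        _ = 2 := by rw [hq, norm_one]; norm_num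
    nlinarith [norm_nonneg (q - 1), norm_nonneg (q + 1)]
  have h5 := norm_nonneg (t ^ 2 - 1)
  have hA := norm_nonneg ((q * t) ^ 2 - 1)
  have hB := norm_nonneg (q ^ 2 - 1)
  generalize ‖t ^ 2 - 1‖ = a at *
  generalize ‖(q * t) ^ 2 - 1‖ = A at *
  generalize ‖q ^ 2 - 1‖ = B at *
  nlinarith [sq_nonneg (A - B), sq_nonneg (A - 2 * b), mul_nonneg hA hB, sq_nonneg (2 * b - B)]

/-- the integrand, for real cutoff functions -/
def Az (β : ℝ → ℝ) (σ : ℂ → ℝ) (χ : ℂ → ℝ) (ε : ℝ) (z w t y : ℂ) : ℝ :=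
  χ y * (ke β σ ε y z * ke β σ ε y w * (1 - ck 2 (ta σ y w / ta σ y z * t)))

section

variable {β : ℝ → ℝ} {σ : ℂ → ℝ} {χ : ℂ → ℝ} {ε : ℝ}

lemma norm_q (σ : ℂ → ℝ) (y z w : ℂ) : ‖ta σ y w / ta σ y z‖ = 1 := by
  rw [norm_div, norm_ta, norm_ta, div_one]

lemma norm_qt (σ : ℂ → ℝ) (y z w : ℂ) {t : ℂ} (ht : ‖t‖ = 1) :
    ‖ta σ y w / ta σ y z * t‖ = 1 := by rw [norm_mul, norm_q, ht, one_mul]

lemma ke_nonneg (hβ : Bump β) (y z : ℂ) : 0 ≤ ke β σ ε y z := by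
  unfold ke gb
  have := hβ.nonneg (r2 σ y z / ε ^ 2)
  positivity

lemma Az_nonneg (hβ : Bump β) (hχ : ∀ z, 0 ≤ χ z) {z w t : ℂ} (ht : ‖t‖ = 1) (y : ℂ) :
    0 ≤ Az β σ χ ε z w t y := by
  unfold Az
  rw [one_sub_ck (norm_qt σ y z w ht)]
  have h1 := ke_nonneg (σ := σ) (ε := ε) hβ y z
  have h2 := ke_nonneg (σ := σ) (ε := ε) hβ y w
  have h3 := s2_nonneg (ta σ y w / ta σ y z * t)
  have h4 := hχ y
  positivity

lemma cont_Az (hβ : Bump β) (hσ : ContDiff ℝ ∞ σ) (hχ : Continuous χ) (ε : ℝ) :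
    Continuous fun q : ℂ × ℂ × ℂ × ℂ => Az β σ χ ε q.1 q.2.1 q.2.2.1 q.2.2.2 := by
  have hy : Continuous fun q : ℂ × ℂ × ℂ × ℂ => q.2.2.2 :=
    continuous_snd.comp (continuous_snd.comp continuous_snd)
  have hz : Continuous fun q : ℂ × ℂ × ℂ × ℂ => q.1 := continuous_fst
  have hw : Continuous fun q : ℂ × ℂ × ℂ × ℂ => q.2.1 := continuous_fst.comp continuous_snd
  have ht : Continuous fun q : ℂ × ℂ × ℂ × ℂ => q.2.2.1 :=
    continuous_fst.comp (continuous_snd.comp continuous_snd)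
  have k1 := (cont_ke hβ.smooth hσ ε).comp (hy.prodMk hz)
  have k2 := (cont_ke hβ.smooth hσ ε).comp (hy.prodMk hw)
  have t1 := (cont_ta hσ).comp (hy.prodMk hz)
  have t2 := (cont_ta hσ).comp (hy.prodMk hw)
  have e : (fun q : ℂ × ℂ × ℂ × ℂ => Az β σ χ ε q.1 q.2.1 q.2.2.1 q.2.2.2) =
      fun q : ℂ × ℂ × ℂ × ℂ => χ q.2.2.2 * (ke β σ ε q.2.2.2 q.1 * ke β σ ε q.2.2.2 q.2.1 *
        (1 - ((ta σ q.2.2.2 q.2.1 / ta σ q.2.2.2 q.1 * q.2.2.1) ^ 2).re)) := by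
    funext q
    unfold Az ck
    norm_cast
  rw [e]
  refine (hχ.comp hy).mul ((k1.mul k2).mul (continuous_const.sub ?_))
  exact Complex.continuous_re.comp (((t2.div t1 fun q => ta_ne σ _ _).mul ht).pow 2)

/-- the bound of the integrand -/
lemma Az_le (hβ : Bump β) (hχ0 : ∀ z, 0 ≤ χ z) (hχ1 : ∀ z, χ z ≤ 1) {z w t y : ℂ}
    (ht : ‖t‖ = 1) {B : ℝ} (hz : ke β σ ε y z ≤ B) (hw : ke β σ ε y w ≤ B) :
    ‖Az β σ χ ε z w t y‖ ≤ 2 * B ^ 2 := by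
  rw [Real.norm_of_nonneg (Az_nonneg hβ hχ0 ht y)]
  unfold Az
  rw [one_sub_ck (norm_qt σ y z w ht)]
  have h1 := ke_nonneg (σ := σ) (ε := ε) hβ y z
  have h2 := ke_nonneg (σ := σ) (ε := ε) hβ y w
  have h3 := s2_nonneg (ta σ y w / ta σ y z * t)
  have h5 := s2_le (norm_qt σ y z w ht)
  have hB : 0 ≤ B := h1.trans hz
  have h6 : ke β σ ε y z * ke β σ ε y w ≤ B * B := mul_le_mul hz hw h2 hB
  calc χ y * (ke β σ ε y z * ke β σ ε y w * (2 * s2 (ta σ y w / ta σ y z * t)))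
      ≤ 1 * (B * B * (2 * 1)) := by
        apply mul_le_mul (hχ1 y) _ (by positivity) zero_le_one
        exact mul_le_mul h6 (by linarith) (by positivity) (by positivity)
    _ = 2 * B ^ 2 := by ring

/-- the lower bound of the integrand near the pair -/
lemma Az_ge {z w t y : ℂ} (ht : ‖t‖ = 1) (hχ : χ y = 1) {A b : ℝ} (hA : 0 ≤ A)
    (hz : A ≤ ke β σ ε y z) (hw : A ≤ ke β σ ε y w) (hq : ‖ta σ y w / ta σ y z - 1‖ ≤ b) :
    A ^ 2 * (s2 t - 2 * b ^ 2) ≤ Az β σ χ ε z w t y := by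
  unfold Az
  rw [one_sub_ck (norm_qt σ y z w ht), hχ, one_mul]
  have h3 := s2_nonneg (ta σ y w / ta σ y z * t)
  have h4 := s2_mul_ge (norm_q σ y z w) ht hq
  have h6 : A * A ≤ ke β σ ε y z * ke β σ ε y w := mul_le_mul hz hw hA (hA.trans hz)
  calc A ^ 2 * (s2 t - 2 * b ^ 2) = A * A * (2 * (s2 t / 2 - b ^ 2)) := by ring
    _ ≤ A * A * (2 * s2 (ta σ y w / ta σ y z * t)) :=
        mul_le_mul_of_nonneg_left (by linarith) (mul_nonneg hA hA)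
    _ ≤ ke β σ ε y z * ke β σ ε y w * (2 * s2 (ta σ y w / ta σ y z * t)) :=
        mul_le_mul_of_nonneg_right h6 (by positivity)

/-- the inner integral -/
def hh (β : ℝ → ℝ) (σ : ℂ → ℝ) (χ : ℂ → ℝ) (ε : ℝ) {Ω : Type} (p u : Ω → ℂ) (x : Ω × Ω) : ℝ :=
  ∫ y, Az β σ χ ε (p x.1) (p x.2) (u x.1 / u x.2) y

lemma norm_uu {Ω : Type} {u : Ω → ℂ} (hu : ∀ o, ‖u o‖ = 1) (x : Ω × Ω) :
    ‖u x.1 / u x.2‖ = 1 := by rw [norm_div, hu, hu, div_one]

lemma hh_nonneg (hβ : Bump β) (hχ0 : ∀ z, 0 ≤ χ z) {Ω : Type} (p : Ω → ℂ) {u : Ω → ℂ}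
    (hu : ∀ o, ‖u o‖ = 1) (x : Ω × Ω) : 0 ≤ hh β σ χ ε p u x :=
  integral_nonneg fun y => Az_nonneg hβ hχ0 (norm_uu hu x) y

lemma integrable_Az (hβ : Bump β) (hσ : ContDiff ℝ ∞ σ) (hχ : Continuous χ)
    (hχs : HasCompactSupport χ) (z w t : ℂ) : Integrable fun y => Az β σ χ ε z w t y := by
  apply Continuous.integrable_of_hasCompactSupport
  · exact (cont_Az hβ hσ hχ ε).comp (continuous_const.prodMk (continuous_const.prodMk
      (continuous_const.prodMk continuous_id)))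
  · unfold Az
    exact hχs.mul_right

lemma integrable_hh (hβ : Bump β) (hσ : ContDiff ℝ ∞ σ) (hχ : Continuous χ)
    (hχs : HasCompactSupport χ) (hχ0 : ∀ z, 0 ≤ χ z) (hχ1 : ∀ z, χ z ≤ 1) {Ω : Type}
    [MeasurableSpace Ω] {μ : Measure Ω} [IsFiniteMeasure μ] {p u : Ω → ℂ} (hp : Measurable p)
    (hu : Measurable u) (hu1 : ∀ o, ‖u o‖ = 1) {K₀ : Set ℂ} (hpK : ∀ᵐ o ∂μ, p o ∈ K₀) {B : ℝ}
    (hB : ∀ y ∈ tsupport χ, ∀ z ∈ K₀, ke β σ ε y z ≤ B) :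
    Integrable (hh β σ χ ε p u) (μ.prod μ) := by
  have hm : StronglyMeasurable (hh β σ χ ε p u) := by
    have h1 : Measurable fun q : (Ω × Ω) × ℂ =>
        Az β σ χ ε (p q.1.1) (p q.1.2) (u q.1.1 / u q.1.2) q.2 := by
      refine (cont_Az hβ hσ hχ ε).measurable.comp (Measurable.prodMk ?_ (Measurable.prodMk ?_
        (Measurable.prodMk ?_ measurable_snd)))
      · exact hp.comp (measurable_fst.comp measurable_fst)
      · exact hp.comp (measurable_snd.comp measurable_fst)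
      · exact (hu.comp (measurable_fst.comp measurable_fst)).div
          (hu.comp (measurable_snd.comp measurable_fst))
    exact h1.stronglyMeasurable.integral_prod_right'
  have hae : ∀ᵐ x ∂(μ.prod μ), p x.1 ∈ K₀ ∧ p x.2 ∈ K₀ := by
    filter_upwards [Measure.quasiMeasurePreserving_fst.ae hpK,
      Measure.quasiMeasurePreserving_snd.ae hpK] with x h1 h2
    exact ⟨h1, h2⟩
  refine Integrable.of_bound hm.aestronglyMeasurable
    (2 * B ^ 2 * (volume : Measure ℂ).real (tsupport χ)) ?_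
  filter_upwards [hae] with x hx
  have h2 : hh β σ χ ε p u x =
      ∫ y in tsupport χ, Az β σ χ ε (p x.1) (p x.2) (u x.1 / u x.2) y := by
    unfold hh
    rw [setIntegral_eq_integral_of_forall_compl_eq_zero]
    intro y hy
    unfold Az
    rw [image_eq_zero_of_notMem_tsupport hy, zero_mul]
  rw [h2]
  exact norm_setIntegral_le_of_norm_le_const (IsCompact.measure_lt_top hχs) fun y hy =>
    Az_le hβ hχ0 hχ1 (norm_uu hu1 x) (hB y hy _ hx.1) (hB y hy _ hx.2)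

/-- the lower bound of the inner integral -/
lemma hh_ge (hβ : Bump β) (hσ : ContDiff ℝ ∞ σ) (hχ : Continuous χ)
    (hχs : HasCompactSupport χ) (hχ0 : ∀ z, 0 ≤ χ z) {Ω : Type} {p u : Ω → ℂ}
    (hu1 : ∀ o, ‖u o‖ = 1) {A b R : ℝ} (hA : 0 ≤ A) (hR : 0 ≤ R) (x : Ω × Ω)
    (hy : ∀ y ∈ Metric.closedBall (p x.1) R, χ y = 1 ∧ A ≤ ke β σ ε y (p x.1) ∧
      A ≤ ke β σ ε y (p x.2) ∧ ‖ta σ y (p x.2) / ta σ y (p x.1) - 1‖ ≤ b) :
    Real.pi * R ^ 2 * (A ^ 2 * (s2 (u x.1 / u x.2) - 2 * b ^ 2)) ≤ hh β σ χ ε p u x := by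
  have hi := integrable_Az (ε := ε) hβ hσ hχ hχs (p x.1) (p x.2) (u x.1 / u x.2)
  have hv : (volume : Measure ℂ).real (Metric.closedBall (p x.1) R) = Real.pi * R ^ 2 := by
    rw [Measure.real, Complex.volume_closedBall, ENNReal.toReal_mul, ENNReal.toReal_pow,
      ENNReal.toReal_ofReal hR]
    rw [mul_comm]
    rfl
  have h1 : ∫ y in Metric.closedBall (p x.1) R,
      Az β σ χ ε (p x.1) (p x.2) (u x.1 / u x.2) y ≤ hh β σ χ ε p u x :=
    setIntegral_le_integral hi (Eventually.of_forall fun y => Az_nonneg hβ hχ0 (norm_uu hu1 x) y)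
  refine le_trans ?_ h1
  have h2 : ∫ _y in Metric.closedBall (p x.1) R, A ^ 2 * (s2 (u x.1 / u x.2) - 2 * b ^ 2) =
      Real.pi * R ^ 2 * (A ^ 2 * (s2 (u x.1 / u x.2) - 2 * b ^ 2)) := by
    rw [setIntegral_const, hv, smul_eq_mul]
  rw [← h2]
  apply setIntegral_mono_on (integrableOn_const (measure_closedBall_lt_top.ne)) hi.integrableOn
    measurableSet_closedBall
  intro y hyb
  obtain ⟨a1, a2, a3, a4⟩ := hy y hyb
  exact Az_ge (norm_uu hu1 x) a1 hA a2 a3 a4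

lemma fbn_eq {Ω : Type} [MeasurableSpace Ω] {μ : Measure Ω} (p u : Ω → ℂ) :
    (II μ fun x => ∫ z, (χ z : ℂ) * ((ke β σ ε z (p x.1) * ke β σ ε z (p x.2)
          * (1 - ck 2 (ta σ z (p x.2) / ta σ z (p x.1) * (u x.1 / u x.2))) : ℝ) : ℂ))
      = ((∫ x, hh β σ χ ε p u x ∂(μ.prod μ) : ℝ) : ℂ) := by
  unfold II
  rw [← integral_complex_ofReal]
  apply integral_congr_ae
  refine Eventually.of_forall fun x => ?_
  unfold hh
  dsimp only
  rw [← integral_complex_ofReal]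
  apply integral_congr_ae
  refine Eventually.of_forall fun z => ?_
  unfold Az
  dsimp only
  push_cast
  ring

/-- the integral over the pairs of close points from the lower bound of the inner integral -/
lemma lower {Ω : Type} [MeasurableSpace Ω] {μ : Measure Ω} [IsFiniteMeasure μ] {p u : Ω → ℂ}
    (hβ : Bump β) (hχ0 : ∀ z, 0 ≤ χ z) (hu : Measurable u) (hu1 : ∀ o, ‖u o‖ = 1)
    {G : Set (Ω × Ω)} (hGm : MeasurableSet G) {N b S : ℝ} (hN : 0 < N)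
    (hG : ∀ x ∈ G, N * (s2 (u x.1 / u x.2) - 2 * b ^ 2) ≤ hh β σ χ ε p u x)
    (hint : Integrable (hh β σ χ ε p u) (μ.prod μ))
    (hS : ∫ x, hh β σ χ ε p u x ∂(μ.prod μ) ≤ S) :
    ∫ x in G, s2 (u x.1 / u x.2) ∂(μ.prod μ) ≤ S / N + 2 * b ^ 2 * (μ.prod μ).real univ := by
  have hm : Measurable fun x : Ω × Ω => s2 (u x.1 / u x.2) :=
    cont_s2.measurable.comp ((hu.comp measurable_fst).div (hu.comp measurable_snd))
  have hs : Integrable (fun x : Ω × Ω => s2 (u x.1 / u x.2)) (μ.prod μ) := by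
    refine Integrable.of_bound hm.aestronglyMeasurable 1 (Eventually.of_forall fun x => ?_)
    rw [Real.norm_of_nonneg (s2_nonneg _)]
    exact s2_le (norm_uu hu1 x)
  have h1 : ∫ x in G, N * (s2 (u x.1 / u x.2) - 2 * b ^ 2) ∂(μ.prod μ) ≤
      ∫ x in G, hh β σ χ ε p u x ∂(μ.prod μ) := by
    apply setIntegral_mono_on _ hint.integrableOn hGm hG
    exact ((hs.sub (integrable_const _)).const_mul N).integrableOn
  have h2 : ∫ x in G, hh β σ χ ε p u x ∂(μ.prod μ) ≤ ∫ x, hh β σ χ ε p u x ∂(μ.prod μ) :=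
    setIntegral_le_integral hint (Eventually.of_forall fun x => hh_nonneg hβ hχ0 p hu1 x)
  have h3 : ∫ x in G, N * (s2 (u x.1 / u x.2) - 2 * b ^ 2) ∂(μ.prod μ) =
      N * (∫ x in G, s2 (u x.1 / u x.2) ∂(μ.prod μ) - 2 * b ^ 2 * (μ.prod μ).real G) := by
    rw [integral_const_mul, integral_sub hs.integrableOn (integrable_const _)]
    rw [setIntegral_const, smul_eq_mul]
    ring
  have h4 : (μ.prod μ).real G ≤ (μ.prod μ).real univ := measureReal_mono (subset_univ _)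
  have h5 : ∫ x in G, s2 (u x.1 / u x.2) ∂(μ.prod μ) - 2 * b ^ 2 * (μ.prod μ).real G ≤ S / N := by
    rw [le_div_iff₀ hN, mul_comm, ← h3]
    exact (h1.trans h2).trans hS
  have h6 : 2 * b ^ 2 * (μ.prod μ).real G ≤ 2 * b ^ 2 * (μ.prod μ).real univ :=
    mul_le_mul_of_nonneg_left h4 (by positivity)
  linarith

/-- the quotient of two phases -/
lemma quot_le {y z w : ℂ} {a b : ℝ} (hw : ‖ta σ y w - 1‖ ≤ a) (hz : ‖ta σ y z - 1‖ ≤ b) :
    ‖ta σ y w / ta σ y z - 1‖ ≤ a + b := by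
  have e : ta σ y w / ta σ y z - 1 = (ta σ y w - ta σ y z) / ta σ y z := by
    rw [sub_div, div_self (ta_ne σ y z)]
  rw [e, norm_div, norm_ta, div_one]
  have e2 : ta σ y w - ta σ y z = (ta σ y w - 1) - (ta σ y z - 1) := by ring
  rw [e2]
  exact (norm_sub_le _ _).trans (add_le_add hw hz)

/-- the lower bound for the pairs of close points -/
lemma near_ge (hβ : Bump β) (hσ : ContDiff ℝ ∞ σ) (hχ : Continuous χ)
    (hχs : HasCompactSupport χ) (hχ0 : ∀ z, 0 ≤ χ z) {Ω : Type} {p u : Ω → ℂ}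
    (hu1 : ∀ o, ‖u o‖ = 1) {K : Set ℂ} {r c₁ Ct : ℝ} (hc₁ : 0 < c₁) (hε : 0 < ε)
    (hCt : 0 < Ct)
    (h1 : ∀ z ∈ Metric.cthickening r K, χ z = 1)
    (hkel : ∀ z w : ℂ, z ∈ Metric.cthickening r K → ‖z - w‖ ≤ c₁ * ε →
      c₁ / ε ^ 2 ≤ ke β σ ε z w)
    (hta : ∀ z ∈ Metric.cthickening r K, ∀ w ∈ Metric.cthickening r K,
      ‖ta σ z w - 1‖ ≤ Ct * ‖w - z‖)
    (hr : c₁ / 2 * ε ≤ r) (x : Ω × Ω) (hx : p x.1 ∈ K) (hd : ‖p x.1 - p x.2‖ ≤ c₁ / 2 * ε) :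
    Real.pi * (c₁ / 2 * ε) ^ 2 * (c₁ / ε ^ 2) ^ 2 *
      (s2 (u x.1 / u x.2) - 2 * (3 * Ct * (c₁ / 2 * ε)) ^ 2) ≤ hh β σ χ ε p u x := by
  have hR : 0 < c₁ / 2 * ε := by positivity
  have hin : ∀ y, ‖y - p x.1‖ ≤ c₁ / 2 * ε → y ∈ Metric.cthickening r K := by
    intro y hy
    refine Metric.mem_cthickening_of_dist_le y (p x.1) r K hx ?_
    rw [dist_eq_norm]
    exact hy.trans hr
  have hz := hin (p x.1) (by rw [sub_self, norm_zero]; exact hR.le)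
  have hw := hin (p x.2) (by rw [norm_sub_rev]; exact hd)
  have key := hh_ge (ε := ε) (p := p) (u := u) (A := c₁ / ε ^ 2)
    (b := 3 * Ct * (c₁ / 2 * ε)) (R := c₁ / 2 * ε) hβ hσ hχ hχs hχ0 hu1 (by positivity)
    hR.le x ?_
  · calc _ = Real.pi * (c₁ / 2 * ε) ^ 2 * ((c₁ / ε ^ 2) ^ 2 *
      (s2 (u x.1 / u x.2) - 2 * (3 * Ct * (c₁ / 2 * ε)) ^ 2)) := by ring
      _ ≤ _ := key
  · intro y hyb
    rw [Metric.mem_closedBall, dist_eq_norm] at hyb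
    have hy := hin y hyb
    have hyw : ‖y - p x.2‖ ≤ c₁ * ε := by
      calc ‖y - p x.2‖ = ‖(y - p x.1) + (p x.1 - p x.2)‖ := by ring_nf
        _ ≤ ‖y - p x.1‖ + ‖p x.1 - p x.2‖ := norm_add_le _ _
        _ ≤ c₁ / 2 * ε + c₁ / 2 * ε := add_le_add hyb hd
        _ = c₁ * ε := by ring
    have hyz : ‖y - p x.1‖ ≤ c₁ * ε := by linarith
    refine ⟨h1 y hy, hkel y _ hy hyz, hkel y _ hy hyw, ?_⟩
    have a1 := hta y hy _ hw
    have a2 := hta y hy _ hz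
    refine (quot_le a1 a2).trans ?_
    rw [norm_sub_rev (p x.2), norm_sub_rev (p x.1)]
    calc Ct * ‖y - p x.2‖ + Ct * ‖y - p x.1‖ ≤ Ct * (c₁ * ε) + Ct * (c₁ / 2 * ε) :=
          add_le_add (mul_le_mul_of_nonneg_left hyw hCt.le)
            (mul_le_mul_of_nonneg_left hyb hCt.le)
      _ = 3 * Ct * (c₁ / 2 * ε) := by ring

end

end SNE

open SNE

/-- **SNE**: the pairs of close points, weighted by the square of the sine of the angle. -/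
theorem t_SNE (hM : StmtMas) (hK : StmtKel) (hF : StmtFbn) (hz : StmtKsz) : StmtSne := by
  intro V σ Ω _ μ p u β c hV hσ hD hβ hc hβc hlim
  refine ⟨fun K hKc hKV => hM V σ Ω μ p u hV hD K hKc hKV, ?_⟩
  intro K hKc hKV
  have : IsFiniteMeasure μ := ⟨lt_top_iff_ne_top.2 hD.fin⟩
  obtain ⟨r, hr, hrV⟩ := hKc.exists_cthickening_subset_open hV hKV
  have hK₁ : IsCompact (Metric.cthickening r K) := hKc.cthickening
  obtain ⟨χ, hχT, hχ, hχs, hχ0, hχ1, hχK⟩ := exists_cut hV hK₁ hrV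
  obtain ⟨K₀, hK₀, hpK⟩ := hD.cpt
  obtain ⟨c₁, hc₁, hkel⟩ := hK β c σ (Metric.cthickening r K) hβ hc hβc hσ hK₁
  obtain ⟨Ct, hCt, hta⟩ := hz β σ (Metric.cthickening r K) hβ hσ hK₁
  have hK₂ : IsCompact (tsupport χ ∪ K₀) := IsCompact.union hχs hK₀
  obtain ⟨Ck, hCk, hck⟩ := hz β σ (tsupport χ ∪ K₀) hβ hσ hK₂
  obtain ⟨l, hl⟩ := hlim (fun z => (χ z : ℂ)) hχT
  have hev : ∀ᶠ ε : ℝ in 𝓝[>] 0, ‖∫ z, (χ z : ℂ) *
      ((mx β β σ ε μ p u 0 z - mx β β σ ε μ p u 2 z : ℝ) : ℂ)‖ < ‖l‖ + 1 :=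
    hl.norm.eventually (gt_mem_nhds (lt_add_one _))
  rw [eventually_nhdsWithin_iff, Metric.eventually_nhds_iff] at hev
  obtain ⟨ε₁, hε₁, hev⟩ := hev
  set M : ℝ := (μ.prod μ).real univ with hMdef
  have hM0 : 0 ≤ M := measureReal_nonneg
  -- the bound at the scale `c₁ / 2 * ε`
  have main : ∀ ε : ℝ, 0 < ε → ε < ε₁ → ε ≤ 1 → c₁ / 2 * ε ≤ r →
      ∫ x in {x : Ω × Ω | p x.1 ∈ K ∧ ‖p x.1 - p x.2‖ ≤ c₁ / 2 * ε},
        s2 (u x.1 / u x.2) ∂(μ.prod μ) ≤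
        (‖l‖ + 1) / (Real.pi * (c₁ / 2 * ε) ^ 2 * (c₁ / ε ^ 2) ^ 2)
          + 2 * (3 * Ct * (c₁ / 2 * ε)) ^ 2 * M := by
    intro ε hε hεε₁ hε1 hεr
    have hGm : MeasurableSet {x : Ω × Ω | p x.1 ∈ K ∧ ‖p x.1 - p x.2‖ ≤ c₁ / 2 * ε} := by
      have m1 : Measurable fun x : Ω × Ω => p x.1 := hD.mp.comp measurable_fst
      have m2 : Measurable fun x : Ω × Ω => p x.2 := hD.mp.comp measurable_snd
      exact (m1 hKc.measurableSet).inter
        (measurableSet_le (m1.sub m2).norm measurable_const)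
    have hint : Integrable (hh β σ χ ε p u) (μ.prod μ) := by
      refine integrable_hh (B := Ck / ε ^ 2) hβ hσ hχ hχs hχ0 hχ1 hD.mp hD.mu hD.unit hpK ?_
      intro y hy z hz'
      exact (hck ε hε y (Or.inl hy) z (Or.inr hz')).2.1
    have hS : ∫ x, hh β σ χ ε p u x ∂(μ.prod μ) ≤ ‖l‖ + 1 := by
      have h1 := hF V σ Ω μ p u β β (fun z => (χ z : ℂ)) ε 2 hσ hD hβ hβ hχT hε
      rw [fbn_eq] at h1
      have h2 := hev (y := ε) (by rw [dist_zero_right, Real.norm_of_nonneg hε.le]; exact hεε₁) hε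
      rw [h1, Complex.norm_real] at h2
      exact (le_abs_self _).trans h2.le
    refine lower hβ hχ0 hD.mu hD.unit hGm (by positivity) ?_ hint hS
    intro x hx
    exact near_ge hβ hσ hχ hχs hχ0 hD.unit hc₁ hε hCt hχK
      (fun z w hz' hd => hkel ε hε hε1 z w hz' hd)
      (fun z hz' w hw' => (hta ε hε z hz' w hw').2.2.2.1) hεr x hx.1 hx.2
  refine ⟨(‖l‖ + 1) * 4 / (Real.pi * c₁ ^ 4) * (4 / c₁ ^ 2) + 18 * Ct ^ 2 * M,
    min (c₁ / 2 * min ε₁ 1) r, by positivity, ?_⟩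
  intro δ hδ hδ'
  have hδ1 : δ < c₁ / 2 * min ε₁ 1 := hδ'.trans_le (min_le_left _ _)
  have hδ2 : δ < r := hδ'.trans_le (min_le_right _ _)
  have hc2 : 0 < c₁ / 2 := by positivity
  have hεm : δ / (c₁ / 2) < min ε₁ 1 := by
    rw [div_lt_iff₀ hc2, mul_comm]
    exact hδ1
  have e : c₁ / 2 * (δ / (c₁ / 2)) = δ := by field_simp
  have hb := main (δ / (c₁ / 2)) (by positivity) (hεm.trans_le (min_le_left _ _))
    (hεm.le.trans (min_le_right _ _)) (by rw [e]; exact hδ2.le)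
  rw [e] at hb
  refine hb.trans (le_of_eq ?_)
  have hc0 : c₁ ≠ 0 := hc₁.ne'
  have hδ0 : δ ≠ 0 := hδ.ne'
  have hp0 : Real.pi ≠ 0 := Real.pi_ne_zero
  field_simp
  ring

end

end CRM
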