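import Pool.Agent.CRM.Stmts

/-!
SWP: the limits are symmetric.
-/

open Complex MeasureTheory Filter Topology Set
open scoped ContDiff

namespace CRM

open QE QJ U3

namespace SWP

theorem s2_nonneg (t : ℂ) : 0 ≤ s2 t := by
  unfold s2
  positivity

theorem s2_le {t : ℂ} (ht : ‖t‖ = 1) : s2 t ≤ 1 := by
  unfold s2
  have h1 : ‖t ^ 2 - 1‖ ≤ 2 := by
    refine (norm_sub_le _ _).trans ?_
    rw [norm_pow, ht, norm_one]
    norm_num
  have h2 : ‖t ^ 2 - 1‖ ^ 2 ≤ 2 ^ 2 := pow_le_pow_left₀ (norm_nonneg _) h1 2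
  linarith

theorem s2_inv {t : ℂ} (ht : ‖t‖ = 1) : s2 t⁻¹ = s2 t := by
  have h0 : t ≠ 0 := by
    intro h
    rw [h, norm_zero] at ht
    exact zero_ne_one ht
  unfold s2
  have h1 : (t⁻¹) ^ 2 - 1 = - ((t⁻¹) ^ 2 * (t ^ 2 - 1)) := by
    field_simp
    ring
  rw [h1, norm_neg, norm_mul, norm_pow, norm_inv, ht]
  norm_num

theorem s2_cont : Continuous s2 := by
  unfold s2
  fun_prop

theorem beta_bdd {β : ℝ → ℝ} (hβ : Bump β) : ∃ M : ℝ, 0 ≤ M ∧ ∀ t, 0 ≤ t → β t ≤ M := by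
  obtain ⟨M, hM⟩ := isCompact_Icc.exists_bound_of_continuousOn
    (f := β) (s := Set.Icc (0 : ℝ) 1) hβ.smooth.continuous.continuousOn
  refine ⟨max M 0, le_max_right _ _, fun t ht => ?_⟩
  by_cases h1 : t ≤ 1
  · exact (le_abs_self _).trans ((hM t ⟨ht, h1⟩).trans (le_max_left _ _))
  · rw [hβ.supp t (le_of_lt (not_le.1 h1))]
    exact le_max_right _ _

theorem r2_comm (σ : ℂ → ℝ) (z w : ℂ) : r2 σ z w = r2 σ w z := by
  unfold r2
  rw [add_comm (σ z), norm_sub_rev]

theorem r2_nonneg (σ : ℂ → ℝ) (z w : ℂ) : 0 ≤ r2 σ z w := by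
  unfold r2
  positivity

theorem kb_eq (β : ℝ → ℝ) (σ : ℂ → ℝ) (ε : ℝ) (z w : ℂ) : kb β σ ε z w = ke β σ ε w z := by
  unfold kb ke gb
  rw [r2_comm]

theorem kb_cont {β : ℝ → ℝ} (hβ : Bump β) {σ : ℂ → ℝ} (hσ : ContDiff ℝ ∞ σ) (ε : ℝ) :
    Continuous fun q : ℂ × ℂ => kb β σ ε q.1 q.2 := by
  have h1 := hβ.smooth.continuous
  have h2 := hσ.continuous
  unfold kb r2
  fun_prop

theorem kb_nonneg {β : ℝ → ℝ} (hβ : Bump β) (σ : ℂ → ℝ) {ε : ℝ} (z w : ℂ) :
    0 ≤ kb β σ ε z w := by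
  unfold kb
  have := hβ.nonneg (r2 σ z w / ε ^ 2)
  positivity

end SWP

open SWP in
theorem t_SWP (hz : StmtKsz) : StmtSwp := by
  intro V σ Ω _ μ p u ζ k β hV hσ hD hP hζ hβ
  have hfin : IsFiniteMeasure μ := ⟨lt_top_iff_ne_top.2 hD.fin⟩
  obtain ⟨K₀, hK₀, hpK₀⟩ := hD.cpt
  obtain ⟨C₀, hC₀, hker⟩ := hz β σ K₀ hβ hσ hK₀
  obtain ⟨M, hM0, hM⟩ := beta_bdd hβ
  -- the Lipschitz function
  let g : ℂ → ℂ := fun z => ζ z * (Real.exp (2 * σ z) : ℂ)
  have hgs : ContDiff ℝ ∞ g := by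
    have h1 : ContDiff ℝ ∞ fun z => (Real.exp (2 * σ z) : ℂ) :=
      Complex.ofRealCLM.contDiff.comp (Real.contDiff_exp.comp (contDiff_const.mul hσ))
    exact hζ.smooth.mul h1
  have hgc : HasCompactSupport g := HasCompactSupport.mul_right hζ.supp
  obtain ⟨L, hL⟩ := (hgs.of_le (by exact_mod_cast le_top) : ContDiff ℝ 1 g).lipschitzWith_of_hasCompactSupport
    hgc (by norm_num)
  obtain ⟨r, hr, hrV⟩ := hζ.supp.isCompact.exists_cthickening_subset_open hV hζ.sub
  set K := Metric.cthickening r (tsupport ζ) with hK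
  have hKc : IsCompact K := hζ.supp.isCompact.cthickening
  obtain ⟨C₁, ε₁, hε₁, hsine⟩ := hP.sine K hKc hrV
  have hu : ∀ x : Ω × Ω, ‖u x.1 / u x.2‖ = 1 := by
    intro x
    rw [norm_div, hD.unit, hD.unit, div_one]
  have hae : ∀ᵐ x : Ω × Ω ∂(μ.prod μ), p x.1 ∈ K₀ ∧ p x.2 ∈ K₀ :=
    (Measure.quasiMeasurePreserving_fst.ae hpK₀).and (Measure.quasiMeasurePreserving_snd.ae hpK₀)
  have hmt : Measurable fun x : Ω × Ω => u x.1 / u x.2 :=
    (hD.mu.comp measurable_fst).div (hD.mu.comp measurable_snd)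
  obtain ⟨Z, hZ⟩ := hζ.supp.exists_bound_of_continuous hζ.smooth.continuous
  -- integrability
  have hint : ∀ ε : ℝ, 0 < ε → ∀ j : ℤ, Integrable (fun x : Ω × Ω =>
      ((kb β σ ε (p x.1) (p x.2) * s2 (u x.1 / u x.2) : ℝ) : ℂ) *
        (ζ (p x.1) * (u x.1 / u x.2) ^ j)) (μ.prod μ) := by
    intro ε hε j
    have hm : Measurable (fun x : Ω × Ω =>
      ((kb β σ ε (p x.1) (p x.2) * s2 (u x.1 / u x.2) : ℝ) : ℂ) *
        (ζ (p x.1) * (u x.1 / u x.2) ^ j)) := by
      refine Measurable.mul ?_ ?_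
      · refine Complex.measurable_ofReal.comp (Measurable.mul ?_ (s2_cont.measurable.comp hmt))
        exact (kb_cont hβ hσ ε).measurable.comp
          ((hD.mp.comp measurable_fst).prodMk (hD.mp.comp measurable_snd))
      · exact (hζ.smooth.continuous.measurable.comp (hD.mp.comp measurable_fst)).mul
          (hmt.pow_const j)
    refine Integrable.of_bound hm.aestronglyMeasurable (C₀ / ε ^ 2 * 1 * Z) ?_
    filter_upwards [hae] with x hx
    have h1 := hker ε hε (p x.2) hx.2 (p x.1) hx.1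
    rw [norm_mul, norm_mul, norm_zpow, hu, one_zpow, mul_one, Complex.norm_real,
      Real.norm_of_nonneg (mul_nonneg (kb_nonneg hβ σ _ _) (s2_nonneg _))]
    have h2 : kb β σ ε (p x.1) (p x.2) ≤ C₀ / ε ^ 2 := by
      rw [kb_eq]
      exact h1.2.1
    have h3 : 0 ≤ kb β σ ε (p x.1) (p x.2) := kb_nonneg hβ σ _ _
    have h4 : kb β σ ε (p x.1) (p x.2) * s2 (u x.1 / u x.2) ≤ C₀ / ε ^ 2 * 1 :=
      mul_le_mul h2 (s2_le (hu x)) (s2_nonneg _) (h3.trans h2)
    exact mul_le_mul h4 (hZ _) (norm_nonneg _) ((mul_nonneg h3 (s2_nonneg _)).trans h4)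
  -- the main estimate
  have key : ∀ ε : ℝ, 0 < ε → C₀ * ε < ε₁ → C₀ * ε ≤ r →
      ‖(XK μ p u (kb β σ ε) fun x => ζ x.1 * x.2 ^ k)
      - XK μ p u (kb β σ ε) fun x => ζ x.1 * x.2 ^ (-k)‖ ≤ (L * M * C₁ * C₀ ^ 3) * ε := by
    intro ε hε h1 h2
    have hA := hint ε hε k
    have hB := hint ε hε (-k)
    set A : Ω × Ω → ℂ := fun x =>
      ((kb β σ ε (p x.1) (p x.2) * s2 (u x.1 / u x.2) : ℝ) : ℂ) *
        (ζ (p x.1) * (u x.1 / u x.2) ^ k) with hAdef
    set B : Ω × Ω → ℂ := fun x =>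
      ((kb β σ ε (p x.1) (p x.2) * s2 (u x.1 / u x.2) : ℝ) : ℂ) *
        (ζ (p x.1) * (u x.1 / u x.2) ^ (-k)) with hBdef
    have e1 : (XK μ p u (kb β σ ε) fun x => ζ x.1 * x.2 ^ k) = ∫ x, A x.swap ∂(μ.prod μ) := by
      rw [integral_prod_swap]
      rfl
    have e2 : (XK μ p u (kb β σ ε) fun x => ζ x.1 * x.2 ^ (-k)) = ∫ x, B x ∂(μ.prod μ) := rfl
    have hA' : Integrable (fun x : Ω × Ω => A x.swap) (μ.prod μ) := hA.swap
    rw [e1, e2, ← integral_sub hA' hB]
    set S : Set (Ω × Ω) := {x | p x.1 ∈ K ∧ ‖p x.1 - p x.2‖ ≤ C₀ * ε} with hS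
    have hSm : MeasurableSet S :=
      (hKc.measurableSet.preimage (hD.mp.comp measurable_fst)).inter
        (measurableSet_le (((hD.mp.comp measurable_fst).sub (hD.mp.comp measurable_snd)).norm)
          measurable_const)
    have hc0 : 0 ≤ L * C₀ * M / ε := by
      have := L.2
      positivity
    have hbound : ∀ᵐ x ∂(μ.prod μ), ‖A x.swap - B x‖ ≤
        S.indicator (fun x => L * C₀ * M / ε * s2 (u x.1 / u x.2)) x := by
      filter_upwards [hae] with x hx
      have ht := hu x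
      have hnn : 0 ≤ S.indicator (fun x => L * C₀ * M / ε * s2 (u x.1 / u x.2)) x :=
        Set.indicator_nonneg (fun y _ => mul_nonneg hc0 (s2_nonneg _)) x
      have ht' : u x.2 / u x.1 = (u x.1 / u x.2)⁻¹ := (inv_div _ _).symm
      have eq1 : A x.swap - B x = (s2 (u x.1 / u x.2) : ℂ) * (u x.1 / u x.2) ^ (-k) *
          ((β (r2 σ (p x.1) (p x.2) / ε ^ 2) / ε ^ 2 : ℝ) : ℂ) * (g (p x.2) - g (p x.1)) := by
        simp only [hAdef, hBdef, Prod.fst_swap, Prod.snd_swap]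
        rw [ht', s2_inv ht, inv_zpow', kb, kb, r2_comm σ (p x.2)]
        simp only [g]
        push_cast
        ring
      have hβn := hβ.nonneg (r2 σ (p x.1) (p x.2) / ε ^ 2)
      have eq2 : ‖A x.swap - B x‖ = s2 (u x.1 / u x.2) *
          (β (r2 σ (p x.1) (p x.2) / ε ^ 2) / ε ^ 2) * ‖g (p x.2) - g (p x.1)‖ := by
        rw [eq1, norm_mul, norm_mul, norm_mul, norm_zpow, ht, one_zpow, mul_one,
          Complex.norm_real, Complex.norm_real, Real.norm_of_nonneg (s2_nonneg _),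
          Real.norm_of_nonneg (by positivity)]
      rw [eq2]
      by_cases hd : ‖p x.1 - p x.2‖ ≤ C₀ * ε
      · by_cases hzK : p x.1 ∈ K
        · have hxS : x ∈ S := ⟨hzK, hd⟩
          rw [Set.indicator_of_mem hxS]
          have b1 : β (r2 σ (p x.1) (p x.2) / ε ^ 2) / ε ^ 2 ≤ M / ε ^ 2 := by
            have := hM (r2 σ (p x.1) (p x.2) / ε ^ 2)
              (div_nonneg (r2_nonneg _ _ _) (by positivity))
            gcongr
          have b2 : ‖g (p x.2) - g (p x.1)‖ ≤ L * (C₀ * ε) := by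
            have h3 := hL.dist_le_mul (p x.2) (p x.1)
            rw [dist_eq_norm, dist_eq_norm, norm_sub_rev (p x.2)] at h3
            exact h3.trans (mul_le_mul_of_nonneg_left hd L.2)
          have b3 : s2 (u x.1 / u x.2) * (β (r2 σ (p x.1) (p x.2) / ε ^ 2) / ε ^ 2) *
              ‖g (p x.2) - g (p x.1)‖ ≤ s2 (u x.1 / u x.2) * (M / ε ^ 2) * (L * (C₀ * ε)) := by
            have := s2_nonneg (u x.1 / u x.2)
            refine mul_le_mul (mul_le_mul_of_nonneg_left b1 this) b2 (norm_nonneg _) ?_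
            positivity
          refine b3.trans (le_of_eq ?_)
          field_simp
        · have hz0 : p x.1 ∉ tsupport ζ := fun h3 => hzK (Metric.self_subset_cthickening _ h3)
          have hw0 : p x.2 ∉ tsupport ζ := by
            intro h3
            apply hzK
            refine Metric.mem_cthickening_of_dist_le _ (p x.2) r _ h3 ?_
            rw [dist_eq_norm]
            exact hd.trans h2
          have g1 : g (p x.1) = 0 := by
            simp only [g]
            rw [image_eq_zero_of_notMem_tsupport hz0, zero_mul]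
          have g2 : g (p x.2) = 0 := by
            simp only [g]
            rw [image_eq_zero_of_notMem_tsupport hw0, zero_mul]
          rw [g1, g2, sub_zero, norm_zero, mul_zero]
          exact hnn
      · have h3 := (hker ε hε (p x.1) hx.1 (p x.2) hx.2).2.2.1 (by
          rw [norm_sub_rev]
          exact not_le.1 hd)
        have h4 : β (r2 σ (p x.1) (p x.2) / ε ^ 2) / ε ^ 2 = 0 := by
          unfold ke gb at h3
          rcases mul_eq_zero.1 h3 with h5 | h5
          · exact absurd h5 (Real.exp_pos _).ne'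
          · exact h5
        rw [h4, mul_zero, zero_mul]
        exact hnn
    have hgi : Integrable (S.indicator (fun x : Ω × Ω => L * C₀ * M / ε * s2 (u x.1 / u x.2)))
        (μ.prod μ) := by
      refine Integrable.indicator (Integrable.const_mul ?_ _) hSm
      refine Integrable.of_bound (s2_cont.measurable.comp hmt).aestronglyMeasurable 1 ?_
      refine Eventually.of_forall fun x => ?_
      rw [Real.norm_of_nonneg (s2_nonneg _)]
      exact s2_le (hu x)
    have h5 := norm_integral_le_of_norm_le hgi hbound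
    rw [integral_indicator hSm, integral_const_mul] at h5
    have h6 := hsine (C₀ * ε) (by positivity) h1
    refine h5.trans ((mul_le_mul_of_nonneg_left h6 hc0).trans (le_of_eq ?_))
    field_simp
  have hlim : Tendsto (fun ε : ℝ => (L * M * C₁ * C₀ ^ 3) * ε) (𝓝[>] 0) (𝓝 0) := by
    have h1 : Tendsto (fun ε : ℝ => (L * M * C₁ * C₀ ^ 3) * ε) (𝓝 0)
        (𝓝 ((L * M * C₁ * C₀ ^ 3) * 0)) := (continuous_const.mul continuous_id).tendsto 0
    rw [mul_zero] at h1
    exact h1.mono_left nhdsWithin_le_nhds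
  refine squeeze_zero_norm' ?_ hlim
  have hC : Tendsto (fun ε : ℝ => C₀ * ε) (𝓝[>] 0) (𝓝 0) := by
    have h1 : Tendsto (fun ε : ℝ => C₀ * ε) (𝓝 0) (𝓝 (C₀ * 0)) :=
      (continuous_const.mul continuous_id).tendsto 0
    rw [mul_zero] at h1
    exact h1.mono_left nhdsWithin_le_nhds
  filter_upwards [self_mem_nhdsWithin, hC.eventually (gt_mem_nhds hε₁),
    hC.eventually (gt_mem_nhds hr)] with ε h1 h2 h3
  exact key ε h1 h2 h3.le

end CRM
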