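import Pool.Agent.CRM.Stmts

/-!
The effect of a small phase.
-/

open Complex MeasureTheory Filter Topology Set
open scoped ContDiff

namespace CRM

open QE QJ U3

namespace TPH

theorem npow_sub_one (z : ℂ) (hz : ‖z‖ = 1) (n : ℕ) : ‖z ^ n - 1‖ ≤ n * ‖z - 1‖ := by
  induction n with
  | zero => simp
  | succ n ih =>
    have h : z ^ (n + 1) - 1 = z ^ n * (z - 1) + (z ^ n - 1) := by ring
    rw [h]
    refine (norm_add_le _ _).trans ?_
    rw [norm_mul, norm_pow, hz, one_pow, one_mul]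
    push_cast
    linarith

theorem zpow_sub_one (z : ℂ) (hz : ‖z‖ = 1) (k : ℤ) : ‖z ^ k - 1‖ ≤ |(k : ℝ)| * ‖z - 1‖ := by
  have hz0 : z ≠ 0 := fun h => by rw [h, norm_zero] at hz; exact zero_ne_one hz
  obtain ⟨n, rfl | rfl⟩ := Int.eq_nat_or_neg k
  · rw [zpow_natCast, Int.cast_natCast, Nat.abs_cast]
    exact npow_sub_one z hz n
  · have h : z ^ (-(n : ℤ)) - 1 = -(z ^ (-(n : ℤ)) * (z ^ n - 1)) := by
      rw [mul_sub, zpow_neg, zpow_natCast, inv_mul_cancel₀ (pow_ne_zero _ hz0)]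
      ring
    rw [h, norm_neg, norm_mul, norm_zpow, hz, one_zpow, one_mul, Int.cast_neg, abs_neg,
      Int.cast_natCast, Nat.abs_cast]
    exact npow_sub_one z hz n

theorem re_sub_one (z : ℂ) (hz : ‖z‖ = 1) : |(z - 1).re| = ‖z - 1‖ ^ 2 / 2 := by
  have h1 : ‖z‖ ^ 2 = z.re ^ 2 + z.im ^ 2 := by
    rw [← Complex.normSq_eq_norm_sq, Complex.normSq_apply]; ring
  have h2 : ‖z - 1‖ ^ 2 = (z.re - 1) ^ 2 + z.im ^ 2 := by
    rw [← Complex.normSq_eq_norm_sq, Complex.normSq_apply]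
    simp
    ring
  rw [hz] at h1
  have h3 : (z - 1).re = -(‖z - 1‖ ^ 2 / 2) := by
    rw [h2, Complex.sub_re, Complex.one_re]
    linarith
  rw [h3, abs_neg, abs_of_nonneg (by positivity)]

theorem im_eq (s : ℂ) (hs : ‖s‖ = 1) : |s.im| = ‖s ^ 2 - 1‖ / 2 := by
  have h1 : s * (starRingEnd ℂ) s = 1 := by
    rw [Complex.mul_conj, Complex.normSq_eq_norm_sq, hs]
    norm_num
  have h2 : s ^ 2 - 1 = s * (s - (starRingEnd ℂ) s) := by
    rw [mul_sub, h1]; ring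
  have h3 : s - (starRingEnd ℂ) s = ((2 * s.im : ℝ) : ℂ) * Complex.I := Complex.sub_conj s
  rw [h2, h3, norm_mul, norm_mul, hs, Complex.norm_I, Complex.norm_real, Real.norm_eq_abs,
    abs_mul, abs_two]
  ring

end TPH

theorem t_TPH : StmtTph := by
  intro k
  refine ⟨(k : ℝ) ^ 2, fun q t hq ht => ?_⟩
  set A := q ^ k with hA
  set s := t ^ k with hs
  have hA1 : ‖A‖ = 1 := by rw [hA, norm_zpow, hq, one_zpow]
  have hs1 : ‖s‖ = 1 := by rw [hs, norm_zpow, ht, one_zpow]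
  have e1 : ck k (q * t) - ck k t = s.re * (A - 1).re - s.im * (A - 1).im := by
    unfold ck
    rw [mul_zpow, ← hA, ← hs, ← Complex.sub_re, ← Complex.mul_re]
    congr 1
    ring
  have hAq : ‖A - 1‖ ≤ |(k : ℝ)| * ‖q - 1‖ := TPH.zpow_sub_one q hq k
  have e2 : |(A - 1).re| = ‖A - 1‖ ^ 2 / 2 := TPH.re_sub_one A hA1
  have e3 : |(A - 1).im| ≤ ‖A - 1‖ := Complex.abs_im_le_norm _
  have e4 : |s.re| ≤ 1 := by rw [← hs1]; exact Complex.abs_re_le_norm _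
  have hsq : Real.sqrt (s2 t) = ‖t ^ 2 - 1‖ / 2 := by
    have : s2 t = (‖t ^ 2 - 1‖ / 2) ^ 2 := by unfold s2; ring
    rw [this, Real.sqrt_sq (by positivity)]
  have e5 : |s.im| ≤ |(k : ℝ)| * Real.sqrt (s2 t) := by
    rw [TPH.im_eq s hs1, hsq]
    have h1 : s ^ 2 = (t ^ 2) ^ k := by
      rw [hs, ← zpow_natCast, ← zpow_natCast, ← zpow_mul, ← zpow_mul, mul_comm]
    have h2 := TPH.zpow_sub_one (t ^ 2) (by rw [norm_pow, ht, one_pow]) k
    rw [h1]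
    linarith
  have hk : (k : ℝ) ^ 2 = |(k : ℝ)| ^ 2 := (sq_abs _).symm
  have hk0 : 0 ≤ |(k : ℝ)| := abs_nonneg _
  have hq0 : 0 ≤ ‖q - 1‖ := norm_nonneg _
  have hA0 : 0 ≤ ‖A - 1‖ := norm_nonneg _
  have hS0 : 0 ≤ Real.sqrt (s2 t) := Real.sqrt_nonneg _
  rw [e1]
  refine (abs_sub _ _).trans ?_
  rw [abs_mul, abs_mul]
  have f1 : |s.re| * |(A - 1).re| ≤ ‖A - 1‖ ^ 2 / 2 := by
    rw [e2]
    exact mul_le_of_le_one_left (by positivity) e4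
  have f2 : |s.im| * |(A - 1).im| ≤ (|(k : ℝ)| * Real.sqrt (s2 t)) * (|(k : ℝ)| * ‖q - 1‖) :=
    mul_le_mul e5 (e3.trans hAq) (abs_nonneg _) (by positivity)
  have f3 : ‖A - 1‖ ^ 2 ≤ (|(k : ℝ)| * ‖q - 1‖) ^ 2 := pow_le_pow_left₀ hA0 hAq 2
  rw [hk]
  have f4 : 0 ≤ (|(k : ℝ)| * ‖q - 1‖) ^ 2 := by positivity
  nlinarith [f1, f2, f3, f4]

end CRM
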