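import Pool.Agent.CRM.ALL
import Pool.Agent.CRM.BMP
import Pool.Agent.CRM.CRL
import Pool.Agent.CRM.DNS
import Pool.Agent.CRM.FBN
import Pool.Agent.CRM.IND
import Pool.Agent.CRM.KBL
import Pool.Agent.CRM.KCP
import Pool.Agent.CRM.KEL
import Pool.Agent.CRM.LMT
import Pool.Agent.CRM.MAS
import Pool.Agent.CRM.ODD
import Pool.Agent.CRM.POL
import Pool.Agent.CRM.SNE
import Pool.Agent.CRM.SWP
import Pool.Agent.CRM.TPH
import Pool.Agent.BWM.C23
import Pool.Agent.BWM.C35
import Pool.Agent.BWM.C40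
import Pool.Agent.BWM.C41

/-!
The local crossing measure: assembly.
-/

namespace CRM

open U3

theorem lmt : StmtLmt := t_LMT t_BMP fouB
theorem pol : StmtPol := t_POL lmt t_BMP dir peO peS
theorem sne : StmtSne := t_SNE t_MAS t_KEL t_FBN stmtKsz
theorem kbl : StmtKbl := t_KBL t_BMP t_TPH (t_KCP stmtKsz) t_FBN
theorem swp : StmtSwp := t_SWP stmtKsz
theorem all : StmtAll := t_ALL t_DNS stmtKsz
theorem ind : StmtInd := t_IND t_BMP

/-- the local theorem -/
theorem crl : StmtCrl := t_CRL t_BMP dir pol sne kbl swp t_ODD all ind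

end CRM
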