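import Pool.Agent.CRM.StG

/-!
The crossing measure of a semiclassical measure: existence of the measure.
-/

set_option autoImplicit false

open Complex MeasureTheory Filter Topology Set
open UpperHalfPlane hiding I
open scoped ContDiff MatrixGroups ENNReal

namespace CRM

open QE QE.NC QJ U3 NFP

noncomputable section

namespace RSZ

lemma cont_rho {Γ : Subgroup SL(2, ℝ)} {ρ : ℍ → ℝ} (h : Fac Γ ρ) : Continuous ρ := by
  have h1 : Continuous (fun z : ℍ => ro ρ (z : ℂ)) :=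
    h.smooth.continuousOn.comp_continuous UpperHalfPlane.continuous_coe fun z => z.im_pos
  have h2 : (fun z : ℍ => ro ρ (z : ℂ)) = ρ := by
    funext z
    simp only [ro, ofComplex_apply]
  rwa [h2] at h1

lemma isOpen_clo {ρ : ℍ → ℝ} (hρ : Continuous ρ) (ε : ℝ) : IsOpen (clo ρ ε) := by
  have h1 : Continuous fun x : (ℍ × S1) × (ℍ × S1) => (x.1.1 : ℂ) :=
    UpperHalfPlane.continuous_coe.comp (continuous_fst.comp continuous_fst)
  have h2 : Continuous fun x : (ℍ × S1) × (ℍ × S1) => (x.2.1 : ℂ) :=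
    UpperHalfPlane.continuous_coe.comp (continuous_fst.comp continuous_snd)
  have h3 : Continuous fun x : (ℍ × S1) × (ℍ × S1) => ρ x.1.1 + ρ x.2.1 :=
    (hρ.comp (continuous_fst.comp continuous_fst)).add
      (hρ.comp (continuous_fst.comp continuous_snd))
  refine isOpen_lt ?_ ?_
  · exact (Real.continuous_exp.comp h3).mul ((h1.sub h2).norm.pow 2)
  · exact continuous_const.mul
      ((UpperHalfPlane.continuous_im.comp (continuous_fst.comp continuous_fst)).mul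
        (UpperHalfPlane.continuous_im.comp (continuous_fst.comp continuous_snd)))

lemma finOn {μ : Measure (ℍ × S1)} (hμ : FinK μ) : IsFiniteMeasureOnCompacts μ := by
  refine ⟨fun K hK => ?_⟩
  refine lt_of_le_of_lt (measure_mono ?_) (hμ (Prod.fst '' K) (hK.image continuous_fst))
  intro p hp
  exact ⟨⟨p, hp, rfl⟩, mem_univ _⟩

lemma sigma {μ : Measure (ℍ × S1)} (hμ : FinK μ) : SigmaFinite μ := by
  have := finOn hμ
  infer_instance

/-- the integrand -/
def G (f : ℍ × S1 → ℝ) (x : (ℍ × S1) × (ℍ × S1)) : ℝ :=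
  ((x.1.2 / x.2.2 : S1) : ℂ).im ^ 2 * f (x.1.1, x.1.2 / x.2.2)

lemma XG_eq (ρ : ℍ → ℝ) (μ : Measure (ℍ × S1)) (ε : ℝ) (f : ℍ × S1 → ℝ) :
    XG ρ μ ε f = (Real.pi * ε ^ 2)⁻¹ * ∫ x in clo ρ ε, G f x ∂(μ.prod μ) := rfl

lemma cont_G {f : ℍ × S1 → ℝ} (hf : Continuous f) : Continuous (G f) := by
  have h1 : Continuous fun x : (ℍ × S1) × (ℍ × S1) => (x.1.2 / x.2.2 : S1) :=
    (continuous_snd.comp continuous_fst).div' (continuous_snd.comp continuous_snd)
  refine Continuous.mul ?_ ?_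
  · exact (Complex.continuous_im.comp (continuous_subtype_val.comp h1)).pow 2
  · exact hf.comp ((continuous_fst.comp continuous_fst).prodMk h1)

lemma norm_im_sq_le (w : S1) : ((w : ℂ).im) ^ 2 ≤ 1 := by
  have h1 : ‖(w : ℂ)‖ = 1 := mem_sphere_zero_iff_norm.mp w.2
  have h2 := Complex.abs_im_le_norm (w : ℂ)
  rw [h1] at h2
  rw [← sq_abs]
  exact pow_le_one₀ (abs_nonneg _) h2

lemma intOn (hC : StmtClb) {Γ : Subgroup SL(2, ℝ)} {ρ : ℍ → ℝ} (hF : Fac Γ ρ)
    {μ : Measure (ℍ × S1)} (hμ : FinK μ) {f : ℍ × S1 → ℝ} (hf : Continuous f)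
    (hs : HasCompactSupport f) {ε : ℝ} (h0 : 0 < ε) (h1 : ε ≤ 1) :
    IntegrableOn (G f) (clo ρ ε) (μ.prod μ) := by
  have hsig := sigma hμ
  have hK : IsCompact (Prod.fst '' tsupport f) := hs.isCompact.image continuous_fst
  obtain ⟨C, K', hK', hKK, hcl⟩ := hC Γ ρ hF _ hK
  obtain ⟨B, hB⟩ := hf.bounded_above_of_compact_support hs
  have hcm : MeasurableSet (clo ρ ε) := (isOpen_clo (cont_rho hF) ε).measurableSet
  set S : Set ((ℍ × S1) × (ℍ × S1)) :=
    ((Prod.fst '' tsupport f) ×ˢ (univ : Set S1)) ×ˢ (K' ×ˢ (univ : Set S1)) with hS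
  have hSm : MeasurableSet S :=
    (hK.measurableSet.prod MeasurableSet.univ).prod (hK'.measurableSet.prod MeasurableSet.univ)
  have hSf : (μ.prod μ) S < ⊤ := by
    rw [hS, Measure.prod_prod]
    exact ENNReal.mul_lt_top (hμ _ hK) (hμ _ hK')
  have h2 : IntegrableOn (G f) (clo ρ ε ∩ S) (μ.prod μ) := by
    refine Measure.integrableOn_of_bounded (M := B)
      (lt_of_le_of_lt (measure_mono inter_subset_right) hSf).ne
      (cont_G hf).measurable.aestronglyMeasurable ?_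
    refine Eventually.of_forall fun x => ?_
    unfold G
    rw [norm_mul, Real.norm_of_nonneg (sq_nonneg _)]
    calc ((x.1.2 / x.2.2 : S1) : ℂ).im ^ 2 * ‖f (x.1.1, x.1.2 / x.2.2)‖
        ≤ 1 * ‖f (x.1.1, x.1.2 / x.2.2)‖ :=
          mul_le_mul_of_nonneg_right (norm_im_sq_le _) (norm_nonneg _)
      _ ≤ B := by
          rw [one_mul]
          exact hB _
  refine h2.of_forall_sdiff_eq_zero hcm ?_
  rintro x ⟨hx, hxS⟩
  unfold G
  rw [mul_eq_zero]
  right
  by_contra hne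
  apply hxS
  refine ⟨hx, ?_⟩
  have h3 : x.1.1 ∈ Prod.fst '' tsupport f :=
    ⟨(x.1.1, x.1.2 / x.2.2), subset_tsupport _ hne, rfl⟩
  exact ⟨⟨h3, mem_univ _⟩, ⟨(hcl ε h0 h1 x hx h3).1, mem_univ _⟩⟩

section Fun

variable (hC : StmtClb) {Γ : Subgroup SL(2, ℝ)} {ρ : ℍ → ℝ} (hF : Fac Γ ρ)
  {μ : Measure (ℍ × S1)} (hμ : FinK μ)

include hC hF hμ

lemma XG_add {f g : ℍ × S1 → ℝ} (hf : Continuous f) (hs : HasCompactSupport f)
    (hg : Continuous g) (ht : HasCompactSupport g) {ε : ℝ} (h0 : 0 < ε) (h1 : ε ≤ 1) :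
    XG ρ μ ε (fun p => f p + g p) = XG ρ μ ε f + XG ρ μ ε g := by
  rw [XG_eq, XG_eq, XG_eq, ← mul_add,
    ← integral_add (intOn hC hF hμ hf hs h0 h1) (intOn hC hF hμ hg ht h0 h1)]
  congr 1
  refine integral_congr_ae (Eventually.of_forall fun x => ?_)
  unfold G
  beta_reduce
  ring

omit hC hF hμ in
lemma XG_smul (c : ℝ) (f : ℍ × S1 → ℝ) (ε : ℝ) :
    XG ρ μ ε (fun p => c * f p) = c * XG ρ μ ε f := by
  rw [XG_eq, XG_eq]
  have e : ∫ x in clo ρ ε, G (fun p => c * f p) x ∂(μ.prod μ)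
      = c * ∫ x in clo ρ ε, G f x ∂(μ.prod μ) := by
    rw [← integral_const_mul]
    refine integral_congr_ae (Eventually.of_forall fun x => ?_)
    unfold G
    beta_reduce
    ring
  rw [e]
  ring

omit hC hF hμ in
lemma XG_nonneg {f : ℍ × S1 → ℝ} (hf : ∀ p, 0 ≤ f p) (ε : ℝ) : 0 ≤ XG ρ μ ε f := by
  rw [XG_eq]
  refine mul_nonneg (inv_nonneg.2 (mul_nonneg Real.pi_pos.le (sq_nonneg _))) ?_
  exact integral_nonneg fun x => mul_nonneg (sq_nonneg _) (hf _)

omit hC hF hμ in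
lemma ev : ∀ᶠ ε : ℝ in 𝓝[>] 0, 0 < ε ∧ ε ≤ 1 := by
  filter_upwards [self_mem_nhdsWithin, mem_nhdsWithin_of_mem_nhds (Iic_mem_nhds zero_lt_one)]
    with ε h1 h2
  exact ⟨h1, h2⟩

variable (h : ∀ f : ℍ × S1 → ℝ, Continuous f → HasCompactSupport f →
      ∃ l : ℝ, Tendsto (fun ε : ℝ => XG ρ μ ε f) (𝓝[>] 0) (𝓝 l))

include h

omit hC hF hμ in
open CompactlySupported in
/-- the limit -/
lemma ex_lim (f : C_c(ℍ × S1, ℝ)) :
    ∃ l : ℝ, Tendsto (fun ε : ℝ => XG ρ μ ε f) (𝓝[>] 0) (𝓝 l) :=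
  h f f.continuous f.hasCompactSupport

open CompactlySupported in
/-- the limit functional -/
lemma ex_fun : ∃ Λ : C_c(ℍ × S1, ℝ) →ₚ[ℝ] ℝ, ∀ f : C_c(ℍ × S1, ℝ),
    Tendsto (fun ε : ℝ => XG ρ μ ε f) (𝓝[>] 0) (𝓝 (Λ f)) := by
  choose L hL using ex_lim h
  have hadd : ∀ f g : C_c(ℍ × S1, ℝ), L (f + g) = L f + L g := by
    intro f g
    refine tendsto_nhds_unique (hL (f + g)) (((hL f).add (hL g)).congr' ?_)
    filter_upwards [ev] with ε hε
    exact (XG_add hC hF hμ (f := f) (g := g) f.continuous f.hasCompactSupport g.continuous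
      g.hasCompactSupport hε.1 hε.2).symm
  have hsm : ∀ (c : ℝ) (f : C_c(ℍ × S1, ℝ)), L (c • f) = c * L f := by
    intro c f
    refine tendsto_nhds_unique (hL (c • f)) (((hL f).const_mul c).congr' ?_)
    refine Eventually.of_forall fun ε => ?_
    beta_reduce
    rw [← XG_smul c f ε]
    rfl
  have hpos : ∀ f : C_c(ℍ × S1, ℝ), (∀ p, 0 ≤ f p) → 0 ≤ L f := by
    intro f hf
    exact ge_of_tendsto (hL f) (Eventually.of_forall fun ε => XG_nonneg hf ε)
  let Λ : C_c(ℍ × S1, ℝ) →ₚ[ℝ] ℝ :=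
    { toFun := L
      map_add' := hadd
      map_smul' := fun c f => by
        rw [RingHom.id_apply, smul_eq_mul]
        exact hsm c f
      monotone' := by
        intro f g hfg
        have h1 : 0 ≤ L (g - f) := hpos (g - f) fun p => by
          have h2 : f p ≤ g p := hfg p
          have h3 : (g - f) p = g p - f p := rfl
          rw [h3]
          exact sub_nonneg.2 h2
        have h4 : L ((g - f) + f) = L (g - f) + L f := hadd _ _
        rw [sub_add_cancel] at h4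
        change L f ≤ L g
        rw [h4]
        exact le_add_of_nonneg_left h1 }
  exact ⟨Λ, hL⟩

end Fun

end RSZ

open CompactlySupported in
theorem t_RSZ (hC : StmtClb) : StmtRsz := by
  intro Γ ρ hF μ hμ h
  obtain ⟨Λ, hΛ⟩ := RSZ.ex_fun hC hF hμ h
  have hreg : (RealRMK.rieszMeasure Λ).Regular := RealRMK.regular_rieszMeasure _
  refine ⟨RealRMK.rieszMeasure Λ, ⟨fun K hK => ?_, fun f hf hs => ?_⟩⟩
  · exact (hK.prod isCompact_univ).measure_lt_top
  · have h1 := hΛ ⟨⟨f, hf⟩, hs⟩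
    rw [← RealRMK.integral_rieszMeasure] at h1
    exact h1

end

end CRM
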