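import Pool.Agent.CRM.StG
import Pool.Agent.CRM.IND

/-!
The crossing measure of a semiclassical measure: module SYM (the symmetries of the crossing measure).
-/

open Complex MeasureTheory Filter Topology Set
open UpperHalfPlane hiding I
open scoped ContDiff MatrixGroups

namespace CRM

open QE QE.NC QJ U3 NFP

namespace SYM

/-- the function on `ℍ × S¹` which belongs to a test function -/
noncomputable def GG (σ : ℂ → ℝ) (f : ℂ × ℂ → ℂ) (p : ℍ × S1) : ℂ :=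
  ((Real.exp (-(2 * σ p.1)) : ℝ) : ℂ) * f ((p.1 : ℂ), (starRingEnd ℂ) (p.2 : ℂ))

lemma fmc {ϖ : Measure (ℍ × S1)} (h : ∀ K : Set ℍ, IsCompact K → ϖ (K ×ˢ univ) < ⊤) :
    IsFiniteMeasureOnCompacts ϖ := by
  constructor
  intro S hS
  refine lt_of_le_of_lt (measure_mono ?_) (h _ (hS.image continuous_fst))
  intro p hp
  exact ⟨mem_image_of_mem _ hp, mem_univ _⟩

lemma cpt_pre {K : Set ℂ} (hK : IsCompact K) (h : K ⊆ UH) :
    IsCompact ((fun z : ℍ => (z : ℂ)) ⁻¹' K) := by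
  refine (UpperHalfPlane.isOpenEmbedding_coe.isInducing.isCompact_preimage_iff ?_).2 hK
  intro z hz
  exact ⟨⟨z, h hz⟩, rfl⟩

lemma GG_cont {σ : ℂ → ℝ} (hσ : ContDiff ℝ ∞ σ) {V : Set ℂ} {f : ℂ × ℂ → ℂ} (hf : TF V f) :
    Continuous (GG σ f) := by
  have h1 : Continuous (fun p : ℍ × S1 => (p.1 : ℂ)) :=
    UpperHalfPlane.continuous_coe.comp continuous_fst
  have h2 : Continuous (fun p : ℍ × S1 => (starRingEnd ℂ) (p.2 : ℂ)) :=
    Complex.continuous_conj.comp (continuous_subtype_val.comp continuous_snd)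
  have h3 : Continuous (fun p : ℍ × S1 => σ p.1) := hσ.continuous.comp h1
  unfold GG
  refine Continuous.mul ?_ (hf.cont.comp (h1.prodMk h2))
  exact Complex.continuous_ofReal.comp (Real.continuous_exp.comp ((continuous_const.mul h3).neg))

lemma GG_supp {σ : ℂ → ℝ} {V : Set ℂ} (hV : V ⊆ UH) {f : ℂ × ℂ → ℂ} (hf : TF V f) :
    HasCompactSupport (GG σ f) := by
  obtain ⟨K, hK, hKV, h0⟩ := hf.supp
  refine HasCompactSupport.intro ((cpt_pre hK (hKV.trans hV)).prod isCompact_univ) fun p hp => ?_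
  have h1 : ((p.1 : ℍ) : ℂ) ∉ K := fun h => hp ⟨h, mem_univ _⟩
  unfold GG
  rw [h0 _ h1, mul_zero]

lemma GG_int {σ : ℂ → ℝ} (hσ : ContDiff ℝ ∞ σ) {V : Set ℂ} (hV : V ⊆ UH) {f : ℂ × ℂ → ℂ}
    (hf : TF V f) {ϖ : Measure (ℍ × S1)} (h : ∀ K : Set ℍ, IsCompact K → ϖ (K ×ˢ univ) < ⊤) :
    Integrable (GG σ f) ϖ := by
  have := fmc h
  exact (GG_cont hσ hf).integrable_of_hasCompactSupport (GG_supp hV hf)

lemma lim_real (hG : StmtGkr) {Γ : Subgroup SL(2, ℝ)} {ρ : ℍ → ℝ} (hF : Fac Γ ρ)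
    {μ ϖ : Measure (ℍ × S1)} (hμ : FinK μ) (hϖ : Crossing ρ μ ϖ) {V F : Set ℂ} {σ : ℂ → ℝ}
    (hV : IsOpen V) (hVF : V ⊆ F) (hFU : F ⊆ UH) (hFc : IsCompact F) (hσ : ContDiff ℝ ∞ σ)
    (he : ∀ z ∈ V, Real.exp (2 * σ z) = gr ρ z) (hP : PairB V (muS μ F σ) pS uS)
    {r : ℂ × ℂ → ℝ} (hr : TF V (fun x => (r x : ℂ))) :
    Tendsto (fun ε : ℝ => XK (muS μ F σ) pS uS (ki σ ε) (fun x => (r x : ℂ))) (𝓝[>] 0)
      (𝓝 (∫ p, GG σ (fun x => (r x : ℂ)) p ∂ϖ)) := by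
  obtain ⟨K, hKc, hKV, h0⟩ := hr.supp
  have h00 : ∀ z t, z ∉ K → r (z, t) = 0 := fun z t hz => by
    have := h0 z hz t
    exact_mod_cast this
  set f : ℍ × S1 → ℝ := fun p =>
    Real.exp (-(2 * σ p.1)) * r ((p.1 : ℂ), (starRingEnd ℂ) (p.2 : ℂ)) with hfdef
  have hGf : ∀ p, GG σ (fun x => (r x : ℂ)) p = ((f p : ℝ) : ℂ) := fun p => by
    unfold GG
    rw [hfdef]
    push_cast
    rfl
  have hfc : Continuous f := by
    have h1 := Complex.continuous_re.comp (GG_cont hσ hr)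
    refine h1.congr fun p => ?_
    show (GG σ (fun x => (r x : ℂ)) p).re = f p
    rw [hGf, Complex.ofReal_re]
  have hfs : HasCompactSupport f := by
    refine HasCompactSupport.intro ((cpt_pre hKc (hKV.trans (hVF.trans hFU))).prod
      isCompact_univ) fun p hp => ?_
    have h1 : ((p.1 : ℍ) : ℂ) ∉ K := fun h => hp ⟨h, mem_univ _⟩
    rw [hfdef]
    show _ * _ = _
    rw [h00 _ _ h1, mul_zero]
  have h1 := hG Γ ρ hF μ hμ V F σ hV hVF hFU hFc hσ he hP f K hfc hKc hKV (fun z t hz => by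
    show _ * _ = _
    rw [h00 _ _ hz, mul_zero]) (fun x => (r x : ℂ)) hr (fun z t _ => by
      show ((r ((z : ℂ), (starRingEnd ℂ) (t : ℂ)) : ℝ) : ℂ) = ((Real.exp (2 * σ z)
        * (Real.exp (-(2 * σ z)) * r ((z : ℂ), (starRingEnd ℂ) (t : ℂ))) : ℝ) : ℂ)
      rw [← mul_assoc, ← Real.exp_add, add_neg_cancel, Real.exp_zero, one_mul])
  have h2 := hϖ.lim f hfc hfs
  have h3 : Tendsto (fun ε : ℝ => ((XG ρ μ ε f : ℝ) : ℂ)) (𝓝[>] 0) (𝓝 ((∫ p, f p ∂ϖ : ℝ) : ℂ)) :=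
    (Complex.continuous_ofReal.tendsto _).comp h2
  have h4 := h1.add h3
  rw [zero_add] at h4
  have h5 : ∫ p, GG σ (fun x => (r x : ℂ)) p ∂ϖ = ((∫ p, f p ∂ϖ : ℝ) : ℂ) := by
    rw [← integral_complex_ofReal]
    exact integral_congr_ae (Eventually.of_forall hGf)
  rw [h5]
  refine h4.congr fun ε => ?_
  ring

lemma lim_G (hG : StmtGkr) {Γ : Subgroup SL(2, ℝ)} {ρ : ℍ → ℝ} (hF : Fac Γ ρ)
    {μ ϖ : Measure (ℍ × S1)} (hμ : FinK μ) (hϖ : Crossing ρ μ ϖ) {V F : Set ℂ} {σ : ℂ → ℝ}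
    (hV : IsOpen V) (hVF : V ⊆ F) (hFU : F ⊆ UH) (hFc : IsCompact F) (hσ : ContDiff ℝ ∞ σ)
    (he : ∀ z ∈ V, Real.exp (2 * σ z) = gr ρ z) (hP : PairB V (muS μ F σ) pS uS) {K₀ : Set ℂ}
    (hK₀ : IsCompact K₀) (hB : IND.BD (muS μ F σ) pS uS K₀)
    {f : ℂ × ℂ → ℂ} (hf : TF V f) :
    Tendsto (fun ε : ℝ => XK (muS μ F σ) pS uS (ki σ ε) f) (𝓝[>] 0)
      (𝓝 (∫ p, GG σ f p ∂ϖ)) := by
  obtain ⟨K, hKc, hKV, h0⟩ := hf.supp
  have hre : TF V (fun x => (((f x).re : ℝ) : ℂ)) :=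
    ⟨Complex.continuous_ofReal.comp (Complex.continuous_re.comp hf.cont), K, hKc, hKV,
      fun z hz t => by show (((f (z, t)).re : ℝ) : ℂ) = 0; rw [h0 z hz t]; simp⟩
  have him : TF V (fun x => (((f x).im : ℝ) : ℂ)) :=
    ⟨Complex.continuous_ofReal.comp (Complex.continuous_im.comp hf.cont), K, hKc, hKV,
      fun z hz t => by show (((f (z, t)).im : ℝ) : ℂ) = 0; rw [h0 z hz t]; simp⟩
  have h1 := lim_real hG hF hμ hϖ hV hVF hFU hFc hσ he hP (r := fun x => (f x).re) hre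
  have h2 := lim_real hG hF hμ hϖ hV hVF hFU hFc hσ he hP (r := fun x => (f x).im) him
  have hVU : V ⊆ UH := hVF.trans hFU
  have h3 : ∫ p, GG σ f p ∂ϖ = ∫ p, GG σ (fun x => (((f x).re : ℝ) : ℂ)) p ∂ϖ
      + Complex.I * ∫ p, GG σ (fun x => (((f x).im : ℝ) : ℂ)) p ∂ϖ := by
    rw [← integral_const_mul, ← integral_add (GG_int hσ hVU hre hϖ.fin)
      ((GG_int hσ hVU him hϖ.fin).const_mul _)]
    refine integral_congr_ae (Eventually.of_forall fun p => ?_)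
    show GG σ f p = GG σ _ p + Complex.I * GG σ _ p
    unfold GG
    have h5 := Complex.re_add_im (f ((p.1 : ℂ), (starRingEnd ℂ) (p.2 : ℂ)))
    linear_combination (-((Real.exp (-(2 * σ p.1)) : ℝ) : ℂ)) * h5
  rw [h3]
  refine (h1.add (h2.const_mul Complex.I)).congr' ?_
  filter_upwards [self_mem_nhdsWithin] with ε hε
  have hcre : IND.CB (fun x => (((f x).re : ℝ) : ℂ)) := by
    obtain ⟨K', h1, h2, h3⟩ := hre.supp
    exact ⟨hre.cont, K', h1, h3⟩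
  have hcim : IND.CB (fun x => (((f x).im : ℝ) : ℂ)) := by
    obtain ⟨K', h1, h2, h3⟩ := him.supp
    exact ⟨him.cont, K', h1, h3⟩
  rw [← IND.XK_add hB (IND.km_ki hσ hK₀ hε) hcre hcim]
  congr 1
  ext x
  rw [mul_comm]
  exact Complex.re_add_im (f x)

end SYM

/-- SYM: the symmetries of the crossing measure -/
theorem t_SYM (hL : StmtLcz) (hG : StmtGlm) (hC : StmtCrl) (hK : StmtGkr) : StmtSym := by
  intro Γ ρ hF h φ μ ϖ hLU hμ hJ hϖ ζ hζ k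
  obtain ⟨V, F, σ, φ', hKV, hVF, hFU, hFc, hA⟩ := hL UH (gr ρ) h φ WGA.isOpenUH
    (WGA.contDiffOn_gr hF.smooth) (fun z hz => WGA.gr_pos hz) hLU (tsupport ζ) hζ.supp hζ.sub
  obtain ⟨hLB, hLM⟩ := hG ρ h φ μ hμ hJ V σ φ' hA V F hA.op le_rfl hVF hFc hFU
  obtain ⟨hP, -, hT⟩ := hC V σ h φ' (ℍ × S1) (muS μ F σ) pS uS hLB hLM
  obtain ⟨K₀, hK₀, hae⟩ := hLM.cpt
  have hB : IND.BD (muS μ F σ) pS uS K₀ :=
    ⟨⟨lt_top_iff_ne_top.2 hLM.fin⟩, hLM.mp, hLM.mu, hLM.unit, hae⟩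
  have hσ := hLB.sm
  set ξ : ℂ → ℂ := fun z => ((Real.exp (2 * σ z) : ℝ) : ℂ) * ζ z with hξ
  have hsub : tsupport ξ ⊆ tsupport ζ := by
    refine closure_mono fun z hz => ?_
    rw [Function.mem_support] at hz ⊢
    exact fun h => hz (by rw [hξ]; show _ * _ = _; rw [h, mul_zero])
  have hξc : ContDiff ℝ ∞ ξ :=
    (Complex.ofRealCLM.contDiff.comp (contDiff_const.mul hσ).exp).mul hζ.smooth
  have hξt : Test V ξ :=
    ⟨hξc, IsCompact.of_isClosed_subset hζ.supp (isClosed_tsupport _) hsub, hsub.trans hKV⟩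
  obtain ⟨L, -, -, hodd, hsym⟩ := hT ξ hξt
  have h0 : ∀ z, z ∉ tsupport ζ → ξ z = 0 := fun z hz => by
    rw [hξ]
    show _ * _ = _
    rw [image_eq_zero_of_notMem_tsupport hz, mul_zero]
  have t1 : TF V (fun x => ξ x.1 * x.2 ^ k) :=
    ⟨(hξc.continuous.comp continuous_fst).mul (continuous_snd.pow k), tsupport ζ, hζ.supp, hKV,
      fun z hz t => by show ξ z * t ^ k = 0; rw [h0 z hz, zero_mul]⟩
  have t2 : TF V (fun x => ξ x.1 * (starRingEnd ℂ) x.2 ^ k) :=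
    ⟨(hξc.continuous.comp continuous_fst).mul ((Complex.continuous_conj.comp
        continuous_snd).pow k), tsupport ζ, hζ.supp, hKV,
      fun z hz t => by show ξ z * (starRingEnd ℂ) t ^ k = 0; rw [h0 z hz, zero_mul]⟩
  have l1 := SYM.lim_G hK hF hμ hϖ hA.op hVF hFU hFc hσ hA.eg hP hK₀ hB t1
  have l2 := SYM.lim_G hK hF hμ hϖ hA.op hVF hFU hFc hσ hA.eg hP hK₀ hB t2
  have hξe : ∀ z : ℂ, ((Real.exp (-(2 * σ z)) : ℝ) : ℂ) * ξ z = ζ z := fun z => by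
    rw [hξ]
    show _ * (_ * _) = _
    rw [← mul_assoc, ← Complex.ofReal_mul, ← Real.exp_add, neg_add_cancel, Real.exp_zero,
      Complex.ofReal_one, one_mul]
  have e1 : ∫ p, SYM.GG σ (fun x => ξ x.1 * x.2 ^ k) p ∂ϖ
      = ∫ p : ℍ × S1, ζ p.1 * (starRingEnd ℂ) (p.2 : ℂ) ^ k ∂ϖ := by
    refine integral_congr_ae (Eventually.of_forall fun p => ?_)
    show _ * (_ * _) = _
    rw [← mul_assoc, hξe]
  have e2 : ∫ p, SYM.GG σ (fun x => ξ x.1 * (starRingEnd ℂ) x.2 ^ k) p ∂ϖ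
      = ∫ p : ℍ × S1, ζ p.1 * (p.2 : ℂ) ^ k ∂ϖ := by
    refine integral_congr_ae (Eventually.of_forall fun p => ?_)
    show _ * (_ * _) = _
    rw [← mul_assoc, hξe]
    show _ * (starRingEnd ℂ) ((starRingEnd ℂ) (p.2 : ℂ)) ^ k = _
    rw [Complex.conj_conj]
  rw [e1] at l1
  rw [e2] at l2
  have hne : (𝓝[>] (0 : ℝ)).NeBot := inferInstance
  have hd := tendsto_nhds_unique (l1.sub l2) (hsym k)
  have heq : ∫ p : ℍ × S1, ζ p.1 * (p.2 : ℂ) ^ k ∂ϖ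
      = ∫ p : ℍ × S1, ζ p.1 * (starRingEnd ℂ) (p.2 : ℂ) ^ k ∂ϖ := (sub_eq_zero.1 hd).symm
  refine ⟨fun ho => ?_, heq⟩
  rw [heq]
  exact tendsto_nhds_unique l1 (hodd k ho)

end CRM
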