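import Pool.Agent.CRM.StG

/-!
Integrals over a strict fundamental domain of functions on `ℍ × S¹` which are invariant under the
action on the base point.
-/

open Complex MeasureTheory Filter Topology Set
open UpperHalfPlane hiding I
open scoped ContDiff MatrixGroups ENNReal

namespace CRM

open QE QE.NC QJ U3 NFP

noncomputable section

/-- UNF: integrals over a strict fundamental domain -/
def StmtUnf : Prop :=
  ∀ (Γ : Subgroup SL(2, ℝ)) [Countable Γ] (D : Set ℍ), MeasurableSet D →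
    (∀ z : ℍ, ∃! γ : Γ, γ • z ∈ D) → ∀ ϖ : Measure (ℍ × S1), FinK ϖ →
    (∀ γ ∈ Γ, Measure.map (fun p : ℍ × S1 => (γ • p.1, p.2)) ϖ = ϖ) →
    ∀ ψ : ℂ → ℝ, Continuous ψ → HasCompactSupport ψ → tsupport ψ ⊆ {w | 0 < w.im} → (∀ w, 0 ≤ ψ w) →
    (∀ z : ℍ, HasSum (fun γ : Γ => ψ ((γ • z : ℍ) : ℂ)) 1) →
    ∀ f : ℍ × S1 → ℝ, Continuous f → (∀ γ ∈ Γ, ∀ p : ℍ × S1, f (γ • p.1, p.2) = f p) →
      IntegrableOn f (D ×ˢ univ) ϖ ∧ ∫ p, ψ p.1 * f p ∂ϖ = ∫ p in D ×ˢ univ, f p ∂ϖ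

namespace UNF

/-- the action on the base point -/
def act (γ : SL(2, ℝ)) (p : ℍ × S1) : ℍ × S1 := (γ • p.1, p.2)

lemma cont_act (γ : SL(2, ℝ)) : Continuous (act γ) :=
  ((continuous_const_smul γ).comp continuous_fst).prodMk continuous_snd

/-- the integral of an invariant function against a partition of unity -/
theorem lint {Γ : Subgroup SL(2, ℝ)} [Countable Γ] {D : Set ℍ} (hD : MeasurableSet D)
    (hu : ∀ z : ℍ, ∃! γ : Γ, γ • z ∈ D) {ϖ : Measure (ℍ × S1)}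
    (hi : ∀ γ ∈ Γ, Measure.map (fun p : ℍ × S1 => (γ • p.1, p.2)) ϖ = ϖ)
    {a : ℍ → ℝ≥0∞} (ha : Measurable a) (hs : ∀ z : ℍ, ∑' γ : Γ, a (γ • z) = 1)
    {F : ℍ × S1 → ℝ≥0∞} (hF : Measurable F) (hFi : ∀ γ ∈ Γ, ∀ p : ℍ × S1, F (γ • p.1, p.2) = F p) :
    ∫⁻ p, a p.1 * F p ∂ϖ = ∫⁻ p in D ×ˢ univ, F p ∂ϖ := by
  have hDm : MeasurableSet (D ×ˢ (univ : Set S1)) := hD.prod MeasurableSet.univ
  have hc : ∀ γ : Γ, Continuous (act (γ : SL(2, ℝ))) := fun γ => cont_act _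
  set A : Γ → Set (ℍ × S1) := fun γ => act (γ : SL(2, ℝ)) ⁻¹' (D ×ˢ univ) with hA
  have hAm : ∀ γ, MeasurableSet (A γ) := fun γ => (hc γ).measurable hDm
  have hAd : Pairwise (Function.onFun Disjoint A) := by
    intro γ γ' hne
    refine Set.disjoint_left.2 fun p hp hp' => hne ?_
    exact (hu p.1).unique (show (γ : SL(2, ℝ)) • p.1 ∈ D from (mem_prod.1 hp).1)
      (show (γ' : SL(2, ℝ)) • p.1 ∈ D from (mem_prod.1 hp').1)
  have hAu : ⋃ γ, A γ = univ := by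
    refine Set.eq_univ_of_forall fun p => ?_
    obtain ⟨γ, hγ, -⟩ := hu p.1
    exact mem_iUnion.2 ⟨γ, ⟨hγ, mem_univ _⟩⟩
  have h1 : ∫⁻ p, a p.1 * F p ∂ϖ = ∑' γ, ∫⁻ p in A γ, a p.1 * F p ∂ϖ := by
    rw [← lintegral_iUnion hAm hAd, hAu, Measure.restrict_univ]
  have h2 : ∀ γ : Γ, ∫⁻ p in A γ, a p.1 * F p ∂ϖ
      = ∫⁻ p in D ×ˢ univ, a ((γ⁻¹ : Γ) • p.1) * F p ∂ϖ := by
    intro γ
    have hm : Measurable fun p : ℍ × S1 => a ((γ⁻¹ : Γ) • p.1) * F p :=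
      (ha.comp ((measurable_const_smul (γ⁻¹ : Γ)).comp measurable_fst)).mul hF
    conv_rhs => rw [← hi γ γ.2]
    have h3 := setLIntegral_map (μ := ϖ) hDm hm (hc γ).measurable
    refine Eq.trans ?_ h3.symm
    refine lintegral_congr fun p => ?_
    simp only [act]
    rw [hFi γ γ.2 p]
    congr 2
    exact (inv_smul_smul γ p.1).symm
  rw [h1]
  simp_rw [h2]
  rw [← lintegral_tsum]
  · refine lintegral_congr fun p => ?_
    rw [ENNReal.tsum_mul_right]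
    have h4 : ∑' γ : Γ, a ((γ⁻¹ : Γ) • p.1) = 1 := by
      rw [← hs p.1]
      exact (Equiv.inv Γ).tsum_eq (fun γ => a (γ • p.1))
    rw [h4, one_mul]
  · intro γ
    exact ((ha.comp ((measurable_const_smul (γ⁻¹ : Γ)).comp measurable_fst)).mul hF).aemeasurable

lemma integrable_mul {ϖ : Measure (ℍ × S1)} (hfin : FinK ϖ) {ψ : ℂ → ℝ} (hψc : Continuous ψ)
    (hψs : HasCompactSupport ψ) (hψt : tsupport ψ ⊆ {w | 0 < w.im}) {f : ℍ × S1 → ℝ}
    (hf : Continuous f) : Integrable (fun p : ℍ × S1 => ψ p.1 * f p) ϖ := by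
  set K : Set ℍ := (fun z : ℍ => (z : ℂ)) ⁻¹' tsupport ψ with hK
  have hKc : IsCompact K := by
    refine UpperHalfPlane.isOpenEmbedding_coe.isInducing.isCompact_preimage' hψs.isCompact ?_
    intro z hz
    exact ⟨⟨z, hψt hz⟩, rfl⟩
  have hc : Continuous fun p : ℍ × S1 => ψ p.1 * f p :=
    (hψc.comp (UpperHalfPlane.continuous_coe.comp continuous_fst)).mul hf
  have hcs : HasCompactSupport fun p : ℍ × S1 => ψ p.1 * f p := by
    refine HasCompactSupport.intro (hKc.prod isCompact_univ) fun p hp => ?_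
    have h1 : (p.1 : ℂ) ∉ tsupport ψ := fun h => hp ⟨h, mem_univ _⟩
    rw [image_eq_zero_of_notMem_tsupport h1, zero_mul]
  have : IsFiniteMeasureOnCompacts ϖ := by
    refine ⟨fun L hL => ?_⟩
    refine lt_of_le_of_lt (measure_mono ?_) (hfin (Prod.fst '' L) (hL.image continuous_fst))
    intro p hp
    exact ⟨mem_image_of_mem _ hp, mem_univ _⟩
  exact hc.integrable_of_hasCompactSupport hcs

end UNF

theorem t_UNF : StmtUnf := by
  intro Γ _ D hD hu ϖ hfin hi ψ hψc hψs hψt hψ0 hψ1 f hf hfi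
  set a : ℍ → ℝ≥0∞ := fun z => ENNReal.ofReal (ψ z) with ha
  have ham : Measurable a := (hψc.measurable.comp (by fun_prop)).ennreal_ofReal
  have has : ∀ z : ℍ, ∑' γ : Γ, a (γ • z) = 1 := by
    intro z
    have h1 := (hψ1 z)
    have h2 : ∑' γ : Γ, a (γ • z) = ENNReal.ofReal (∑' γ : Γ, ψ ((γ • z : ℍ) : ℂ)) := by
      rw [ENNReal.ofReal_tsum_of_nonneg (fun γ => hψ0 _) h1.summable]
    rw [h2, h1.tsum_eq, ENNReal.ofReal_one]
  have hint : Integrable (fun p : ℍ × S1 => ψ p.1 * f p) ϖ :=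
    UNF.integrable_mul hfin hψc hψs hψt hf
  have hpos : ∀ g : ℍ × S1 → ℝ, Continuous g → (∀ γ ∈ Γ, ∀ p : ℍ × S1, g (γ • p.1, p.2) = g p) →
      ∫⁻ p, ENNReal.ofReal (ψ p.1 * g p) ∂ϖ
        = ∫⁻ p in D ×ˢ univ, ENNReal.ofReal (g p) ∂ϖ := by
    intro g hg hgi
    rw [← UNF.lint hD hu hi ham has hg.measurable.ennreal_ofReal]
    · refine lintegral_congr fun p => ?_
      rw [ha, ENNReal.ofReal_mul (hψ0 _)]
    · intro γ hγ p
      rw [hgi γ hγ p]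
  have hfn : ∀ γ ∈ Γ, ∀ p : ℍ × S1, (fun p => -f p) (γ • p.1, p.2) = (fun p => -f p) p :=
    fun γ hγ p => by simp only [hfi γ hγ p]
  have h1 := hpos f hf hfi
  have h2 := hpos (fun p => -f p) hf.neg hfn
  have hf1 : ∫⁻ p in D ×ˢ univ, ENNReal.ofReal (f p) ∂ϖ < ⊤ := by
    rw [← h1]
    exact hint.lintegral_lt_top
  have hf2 : ∫⁻ p in D ×ˢ univ, ENNReal.ofReal (-f p) ∂ϖ < ⊤ := by
    rw [← h2]
    simp only [mul_neg]
    exact hint.neg.lintegral_lt_top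
  have hI : IntegrableOn f (D ×ˢ univ) ϖ := by
    refine ⟨hf.aestronglyMeasurable, ?_⟩
    rw [hasFiniteIntegral_iff_norm]
    have h3 : ∀ p : ℍ × S1, ENNReal.ofReal ‖f p‖
        = ENNReal.ofReal (f p) + ENNReal.ofReal (-f p) := by
      intro p
      rcases le_total 0 (f p) with h | h
      · rw [ENNReal.ofReal_of_nonpos (neg_nonpos.2 h), add_zero, Real.norm_of_nonneg h]
      · rw [ENNReal.ofReal_of_nonpos h, zero_add, Real.norm_of_nonpos h]
    simp_rw [h3]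
    rw [lintegral_add_left hf.measurable.ennreal_ofReal]
    exact ENNReal.add_lt_top.2 ⟨hf1, hf2⟩
  refine ⟨hI, ?_⟩
  rw [integral_eq_lintegral_pos_part_sub_lintegral_neg_part hint,
    integral_eq_lintegral_pos_part_sub_lintegral_neg_part hI, h1]
  simp only [mul_neg] at h2
  rw [h2]

end

end CRM
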