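import Pool.Agent.BWM.C17

/-!
The crossing measure of a semiclassical measure: definitions (local part).
-/

open Complex MeasureTheory Filter Topology Set
open scoped ContDiff

namespace CRM

open QE QJ U3

noncomputable section

/-- the square of the sine of the angle `α`, if `t = e^{iα}` -/
def s2 (t : ℂ) : ℝ := ‖t ^ 2 - 1‖ ^ 2 / 4

/-- `Re (t ^ k)` -/
def ck (k : ℤ) (t : ℂ) : ℝ := (t ^ k).re

/-- the continuous extension of `(1 - cos (k α)) / sin² α`, for even `k`, `t = e^{iα}` -/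
def gk (k : ℤ) (t : ℂ) : ℝ := 2 * ‖∑ i ∈ Finset.range (k / 2).natAbs, t ^ (2 * i)‖ ^ 2

/-- the limit of the four-jet integrals in terms of a function `L` of the even integers -/
def lk (L : ℤ → ℂ) (a b c d : ℤ) : ℂ :=
  if (a - b) % 2 = 0 ∧ (a - c) % 2 = 0 ∧ (a - d) % 2 = 0 then -(L (a + b) + L (a + c) + L (a + d))
  else if (a + b) % 2 = 0 then L (a + b)
  else if (a + c) % 2 = 0 then L (a + c)
  else L (a + d)

/-- the integral of a function on the pairs of points of `Ω` -/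
def II {Ω : Type} [MeasurableSpace Ω] (μ : Measure Ω) (F : Ω × Ω → ℂ) : ℂ := ∫ x, F x ∂(μ.prod μ)

/-- the smooth kernel `e^{2σ(z)} β (r² / ε²) / ε²` -/
def kb (β : ℝ → ℝ) (σ : ℂ → ℝ) (ε : ℝ) (z w : ℂ) : ℝ :=
  Real.exp (2 * σ z) * (β (r2 σ z w / ε ^ 2) / ε ^ 2)

/-- the kernel of the pairs at distance less than `ε`: `e^{2σ(z)} 1_{r < ε} / (π ε²)` -/
def ki (σ : ℂ → ℝ) (ε : ℝ) (z w : ℂ) : ℝ :=
  if r2 σ z w < ε ^ 2 then Real.exp (2 * σ z) / (Real.pi * ε ^ 2) else 0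

/-- the integral of `sin² · f` over the pairs with a kernel `κ` -/
def XK {Ω : Type} [MeasurableSpace Ω] (μ : Measure Ω) (p u : Ω → ℂ) (κ : ℂ → ℂ → ℝ)
    (f : ℂ × ℂ → ℂ) : ℂ :=
  II μ fun x => (κ (p x.1) (p x.2) * s2 (u x.1 / u x.2) : ℝ) * f (p x.1, u x.1 / u x.2)

/-- test functions on `V × S¹`: continuous functions on the plane `ℂ × ℂ` which vanish unless `z` is
in a compact subset of `V` -/
structure TF (V : Set ℂ) (f : ℂ × ℂ → ℂ) : Prop where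
  cont : Continuous f
  supp : ∃ K, IsCompact K ∧ K ⊆ V ∧ ∀ z, z ∉ K → ∀ t, f (z, t) = 0

/-- the product of two mollified moments -/
def mx {Ω : Type} [MeasurableSpace Ω] (β β' : ℝ → ℝ) (σ : ℂ → ℝ) (ε : ℝ) (μ : Measure Ω)
    (p u : Ω → ℂ) (k : ℤ) (z : ℂ) : ℝ :=
  (pe β σ ε μ p u k z * (starRingEnd ℂ) (pe β' σ ε μ p u k z)).re

/-- the bump function scaled by the factor `s` -/
def sc (β : ℝ → ℝ) (s : ℝ) (t : ℝ) : ℝ := β (t / s ^ 2) / s ^ 2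

/-- bounds for the pairs of points at distance at most `ε` -/
structure PairB (V : Set ℂ) {Ω : Type} [MeasurableSpace Ω] (μ : Measure Ω) (p u : Ω → ℂ) :
    Prop where
  mass : ∀ K, IsCompact K → K ⊆ V → ∃ C ε₀ : ℝ, 0 < ε₀ ∧ ∀ ε, 0 < ε → ε < ε₀ →
    ((μ.prod μ) {x | p x.1 ∈ K ∧ ‖p x.1 - p x.2‖ ≤ ε}).toReal ≤ C * ε
  sine : ∀ K, IsCompact K → K ⊆ V → ∃ C ε₀ : ℝ, 0 < ε₀ ∧ ∀ ε, 0 < ε → ε < ε₀ →
    ∫ x in {x : Ω × Ω | p x.1 ∈ K ∧ ‖p x.1 - p x.2‖ ≤ ε}, s2 (u x.1 / u x.2) ∂(μ.prod μ)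
      ≤ C * ε ^ 2

end

end CRM
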