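import Pool.Agent.CRM.CLB
import Pool.Agent.CRM.COV
import Pool.Agent.CRM.EXF
import Pool.Agent.CRM.GKR
import Pool.Agent.CRM.GLM
import Pool.Agent.CRM.INE
import Pool.Agent.CRM.IVM
import Pool.Agent.CRM.LNK
import Pool.Agent.CRM.Loc
import Pool.Agent.CRM.RSZ
import Pool.Agent.CRM.SYM
import Pool.Agent.CRM.UNF
import Pool.Agent.CRN.Defs
import Pool.Agent.NFP.StU

/-!
The crossing measure of a semiclassical measure on a closed surface: assembly.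
-/

open MeasureTheory Filter Topology Set
open UpperHalfPlane hiding I
open scoped ContDiff MatrixGroups

namespace CRM

open QE QE.NC QJ U3 NFP

theorem gkr : StmtGkr := t_GKR t_CLB
theorem exf : StmtExf := t_EXF stmtLcz t_GLM crl gkr
theorem rsz : StmtRsz := t_RSZ t_CLB
theorem lnk : StmtLnk := t_LNK t_GLM crl gkr
theorem sym : StmtSym := t_SYM stmtLcz t_GLM crl gkr
theorem ine : StmtIne := t_INE t_COV stmtLcz lnk
theorem ivm : StmtIvm := t_IVM t_DNS sym ine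

/-- the crossing measure, its invariance and the four-jet integrals -/
theorem crg : StmtCrg := crg_of exf rsz lnk ivm

/-- the limits of the four-jet integrals with the weight `1 / gr` -/
theorem linkG_of {ρ : ℍ → ℝ} {h : ℕ → ℝ} {φ : ℕ → ℂ → ℂ} {μ ϖ : Measure (ℍ × S1)}
    (hϖ : Crossing ρ μ ϖ)
    (H : ∀ (V : Set ℂ) (σ : ℂ → ℝ) (φ' : ℕ → ℂ → ℂ), Agree V UH (gr ρ) h φ σ φ' →
      ∀ ζ : ℂ → ℂ, Test V ζ → ∀ a b c d : ℤ, a + b + c + d = 0 →
        Tendsto (fun n => E4 σ h φ' ζ a b c d n - cl4 a b c d * E4 σ h φ' ζ 0 0 0 0 n) atTop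
          (𝓝 (∫ p : ℍ × S1, ζ p.1 * ((Real.exp (-(2 * σ p.1)) : ℝ) : ℂ)
            * lk (fun k => (gk k (p.2 : ℂ) : ℂ)) a b c d ∂ϖ))) : CRN.LinkG ρ h φ ϖ := by
  refine ⟨hϖ.fin, fun V σ φ' hA ζ hζ a b c d h0 => ?_⟩
  convert H V σ φ' hA ζ hζ a b c d h0 using 2
  refine integral_congr_ae (Eventually.of_forall fun p => ?_)
  simp only
  by_cases hp : (p.1 : ℂ) ∈ tsupport ζ
  · rw [← hA.eg _ (hζ.sub hp), Real.exp_neg]
  · rw [image_eq_zero_of_notMem_tsupport hp, zero_mul, zero_mul, zero_mul, zero_mul]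

/-- **the crossing measure of a semiclassical measure** -/
theorem crossing (hS : StmtSemU) {Γ : Subgroup SL(2, ℝ)} {ρ : ℍ → ℝ} (hF : Fac Γ ρ)
    {φ : ℕ → ℍ → ℝ} {m : ℕ → ℝ} {μ : Measure (ℍ × S1)}
    (hL : LocU UH (gr ρ) (fun n => 1 / m n) (fun n z => (φ n (ofComplex z) : ℂ)))
    (hφ : ∀ γ ∈ Γ, ∀ n z, φ n (γ • z) = φ n z) (hμ : Semiclassical ρ φ m μ) :
    ∃ ϖ : Measure (ℍ × S1), Crossing ρ μ ϖ ∧
      (∀ γ ∈ Γ, Measure.map (fun p : ℍ × S1 => (γ • p.1, p.2)) ϖ = ϖ) ∧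
      CRN.LinkG ρ (fun n => 1 / m n) (fun n z => (φ n (ofComplex z) : ℂ)) ϖ := by
  have hJ : JG ρ (fun n => 1 / m n) (fun n z => (φ n (ofComplex z) : ℂ)) μ :=
    hS ρ φ m μ hF.smooth hL hμ
  obtain ⟨ϖ, h1, h2, h3⟩ := crg Γ ρ hF (fun n => 1 / m n)
    (fun n z => (φ n (ofComplex z) : ℂ)) μ hL hμ.fin hJ (by
      intro γ hγ n z hz
      have h : (ofComplex (mob γ z) : ℍ) = γ • ofComplex z := by
        unfold mob
        rw [ofComplex_apply]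
      simp only [h, hφ γ hγ])
  exact ⟨ϖ, h1, h2, linkG_of h1 h3⟩

end CRM
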