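import Pool.Agent.CRM.Stmts

/-!
# ALL: convergence for all test functions, smooth kernel
-/

set_option autoImplicit false

open Complex MeasureTheory Filter Topology Set
open scoped ContDiff

namespace CRM

open QE QJ U3

noncomputable section

namespace ALL

/-- an abstract approximation lemma -/
lemma abs_lim {ι : Type} (X : ι → ℝ → ℂ) (C : ι → ℝ) (Y : ℕ → ι → ℝ → ℂ) (L : ℕ → ℂ)
    (hX : ∀ i n, ∀ᶠ ε in 𝓝[>] (0 : ℝ), ‖X i ε - Y n i ε‖ ≤ C i / ((n : ℝ) + 1))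
    (hY : ∀ n i, Tendsto (Y n i) (𝓝[>] 0) (𝓝 (L n))) :
    ∃ l, ∀ i, Tendsto (X i) (𝓝[>] 0) (𝓝 l) := by
  by_cases hι : Nonempty ι
  · obtain ⟨i0⟩ := hι
    have h1 : ∀ n m : ℕ, ‖L n - L m‖ ≤ C i0 / ((n : ℝ) + 1) + C i0 / ((m : ℝ) + 1) := by
      intro n m
      have h2 : Tendsto (fun ε => ‖Y n i0 ε - Y m i0 ε‖) (𝓝[>] 0) (𝓝 ‖L n - L m‖) :=
        ((hY n i0).sub (hY m i0)).norm
      refine le_of_tendsto h2 ?_
      filter_upwards [hX i0 n, hX i0 m] with ε h3 h4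
      calc ‖Y n i0 ε - Y m i0 ε‖ = ‖(X i0 ε - Y m i0 ε) - (X i0 ε - Y n i0 ε)‖ := by
            congr 1
            ring
        _ ≤ ‖X i0 ε - Y m i0 ε‖ + ‖X i0 ε - Y n i0 ε‖ := norm_sub_le _ _
        _ ≤ C i0 / ((n : ℝ) + 1) + C i0 / ((m : ℝ) + 1) := by linarith
    have hc : ∀ c : ℝ, Tendsto (fun n : ℕ => c / ((n : ℝ) + 1)) atTop (𝓝 0) := by
      intro c
      have := (tendsto_one_div_add_atTop_nhds_zero_nat (𝕜 := ℝ)).const_mul c
      rw [mul_zero] at this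
      refine this.congr (fun n => ?_)
      rw [mul_one_div]
    have h5 : CauchySeq L := by
      refine cauchySeq_of_le_tendsto_0 (fun N : ℕ => (2 * |C i0|) / ((N : ℝ) + 1)) ?_ (hc _)
      intro n m N hn hm
      rw [dist_eq_norm]
      have hb : ∀ k : ℕ, N ≤ k → C i0 / ((k : ℝ) + 1) ≤ |C i0| / ((N : ℝ) + 1) := by
        intro k hk
        have hk' : (N : ℝ) ≤ k := by exact_mod_cast hk
        have hN : (0 : ℝ) < (N : ℝ) + 1 := by positivity
        calc C i0 / ((k : ℝ) + 1) ≤ |C i0| / ((k : ℝ) + 1) :=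
              div_le_div_of_nonneg_right (le_abs_self _) (by positivity)
          _ ≤ |C i0| / ((N : ℝ) + 1) :=
              div_le_div_of_nonneg_left (abs_nonneg _) hN (by linarith)
      have h6 := h1 n m
      have h7 := hb n hn
      have h8 := hb m hm
      have h9 : (2 * |C i0|) / ((N : ℝ) + 1) = |C i0| / ((N : ℝ) + 1) + |C i0| / ((N : ℝ) + 1) := by
        ring
      rw [h9]
      linarith
    obtain ⟨l, hl⟩ := cauchySeq_tendsto_of_complete h5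
    refine ⟨l, fun i => ?_⟩
    rw [Metric.tendsto_nhds]
    intro η hη
    have h10 : ∀ᶠ n : ℕ in atTop, C i / ((n : ℝ) + 1) < η / 3 :=
      (hc (C i)).eventually (gt_mem_nhds (by positivity))
    have h11 : ∀ᶠ n : ℕ in atTop, dist (L n) l < η / 3 :=
      (Metric.tendsto_nhds.1 hl) (η / 3) (by positivity)
    obtain ⟨n, hn1, hn2⟩ := (h10.and h11).exists
    filter_upwards [hX i n, (Metric.tendsto_nhds.1 (hY n i)) (η / 3) (by positivity)] with ε h12 h13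
    have h14 : dist (X i ε) (Y n i ε) < η / 3 := by
      rw [dist_eq_norm]
      exact lt_of_le_of_lt h12 hn1
    calc dist (X i ε) l ≤ dist (X i ε) (Y n i ε) + dist (Y n i ε) (L n) + dist (L n) l :=
          dist_triangle4 _ _ _ _
      _ < η := by linarith
  · exact ⟨0, fun i => absurd ⟨i⟩ hι⟩

lemma kb_eq_ke (β : ℝ → ℝ) (σ : ℂ → ℝ) (ε : ℝ) (z w : ℂ) : kb β σ ε z w = ke β σ ε w z := by
  unfold kb ke gb r2
  rw [norm_sub_rev, add_comm (σ z)]

lemma s2_nonneg (t : ℂ) : 0 ≤ s2 t := by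
  unfold s2
  positivity

lemma s2_le_one {t : ℂ} (h : ‖t‖ = 1) : s2 t ≤ 1 := by
  unfold s2
  have h1 : ‖t ^ 2 - 1‖ ≤ 2 := by
    calc ‖t ^ 2 - 1‖ ≤ ‖t ^ 2‖ + ‖(1 : ℂ)‖ := norm_sub_le _ _
      _ = 2 := by rw [norm_pow, h, norm_one]; norm_num
  have h2 : ‖t ^ 2 - 1‖ ^ 2 ≤ 2 ^ 2 := pow_le_pow_left₀ (norm_nonneg _) h1 2
  linarith

section Main

variable {V : Set ℂ} {σ : ℂ → ℝ} {Ω : Type} [MeasurableSpace Ω] {μ : Measure Ω} {p u : Ω → ℂ}

lemma unit_div (hM : DirM V σ μ p u) (x : Ω × Ω) : ‖u x.1 / u x.2‖ = 1 := by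
  rw [norm_div, hM.unit, hM.unit, div_one]

lemma meas_t (hM : DirM V σ μ p u) : Measurable fun x : Ω × Ω => u x.1 / u x.2 :=
  (hM.mu.comp measurable_fst).div (hM.mu.comp measurable_snd)

lemma meas_s2 (hM : DirM V σ μ p u) : Measurable fun x : Ω × Ω => s2 (u x.1 / u x.2) := by
  have h1 : Continuous s2 := by
    unfold s2
    fun_prop
  exact h1.measurable.comp (meas_t hM)

lemma meas_kb (hM : DirM V σ μ p u) (hσ : ContDiff ℝ ∞ σ) {β : ℝ → ℝ} (hβ : Bump β) (ε : ℝ) :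
    Measurable fun x : Ω × Ω => kb β σ ε (p x.1) (p x.2) := by
  have h0 : Continuous β := hβ.smooth.continuous
  have h0' : Continuous σ := hσ.continuous
  have h1 : Continuous fun q : ℂ × ℂ => kb β σ ε q.1 q.2 := by
    unfold kb r2
    have h2 : Continuous fun q : ℂ × ℂ => Real.exp (2 * σ q.1) := by fun_prop
    have h3 : Continuous fun q : ℂ × ℂ =>
        Real.exp (σ q.1 + σ q.2) * ‖q.2 - q.1‖ ^ 2 / ε ^ 2 := by
      have h4 : Continuous fun q : ℂ × ℂ => Real.exp (σ q.1 + σ q.2) * ‖q.2 - q.1‖ ^ 2 := by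
        fun_prop
      exact h4.div_const _
    exact h2.mul ((h0.comp h3).div_const _)
  exact h1.measurable.comp ((hM.mp.comp measurable_fst).prodMk (hM.mp.comp measurable_snd))

lemma ae_cpt [SFinite μ] {K₀ : Set ℂ} (hK : ∀ᵐ o ∂μ, p o ∈ K₀) :
    ∀ᵐ x ∂(μ.prod μ), p x.1 ∈ K₀ ∧ p x.2 ∈ K₀ :=
  ((Measure.quasiMeasurePreserving_fst (μ := μ) (ν := μ)).ae hK).and
    ((Measure.quasiMeasurePreserving_snd (μ := μ) (ν := μ)).ae hK)

/-- the integrand -/
def gg (p u : Ω → ℂ) (β : ℝ → ℝ) (σ : ℂ → ℝ) (ε : ℝ) (F : ℂ × ℂ → ℂ) (x : Ω × Ω) : ℂ :=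
  ((kb β σ ε (p x.1) (p x.2) * s2 (u x.1 / u x.2) : ℝ) : ℂ) * F (p x.1, u x.1 / u x.2)

lemma integrable_gg (hz : StmtKsz) (hM : DirM V σ μ p u) (hσ : ContDiff ℝ ∞ σ) {β : ℝ → ℝ}
    (hβ : Bump β) {ε : ℝ} (hε : 0 < ε) {F : ℂ × ℂ → ℂ} (hF : Measurable F)
    (hB : ∀ K, IsCompact K → ∃ B, ∀ z ∈ K, ∀ t : ℂ, ‖t‖ = 1 → ‖F (z, t)‖ ≤ B) :
    Integrable (gg p u β σ ε F) (μ.prod μ) := by
  have : IsFiniteMeasure μ := ⟨lt_top_iff_ne_top.2 hM.fin⟩
  obtain ⟨K₀, hK₀, hae⟩ := hM.cpt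
  obtain ⟨B, hB'⟩ := hB K₀ hK₀
  obtain ⟨C, hC, hk⟩ := hz β σ K₀ hβ hσ hK₀
  have hmeas : Measurable (gg p u β σ ε F) := by
    unfold gg
    refine Measurable.mul ?_ ?_
    · exact Complex.measurable_ofReal.comp ((meas_kb hM hσ hβ ε).mul (meas_s2 hM))
    · exact hF.comp ((hM.mp.comp measurable_fst).prodMk (meas_t hM))
  refine Integrable.of_bound hmeas.aestronglyMeasurable (C / ε ^ 2 * 1 * B) ?_
  filter_upwards [ae_cpt hae] with x hx
  have h1 := hk ε hε (p x.2) hx.2 (p x.1) hx.1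
  rw [← kb_eq_ke] at h1
  unfold gg
  rw [norm_mul, Complex.norm_real, Real.norm_eq_abs, abs_of_nonneg
    (mul_nonneg h1.1 (s2_nonneg _))]
  have h2 := hB' (p x.1) hx.1 _ (unit_div hM x)
  refine mul_le_mul ?_ h2 (norm_nonneg _) (by positivity)
  exact mul_le_mul h1.2.1 (s2_le_one (unit_div hM x)) (s2_nonneg _) (by positivity)

lemma bound (hz : StmtKsz) (hM : DirM V σ μ p u) (hσ : ContDiff ℝ ∞ σ) (hP : PairB V μ p u)
    {β : ℝ → ℝ} (hβ : Bump β) {K : Set ℂ} (hK : IsCompact K) (hKV : K ⊆ V) :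
    ∃ C ε₀ : ℝ, 0 < ε₀ ∧ ∀ ε, 0 < ε → ε < ε₀ → ∀ (F : ℂ × ℂ → ℂ) (δ : ℝ), 0 ≤ δ →
      (∀ z, z ∉ K → ∀ t, F (z, t) = 0) → (∀ z t : ℂ, ‖t‖ = 1 → ‖F (z, t)‖ ≤ δ) →
      ‖XK μ p u (kb β σ ε) F‖ ≤ C * δ := by
  have : IsFiniteMeasure μ := ⟨lt_top_iff_ne_top.2 hM.fin⟩
  obtain ⟨K₀, hK₀, hae⟩ := hM.cpt
  obtain ⟨C1, hC1, hk⟩ := hz β σ K₀ hβ hσ hK₀
  obtain ⟨C2, ε₂, hε₂, h2⟩ := hP.sine K hK hKV
  refine ⟨C1 / 1 * (C2 * C1 ^ 2), ε₂ / C1, by positivity, ?_⟩
  intro ε hε hε' F δ hδ hF0 hFδ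
  have hCε : C1 * ε < ε₂ := by
    rw [lt_div_iff₀ hC1] at hε'
    linarith
  have h3 := h2 (C1 * ε) (by positivity) hCε
  set G : Set (Ω × Ω) := {x | p x.1 ∈ K ∧ ‖p x.1 - p x.2‖ ≤ C1 * ε} with hG
  have hGm : MeasurableSet G := by
    have e1 : MeasurableSet {x : Ω × Ω | p x.1 ∈ K} :=
      (hM.mp.comp measurable_fst) hK.isClosed.measurableSet
    have e2 : MeasurableSet {x : Ω × Ω | ‖p x.1 - p x.2‖ ≤ C1 * ε} :=
      measurableSet_le ((hM.mp.comp measurable_fst).sub (hM.mp.comp measurable_snd)).norm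
        measurable_const
    exact e1.inter e2
  have hint : Integrable (fun x : Ω × Ω => s2 (u x.1 / u x.2)) (μ.prod μ) := by
    refine Integrable.of_bound (meas_s2 hM).aestronglyMeasurable 1 (Eventually.of_forall ?_)
    intro x
    rw [Real.norm_eq_abs, abs_of_nonneg (s2_nonneg _)]
    exact s2_le_one (unit_div hM x)
  have hgint : Integrable (G.indicator fun x : Ω × Ω => δ * (C1 / ε ^ 2) * s2 (u x.1 / u x.2))
      (μ.prod μ) := (hint.const_mul _).indicator hGm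
  have h4 : ‖XK μ p u (kb β σ ε) F‖ ≤
      ∫ x, G.indicator (fun x : Ω × Ω => δ * (C1 / ε ^ 2) * s2 (u x.1 / u x.2)) x ∂(μ.prod μ) := by
    unfold XK II
    refine norm_integral_le_of_norm_le hgint ?_
    filter_upwards [ae_cpt hae] with x hx
    have h5 := hk ε hε (p x.2) hx.2 (p x.1) hx.1
    rw [← kb_eq_ke] at h5
    have hnn : 0 ≤ G.indicator (fun x : Ω × Ω => δ * (C1 / ε ^ 2) * s2 (u x.1 / u x.2)) x := by
      refine indicator_nonneg (fun y _ => ?_) x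
      have := s2_nonneg (u y.1 / u y.2)
      positivity
    by_cases hxK : p x.1 ∈ K
    · by_cases hd : ‖p x.1 - p x.2‖ ≤ C1 * ε
      · rw [indicator_of_mem (show x ∈ G from ⟨hxK, hd⟩)]
        rw [norm_mul, Complex.norm_real, Real.norm_eq_abs, abs_of_nonneg
          (mul_nonneg h5.1 (s2_nonneg _))]
        calc kb β σ ε (p x.1) (p x.2) * s2 (u x.1 / u x.2) * ‖F (p x.1, u x.1 / u x.2)‖
            ≤ (C1 / ε ^ 2) * s2 (u x.1 / u x.2) * δ := by
              refine mul_le_mul ?_ (hFδ _ _ (unit_div hM x)) (norm_nonneg _) ?_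
              · exact mul_le_mul_of_nonneg_right h5.2.1 (s2_nonneg _)
              · have := s2_nonneg (u x.1 / u x.2)
                positivity
          _ = δ * (C1 / ε ^ 2) * s2 (u x.1 / u x.2) := by ring
      · have h6 := h5.2.2.1 (lt_of_not_ge hd)
        rw [h6, zero_mul, Complex.ofReal_zero, zero_mul, norm_zero]
        exact hnn
    · rw [hF0 _ hxK, mul_zero, norm_zero]
      exact hnn
  refine h4.trans ?_
  rw [integral_indicator hGm, integral_const_mul]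
  calc δ * (C1 / ε ^ 2) * ∫ x in G, s2 (u x.1 / u x.2) ∂(μ.prod μ)
      ≤ δ * (C1 / ε ^ 2) * (C2 * (C1 * ε) ^ 2) := by
        refine mul_le_mul_of_nonneg_left h3 ?_
        positivity
    _ = C1 / 1 * (C2 * C1 ^ 2) * δ := by
        field_simp

lemma meas_zpow (k : ℤ) : Measurable fun t : ℂ => t ^ k := by
  cases k with
  | ofNat n =>
    have : (fun t : ℂ => t ^ (Int.ofNat n)) = fun t : ℂ => t ^ n := by
      funext t
      exact zpow_natCast t n
    rw [this]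
    exact measurable_id.pow_const n
  | negSucc n =>
    have : (fun t : ℂ => t ^ (Int.negSucc n)) = fun t : ℂ => (t ^ (n + 1))⁻¹ := by
      funext t
      exact zpow_negSucc t n
    rw [this]
    exact (measurable_id.pow_const (n + 1)).inv

lemma XK_eq (β : ℝ → ℝ) (ε : ℝ) (F : ℂ × ℂ → ℂ) :
    XK μ p u (kb β σ ε) F = ∫ x, gg p u β σ ε F x ∂(μ.prod μ) := rfl

end Main

end ALL

open ALL in
theorem t_ALL (hD : StmtDns) (hz : StmtKsz) : StmtAll := by
  intro V σ Ω _ μ p u hV hσ hM hP hmon f hf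
  obtain ⟨K, hK, hKV, hap⟩ := hD V f hV hf
  have hδ : ∀ n : ℕ, (0 : ℝ) < 1 / ((n : ℝ) + 1) := fun n => by positivity
  choose N ζ hT hsupp hf0 happ using fun n : ℕ => hap (1 / ((n : ℝ) + 1)) (hδ n)
  choose l hl using hmon
  -- the approximations
  set g : ℕ → ℂ × ℂ → ℂ := fun n x => ∑ k ∈ Finset.Icc (-(N n : ℤ)) (N n), ζ n k x.1 * x.2 ^ k
    with hg
  have hζm : ∀ n k, Measurable fun x : ℂ × ℂ => ζ n k x.1 * x.2 ^ k := fun n k =>
    ((hT n k).smooth.continuous.measurable.comp measurable_fst).mul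
      ((meas_zpow k).comp measurable_snd)
  have hζb : ∀ n k, ∀ K', IsCompact K' → ∃ B, ∀ z ∈ K', ∀ t : ℂ, ‖t‖ = 1 →
      ‖(fun x : ℂ × ℂ => ζ n k x.1 * x.2 ^ k) (z, t)‖ ≤ B := by
    intro n k K' _
    obtain ⟨B, hB⟩ := (hT n k).smooth.continuous.bounded_above_of_compact_support (hT n k).supp
    refine ⟨B, fun z _ t ht => ?_⟩
    show ‖ζ n k z * t ^ k‖ ≤ B
    rw [norm_mul, norm_zpow, ht, one_zpow, mul_one]
    exact hB z
  have hfm : Measurable f := hf.cont.measurable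
  have hfb : ∀ K', IsCompact K' → ∃ B, ∀ z ∈ K', ∀ t : ℂ, ‖t‖ = 1 → ‖f (z, t)‖ ≤ B := by
    intro K' hK'
    obtain ⟨B, hB⟩ := (hK'.prod (isCompact_sphere (0 : ℂ) 1)).exists_bound_of_continuousOn
      hf.cont.continuousOn
    refine ⟨B, fun z hz t ht => hB (z, t) ⟨hz, ?_⟩⟩
    simpa using ht
  have hsum : ∀ n (β : ℝ → ℝ), Bump β → ∀ ε, 0 < ε → XK μ p u (kb β σ ε) (g n) =
      ∑ k ∈ Finset.Icc (-(N n : ℤ)) (N n), XK μ p u (kb β σ ε) fun x => ζ n k x.1 * x.2 ^ k := by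
    intro n β hβ ε hε
    simp only [XK_eq]
    rw [← integral_finsetSum _ (fun k _ => integrable_gg hz hM hσ hβ hε (hζm n k) (hζb n k))]
    congr 1
    funext x
    simp only [gg, hg, Finset.mul_sum]
  have hgint : ∀ n (β : ℝ → ℝ), Bump β → ∀ ε, 0 < ε →
      Integrable (gg p u β σ ε (g n)) (μ.prod μ) := by
    intro n β hβ ε hε
    have h1 : gg p u β σ ε (g n) = fun x => ∑ k ∈ Finset.Icc (-(N n : ℤ)) (N n),
        gg p u β σ ε (fun x => ζ n k x.1 * x.2 ^ k) x := by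
      funext x
      simp only [gg, hg, Finset.mul_sum]
    rw [h1]
    exact integrable_finsetSum _ (fun k _ => integrable_gg hz hM hσ hβ hε (hζm n k) (hζb n k))
  choose C ε₀ hε₀ hbd using fun β : {β : ℝ → ℝ // Bump β} =>
    bound (K := K) hz hM hσ hP β.2 hK hKV
  obtain ⟨L, hL⟩ := abs_lim (ι := {β : ℝ → ℝ // Bump β})
    (fun β ε => XK μ p u (kb β.1 σ ε) f) (fun β => C β)
    (fun n β ε => XK μ p u (kb β.1 σ ε) (g n))
    (fun n => ∑ k ∈ Finset.Icc (-(N n : ℤ)) (N n), l k (ζ n k) (hT n k))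
    (by
      intro β n
      have h1 : ∀ᶠ ε in 𝓝[>] (0 : ℝ), 0 < ε ∧ ε < ε₀ β := by
        have := Ioo_mem_nhdsGT (hε₀ β)
        filter_upwards [this] with ε hε using hε
      filter_upwards [h1] with ε hε
      have h2 : XK μ p u (kb β.1 σ ε) f - XK μ p u (kb β.1 σ ε) (g n) =
          XK μ p u (kb β.1 σ ε) (fun x => f x - g n x) := by
        simp only [XK_eq]
        rw [← integral_sub (integrable_gg hz hM hσ β.2 hε.1 hfm hfb) (hgint n β.1 β.2 ε hε.1)]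
        congr 1
        funext x
        simp only [gg, mul_sub]
      rw [h2]
      refine (hbd β ε hε.1 hε.2 (fun x => f x - g n x) (1 / ((n : ℝ) + 1)) (hδ n).le ?_ ?_).trans
        (le_of_eq (mul_one_div _ _))
      · intro z hzK t
        have h3 : f (z, t) = 0 := hf0 n z hzK t
        have h4 : g n (z, t) = 0 := by
          simp only [hg]
          refine Finset.sum_eq_zero (fun k _ => ?_)
          have h5 : ζ n k z = 0 := by
            by_contra hne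
            exact hzK (hsupp n k (subset_tsupport _ hne))
          rw [h5, zero_mul]
        show f (z, t) - g n (z, t) = 0
        rw [h3, h4, sub_zero]
      · intro z t ht
        exact happ n z t ht)
    (by
      intro n β
      have h1 := tendsto_finsetSum (Finset.Icc (-(N n : ℤ)) (N n))
        (fun k _ => hl k (ζ n k) (hT n k) β.1 β.2)
      refine h1.congr' ?_
      filter_upwards [self_mem_nhdsWithin] with ε hε
      exact (hsum n β.1 β.2 ε hε).symm)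
  exact ⟨L, fun β hβ => hL ⟨β, hβ⟩⟩

end

end CRM
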