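import Pool.Agent.CRM.StA

/-!
The crossing measure of a semiclassical measure on a closed surface gives no mass to the angle zero.
-/

open Complex MeasureTheory Filter Topology Set
open UpperHalfPlane hiding I
open scoped ContDiff MatrixGroups

namespace CRM

open QE QE.NC QJ U3 NFP

noncomputable section

namespace AN2

lemma continuous_dirG : Continuous dirG := QE.FM.continuous_dirG

lemma continuous_toS : Continuous toS :=
  (continuous_id.smul continuous_const).prodMk (continuous_dirG.subtype_mk _)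

lemma norm_uG_sub (v w : SL(2, ℝ)) : ‖uG v - uG w‖ = ‖dirG v - dirG w‖ := by
  have h : uG v - uG w = Complex.I * (starRingEnd ℂ) (dirG v - dirG w) := by
    simp only [uG, map_sub]; ring
  rw [h, norm_mul, Complex.norm_I, one_mul, RCLike.norm_conj]

lemma norm_div_sub_one (v w : SL(2, ℝ)) :
    ‖(((toS v).2 / (toS w).2 : S1) : ℂ) - 1‖ = ‖uG v - uG w‖ := by
  have h1 : ((((toS v).2 / (toS w).2 : S1) : ℂ)) = dirG v / dirG w := rfl
  have hw : dirG w ≠ 0 := by
    intro h
    have := norm_dirG w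
    rw [h, norm_zero] at this
    exact zero_ne_one this
  rw [h1, norm_uG_sub, div_sub_one hw, norm_div, norm_dirG, div_one]

lemma im_sq_le (t : ℂ) : t.im ^ 2 ≤ ‖t - 1‖ ^ 2 := by
  rw [← Complex.normSq_eq_norm_sq, Complex.normSq_apply]
  simp only [Complex.sub_re, Complex.sub_im, Complex.one_re, Complex.one_im, sub_zero]
  nlinarith [mul_self_nonneg (t.re - 1)]

/-- the test function -/
def ff (χ : ℍ → ℝ) (η : ℝ) (p : ℍ × S1) : ℝ := χ p.1 * max (1 - ‖(p.2 : ℂ) - 1‖ / η) 0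

lemma ff_cont {χ : ℍ → ℝ} (hχ : Continuous χ) (η : ℝ) : Continuous (ff χ η) := by
  unfold ff
  refine (hχ.comp continuous_fst).mul ?_
  refine Continuous.max ?_ continuous_const
  exact continuous_const.sub
    (((continuous_subtype_val.comp continuous_snd).sub continuous_const).norm.div_const η)

lemma ff_nonneg {χ : ℍ → ℝ} (h0 : ∀ z, 0 ≤ χ z) (η : ℝ) (p : ℍ × S1) : 0 ≤ ff χ η p :=
  mul_nonneg (h0 _) (le_max_right _ _)

lemma ff_le_one {χ : ℍ → ℝ} (h1 : ∀ z, χ z ≤ 1) {η : ℝ} (hη : 0 < η) (p : ℍ × S1) :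
    ff χ η p ≤ 1 := by
  have h : max (1 - ‖(p.2 : ℂ) - 1‖ / η) 0 ≤ 1 := by
    refine max_le ?_ zero_le_one
    have : 0 ≤ ‖(p.2 : ℂ) - 1‖ / η := by positivity
    linarith
  calc ff χ η p ≤ 1 * 1 := mul_le_mul (h1 _) h (le_max_right _ _) zero_le_one
    _ = 1 := one_mul _

lemma ff_eq_zero_of_chi {χ : ℍ → ℝ} {η : ℝ} {p : ℍ × S1} (h : p.1 ∉ tsupport χ) :
    ff χ η p = 0 := by
  have : χ p.1 = 0 := by
    by_contra h'
    exact h (subset_tsupport _ h')
  simp [ff, this]

lemma ff_eq_zero_of_far {χ : ℍ → ℝ} {η : ℝ} (hη : 0 < η) {p : ℍ × S1}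
    (h : η < ‖(p.2 : ℂ) - 1‖) : ff χ η p = 0 := by
  have : max (1 - ‖(p.2 : ℂ) - 1‖ / η) 0 = 0 := by
    refine max_eq_right ?_
    have : 1 ≤ ‖(p.2 : ℂ) - 1‖ / η := by
      rw [le_div_iff₀ hη]; linarith
    linarith
  simp [ff, this]

lemma ff_supp {χ : ℍ → ℝ} (hs : HasCompactSupport χ) (η : ℝ) : HasCompactSupport (ff χ η) := by
  refine HasCompactSupport.intro (K := (tsupport χ) ×ˢ (univ : Set S1))
    (IsCompact.prod hs isCompact_univ) ?_
  intro p hp
  refine ff_eq_zero_of_chi fun h => hp ⟨h, mem_univ _⟩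

lemma clo_meas {ρ : ℍ → ℝ} (hρ : Continuous ρ) (ε : ℝ) : MeasurableSet (clo ρ ε) := by
  unfold clo
  refine (isOpen_lt ?_ ?_).measurableSet
  · refine Continuous.mul ?_ ?_
    · exact Real.continuous_exp.comp ((hρ.comp (continuous_fst.comp continuous_fst)).add
        (hρ.comp (continuous_fst.comp continuous_snd)))
    · refine Continuous.pow (Continuous.norm ?_) 2
      exact (UpperHalfPlane.continuous_coe.comp (continuous_fst.comp continuous_fst)).sub
        (UpperHalfPlane.continuous_coe.comp (continuous_fst.comp continuous_snd))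
  · exact continuous_const.mul
      ((UpperHalfPlane.continuous_im.comp (continuous_fst.comp continuous_fst)).mul
        (UpperHalfPlane.continuous_im.comp (continuous_fst.comp continuous_snd)))

/-- the integrand -/
def gg (χ : ℍ → ℝ) (η : ℝ) (x : (ℍ × S1) × (ℍ × S1)) : ℝ :=
  ((x.1.2 / x.2.2 : S1) : ℂ).im ^ 2 * ff χ η (x.1.1, x.1.2 / x.2.2)

lemma gg_cont {χ : ℍ → ℝ} (hχ : Continuous χ) (η : ℝ) : Continuous (gg χ η) := by
  unfold gg
  have hd : Continuous fun x : (ℍ × S1) × (ℍ × S1) => (x.1.2 / x.2.2 : S1) :=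
    (continuous_snd.comp continuous_fst).div' (continuous_snd.comp continuous_snd)
  refine Continuous.mul ?_ ?_
  · exact (Complex.continuous_im.comp (continuous_subtype_val.comp hd)).pow 2
  · exact (ff_cont hχ η).comp ((continuous_fst.comp continuous_fst).prodMk hd)

/-- the set of the statement `StmtAng` -/
def AS (K : Set SL(2, ℝ)) (ε η : ℝ) : Set (SL(2, ℝ) × SL(2, ℝ)) :=
  {x : SL(2, ℝ) × SL(2, ℝ) | x.1 ∈ K ∧
    ‖pG x.1 - pG x.2‖ ^ 2 ≤ ε ^ 2 * ((pG x.1).im * (pG x.2).im) ∧ ‖uG x.1 - uG x.2‖ ≤ η}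

lemma AS_meas {K : Set SL(2, ℝ)} (hK : IsCompact K) (ε η : ℝ)
    [MeasurableSpace SL(2, ℝ)] [BorelSpace SL(2, ℝ)] : MeasurableSet (AS K ε η) := by
  have hp : Continuous pG := U3.stmtRot.1
  have hu : Continuous uG := U3.stmtRot.2.1
  have h1 : IsClosed {x : SL(2, ℝ) × SL(2, ℝ) | x.1 ∈ K} := hK.isClosed.preimage continuous_fst
  have h2 : IsClosed {x : SL(2, ℝ) × SL(2, ℝ) |
      ‖pG x.1 - pG x.2‖ ^ 2 ≤ ε ^ 2 * ((pG x.1).im * (pG x.2).im)} := by
    refine isClosed_le ?_ ?_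
    · exact ((hp.comp continuous_fst).sub (hp.comp continuous_snd)).norm.pow 2
    · exact continuous_const.mul ((Complex.continuous_im.comp (hp.comp continuous_fst)).mul
        (Complex.continuous_im.comp (hp.comp continuous_snd)))
  have h3 : IsClosed {x : SL(2, ℝ) × SL(2, ℝ) | ‖uG x.1 - uG x.2‖ ≤ η} :=
    isClosed_le ((hu.comp continuous_fst).sub (hu.comp continuous_snd)).norm continuous_const
  exact (h1.inter (h2.inter h3)).measurableSet

/-- the pointwise bound -/
lemma key {ρ : ℍ → ℝ} {B : ℝ} (hB : ∀ z, |ρ z| ≤ B) {χ : ℍ → ℝ} (h0 : ∀ z, 0 ≤ χ z)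
    (h1 : ∀ z, χ z ≤ 1) {ε η : ℝ} (hη : 0 < η) (x : SL(2, ℝ) × SL(2, ℝ))
    (hx : (toS x.1, toS x.2) ∈ clo ρ ε) :
    ENNReal.ofReal ‖gg χ η (toS x.1, toS x.2)‖ ≤
      (AS ((fun g : SL(2, ℝ) => g • UpperHalfPlane.I) ⁻¹' tsupport χ) (Real.exp B * ε) η).indicator
        (fun x => ENNReal.ofReal (‖uG x.1 - uG x.2‖ ^ 2)) x := by
  by_cases hz : gg χ η (toS x.1, toS x.2) = 0
  · rw [hz, norm_zero, ENNReal.ofReal_zero]; exact zero_le
  have hf : ff χ η ((toS x.1).1, (toS x.1).2 / (toS x.2).2) ≠ 0 := fun h => hz (by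
    unfold gg; rw [h, mul_zero])
  have hK : (toS x.1).1 ∈ tsupport χ := by
    by_contra h
    exact hf (ff_eq_zero_of_chi h)
  have hfar : ‖(((toS x.1).2 / (toS x.2).2 : S1) : ℂ) - 1‖ ≤ η := by
    by_contra h
    exact hf (ff_eq_zero_of_far hη (not_le.mp h))
  have hmem : x ∈ AS ((fun g : SL(2, ℝ) => g • UpperHalfPlane.I) ⁻¹' tsupport χ)
      (Real.exp B * ε) η := by
    refine ⟨hK, ?_, ?_⟩
    · have hc : Real.exp (ρ (x.1 • UpperHalfPlane.I) + ρ (x.2 • UpperHalfPlane.I)) *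
          ‖pG x.1 - pG x.2‖ ^ 2 < ε ^ 2 * ((pG x.1).im * (pG x.2).im) := hx
      have hρ1 := abs_le.mp (hB (x.1 • UpperHalfPlane.I))
      have hρ2 := abs_le.mp (hB (x.2 • UpperHalfPlane.I))
      have hE : Real.exp (-(2 * B)) ≤
          Real.exp (ρ (x.1 • UpperHalfPlane.I) + ρ (x.2 • UpperHalfPlane.I)) :=
        Real.exp_le_exp.mpr (by linarith)
      have h3 : Real.exp (-(2 * B)) * ‖pG x.1 - pG x.2‖ ^ 2 ≤
          ε ^ 2 * ((pG x.1).im * (pG x.2).im) :=
        (mul_le_mul_of_nonneg_right hE (by positivity)).trans hc.le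
      have h4 : Real.exp B ^ 2 * Real.exp (-(2 * B)) = 1 := by
        rw [← Real.exp_nat_mul, ← Real.exp_add]
        simp
      calc ‖pG x.1 - pG x.2‖ ^ 2
          = Real.exp B ^ 2 * (Real.exp (-(2 * B)) * ‖pG x.1 - pG x.2‖ ^ 2) := by
            rw [← mul_assoc, h4, one_mul]
        _ ≤ Real.exp B ^ 2 * (ε ^ 2 * ((pG x.1).im * (pG x.2).im)) :=
            mul_le_mul_of_nonneg_left h3 (by positivity)
        _ = (Real.exp B * ε) ^ 2 * ((pG x.1).im * (pG x.2).im) := by ring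
    · rw [← norm_div_sub_one]; exact hfar
  rw [indicator_of_mem hmem]
  refine ENNReal.ofReal_le_ofReal ?_
  have hfn := ff_nonneg h0 η ((toS x.1).1, (toS x.1).2 / (toS x.2).2)
  have hf1 := ff_le_one h1 hη ((toS x.1).1, (toS x.1).2 / (toS x.2).2)
  unfold gg
  rw [Real.norm_eq_abs, abs_of_nonneg (mul_nonneg (sq_nonneg _) hfn)]
  calc (((toS x.1).2 / (toS x.2).2 : S1) : ℂ).im ^ 2 *
        ff χ η ((toS x.1).1, (toS x.1).2 / (toS x.2).2)
      ≤ (((toS x.1).2 / (toS x.2).2 : S1) : ℂ).im ^ 2 * 1 :=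
        mul_le_mul_of_nonneg_left hf1 (sq_nonneg _)
    _ = (((toS x.1).2 / (toS x.2).2 : S1) : ℂ).im ^ 2 := mul_one _
    _ ≤ ‖(((toS x.1).2 / (toS x.2).2 : S1) : ℂ) - 1‖ ^ 2 := im_sq_le _
    _ = ‖uG x.1 - uG x.2‖ ^ 2 := by rw [norm_div_sub_one]

end AN2

theorem t_AN2 (hA : StmtAng) (hL : NC.StmtLip) : StmtAn2 := by
  intro _ _ Γ ρ Φ ν _ _ hF hΦ hν ϖ hϖ K hK
  obtain ⟨-, -, hρc, -, -, B, L, hB0, -, hB, -⟩ := hL Γ ρ hF
  -- the cutoff
  obtain ⟨χ, hχ1, -, hχs, hχr⟩ := exists_continuous_one_zero_of_isCompact hK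
    (isClosed_empty (X := ℍ)) (disjoint_empty K)
  have h0 : ∀ z, 0 ≤ χ z := fun z => (hχr z).1
  have h1 : ∀ z, χ z ≤ 1 := fun z => (hχr z).2
  have hK2 : IsCompact ((fun g : SL(2, ℝ) => g • UpperHalfPlane.I) ⁻¹' tsupport χ) := by
    have hc : IsCompact ((fun z : ℍ => (z : ℂ)) '' tsupport χ) :=
      hχs.image UpperHalfPlane.continuous_coe
    have hr := U3.stmtRot.2.2.2.2.2.2.2 _ hc (by
      rintro _ ⟨z, -, rfl⟩
      exact z.im_pos)
    have he : pG ⁻¹' ((fun z : ℍ => (z : ℂ)) '' tsupport χ) =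
        (fun g : SL(2, ℝ) => g • UpperHalfPlane.I) ⁻¹' tsupport χ := by
      ext g
      constructor
      · rintro ⟨z, hz, hzg⟩
        have : z = g • UpperHalfPlane.I := UpperHalfPlane.ext hzg
        rw [this] at hz
        exact hz
      · intro hg
        exact ⟨_, hg, rfl⟩
    rw [← he]
    exact hr
  obtain ⟨C, η₀, hC, hη₀, hbd⟩ := hA Γ ρ Φ ν hF hΦ hν _ hK2
  -- the set
  set S : Set (ℍ × S1) := {p | p.1 ∈ K ∧ (p.2 : ℂ) = 1} with hS
  have hSc : IsClosed S := (hK.isClosed.preimage continuous_fst).inter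
    (isClosed_eq (continuous_subtype_val.comp continuous_snd) continuous_const)
  have hSm : MeasurableSet S := hSc.measurableSet
  have hSs : S ⊆ K ×ˢ (univ : Set S1) := fun p hp => ⟨hp.1, mem_univ _⟩
  have hSf : ϖ S < ⊤ := lt_of_le_of_lt (measure_mono hSs) (hϖ.fin K hK)
  have main : ∀ η : ℝ, 0 < η → η ≤ η₀ → (ϖ S).toReal ≤ Real.exp B ^ 2 * (C * η) := by
    intro η hη hη'
    -- the lower bound for the integral
    have hTf : ϖ (tsupport χ ×ˢ (univ : Set S1)) < ⊤ := hϖ.fin _ hχs.isCompact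
    have hTm : MeasurableSet (tsupport χ ×ˢ (univ : Set S1)) :=
      (isClosed_tsupport χ).measurableSet.prod MeasurableSet.univ
    have hfi : Integrable (AN2.ff χ η) ϖ := by
      have hi : Integrable ((tsupport χ ×ˢ (univ : Set S1)).indicator fun _ => (1 : ℝ)) ϖ :=
        (integrable_indicator_iff hTm).mpr (integrableOn_const hTf.ne)
      refine hi.mono' (AN2.ff_cont χ.continuous η).measurable.aestronglyMeasurable ?_
      refine Filter.Eventually.of_forall fun p => ?_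
      rw [Real.norm_eq_abs, abs_of_nonneg (AN2.ff_nonneg h0 η p)]
      by_cases hp : p.1 ∈ tsupport χ
      · rw [indicator_of_mem (show p ∈ tsupport χ ×ˢ (univ : Set S1) from ⟨hp, mem_univ _⟩)]
        exact AN2.ff_le_one h1 hη p
      · rw [AN2.ff_eq_zero_of_chi hp]
        exact indicator_nonneg (fun _ _ => zero_le_one) p
    have hlo : (ϖ S).toReal ≤ ∫ p, AN2.ff χ η p ∂ϖ := by
      have e : (ϖ S).toReal = ∫ p, S.indicator (fun _ => (1 : ℝ)) p ∂ϖ := by
        rw [integral_indicator_const (1 : ℝ) hSm]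
        simp [Measure.real]
      rw [e]
      refine integral_mono ((integrable_indicator_iff hSm).mpr (integrableOn_const hSf.ne)) hfi ?_
      intro p
      by_cases hp : p ∈ S
      · rw [indicator_of_mem hp]
        have e1 : χ p.1 = 1 := hχ1 hp.1
        have e2 : (p.2 : ℂ) = 1 := hp.2
        simp [AN2.ff, e1, e2]
      · rw [indicator_of_notMem hp]
        exact AN2.ff_nonneg h0 η p
    -- the upper bound for the integral
    have hlim := hϖ.lim _ (AN2.ff_cont χ.continuous η) (AN2.ff_supp hχs η)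
    have hT : Tendsto (fun ε : ℝ => Real.exp B * ε) (𝓝[>] 0) (𝓝[>] 0) := by
      refine tendsto_nhdsWithin_iff.mpr ⟨?_, ?_⟩
      · have : Tendsto (fun ε : ℝ => Real.exp B * ε) (𝓝 0) (𝓝 (Real.exp B * 0)) :=
          (continuous_const.mul continuous_id).tendsto 0
        rw [mul_zero] at this
        exact this.mono_left nhdsWithin_le_nhds
      · filter_upwards [self_mem_nhdsWithin] with ε hε
        exact mul_pos (Real.exp_pos _) hε
    have hup : ∀ᶠ ε : ℝ in 𝓝[>] 0,
        XG ρ (Measure.map toS ν) ε (AN2.ff χ η) ≤ Real.exp B ^ 2 * (C * η) := by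
      filter_upwards [hT.eventually (hbd η hη hη'), self_mem_nhdsWithin] with ε hε hε0
      have hε1 : 0 < ε := hε0
      set M := ∫⁻ x in AN2.AS ((fun g : SL(2, ℝ) => g • UpperHalfPlane.I) ⁻¹' tsupport χ)
        (Real.exp B * ε) η, ENNReal.ofReal (‖uG x.1 - uG x.2‖ ^ 2) ∂(ν.prod ν) with hM
      have hε' : ENNReal.ofReal (Real.pi * (Real.exp B * ε) ^ 2)⁻¹ * M ≤
        ENNReal.ofReal (C * η) := hε
      have hpos : 0 < (Real.pi * (Real.exp B * ε) ^ 2)⁻¹ := by positivity
      have hMf : M ≠ ⊤ := by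
        intro h
        rw [h, ENNReal.mul_top (by simpa using hpos)] at hε'
        exact absurd hε' (by simp)
      have hle : ∫⁻ x in clo ρ ε, ENNReal.ofReal ‖AN2.gg χ η x‖
          ∂((Measure.map toS ν).prod (Measure.map toS ν)) ≤ M := by
        rw [Measure.map_prod_map ν ν AN2.continuous_toS.measurable AN2.continuous_toS.measurable]
        rw [setLIntegral_map (AN2.clo_meas hρc ε)
          ((AN2.gg_cont χ.continuous η).norm.measurable.ennreal_ofReal)
          (AN2.continuous_toS.measurable.prodMap AN2.continuous_toS.measurable)]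
        rw [hM, ← lintegral_indicator (AN2.AS_meas hK2 _ _)]
        refine (setLIntegral_mono_ae' ((AN2.continuous_toS.measurable.prodMap
          AN2.continuous_toS.measurable) (AN2.clo_meas hρc ε)) ?_).trans
          (setLIntegral_le_lintegral _ _)
        exact Filter.Eventually.of_forall fun x hx => AN2.key hB h0 h1 hη x hx
      have hint : ∫ x in clo ρ ε, AN2.gg χ η x ∂((Measure.map toS ν).prod (Measure.map toS ν)) ≤
          M.toReal :=
        (le_abs_self _).trans ((norm_integral_le_lintegral_norm _).trans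
          (ENNReal.toReal_mono hMf hle))
      have h5 : (Real.pi * (Real.exp B * ε) ^ 2)⁻¹ * M.toReal ≤ C * η := by
        have := ENNReal.toReal_mono ENNReal.ofReal_ne_top hε'
        rwa [ENNReal.toReal_mul, ENNReal.toReal_ofReal hpos.le,
          ENNReal.toReal_ofReal (by positivity)] at this
      have h6 : (Real.pi * ε ^ 2)⁻¹ = Real.exp B ^ 2 * (Real.pi * (Real.exp B * ε) ^ 2)⁻¹ := by
        have := Real.exp_pos B
        have := Real.pi_pos
        field_simp
      calc XG ρ (Measure.map toS ν) ε (AN2.ff χ η)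
          = (Real.pi * ε ^ 2)⁻¹ * ∫ x in clo ρ ε, AN2.gg χ η x
              ∂((Measure.map toS ν).prod (Measure.map toS ν)) := rfl
        _ ≤ (Real.pi * ε ^ 2)⁻¹ * M.toReal := mul_le_mul_of_nonneg_left hint (by positivity)
        _ = Real.exp B ^ 2 * ((Real.pi * (Real.exp B * ε) ^ 2)⁻¹ * M.toReal) := by
            rw [h6, mul_assoc]
        _ ≤ Real.exp B ^ 2 * (C * η) := mul_le_mul_of_nonneg_left h5 (by positivity)
    exact hlo.trans (le_of_tendsto hlim hup)
  -- the limit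
  have hz : (ϖ S).toReal ≤ 0 := by
    have ht : Tendsto (fun η : ℝ => Real.exp B ^ 2 * (C * η)) (𝓝[>] 0) (𝓝 0) := by
      have : Tendsto (fun η : ℝ => Real.exp B ^ 2 * (C * η)) (𝓝 0)
          (𝓝 (Real.exp B ^ 2 * (C * 0))) :=
        (continuous_const.mul (continuous_const.mul continuous_id)).tendsto 0
      rw [mul_zero, mul_zero] at this
      exact this.mono_left nhdsWithin_le_nhds
    refine ge_of_tendsto ht ?_
    filter_upwards [Ioc_mem_nhdsGT hη₀] with η hη
    exact main η hη.1 hη.2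
  have hz' : (ϖ S).toReal = 0 := le_antisymm hz ENNReal.toReal_nonneg
  rcases (ENNReal.toReal_eq_zero_iff _).mp hz' with h | h
  · exact h
  · exact absurd h hSf.ne

end

end CRM
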