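import Pool.Agent.CRM.StA

/-!
The crossing measure of a semiclassical measure: the contribution of the small angles.
-/

open Complex MeasureTheory Filter Topology Set
open UpperHalfPlane hiding I
open scoped ContDiff MatrixGroups

namespace CRM

open QE QE.NC QJ U3 NFP

noncomputable section

namespace ANG

lemma im_pos' (g : SL(2, ℝ)) : 0 < (pG g).im := (g • UpperHalfPlane.I).im_pos

lemma dist_le' {v w : SL(2, ℝ)} {ε : ℝ} (hε : 0 ≤ ε)
    (h : ‖pG v - pG w‖ ^ 2 ≤ ε ^ 2 * ((pG v).im * (pG w).im)) :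
    dist (v • UpperHalfPlane.I) (w • UpperHalfPlane.I) ≤ ε := by
  rw [UpperHalfPlane.dist_le_iff_le_sinh]
  have h1 : 0 < (v • UpperHalfPlane.I : ℍ).im * (w • UpperHalfPlane.I : ℍ).im :=
    mul_pos (UpperHalfPlane.im_pos _) (UpperHalfPlane.im_pos _)
  have hs : 0 < √((v • UpperHalfPlane.I : ℍ).im * (w • UpperHalfPlane.I : ℍ).im) :=
    Real.sqrt_pos.2 h1
  have h2 : dist ((v • UpperHalfPlane.I : ℍ) : ℂ) ((w • UpperHalfPlane.I : ℍ) : ℂ)
      ≤ ε * √((v • UpperHalfPlane.I : ℍ).im * (w • UpperHalfPlane.I : ℍ).im) := by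
    rw [dist_eq_norm]
    refine (abs_le_of_sq_le_sq' ?_ (by positivity)).2
    rw [mul_pow, Real.sq_sqrt h1.le]
    exact h
  refine le_trans ?_ (Real.self_le_sinh_iff.2 (by positivity : 0 ≤ ε / 2))
  rw [div_le_iff₀ (by positivity)]
  calc _ ≤ _ := h2
    _ = _ := by ring

lemma exists_cpt (hR : U3.StmtRot) {K : Set SL(2, ℝ)} (hK : IsCompact K) :
    ∃ K' : Set SL(2, ℝ), IsCompact K' ∧ ∀ v ∈ K, ∀ (w : SL(2, ℝ)) (ε : ℝ), 0 ≤ ε → ε ≤ 1 →
      ‖pG v - pG w‖ ^ 2 ≤ ε ^ 2 * ((pG v).im * (pG w).im) → w ∈ K' := by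
  have hc : Continuous fun g : SL(2, ℝ) => g • UpperHalfPlane.I :=
    continuous_id.smul continuous_const
  have h1 : IsCompact ((fun g : SL(2, ℝ) => g • UpperHalfPlane.I) '' K) := hK.image hc
  have h2 : IsCompact (Metric.cthickening 1 ((fun g : SL(2, ℝ) => g • UpperHalfPlane.I) '' K)) :=
    h1.cthickening
  have h3 : IsCompact ((fun z : ℍ => (z : ℂ)) ''
      Metric.cthickening 1 ((fun g : SL(2, ℝ) => g • UpperHalfPlane.I) '' K)) :=
    h2.image UpperHalfPlane.continuous_coe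
  refine ⟨pG ⁻¹' _, hR.2.2.2.2.2.2.2 _ h3 ?_, ?_⟩
  · rintro _ ⟨z, -, rfl⟩
    exact z.im_pos
  · intro v hv w ε hε hε1 h
    refine ⟨w • UpperHalfPlane.I, ?_, rfl⟩
    refine Metric.mem_cthickening_of_dist_le _ (v • UpperHalfPlane.I) 1 _ ⟨v, hv, rfl⟩ ?_
    rw [dist_comm]
    exact (dist_le' hε h).trans hε1

/-- the pairs with base points `ε`-close and directions at distance at most `c ε` -/
def EE (K : Set SL(2, ℝ)) (c ε : ℝ) : Set (SL(2, ℝ) × SL(2, ℝ)) :=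
  {x | x.1 ∈ K ∧ ‖pG x.1 - pG x.2‖ ^ 2 ≤ ε ^ 2 * ((pG x.1).im * (pG x.2).im) ∧
    ‖uG x.1 - uG x.2‖ ≤ c * ε}

lemma EE_closed (hR : U3.StmtRot) {K : Set SL(2, ℝ)} (hK : IsCompact K) (c ε : ℝ) :
    IsClosed (EE K c ε) := by
  have hp : Continuous pG := hR.1
  have hu : Continuous uG := hR.2.1
  have h1 : IsClosed {x : SL(2, ℝ) × SL(2, ℝ) | x.1 ∈ K} := hK.isClosed.preimage continuous_fst
  have h2 : IsClosed {x : SL(2, ℝ) × SL(2, ℝ) |
      ‖pG x.1 - pG x.2‖ ^ 2 ≤ ε ^ 2 * ((pG x.1).im * (pG x.2).im)} := by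
    refine isClosed_le ?_ ?_
    · exact ((hp.comp continuous_fst).sub (hp.comp continuous_snd)).norm.pow 2
    · exact continuous_const.mul ((Complex.continuous_im.comp (hp.comp continuous_fst)).mul
        (Complex.continuous_im.comp (hp.comp continuous_snd)))
  have h3 : IsClosed {x : SL(2, ℝ) × SL(2, ℝ) | ‖uG x.1 - uG x.2‖ ≤ c * ε} :=
    isClosed_le ((hu.comp continuous_fst).sub (hu.comp continuous_snd)).norm continuous_const
  exact h1.inter (h2.inter h3)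

lemma EE_mono {K : Set SL(2, ℝ)} {c ε ε' : ℝ} (hc : 0 ≤ c) (h0 : 0 ≤ ε) (h : ε ≤ ε') :
    EE K c ε ⊆ EE K c ε' := by
  rintro x ⟨h1, h2, h3⟩
  refine ⟨h1, h2.trans ?_, h3.trans (mul_le_mul_of_nonneg_left h hc)⟩
  have : 0 < (pG x.1).im * (pG x.2).im := mul_pos (im_pos' _) (im_pos' _)
  gcongr

lemma EE_inter (hR : U3.StmtRot) {K : Set SL(2, ℝ)} {c : ℝ} :
    (⋂ ε > (0 : ℝ), EE K c ε) ⊆ {x | x.2 = x.1 ∨ x.2 = -x.1} := by
  intro x hx
  simp only [gt_iff_lt, mem_iInter] at hx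
  have h1 : ‖pG x.1 - pG x.2‖ ^ 2 ≤ 0 := by
    have ht : Tendsto (fun ε : ℝ => ε ^ 2 * ((pG x.1).im * (pG x.2).im)) (𝓝[>] 0) (𝓝 0) := by
      have : Tendsto (fun ε : ℝ => ε ^ 2 * ((pG x.1).im * (pG x.2).im)) (𝓝 0)
          (𝓝 (0 ^ 2 * ((pG x.1).im * (pG x.2).im))) :=
        ((continuous_id.pow 2).mul continuous_const).tendsto 0
      rw [zero_pow two_ne_zero, zero_mul] at this
      exact this.mono_left nhdsWithin_le_nhds
    refine ge_of_tendsto ht ?_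
    filter_upwards [self_mem_nhdsWithin] with ε hε
    exact (hx ε hε).2.1
  have h2 : ‖uG x.1 - uG x.2‖ ≤ 0 := by
    have ht : Tendsto (fun ε : ℝ => c * ε) (𝓝[>] 0) (𝓝 0) := by
      have : Tendsto (fun ε : ℝ => c * ε) (𝓝 0) (𝓝 (c * 0)) :=
        (continuous_const.mul continuous_id).tendsto 0
      rw [mul_zero] at this
      exact this.mono_left nhdsWithin_le_nhds
    refine ge_of_tendsto ht ?_
    filter_upwards [self_mem_nhdsWithin] with ε hε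
    exact (hx ε hε).2.2
  have h3 : pG x.1 = pG x.2 := by
    have : ‖pG x.1 - pG x.2‖ = 0 := by
      have := norm_nonneg (pG x.1 - pG x.2)
      nlinarith
    exact sub_eq_zero.1 (norm_eq_zero.1 this)
  have h4 : uG x.1 = uG x.2 := sub_eq_zero.1 (norm_le_zero_iff.1 h2)
  exact hR.2.2.2.2.2.2.1 x.1 x.2 h3 h4

lemma cont_neg' : Continuous fun g : SL(2, ℝ) => -g := by
  have h : (fun g : SL(2, ℝ) => -g) = fun g => (-1) * g := by
    funext g
    rw [neg_one_mul]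
  rw [h]
  exact continuous_const.mul continuous_id

lemma null [MeasurableSpace SL(2, ℝ)] [BorelSpace SL(2, ℝ)] (ν : Measure SL(2, ℝ))
    [SigmaFinite ν] (h : ∀ w, ν {w} = 0) :
    (ν.prod ν) {x : SL(2, ℝ) × SL(2, ℝ) | x.2 = x.1 ∨ x.2 = -x.1} = 0 := by
  have := NCR.second
  have hm : MeasurableSet {x : SL(2, ℝ) × SL(2, ℝ) | x.2 = x.1 ∨ x.2 = -x.1} :=
    ((isClosed_eq continuous_snd continuous_fst).union
      (isClosed_eq continuous_snd (cont_neg'.comp continuous_fst))).measurableSet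
  rw [Measure.measure_prod_null hm]
  refine Filter.Eventually.of_forall fun v => ?_
  have h1 : Prod.mk v ⁻¹' {x : SL(2, ℝ) × SL(2, ℝ) | x.2 = x.1 ∨ x.2 = -x.1} = {v} ∪ {-v} := by
    ext w
    simp [or_comm]
  show ν (Prod.mk v ⁻¹' {x : SL(2, ℝ) × SL(2, ℝ) | x.2 = x.1 ∨ x.2 = -x.1}) = 0
  rw [h1]
  exact le_antisymm ((measure_union_le _ _).trans (by rw [h, h, add_zero])) zero_le

lemma EE_tendsto [MeasurableSpace SL(2, ℝ)] [BorelSpace SL(2, ℝ)] (hR : U3.StmtRot)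
    (ν : Measure SL(2, ℝ)) [IsFiniteMeasureOnCompacts ν] [SigmaFinite ν] (h : ∀ w, ν {w} = 0)
    {K : Set SL(2, ℝ)} (hK : IsCompact K) {c : ℝ} (hc : 0 ≤ c) :
    Tendsto (fun ε => (ν.prod ν) (EE K c ε)) (𝓝[>] 0) (𝓝 0) := by
  have := NCR.second
  have h1 := tendsto_measure_biInter_gt (μ := ν.prod ν) (s := fun ε => EE K c ε) (a := (0 : ℝ))
    (fun ε _ => (EE_closed hR hK c ε).measurableSet.nullMeasurableSet)
    (fun i j hi hij => EE_mono hc hi.le hij) ?_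
  · have h2 : (ν.prod ν) (⋂ ε > (0 : ℝ), EE K c ε) = 0 :=
      measure_mono_null (EE_inter hR) (null ν h)
    rw [h2] at h1
    exact h1
  · obtain ⟨K', hK', hK2⟩ := exists_cpt hR hK
    refine ⟨1, one_pos, ?_⟩
    have hs : EE K c 1 ⊆ K ×ˢ K' := fun x hx => ⟨hx.1, hK2 x.1 hx.1 x.2 1 zero_le_one le_rfl hx.2.1⟩
    refine ((measure_mono hs).trans_lt ?_).ne
    rw [Measure.prod_prod]
    exact ENNReal.mul_lt_top hK.measure_lt_top hK'.measure_lt_top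

/-- the pairs at an angle of order `Z` -/
def TT (ρ : ℍ → ℝ) (K : Set SL(2, ℝ)) (r C c ε Z : ℝ) : Set (SL(2, ℝ) × SL(2, ℝ)) :=
  {x | ‖uG x.1 - uG x.2‖ ≤ 3 * C * Z ∧ C * ε ≤ c * Z ∧
    (x.1 ∈ K ∧ (SmG ρ r (C * ε) Z x.1 x.2 ∨ SmG ρ r (C * ε) Z x.1 (-x.2)))}

/-- the dyadic decomposition -/
lemma cover {ρ : ℍ → ℝ} {K : Set SL(2, ℝ)} {r C c ε η a : ℝ} (hC : 1 ≤ C) (hc : 0 < c)
    (hc1 : c ≤ 1) (hε : 0 < ε) (hεη : ε ≤ η) (hηa : η ≤ a)
    (hcnv : ∀ (v w : SL(2, ℝ)),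
      ‖pG v - pG w‖ ^ 2 ≤ ε ^ 2 * ((pG v).im * (pG w).im) → ‖uG v - uG w‖ ≤ a →
      ∃ w' : SL(2, ℝ), (w' = w ∨ w' = -w) ∧ dd v w' ≤ r ∧ |xx ρ v w'| ≤ C * ε ∧
        |tt ρ v w'| ≤ C * ε ∧ |yy ρ v w'| ≤ C * (‖uG v - uG w‖ + ε) ∧
        ‖uG v - uG w‖ ≤ C * (|yy ρ v w'| + ε)) :
    {x : SL(2, ℝ) × SL(2, ℝ) | x.1 ∈ K ∧
      ‖pG x.1 - pG x.2‖ ^ 2 ≤ ε ^ 2 * ((pG x.1).im * (pG x.2).im) ∧ ‖uG x.1 - uG x.2‖ ≤ η}
      ⊆ EE K (C * (2 * C / c + 1)) ε ∪ ⋃ k : ℕ, TT ρ K r C c ε (C * η / 2 ^ k) := by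
  rintro x ⟨hxK, hxp, hxu⟩
  obtain ⟨w', hw', hd, hx, ht, hy, hθ⟩ := hcnv x.1 x.2 hxp (hxu.trans hηa)
  have hC0 : 0 < C := by linarith
  have hη : 0 < η := by linarith
  by_cases h : |yy ρ x.1 w'| ≤ 2 * (C * ε) / c
  · left
    refine ⟨hxK, hxp, hθ.trans ?_⟩
    calc C * (|yy ρ x.1 w'| + ε) ≤ C * (2 * (C * ε) / c + ε) := by gcongr
      _ = C * (2 * C / c + 1) * ε := by ring
  · right
    push Not at h
    have hy0 : 0 < |yy ρ x.1 w'| := lt_of_le_of_lt (by positivity) h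
    have hy2 : |yy ρ x.1 w'| ≤ 2 * (C * η) := by
      calc _ ≤ C * (‖uG x.1 - uG x.2‖ + ε) := hy
        _ ≤ C * (η + η) := by gcongr
        _ = _ := by ring
    obtain ⟨k, hk1, hk2⟩ := exists_nat_pow_near (x := 2 * (C * η) / |yy ρ x.1 w'|) (y := (2 : ℝ))
      ((one_le_div hy0).2 hy2) one_lt_two
    rw [le_div_iff₀ hy0] at hk1
    rw [div_lt_iff₀ hy0, pow_succ] at hk2
    have hp : (0 : ℝ) < 2 ^ k := by positivity
    have hlo : C * η / 2 ^ k ≤ |yy ρ x.1 w'| := by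
      rw [div_le_iff₀ hp]
      nlinarith
    have hhi : |yy ρ x.1 w'| ≤ 2 * (C * η / 2 ^ k) := by
      rw [← mul_div_assoc, le_div_iff₀ hp]
      linarith
    have hcond : C * ε ≤ c * (C * η / 2 ^ k) := by
      have h1 : 2 * (C * ε) / c < 2 * (C * η / 2 ^ k) := lt_of_lt_of_le h hhi
      rw [div_lt_iff₀ hc] at h1
      nlinarith
    have hZ : 0 < C * η / 2 ^ k := by positivity
    have hεZ : ε ≤ C * η / 2 ^ k := by
      calc ε = 1 * ε := (one_mul _).symm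
        _ ≤ C * ε := by gcongr
        _ ≤ c * (C * η / 2 ^ k) := hcond
        _ ≤ 1 * (C * η / 2 ^ k) := by gcongr
        _ = _ := one_mul _
    refine mem_iUnion.2 ⟨k, ?_, hcond, hxK, ?_⟩
    · calc _ ≤ C * (|yy ρ x.1 w'| + ε) := hθ
        _ ≤ C * (2 * (C * η / 2 ^ k) + C * η / 2 ^ k) := by gcongr
        _ = _ := by ring
    · rcases hw' with rfl | rfl
      · exact Or.inl ⟨hd, hx, ht, hlo, hhi⟩
      · exact Or.inr ⟨hd, hx, ht, hlo, hhi⟩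

/-- the contribution of the pairs at an angle of order `Z` -/
lemma term [MeasurableSpace SL(2, ℝ)] [BorelSpace SL(2, ℝ)] (ν : Measure SL(2, ℝ))
    {ρ : ℍ → ℝ} {K : Set SL(2, ℝ)} {r C C₁ c ε Z : ℝ} (hC : 0 < C) (hC₁ : 0 < C₁) (hε : 0 < ε)
    (hZ : 0 < Z)
    (hS : C * ε ≤ c * Z →
      (ν.prod ν) {x | x.1 ∈ K ∧ (SmG ρ r (C * ε) Z x.1 x.2 ∨ SmG ρ r (C * ε) Z x.1 (-x.2))}
        ≤ ENNReal.ofReal (C₁ * (C * ε) ^ 2 / Z)) :
    ∫⁻ x in TT ρ K r C c ε Z, ENNReal.ofReal (‖uG x.1 - uG x.2‖ ^ 2) ∂(ν.prod ν)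
      ≤ ENNReal.ofReal (9 * C₁ * C ^ 4 * ε ^ 2 * Z) := by
  by_cases h : C * ε ≤ c * Z
  · calc ∫⁻ x in TT ρ K r C c ε Z, ENNReal.ofReal (‖uG x.1 - uG x.2‖ ^ 2) ∂(ν.prod ν)
        ≤ ∫⁻ x in TT ρ K r C c ε Z, ENNReal.ofReal ((3 * C * Z) ^ 2) ∂(ν.prod ν) := by
          refine setLIntegral_mono measurable_const fun x hx => ?_
          refine ENNReal.ofReal_le_ofReal ?_
          exact pow_le_pow_left₀ (norm_nonneg _) hx.1 2
      _ = ENNReal.ofReal ((3 * C * Z) ^ 2) * (ν.prod ν) (TT ρ K r C c ε Z) := by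
          rw [setLIntegral_const]
      _ ≤ ENNReal.ofReal ((3 * C * Z) ^ 2) * ENNReal.ofReal (C₁ * (C * ε) ^ 2 / Z) := by
          gcongr
          exact (measure_mono fun x hx => hx.2.2).trans (hS h)
      _ = ENNReal.ofReal (9 * C₁ * C ^ 4 * ε ^ 2 * Z) := by
          rw [← ENNReal.ofReal_mul (by positivity)]
          congr 1
          field_simp
          ring
  · have : TT ρ K r C c ε Z = ∅ := by
      ext x
      simp only [mem_empty_iff_false, iff_false]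
      intro hx
      exact h hx.2.1
    rw [this, Measure.restrict_empty, lintegral_zero_measure]
    exact zero_le

/-- the contribution of the pairs at an angle of order `ε` -/
lemma last [MeasurableSpace SL(2, ℝ)] [BorelSpace SL(2, ℝ)] (ν : Measure SL(2, ℝ))
    {K : Set SL(2, ℝ)} {c ε : ℝ} :
    ∫⁻ x in EE K c ε, ENNReal.ofReal (‖uG x.1 - uG x.2‖ ^ 2) ∂(ν.prod ν)
      ≤ ENNReal.ofReal ((c * ε) ^ 2) * (ν.prod ν) (EE K c ε) := by
  calc ∫⁻ x in EE K c ε, ENNReal.ofReal (‖uG x.1 - uG x.2‖ ^ 2) ∂(ν.prod ν)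
      ≤ ∫⁻ x in EE K c ε, ENNReal.ofReal ((c * ε) ^ 2) ∂(ν.prod ν) := by
        refine setLIntegral_mono measurable_const fun x hx => ?_
        refine ENNReal.ofReal_le_ofReal ?_
        exact pow_le_pow_left₀ (norm_nonneg _) hx.2.2 2
    _ = _ := by rw [setLIntegral_const]

/-- the sum over the dyadic angles -/
lemma sum_le {A Z : ℝ} (hA : 0 ≤ A) (hZ : 0 ≤ Z) :
    ∑' k : ℕ, ENNReal.ofReal (A * (Z / 2 ^ k)) = ENNReal.ofReal (A * (2 * Z)) := by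
  have hs : Summable fun k : ℕ => (1 / 2 : ℝ) ^ k := summable_geometric_two
  have e : (fun k : ℕ => A * (Z / 2 ^ k)) = fun k : ℕ => A * Z * (1 / 2 : ℝ) ^ k := by
    funext k
    rw [one_div, inv_pow]
    ring
  rw [← ENNReal.ofReal_tsum_of_nonneg (fun k => by positivity) (by rw [e]; exact hs.mul_left _), e,
    tsum_mul_left, tsum_geometric_two]
  congr 1
  ring

end ANG

theorem t_ANG (hS : StmtSma) (hC : StmtCnv) (hT : U3.StmtCon) (hR : U3.StmtRot) : StmtAng := by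
  intro _ _ Γ ρ Φ ν _ _ hF hΦ hν K hK
  have hat := (hT Γ ρ Φ ν hF hΦ hν).2
  obtain ⟨r, Y₀, c₀, hr, hY₀, hc₀, hS⟩ := hS Γ ρ Φ ν hF hΦ hν
  obtain ⟨C₁, hC₁, hS⟩ := hS K hK
  obtain ⟨C₀, a, hC₀, ha, hC⟩ := hC Γ ρ hF r hr
  obtain ⟨c, hc⟩ : ∃ c, c = min c₀ 1 := ⟨_, rfl⟩
  obtain ⟨C, hCe⟩ : ∃ C, C = max C₀ 1 := ⟨_, rfl⟩
  have hc0 : 0 < c := by rw [hc]; exact lt_min hc₀ one_pos
  have hc1 : c ≤ 1 := by rw [hc]; exact min_le_right _ _
  have hcc : c ≤ c₀ := by rw [hc]; exact min_le_left _ _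
  have hC1 : 1 ≤ C := by rw [hCe]; exact le_max_right _ _
  have hCC : C₀ ≤ C := by rw [hCe]; exact le_max_left _ _
  have hCp : 0 < C := by linarith
  obtain ⟨b, hb⟩ : ∃ b, b = C * (2 * C / c + 1) := ⟨_, rfl⟩
  have hbp : 0 < b := by rw [hb]; positivity
  refine ⟨18 * C₁ * C ^ 5 + 1, min a (Y₀ / C), by positivity, lt_min ha (by positivity), ?_⟩
  intro η hη hη'
  have hηa : η ≤ a := hη'.trans (min_le_left _ _)
  have hηY : C * η ≤ Y₀ := by
    have h := hη'.trans (min_le_right _ _)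
    rw [le_div_iff₀ hCp] at h
    linarith
  have hev : ∀ᶠ ε in 𝓝[>] (0 : ℝ), (ν.prod ν) (ANG.EE K b ε) <
      ENNReal.ofReal (Real.pi * η / b ^ 2) :=
    (ANG.EE_tendsto hR ν hat hK hbp.le).eventually_lt_const
      (ENNReal.ofReal_pos.2 (by have := Real.pi_pos; positivity))
  filter_upwards [hev, Ioc_mem_nhdsGT hη] with ε hε hε1
  have hε0 : 0 < ε := hε1.1
  have hπ := Real.pi_pos
  -- the cover
  have hcov := ANG.cover (ρ := ρ) (K := K) (r := r) (C := C) (c := c) (ε := ε) (η := η) (a := a)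
    hC1 hc0 hc1 hε0 hε1.2 hηa (by
      intro v w h1 h2
      obtain ⟨w', e1, e2, e3, e4, e5, e6⟩ := hC ε v w hε0 (hε1.2.trans hηa) h1 h2
      exact ⟨w', e1, e2, e3.trans (by gcongr), e4.trans (by gcongr), e5.trans (by gcongr),
        e6.trans (by gcongr)⟩)
  rw [← hb] at hcov
  have hint := (lintegral_mono_set (μ := ν.prod ν)
    (f := fun x : SL(2, ℝ) × SL(2, ℝ) => ENNReal.ofReal (‖uG x.1 - uG x.2‖ ^ 2)) hcov).trans
    ((lintegral_union_le _ _ _).trans (add_le_add (ANG.last ν) (lintegral_iUnion_le _ _)))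
  have hterm : ∀ k : ℕ, ∫⁻ x in ANG.TT ρ K r C c ε (C * η / 2 ^ k),
      ENNReal.ofReal (‖uG x.1 - uG x.2‖ ^ 2) ∂(ν.prod ν)
      ≤ ENNReal.ofReal (9 * C₁ * C ^ 4 * ε ^ 2 * (C * η / 2 ^ k)) := by
    intro k
    refine ANG.term ν hCp hC₁ hε0 (by positivity) fun h => ?_
    refine hS _ _ (by positivity) ?_ (by positivity) (h.trans (by gcongr))
    refine (div_le_self (by positivity) ?_).trans hηY
    exact one_le_pow₀ one_le_two
  have hsum := ENNReal.tsum_le_tsum hterm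
  rw [ANG.sum_le (by positivity) (by positivity)] at hsum
  have htot := hint.trans (add_le_add (mul_le_mul_right hε.le _) hsum)
  calc ENNReal.ofReal (Real.pi * ε ^ 2)⁻¹ * _
      ≤ ENNReal.ofReal (Real.pi * ε ^ 2)⁻¹ *
        (ENNReal.ofReal ((b * ε) ^ 2) * ENNReal.ofReal (Real.pi * η / b ^ 2) +
          ENNReal.ofReal (9 * C₁ * C ^ 4 * ε ^ 2 * (2 * (C * η)))) := by gcongr
    _ = ENNReal.ofReal (η + 18 * C₁ * C ^ 5 * η / Real.pi) := by
        rw [← ENNReal.ofReal_mul (by positivity), ← ENNReal.ofReal_add (by positivity)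
          (by positivity), ← ENNReal.ofReal_mul (by positivity)]
        congr 1
        field_simp
        ring
    _ ≤ ENNReal.ofReal ((18 * C₁ * C ^ 5 + 1) * η) := by
        refine ENNReal.ofReal_le_ofReal ?_
        have h1 : 18 * C₁ * C ^ 5 * η / Real.pi ≤ 18 * C₁ * C ^ 5 * η := by
          refine div_le_self (by positivity) ?_
          linarith [Real.pi_gt_three]
        linarith

end

end CRM
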