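import Pool.Agent.CRM.StA
import Pool.Agent.CRM.EXF

/-!
ANZ: the crossing measure gives no mass to the angles `0` and `π`.
-/

open Complex MeasureTheory Filter Topology Set
open UpperHalfPlane hiding I
open scoped ContDiff MatrixGroups

namespace CRM

open QE QE.NC QJ U3 NFP

namespace ANZ

lemma finCpt {μ : Measure (ℍ × S1)} (hμ : FinK μ) : IsFiniteMeasureOnCompacts μ := by
  refine ⟨fun K hK => ?_⟩
  have h1 : K ⊆ (Prod.fst '' K) ×ˢ univ := fun p hp => ⟨⟨p, hp, rfl⟩, mem_univ _⟩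
  exact (measure_mono h1).trans_lt (hμ _ (hK.image continuous_fst))

lemma norm_S1 (t : S1) : ‖(t : ℂ)‖ = 1 := by
  have := t.2
  rwa [mem_sphere_zero_iff_norm] at this

lemma conj_eq (t : S1) : (starRingEnd ℂ) (t : ℂ) = (t : ℂ)⁻¹ := by
  rw [Complex.inv_def, Complex.normSq_eq_norm_sq, norm_S1]
  simp

lemma pre_cpt {K : Set ℂ} (hK : IsCompact K) (hKU : K ⊆ UH) :
    IsCompact ((fun z : ℍ => (z : ℂ)) ⁻¹' K) := by
  refine (UpperHalfPlane.isOpenEmbedding_coe.isInducing.isCompact_preimage_iff ?_).2 hK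
  intro z hz
  exact ⟨⟨z, hKU hz⟩, rfl⟩

lemma mom_cont {ζ : ℂ → ℂ} (hζ : Test UH ζ) (k : ℤ) :
    Continuous fun p : ℍ × S1 => ζ p.1 * (p.2 : ℂ) ^ k := by
  have h1 : Continuous fun p : ℍ × S1 => ζ p.1 :=
    hζ.smooth.continuous.comp (UpperHalfPlane.continuous_coe.comp continuous_fst)
  have h2 : Continuous fun p : ℍ × S1 => (p.2 : ℂ) := continuous_subtype_val.comp continuous_snd
  refine h1.mul (h2.zpow₀ k fun p => Or.inl ?_)
  rw [← norm_ne_zero_iff, norm_S1]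
  exact one_ne_zero

lemma mom_supp {ζ : ℂ → ℂ} (hζ : Test UH ζ) (k : ℤ) :
    HasCompactSupport fun p : ℍ × S1 => ζ p.1 * (p.2 : ℂ) ^ k := by
  have h1 := (pre_cpt hζ.supp.isCompact hζ.sub).prod (isCompact_univ (X := S1))
  refine HasCompactSupport.of_support_subset_isCompact h1 fun p hp => ?_
  refine ⟨?_, mem_univ _⟩
  by_contra h
  apply hp
  have h2 : ζ p.1 = 0 := image_eq_zero_of_notMem_tsupport h
  simp only [h2, zero_mul]

lemma mom_int {μ : Measure (ℍ × S1)} (hμ : FinK μ) {ζ : ℂ → ℂ} (hζ : Test UH ζ) (k : ℤ) :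
    Integrable (fun p : ℍ × S1 => ζ p.1 * (p.2 : ℂ) ^ k) μ := by
  haveI := finCpt hμ
  exact (mom_cont hζ k).integrable_of_hasCompactSupport (mom_supp hζ k)

/-- comparison of the integral of a function with that of an approximation -/
lemma approx {μ : Measure (ℍ × S1)} (hμ : FinK μ) {f : ℍ × S1 → ℝ} {P : ℍ × S1 → ℂ}
    {K : Set ℍ} (hK : IsCompact K) (hP : Integrable P μ) (hf : Integrable f μ) {δ : ℝ}
    (h1 : ∀ p, ‖((f p : ℝ) : ℂ) - P p‖ ≤ δ) (h2 : ∀ p : ℍ × S1, p.1 ∉ K → f p = 0 ∧ P p = 0) :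
    ‖((∫ p, f p ∂μ : ℝ) : ℂ) - ∫ p, P p ∂μ‖ ≤ δ * (μ (K ×ˢ univ)).toReal := by
  have hm : MeasurableSet (K ×ˢ (univ : Set S1)) := hK.measurableSet.prod MeasurableSet.univ
  have hf' : Integrable (fun p => ((f p : ℝ) : ℂ)) μ := hf.ofReal
  rw [← integral_complex_ofReal, ← integral_sub hf' hP]
  have h3 : ∫ p, (((f p : ℝ) : ℂ) - P p) ∂μ = ∫ p in K ×ˢ univ, (((f p : ℝ) : ℂ) - P p) ∂μ := by
    rw [setIntegral_eq_integral_of_forall_compl_eq_zero]
    intro p hp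
    have hp' : p.1 ∉ K := fun h => hp ⟨h, mem_univ _⟩
    rw [(h2 p hp').1, (h2 p hp').2]
    simp
  rw [h3]
  exact norm_setIntegral_le_of_norm_le_const (hμ K hK) fun p _ => h1 p

/-- the moments determine the measure -/
theorem ext_moments (hD : StmtDns) {μ ν : Measure (ℍ × S1)} (hμ : FinK μ) (hν : FinK ν)
    (h : ∀ ζ : ℂ → ℂ, Test UH ζ → ∀ k : ℤ,
      ∫ p : ℍ × S1, ζ p.1 * (p.2 : ℂ) ^ k ∂μ = ∫ p : ℍ × S1, ζ p.1 * (p.2 : ℂ) ^ k ∂ν) :
    μ = ν := by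
  haveI := finCpt hμ
  haveI := finCpt hν
  refine Measure.ext_of_integral_eq_on_compactlySupported fun f => ?_
  have hf : Continuous fun p : ℍ × S1 => f p := f.continuous
  have hfs : HasCompactSupport fun p : ℍ × S1 => f p := f.hasCompactSupport
  have hK0c : IsCompact ((fun o : ℍ × S1 => (o.1 : ℂ)) '' tsupport fun p : ℍ × S1 => f p) :=
    hfs.image (UpperHalfPlane.continuous_coe.comp continuous_fst)
  have hK0U : (fun o : ℍ × S1 => (o.1 : ℂ)) '' (tsupport fun p : ℍ × S1 => f p) ⊆ UH := by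
    rintro _ ⟨o, -, rfl⟩
    exact o.1.im_pos
  have hf0 : ∀ (z : ℍ) (t : S1),
      (z : ℂ) ∉ (fun o : ℍ × S1 => (o.1 : ℂ)) '' (tsupport fun p : ℍ × S1 => f p) →
        f (z, t) = 0 := by
    intro z t hz
    exact image_eq_zero_of_notMem_tsupport (f := fun p : ℍ × S1 => f p)
      fun h' => hz ⟨(z, t), h', rfl⟩
  have hTF : TF UH (EXF.gx (fun _ => 1) fun p => f p) :=
    EXF.tf_gx continuous_const hf hK0c hK0U hK0U hf0
  obtain ⟨K, hK, hKU, hap⟩ := hD UH _ EXF.isOpen_UH' hTF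
  have hKH := pre_cpt hK hKU
  have key : ∀ δ : ℝ, 0 < δ → ‖((∫ p, f p ∂μ : ℝ) : ℂ) - ((∫ p, f p ∂ν : ℝ) : ℂ)‖ ≤
      δ * ((μ (((fun z : ℍ => (z : ℂ)) ⁻¹' K) ×ˢ univ)).toReal +
        (ν (((fun z : ℍ => (z : ℂ)) ⁻¹' K) ×ˢ univ)).toReal) := by
    intro δ hδ
    obtain ⟨N, ζ, hζ, hζK, hgK, hap⟩ := hap δ hδ
    set P : ℍ × S1 → ℂ := fun p => ∑ k ∈ Finset.Icc (-(N : ℤ)) N, ζ k p.1 * (p.2 : ℂ) ^ (-k)
      with hP
    have hPi : ∀ {m : Measure (ℍ × S1)}, FinK m → Integrable P m := by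
      intro m hm
      exact integrable_finset_sum _ fun k _ => mom_int hm (hζ k) (-k)
    have hPe : ∫ p, P p ∂μ = ∫ p, P p ∂ν := by
      rw [hP, integral_finset_sum _ fun k _ => mom_int hμ (hζ k) (-k),
        integral_finset_sum _ fun k _ => mom_int hν (hζ k) (-k)]
      exact Finset.sum_congr rfl fun k _ => h (ζ k) (hζ k) (-k)
    have h1 : ∀ p : ℍ × S1, ‖((f p : ℝ) : ℂ) - P p‖ ≤ δ := by
      rintro ⟨z, t⟩
      have e1 := hap (z : ℂ) ((starRingEnd ℂ) (t : ℂ)) (EXF.norm_conj_S1 t)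
      rw [EXF.gx_conj, one_mul] at e1
      have e2 : P (z, t) =
          ∑ k ∈ Finset.Icc (-(N : ℤ)) N, ζ k z * (starRingEnd ℂ) (t : ℂ) ^ k := by
        rw [hP]
        refine Finset.sum_congr rfl fun k _ => ?_
        rw [conj_eq, inv_zpow']
      rw [e2]
      exact e1
    have h2 : ∀ p : ℍ × S1, p.1 ∉ ((fun z : ℍ => (z : ℂ)) ⁻¹' K) → f p = 0 ∧ P p = 0 := by
      rintro ⟨z, t⟩ hz
      constructor
      · have e1 := hgK (z : ℂ) hz ((starRingEnd ℂ) (t : ℂ))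
        rw [EXF.gx_conj, one_mul] at e1
        exact_mod_cast e1
      · rw [hP]
        refine Finset.sum_eq_zero fun k _ => ?_
        have e1 : ζ k z = 0 := image_eq_zero_of_notMem_tsupport fun h' => hz (hζK k h')
        rw [e1, zero_mul]
    have a1 := approx hμ hKH (hPi hμ) (hf.integrable_of_hasCompactSupport hfs) h1 h2
    have a2 := approx hν hKH (hPi hν) (hf.integrable_of_hasCompactSupport hfs) h1 h2
    rw [hPe] at a1
    calc _ ≤ ‖((∫ p, f p ∂μ : ℝ) : ℂ) - ∫ p, P p ∂ν‖ +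
          ‖(∫ p, P p ∂ν) - ((∫ p, f p ∂ν : ℝ) : ℂ)‖ := norm_sub_le_norm_sub_add_norm_sub _ _ _
      _ ≤ _ := by
          rw [norm_sub_rev (∫ p, P p ∂ν)]
          linarith
  have hz : ‖((∫ p, f p ∂μ : ℝ) : ℂ) - ((∫ p, f p ∂ν : ℝ) : ℂ)‖ ≤ 0 := by
    have ht : Tendsto (fun δ : ℝ => δ * ((μ (((fun z : ℍ => (z : ℂ)) ⁻¹' K) ×ˢ univ)).toReal +
        (ν (((fun z : ℍ => (z : ℂ)) ⁻¹' K) ×ˢ univ)).toReal)) (𝓝[>] 0) (𝓝 0) := by
      have h1 : Continuous fun δ : ℝ => δ *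
          ((μ (((fun z : ℍ => (z : ℂ)) ⁻¹' K) ×ˢ univ)).toReal +
          (ν (((fun z : ℍ => (z : ℂ)) ⁻¹' K) ×ˢ univ)).toReal) := by fun_prop
      have h2 := h1.tendsto 0
      rw [zero_mul] at h2
      exact h2.mono_left nhdsWithin_le_nhds
    refine ge_of_tendsto ht ?_
    filter_upwards [self_mem_nhdsWithin] with δ hδ using key δ hδ
  have h3 := norm_le_zero_iff.1 hz
  rw [sub_eq_zero] at h3
  exact_mod_cast h3

/-- the reflection of the direction -/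
noncomputable def ng (p : ℍ × S1) : ℍ × S1 := (p.1, -p.2)

lemma ng_cont : Continuous ng := continuous_fst.prodMk continuous_snd.neg

end ANZ

open ANZ in
theorem t_ANZ (hN : StmtNui) (hA : StmtAn2) (hS : StmtSym) (hD : StmtDns) (hF : NC.StmtFlow) :
    StmtAnz := by
  intro Γ ρ hFac h φ μ ϖ hL hμ hJ hϖ
  letI : MeasurableSpace SL(2, ℝ) := borel _
  haveI : BorelSpace SL(2, ℝ) := ⟨rfl⟩
  obtain ⟨Φ, hΦ⟩ := hF Γ ρ hFac
  obtain ⟨ν, hν1, hν2, hν3, hν4⟩ := hN Γ ρ Φ hFac hΦ h φ μ hL hμ hJ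
  have hK : ∀ K : Set ℍ, IsCompact K → ϖ {p | p.1 ∈ K ∧ (p.2 : ℂ) = 1} = 0 :=
    hA Γ ρ Φ ν hFac hΦ hν3 ϖ (by rw [hν4]; exact hϖ)
  have h1 : ϖ {p : ℍ × S1 | (p.2 : ℂ) = 1} = 0 := by
    have e : {p : ℍ × S1 | (p.2 : ℂ) = 1} =
        ⋃ n, {p : ℍ × S1 | p.1 ∈ compactCovering ℍ n ∧ (p.2 : ℂ) = 1} := by
      ext p
      simp only [mem_setOf_eq, mem_iUnion]
      constructor
      · intro hp
        have := iUnion_compactCovering ℍ
        have h2 : p.1 ∈ ⋃ n, compactCovering ℍ n := by rw [this]; exact mem_univ _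
        obtain ⟨n, hn⟩ := mem_iUnion.1 h2
        exact ⟨n, hn, hp⟩
      · rintro ⟨n, -, hp⟩
        exact hp
    rw [e]
    exact measure_iUnion_null fun n => hK _ (isCompact_compactCovering ℍ n)
  have hϖF : FinK ϖ := hϖ.fin
  have hmn : Measurable ng := ng_cont.measurable
  have hϖF' : FinK (Measure.map ng ϖ) := by
    intro K hK
    rw [Measure.map_apply hmn (hK.measurableSet.prod MeasurableSet.univ)]
    have e : ng ⁻¹' (K ×ˢ univ) = K ×ˢ univ := by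
      ext p
      simp [ng]
    rw [e]
    exact hϖF K hK
  have hodd : ∀ ζ : ℂ → ℂ, Test UH ζ → ∀ k : ℤ, Odd k →
      ∫ p : ℍ × S1, ζ p.1 * (p.2 : ℂ) ^ k ∂ϖ = 0 := by
    intro ζ hζ k hk
    obtain ⟨n, rfl | rfl⟩ := Int.eq_nat_or_neg k
    · have hn : Odd n := by exact_mod_cast hk
      simpa using (hS Γ ρ hFac h φ μ ϖ hL hμ hJ hϖ ζ hζ n).1 hn
    · have hn : Odd n := by
        have := hk.neg
        rw [neg_neg] at this
        exact_mod_cast this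
      have e1 := hS Γ ρ hFac h φ μ ϖ hL hμ hJ hϖ ζ hζ n
      have e2 : ∀ p : ℍ × S1, (p.2 : ℂ) ^ (-(n : ℤ)) = (starRingEnd ℂ) (p.2 : ℂ) ^ n := by
        intro p
        rw [conj_eq, zpow_neg, zpow_natCast, inv_pow]
      simp only [e2]
      rw [← e1.2]
      exact e1.1 hn
  have heq : Measure.map ng ϖ = ϖ := by
    refine ext_moments hD hϖF' hϖF fun ζ hζ k => ?_
    rw [integral_map hmn.aemeasurable (mom_cont hζ k).aestronglyMeasurable]
    have e1 : ∀ p : ℍ × S1, (((ng p).2 : S1) : ℂ) = -(p.2 : ℂ) := fun p => rfl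
    rcases Int.even_or_odd k with hk | hk
    · congr 1
      funext p
      rw [e1, hk.neg_zpow]
      rfl
    · rw [hodd ζ hζ k hk]
      have e2 : (fun p : ℍ × S1 => ζ (ng p).1 * (((ng p).2 : S1) : ℂ) ^ k) =
          fun p => -(ζ p.1 * (p.2 : ℂ) ^ k) := by
        funext p
        rw [e1, hk.neg_zpow, mul_neg]
        rfl
      rw [e2, integral_neg, hodd ζ hζ k hk, neg_zero]
  have h2 : ϖ {p : ℍ × S1 | (p.2 : ℂ) = -1} = 0 := by
    rw [← heq, Measure.map_apply hmn]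
    · have e : ng ⁻¹' {p : ℍ × S1 | (p.2 : ℂ) = -1} = {p : ℍ × S1 | (p.2 : ℂ) = 1} := by
        ext p
        simp only [mem_preimage, mem_setOf_eq]
        have e1 : (((ng p).2 : S1) : ℂ) = -(p.2 : ℂ) := rfl
        rw [e1, neg_inj]
      rw [e]
      exact h1
    · have hc : Continuous fun p : ℍ × S1 => (p.2 : ℂ) :=
        continuous_subtype_val.comp continuous_snd
      exact (isClosed_eq hc continuous_const).measurableSet
  have h3 : {p : ℍ × S1 | (p.2 : ℂ) ^ 2 = 1} ⊆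
      {p : ℍ × S1 | (p.2 : ℂ) = 1} ∪ {p : ℍ × S1 | (p.2 : ℂ) = -1} := by
    intro p hp
    have hp' : (p.2 : ℂ) ^ 2 = 1 := hp
    have h4 : ((p.2 : ℂ) - 1) * ((p.2 : ℂ) + 1) = 0 := by linear_combination hp'
    rcases mul_eq_zero.1 h4 with h5 | h5
    · exact Or.inl (sub_eq_zero.1 h5)
    · exact Or.inr (eq_neg_of_add_eq_zero_left h5)
  exact measure_mono_null h3 (measure_union_null h1 h2)

end CRM
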