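import Pool.Agent.CRM.StA

/-!
The area of a set of points which are close to each other and to a diagonal.
-/

set_option autoImplicit false

open MeasureTheory Set

namespace CRM

open QE QE.NC QJ U3 NFP

theorem t_ARS : StmtArs := by
  intro S a b ha hb h
  rcases S.eq_empty_or_nonempty with he | ⟨x, hx⟩
  · rw [he, measure_empty]
    exact zero_le
  · have hmp : MeasurePreserving (fun z : ℝ × ℝ => (z.1, -z.1 + z.2))
        ((volume : Measure ℝ).prod (volume : Measure ℝ))
        ((volume : Measure ℝ).prod (volume : Measure ℝ)) :=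
      measurePreserving_prod_neg_add volume volume
    let B : Set (ℝ × ℝ) := Icc (x.1 - a) (x.1 + a) ×ˢ Icc (x.2 - x.1 - b) (x.2 - x.1 + b)
    have hB : MeasurableSet B := measurableSet_Icc.prod measurableSet_Icc
    have hsub : S ⊆ (fun z : ℝ × ℝ => (z.1, -z.1 + z.2)) ⁻¹' B := by
      intro y hy
      obtain ⟨h1, h2⟩ := h x hx y hy
      rw [abs_le] at h1 h2
      refine ⟨⟨?_, ?_⟩, ?_, ?_⟩
      · show x.1 - a ≤ y.1
        linarith [h1.1]
      · show y.1 ≤ x.1 + a
        linarith [h1.2]
      · show x.2 - x.1 - b ≤ -y.1 + y.2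
        linarith [h2.1]
      · show -y.1 + y.2 ≤ x.2 - x.1 + b
        linarith [h2.2]
    rw [Measure.volume_eq_prod]
    refine (measure_mono hsub).trans ?_
    rw [hmp.measure_preimage hB.nullMeasurableSet]
    show (volume : Measure ℝ).prod (volume : Measure ℝ) (Icc (x.1 - a) (x.1 + a) ×ˢ
      Icc (x.2 - x.1 - b) (x.2 - x.1 + b)) ≤ _
    rw [Measure.prod_prod, Real.volume_Icc, Real.volume_Icc,
      ← ENNReal.ofReal_mul (by linarith)]
    refine ENNReal.ofReal_le_ofReal (le_of_eq ?_)
    ring

end CRM
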