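import Pool.Agent.CRM.StQ
import Pool.Agent.CRM.CLB

/-!
Averages of locally square integrable functions over small discs.
-/

open Complex MeasureTheory Filter Topology Set
open UpperHalfPlane hiding I
open scoped ContDiff MatrixGroups ENNReal NNReal

namespace CRM

open QE QE.NC QJ U3 NFP

namespace AVG

noncomputable section

/-- the weight `y e^{-ρ}` -/
def av (ρ : ℍ → ℝ) (z : ℍ) : ℝ := z.im * Real.exp (-ρ z)

/-- the points close to `z` -/
def sl (ρ : ℍ → ℝ) (ε : ℝ) (z : ℍ) : Set ℍ :=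
  {w | Real.exp (ρ z + ρ w) * ‖(z : ℂ) - (w : ℂ)‖ ^ 2 < ε ^ 2 * (z.im * w.im)}

/-- the close pairs -/
def SS (ρ : ℍ → ℝ) (ε : ℝ) : Set (ℍ × ℍ) :=
  {x | Real.exp (ρ x.1 + ρ x.2) * ‖(x.1 : ℂ) - (x.2 : ℂ)‖ ^ 2 < ε ^ 2 * (x.1.im * x.2.im)}

variable {ρ : ℍ → ℝ} {ε : ℝ}

lemma av_pos (z : ℍ) : 0 < av ρ z := mul_pos z.im_pos (Real.exp_pos _)

lemma mem_sl {z w : ℍ} : w ∈ sl ρ ε z ↔ ‖(w : ℂ) - z‖ ^ 2 < ε ^ 2 * (av ρ z * av ρ w) := by
  unfold sl av
  rw [mem_ofPred_eq, norm_sub_rev]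
  have h1 : Real.exp (ρ z + ρ w) * Real.exp (-(ρ z + ρ w)) = 1 := by
    rw [← Real.exp_add, add_neg_cancel, Real.exp_zero]
  have h2 : z.im * Real.exp (-ρ z) * (w.im * Real.exp (-ρ w)) =
      Real.exp (-(ρ z + ρ w)) * (z.im * w.im) := by
    rw [neg_add, Real.exp_add]
    ring
  rw [h2]
  have hp := Real.exp_pos (ρ z + ρ w)
  have hq := Real.exp_pos (-(ρ z + ρ w))
  constructor
  · intro h
    have := mul_lt_mul_of_pos_left h hq
    calc _ = (Real.exp (ρ z + ρ w) * Real.exp (-(ρ z + ρ w))) * ‖(w : ℂ) - z‖ ^ 2 := by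
          rw [h1, one_mul]
      _ = Real.exp (-(ρ z + ρ w)) * (Real.exp (ρ z + ρ w) * ‖(w : ℂ) - z‖ ^ 2) := by ring
      _ < _ := this
      _ = _ := by ring
  · intro h
    have := mul_lt_mul_of_pos_left h hp
    calc _ < Real.exp (ρ z + ρ w) * (ε ^ 2 * (Real.exp (-(ρ z + ρ w)) * (z.im * w.im))) := this
      _ = (Real.exp (ρ z + ρ w) * Real.exp (-(ρ z + ρ w))) * (ε ^ 2 * (z.im * w.im)) := by ring
      _ = _ := by rw [h1, one_mul]

lemma sl_symm {z w : ℍ} : w ∈ sl ρ ε z ↔ z ∈ sl ρ ε w := by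
  rw [mem_sl, mem_sl, norm_sub_rev, mul_comm (av ρ z)]

lemma mem_SS {x : ℍ × ℍ} : x ∈ SS ρ ε ↔ x.2 ∈ sl ρ ε x.1 := Iff.rfl

lemma cont_av (hρ : Continuous ρ) : Continuous (av ρ) :=
  UpperHalfPlane.continuous_im.mul (Real.continuous_exp.comp hρ.neg)

lemma isOpen_SS (hρ : Continuous ρ) : IsOpen (SS ρ ε) := by
  refine isOpen_lt ?_ ?_
  · refine Continuous.mul ?_ ?_
    · exact Real.continuous_exp.comp ((hρ.comp continuous_fst).add (hρ.comp continuous_snd))
    · exact (((UpperHalfPlane.continuous_coe.comp continuous_fst).sub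
        (UpperHalfPlane.continuous_coe.comp continuous_snd)).norm).pow 2
  · exact continuous_const.mul ((UpperHalfPlane.continuous_im.comp continuous_fst).mul
      (UpperHalfPlane.continuous_im.comp continuous_snd))

lemma meas_SS (hρ : Continuous ρ) : MeasurableSet (SS ρ ε) := (isOpen_SS hρ).measurableSet

lemma meas_sl (hρ : Continuous ρ) (z : ℍ) : MeasurableSet (sl ρ ε z) := by
  have : sl ρ ε z = (fun w => (z, w)) ⁻¹' SS ρ ε := rfl
  rw [this]
  exact ((isOpen_SS hρ).preimage (Continuous.prodMk_right z)).measurableSet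

/-- the area in the coordinate of `ℂ` -/
lemma area_eq (hρ : Continuous ρ) {A : Set ℍ} (hA : MeasurableSet A) :
    Berry.area ρ A = ∫⁻ w : ℂ in {w | 0 < w.im},
      (ofComplex ⁻¹' A).indicator (fun w => ENNReal.ofReal (1 / av ρ (ofComplex w) ^ 2)) w := by
  have hexp : Measurable fun z : ℍ => ENNReal.ofReal (Real.exp (2 * ρ z)) :=
    ENNReal.measurable_ofReal.comp
      (Real.continuous_exp.comp (continuous_const.mul hρ)).measurable
  unfold Berry.area
  rw [withDensity_apply _ hA, ← lintegral_indicator hA,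
    QE.Surf.lintegral_uhp (hexp.indicator hA)]
  have hU : MeasurableSet {w : ℂ | 0 < w.im} :=
    (isOpen_lt continuous_const Complex.continuous_im).measurableSet
  refine setLIntegral_congr_fun hU fun w hw => ?_
  have hw' : 0 < w.im := hw
  by_cases h : ofComplex w ∈ A
  · rw [indicator_of_mem h, indicator_of_mem (show w ∈ ofComplex ⁻¹' A from h),
      ← ENNReal.ofReal_mul (by positivity)]
    congr 1
    unfold av
    have e3 : (ofComplex w : ℍ).im = w.im := by rw [ofComplex_apply_of_im_pos hw']; rfl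
    rw [e3, mul_pow, ← Real.exp_nat_mul]
    have h1 : Real.exp (2 * ρ (ofComplex w)) * Real.exp ((2 : ℕ) * -ρ (ofComplex w)) = 1 := by
      rw [← Real.exp_add]
      push_cast
      ring_nf
      exact Real.exp_zero
    have h2 : Real.exp (2 * ρ (ofComplex w)) = 1 / Real.exp ((2 : ℕ) * -ρ (ofComplex w)) := by
      rw [eq_div_iff (Real.exp_pos _).ne', h1]
    rw [h2]
    field_simp
  · rw [indicator_of_notMem h, indicator_of_notMem (show w ∉ ofComplex ⁻¹' A from h), mul_zero]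

lemma vol_ball (z : ℂ) {r : ℝ} (hr : 0 ≤ r) :
    volume (Metric.ball z r) = ENNReal.ofReal (Real.pi * r ^ 2) := by
  rw [Complex.volume_ball, ← ENNReal.ofReal_pow hr, mul_comm Real.pi,
    ENNReal.ofReal_mul (by positivity)]
  congr 1
  rw [ENNReal.ofReal, NNReal.pi]
  congr 1
  ext
  rw [Real.coe_toNNReal _ Real.pi_pos.le]
  rfl

lemma area_le (hρ : Continuous ρ) {A : Set ℍ} (hA : MeasurableSet A) {z : ℂ} {r c : ℝ}
    (hr : 0 ≤ r) (hc : 0 < c) (h : ∀ w ∈ A, ‖(w : ℂ) - z‖ < r ∧ c ≤ av ρ w) :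
    Berry.area ρ A ≤ ENNReal.ofReal (Real.pi * r ^ 2 / c ^ 2) := by
  rw [area_eq hρ hA]
  have hU : MeasurableSet {w : ℂ | 0 < w.im} :=
    (isOpen_lt continuous_const Complex.continuous_im).measurableSet
  calc _ ≤ ∫⁻ w : ℂ in {w | 0 < w.im},
        (Metric.ball z r).indicator (fun _ => ENNReal.ofReal (1 / c ^ 2)) w := by
        refine setLIntegral_mono' hU fun w hw => ?_
        have hw' : 0 < w.im := hw
        by_cases hwA : ofComplex w ∈ A
        · rw [indicator_of_mem (show w ∈ ofComplex ⁻¹' A from hwA)]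
          obtain ⟨h1, h2⟩ := h _ hwA
          rw [ofComplex_apply_of_im_pos hw'] at h1
          rw [indicator_of_mem (show w ∈ Metric.ball z r by
            rw [Metric.mem_ball, dist_eq_norm]; exact h1)]
          refine ENNReal.ofReal_le_ofReal ?_
          gcongr
        · rw [indicator_of_notMem (show w ∉ ofComplex ⁻¹' A from hwA)]
          exact bot_le
    _ ≤ ∫⁻ w : ℂ, (Metric.ball z r).indicator (fun _ => ENNReal.ofReal (1 / c ^ 2)) w :=
        setLIntegral_le_lintegral _ _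
    _ = ENNReal.ofReal (1 / c ^ 2) * volume (Metric.ball z r) := by
        rw [lintegral_indicator Metric.isOpen_ball.measurableSet, setLIntegral_const]
    _ = _ := by
        rw [vol_ball z hr, ← ENNReal.ofReal_mul (by positivity)]
        congr 1
        ring

lemma le_area (hρ : Continuous ρ) {A : Set ℍ} (hA : MeasurableSet A) {z : ℂ} {r c : ℝ}
    (hr : 0 ≤ r) (h : ∀ w : ℂ, ‖w - z‖ < r → 0 < w.im ∧ ofComplex w ∈ A ∧
      av ρ (ofComplex w) ≤ c) :
    ENNReal.ofReal (Real.pi * r ^ 2 / c ^ 2) ≤ Berry.area ρ A := by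
  rw [area_eq hρ hA]
  have hU : MeasurableSet {w : ℂ | 0 < w.im} :=
    (isOpen_lt continuous_const Complex.continuous_im).measurableSet
  have hsub : Metric.ball z r ⊆ {w : ℂ | 0 < w.im} := fun w hw => by
    rw [Metric.mem_ball, dist_eq_norm] at hw
    exact (h w hw).1
  calc _ = ENNReal.ofReal (1 / c ^ 2) * volume (Metric.ball z r) := by
        rw [vol_ball z hr, ← ENNReal.ofReal_mul (by positivity)]
        congr 1
        ring
    _ = ∫⁻ _ : ℂ in Metric.ball z r, ENNReal.ofReal (1 / c ^ 2) := by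
        rw [setLIntegral_const]
    _ ≤ ∫⁻ w : ℂ in Metric.ball z r,
        (ofComplex ⁻¹' A).indicator (fun w => ENNReal.ofReal (1 / av ρ (ofComplex w) ^ 2)) w := by
        refine setLIntegral_mono' Metric.isOpen_ball.measurableSet fun w hw => ?_
        rw [Metric.mem_ball, dist_eq_norm] at hw
        obtain ⟨h1, h2, h3⟩ := h w hw
        rw [indicator_of_mem (show w ∈ ofComplex ⁻¹' A from h2)]
        refine ENNReal.ofReal_le_ofReal ?_
        have := av_pos (ρ := ρ) (ofComplex w)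
        gcongr
    _ ≤ _ := lintegral_mono_set hsub

/-- uniform continuity of the weight -/
lemma unif (hρ : Continuous ρ) {K : Set ℍ} (hK : IsCompact K) {η : ℝ} (hη : 0 < η) :
    ∃ δ > 0, ∀ z ∈ K, ∀ w : ℂ, ‖w - z‖ < δ → 0 < w.im ∧
      |av ρ (ofComplex w) - av ρ z| ≤ η * av ρ z := by
  rcases K.eq_empty_or_nonempty with h0 | h0
  · subst h0
    exact ⟨1, one_pos, fun z hz => hz.elim⟩
  obtain ⟨z0, hz0, hmin⟩ := hK.exists_isMinOn h0 (cont_av hρ).continuousOn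
  obtain ⟨z1, hz1, hmin1⟩ := hK.exists_isMinOn h0 UpperHalfPlane.continuous_im.continuousOn
  set m := av ρ z0 with hm
  have hm0 : 0 < m := av_pos z0
  have hKc : IsCompact (((↑) : ℍ → ℂ) '' K) := hK.image UpperHalfPlane.continuous_coe
  have hc : ∀ a ∈ ((↑) : ℍ → ℂ) '' K, ContinuousAt (fun w : ℂ => av ρ (ofComplex w)) a := by
    rintro a ⟨z, hz, rfl⟩
    refine (cont_av hρ).continuousAt.comp ?_
    exact (contMDiffAt_ofComplex (n := 0) z.im_pos).continuousAt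
  have h1 := hKc.uniformContinuousAt_of_continuousAt _ hc
    (Metric.dist_mem_uniformity (mul_pos hη hm0))
  obtain ⟨δ, hδ, hδ1⟩ := Metric.mem_uniformity_dist.1 h1
  refine ⟨min δ (z1.im), lt_min hδ z1.im_pos, fun z hz w hw => ⟨?_, ?_⟩⟩
  · have h2 : z1.im ≤ z.im := hmin1 hz
    have h3 : ‖w - z‖ < z1.im := lt_of_lt_of_le hw (min_le_right _ _)
    have h4 := Complex.abs_im_le_norm (w - z)
    have h5 := (abs_le.1 h4).1
    have h6 : (w - (z : ℂ)).im = w.im - z.im := by simp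
    rw [h6] at h5
    linarith
  · have h2 : dist (z : ℂ) w < δ := by
      rw [dist_comm, dist_eq_norm]
      exact lt_of_lt_of_le hw (min_le_left _ _)
    have h3 := hδ1 h2 ⟨z, hz, rfl⟩
    simp only [mem_ofPred_eq, ofComplex_apply] at h3
    rw [dist_comm, Real.dist_eq] at h3
    have h4 : m ≤ av ρ z := hmin hz
    exact h3.le.trans (mul_le_mul_of_nonneg_left h4 hη.le)

lemma clb (hC : StmtClb) {Γ : Subgroup SL(2, ℝ)} (hF : Fac Γ ρ) {K : Set ℍ} (hK : IsCompact K) :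
    ∃ (C : ℝ) (K' : Set ℍ), 0 < C ∧ IsCompact K' ∧ K ⊆ K' ∧ ∀ ε, 0 < ε → ε ≤ 1 → ∀ z ∈ K,
      ∀ w ∈ sl ρ ε z, w ∈ K' ∧ ‖(w : ℂ) - z‖ ≤ C * ε := by
  obtain ⟨C, K', hK', hKK', h⟩ := hC Γ ρ hF K hK
  refine ⟨|C| + 1, K', by positivity, hK', hKK', fun ε hε hε1 z hz w hw => ?_⟩
  have h1 : (((z, (1 : S1)), (w, (1 : S1))) : (ℍ × S1) × (ℍ × S1)) ∈ clo ρ ε := hw
  obtain ⟨h2, h3⟩ := h ε hε hε1 _ h1 hz
  refine ⟨h2, ?_⟩
  rw [norm_sub_rev]
  refine h3.trans (mul_le_mul_of_nonneg_right ?_ hε.le)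
  linarith [le_abs_self C]

/-- the area of a small disc -/
lemma slice (hC : StmtClb) {Γ : Subgroup SL(2, ℝ)} (hF : Fac Γ ρ) {K : Set ℍ} (hK : IsCompact K)
    {η : ℝ} (hη : 0 < η) (hη1 : η ≤ 1 / 4) :
    ∃ ε₀ > 0, ∀ ε, 0 < ε → ε < ε₀ → ∀ z ∈ K,
      Berry.area ρ (sl ρ ε z) ≤ ENNReal.ofReal (Real.pi * ε ^ 2 * (1 + 6 * η)) ∧
      ENNReal.ofReal (Real.pi * ε ^ 2 * (1 - 3 * η)) ≤ Berry.area ρ (sl ρ ε z) := by
  have hρ := CLB.cont_rho hF
  obtain ⟨C, K', hC0, hK', hKK', hc⟩ := clb hC hF hK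
  obtain ⟨δ, hδ, hu⟩ := unif hρ hK hη
  obtain ⟨A, hA⟩ := hK.exists_bound_of_continuousOn (cont_av hρ).continuousOn
  have hπ := Real.pi_pos
  refine ⟨min 1 (min (δ / (C + 1)) (δ / (|A| + 1))), by positivity, fun ε hε hε0 z hz => ?_⟩
  have hε1 : ε ≤ 1 := (hε0.trans_le (min_le_left _ _)).le
  have hε2 : ε < δ / (C + 1) := hε0.trans_le ((min_le_right _ _).trans (min_le_left _ _))
  have hε3 : ε < δ / (|A| + 1) := hε0.trans_le ((min_le_right _ _).trans (min_le_right _ _))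
  rw [lt_div_iff₀ (by positivity)] at hε2 hε3
  have ha := av_pos (ρ := ρ) z
  constructor
  · have h1 := area_le hρ (meas_sl (ε := ε) hρ z) (z := (z : ℂ))
      (r := ε * av ρ z * Real.sqrt (1 + η)) (c := (1 - η) * av ρ z) (by positivity)
      (mul_pos (by linarith) ha) (by
        intro w hw
        obtain ⟨-, h2⟩ := hc ε hε hε1 z hz w hw
        have h3 : ‖(w : ℂ) - z‖ < δ := by
          refine h2.trans_lt ?_
          nlinarith
        obtain ⟨-, h4⟩ := hu z hz w h3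
        rw [ofComplex_apply] at h4
        have h5 := abs_le.1 h4
        refine ⟨?_, by linarith [h5.1]⟩
        refine lt_of_pow_lt_pow_left₀ 2 (by positivity) ?_
        rw [mul_pow, Real.sq_sqrt (by positivity)]
        refine (mem_sl.1 hw).trans_le ?_
        have h6 : av ρ w ≤ (1 + η) * av ρ z := by linarith [h5.2]
        calc ε ^ 2 * (av ρ z * av ρ w) ≤ ε ^ 2 * (av ρ z * ((1 + η) * av ρ z)) := by gcongr
          _ = _ := by ring)
    refine h1.trans (ENNReal.ofReal_le_ofReal ?_)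
    have e1 : Real.pi * (ε * av ρ z * Real.sqrt (1 + η)) ^ 2 / ((1 - η) * av ρ z) ^ 2 =
        Real.pi * ε ^ 2 * ((1 + η) / (1 - η) ^ 2) := by
      rw [mul_pow, Real.sq_sqrt (by positivity)]
      have : (1 - η) ≠ 0 := by linarith
      field_simp
    rw [e1]
    refine mul_le_mul_of_nonneg_left ?_ (by positivity)
    rw [div_le_iff₀ (by nlinarith)]
    nlinarith [mul_nonneg hη.le (by nlinarith : (0 : ℝ) ≤ 3 - 11 * η + 6 * η ^ 2)]
  · have h1 := le_area hρ (meas_sl (ε := ε) hρ z) (z := (z : ℂ))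
      (r := ε * av ρ z * Real.sqrt (1 - η)) (c := (1 + η) * av ρ z) (by positivity) (by
        intro w hw
        have hs : Real.sqrt (1 - η) ≤ 1 := Real.sqrt_le_one.2 (by linarith)
        have h2 : av ρ z ≤ |A| + 1 := by
          have := hA z hz
          rw [Real.norm_eq_abs, abs_of_pos ha] at this
          linarith [le_abs_self A]
        have h3 : ‖w - z‖ < δ := by
          refine hw.trans ?_
          calc ε * av ρ z * Real.sqrt (1 - η) ≤ ε * (|A| + 1) * 1 := by gcongr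
            _ < δ := by linarith
        obtain ⟨h4, h5⟩ := hu z hz w h3
        have h6 := abs_le.1 h5
        refine ⟨h4, ?_, by linarith [h6.2]⟩
        rw [mem_sl, ofComplex_apply_of_im_pos h4]
        have h7 : ‖w - z‖ ^ 2 < (ε * av ρ z * Real.sqrt (1 - η)) ^ 2 := by
          have := norm_nonneg (w - z)
          gcongr
        rw [mul_pow, Real.sq_sqrt (by linarith)] at h7
        rw [ofComplex_apply_of_im_pos h4] at h6
        calc _ < _ := h7
          _ = ε ^ 2 * (av ρ z * ((1 - η) * av ρ z)) := by ring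
          _ ≤ _ := by
            gcongr
            linarith [h6.1])
    refine le_trans (ENNReal.ofReal_le_ofReal ?_) h1
    have e1 : Real.pi * (ε * av ρ z * Real.sqrt (1 - η)) ^ 2 / ((1 + η) * av ρ z) ^ 2 =
        Real.pi * ε ^ 2 * ((1 - η) / (1 + η) ^ 2) := by
      rw [mul_pow, Real.sq_sqrt (by linarith)]
      field_simp
    rw [e1]
    refine mul_le_mul_of_nonneg_left ?_ (by positivity)
    rw [le_div_iff₀ (by positivity)]
    nlinarith [mul_nonneg hη.le hη.le, mul_nonneg (mul_nonneg hη.le hη.le) hη.le]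

lemma lf (hρ : Continuous ρ) : IsLocallyFiniteMeasure (Berry.area ρ) := by
  unfold Berry.area
  exact IsLocallyFiniteMeasure.withDensity_ofReal
    (Real.continuous_exp.comp (continuous_const.mul hρ))

lemma sfin : SFinite (Berry.area ρ) := by
  unfold Berry.area
  infer_instance

/-- a bound for the area of a small disc -/
lemma real_le {K : Set ℍ} {η ε : ℝ} (hη : 0 ≤ η)
    (h : ∀ z ∈ K, Berry.area ρ (sl ρ ε z) ≤ ENNReal.ofReal (Real.pi * ε ^ 2 * (1 + 6 * η))) :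
    ∀ z ∈ K, (Berry.area ρ).real (sl ρ ε z) ≤ Real.pi * ε ^ 2 * (1 + 6 * η) := by
  intro z hz
  exact ENNReal.toReal_le_of_le_ofReal (by positivity) (h z hz)

/-- the averages of a continuous function -/
lemma avg_tendsto (hC : StmtClb) {Γ : Subgroup SL(2, ℝ)} (hF : Fac Γ ρ) {h : ℍ → ℂ}
    (hh : Continuous h) (z : ℍ) :
    Tendsto (fun ε : ℝ => (((Real.pi * ε ^ 2)⁻¹ : ℝ) : ℂ) * ∫ w in sl ρ ε z, h w ∂(Berry.area ρ))
      (𝓝[>] 0) (𝓝 (h z)) := by
  have hρ := CLB.cont_rho hF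
  have := lf hρ
  obtain ⟨C, K', hC0, hK', hKK', hc⟩ := clb hC hF (isCompact_singleton (x := z))
  have hπ := Real.pi_pos
  rw [Metric.tendsto_nhds]
  intro τ hτ
  obtain ⟨η, hη, hη1, hη2⟩ : ∃ η : ℝ, 0 < η ∧ η ≤ 1 / 4 ∧ 6 * η * ‖h z‖ ≤ τ / 4 := by
    refine ⟨min (1 / 4) (τ / (24 * (‖h z‖ + 1))), by positivity, min_le_left _ _, ?_⟩
    have h0 := norm_nonneg (h z)
    calc 6 * min (1 / 4) (τ / (24 * (‖h z‖ + 1))) * ‖h z‖
        ≤ 6 * (τ / (24 * (‖h z‖ + 1))) * (‖h z‖ + 1) := by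
          gcongr
          · exact min_le_right _ _
          · linarith
      _ = τ / 4 := by
          field_simp
          ring
  obtain ⟨ε₀, hε₀, hs⟩ := slice hC hF (isCompact_singleton (x := z)) hη hη1
  have h1 : ∀ᶠ w in 𝓝 z, ‖h w - h z‖ < τ / 4 := by
    have := Metric.tendsto_nhds.1 (hh.tendsto z) (τ / 4) (by positivity)
    simpa [dist_eq_norm] using this
  rw [UpperHalfPlane.isOpenEmbedding_coe.isInducing.nhds_eq_comap, eventually_comap] at h1
  obtain ⟨δ, hδ, h2⟩ := Metric.eventually_nhds_iff.1 h1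
  have hmem : Ioo (0 : ℝ) (min (min 1 ε₀) (δ / C)) ∈ 𝓝[>] (0 : ℝ) :=
    Ioo_mem_nhdsGT (by positivity)
  filter_upwards [hmem] with ε hε
  have hε0 : 0 < ε := hε.1
  have hε1 : ε ≤ 1 := (hε.2.trans_le ((min_le_left _ _).trans (min_le_left _ _))).le
  have hε2 : ε < ε₀ := hε.2.trans_le ((min_le_left _ _).trans (min_le_right _ _))
  have hε3 : ε < δ / C := hε.2.trans_le (min_le_right _ _)
  rw [lt_div_iff₀ hC0] at hε3
  obtain ⟨hs1, hs2⟩ := hs ε hε0 hε2 z rfl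
  have hsub : sl ρ ε z ⊆ K' := fun w hw => (hc ε hε0 hε1 z rfl w hw).1
  have hfin : Berry.area ρ (sl ρ ε z) ≠ ⊤ :=
    ne_top_of_le_ne_top ENNReal.ofReal_ne_top hs1
  have hint : IntegrableOn h (sl ρ ε z) (Berry.area ρ) :=
    (hh.continuousOn.integrableOn_compact hK').mono_set hsub
  set k : ℝ := (Real.pi * ε ^ 2)⁻¹ * (Berry.area ρ).real (sl ρ ε z) with hk
  have hp : 0 < Real.pi * ε ^ 2 := by positivity
  have hk1 : k ≤ 1 + 6 * η := by
    rw [hk, inv_mul_le_iff₀ hp]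
    exact ENNReal.toReal_le_of_le_ofReal (by positivity) hs1
  have hk2 : 1 - 3 * η ≤ k := by
    rw [hk, le_inv_mul_iff₀ hp]
    exact (ENNReal.ofReal_le_iff_le_toReal hfin).1 hs2
  have hk3 : |k - 1| ≤ 6 * η := abs_le.2 ⟨by linarith, by linarith⟩
  have hk4 : k ≤ 5 / 2 := by linarith
  have e1 : (((Real.pi * ε ^ 2)⁻¹ : ℝ) : ℂ) * ∫ w in sl ρ ε z, h w ∂(Berry.area ρ) - h z =
      (((Real.pi * ε ^ 2)⁻¹ : ℝ) : ℂ) * (∫ w in sl ρ ε z, (h w - h z) ∂(Berry.area ρ)) +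
        ((k - 1 : ℝ) : ℂ) * h z := by
    rw [integral_sub hint (integrableOn_const hfin), setIntegral_const, hk]
    rw [Complex.real_smul]
    push_cast
    ring
  rw [dist_eq_norm, e1]
  have e2 : ‖∫ w in sl ρ ε z, (h w - h z) ∂(Berry.area ρ)‖ ≤
      τ / 4 * (Berry.area ρ).real (sl ρ ε z) := by
    refine norm_setIntegral_le_of_norm_le_const (lt_top_iff_ne_top.2 hfin) fun w hw => ?_
    have h3 := (hc ε hε0 hε1 z rfl w hw).2
    refine (h2 (y := (w : ℂ)) ?_ w rfl).le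
    rw [dist_eq_norm]
    linarith
  calc _ ≤ ‖(((Real.pi * ε ^ 2)⁻¹ : ℝ) : ℂ) * (∫ w in sl ρ ε z, (h w - h z) ∂(Berry.area ρ))‖ +
        ‖((k - 1 : ℝ) : ℂ) * h z‖ := norm_add_le _ _
    _ ≤ τ / 4 * k + 6 * η * ‖h z‖ := by
        rw [norm_mul, norm_mul, Complex.norm_real, Complex.norm_real, Real.norm_eq_abs,
          Real.norm_eq_abs, abs_of_pos (inv_pos.2 hp)]
        refine add_le_add ?_ (mul_le_mul_of_nonneg_right hk3 (norm_nonneg _))
        refine (mul_le_mul_of_nonneg_left e2 (inv_pos.2 hp).le).trans (le_of_eq ?_)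
        rw [hk]
        ring
    _ < τ := by nlinarith

variable {ν : Measure ℍ} [IsFiniteMeasure ν]

lemma int_fst (hρ : Continuous ρ) {F : ℍ → ℝ} (hF : Integrable F ν) :
    ∫ x in SS ρ ε, F x.1 ∂(ν.prod ν) = ∫ z, F z * ν.real (sl ρ ε z) ∂ν := by
  rw [← integral_indicator (meas_SS hρ), integral_prod]
  · refine integral_congr_ae (Eventually.of_forall fun z => ?_)
    have h1 : ∀ w, (SS ρ ε).indicator (fun x : ℍ × ℍ => F x.1) (z, w) =
        (sl ρ ε z).indicator (fun _ => F z) w := fun w => rfl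
    simp only [h1]
    rw [integral_indicator (meas_sl hρ z), setIntegral_const, smul_eq_mul, mul_comm]
  · exact (hF.comp_fst ν).indicator (meas_SS hρ)

lemma int_snd (hρ : Continuous ρ) {F : ℍ → ℝ} (hF : Integrable F ν) :
    ∫ x in SS ρ ε, F x.2 ∂(ν.prod ν) = ∫ z, F z * ν.real (sl ρ ε z) ∂ν := by
  rw [← int_fst hρ hF, ← integral_indicator (meas_SS hρ), ← integral_indicator (meas_SS hρ),
    ← integral_prod_swap]
  refine integral_congr_ae (Eventually.of_forall fun x => ?_)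
  change (SS ρ ε).indicator (fun x : ℍ × ℍ => F x.2) x.swap =
    (SS ρ ε).indicator (fun x : ℍ × ℍ => F x.1) x
  by_cases h : x ∈ SS ρ ε
  · have h' : x.swap ∈ SS ρ ε := sl_symm.1 h
    rw [indicator_of_mem h', indicator_of_mem h]
    rfl
  · have h' : x.swap ∉ SS ρ ε := fun h1 => h (sl_symm.1 h1)
    rw [indicator_of_notMem h', indicator_of_notMem h]

/-- the bound of the bilinear form -/
lemma bil (hρ : Continuous ρ) {f g : ℍ → ℂ} (hf : MemLp f 2 ν) (hg : MemLp g 2 ν) {c : ℝ}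
    (hc : ∀ᵐ z ∂ν, ν.real (sl ρ ε z) ≤ c) {l : ℝ} (hl : 0 < l) :
    ‖∫ x in SS ρ ε, f x.1 * g x.2 ∂(ν.prod ν)‖ ≤
      c * (l * (∫ z, ‖f z‖ ^ 2 ∂ν) + l⁻¹ * ∫ z, ‖g z‖ ^ 2 ∂ν) := by
  have hf2 : Integrable (fun z => ‖f z‖ ^ 2) ν := hf.integrable_norm_pow (by norm_num)
  have hg2 : Integrable (fun z => ‖g z‖ ^ 2) ν := hg.integrable_norm_pow (by norm_num)
  have hle : ∀ {F : ℍ → ℝ}, Integrable F ν → (∀ z, 0 ≤ F z) →
      ∫ z, F z * ν.real (sl ρ ε z) ∂ν ≤ c * ∫ z, F z ∂ν := by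
    intro F hF hF0
    rw [mul_comm, ← integral_mul_const]
    refine integral_mono_of_nonneg (Eventually.of_forall fun z => ?_) (hF.mul_const _) ?_
    · exact mul_nonneg (hF0 z) measureReal_nonneg
    · filter_upwards [hc] with z hz
      exact mul_le_mul_of_nonneg_left hz (hF0 z)
  calc _ ≤ ∫ x in SS ρ ε, ‖f x.1 * g x.2‖ ∂(ν.prod ν) := norm_integral_le_integral_norm _
    _ ≤ ∫ x in SS ρ ε, (l * ‖f x.1‖ ^ 2 + l⁻¹ * ‖g x.2‖ ^ 2) ∂(ν.prod ν) := by
        refine integral_mono_of_nonneg (Eventually.of_forall fun x => norm_nonneg _) ?_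
          (Eventually.of_forall fun x => ?_)
        · exact (((hf2.comp_fst ν).const_mul l).add ((hg2.comp_snd ν).const_mul l⁻¹)).integrableOn
        · simp only [norm_mul]
          have h1 : l * l⁻¹ = 1 := mul_inv_cancel₀ hl.ne'
          have h2 : 0 < l⁻¹ := by positivity
          have h3 : 0 ≤ l⁻¹ * (l * ‖f x.1‖ - ‖g x.2‖) ^ 2 := by positivity
          have h4 : l⁻¹ * (l * ‖f x.1‖ - ‖g x.2‖) ^ 2 =
              l * ‖f x.1‖ ^ 2 - 2 * (‖f x.1‖ * ‖g x.2‖) + l⁻¹ * ‖g x.2‖ ^ 2 := by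
            field_simp
            ring
          have h5 := mul_nonneg (norm_nonneg (f x.1)) (norm_nonneg (g x.2))
          linarith
    _ = l * (∫ x in SS ρ ε, ‖f x.1‖ ^ 2 ∂(ν.prod ν)) +
          l⁻¹ * ∫ x in SS ρ ε, ‖g x.2‖ ^ 2 ∂(ν.prod ν) := by
        rw [integral_add ((hf2.comp_fst ν).const_mul l).integrableOn
          ((hg2.comp_snd ν).const_mul l⁻¹).integrableOn, integral_const_mul, integral_const_mul]
    _ ≤ l * (c * ∫ z, ‖f z‖ ^ 2 ∂ν) + l⁻¹ * (c * ∫ z, ‖g z‖ ^ 2 ∂ν) := by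
        rw [int_fst hρ hf2, int_snd hρ hg2]
        have h2 : 0 < l⁻¹ := by positivity
        exact add_le_add (mul_le_mul_of_nonneg_left (hle hf2 fun z => by positivity) hl.le)
          (mul_le_mul_of_nonneg_left (hle hg2 fun z => by positivity) h2.le)
    _ = _ := by ring

/-- the case of a continuous second function -/
lemma cont_lim (hC : StmtClb) {Γ : Subgroup SL(2, ℝ)} (hF : Fac Γ ρ) {K K' : Set ℍ}
    (hK : IsCompact K)
    (hKK : ∀ ε, 0 < ε → ε ≤ 1 → ∀ z ∈ K, sl ρ ε z ⊆ K') {f : ℍ → ℂ}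
    (hf : Integrable f ((Berry.area ρ).restrict K')) (hf0 : ∀ z, z ∉ K → f z = 0) {h : ℍ → ℂ}
    (hh : Continuous h) {B : ℝ} (hB : ∀ z, ‖h z‖ ≤ B)
    [IsFiniteMeasure ((Berry.area ρ).restrict K')] :
    Tendsto (fun ε : ℝ => (((Real.pi * ε ^ 2)⁻¹ : ℝ) : ℂ) * ∫ x in SS ρ ε, f x.1 * h x.2
      ∂(((Berry.area ρ).restrict K').prod ((Berry.area ρ).restrict K')))
      (𝓝[>] 0) (𝓝 (∫ z, f z * h z ∂((Berry.area ρ).restrict K'))) := by
  have hρ := CLB.cont_rho hF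
  have hπ := Real.pi_pos
  have hB0 : 0 ≤ B := (norm_nonneg _).trans (hB UpperHalfPlane.I)
  set ν := (Berry.area ρ).restrict K' with hν
  have hhi : Integrable h ν := by
    refine Integrable.of_bound hh.aestronglyMeasurable B (Eventually.of_forall hB)
  have hΦ : ∀ ε, Integrable ((SS ρ ε).indicator (fun x : ℍ × ℍ => f x.1 * h x.2)) (ν.prod ν) :=
    fun ε => (hf.mul_prod hhi).indicator (meas_SS hρ)
  have e1 : ∀ ε : ℝ, (((Real.pi * ε ^ 2)⁻¹ : ℝ) : ℂ) * ∫ x in SS ρ ε, f x.1 * h x.2 ∂(ν.prod ν) =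
      ∫ z, (((Real.pi * ε ^ 2)⁻¹ : ℝ) : ℂ) *
        ∫ w, (SS ρ ε).indicator (fun x : ℍ × ℍ => f x.1 * h x.2) (z, w) ∂ν ∂ν := by
    intro ε
    rw [← integral_indicator (meas_SS hρ), integral_prod _ (hΦ ε), integral_const_mul]
  simp only [e1]
  have e2 : ∀ (ε : ℝ) (z : ℍ),
      ∫ w, (SS ρ ε).indicator (fun x : ℍ × ℍ => f x.1 * h x.2) (z, w) ∂ν =
        f z * ∫ w in sl ρ ε z, h w ∂ν := by
    intro ε z
    have h1 : ∀ w, (SS ρ ε).indicator (fun x : ℍ × ℍ => f x.1 * h x.2) (z, w) =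
        (sl ρ ε z).indicator (fun w => f z * h w) w := fun w => rfl
    simp only [h1]
    rw [integral_indicator (meas_sl hρ z), integral_const_mul]
  have e3 : ∀ ε : ℝ, 0 < ε → ε ≤ 1 → ∀ z ∈ K, ν.restrict (sl ρ ε z) =
      (Berry.area ρ).restrict (sl ρ ε z) := by
    intro ε hε hε1 z hz
    rw [hν, Measure.restrict_restrict (meas_sl hρ z), inter_eq_left.2 (hKK ε hε hε1 z hz)]
  obtain ⟨ε₀, hε₀, hs⟩ := slice hC hF hK (η := 1 / 4) (by norm_num) le_rfl
  have hmem : Ioo (0 : ℝ) (min 1 ε₀) ∈ 𝓝[>] (0 : ℝ) := Ioo_mem_nhdsGT (by positivity)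
  refine tendsto_integral_filter_of_dominated_convergence (fun z => ‖f z‖ * (B * 3)) ?_ ?_
    (hf.norm.mul_const _) ?_
  · exact Eventually.of_forall fun ε => ((hΦ ε).integral_prod_left.const_mul _).aestronglyMeasurable
  · filter_upwards [hmem] with ε hε
    have hε0 : 0 < ε := hε.1
    have hε1 : ε ≤ 1 := (hε.2.trans_le (min_le_left _ _)).le
    have hε2 : ε < ε₀ := hε.2.trans_le (min_le_right _ _)
    refine Eventually.of_forall fun z => ?_
    rw [e2]
    by_cases hz : z ∈ K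
    · have hs1 := real_le (by norm_num) (fun z hz => (hs ε hε0 hε2 z hz).1) z hz
      have hfin : Berry.area ρ (sl ρ ε z) < ⊤ :=
        lt_top_iff_ne_top.2 (ne_top_of_le_ne_top ENNReal.ofReal_ne_top (hs ε hε0 hε2 z hz).1)
      have h1 : ‖∫ w in sl ρ ε z, h w ∂(Berry.area ρ)‖ ≤ B * (Berry.area ρ).real (sl ρ ε z) :=
        norm_setIntegral_le_of_norm_le_const hfin fun w _ => hB w
      have hp : 0 < Real.pi * ε ^ 2 := by positivity
      rw [e3 ε hε0 hε1 z hz, norm_mul, norm_mul, Complex.norm_real, Real.norm_eq_abs,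
        abs_of_pos (inv_pos.2 hp)]
      have h2 : ‖∫ w in sl ρ ε z, h w ∂(Berry.area ρ)‖ ≤ B * (Real.pi * ε ^ 2 * 3) := by
        refine h1.trans (mul_le_mul_of_nonneg_left (hs1.trans ?_) hB0)
        exact mul_le_mul_of_nonneg_left (by norm_num) hp.le
      calc _ ≤ (Real.pi * ε ^ 2)⁻¹ * (‖f z‖ * (B * (Real.pi * ε ^ 2 * 3))) := by gcongr
        _ = _ := by field_simp
    · simp [hf0 z hz]
  · refine Eventually.of_forall fun z => ?_
    by_cases hz : z ∈ K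
    · have h1 := (avg_tendsto hC hF hh z).const_mul (f z)
      refine h1.congr' ?_
      filter_upwards [hmem] with ε hε
      have hε1 : ε ≤ 1 := (hε.2.trans_le (min_le_left _ _)).le
      rw [e2, e3 ε hε.1 hε1 z hz]
      ring
    · simp [e2, hf0 z hz]

omit [IsFiniteMeasure ν] in
/-- bounded continuous approximation in the square mean -/
lemma approx {g : ℍ → ℂ} (hg : MemLp g 2 ν) {s : ℝ} (hs : 0 < s) [ν.WeaklyRegular] :
    ∃ (h : ℍ → ℂ) (B : ℝ), Continuous h ∧ (∀ z, ‖h z‖ ≤ B) ∧ MemLp h 2 ν ∧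
      ∫ z, ‖g z - h z‖ ^ 2 ∂ν ≤ s := by
  obtain ⟨h, h1, h2⟩ := hg.exists_boundedContinuous_eLpNorm_sub_le (by norm_num)
    (ε := ENNReal.ofReal (Real.sqrt s)) (by
      rw [Ne, ENNReal.ofReal_eq_zero, not_le]
      exact Real.sqrt_pos.2 hs)
  refine ⟨h, ‖h‖, h.continuous, h.norm_coe_le_norm, h2, ?_⟩
  rw [(hg.sub h2).eLpNorm_eq_integral_rpow_norm (by norm_num) (by norm_num),
    ENNReal.ofReal_le_ofReal_iff (Real.sqrt_nonneg _)] at h1
  have e1 : ∫ a, ‖(g - (h : ℍ → ℂ)) a‖ ^ (2 : ℝ≥0∞).toReal ∂ν = ∫ z, ‖g z - h z‖ ^ 2 ∂ν := by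
    refine integral_congr_ae (Eventually.of_forall fun z => ?_)
    simp
  rw [e1] at h1
  have h0 : 0 ≤ ∫ z, ‖g z - h z‖ ^ 2 ∂ν := integral_nonneg fun z => by positivity
  have e2 : (2 : ℝ≥0∞).toReal⁻¹ = 1 / 2 := by simp
  rw [e2, ← Real.sqrt_eq_rpow] at h1
  exact (Real.sqrt_le_sqrt_iff hs.le).1 h1

/-- the case of square integrable functions -/
lemma l2_lim (hC : StmtClb) {Γ : Subgroup SL(2, ℝ)} (hF : Fac Γ ρ) {K K' : Set ℍ}
    (hK : IsCompact K) (hK' : IsCompact K')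
    (hKK : ∀ ε, 0 < ε → ε ≤ 1 → ∀ z ∈ K, sl ρ ε z ⊆ K') {f g : ℍ → ℂ}
    (hf : MemLp f 2 ((Berry.area ρ).restrict K')) (hf0 : ∀ z, z ∉ K → f z = 0)
    (hg : MemLp g 2 ((Berry.area ρ).restrict K'))
    [IsFiniteMeasure ((Berry.area ρ).restrict K')] [((Berry.area ρ).restrict K').WeaklyRegular] :
    Tendsto (fun ε : ℝ => (((Real.pi * ε ^ 2)⁻¹ : ℝ) : ℂ) * ∫ x in SS ρ ε, f x.1 * g x.2
      ∂(((Berry.area ρ).restrict K').prod ((Berry.area ρ).restrict K')))
      (𝓝[>] 0) (𝓝 (∫ z, f z * g z ∂((Berry.area ρ).restrict K'))) := by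
  have hρ := CLB.cont_rho hF
  have hπ := Real.pi_pos
  set ν := (Berry.area ρ).restrict K' with hν
  rw [Metric.tendsto_nhds]
  intro τ hτ
  set F2 : ℝ := ∫ z, ‖f z‖ ^ 2 ∂ν with hF2
  have hF20 : 0 ≤ F2 := integral_nonneg fun z => by positivity
  set l : ℝ := τ / (20 * (F2 + 1)) with hl
  have hl0 : 0 < l := by positivity
  obtain ⟨h, B, hh, hB, hh2, hs⟩ := approx hg (s := l * τ / 20) (by positivity)
  have hlF : l * F2 ≤ τ / 20 := by
    calc l * F2 ≤ l * (F2 + 1) := by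
          refine mul_le_mul_of_nonneg_left (by linarith) hl0.le
      _ = τ / 20 := by
          rw [hl]
          field_simp
  have hls : l⁻¹ * (∫ z, ‖g z - h z‖ ^ 2 ∂ν) ≤ τ / 20 := by
    calc _ ≤ l⁻¹ * (l * τ / 20) := by
          refine mul_le_mul_of_nonneg_left hs (inv_pos.2 hl0).le
      _ = τ / 20 := by
          field_simp
  have hgh : MemLp (fun z => g z - h z) 2 ν := hg.sub hh2
  obtain ⟨ε₀, hε₀, hsl⟩ := slice hC hF hK' (η := 1 / 4) (by norm_num) le_rfl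
  have hfi : Integrable f ν := hf.integrable (by norm_num)
  have hgi : Integrable g ν := hg.integrable (by norm_num)
  have hhi : Integrable h ν := hh2.integrable (by norm_num)
  have hfg : Integrable (fun z => f z * g z) ν := hf.integrable_mul hg
  have hfh : Integrable (fun z => f z * h z) ν := hf.integrable_mul hh2
  have hmid := Metric.tendsto_nhds.1 (cont_lim hC hF hK hKK hfi hf0 hh hB) (τ / 2)
    (by positivity)
  have hmem : Ioo (0 : ℝ) ε₀ ∈ 𝓝[>] (0 : ℝ) := Ioo_mem_nhdsGT hε₀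
  have hlast : ‖(∫ z, f z * h z ∂ν) - ∫ z, f z * g z ∂ν‖ ≤ τ / 10 := by
    rw [← integral_sub hfh hfg]
    have hf2 : Integrable (fun z => ‖f z‖ ^ 2) ν := hf.integrable_norm_pow (by norm_num)
    have hg2 : Integrable (fun z => ‖g z - h z‖ ^ 2) ν := hgh.integrable_norm_pow (by norm_num)
    calc _ ≤ ∫ z, ‖f z * h z - f z * g z‖ ∂ν := norm_integral_le_integral_norm _
      _ ≤ ∫ z, (l * ‖f z‖ ^ 2 + l⁻¹ * ‖g z - h z‖ ^ 2) ∂ν := by
          refine integral_mono_of_nonneg (Eventually.of_forall fun x => norm_nonneg _)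
            ((hf2.const_mul l).add (hg2.const_mul l⁻¹)) (Eventually.of_forall fun x => ?_)
          have h1 : l * l⁻¹ = 1 := mul_inv_cancel₀ hl0.ne'
          have h2 : 0 < l⁻¹ := by positivity
          have h3 : 0 ≤ l⁻¹ * (l * ‖f x‖ - ‖g x - h x‖) ^ 2 := by positivity
          have h4 : l⁻¹ * (l * ‖f x‖ - ‖g x - h x‖) ^ 2 =
              l * ‖f x‖ ^ 2 - 2 * (‖f x‖ * ‖g x - h x‖) + l⁻¹ * ‖g x - h x‖ ^ 2 := by
            field_simp
            ring
          have h5 := mul_nonneg (norm_nonneg (f x)) (norm_nonneg (g x - h x))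
          have h6 : ‖f x * h x - f x * g x‖ = ‖f x‖ * ‖g x - h x‖ := by
            rw [← mul_sub, norm_mul, norm_sub_rev]
          simp only [h6]
          linarith
      _ = l * F2 + l⁻¹ * ∫ z, ‖g z - h z‖ ^ 2 ∂ν := by
          rw [integral_add (hf2.const_mul l) (hg2.const_mul l⁻¹), integral_const_mul,
            integral_const_mul]
      _ ≤ _ := by linarith
  filter_upwards [hmid, hmem] with ε h1 hε
  have hp : 0 < Real.pi * ε ^ 2 := by
    have := hε.1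
    positivity
  have hc : ∀ᵐ z ∂ν, ν.real (sl ρ ε z) ≤ Real.pi * ε ^ 2 * (1 + 6 * (1 / 4)) := by
    rw [hν]
    filter_upwards [ae_restrict_mem hK'.measurableSet] with z hz
    refine le_trans ?_ (real_le (by norm_num) (fun z hz => (hsl ε hε.1 hε.2 z hz).1) z hz)
    refine ENNReal.toReal_mono ?_ (Measure.restrict_apply_le _ _)
    exact ne_top_of_le_ne_top ENNReal.ofReal_ne_top (hsl ε hε.1 hε.2 z hz).1
  have hb := bil (ε := ε) hρ hf hgh hc hl0
  have hΦ1 : IntegrableOn (fun x : ℍ × ℍ => f x.1 * g x.2) (SS ρ ε) (ν.prod ν) :=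
    (hfi.mul_prod hgi).integrableOn
  have hΦ2 : IntegrableOn (fun x : ℍ × ℍ => f x.1 * h x.2) (SS ρ ε) (ν.prod ν) :=
    (hfi.mul_prod hhi).integrableOn
  have e1 : ∫ x in SS ρ ε, f x.1 * (g x.2 - h x.2) ∂(ν.prod ν) =
      (∫ x in SS ρ ε, f x.1 * g x.2 ∂(ν.prod ν)) - ∫ x in SS ρ ε, f x.1 * h x.2 ∂(ν.prod ν) := by
    rw [← integral_sub hΦ1 hΦ2]
    refine integral_congr_ae (Eventually.of_forall fun x => ?_)
    simp only [mul_sub]
  rw [e1] at hb
  set Xg := ∫ x in SS ρ ε, f x.1 * g x.2 ∂(ν.prod ν) with hXg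
  set Xh := ∫ x in SS ρ ε, f x.1 * h x.2 ∂(ν.prod ν) with hXh
  rw [dist_eq_norm] at h1 ⊢
  have h3 : ‖(((Real.pi * ε ^ 2)⁻¹ : ℝ) : ℂ) * (Xg - Xh)‖ ≤ τ / 4 := by
    rw [norm_mul, Complex.norm_real, Real.norm_eq_abs, abs_of_pos (inv_pos.2 hp),
      inv_mul_le_iff₀ hp]
    refine hb.trans ?_
    rw [mul_assoc]
    refine mul_le_mul_of_nonneg_left ?_ hp.le
    linarith
  have e2 : (((Real.pi * ε ^ 2)⁻¹ : ℝ) : ℂ) * Xg - ∫ z, f z * g z ∂ν =
      (((Real.pi * ε ^ 2)⁻¹ : ℝ) : ℂ) * (Xg - Xh) +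
      ((((Real.pi * ε ^ 2)⁻¹ : ℝ) : ℂ) * Xh - ∫ z, f z * h z ∂ν) +
      ((∫ z, f z * h z ∂ν) - ∫ z, f z * g z ∂ν) := by ring
  rw [e2]
  calc _ ≤ ‖(((Real.pi * ε ^ 2)⁻¹ : ℝ) : ℂ) * (Xg - Xh)‖ +
      ‖(((Real.pi * ε ^ 2)⁻¹ : ℝ) : ℂ) * Xh - ∫ z, f z * h z ∂ν‖ +
      ‖(∫ z, f z * h z ∂ν) - ∫ z, f z * g z ∂ν‖ := norm_add₃_le
    _ < τ := by linarith

end

end AVG

open AVG in
theorem t_AVG (hC : StmtClb) : StmtAvg := by
  intro Γ ρ hF G₁ G₂ hG₁ hG₂ hI₁ hI₂ ζ hζ hζc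
  have hρ := CLB.cont_rho hF
  have := lf hρ
  have := sfin (ρ := ρ)
  obtain ⟨C, K', hC0, hK', hKK', hc⟩ := clb hC hF hζc.isCompact
  set K := tsupport ζ with hK
  set ν := (Berry.area ρ).restrict K' with hν
  have hfinν : IsFiniteMeasure ν := ⟨by
    rw [hν, Measure.restrict_apply_univ]
    exact hK'.measure_lt_top⟩
  have hwr : ν.WeaklyRegular := inferInstance
  set f : ℍ → ℂ := fun z => ζ z * G₁ z with hf
  set g : ℍ → ℂ := fun z => (starRingEnd ℂ) (G₂ z) with hg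
  have hG₁2 : MemLp G₁ 2 ν := by
    rw [memLp_two_iff_integrable_sq_norm hG₁.aestronglyMeasurable]
    exact hI₁ K' hK'
  have hG₂2 : MemLp G₂ 2 ν := by
    rw [memLp_two_iff_integrable_sq_norm hG₂.aestronglyMeasurable]
    exact hI₂ K' hK'
  have hg2 : MemLp g 2 ν := by
    refine hG₂2.norm.of_le (Complex.continuous_conj.measurable.comp hG₂).aestronglyMeasurable ?_
    refine Eventually.of_forall fun z => ?_
    simp [hg]
  have hf0 : ∀ z, z ∉ K → f z = 0 := fun z hz => by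
    simp only [hf, image_eq_zero_of_notMem_tsupport hz, zero_mul]
  obtain ⟨Z, hZ⟩ := hζc.isCompact.exists_bound_of_continuousOn hζ.continuousOn
  have hZ' : ∀ z, ‖ζ z‖ ≤ |Z| := by
    intro z
    by_cases hz : z ∈ K
    · exact (hZ z hz).trans (le_abs_self Z)
    · rw [image_eq_zero_of_notMem_tsupport hz, norm_zero]
      positivity
  have hf2 : MemLp f 2 ν := by
    refine (hG₁2.norm.const_mul |Z|).of_le (hζ.measurable.mul hG₁).aestronglyMeasurable ?_
    refine Eventually.of_forall fun z => ?_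
    simp only [hf, norm_mul, Real.norm_eq_abs, abs_abs, abs_norm]
    exact mul_le_mul_of_nonneg_right (hZ' z) (norm_nonneg _)
  have hlim := l2_lim hC hF hζc.isCompact hK' (fun ε hε hε1 z hz w hw =>
    (hc ε hε hε1 z hz w hw).1) hf2 hf0 hg2
  have e1 : ∫ z, f z * g z ∂ν = ∫ z, ζ z * G₁ z * (starRingEnd ℂ) (G₂ z) ∂(Berry.area ρ) := by
    rw [hν]
    refine setIntegral_eq_integral_of_forall_compl_eq_zero fun z hz => ?_
    rw [hf0 z fun h => hz (hKK' h), zero_mul]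
  rw [e1] at hlim
  refine hlim.congr' ?_
  filter_upwards [Ioc_mem_nhdsGT (zero_lt_one' ℝ)] with ε hε
  congr 1
  rw [Measure.prod_restrict, Measure.restrict_restrict (meas_SS hρ)]
  refine (setIntegral_eq_of_subset_of_forall_sdiff_eq_zero (meas_SS hρ) inter_subset_left ?_).symm
  rintro ⟨z, w⟩ ⟨hx, hx'⟩
  by_cases hz : z ∈ K
  · exact (hx' ⟨hx, hKK' hz, (hc ε hε.1 hε.2 z hz w hx).1⟩).elim
  · change f z * g w = 0
    rw [hf0 z hz, zero_mul]

end CRM
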