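import Pool.Agent.CRM.StA
import Pool.Agent.BWM.C19

/-!
Coordinates of close pairs of frames.
-/

open Complex MeasureTheory Filter Topology Set
open UpperHalfPlane hiding I
open scoped ContDiff MatrixGroups

namespace CRM

open QE QE.NC QJ U3 NFP

noncomputable section

namespace CNV

lemma norm_uG_sub (v w : SL(2, ℝ)) : ‖uG v - uG w‖ = ‖dirG w - dirG v‖ := by
  have e : uG v - uG w = Complex.I * (starRingEnd ℂ) (dirG v - dirG w) := by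
    unfold uG
    rw [map_sub]
    ring
  rw [e, norm_mul, Complex.norm_I, one_mul, RCLike.norm_conj, norm_sub_rev]

/-- the size of the denominator -/
lemma q_near (h : SL(2, ℝ)) (ε : ℝ) (hε : 0 < ε) (hε1 : ε ≤ 1 / 4)
    (h1 : FejerN.dsq h ≤ ε ^ 2) : |h 1 0 ^ 2 + h 1 1 ^ 2 - 1| ≤ 2 * ε := by
  have hdet := FejerN.det_eq h
  have hq := FejerN.q_pos h
  have hdd : FejerN.dsq h = h 0 0 ^ 2 + h 0 1 ^ 2 + (h 1 0 ^ 2 + h 1 1 ^ 2) - 2 := by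
    unfold FejerN.dsq
    linear_combination (-2 : ℝ) * hdet
  have e : (h 0 0 ^ 2 + h 0 1 ^ 2) * (h 1 0 ^ 2 + h 1 1 ^ 2) =
      (h 0 0 * h 1 0 + h 0 1 * h 1 1) ^ 2 + 1 := by
    have : (h 0 0 ^ 2 + h 0 1 ^ 2) * (h 1 0 ^ 2 + h 1 1 ^ 2) =
      (h 0 0 * h 1 0 + h 0 1 * h 1 1) ^ 2 + (h 0 0 * h 1 1 - h 0 1 * h 1 0) ^ 2 := by ring
    rw [this, hdet]
    ring
  have hP0 : 0 ≤ h 0 0 ^ 2 + h 0 1 ^ 2 := by positivity
  generalize h 1 0 ^ 2 + h 1 1 ^ 2 = q at *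
  generalize h 0 0 ^ 2 + h 0 1 ^ 2 = P at *
  generalize h 0 0 * h 1 0 + h 0 1 * h 1 1 = u at *
  refine abs_le_of_sq_le_sq ?_ (by linarith)
  have h2 : (q - 1) ^ 2 ≤ q * ε ^ 2 := by
    have h3 : (q - 1) ^ 2 = q * FejerN.dsq h - u ^ 2 := by
      linear_combination (-q) * hdd - e
    have h4 : q * FejerN.dsq h ≤ q * ε ^ 2 := mul_le_mul_of_nonneg_left h1 hq.le
    nlinarith [sq_nonneg u]
  have h5 : q ≤ 4 := by nlinarith
  nlinarith [sq_nonneg ε]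

/-- directions and the lower left entry -/
lemma dir_near (v w : SL(2, ℝ)) (ε : ℝ) (hε : 0 < ε) (hε1 : ε ≤ 1 / 4)
    (h1 : FejerN.dsq (v⁻¹ * w) ≤ ε ^ 2) :
    |(v⁻¹ * w) 1 0| ≤ ‖uG v - uG w‖ + 8 * ε ∧
      ‖uG v - uG w‖ ≤ 4 * |(v⁻¹ * w) 1 0| + 8 * ε := by
  rw [norm_uG_sub]
  set h : SL(2, ℝ) := v⁻¹ * w with hh
  have hw : w = v * h := by rw [hh, mul_inv_cancel_left]
  have hq := q_near h ε hε hε1 h1
  rw [abs_le] at hq
  have hb := FejerN.norm_den_I_pos h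
  have hsq := FejerN.norm_den_I_sq h
  have hD2 : ‖den h Complex.I‖ ≤ 2 := by
    nlinarith only [hsq, hq.2, hε1, hb]
  have hD1 : 1 / 2 ≤ ‖den h Complex.I‖ := by
    nlinarith only [hsq, hq.1, hε1, hb]
  have e1 := FejerN.phase_I_sub_one h
  have hA0 := norm_nonneg (phase h Complex.I - 1)
  have hc1 : |h 1 0| ≤ ‖phase h Complex.I - 1‖ := by
    nlinarith only [e1, hD2, hA0]
  have hc2 : ‖phase h Complex.I - 1‖ ≤ 4 * |h 1 0| := by
    nlinarith only [e1, hD1, hA0]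
  -- the point `h • i` is close to `i`
  have hz : ‖((h • UpperHalfPlane.I : ℍ) : ℂ) - Complex.I‖ ≤ 2 * ε := by
    have e := FejerN.dsq_eq h
    have h5 : ‖((h • UpperHalfPlane.I : ℍ) : ℂ) - Complex.I‖ ^ 2 ≤ (2 * ε) ^ 2 := by
      have h6 : ‖((h • UpperHalfPlane.I : ℍ) : ℂ) - Complex.I‖ ^ 2 * (1 / 3) ≤ FejerN.dsq h := by
        rw [e]
        exact mul_le_mul_of_nonneg_left (by linarith) (sq_nonneg _)
      nlinarith only [h1, h6]
    exact le_of_sq_le_sq h5 (by positivity)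
  have hden : den v ((h • UpperHalfPlane.I : ℍ) : ℂ) ≠ 0 := by
    intro h0
    have := FejerN.den_mul_I v h
    rw [h0, zero_mul] at this
    exact (norm_pos_iff.1 (FejerN.norm_den_I_pos (v * h))) this
  have hB := FejerN.phase_sub_le v ((h • UpperHalfPlane.I : ℍ) : ℂ) hden
  have e3 : dirG w - dirG v = Complex.I *
      (phase v ((h • UpperHalfPlane.I : ℍ) : ℂ) * (phase h Complex.I - 1) +
        (phase v ((h • UpperHalfPlane.I : ℍ) : ℂ) - phase v Complex.I)) := by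
    unfold dirG
    rw [hw, FejerN.phase_mul_I]
    ring
  rw [e3, norm_mul, Complex.norm_I, one_mul]
  have h7 : ‖phase v ((h • UpperHalfPlane.I : ℍ) : ℂ) * (phase h Complex.I - 1)‖ -
      ‖phase v ((h • UpperHalfPlane.I : ℍ) : ℂ) - phase v Complex.I‖ ≤
      ‖phase v ((h • UpperHalfPlane.I : ℍ) : ℂ) * (phase h Complex.I - 1) +
        (phase v ((h • UpperHalfPlane.I : ℍ) : ℂ) - phase v Complex.I)‖ := by
    have := norm_sub_norm_le (phase v ((h • UpperHalfPlane.I : ℍ) : ℂ) * (phase h Complex.I - 1))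
      (-(phase v ((h • UpperHalfPlane.I : ℍ) : ℂ) - phase v Complex.I))
    rw [norm_neg, sub_neg_eq_add] at this
    exact this
  have h8 := norm_add_le (phase v ((h • UpperHalfPlane.I : ℍ) : ℂ) * (phase h Complex.I - 1))
    (phase v ((h • UpperHalfPlane.I : ℍ) : ℂ) - phase v Complex.I)
  rw [norm_mul, FejerN.norm_phase hden, one_mul] at h7 h8
  constructor <;> linarith

/-- the two signs -/
lemma exists_sign (v w : SL(2, ℝ)) : ∃ w' : SL(2, ℝ), (w' = w ∨ w' = -w) ∧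
    0 ≤ (v⁻¹ * w') 1 1 ∧ |(v⁻¹ * w') 1 0| = |(v⁻¹ * w) 1 0| ∧
    |(v⁻¹ * w') 0 0 - (v⁻¹ * w') 1 1| = |(v⁻¹ * w) 0 0 - (v⁻¹ * w) 1 1| ∧
    |(v⁻¹ * w') 0 1 + (v⁻¹ * w') 1 0| = |(v⁻¹ * w) 0 1 + (v⁻¹ * w) 1 0| ∧
    (v⁻¹ * w') 1 0 ^ 2 + (v⁻¹ * w') 1 1 ^ 2 = (v⁻¹ * w) 1 0 ^ 2 + (v⁻¹ * w) 1 1 ^ 2 := by
  rcases le_total 0 ((v⁻¹ * w) 1 1) with h | h
  · exact ⟨w, Or.inl rfl, h, rfl, rfl, rfl, rfl⟩
  · refine ⟨-w, Or.inr rfl, ?_⟩
    have e : ∀ i j : Fin 2, (v⁻¹ * -w) i j = -((v⁻¹ * w) i j) := by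
      intro i j
      rw [mul_neg, Matrix.SpecialLinearGroup.coe_neg]
      rfl
    rw [e, e, e, e]
    refine ⟨by linarith, abs_neg _, ?_, ?_, by ring⟩
    · rw [← abs_neg]; congr 1; ring
    · rw [← abs_neg]; congr 1; ring

end CNV

theorem t_CNV (hL : NC.StmtLip) : StmtCnv := by
  intro Γ ρ hρ r hr
  obtain ⟨-, -, -, -, -, B, L, hB, -, hB1, hB2, hB3, -⟩ := hL Γ ρ hρ
  refine ⟨20 + 4 * B + Real.exp B, min (1 / 100) (r / 100), by positivity, by positivity, ?_⟩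
  intro ε v w hε hεa hd hθ
  have hε1 : ε ≤ 1 / 100 := hεa.trans (min_le_left _ _)
  have hεr : ε ≤ r / 100 := hεa.trans (min_le_right _ _)
  have hθ1 : ‖uG v - uG w‖ ≤ 1 / 100 := hθ.trans (min_le_left _ _)
  have hθr : ‖uG v - uG w‖ ≤ r / 100 := hθ.trans (min_le_right _ _)
  have hθ0 := norm_nonneg (uG v - uG w)
  -- the invariant form of the hypothesis
  have hds : FejerN.dsq (v⁻¹ * w) ≤ ε ^ 2 := by
    have e := FejerN.dsq_inv_mul v w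
    have p1 := (v • UpperHalfPlane.I : ℍ).im_pos
    have p2 := (w • UpperHalfPlane.I : ℍ).im_pos
    have e2 : FejerN.dsq (v⁻¹ * w) *
        ((v • UpperHalfPlane.I : ℍ).im * (w • UpperHalfPlane.I : ℍ).im) ≤
        ε ^ 2 * ((v • UpperHalfPlane.I : ℍ).im * (w • UpperHalfPlane.I : ℍ).im) := by
      rw [e]
      exact hd
    exact le_of_mul_le_mul_right e2 (mul_pos p1 p2)
  obtain ⟨hc1, hc2⟩ := CNV.dir_near v w ε hε (by linarith) hds
  have hq := CNV.q_near (v⁻¹ * w) ε hε (by linarith) hds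
  have hxe : |(v⁻¹ * w) 0 1 + (v⁻¹ * w) 1 0| ≤ ε := by
    refine abs_le_of_sq_le_sq ?_ hε.le
    unfold FejerN.dsq at hds
    linarith only [hds, sq_nonneg ((v⁻¹ * w) 0 0 - (v⁻¹ * w) 1 1)]
  have hte : |(v⁻¹ * w) 0 0 - (v⁻¹ * w) 1 1| ≤ ε := by
    refine abs_le_of_sq_le_sq ?_ hε.le
    unfold FejerN.dsq at hds
    linarith only [hds, sq_nonneg ((v⁻¹ * w) 0 1 + (v⁻¹ * w) 1 0)]
  obtain ⟨w', hw', s1, s2, s3, s4, s5⟩ := CNV.exists_sign v w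
  rw [← s2] at hc1 hc2
  rw [← s5] at hq
  rw [← s4] at hxe
  rw [← s3] at hte
  refine ⟨w', hw', ?_⟩
  unfold dd nn xx tt yy
  set h : SL(2, ℝ) := v⁻¹ * w' with hh
  have hexp : Real.exp (ρ (v • UpperHalfPlane.I)) ≤ Real.exp B :=
    Real.exp_le_exp.2 ((le_abs_self _).trans (hB1 _))
  have hexp0 := Real.exp_pos (ρ (v • UpperHalfPlane.I))
  have hPr := hB2 v
  have hHr := hB3 v
  generalize Real.exp (ρ (v • UpperHalfPlane.I)) = E at *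
  generalize Pr ρ v = p at *
  generalize Hr ρ v = k at *
  generalize ‖uG v - uG w‖ = θ at *
  have hyy : |h 1 0 - h 0 1 - (h 0 0 - h 1 1) * p + (h 0 1 + h 1 0) * k - 2 * h 1 0|
      ≤ (1 + 2 * B) * ε := by
    have e : h 1 0 - h 0 1 - (h 0 0 - h 1 1) * p + (h 0 1 + h 1 0) * k - 2 * h 1 0 =
        -(h 0 1 + h 1 0) + (-(h 0 0 - h 1 1) * p + (h 0 1 + h 1 0) * k) := by ring
    have a1 : |-(h 0 0 - h 1 1) * p| ≤ ε * B := by
      rw [abs_mul, abs_neg]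
      exact mul_le_mul hte hPr (abs_nonneg _) hε.le
    have a2 : |(h 0 1 + h 1 0) * k| ≤ ε * B := by
      rw [abs_mul]
      exact mul_le_mul hxe hHr (abs_nonneg _) hε.le
    have a3 := abs_add_le (-(h 0 1 + h 1 0)) (-(h 0 0 - h 1 1) * p + (h 0 1 + h 1 0) * k)
    have a4 := abs_add_le (-(h 0 0 - h 1 1) * p) ((h 0 1 + h 1 0) * k)
    rw [abs_neg] at a3
    rw [e]
    linarith
  have hc0 := abs_nonneg (h 1 0)
  have hcs : |h 1 0| ^ 2 = h 1 0 ^ 2 := sq_abs _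
  have hB0 : 0 ≤ Real.exp B := (Real.exp_pos B).le
  have hd1 : |h 1 1 - 1| ≤ 2 * ε + |h 1 0| ^ 2 := by
    have a1 : |h 1 1 ^ 2 - 1| ≤ 2 * ε + |h 1 0| ^ 2 := by
      have := abs_sub (h 1 0 ^ 2 + h 1 1 ^ 2 - 1) (h 1 0 ^ 2)
      rw [show h 1 0 ^ 2 + h 1 1 ^ 2 - 1 - h 1 0 ^ 2 = h 1 1 ^ 2 - 1 by ring,
        abs_of_nonneg (sq_nonneg (h 1 0))] at this
      linarith
    have a2 : |h 1 1 - 1| * (h 1 1 + 1) = |h 1 1 ^ 2 - 1| := by
      rw [show h 1 1 ^ 2 - 1 = (h 1 1 - 1) * (h 1 1 + 1) by ring, abs_mul,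
        abs_of_nonneg (by linarith : 0 ≤ h 1 1 + 1)]
    have a3 := abs_nonneg (h 1 1 - 1)
    nlinarith
  have ha1 : |h 0 0 - 1| ≤ ε + |h 1 1 - 1| := by
    have := abs_add_le (h 0 0 - h 1 1) (h 1 1 - 1)
    rw [show h 0 0 - h 1 1 + (h 1 1 - 1) = h 0 0 - 1 by ring] at this
    linarith
  have hb1 : |h 0 1| ≤ ε + |h 1 0| := by
    have := abs_sub (h 0 1 + h 1 0) (h 1 0)
    rw [show h 0 1 + h 1 0 - h 1 0 = h 0 1 by ring] at this
    linarith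
  have hcq : |h 1 0| ^ 2 ≤ |h 1 0| := by nlinarith
  refine ⟨by nlinarith, ?_, ?_, ?_, ?_⟩
  · rw [abs_mul, abs_of_pos hexp0]
    calc E * |h 0 1 + h 1 0| ≤ Real.exp B * ε := mul_le_mul hexp hxe (abs_nonneg _) hB0
      _ ≤ _ := mul_le_mul_of_nonneg_right (by linarith) hε.le
  · rw [abs_mul, abs_of_pos hexp0]
    calc E * |h 0 0 - h 1 1| ≤ Real.exp B * ε := mul_le_mul hexp hte (abs_nonneg _) hB0
      _ ≤ _ := mul_le_mul_of_nonneg_right (by linarith) hε.le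
  · have a1 := abs_add_le (h 1 0 - h 0 1 - (h 0 0 - h 1 1) * p + (h 0 1 + h 1 0) * k - 2 * h 1 0)
      (2 * h 1 0)
    rw [sub_add_cancel, abs_mul 2, abs_two] at a1
    have a2 : |h 1 0 - h 0 1 - (h 0 0 - h 1 1) * p + (h 0 1 + h 1 0) * k| ≤
        2 * θ + (17 + 2 * B) * ε := by linarith
    have a3 : 0 ≤ B * θ := mul_nonneg hB hθ0
    have a4 : 0 ≤ B * ε := mul_nonneg hB hε.le
    have a5 : 0 ≤ Real.exp B * (θ + ε) := mul_nonneg hB0 (by linarith)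
    nlinarith
  · generalize hy : h 1 0 - h 0 1 - (h 0 0 - h 1 1) * p + (h 0 1 + h 1 0) * k = y at *
    have a1 := abs_sub y (y - 2 * h 1 0)
    rw [sub_sub_cancel, abs_mul 2, abs_two] at a1
    have a0 := abs_nonneg y
    have a2 : θ ≤ 2 * |y| + (10 + 4 * B) * ε := by linarith
    have a3 : 0 ≤ B * |y| := mul_nonneg hB a0
    have a4 : 0 ≤ B * ε := mul_nonneg hB hε.le
    have a5 : 0 ≤ Real.exp B * (|y| + ε) := mul_nonneg hB0 (by linarith)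
    nlinarith

end

end CRM
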