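import Pool.Agent.CRM.StQ
import Pool.Agent.CRM.RSZ
import Pool.Agent.NFP.Ident

/-!
# CRS: the crossing measure of a measure with a square integrable density
-/

set_option autoImplicit false

open Complex MeasureTheory Filter Topology Set
open UpperHalfPlane hiding I
open scoped ContDiff MatrixGroups ProbabilityTheory ENNReal

namespace CRM

open QE QE.NC QJ U3 NFP

noncomputable section

namespace CRS

/-- linearity of `X4` -/
lemma int_X4 {α : Type*} [MeasurableSpace α] {m : Measure α} {f : ℤ → α → ℂ}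
    (hf : ∀ j, Integrable (f j) m) (k : ℤ) :
    ∫ a, IDENT.X4 (fun j => f j a) k ∂m = IDENT.X4 (fun j => ∫ a, f j a ∂m) k := by
  change ∫ a, (2 * f k a - f (k + 2) a - f (k - 2) a) / 4 ∂m
    = (2 * (∫ a, f k a ∂m) - (∫ a, f (k + 2) a ∂m) - ∫ a, f (k - 2) a ∂m) / 4
  rw [integral_div, integral_sub, integral_sub, integral_const_mul]
  · exact (hf k).const_mul 2
  · exact hf _
  · exact ((hf k).const_mul 2).sub (hf (k + 2))
  · exact hf _

section

variable {ρ : ℍ → ℝ} {s : ProbabilityTheory.Kernel ℍ S1}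

/-- the mass is locally square integrable -/
def SqI (ρ : ℍ → ℝ) (s : ProbabilityTheory.Kernel ℍ S1) : Prop :=
  ∀ K : Set ℍ, IsCompact K → IntegrableOn (fun z => (s z univ).toReal ^ 2) K (Berry.area ρ)

lemma mass_fin (hs : ∀ z, IsFiniteMeasure (s z)) (hq : SqI ρ s) {K : Set ℍ} (hK : IsCompact K) :
    ∫⁻ z in K, (s z univ) ^ 2 ∂(Berry.area ρ) < ⊤ := by
  have h1 := (hq K hK).2
  rw [hasFiniteIntegral_iff_norm] at h1
  refine lt_of_eq_of_lt (lintegral_congr fun z => ?_) h1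
  rw [Real.norm_of_nonneg (sq_nonneg _), ENNReal.ofReal_pow ENNReal.toReal_nonneg,
    ENNReal.ofReal_toReal (measure_ne_top _ _)]

lemma area_fin (hρ : Continuous ρ) {K : Set ℍ} (hK : IsCompact K) : Berry.area ρ K < ⊤ := by
  obtain ⟨C, hC⟩ := (hK.image (Real.continuous_exp.comp (continuous_const.mul hρ) :
    Continuous fun z => Real.exp (2 * ρ z))).bddAbove
  rw [Berry.area, withDensity_apply _ hK.measurableSet]
  calc ∫⁻ z in K, ENNReal.ofReal (Real.exp (2 * ρ z)) ∂(volume : Measure ℍ)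
      ≤ ∫⁻ _ in K, ENNReal.ofReal C ∂(volume : Measure ℍ) := by
        refine setLIntegral_mono measurable_const fun z hz => ?_
        exact ENNReal.ofReal_le_ofReal (hC (mem_image_of_mem _ hz))
    _ = ENNReal.ofReal C * volume K := by rw [setLIntegral_const]
    _ < ⊤ := ENNReal.mul_lt_top ENNReal.ofReal_lt_top hK.measure_lt_top

lemma ms_meas : Measurable fun z => (s z univ).toReal :=
  (s.measurable_coe MeasurableSet.univ).ennreal_toReal

lemma ms_int (hρ : Continuous ρ) (hq : SqI ρ s) {K : Set ℍ} (hK : IsCompact K) :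
    IntegrableOn (fun z => (s z univ).toReal) K (Berry.area ρ) := by
  have h1 : IntegrableOn (fun z => (1 : ℝ) + (s z univ).toReal ^ 2) K (Berry.area ρ) :=
    (integrableOn_const (area_fin hρ hK).ne).add (hq K hK)
  refine h1.mono' ms_meas.aestronglyMeasurable (Eventually.of_forall fun z => ?_)
  rw [Real.norm_of_nonneg ENNReal.toReal_nonneg]
  have h2 : 0 ≤ (s z univ).toReal := ENNReal.toReal_nonneg
  nlinarith [sq_nonneg ((s z univ).toReal - 1)]

lemma finK (hρ : Continuous ρ) (hs : ∀ z, IsFiniteMeasure (s z)) (hq : SqI ρ s) :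
    FinK ((Berry.area ρ) ⊗ₘ s) := by
  have := STRUCT.sfinite s fun z => measure_lt_top _ _
  intro K hK
  rw [Measure.compProd_apply_prod hK.measurableSet MeasurableSet.univ]
  have h1 := (ms_int hρ hq hK).2
  rw [hasFiniteIntegral_iff_norm] at h1
  refine lt_of_eq_of_lt (lintegral_congr fun z => ?_) h1
  rw [Real.norm_of_nonneg ENNReal.toReal_nonneg, ENNReal.ofReal_toReal (measure_ne_top _ _)]

/-! ### The moments of `crossS` -/

lemma int_Fk (hs : ∀ z, IsFiniteMeasure (s z)) (hq : SqI ρ s)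
    {ζ : ℂ → ℂ} (hζ : Test UH ζ) (k : ℤ) : Integrable (IDENT.Fk ζ k) (IDENT.pm ρ s) := by
  have hK : IsCompact (UpperHalfPlane.coe ⁻¹' tsupport ζ) := IDENT.cpt_pre hζ.supp hζ.sub
  obtain ⟨C, hC⟩ := hζ.smooth.continuous.bounded_above_of_compact_support hζ.supp
  have h1 : IntegrableOn (IDENT.Fk ζ k)
      (((UpperHalfPlane.coe ⁻¹' tsupport ζ) ×ˢ univ) ×ˢ univ) (IDENT.pm ρ s) := by
    refine Measure.integrableOn_of_bounded (M := C) ?_
      (IDENT.cont_Fk hζ k).measurable.aestronglyMeasurable ?_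
    · rw [IDENT.pm_pre hs hK.measurableSet]
      exact (mass_fin hs hq hK).ne
    · refine Eventually.of_forall fun p => ?_
      unfold IDENT.Fk
      rw [norm_mul, norm_mul, STRUCT.norm_zp, mul_one, Complex.norm_real,
        Real.norm_of_nonneg (sq_nonneg _)]
      calc ‖ζ p.1.1‖ * ((p.1.2 / p.2 : S1) : ℂ).im ^ 2 ≤ ‖ζ p.1.1‖ * 1 :=
            mul_le_mul_of_nonneg_left (IDENT.im_sq_le _) (norm_nonneg _)
        _ ≤ C := by
            rw [mul_one]
            exact hC _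
  refine (integrableOn_iff_integrable_of_support_subset ?_).1 h1
  intro p hp
  refine ⟨⟨?_, mem_univ _⟩, mem_univ _⟩
  refine subset_tsupport _ fun h0 => hp ?_
  unfold IDENT.Fk
  rw [h0, zero_mul]

/-- the moments of `crossS` -/
lemma crossS_mom (hs : ∀ z, IsFiniteMeasure (s z)) (hq : SqI ρ s)
    {ζ : ℂ → ℂ} (hζ : Test UH ζ) (k : ℤ) :
    ∫ p : ℍ × S1, ζ p.1 * (p.2 : ℂ) ^ k ∂(crossS ρ s)
      = ∫ z : ℍ, ζ z * IDENT.X4 (IDENT.cc (s z)) k ∂(Berry.area ρ) := by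
  have hsf := STRUCT.sfinite s fun z => measure_lt_top _ _
  have e : crossS ρ s = Measure.map IDENT.qq ((IDENT.pm ρ s).withDensity
    fun p => ENNReal.ofReal (((p.1.2 / p.2 : S1) : ℂ).im ^ 2)) := rfl
  rw [e, integral_map IDENT.cont_qq.measurable.aemeasurable
      (IDENT.cont_mom hζ k).aestronglyMeasurable,
    integral_withDensity_eq_integral_toReal_smul IDENT.cont_im.measurable.ennreal_ofReal
      (Eventually.of_forall fun p => ENNReal.ofReal_lt_top)]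
  have e1 : ∀ p : (ℍ × S1) × S1, (ENNReal.ofReal (((p.1.2 / p.2 : S1) : ℂ).im ^ 2)).toReal •
      (ζ (IDENT.qq p).1 * ((IDENT.qq p).2 : ℂ) ^ k) = IDENT.Fk ζ k p := by
    intro p
    rw [ENNReal.toReal_ofReal (sq_nonneg _), Complex.real_smul]
    unfold IDENT.Fk IDENT.qq
    ring
  simp only [e1]
  have hF := int_Fk hs hq hζ k
  unfold IDENT.pm at hF ⊢
  rw [Measure.integral_compProd hF]
  have hF2 : Integrable (fun q : ℍ × S1 => ∫ w', IDENT.Fk ζ k (q, w')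
      ∂((s.comap Prod.fst measurable_fst : ProbabilityTheory.Kernel (ℍ × S1) S1) q))
      ((Berry.area ρ) ⊗ₘ s) := by
    have h1 := hF.integral_compProd
    exact h1
  rw [Measure.integral_compProd hF2]
  refine integral_congr_ae (Eventually.of_forall fun z => ?_)
  have := hs z
  beta_reduce
  rw [← IDENT.int_dir, ← integral_const_mul]
  refine integral_congr_ae (Eventually.of_forall fun w => ?_)
  beta_reduce
  rw [← integral_const_mul]
  rfl

/-! ### The double integrals -/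

/-- the pairs of close points -/
def cl (ρ : ℍ → ℝ) (ε : ℝ) : Set (ℍ × ℍ) :=
  {x | Real.exp (ρ x.1 + ρ x.2) * ‖(x.1 : ℂ) - (x.2 : ℂ)‖ ^ 2 < ε ^ 2 * (x.1.im * x.2.im)}

lemma cl_meas (hρ : Continuous ρ) (ε : ℝ) : MeasurableSet (cl ρ ε) := by
  refine (isOpen_lt ?_ ?_).measurableSet
  · refine (Real.continuous_exp.comp ((hρ.comp continuous_fst).add
      (hρ.comp continuous_snd))).mul (Continuous.pow (Continuous.norm ?_) 2)
    exact (UpperHalfPlane.continuous_coe.comp continuous_fst).sub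
      (UpperHalfPlane.continuous_coe.comp continuous_snd)
  · exact continuous_const.mul ((UpperHalfPlane.continuous_im.comp continuous_fst).mul
      (UpperHalfPlane.continuous_im.comp continuous_snd))

/-- the indicator function of the close pairs -/
def ic (ρ : ℍ → ℝ) (ε : ℝ) (z z' : ℍ) : ℂ := (cl ρ ε).indicator (fun _ => 1) (z, z')

lemma ic_meas (hρ : Continuous ρ) (ε : ℝ) : Measurable fun x : ℍ × ℍ => ic ρ ε x.1 x.2 :=
  measurable_const.indicator (cl_meas hρ ε)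

lemma norm_ic (ε : ℝ) (z z' : ℍ) : ‖ic ρ ε z z'‖ ≤ 1 := by
  unfold ic
  by_cases h : (z, z') ∈ cl ρ ε
  · rw [indicator_of_mem h]
    simp
  · rw [indicator_of_notMem h]
    simp

lemma ic_zero {ε : ℝ} {z z' : ℍ} (h : (z, z') ∉ cl ρ ε) : ic ρ ε z z' = 0 := by
  unfold ic
  rw [indicator_of_notMem h]

/-- the properties used -/
structure Dt (ρ : ℍ → ℝ) (s : ProbabilityTheory.Kernel ℍ S1) (ε : ℝ) (g : ℍ → ℂ)
    (C : ℝ) (K K' : Set ℍ) : Prop where
  cont : Continuous ρ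
  fin : ∀ z, IsFiniteMeasure (s z)
  sq : SqI ρ s
  meas : Measurable g
  bd : ∀ z, ‖g z‖ ≤ C
  cptK : IsCompact K
  cptK' : IsCompact K'
  supp : ∀ z, z ∉ K → g z = 0
  clo : ∀ z z', (z, z') ∈ cl ρ ε → z ∈ K → z' ∈ K'

variable {ε : ℝ} {g : ℍ → ℂ} {C : ℝ} {K K' : Set ℍ}

lemma Dt.C0 (D : Dt ρ s ε g C K K') : 0 ≤ C := (norm_nonneg _).trans (D.bd UpperHalfPlane.I)

/-- the integrand on pairs of points with directions -/
def B (ρ : ℍ → ℝ) (ε : ℝ) (g : ℍ → ℂ) (j : ℤ) (x : (ℍ × S1) × (ℍ × S1)) : ℂ :=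
  ic ρ ε x.1.1 x.2.1 * (g x.1.1 * ((x.1.2 : ℂ) ^ j * (x.2.2 : ℂ) ^ (-j)))

lemma B_meas (D : Dt ρ s ε g C K K') (j : ℤ) : Measurable (B ρ ε g j) := by
  unfold B
  refine Measurable.mul ?_ (Measurable.mul ?_ (Measurable.mul ?_ ?_))
  · exact (ic_meas D.cont ε).comp ((measurable_fst.comp measurable_fst).prodMk
      (measurable_fst.comp measurable_snd))
  · exact D.meas.comp (measurable_fst.comp measurable_fst)
  · exact (STRUCT.cont_zpow j).measurable.comp (measurable_snd.comp measurable_fst)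
  · exact (STRUCT.cont_zpow (-j)).measurable.comp (measurable_snd.comp measurable_snd)

lemma B_int (D : Dt ρ s ε g C K K') (j : ℤ) :
    Integrable (B ρ ε g j) (((Berry.area ρ) ⊗ₘ s).prod ((Berry.area ρ) ⊗ₘ s)) := by
  have hfk := finK D.cont D.fin D.sq
  have hsig := RSZ.sigma hfk
  have h1 : IntegrableOn (B ρ ε g j) ((K ×ˢ (univ : Set S1)) ×ˢ (K' ×ˢ (univ : Set S1)))
      (((Berry.area ρ) ⊗ₘ s).prod ((Berry.area ρ) ⊗ₘ s)) := by
    refine Measure.integrableOn_of_bounded (M := C) ?_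
      (B_meas D j).aestronglyMeasurable ?_
    · rw [Measure.prod_prod]
      exact (ENNReal.mul_lt_top (hfk _ D.cptK) (hfk _ D.cptK')).ne
    · refine Eventually.of_forall fun x => ?_
      unfold B
      rw [norm_mul, norm_mul, norm_mul, STRUCT.norm_zp, STRUCT.norm_zp, mul_one, mul_one]
      calc ‖ic ρ ε x.1.1 x.2.1‖ * ‖g x.1.1‖ ≤ 1 * C :=
            mul_le_mul (norm_ic _ _ _) (D.bd _) (norm_nonneg _) zero_le_one
        _ = C := one_mul _
  refine (integrableOn_iff_integrable_of_support_subset ?_).1 h1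
  intro x hx
  have hx1 : (x.1.1, x.2.1) ∈ cl ρ ε := by
    by_contra hh
    apply hx
    unfold B
    rw [ic_zero hh, zero_mul]
  have hx2 : x.1.1 ∈ K := by
    by_contra hh
    apply hx
    unfold B
    rw [D.supp _ hh, zero_mul, mul_zero]
  exact ⟨⟨hx2, mem_univ _⟩, ⟨D.clo _ _ hx1 hx2, mem_univ _⟩⟩

/-- the integrand on pairs of points -/
def T (ρ : ℍ → ℝ) (s : ProbabilityTheory.Kernel ℍ S1) (ε : ℝ) (g : ℍ → ℂ) (j : ℤ)
    (x : ℍ × ℍ) : ℂ :=
  ic ρ ε x.1 x.2 * (g x.1 * cof (s x.1) (-j) * cof (s x.2) j)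

lemma T_int (D : Dt ρ s ε g C K K') (j : ℤ) :
    Integrable (T ρ s ε g j) ((Berry.area ρ).prod (Berry.area ρ)) := by
  have hm : ∀ {L : Set ℍ}, IsCompact L →
      Integrable (L.indicator fun z => (s z univ).toReal) (Berry.area ρ) := by
    intro L hL
    exact (integrable_indicator_iff hL.measurableSet).2 (ms_int D.cont D.sq hL)
  have h1 := ((hm D.cptK).mul_prod (hm D.cptK')).const_mul C
  refine h1.mono' ?_ (Eventually.of_forall fun x => ?_)
  · refine Measurable.aestronglyMeasurable ?_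
    unfold T
    refine (ic_meas D.cont ε).mul (Measurable.mul (Measurable.mul ?_ ?_) ?_)
    · exact D.meas.comp measurable_fst
    · exact (STRUCT.meas_cof s (-j)).comp measurable_fst
    · exact (STRUCT.meas_cof s j).comp measurable_snd
  · by_cases hx1 : (x.1, x.2) ∈ cl ρ ε
    · by_cases hx2 : x.1 ∈ K
      · rw [indicator_of_mem hx2, indicator_of_mem (D.clo _ _ hx1 hx2)]
        unfold T
        rw [norm_mul, norm_mul, norm_mul]
        have a1 := norm_ic (ρ := ρ) ε x.1 x.2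
        have a2 := D.bd x.1
        have a3 := STRUCT.norm_cof (s x.1) (-j)
        have a4 := STRUCT.norm_cof (s x.2) j
        have hC := D.C0
        calc ‖ic ρ ε x.1 x.2‖ * (‖g x.1‖ * ‖cof (s x.1) (-j)‖ * ‖cof (s x.2) j‖)
            ≤ 1 * (C * (s x.1 univ).toReal * (s x.2 univ).toReal) := by gcongr
          _ = C * ((s x.1 univ).toReal * (s x.2 univ).toReal) := by ring
      · unfold T
        rw [D.supp _ hx2, zero_mul, zero_mul, mul_zero, norm_zero, indicator_of_notMem hx2,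
          zero_mul, mul_zero]
    · unfold T
      rw [ic_zero hx1, zero_mul, norm_zero]
      refine mul_nonneg D.C0 (mul_nonneg ?_ ?_)
      · exact indicator_nonneg (fun _ _ => ENNReal.toReal_nonneg) _
      · exact indicator_nonneg (fun _ _ => ENNReal.toReal_nonneg) _

/-- Fubini -/
lemma B_eq (D : Dt ρ s ε g C K K') (j : ℤ) :
    ∫ x, B ρ ε g j x ∂(((Berry.area ρ) ⊗ₘ s).prod ((Berry.area ρ) ⊗ₘ s))
      = ∫ x, T ρ s ε g j x ∂((Berry.area ρ).prod (Berry.area ρ)) := by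
  have hsf := STRUCT.sfinite s fun z => (D.fin z).measure_univ_lt_top
  have hfk := finK D.cont D.fin D.sq
  have hsig := RSZ.sigma hfk
  have hB := B_int D j
  rw [integral_prod _ hB, integral_prod _ (T_int D j)]
  have e1 : ∀ᵐ p ∂((Berry.area ρ) ⊗ₘ s), ∫ q, B ρ ε g j (p, q) ∂((Berry.area ρ) ⊗ₘ s)
      = (p.2 : ℂ) ^ j * (g p.1 * ∫ z', ic ρ ε p.1 z' * cof (s z') j ∂(Berry.area ρ)) := by
    filter_upwards [hB.prod_right_ae] with p hp
    rw [Measure.integral_compProd hp, ← integral_const_mul, ← integral_const_mul]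
    refine integral_congr_ae (Eventually.of_forall fun z' => ?_)
    change ∫ b : S1, ic ρ ε p.1 z' * (g p.1 * ((p.2 : ℂ) ^ j * (b : ℂ) ^ (-j))) ∂(s z')
      = (p.2 : ℂ) ^ j * (g p.1 * (ic ρ ε p.1 z' * cof (s z') j))
    rw [integral_const_mul, integral_const_mul, integral_const_mul]
    change ic ρ ε p.1 z' * (g p.1 * ((p.2 : ℂ) ^ j * cof (s z') j)) = _
    ring
  rw [integral_congr_ae e1]
  have hI : Integrable (fun p : ℍ × S1 =>
      (p.2 : ℂ) ^ j * (g p.1 * ∫ z', ic ρ ε p.1 z' * cof (s z') j ∂(Berry.area ρ)))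
      ((Berry.area ρ) ⊗ₘ s) := hB.integral_prod_left.congr e1
  rw [Measure.integral_compProd hI]
  refine integral_congr_ae (Eventually.of_forall fun z => ?_)
  change ∫ b : S1, (b : ℂ) ^ j * (g z * ∫ z', ic ρ ε z z' * cof (s z') j ∂(Berry.area ρ)) ∂(s z)
    = ∫ y, T ρ s ε g j (z, y) ∂(Berry.area ρ)
  rw [integral_mul_const]
  have e2 : ∫ w : S1, (w : ℂ) ^ j ∂(s z) = cof (s z) (-j) := by
    unfold cof
    rw [neg_neg]
  rw [e2, ← integral_const_mul, ← integral_const_mul]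
  refine integral_congr_ae (Eventually.of_forall fun z' => ?_)
  unfold T
  ring

lemma conj_cof (m : Measure S1) (j : ℤ) : (starRingEnd ℂ) (cof m (-j)) = cof m j := by
  unfold cof
  rw [← integral_conj]
  refine integral_congr_ae (Eventually.of_forall fun w => ?_)
  beta_reduce
  rw [map_zpow₀, IDENT.conj_eq_inv, inv_zpow, neg_neg, zpow_neg]

lemma Y_int (D : Dt ρ s ε g C K K') (j : ℤ) :
    IntegrableOn (fun x : (ℍ × S1) × (ℍ × S1) => g x.1.1 * ((x.1.2 : ℂ) ^ j * (x.2.2 : ℂ) ^ (-j)))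
      (clo ρ ε) (((Berry.area ρ) ⊗ₘ s).prod ((Berry.area ρ) ⊗ₘ s)) := by
  rw [← integrable_indicator_iff (RSZ.isOpen_clo D.cont ε).measurableSet]
  refine (B_int D j).congr (Eventually.of_forall fun x => ?_)
  beta_reduce
  unfold B
  by_cases hx : (x.1.1, x.2.1) ∈ cl ρ ε
  · rw [indicator_of_mem (show x ∈ clo ρ ε from hx)]
    unfold ic
    rw [indicator_of_mem hx, one_mul]
  · rw [indicator_of_notMem (show x ∉ clo ρ ε from hx), ic_zero hx, zero_mul]

lemma Y_eq (D : Dt ρ s ε g C K K') (j : ℤ) :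
    ∫ x in clo ρ ε, g x.1.1 * ((x.1.2 : ℂ) ^ j * (x.2.2 : ℂ) ^ (-j))
        ∂(((Berry.area ρ) ⊗ₘ s).prod ((Berry.area ρ) ⊗ₘ s))
      = ∫ x in cl ρ ε, g x.1 * cof (s x.1) (-j) * (starRingEnd ℂ) (cof (s x.2) (-j))
        ∂((Berry.area ρ).prod (Berry.area ρ)) := by
  rw [← integral_indicator (RSZ.isOpen_clo D.cont ε).measurableSet,
    ← integral_indicator (cl_meas D.cont ε)]
  have e1 : (clo ρ ε).indicator (fun x : (ℍ × S1) × (ℍ × S1) =>
      g x.1.1 * ((x.1.2 : ℂ) ^ j * (x.2.2 : ℂ) ^ (-j))) = B ρ ε g j := by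
    funext x
    unfold B
    by_cases hx : (x.1.1, x.2.1) ∈ cl ρ ε
    · rw [indicator_of_mem (show x ∈ clo ρ ε from hx)]
      unfold ic
      rw [indicator_of_mem hx, one_mul]
    · rw [indicator_of_notMem (show x ∉ clo ρ ε from hx), ic_zero hx, zero_mul]
  have e2 : (cl ρ ε).indicator (fun x : ℍ × ℍ =>
      g x.1 * cof (s x.1) (-j) * (starRingEnd ℂ) (cof (s x.2) (-j))) = T ρ s ε g j := by
    funext x
    unfold T
    by_cases hx : (x.1, x.2) ∈ cl ρ ε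
    · rw [indicator_of_mem (show x ∈ cl ρ ε from hx), conj_cof]
      unfold ic
      rw [indicator_of_mem hx, one_mul]
    · rw [indicator_of_notMem (show x ∉ cl ρ ε from hx), ic_zero hx, zero_mul]
  rw [e1, e2]
  exact B_eq D j

lemma X4_mul (c : ℂ) (f : ℤ → ℂ) (k : ℤ) :
    c * IDENT.X4 f k = IDENT.X4 (fun j => c * f j) k := by
  unfold IDENT.X4
  ring

lemma X4_lim {l : Filter ℝ} {f : ℝ → ℤ → ℂ} {y : ℤ → ℂ}
    (h : ∀ j, Tendsto (fun ε => f ε j) l (𝓝 (y j))) (k : ℤ) :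
    Tendsto (fun ε => IDENT.X4 (f ε) k) l (𝓝 (IDENT.X4 y k)) := by
  unfold IDENT.X4
  exact ((((h k).const_mul 2).sub (h (k + 2))).sub (h (k - 2))).div_const 4

/-- the integrand on pairs of directions -/
lemma sin_pair (w w' : S1) (c : ℂ) (k : ℤ) :
    ((((w / w' : S1) : ℂ).im ^ 2 : ℝ) : ℂ) * (c * ((w / w' : S1) : ℂ) ^ k)
      = IDENT.X4 (fun j => c * ((w : ℂ) ^ j * (w' : ℂ) ^ (-j))) k := by
  have e1 : ∀ j : ℤ, ((w / w' : S1) : ℂ) ^ j = (w : ℂ) ^ j * (w' : ℂ) ^ (-j) := by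
    intro j
    rw [Metric.unitSphere.coe_div, div_zpow, zpow_neg, div_eq_mul_inv]
  rw [← X4_mul]
  have e2 : (fun j : ℤ => (w : ℂ) ^ j * (w' : ℂ) ^ (-j)) = fun j => ((w / w' : S1) : ℂ) ^ j := by
    funext j
    rw [e1]
  rw [e2, ← IDENT.sin_zpow]
  ring

/-- the limits of the double integrals -/
lemma lim_Y (hA : StmtAvg) {Γ : Subgroup SL(2, ℝ)} (hF : Fac Γ ρ) (hq : SqI ρ s) {ζ : ℂ → ℂ} (hζ : Test UH ζ) {C : ℝ}
    {K K' : Set ℍ} (hD : ∀ ε : ℝ, 0 < ε → ε ≤ 1 → Dt ρ s ε (fun z : ℍ => ζ z) C K K') (j : ℤ) :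
    Tendsto (fun ε : ℝ => (((Real.pi * ε ^ 2)⁻¹ : ℝ) : ℂ) *
        ∫ x in clo ρ ε, ζ x.1.1 * ((x.1.2 : ℂ) ^ j * (x.2.2 : ℂ) ^ (-j))
        ∂(((Berry.area ρ) ⊗ₘ s).prod ((Berry.area ρ) ⊗ₘ s))) (𝓝[>] 0)
      (𝓝 (∫ z : ℍ, ζ z * IDENT.cc (s z) j ∂(Berry.area ρ))) := by
  have hL2 : ∀ K : Set ℍ, IsCompact K →
      IntegrableOn (fun z => ‖cof (s z) (-j)‖ ^ 2) K (Berry.area ρ) := by
    intro K hK
    refine (hq K hK).mono' ((STRUCT.meas_cof s (-j)).norm.pow_const 2).aestronglyMeasurable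
      (Eventually.of_forall fun z => ?_)
    rw [Real.norm_of_nonneg (sq_nonneg _)]
    exact pow_le_pow_left₀ (norm_nonneg _) (STRUCT.norm_cof _ _) 2
  have hc : Continuous fun z : ℍ => ζ z :=
    hζ.smooth.continuous.comp UpperHalfPlane.continuous_coe
  have hcs : HasCompactSupport fun z : ℍ => ζ z :=
    HasCompactSupport.intro (IDENT.cpt_pre hζ.supp hζ.sub) fun z hz =>
      image_eq_zero_of_notMem_tsupport hz
  have h1 := hA Γ ρ hF (fun z => cof (s z) (-j)) (fun z => cof (s z) (-j))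
    (STRUCT.meas_cof s (-j)) (STRUCT.meas_cof s (-j)) hL2 hL2 (fun z : ℍ => ζ z) hc hcs
  have e1 : (fun z : ℍ => ζ z * IDENT.cc (s z) j) = fun z : ℍ =>
      ζ z * cof (s z) (-j) * (starRingEnd ℂ) (cof (s z) (-j)) := by
    funext z
    rw [conj_cof]
    unfold IDENT.cc
    ring
  rw [e1]
  refine h1.congr' ?_
  filter_upwards [RSZ.ev] with ε hε
  congr 1
  exact (Y_eq (hD ε hε.1 hε.2) j).symm

lemma int_cc (hq : SqI ρ s) {ζ : ℂ → ℂ} (hζ : Test UH ζ) (j : ℤ) :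
    Integrable (fun z : ℍ => ζ z * IDENT.cc (s z) j) (Berry.area ρ) := by
  have hK : IsCompact (UpperHalfPlane.coe ⁻¹' tsupport ζ) := IDENT.cpt_pre hζ.supp hζ.sub
  obtain ⟨C, hC⟩ := hζ.smooth.continuous.bounded_above_of_compact_support hζ.supp
  have hC0 : 0 ≤ C := (norm_nonneg _).trans (hC 0)
  have hm : Measurable fun z : ℍ => ζ z * IDENT.cc (s z) j := by
    unfold IDENT.cc
    exact (hζ.smooth.continuous.comp UpperHalfPlane.continuous_coe).measurable.mul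
      ((STRUCT.meas_cof s j).mul (STRUCT.meas_cof s (-j)))
  have h1 : IntegrableOn (fun z : ℍ => ζ z * IDENT.cc (s z) j)
      (UpperHalfPlane.coe ⁻¹' tsupport ζ) (Berry.area ρ) := by
    refine Integrable.mono' ((hq _ hK).const_mul C) hm.aestronglyMeasurable
      (Eventually.of_forall fun z => ?_)
    unfold IDENT.cc
    rw [norm_mul, norm_mul]
    have a1 := hC (z : ℂ)
    have a2 := STRUCT.norm_cof (s z) j
    have a3 := STRUCT.norm_cof (s z) (-j)
    calc ‖ζ z‖ * (‖cof (s z) j‖ * ‖cof (s z) (-j)‖)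
        ≤ C * ((s z univ).toReal * (s z univ).toReal) := by gcongr
      _ = C * (s z univ).toReal ^ 2 := by ring
  refine (integrableOn_iff_integrable_of_support_subset ?_).1 h1
  intro z hz
  refine subset_tsupport _ fun h0 => hz ?_
  beta_reduce
  rw [h0, zero_mul]

/-- the moments of the crossing measure -/
lemma mom_eq (hA : StmtAvg) (hC : StmtClb) {Γ : Subgroup SL(2, ℝ)} (hF : Fac Γ ρ)
    (hs : ∀ z, IsFiniteMeasure (s z)) (hq : SqI ρ s) {ϖ : Measure (ℍ × S1)}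
    (hϖ : Crossing ρ ((Berry.area ρ) ⊗ₘ s) ϖ) {ζ : ℂ → ℂ} (hζ : Test UH ζ) (k : ℤ) :
    ∫ p : ℍ × S1, ζ p.1 * (p.2 : ℂ) ^ k ∂ϖ
      = ∫ z : ℍ, ζ z * IDENT.X4 (IDENT.cc (s z)) k ∂(Berry.area ρ) := by
  have hρ := RSZ.cont_rho hF
  have hK : IsCompact (UpperHalfPlane.coe ⁻¹' tsupport ζ) := IDENT.cpt_pre hζ.supp hζ.sub
  obtain ⟨C, hCb⟩ := hζ.smooth.continuous.bounded_above_of_compact_support hζ.supp
  obtain ⟨_, K', hK', -, hcl⟩ := hC Γ ρ hF _ hK
  have hD : ∀ ε : ℝ, 0 < ε → ε ≤ 1 →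
      Dt ρ s ε (fun z : ℍ => ζ z) C (UpperHalfPlane.coe ⁻¹' tsupport ζ) K' := by
    intro ε h0 h1
    refine ⟨hρ, hs, hq, (hζ.smooth.continuous.comp UpperHalfPlane.continuous_coe).measurable,
      fun z => hCb _, hK, hK', fun z hz => image_eq_zero_of_notMem_tsupport hz, ?_⟩
    intro z z' h hz
    exact (hcl ε h0 h1 ((z, (1 : S1)), (z', (1 : S1))) h hz).1
  have t0 := X4_lim (fun j => lim_Y hA hF hq hζ hD j) k
  have e0 : ∫ z : ℍ, ζ z * IDENT.X4 (IDENT.cc (s z)) k ∂(Berry.area ρ)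
      = IDENT.X4 (fun j => ∫ z : ℍ, ζ z * IDENT.cc (s z) j ∂(Berry.area ρ)) k := by
    rw [← int_X4 (fun j => int_cc hq hζ j) k]
    refine integral_congr_ae (Eventually.of_forall fun z => ?_)
    exact X4_mul _ _ _
  rw [e0]
  refine tendsto_nhds_unique ?_ t0
  set F : ℍ × S1 → ℂ := fun p => ζ p.1 * (p.2 : ℂ) ^ k with hFd
  have hFc : Continuous F := IDENT.cont_mom hζ k
  have hF0 : ∀ p : ℍ × S1, p ∉ (UpperHalfPlane.coe ⁻¹' tsupport ζ) ×ˢ (univ : Set S1) →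
      F p = 0 := by
    intro p hp
    have : (p.1 : ℂ) ∉ tsupport ζ := fun hh => hp ⟨hh, mem_univ _⟩
    rw [hFd]
    beta_reduce
    rw [image_eq_zero_of_notMem_tsupport this, zero_mul]
  have l1 := hϖ.lim (fun p => (F p).re) (Complex.continuous_re.comp hFc)
    (HasCompactSupport.intro (hK.prod isCompact_univ) fun p hp => by rw [hF0 p hp]; rfl)
  have l2 := hϖ.lim (fun p => (F p).im) (Complex.continuous_im.comp hFc)
    (HasCompactSupport.intro (hK.prod isCompact_univ) fun p hp => by rw [hF0 p hp]; rfl)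
  have l3 : Tendsto (fun ε : ℝ => ((XG ρ ((Berry.area ρ) ⊗ₘ s) ε (fun p => (F p).re) : ℝ) : ℂ)
      + ((XG ρ ((Berry.area ρ) ⊗ₘ s) ε (fun p => (F p).im) : ℝ) : ℂ) * Complex.I) (𝓝[>] 0)
      (𝓝 (((∫ p, (F p).re ∂ϖ : ℝ) : ℂ) + ((∫ p, (F p).im ∂ϖ : ℝ) : ℂ) * Complex.I)) :=
    ((Complex.continuous_ofReal.tendsto _).comp l1).add
      (((Complex.continuous_ofReal.tendsto _).comp l2).mul_const _)
  have e3 : ((∫ p, (F p).re ∂ϖ : ℝ) : ℂ) + ((∫ p, (F p).im ∂ϖ : ℝ) : ℂ) * Complex.I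
      = ∫ p, F p ∂ϖ := integral_re_add_im (IDENT.int_mom hϖ.fin hζ k)
  rw [e3] at l3
  refine l3.congr' ?_
  filter_upwards [RSZ.ev] with ε hε
  have Dε := hD ε hε.1 hε.2
  set Φ : (ℍ × S1) × (ℍ × S1) → ℂ := fun x =>
    IDENT.X4 (fun j => ζ x.1.1 * ((x.1.2 : ℂ) ^ j * (x.2.2 : ℂ) ^ (-j))) k with hΦd
  have hΦ : IntegrableOn Φ (clo ρ ε)
      (((Berry.area ρ) ⊗ₘ s).prod ((Berry.area ρ) ⊗ₘ s)) := by
    rw [hΦd]
    unfold IDENT.X4
    exact ((((Y_int Dε k).const_mul 2).sub (Y_int Dε (k + 2))).sub (Y_int Dε (k - 2))).div_const 4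
  have e4 : ∀ x : (ℍ × S1) × (ℍ × S1),
      ((((x.1.2 / x.2.2 : S1) : ℂ).im ^ 2 : ℝ) : ℂ) * F (x.1.1, x.1.2 / x.2.2) = Φ x := by
    intro x
    exact sin_pair x.1.2 x.2.2 (ζ x.1.1) k
  have e5 : ∀ x : (ℍ × S1) × (ℍ × S1),
      ((x.1.2 / x.2.2 : S1) : ℂ).im ^ 2 * (F (x.1.1, x.1.2 / x.2.2)).re = (Φ x).re := by
    intro x
    rw [← e4, Complex.re_ofReal_mul]
  have e6 : ∀ x : (ℍ × S1) × (ℍ × S1),
      ((x.1.2 / x.2.2 : S1) : ℂ).im ^ 2 * (F (x.1.1, x.1.2 / x.2.2)).im = (Φ x).im := by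
    intro x
    rw [← e4, Complex.im_ofReal_mul]
  have e7 : ((∫ x in clo ρ ε, (Φ x).re ∂(((Berry.area ρ) ⊗ₘ s).prod ((Berry.area ρ) ⊗ₘ s)) : ℝ)
        : ℂ)
      + ((∫ x in clo ρ ε, (Φ x).im ∂(((Berry.area ρ) ⊗ₘ s).prod ((Berry.area ρ) ⊗ₘ s)) : ℝ) : ℂ)
        * Complex.I
      = ∫ x in clo ρ ε, Φ x ∂(((Berry.area ρ) ⊗ₘ s).prod ((Berry.area ρ) ⊗ₘ s)) :=
    integral_re_add_im hΦ
  have e8 : ∫ x in clo ρ ε, Φ x ∂(((Berry.area ρ) ⊗ₘ s).prod ((Berry.area ρ) ⊗ₘ s))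
      = IDENT.X4 (fun j => ∫ x in clo ρ ε, ζ x.1.1 * ((x.1.2 : ℂ) ^ j * (x.2.2 : ℂ) ^ (-j))
        ∂(((Berry.area ρ) ⊗ₘ s).prod ((Berry.area ρ) ⊗ₘ s))) k :=
    int_X4 (fun j => Y_int Dε j) k
  rw [← X4_mul, ← e8, ← e7]
  unfold XG
  beta_reduce
  simp only [e5, e6]
  push_cast
  ring

end

end CRS

/-- CRS -/
theorem t_CRS (hA : StmtAvg) (hC : StmtClb) (hD : StmtDns) : StmtCrs := by
  intro Γ ρ hF s ϖ hs hq hϖ
  refine IDENT.ext_mom hD hϖ.fin ?_ ?_
  · intro K hK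
    exact (IDENT.crossS_le hs hK.measurableSet).trans_lt (CRS.mass_fin hs hq hK)
  · intro ζ hζ k
    rw [CRS.crossS_mom hs hq hζ k]
    exact CRS.mom_eq hA hC hF hs hq hϖ hζ k

end

end CRM
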