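import Pool.Agent.CRM.StA
import Pool.Agent.CRM.EXF
import Pool.Agent.CRM.LNK

/-!
CRM, module NUI: a semiclassical measure comes from an invariant measure on the frames.
-/

open Complex MeasureTheory Filter Topology Set
open UpperHalfPlane hiding I
open scoped ContDiff MatrixGroups

namespace CRM

open QE QE.NC QJ U3 NFP

noncomputable section

namespace NUI

lemma finc {μ : Measure (ℍ × S1)} (h : FinK μ) : IsFiniteMeasureOnCompacts μ where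
  lt_top_of_isCompact A hA := by
    refine lt_of_le_of_lt (measure_mono ?_) (h (Prod.fst '' A) (hA.image continuous_fst))
    intro x hx
    exact ⟨⟨x, hx, rfl⟩, mem_univ _⟩

lemma cont_p : Continuous fun p : ℍ × S1 => (p.1 : ℂ) :=
  UpperHalfPlane.continuous_coe.comp continuous_fst

lemma cont_t : Continuous fun p : ℍ × S1 => (starRingEnd ℂ) (p.2 : ℂ) :=
  Complex.continuous_conj.comp (continuous_subtype_val.comp continuous_snd)

lemma t_ne (p : ℍ × S1) : (starRingEnd ℂ) (p.2 : ℂ) ≠ 0 := by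
  rw [← norm_ne_zero_iff, EXF.norm_conj_S1]
  exact one_ne_zero

/-- approximation of the integral of a test function by the moments -/
lemma approx {μ : Measure (ℍ × S1)} (hμ : FinK μ) {K : Set ℂ} (hK : IsCompact K) (hU : K ⊆ UH)
    {f : ℂ × ℂ → ℂ} (hf : Continuous f) (hf0 : ∀ z, z ∉ K → ∀ t, f (z, t) = 0) {N : ℕ}
    {ζ : ℤ → ℂ → ℂ} (hζ : ∀ k, Continuous (ζ k)) (hs : ∀ k, tsupport (ζ k) ⊆ K) {δ : ℝ}
    (hb : ∀ z t : ℂ, ‖t‖ = 1 → ‖f (z, t) - ∑ k ∈ Finset.Icc (-(N : ℤ)) N, ζ k z * t ^ k‖ ≤ δ) :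
    ‖(∫ p : ℍ × S1, f (p.1, (starRingEnd ℂ) (p.2 : ℂ)) ∂μ) - ∑ k ∈ Finset.Icc (-(N : ℤ)) N,
      ∫ p : ℍ × S1, ζ k p.1 * (starRingEnd ℂ) (p.2 : ℂ) ^ k ∂μ‖
      ≤ δ * μ.real (((fun z : ℍ => (z : ℂ)) ⁻¹' K) ×ˢ univ) := by
  have hfin := finc hμ
  have hcf : Continuous fun p : ℍ × S1 => f (p.1, (starRingEnd ℂ) (p.2 : ℂ)) :=
    hf.comp (cont_p.prodMk cont_t)
  have h1 : Integrable (fun p : ℍ × S1 => f (p.1, (starRingEnd ℂ) (p.2 : ℂ))) μ :=
    hcf.integrable_of_hasCompactSupport (LNK.hcs hK hU fun p hp => hf0 _ hp _)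
  have hcz : ∀ k : ℤ, Continuous fun p : ℍ × S1 => ζ k p.1 * (starRingEnd ℂ) (p.2 : ℂ) ^ k :=
    fun k => ((hζ k).comp cont_p).mul (cont_t.zpow₀ k fun p => Or.inl (t_ne p))
  have hz0 : ∀ (k : ℤ) (p : ℍ × S1), (p.1 : ℂ) ∉ K →
      ζ k p.1 * (starRingEnd ℂ) (p.2 : ℂ) ^ k = 0 := by
    intro k p hp
    rw [image_eq_zero_of_notMem_tsupport (fun h => hp (hs k h)), zero_mul]
  have h2 : ∀ k : ℤ, Integrable (fun p : ℍ × S1 => ζ k p.1 * (starRingEnd ℂ) (p.2 : ℂ) ^ k) μ :=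
    fun k => (hcz k).integrable_of_hasCompactSupport (LNK.hcs hK hU (hz0 k))
  rw [← integral_finsetSum _ (fun k _ => h2 k), ← integral_sub h1 (integrable_finsetSum _
    fun k _ => h2 k)]
  rw [← setIntegral_eq_integral_of_forall_compl_eq_zero
    (s := ((fun z : ℍ => (z : ℂ)) ⁻¹' K) ×ˢ (univ : Set S1))]
  · refine norm_setIntegral_le_of_norm_le_const ?_ ?_
    · exact hμ _ (LNK.cptU hK hU)
    · intro p _
      exact hb _ _ (EXF.norm_conj_S1 _)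
  · intro p hp
    have hp' : (p.1 : ℂ) ∉ K := fun h => hp ⟨h, mem_univ _⟩
    rw [hf0 _ hp', Finset.sum_eq_zero fun k _ => hz0 k p hp', sub_zero]

/-- a measure is determined by its moments -/
theorem ext_mom (hD : StmtDns) {μ μ' : Measure (ℍ × S1)} (hμ : FinK μ) (hμ' : FinK μ')
    (h : ∀ K : Set ℂ, IsCompact K → K ⊆ UH → ∃ V : Set ℂ, IsOpen V ∧ K ⊆ V ∧ V ⊆ UH ∧
      ∀ (k : ℤ) (ζ : ℂ → ℂ), Test V ζ → ∫ p : ℍ × S1, ζ p.1 * (starRingEnd ℂ) (p.2 : ℂ) ^ k ∂μ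
        = ∫ p : ℍ × S1, ζ p.1 * (starRingEnd ℂ) (p.2 : ℂ) ^ k ∂μ') : μ = μ' := by
  have i1 := finc hμ
  have i2 := finc hμ'
  refine Measure.ext_of_integral_eq_on_compactlySupported fun f => ?_
  have hf : Continuous f := f.continuous
  have hfs : HasCompactSupport f := f.hasCompactSupport
  have hK0c : IsCompact ((fun o : ℍ × S1 => (o.1 : ℂ)) '' tsupport f) :=
    hfs.isCompact.image (UpperHalfPlane.continuous_coe.comp continuous_fst)
  have hK0U : (fun o : ℍ × S1 => (o.1 : ℂ)) '' tsupport f ⊆ UH := by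
    rintro _ ⟨o, -, rfl⟩
    exact o.1.im_pos
  have hf0 : ∀ (z : ℍ) (t : S1), (z : ℂ) ∉ (fun o : ℍ × S1 => (o.1 : ℂ)) '' tsupport f →
      f (z, t) = 0 := by
    intro z t hz
    apply image_eq_zero_of_notMem_tsupport
    intro hzt
    exact hz ⟨(z, t), hzt, rfl⟩
  obtain ⟨V, hV, hKV, hVU, hm⟩ := h _ hK0c hK0U
  have hTF : TF V (EXF.gx (fun _ => 1) f) := EXF.tf_gx continuous_const hf hK0c hK0U hKV hf0
  obtain ⟨K, hK, hKV', ha⟩ := hD V _ hV hTF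
  have hKU : K ⊆ UH := hKV'.trans hVU
  have hgx : ∀ p : ℍ × S1, EXF.gx (fun _ => 1) f (p.1, (starRingEnd ℂ) (p.2 : ℂ)) = (f p : ℂ) := by
    intro p
    have h1 := EXF.gx_conj (fun _ => 1) f p.1 p.2
    rw [one_mul] at h1
    exact h1
  have key : ∀ δ : ℝ, 0 < δ → ‖((∫ p, f p ∂μ : ℝ) : ℂ) - ((∫ p, f p ∂μ' : ℝ) : ℂ)‖ ≤
      δ * (μ.real (((fun z : ℍ => (z : ℂ)) ⁻¹' K) ×ˢ univ)
        + μ'.real (((fun z : ℍ => (z : ℂ)) ⁻¹' K) ×ˢ univ)) := by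
    intro δ hδ
    obtain ⟨N, ζ, h1, h2, h3, h4⟩ := ha δ hδ
    have h5 := approx hμ hK hKU hTF.cont h3 (fun k => (h1 k).smooth.continuous) h2 h4
    have h6 := approx hμ' hK hKU hTF.cont h3 (fun k => (h1 k).smooth.continuous) h2 h4
    have h7 : ∑ k ∈ Finset.Icc (-(N : ℤ)) N,
        ∫ p : ℍ × S1, ζ k p.1 * (starRingEnd ℂ) (p.2 : ℂ) ^ k ∂μ =
        ∑ k ∈ Finset.Icc (-(N : ℤ)) N,
          ∫ p : ℍ × S1, ζ k p.1 * (starRingEnd ℂ) (p.2 : ℂ) ^ k ∂μ' :=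
      Finset.sum_congr rfl fun k _ => hm k (ζ k) (h1 k)
    rw [← h7] at h6
    simp only [hgx, integral_complex_ofReal] at h5 h6
    rw [mul_add]
    refine le_trans (norm_sub_le_norm_sub_add_norm_sub _ _ _) (add_le_add h5 ?_)
    rw [norm_sub_rev]
    exact h6
  have h8 : ‖((∫ p, f p ∂μ : ℝ) : ℂ) - ((∫ p, f p ∂μ' : ℝ) : ℂ)‖ ≤ 0 := by
    set M := μ.real (((fun z : ℍ => (z : ℂ)) ⁻¹' K) ×ˢ univ)
        + μ'.real (((fun z : ℍ => (z : ℂ)) ⁻¹' K) ×ˢ univ) with hM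
    have hM0 : 0 ≤ M := by positivity
    refine le_of_forall_pos_le_add fun ε hε => ?_
    have h9 := key (ε / (M + 1)) (by positivity)
    refine le_trans h9 ?_
    rw [zero_add, div_mul_eq_mul_div, div_le_iff₀ (by positivity)]
    nlinarith
  have h9 := norm_le_zero_iff.1 h8
  rw [sub_eq_zero] at h9
  exact_mod_cast h9

lemma cont_toS : Continuous toS := by
  refine (ROT.continuous_smul_I).prodMk ?_
  exact Continuous.subtype_mk QE.FM.continuous_dirG _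

end NUI

/-- NUI -/
theorem t_NUI (hL : StmtLcz) (hD : StmtDns) (hW : U3.StmtWgl) (hR : U3.StmtRot) : StmtNui := by
  intro _ _ Γ ρ Φ hF hΦ h φ μ hU hμ hJ
  obtain ⟨s, ν, hs, hν1, hν2, hν3, hν⟩ := hW Γ ρ Φ h φ hF hΦ hU
  have hpre := hR.2.2.2.2.2.2.2
  refine ⟨ν, hν1, hν2, hν3, ?_⟩
  have hfin : FinK (Measure.map toS ν) := by
    intro K hK
    have hKm : MeasurableSet (K ×ˢ (univ : Set S1)) :=
      (hK.isClosed.measurableSet).prod MeasurableSet.univ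
    rw [Measure.map_apply NUI.cont_toS.measurable hKm]
    have h1 : IsCompact (pG ⁻¹' ((fun z : ℍ => (z : ℂ)) '' K)) := by
      refine hpre _ (hK.image UpperHalfPlane.continuous_coe) ?_
      rintro _ ⟨z, -, rfl⟩
      exact z.im_pos
    refine lt_of_le_of_lt (measure_mono ?_) h1.measure_lt_top
    intro g hg
    exact ⟨g • UpperHalfPlane.I, hg.1, rfl⟩
  refine NUI.ext_mom hD hfin hμ ?_
  intro K hK hKU
  obtain ⟨V, F, σ, φ', hKV, hVF, hFU, hFc, A⟩ := hL UH (gr ρ) h φ EXF.isOpen_UH'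
    (EXF.smooth_gr hF) (EXF.pos_gr ρ) hU K hK hKU
  refine ⟨V, A.op, hKV, A.sub, fun k ζ hζ => ?_⟩
  -- the test function
  let ζ' : ℂ → ℂ := fun z => ζ z * (((Real.exp (2 * σ z) : ℝ) : ℂ) * Complex.I ^ (-k))
  have hζ' : Test V ζ' := by
    have hsub : Function.support ζ' ⊆ Function.support ζ := by
      intro z hz h0
      apply hz
      show ζ z * _ = 0
      rw [h0, zero_mul]
    refine ⟨?_, ?_, (closure_mono hsub).trans hζ.sub⟩
    · refine hζ.smooth.mul (ContDiff.mul ?_ contDiff_const)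
      exact Complex.ofRealCLM.contDiff.comp ((contDiff_const.mul A.loc.sm).exp)
    · exact hζ.supp.mul_right
  have e1 := (hJ V σ φ' A k 0 ζ' hζ').comp hs.tendsto_atTop
  have e2 := hν V σ φ' A k 0 ζ' hζ'
  have e3 := tendsto_nhds_unique e1 e2
  rw [zpow_zero, one_mul, one_mul, add_zero] at e3
  have hexp : ∀ x : ℝ, ((Real.exp (2 * x) : ℝ) : ℂ) * ((Real.exp (-(2 * x)) : ℝ) : ℂ) = 1 := by
    intro x
    rw [← Complex.ofReal_mul, ← Real.exp_add, add_neg_cancel, Real.exp_zero, Complex.ofReal_one]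
  have hI : Complex.I ^ (-k) * Complex.I ^ k = 1 := by
    rw [← zpow_add₀ Complex.I_ne_zero, neg_add_cancel, zpow_zero]
  have e4 : ∀ (z t : ℂ), ζ' z * ((Real.exp (-(2 * σ z)) : ℝ) : ℂ)
      * (Complex.I * (starRingEnd ℂ) t) ^ k = ζ z * (starRingEnd ℂ) t ^ k := by
    intro z t
    show ζ z * (((Real.exp (2 * σ z) : ℝ) : ℂ) * Complex.I ^ (-k))
      * ((Real.exp (-(2 * σ z)) : ℝ) : ℂ) * _ = _
    rw [mul_zpow]
    linear_combination (ζ z * (starRingEnd ℂ) t ^ k * Complex.I ^ (-k) * Complex.I ^ k)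
      * hexp (σ z) + (ζ z * (starRingEnd ℂ) t ^ k) * hI
  have e5 : ∫ p : ℍ × S1, ζ p.1 * (starRingEnd ℂ) (p.2 : ℂ) ^ k ∂(Measure.map toS ν) =
      ∫ g, ζ (pG g) * (starRingEnd ℂ) (dirG g) ^ k ∂ν := by
    have hc : Continuous fun p : ℍ × S1 => ζ p.1 * (starRingEnd ℂ) (p.2 : ℂ) ^ k :=
      (hζ.smooth.continuous.comp NUI.cont_p).mul (NUI.cont_t.zpow₀ k fun p => Or.inl (NUI.t_ne p))
    exact integral_map NUI.cont_toS.measurable.aemeasurable hc.aestronglyMeasurable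
  rw [e5]
  calc ∫ g, ζ (pG g) * (starRingEnd ℂ) (dirG g) ^ k ∂ν
      = ∫ g, ζ' (pG g) * ((Real.exp (-(2 * σ (pG g))) : ℝ) : ℂ) * uG g ^ k ∂ν := by
        refine integral_congr_ae (Eventually.of_forall fun g => ?_)
        exact (e4 (pG g) (dirG g)).symm
    _ = ∫ p : ℍ × S1, ζ' p.1 * ((Real.exp (-(2 * σ p.1)) : ℝ) : ℂ)
          * (Complex.I * (starRingEnd ℂ) (p.2 : ℂ)) ^ k ∂μ := e3.symm
    _ = ∫ p : ℍ × S1, ζ p.1 * (starRingEnd ℂ) (p.2 : ℂ) ^ k ∂μ := by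
        refine integral_congr_ae (Eventually.of_forall fun p => ?_)
        exact e4 p.1 p.2

end

end CRM
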