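import Pool.Agent.CRM.StA

/-!
SMA: the mass of the pairs of frames which are close, at a small angle.
-/

open Complex MeasureTheory Filter Topology Set
open UpperHalfPlane hiding I
open scoped ContDiff MatrixGroups ENNReal

namespace CRM

open QE QE.NC QJ U3 NFP

namespace SMA

/-- the frames near the identity form a compact set -/
theorem compact_nn (r : ℝ) : IsCompact {g : SL(2, ℝ) | nn g ≤ r} := by
  have hcl : IsClosed {g : SL(2, ℝ) | nn g ≤ r} := isClosed_le continuous_nn continuous_const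
  refine (iota_compact (isCompact_closedBall (0 : ℂ × ℂ) (r + 2))).of_isClosed_subset hcl ?_
  intro g hg
  have hg' : |g 0 0 - 1| + |g 0 1| + |g 1 0| + |g 1 1 - 1| ≤ r := hg
  have h0 := abs_nonneg (g 0 0 - 1)
  have h1 := abs_nonneg (g 0 1)
  have h2 := abs_nonneg (g 1 0)
  have h3 := abs_nonneg (g 1 1 - 1)
  have h4 : |g 0 0| ≤ |g 0 0 - 1| + 1 := by
    have := abs_add_le (g 0 0 - 1) 1
    rw [sub_add_cancel, abs_one] at this
    exact this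
  have h5 : |g 1 1| ≤ |g 1 1 - 1| + 1 := by
    have := abs_add_le (g 1 1 - 1) 1
    rw [sub_add_cancel, abs_one] at this
    exact this
  show iota g ∈ Metric.closedBall (0 : ℂ × ℂ) (r + 2)
  rw [mem_closedBall_zero_iff, Prod.norm_def]
  refine max_le ?_ ?_
  · refine (Complex.norm_le_abs_re_add_abs_im _).trans ?_
    show |g 0 1| + |g 0 0| ≤ r + 2
    linarith
  · refine (Complex.norm_le_abs_re_add_abs_im _).trans ?_
    show |g 1 1| + |g 1 0| ≤ r + 2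
    linarith

/-- the set of the close pairs is closed -/
theorem closed_SmG {Γ : Subgroup SL(2, ℝ)} {ρ : ℍ → ℝ} {c₀ r₀ : ℝ}
    (hA : PairAlg Γ (xx ρ) (yy ρ) (tt ρ) c₀ r₀) (r ε Y : ℝ) :
    IsClosed {x : SL(2, ℝ) × SL(2, ℝ) | SmG ρ r ε Y x.1 x.2} := by
  have h1 : IsClosed {x : SL(2, ℝ) × SL(2, ℝ) | dd x.1 x.2 ≤ r} :=
    isClosed_le continuous_dd continuous_const
  have h2 : IsClosed {x : SL(2, ℝ) × SL(2, ℝ) | |xx ρ x.1 x.2| ≤ ε} :=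
    isClosed_le hA.xc.abs continuous_const
  have h3 : IsClosed {x : SL(2, ℝ) × SL(2, ℝ) | |tt ρ x.1 x.2| ≤ ε} :=
    isClosed_le hA.tc.abs continuous_const
  have h4 : IsClosed {x : SL(2, ℝ) × SL(2, ℝ) | Y ≤ |yy ρ x.1 x.2|} :=
    isClosed_le continuous_const hA.yc.abs
  have h5 : IsClosed {x : SL(2, ℝ) × SL(2, ℝ) | |yy ρ x.1 x.2| ≤ 2 * Y} :=
    isClosed_le hA.yc.abs continuous_const
  convert h1.inter (h2.inter (h3.inter (h4.inter h5))) using 1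
  ext x
  exact ⟨fun h => ⟨h.d, h.x, h.t, h.lo, h.hi⟩, fun h => ⟨h.1, h.2.1, h.2.2.1, h.2.2.2.1, h.2.2.2.2⟩⟩

/-- Tonelli and the invariance -/
theorem key [MeasurableSpace SL(2, ℝ)] [BorelSpace SL(2, ℝ)] {ρ : ℍ → ℝ}
    {Φ : ℝ → SL(2, ℝ) → SL(2, ℝ)} (hΦ : GFlow ρ Φ)
    {ν : Measure SL(2, ℝ)} [SigmaFinite ν] (hinv : ∀ t, Measure.map (Φ t) ν = ν)
    {N M : Set (SL(2, ℝ) × SL(2, ℝ))} (hN : IsClosed N) (hM : MeasurableSet M)
    {T : ℝ} {c : ℝ≥0∞} (hT : 0 < T)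
    (hsub : ∀ p ∈ Icc (0 : ℝ) T ×ˢ Icc (0 : ℝ) T, ∀ x : SL(2, ℝ) × SL(2, ℝ),
      (Φ p.1 x.1, Φ p.2 x.2) ∈ N → x ∈ M)
    (harea : ∀ x : SL(2, ℝ) × SL(2, ℝ), (volume : Measure (ℝ × ℝ))
      {p | p ∈ Icc (0 : ℝ) T ×ˢ Icc (0 : ℝ) T ∧ (Φ p.1 x.1, Φ p.2 x.2) ∈ N} ≤ c) :
    ENNReal.ofReal (T ^ 2) * (ν.prod ν) N ≤ c * (ν.prod ν) M := by
  have := U3.NCR.second
  let S : Set ((ℝ × ℝ) × (SL(2, ℝ) × SL(2, ℝ))) :=
    {q | q.1 ∈ Icc (0 : ℝ) T ×ˢ Icc (0 : ℝ) T ∧ (Φ q.1.1 q.2.1, Φ q.1.2 q.2.2) ∈ N}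
  have hSc : IsClosed S :=
    ((isClosed_Icc.prod isClosed_Icc).preimage continuous_fst).inter
      (hN.preimage (U3.NCR.cont_two hΦ))
  have hS : MeasurableSet S := hSc.measurableSet
  have hfl : ∀ t, Continuous (Φ t) := fun t => hΦ.cont.comp (continuous_const.prodMk continuous_id)
  have hmp : ∀ t, MeasurePreserving (Φ t) ν ν := fun t => ⟨(hfl t).measurable, hinv t⟩
  have e1 := Measure.prod_apply (μ := (volume : Measure (ℝ × ℝ))) (ν := ν.prod ν) hS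
  have e2 := Measure.prod_apply_symm (μ := (volume : Measure (ℝ × ℝ))) (ν := ν.prod ν) hS
  have h1 : ENNReal.ofReal (T ^ 2) * (ν.prod ν) N
      ≤ ((volume : Measure (ℝ × ℝ)).prod (ν.prod ν)) S := by
    rw [e1]
    have hvol : (volume : Measure (ℝ × ℝ)) (Icc (0 : ℝ) T ×ˢ Icc (0 : ℝ) T)
        = ENNReal.ofReal (T ^ 2) := by
      rw [Measure.volume_eq_prod, Measure.prod_prod, Real.volume_Icc, ← ENNReal.ofReal_mul
        (by linarith)]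
      congr 1
      ring
    calc ENNReal.ofReal (T ^ 2) * (ν.prod ν) N
        = ∫⁻ _ in Icc (0 : ℝ) T ×ˢ Icc (0 : ℝ) T, (ν.prod ν) N := by
          rw [setLIntegral_const, hvol, mul_comm]
      _ = ∫⁻ p in Icc (0 : ℝ) T ×ˢ Icc (0 : ℝ) T, (ν.prod ν) (Prod.mk p ⁻¹' S) := by
          refine setLIntegral_congr_fun (measurableSet_Icc.prod measurableSet_Icc) ?_
          intro p hp'
          have h2 : Prod.mk p ⁻¹' S = (Prod.map (Φ p.1) (Φ p.2)) ⁻¹' N := by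
            ext x
            exact ⟨fun h => h.2, fun h => ⟨hp', h⟩⟩
          show (ν.prod ν) N = (ν.prod ν) (Prod.mk p ⁻¹' S)
          rw [h2, ((hmp p.1).prod (hmp p.2)).measure_preimage hN.measurableSet.nullMeasurableSet]
      _ ≤ ∫⁻ p, (ν.prod ν) (Prod.mk p ⁻¹' S) := setLIntegral_le_lintegral _ _
  refine h1.trans ?_
  rw [e2]
  calc ∫⁻ x, (volume : Measure (ℝ × ℝ)) ((fun p => (p, x)) ⁻¹' S) ∂(ν.prod ν)
      ≤ ∫⁻ x, M.indicator (fun _ => c) x ∂(ν.prod ν) := by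
        refine lintegral_mono fun x => ?_
        by_cases hx : x ∈ M
        · rw [indicator_of_mem hx]
          exact harea x
        · rw [indicator_of_notMem hx]
          have : (fun p => (p, x)) ⁻¹' S = ∅ := by
            ext p
            simp only [mem_empty_iff_false, iff_false]
            intro h
            exact hx (hsub p h.1 x h.2)
          rw [this, measure_empty]
    _ = c * (ν.prod ν) M := by
        rw [lintegral_indicator hM, setLIntegral_const]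

/-- one of the two signs -/
theorem half [MeasurableSpace SL(2, ℝ)] [BorelSpace SL(2, ℝ)] {Γ : Subgroup SL(2, ℝ)} {ρ : ℍ → ℝ}
    {Φ : ℝ → SL(2, ℝ) → SL(2, ℝ)} (hΦ : GFlow ρ Φ) {c₀ r₀ : ℝ}
    (hA : PairAlg Γ (xx ρ) (yy ρ) (tt ρ) c₀ r₀)
    {ν : Measure SL(2, ℝ)} [IsFiniteMeasureOnCompacts ν] [SigmaFinite ν]
    (hinv : ∀ t, Measure.map (Φ t) ν = ν)
    {C r T Y₀ c₁ : ℝ} (hC : 0 < C) (hT : 0 < T)
    (hS : ∀ (Y ε s t : ℝ) (v w : SL(2, ℝ)), 0 < Y → Y ≤ Y₀ → 0 < ε → ε ≤ c₁ * Y → |s| ≤ T →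
        |t| ≤ T → SmG ρ r ε Y v w → SmG ρ r ε Y (Φ s v) (Φ t w) →
        |s| ≤ C * ε / Y ∧ |t - s| ≤ C * ε)
    (hArs : StmtArs) {σ : SL(2, ℝ) → SL(2, ℝ)} (hσc : Continuous σ)
    (hσΦ : ∀ t g, σ (Φ t g) = Φ t (σ g)) (hσσ : ∀ g, σ (σ g) = g)
    {K : Set SL(2, ℝ)} (hK : IsCompact K) :
    ∃ C' : ℝ, 0 ≤ C' ∧ ∀ Y ε : ℝ, 0 < Y → Y ≤ Y₀ → 0 < ε → ε ≤ c₁ * Y →
      (ν.prod ν) {x | x.1 ∈ K ∧ SmG ρ r ε Y x.1 (σ x.2)} ≤ ENNReal.ofReal (C' * ε ^ 2 / Y) := by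
  have := U3.NCR.second
  let K' : Set SL(2, ℝ) := (fun q : SL(2, ℝ) × SL(2, ℝ) => q.1 * q.2) '' (K ×ˢ {g | nn g ≤ r})
  have hK' : IsCompact K' := (hK.prod (compact_nn r)).image (continuous_fst.mul continuous_snd)
  have hK'm : ∀ v ∈ K, ∀ w, dd v w ≤ r → w ∈ K' := by
    intro v hv w hw
    refine ⟨(v, v⁻¹ * w), ⟨hv, hw⟩, ?_⟩
    show v * (v⁻¹ * w) = w
    rw [mul_inv_cancel_left]
  let L : Set SL(2, ℝ) := (fun q : ℝ × SL(2, ℝ) => Φ (-q.1) q.2) ''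
    (Icc (0 : ℝ) T ×ˢ (K ∪ σ '' K'))
  have hL : IsCompact L := (isCompact_Icc.prod (hK.union (hK'.image hσc))).image
    (hΦ.cont.comp ((continuous_fst.neg).prodMk continuous_snd))
  have hLmem : ∀ s ∈ Icc (0 : ℝ) T, ∀ g, Φ s g ∈ K ∪ σ '' K' → g ∈ L := by
    intro s hs g hg
    refine ⟨(s, Φ s g), ⟨hs, hg⟩, ?_⟩
    show Φ (-s) (Φ s g) = g
    rw [← hΦ.add, neg_add_cancel, hΦ.zero]
  obtain ⟨m, hm0, hm⟩ : ∃ m : ℝ, 0 ≤ m ∧ ν L = ENNReal.ofReal m :=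
    ⟨(ν L).toReal, ENNReal.toReal_nonneg, (ENNReal.ofReal_toReal hL.measure_lt_top.ne).symm⟩
  refine ⟨4 * C ^ 2 * m ^ 2 / T ^ 2, by positivity, ?_⟩
  intro Y ε hY hY0 hε hεc
  have hNc : IsClosed {x : SL(2, ℝ) × SL(2, ℝ) | x.1 ∈ K ∧ SmG ρ r ε Y x.1 (σ x.2)} :=
    (hK.isClosed.preimage continuous_fst).inter
      ((closed_SmG hA r ε Y).preimage (continuous_fst.prodMk (hσc.comp continuous_snd)))
  have hkey := key (c := ENNReal.ofReal (4 * (C * ε / Y) * (C * ε))) hΦ hinv hNc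
    (hL.isClosed.prod hL.isClosed).measurableSet hT
    (by
      rintro p ⟨hp1, hp2⟩ x ⟨hx1, hx2⟩
      refine ⟨hLmem p.1 hp1 x.1 (Or.inl hx1), hLmem p.2 hp2 x.2 (Or.inr ?_)⟩
      refine ⟨σ (Φ p.2 x.2), hK'm _ hx1 _ hx2.d, hσσ _⟩)
    (by
      intro x
      refine hArs _ _ _ (by positivity) (by positivity) ?_
      rintro p ⟨⟨hp1, hp2⟩, hpK, hp⟩ q ⟨⟨hq1, hq2⟩, hqK, hq⟩
      have e1 : Φ (q.1 - p.1) (Φ p.1 x.1) = Φ q.1 x.1 := by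
        rw [← hΦ.add, sub_add_cancel]
      have e2 : Φ (q.2 - p.2) (σ (Φ p.2 x.2)) = σ (Φ q.2 x.2) := by
        rw [hσΦ, hσΦ, ← hΦ.add, sub_add_cancel]
      refine hS Y ε (q.1 - p.1) (q.2 - p.2) (Φ p.1 x.1) (σ (Φ p.2 x.2)) hY hY0 hε hεc ?_ ?_ hp ?_
      · rw [abs_le]
        constructor <;> linarith [hp1.1, hp1.2, hq1.1, hq1.2]
      · rw [abs_le]
        constructor <;> linarith [hp2.1, hp2.2, hq2.1, hq2.2]
      · rw [e1, e2]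
        exact hq)
  have hT2 : 0 < T ^ 2 := by positivity
  have h0 : ENNReal.ofReal (T ^ 2) ≠ 0 := by
    rw [Ne, ENNReal.ofReal_eq_zero, not_le]
    exact hT2
  rw [Measure.prod_prod, hm, ← ENNReal.ofReal_mul hm0, ← ENNReal.ofReal_mul (by positivity),
    mul_comm, ← ENNReal.le_div_iff_mul_le (Or.inl h0) (Or.inl ENNReal.ofReal_ne_top),
    ← ENNReal.ofReal_div_of_pos hT2] at hkey
  refine hkey.trans (ENNReal.ofReal_le_ofReal (le_of_eq ?_))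
  field_simp

end SMA

open SMA in
theorem t_SMA (hP : StmtSmp) (hS : StmtArs) (hA : NC.StmtAlg) : StmtSma := by
  intro _ _ Γ ρ Φ ν _ _ hFac hΦ hinv
  obtain ⟨C, r, T, Y₀, c₁, hC, hr, hT, hY₀, hc₁, hsmp⟩ := hP Γ ρ Φ hFac hΦ
  obtain ⟨c₀, r₀, hPA⟩ := hA Γ ρ hFac
  refine ⟨r, Y₀, c₁, hr, hY₀, hc₁, ?_⟩
  intro K hK
  have hneg : Continuous fun g : SL(2, ℝ) => -g := by
    refine continuous_induced_rng.2 ?_
    have h1 : Continuous fun g : SL(2, ℝ) => -(g : Matrix (Fin 2) (Fin 2) ℝ) :=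
      continuous_subtype_val.neg
    exact h1
  obtain ⟨C1, hC1, h1⟩ := half hΦ hPA hinv hC hT hsmp hS (σ := fun g => g) continuous_id
    (fun _ _ => rfl) (fun _ => rfl) hK
  obtain ⟨C2, hC2, h2⟩ := half hΦ hPA hinv hC hT hsmp hS (σ := fun g => -g) hneg
    (fun t g => (hΦ.neg t g).symm) (fun g => neg_neg g) hK
  refine ⟨C1 + C2 + 1, by positivity, ?_⟩
  intro Y ε hY hY0 hε hεc
  have hsub : {x : SL(2, ℝ) × SL(2, ℝ) | x.1 ∈ K ∧ (SmG ρ r ε Y x.1 x.2 ∨ SmG ρ r ε Y x.1 (-x.2))}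
      ⊆ {x | x.1 ∈ K ∧ SmG ρ r ε Y x.1 x.2} ∪ {x | x.1 ∈ K ∧ SmG ρ r ε Y x.1 (-x.2)} := by
    rintro x ⟨hx, h | h⟩
    · exact Or.inl ⟨hx, h⟩
    · exact Or.inr ⟨hx, h⟩
  refine (measure_mono hsub).trans ((measure_union_le _ _).trans
    ((add_le_add (h1 Y ε hY hY0 hε hεc) (h2 Y ε hY hY0 hε hεc)).trans ?_))
  rw [← ENNReal.ofReal_add (by positivity) (by positivity)]
  refine ENNReal.ofReal_le_ofReal ?_
  rw [← add_div]
  refine div_le_div_of_nonneg_right ?_ hY.le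
  nlinarith [sq_nonneg ε]

end CRM
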