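import Pool.Agent.CRM.StA
import Pool.Agent.BWM.C29
import Pool.Agent.BWM.C42

/-!
Module SMP (helper26): two geodesics which are close at two pairs of times, at a small angle
(`StmtSmp`).
-/

open Complex MeasureTheory Filter Topology Set
open UpperHalfPlane hiding I
open scoped ContDiff MatrixGroups

namespace CRM

open QE QE.NC QJ U3 NFP

noncomputable section

namespace SMP

variable {Γ : Subgroup SL(2, ℝ)} {Φ : ℝ → SL(2, ℝ) → SL(2, ℝ)}
  {x y τ : SL(2, ℝ) → SL(2, ℝ) → ℝ} {κ : SL(2, ℝ) → ℝ} {c r L k : ℝ}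

/-- a derivative at `0` along the flow gives one at `t` -/
theorem shift_d (hadd : ∀ s t g, Φ (s + t) g = Φ s (Φ t g)) {f : SL(2, ℝ) → SL(2, ℝ) → ℝ}
    {v w : SL(2, ℝ)} {t f' : ℝ}
    (h : HasDerivAt (fun s => f (Φ s (Φ t v)) (Φ s (Φ t w))) f' 0) :
    HasDerivAt (fun s => f (Φ s v) (Φ s w)) f' t := by
  have h1 : HasDerivAt (fun s => f (Φ s (Φ t v)) (Φ s (Φ t w))) f' (t - t) := by
    rwa [sub_self]
  have h2 := HasDerivAt.comp_sub_const t t h1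
  refine h2.congr_of_eventuallyEq (Eventually.of_forall fun s => ?_)
  beta_reduce
  rw [← hadd, ← hadd, sub_add_cancel]

theorem shift_m (hadd : ∀ s t g, Φ (s + t) g = Φ s (Φ t g)) {f : SL(2, ℝ) → SL(2, ℝ) → ℝ}
    {v w : SL(2, ℝ)} {t f' : ℝ}
    (h : HasDerivAt (fun s => f v (Φ s (Φ t w))) f' 0) :
    HasDerivAt (fun s => f v (Φ s w)) f' t := by
  have h1 : HasDerivAt (fun s => f v (Φ s (Φ t w))) f' (t - t) := by
    rwa [sub_self]
  have h2 := HasDerivAt.comp_sub_const t t h1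
  refine h2.congr_of_eventuallyEq (Eventually.of_forall fun s => ?_)
  beta_reduce
  rw [← hadd, sub_add_cancel]

theorem dd_nonneg (v w : SL(2, ℝ)) : 0 ≤ dd v w := by
  unfold dd nn
  positivity

/-- the distance on the rectangle -/
theorem dd_rect (hA : PairAlg Γ x y τ c r) (hF : PairFl Φ c L) (hL : 0 ≤ L) {v w : SL(2, ℝ)}
    {d t s : ℝ} (hd : dd v w ≤ d) (hdr : d ≤ r)
    (ht : |t| ≤ 1) (hs : |s| ≤ 1) (hsr : c * |s| ≤ r) :
    dd (Φ t v) (Φ t (Φ s w)) ≤ c ^ 3 * Real.exp L * (d + |s|) := by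
  have hc : 0 < c := by linarith [hA.one_le]
  have h1 := hF.dmove w s hs
  have h2 := hA.dtri v w (Φ s w) (hd.trans hdr) (h1.trans hsr)
  have h3 := hF.dflow v (Φ s w) t
  have h4 : Real.exp (L * |t|) ≤ Real.exp L := by
    apply Real.exp_le_exp.2
    nlinarith only [ht, hL]
  have hd0 : 0 ≤ d := (dd_nonneg v w).trans hd
  have h5 : dd v (Φ s w) ≤ c ^ 2 * (d + |s|) := by
    calc dd v (Φ s w) ≤ c * (dd v w + dd w (Φ s w)) := h2
      _ ≤ c * (d + c * |s|) := by (clear * - hd h1 hc; gcongr)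
      _ ≤ c * (c * d + c * |s|) := by
          gcongr
          have := hA.one_le
          nlinarith
      _ = c ^ 2 * (d + |s|) := by ring
  calc dd (Φ t v) (Φ t (Φ s w)) ≤ c * Real.exp (L * |t|) * dd v (Φ s w) := h3
    _ ≤ c * Real.exp L * (c ^ 2 * (d + |s|)) := by
        have := dd_nonneg v (Φ s w)
        (clear * - h4 hc h5 this; gcongr)
    _ = c ^ 3 * Real.exp L * (d + |s|) := by ring

/-- the core: all constants explicit -/
theorem core (hA : PairAlg Γ x y τ c r) (hF : PairFl Φ c L) (hD : PairDer Φ x y τ κ c r)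
    (hL : 0 ≤ L) (hk : ∀ v, |κ v| ≤ k) (h0 : ∀ g, Φ 0 g = g)
    (hadd : ∀ s t g, Φ (s + t) g = Φ s (Φ t g)) {K u : ℝ} (hK : K = 4 * c ^ 4 * Real.exp L)
    (hu : 0 < u) (e1 : c * u ≤ r / 1000) (e2 : K * u ≤ r / 1000) (e3 : c * K * u ≤ r / 1000)
    (e4 : c * K ^ 2 * u ≤ r / 1000) (e5 : k * c * K * u ≤ r / 1000)
    (e6 : c ^ 2 * K ^ 3 * u ≤ r / 1000)
    {Y ε s t : ℝ} {v w : SL(2, ℝ)} (hY : 0 < Y) (hYu : Y ≤ u) (hε : 0 < ε) (hεY : ε ≤ 1 / 16 * Y)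
    (hs : |s| ≤ u) (ht : |t| ≤ u)
    (hd : dd v w ≤ r) (hx : |x v w| ≤ ε) (hτ : |τ v w| ≤ ε) (hlo : Y ≤ |y v w|)
    (hhi : |y v w| ≤ 2 * Y)
    (hx' : |x (Φ s v) (Φ t w)| ≤ ε) (hτ' : |τ (Φ s v) (Φ t w)| ≤ ε) :
    |s| ≤ 20 * ε / Y ∧ |t - s| ≤ 5 * ε := by
  have hc1 := hA.one_le
  have hc : 0 < c := by linarith
  have hr := hA.rpos
  have hr1 := hA.rle
  have hk0 : 0 ≤ k := (abs_nonneg _).trans (hk 1)
  have hexp : 1 ≤ Real.exp L := Real.one_le_exp hL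
  have hc4 : 1 ≤ c ^ 4 := one_le_pow₀ hc1
  have hK4 : 4 ≤ K := by
    rw [hK]
    nlinarith only [hexp, hc4]
  have hK0 : 0 < K := by linarith
  have hu1 : u ≤ 1 / 1000 := by
    have : 1 * u ≤ c * u := by gcongr
    linarith
  set δ : ℝ := t - s with hδ
  have hδu : |δ| ≤ 2 * u := by
    have := abs_sub t s
    linarith
  have hδ0 : 0 ≤ |δ| := abs_nonneg _
  have hs0 : 0 ≤ |s| := abs_nonneg _
  have htW : Φ t w = Φ s (Φ δ w) := by
    rw [← hadd, hδ]; congr 1; ring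
  rw [htW] at hx' hτ'
  -- (0) the distances
  have hdvw : dd v w ≤ 4 * c * Y := by
    have h1 := hA.dle v w hd
    have h2 : c * (|x v w| + |y v w| + |τ v w|) ≤ c * (4 * Y) := by
      apply mul_le_mul_of_nonneg_left _ hc.le
      linarith
    linarith
  have hcY : c * Y ≤ c * u := by gcongr
  have hdist : ∀ σ a : ℝ, |σ| ≤ u → |a| ≤ |δ| → dd (Φ σ v) (Φ σ (Φ a w)) ≤ K * (Y + |δ|) := by
    intro σ a hσ ha
    have h1 := dd_rect hA hF hL (v := v) (w := w) (d := 4 * c * Y) (t := σ) (s := a) hdvw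
      (by linarith) (by linarith) (by linarith)
      (by
        have : c * |a| ≤ c * (2 * u) := by
          apply mul_le_mul_of_nonneg_left _ hc.le
          linarith
        linarith)
    refine h1.trans ?_
    have h2 : 4 * c * Y + |a| ≤ 4 * c * (Y + |δ|) := by
      have : |δ| ≤ 4 * c * |δ| := by nlinarith only [hc1, hδ0]
      linarith
    calc c ^ 3 * Real.exp L * (4 * c * Y + |a|) ≤ c ^ 3 * Real.exp L * (4 * c * (Y + |δ|)) := by
          gcongr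
      _ = K * (Y + |δ|) := by rw [hK]; ring
  have hYδ : Y + |δ| ≤ 3 * u := by linarith
  have hYδ0 : 0 < Y + |δ| := by linarith
  have hKr : K * (Y + |δ|) ≤ r := by
    have : K * (Y + |δ|) ≤ K * (3 * u) := by gcongr
    linarith
  have hcK4 : c * (K * (Y + |δ|)) ≤ 1 / 4 := by
    have : c * (K * (Y + |δ|)) ≤ c * (K * (3 * u)) := by gcongr
    linarith
  have hKs : K * |s| ≤ 1 / 2 := by
    have : K * |s| ≤ K * u := by gcongr
    linarith
  have z : ∀ R : ℝ, 0 ≤ R → |(0 : ℝ)| ≤ R := fun R hR => by rwa [abs_zero]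
  -- (1) the coordinate `τ`
  have hτ1 : |τ (Φ s v) (Φ s (Φ δ w)) - τ v (Φ δ w)| ≤ (Y + |δ|) / 8 ∧
      |τ (Φ s v) (Φ s (Φ δ w)) - τ v (Φ δ w)| ≤ c * (K * (Y + |δ|)) ^ 2 * |s| := by
    have h1 := NC.mvt (f := fun σ => τ (Φ σ v) (Φ σ (Φ δ w))) (a := 0)
      (C := c * (K * (Y + |δ|)) ^ 2) (R := |s|) (fun σ hσ => by
        have h2 := hdist σ δ (hσ.trans hs) le_rfl
        obtain ⟨f', hf, hb⟩ := hD.td (Φ σ v) (Φ σ (Φ δ w)) (h2.trans hKr)
        refine ⟨f', shift_d hadd (f := τ) hf, ?_⟩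
        rw [sub_zero]
        refine hb.trans ?_
        have := dd_nonneg (Φ σ v) (Φ σ (Φ δ w))
        gcongr) (t := s) (t' := 0) le_rfl (z _ hs0)
    simp only [sub_zero, mul_zero, h0] at h1
    refine ⟨h1.trans ?_, h1⟩
    calc c * (K * (Y + |δ|)) ^ 2 * |s| = c * (K * (Y + |δ|)) * (K * |s|) * (Y + |δ|) := by ring
      _ ≤ 1 / 4 * (1 / 2) * (Y + |δ|) := by gcongr
      _ = (Y + |δ|) / 8 := by ring
  have hτ2 : |τ v (Φ δ w) - τ v w - δ| ≤ c * (K * (Y + |δ|)) * |δ| := by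
    have h1 := NC.mvt (f := fun a => τ v (Φ a w)) (a := 1)
      (C := c * (K * (Y + |δ|))) (R := |δ|) (fun a ha => by
        have h2 := hdist 0 a (z _ hu.le) ha
        rw [h0, h0] at h2
        obtain ⟨f', hf, hb⟩ := hD.tm v (Φ a w) (h2.trans hKr)
        refine ⟨f', shift_m hadd (f := τ) hf, ?_⟩
        refine hb.trans ?_
        gcongr) (t := δ) (t' := 0) le_rfl (z _ hδ0)
    simp only [sub_zero, mul_one, h0] at h1
    exact h1
  have hτ3 : c * (K * (Y + |δ|)) * |δ| ≤ 1 / 4 * |δ| := by gcongr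
  have hδ1 : |δ| ≤ 2 * ε + |τ (Φ s v) (Φ s (Φ δ w)) - τ v (Φ δ w)| +
      c * (K * (Y + |δ|)) * |δ| := by
    have b1 : |δ| ≤ |τ (Φ s v) (Φ s (Φ δ w))| + |τ v w| +
        |τ (Φ s v) (Φ s (Φ δ w)) - τ v (Φ δ w)| + |τ v (Φ δ w) - τ v w - δ| := by
      have e : δ = τ (Φ s v) (Φ s (Φ δ w)) - τ v w -
        (τ (Φ s v) (Φ s (Φ δ w)) - τ v (Φ δ w)) - (τ v (Φ δ w) - τ v w - δ) := by ring
      have a1 := abs_sub (τ (Φ s v) (Φ s (Φ δ w)) - τ v w -
        (τ (Φ s v) (Φ s (Φ δ w)) - τ v (Φ δ w))) (τ v (Φ δ w) - τ v w - δ)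
      have a2 := abs_sub (τ (Φ s v) (Φ s (Φ δ w)) - τ v w)
        (τ (Φ s v) (Φ s (Φ δ w)) - τ v (Φ δ w))
      have a3 := abs_sub (τ (Φ s v) (Φ s (Φ δ w))) (τ v w)
      rw [← e] at a1
      linarith
    linarith
  have hδY : |δ| ≤ Y := by
    have := hτ1.1
    linarith
  have hYδ2 : Y + |δ| ≤ 2 * Y := by linarith
  have hδ2 : |δ| ≤ 4 * ε + 8 * (c * K ^ 2 * Y ^ 2 * |s|) := by
    have h1 : c * (K * (Y + |δ|)) ^ 2 * |s| ≤ c * (K * (2 * Y)) ^ 2 * |s| := by gcongr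
    have h2 : c * (K * (2 * Y)) ^ 2 * |s| = 4 * (c * K ^ 2 * Y ^ 2 * |s|) := by ring
    have h3 : 0 ≤ c * K ^ 2 * Y ^ 2 * |s| := by positivity
    have := hτ1.2
    linarith
  -- (2) the coordinates `y` and `x`
  have hcKY : c * (K * (Y + |δ|)) ≤ 2 * (c * K * Y) := by
    calc c * (K * (Y + |δ|)) ≤ c * (K * (2 * Y)) := by gcongr
      _ = 2 * (c * K * Y) := by ring
  have hy1 : |y v (Φ δ w) - y v w| ≤ Y / 4 := by
    have h1 := NC.mvt (f := fun a => y v (Φ a w)) (a := 0)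
      (C := c * (K * (Y + |δ|))) (R := |δ|) (fun a ha => by
        have h2 := hdist 0 a (z _ hu.le) ha
        rw [h0, h0] at h2
        obtain ⟨f', hf, hb⟩ := hD.ym v (Φ a w) (h2.trans hKr)
        refine ⟨f', shift_m hadd (f := y) hf, ?_⟩
        rw [sub_zero]
        refine hb.trans ?_
        gcongr) (t := δ) (t' := 0) le_rfl (z _ hδ0)
    simp only [sub_zero, mul_zero, h0] at h1
    linarith
  have hx1 : |x v (Φ δ w) - x v w| ≤ 2 * (c * K * Y) * |δ| := by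
    have h1 := NC.mvt (f := fun a => x v (Φ a w)) (a := 0)
      (C := 2 * (c * K * Y)) (R := |δ|) (fun a ha => by
        have h2 := hdist 0 a (z _ hu.le) ha
        rw [h0, h0] at h2
        obtain ⟨f', hf, hb⟩ := hD.xm v (Φ a w) (h2.trans hKr)
        refine ⟨f', shift_m hadd (f := x) hf, ?_⟩
        rw [sub_zero]
        refine hb.trans (le_trans ?_ hcKY)
        gcongr) (t := δ) (t' := 0) le_rfl (z _ hδ0)
    simp only [sub_zero, mul_zero, h0] at h1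
    exact h1
  have hdist2 : ∀ σ : ℝ, |σ| ≤ u → dd (Φ σ v) (Φ σ (Φ δ w)) ≤ 2 * (K * Y) := by
    intro σ hσ
    refine (hdist σ δ hσ le_rfl).trans ?_
    calc K * (Y + |δ|) ≤ K * (2 * Y) := by gcongr
      _ = 2 * (K * Y) := by ring
  have hdr : ∀ σ : ℝ, |σ| ≤ u → dd (Φ σ v) (Φ σ (Φ δ w)) ≤ r := fun σ hσ =>
    (hdist σ δ hσ le_rfl).trans hKr
  have hKYY : c * (2 * (K * Y)) ^ 2 ≤ Y / 4 := by
    have h1 : c * K ^ 2 * Y ≤ c * K ^ 2 * u := by gcongr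
    have h2 : 4 * (c * K ^ 2 * Y) * Y ≤ 1 / 4 * Y := by
      apply mul_le_mul_of_nonneg_right _ hY.le
      linarith
    calc c * (2 * (K * Y)) ^ 2 = 4 * (c * K ^ 2 * Y) * Y := by ring
      _ ≤ 1 / 4 * Y := h2
      _ = Y / 4 := by ring
  have hy2 : ∀ σ : ℝ, |σ| ≤ |s| → |y (Φ σ v) (Φ σ (Φ δ w)) - y v (Φ δ w)| ≤ Y / 4 := by
    intro σ hσ
    have h1 := NC.mvt (f := fun σ => y (Φ σ v) (Φ σ (Φ δ w))) (a := 0)
      (C := k * (c * (2 * (K * Y))) + Y / 4) (R := |s|) (fun σ hσ => by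
        have hσu := hσ.trans hs
        have h2 := hdist2 σ hσu
        have h3 := hdr σ hσu
        obtain ⟨f', hf, hb⟩ := hD.yd (Φ σ v) (Φ σ (Φ δ w)) h3
        refine ⟨f', shift_d hadd (f := y) hf, ?_⟩
        rw [sub_zero]
        have h4 := hA.xle _ _ h3
        have h5 : |κ (Φ σ v) * x (Φ σ v) (Φ σ (Φ δ w))| ≤ k * (c * (2 * (K * Y))) := by
          rw [abs_mul]
          have h6 : |x (Φ σ v) (Φ σ (Φ δ w))| ≤ c * (2 * (K * Y)) := h4.trans (by gcongr)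
          have h7 := hk (Φ σ v)
          gcongr
        have h6 : c * dd (Φ σ v) (Φ σ (Φ δ w)) ^ 2 ≤ Y / 4 := by
          refine le_trans ?_ hKYY
          have := dd_nonneg (Φ σ v) (Φ σ (Φ δ w))
          gcongr
        have h7 := abs_add_le (f' - κ (Φ σ v) * x (Φ σ v) (Φ σ (Φ δ w)))
          (κ (Φ σ v) * x (Φ σ v) (Φ σ (Φ δ w)))
        rw [sub_add_cancel] at h7
        linarith) (t := σ) (t' := 0) hσ (z _ hs0)
    simp only [sub_zero, mul_zero, h0] at h1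
    refine h1.trans ?_
    have h2 : (k * (c * (2 * (K * Y))) + Y / 4) * |σ| ≤ (k * (c * (2 * (K * Y))) + Y / 4) * u := by
      have := hσ.trans hs
      gcongr
    have h3 : (k * (c * (2 * (K * Y))) + Y / 4) * u = (2 * (k * c * K * u) + u / 4) * Y := by ring
    have h4 : (2 * (k * c * K * u) + u / 4) * Y ≤ 1 / 4 * Y := by
      apply mul_le_mul_of_nonneg_right _ hY.le
      linarith
    linarith
  have hx2 : |x (Φ s v) (Φ s (Φ δ w)) - x v (Φ δ w) - s * y v w| ≤ 3 * Y / 4 * |s| := by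
    have h1 := NC.mvt (f := fun σ => x (Φ σ v) (Φ σ (Φ δ w))) (a := y v w)
      (C := 3 * Y / 4) (R := |s|) (fun σ hσ => by
        have hσu := hσ.trans hs
        have h2 := hdist2 σ hσu
        have h3 := hdr σ hσu
        obtain ⟨f', hf, hb⟩ := hD.xd (Φ σ v) (Φ σ (Φ δ w)) h3
        refine ⟨f', shift_d hadd (f := x) hf, ?_⟩
        have h6 : c * dd (Φ σ v) (Φ σ (Φ δ w)) ^ 2 ≤ Y / 4 := by
          refine le_trans ?_ hKYY
          have := dd_nonneg (Φ σ v) (Φ σ (Φ δ w))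
          gcongr
        have h4 := hy2 σ hσ
        have a1 := abs_add_le (f' - y (Φ σ v) (Φ σ (Φ δ w)))
          (y (Φ σ v) (Φ σ (Φ δ w)) - y v (Φ δ w) + (y v (Φ δ w) - y v w))
        have a2 := abs_add_le (y (Φ σ v) (Φ σ (Φ δ w)) - y v (Φ δ w)) (y v (Φ δ w) - y v w)
        have e : f' - y (Φ σ v) (Φ σ (Φ δ w)) +
          (y (Φ σ v) (Φ σ (Φ δ w)) - y v (Φ δ w) + (y v (Φ δ w) - y v w)) = f' - y v w := by
            ring
        rw [e] at a1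
        linarith) (t := s) (t' := 0) le_rfl (z _ hs0)
    simp only [sub_zero, h0] at h1
    exact h1
  have hs1 : |s| * Y / 4 ≤ 2 * ε + 2 * (c * K * Y) * |δ| := by
    have a1 : |s * y v w| ≤ |x (Φ s v) (Φ s (Φ δ w))| + |x v w| + |x v (Φ δ w) - x v w| +
        |x (Φ s v) (Φ s (Φ δ w)) - x v (Φ δ w) - s * y v w| := by
      have e : s * y v w = x (Φ s v) (Φ s (Φ δ w)) - x v w - (x v (Φ δ w) - x v w) -
        (x (Φ s v) (Φ s (Φ δ w)) - x v (Φ δ w) - s * y v w) := by ring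
      have b1 := abs_sub (x (Φ s v) (Φ s (Φ δ w)) - x v w - (x v (Φ δ w) - x v w))
        (x (Φ s v) (Φ s (Φ δ w)) - x v (Φ δ w) - s * y v w)
      have b2 := abs_sub (x (Φ s v) (Φ s (Φ δ w)) - x v w) (x v (Φ δ w) - x v w)
      have b3 := abs_sub (x (Φ s v) (Φ s (Φ δ w))) (x v w)
      rw [← e] at b1
      linarith
    rw [abs_mul] at a1
    have a2 : |s| * Y ≤ |s| * |y v w| := by gcongr
    linarith
  -- (3) the conclusion
  have hcKYu : c * K * Y ≤ 1 / 1000 := by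
    have : c * K * Y ≤ c * K * u := by gcongr
    linarith
  have hs2 : |s| * Y ≤ 16 * ε := by
    have h1 : 2 * (c * K * Y) * |δ| ≤ 2 * (c * K * Y) * (4 * ε + 8 * (c * K ^ 2 * Y ^ 2 * |s|)) := by
      gcongr
    have h2 : 2 * (c * K * Y) * (4 * ε + 8 * (c * K ^ 2 * Y ^ 2 * |s|)) =
        8 * ((c * K * Y) * ε) + 16 * ((c ^ 2 * K ^ 3 * Y) * Y) * (|s| * Y) := by ring
    have h3 : (c * K * Y) * ε ≤ 1 / 1000 * ε := by gcongr
    have h4 : (c ^ 2 * K ^ 3 * Y) * Y ≤ 1 / 1000 * 1 := by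
      have h5 : c ^ 2 * K ^ 3 * Y ≤ c ^ 2 * K ^ 3 * u := by gcongr
      have h6 : c ^ 2 * K ^ 3 * Y ≤ 1 / 1000 := by linarith
      have h7 : Y ≤ 1 := by linarith
      gcongr
    have h5 : 16 * ((c ^ 2 * K ^ 3 * Y) * Y) * (|s| * Y) ≤ 16 * (1 / 1000 * 1) * (|s| * Y) := by
      gcongr
    have h6 : 0 ≤ |s| * Y := by positivity
    linarith
  refine ⟨?_, ?_⟩
  · rw [le_div_iff₀ hY]
    linarith
  · have h1 : c * K ^ 2 * Y ^ 2 * |s| = (c * K ^ 2 * Y) * (|s| * Y) := by ring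
    have h2 : c * K ^ 2 * Y ≤ 1 / 1000 := by
      have : c * K ^ 2 * Y ≤ c * K ^ 2 * u := by gcongr
      linarith
    have h3 : (c * K ^ 2 * Y) * (|s| * Y) ≤ 1 / 1000 * (16 * ε) := by
      gcongr
    linarith

/-- the curvature is bounded -/
theorem kap_bd {ρ : ℍ → ℝ} (hF : Fac Γ ρ) (hρ : Continuous ρ) :
    ∃ k : ℝ, ∀ g, |kap ρ g| ≤ k := by
  obtain ⟨K, hK, hcov⟩ := hF.cpt
  set f : ℍ → ℝ := fun z => Real.exp (-(2 * ρ z)) * lapR ρ z with hf
  have hfc : Continuous f := (Real.continuous_exp.comp (hρ.const_mul 2).neg).mul (at_lap_cont hF)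
  have hfinv : ∀ γ ∈ Γ, ∀ z, f (γ • z) = f z := fun γ hγ z => by
    simp only [hf, hF.inv γ hγ, at_lap_inv hF hγ]
  obtain ⟨k, hk⟩ := hK.exists_bound_of_continuousOn (f := f) hfc.continuousOn
  refine ⟨k, fun g => ?_⟩
  obtain ⟨γ, hγ, hz⟩ := hcov (g • UpperHalfPlane.I)
  have := hk _ hz
  rw [hfinv γ hγ] at this
  simpa [hf, kap, Real.norm_eq_abs] using this

end SMP

theorem t_SMP (hL : NC.StmtLip) (hA : NC.StmtAlg) (hF : NC.StmtFl) (hD : NC.StmtDer) :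
    StmtSmp := by
  intro Γ ρ Φ hFac hΦ
  obtain ⟨-, -, hρc, -⟩ := hL Γ ρ hFac
  obtain ⟨k, hk⟩ := SMP.kap_bd hFac hρc
  obtain ⟨c₁, r₁, hA1⟩ := hA Γ ρ hFac
  obtain ⟨c₂, L, hc₂, hL0, hF1⟩ := hF Γ ρ Φ hFac hΦ
  obtain ⟨c₃, r₃, hc₃, hr₃, hD1⟩ := hD Γ ρ Φ hFac hΦ
  set c : ℝ := max c₁ (max c₂ c₃) with hc
  set r : ℝ := min r₁ r₃ with hr
  have hr0 : 0 < r := lt_min hA1.rpos hr₃
  have hr1 : r ≤ 1 := (min_le_left _ _).trans hA1.rle
  have hA2 : PairAlg Γ (xx ρ) (yy ρ) (tt ρ) c r :=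
    at_alg_mono hA1 (le_max_left _ _) hr0 (min_le_left _ _)
  have hF2 : PairFl Φ c L := at_fl_mono hF1 ((le_max_left _ _).trans (le_max_right _ _))
  have hD2 : PairDer Φ (xx ρ) (yy ρ) (tt ρ) (kap ρ) c r :=
    at_der_mono hD1 ((le_max_right _ _).trans (le_max_right _ _)) (min_le_right _ _)
  have hc1 : 1 ≤ c := hA2.one_le
  have hk0 : 0 ≤ k := (abs_nonneg _).trans (hk 1)
  set K : ℝ := 4 * c ^ 4 * Real.exp L with hK
  have hexp : 1 ≤ Real.exp L := Real.one_le_exp hL0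
  have hc4 : 1 ≤ c ^ 4 := one_le_pow₀ hc1
  have hK1 : 1 ≤ K := by
    rw [hK]
    nlinarith only [hexp, hc4]
  set P : ℝ := c ^ 2 * K ^ 3 * (k + 1) with hP
  have hP0 : 0 < P := by positivity
  have hcK : 1 ≤ c * K := one_le_mul_of_one_le_of_one_le hc1 hK1
  have hk1 : 1 ≤ k + 1 := by linarith
  set u : ℝ := r / (1000 * P) with hu
  have hu0 : 0 < u := by positivity
  have hPu : P * u = r / 1000 := by rw [hu]; field_simp
  have key : ∀ q : ℝ, q ≤ P → q * u ≤ r / 1000 := fun q hq => by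
    rw [← hPu]
    gcongr
  have g1 : c ≤ P := by
    calc c = c * 1 * 1 := by ring
      _ ≤ c ^ 2 * K ^ 3 * (k + 1) := by
        have : 1 ≤ K ^ 3 := one_le_pow₀ hK1
        have : c ≤ c ^ 2 := le_self_pow₀ hc1 (by norm_num)
        gcongr
  have g2 : K ≤ P := by
    calc K = 1 * K * 1 := by ring
      _ ≤ c ^ 2 * K ^ 3 * (k + 1) := by
        have : K ≤ K ^ 3 := le_self_pow₀ hK1 (by norm_num)
        have : 1 ≤ c ^ 2 := one_le_pow₀ hc1
        gcongr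
  have g3 : c * K ≤ P := by
    calc c * K = c * K * 1 := by ring
      _ ≤ c ^ 2 * K ^ 3 * (k + 1) := by
        have : K ≤ K ^ 3 := le_self_pow₀ hK1 (by norm_num)
        have : c ≤ c ^ 2 := le_self_pow₀ hc1 (by norm_num)
        gcongr
  have g4 : c * K ^ 2 ≤ P := by
    calc c * K ^ 2 = c * K ^ 2 * 1 := by ring
      _ ≤ c ^ 2 * K ^ 3 * (k + 1) := by
        have : K ^ 2 ≤ K ^ 3 := pow_le_pow_right₀ hK1 (by norm_num)
        have : c ≤ c ^ 2 := le_self_pow₀ hc1 (by norm_num)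
        gcongr
  have g5 : k * c * K ≤ P := by
    calc k * c * K = c * K * k := by ring
      _ ≤ c ^ 2 * K ^ 3 * (k + 1) := by
        have : K ≤ K ^ 3 := le_self_pow₀ hK1 (by norm_num)
        have : c ≤ c ^ 2 := le_self_pow₀ hc1 (by norm_num)
        have : k ≤ k + 1 := by linarith
        gcongr
  have g6 : c ^ 2 * K ^ 3 ≤ P := by
    calc c ^ 2 * K ^ 3 = c ^ 2 * K ^ 3 * 1 := by ring
      _ ≤ c ^ 2 * K ^ 3 * (k + 1) := by gcongr
  refine ⟨20, r, u, u, 1 / 16, by norm_num, hr0, hu0, hu0, by norm_num, ?_⟩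
  intro Y ε s t v w hY hYu hε hεY hs ht h1 h2
  have h3 := SMP.core hA2 hF2 hD2 hL0 hk hΦ.zero hΦ.add hK hu0 (key _ g1) (key _ g2) (key _ g3)
    (key _ g4) (key _ g5) (key _ g6) hY hYu hε hεY hs ht h1.d h1.x h1.t h1.lo h1.hi h2.x h2.t
  exact ⟨h3.1, h3.2.trans (by linarith)⟩

end

end CRM
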