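import Pool.Agent.CRM.AN2
import Pool.Agent.CRM.ANG
import Pool.Agent.CRM.ANZ
import Pool.Agent.CRM.ARS
import Pool.Agent.CRM.CNV
import Pool.Agent.CRM.Glob
import Pool.Agent.CRM.NUI
import Pool.Agent.CRM.SMA
import Pool.Agent.CRM.SMP
import Pool.Agent.BWM.C28
import Pool.Agent.BWM.C29
import Pool.Agent.BWM.C30
import Pool.Agent.NFP.SemU

/-!
The crossing measure of a semiclassical measure on a closed surface: the theorem.
-/

open MeasureTheory Filter Topology Set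
open UpperHalfPlane hiding I
open scoped ContDiff MatrixGroups

namespace CRM

open QE QE.NC QJ U3 NFP

theorem smp : StmtSmp :=
  t_SMP NC.stmtLip (NC.stmtAlg NC.stmtLip) (NC.stmtFl NC.stmtLip) (NC.stmtDer NC.stmtLip)
theorem sma : StmtSma := t_SMA smp t_ARS (NC.stmtAlg NC.stmtLip)
theorem cnv : StmtCnv := t_CNV NC.stmtLip
theorem ang : StmtAng := t_ANG sma cnv con stmtRot
theorem an2 : StmtAn2 := t_AN2 ang NC.stmtLip
theorem nui : StmtNui := t_NUI stmtLcz t_DNS wgl stmtRot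
theorem anz : StmtAnz := t_ANZ nui an2 sym t_DNS (NC.stmtFlow NC.stmtLip)

/-- the moments of two jets are those of the semiclassical measure -/
theorem jg_of {Γ : Subgroup SL(2, ℝ)} {ρ : ℍ → ℝ} (hF : Fac Γ ρ) {φ : ℕ → ℍ → ℝ} {m : ℕ → ℝ}
    {μ : Measure (ℍ × S1)}
    (hL : LocU UH (gr ρ) (fun n => 1 / m n) (fun n z => (φ n (ofComplex z) : ℂ)))
    (hμ : Semiclassical ρ φ m μ) :
    JG ρ (fun n => 1 / m n) (fun n z => (φ n (ofComplex z) : ℂ)) μ :=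
  semU ρ φ m μ hF.smooth hL hμ

/-- **the crossing measure of a semiclassical measure** -/
theorem main {Γ : Subgroup SL(2, ℝ)} {ρ : ℍ → ℝ} (hF : Fac Γ ρ)
    {φ : ℕ → ℍ → ℝ} {m : ℕ → ℝ} {μ : Measure (ℍ × S1)}
    (hL : LocU UH (gr ρ) (fun n => 1 / m n) (fun n z => (φ n (ofComplex z) : ℂ)))
    (hφ : ∀ γ ∈ Γ, ∀ n z, φ n (γ • z) = φ n z) (hμ : Semiclassical ρ φ m μ) :
    ∃ ϖ : Measure (ℍ × S1), Crossing ρ μ ϖ ∧
      (∀ γ ∈ Γ, Measure.map (fun p : ℍ × S1 => (γ • p.1, p.2)) ϖ = ϖ) ∧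
      ϖ {p | (p.2 : ℂ) ^ 2 = 1} = 0 ∧
      CRN.LinkG ρ (fun n => 1 / m n) (fun n z => (φ n (ofComplex z) : ℂ)) ϖ := by
  obtain ⟨ϖ, h1, h2, h3⟩ := crossing semU hF hL hφ hμ
  exact ⟨ϖ, h1, h2, anz Γ ρ hF _ _ μ ϖ hL hμ.fin (jg_of hF hL hμ) h1, h3⟩

end CRM
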