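import Pool.Agent.CRM.StQ

/-!
QEI: integrals with respect to the crossing measure of the Liouville measure.
-/

open Complex MeasureTheory Filter Topology Set
open UpperHalfPlane hiding I
open scoped ContDiff MatrixGroups ProbabilityTheory

namespace CRM

open QE QE.NC QJ U3 NFP

namespace QEI

lemma cont_dirS : Continuous dirS := by
  unfold dirS
  refine Continuous.subtype_mk ?_ _
  fun_prop

lemma dirS_coe (a : ℝ) : (dirS a : ℂ) = Complex.exp (a * Complex.I) := rfl

lemma dirS_div (a b : ℝ) : dirS a / dirS b = dirS (a - b) := by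
  apply Subtype.ext
  rw [Metric.unitSphere.coe_div, dirS_coe, dirS_coe, dirS_coe, ← Complex.exp_sub]
  congr 1
  push_cast
  ring

lemma dirS_period : Function.Periodic dirS (2 * Real.pi) := by
  intro a
  apply Subtype.ext
  rw [dirS_coe, dirS_coe]
  push_cast
  rw [add_mul, Complex.exp_add, Complex.exp_two_pi_mul_I, mul_one]

lemma dirS_surj (t : S1) : ∃ a : ℝ, dirS a = t := by
  refine ⟨Complex.arg (t : ℂ), ?_⟩
  apply Subtype.ext
  have h1 : ‖(t : ℂ)‖ = 1 := by
    have := t.2
    rwa [mem_sphere_zero_iff_norm] at this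
  have h2 := Complex.norm_mul_exp_arg_mul_I (t : ℂ)
  rw [h1, Complex.ofReal_one, one_mul] at h2
  exact h2

lemma dirS_im (a : ℝ) : (dirS a : ℂ).im = Real.sin a := by
  rw [dirS_coe, Complex.exp_ofReal_mul_I_im]

instance prob_angle : IsProbabilityMeasure angle := Berry.angle_prob

instance prob_uniS : IsProbabilityMeasure uniS := by
  unfold uniS
  exact Measure.isProbabilityMeasure_map cont_dirS.measurable.aemeasurable

/-- the directions with a given angle up to sign form a null set -/
lemma null (t : S1) : uniS {t' | ((t / t' : S1) : ℂ).im = 0} = 0 := by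
  have hc : Continuous fun t' : S1 => ((t / t' : S1) : ℂ).im :=
    Complex.continuous_im.comp (continuous_subtype_val.comp (continuous_const.div' continuous_id))
  have hm : MeasurableSet {t' : S1 | ((t / t' : S1) : ℂ).im = 0} :=
    (isClosed_eq hc continuous_const).measurableSet
  obtain ⟨a, ha⟩ := dirS_surj t
  unfold uniS
  rw [Measure.map_apply cont_dirS.measurable hm]
  have hv : (volume : Measure ℝ) (dirS ⁻¹' {t' : S1 | ((t / t' : S1) : ℂ).im = 0}) = 0 := by
    refine Set.Countable.measure_zero ?_ _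
    refine (Set.countable_range fun n : ℤ => a - n * Real.pi).mono ?_
    intro θ hθ
    have h1 : ((t / dirS θ : S1) : ℂ).im = 0 := hθ
    rw [← ha, dirS_div, dirS_im, Real.sin_eq_zero_iff] at h1
    obtain ⟨n, hn⟩ := h1
    refine ⟨n, ?_⟩
    show a - n * Real.pi = θ
    linarith
  exact ProbabilityTheory.cond_absolutelyContinuous hv

/-- integrals with respect to the uniform measure -/
lemma int_uniS (g : S1 → ℝ) (hg : Continuous g) :
    ∫ t, g t ∂uniS = ∫ θ, g (dirS θ) ∂angle := by
  unfold uniS
  rw [integral_map cont_dirS.measurable.aemeasurable hg.aestronglyMeasurable]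

/-- invariance of the uniform measure -/
lemma inv (g : S1 → ℝ) (hg : Continuous g) (t : S1) :
    ∫ t', g (t / t') ∂uniS = ∫ θ, g (dirS θ) ∂angle := by
  obtain ⟨a, ha⟩ := dirS_surj t
  rw [int_uniS (fun t' => g (t / t')) (hg.comp (continuous_const.div' continuous_id))]
  have e : ∀ θ, g (t / dirS θ) = g (dirS (a - θ)) := by
    intro θ
    rw [← ha, dirS_div]
  simp only [e]
  have h1 : ∀ f : ℝ → ℝ, ∫ t, f t ∂angle = (2 * Real.pi)⁻¹ • ∫ t in (0 : ℝ)..(2 * Real.pi), f t :=
    fun f => ang_int f
  rw [h1, h1]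
  congr 1
  have hper : Function.Periodic (fun θ => g (dirS θ)) (2 * Real.pi) := fun θ => by
    show g (dirS (θ + 2 * Real.pi)) = g (dirS θ)
    rw [dirS_period θ]
  have h2 := intervalIntegral.integral_comp_sub_left (a := 0) (b := 2 * Real.pi)
    (fun θ => g (dirS θ)) a
  rw [h2]
  have h3 := hper.intervalIntegral_add_eq (a - 2 * Real.pi) 0
  rw [sub_add_cancel, zero_add] at h3
  rw [sub_zero]
  exact h3

/-- the map to the angles -/
noncomputable def qm (p : (ℍ × S1) × S1) : ℍ × S1 := (p.1.1, p.1.2 / p.2)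

lemma cont_qm : Continuous qm :=
  (continuous_fst.comp continuous_fst).prodMk
    ((continuous_snd.comp continuous_fst).div' continuous_snd)

lemma cont_im2 : Continuous fun p : (ℍ × S1) × S1 => ((p.1.2 / p.2 : S1) : ℂ).im ^ 2 :=
  (Complex.continuous_im.comp (continuous_subtype_val.comp
    (continuous_snd.comp cont_qm))).pow 2

instance sfin_area (ρ : ℍ → ℝ) : SFinite (Berry.area ρ) := by
  unfold Berry.area
  infer_instance

lemma crossS_const (ρ : ℍ → ℝ) : crossS ρ (ProbabilityTheory.Kernel.const ℍ uniS)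
    = Measure.map qm ((((Berry.area ρ).prod uniS).prod uniS).withDensity
      fun p => ENNReal.ofReal (((p.1.2 / p.2 : S1) : ℂ).im ^ 2)) := by
  unfold crossS
  have e : (ProbabilityTheory.Kernel.const ℍ uniS).comap Prod.fst measurable_fst
      = ProbabilityTheory.Kernel.const (ℍ × S1) uniS := rfl
  rw [e, Measure.compProd_const, Measure.compProd_const]
  rfl

end QEI

open QEI in
theorem t_QEI : StmtQei := by
  intro ρ D hρ hD hDf w hw hwB g hg
  obtain ⟨B, hB⟩ := hwB
  have hDu : MeasurableSet (D ×ˢ (univ : Set S1)) := hD.prod MeasurableSet.univ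
  have hDuu : MeasurableSet ((D ×ˢ (univ : Set S1)) ×ˢ (univ : Set S1)) :=
    hDu.prod MeasurableSet.univ
  have hpre : qm ⁻¹' (D ×ˢ univ) = ((D ×ˢ univ) ×ˢ univ : Set ((ℍ × S1) × S1)) := by
    ext p
    simp [qm]
  have hmF : Measurable fun p : ℍ × S1 => w p.1 * (g p.2 / (p.2 : ℂ).im ^ 2) := by
    refine (hw.comp continuous_fst).measurable.mul ((hg.comp continuous_snd).measurable.div ?_)
    exact ((Complex.continuous_im.comp (continuous_subtype_val.comp continuous_snd)).pow 2).measurable
  rw [crossS_const, setIntegral_map hDu hmF.aestronglyMeasurable cont_qm.measurable.aemeasurable,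
    hpre, restrict_withDensity hDuu,
    integral_withDensity_eq_integral_toReal_smul cont_im2.measurable.ennreal_ofReal
      (Eventually.of_forall fun p => ENNReal.ofReal_lt_top)]
  have hres : ((((Berry.area ρ).prod uniS).prod uniS).restrict ((D ×ˢ univ) ×ˢ univ))
      = (((Berry.area ρ).restrict D).prod uniS).prod uniS := by
    rw [← Measure.prod_restrict, ← Measure.prod_restrict, Measure.restrict_univ]
  rw [hres]
  have hfin : IsFiniteMeasure ((Berry.area ρ).restrict D) := ⟨by
    rw [Measure.restrict_apply_univ]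
    exact hDf⟩
  -- the integrand
  have hae : (fun p : (ℍ × S1) × S1 => (ENNReal.ofReal (((p.1.2 / p.2 : S1) : ℂ).im ^ 2)).toReal •
      (w (qm p).1 * (g (qm p).2 / ((qm p).2 : ℂ).im ^ 2)))
      =ᵐ[(((Berry.area ρ).restrict D).prod uniS).prod uniS]
      fun p => w p.1.1 * g (p.1.2 / p.2) := by
    have hcl : IsClosed {p : (ℍ × S1) × S1 | ((p.1.2 / p.2 : S1) : ℂ).im = 0} :=
      isClosed_eq (Complex.continuous_im.comp (continuous_subtype_val.comp
        (continuous_snd.comp cont_qm))) continuous_const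
    have hnull : ((((Berry.area ρ).restrict D).prod uniS).prod uniS)
        {p : (ℍ × S1) × S1 | ((p.1.2 / p.2 : S1) : ℂ).im = 0} = 0 := by
      rw [Measure.measure_prod_null hcl.measurableSet]
      exact Eventually.of_forall fun q => null q.2
    have h1 : ∀ᵐ p ∂((((Berry.area ρ).restrict D).prod uniS).prod uniS),
        ((p.1.2 / p.2 : S1) : ℂ).im ≠ 0 := by
      rw [ae_iff]
      simpa using hnull
    filter_upwards [h1] with p hp
    rw [ENNReal.toReal_ofReal (sq_nonneg _), smul_eq_mul]
    show ((p.1.2 / p.2 : S1) : ℂ).im ^ 2 *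
      (w p.1.1 * (g (p.1.2 / p.2) / ((p.1.2 / p.2 : S1) : ℂ).im ^ 2)) = w p.1.1 * g (p.1.2 / p.2)
    field_simp
  rw [integral_congr_ae hae]
  -- integrability
  have hcont : Continuous fun p : (ℍ × S1) × S1 => w p.1.1 * g (p.1.2 / p.2) :=
    (hw.comp (continuous_fst.comp continuous_fst)).mul
      (hg.comp (continuous_snd.comp cont_qm))
  obtain ⟨G, hG⟩ := (isCompact_univ (X := S1)).exists_bound_of_continuousOn hg.continuousOn
  have hB0 : 0 ≤ B := (abs_nonneg _).trans (hB UpperHalfPlane.I)
  have hint : Integrable (fun p : (ℍ × S1) × S1 => w p.1.1 * g (p.1.2 / p.2))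
      ((((Berry.area ρ).restrict D).prod uniS).prod uniS) := by
    refine Integrable.of_bound hcont.aestronglyMeasurable (B * G) (Eventually.of_forall fun p => ?_)
    rw [norm_mul]
    exact mul_le_mul (hB _) (hG _ (mem_univ _)) (norm_nonneg _) hB0
  rw [integral_prod _ hint]
  have h2 : ∀ q : ℍ × S1, ∫ t' : S1, w q.1 * g (q.2 / t') ∂uniS
      = w q.1 * ∫ θ, g (dirS θ) ∂angle := by
    intro q
    rw [integral_const_mul, inv g hg]
  simp only [h2]
  rw [integral_prod_mul (f := w) (g := fun _ : S1 => ∫ θ, g (dirS θ) ∂angle), integral_const]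
  simp

end CRM
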