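import Pool.Agent.CRM.StQ
import Pool.Agent.CRN.GJT
import Pool.Agent.CRN.Wkj

/-!
The crossing measure of the Liouville measure, and the four-jet statistics of quantum ergodic
eigenfunctions.
-/

open MeasureTheory Filter Topology Set
open UpperHalfPlane hiding I
open scoped ContDiff MatrixGroups ProbabilityTheory

namespace CRM

open QE QE.NC QJ U3 NFP CRN

noncomputable section

namespace QEC

lemma quo : StmtQuo := t_QUO (t_JID WKJ.pcv)

/-- the crossing sums depend on the exponential of the angle only -/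
lemma crossJ_congr (k : Fin 4 → ℕ) (v : ∀ i, Fin (k i) → ℂ) {α β : ℝ}
    (h : Complex.exp (α * Complex.I) = Complex.exp (β * Complex.I)) :
    crossJ k v α = crossJ k v β := by
  have h1 := t_JID WKJ.pcv k v α
  have h2 := t_JID WKJ.pcv k v β
  rw [h, ← h2] at h1
  exact_mod_cast h1

/-- the difference of the crossing sums as a function on the circle -/
lemma diff_eq (k : Fin 4 → ℕ) (v : ∀ i, Fin (k i) → ℂ) (t : S1) :
    crossJ k v (Complex.arg (t : ℂ)) - crossJ k v 0 = s2 (t : ℂ) * (quoJ k v (t : ℂ)).re := by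
  have h1 := (quo.2 k v).2.1 (Complex.arg (t : ℂ))
  rw [GJT.exp_arg] at h1
  have h2 := congrArg Complex.re h1
  rw [Complex.re_ofReal_mul, Complex.ofReal_re] at h2
  exact h2.symm

lemma cont_diff (k : Fin 4 → ℕ) (v : ∀ i, Fin (k i) → ℂ) :
    Continuous fun t : S1 => crossJ k v (Complex.arg (t : ℂ)) - crossJ k v 0 := by
  have e : (fun t : S1 => crossJ k v (Complex.arg (t : ℂ)) - crossJ k v 0)
      = fun t : S1 => s2 (t : ℂ) * (quoJ k v (t : ℂ)).re := funext fun t => diff_eq k v t
  rw [e]
  have h1 : Continuous fun t : S1 => s2 (t : ℂ) := by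
    unfold s2
    fun_prop
  exact h1.mul (Complex.continuous_re.comp ((quo.2 k v).1.comp continuous_subtype_val))

lemma int_diff (k : Fin 4 → ℕ) (v : ∀ i, Fin (k i) → ℂ) :
    ∫ θ, (crossJ k v (Complex.arg ((dirS θ : S1) : ℂ)) - crossJ k v 0) ∂angle
      = covar (v 0) (v 1) * covar (v 2) (v 3) + covar (v 0) (v 2) * covar (v 1) (v 3)
        + covar (v 0) (v 3) * covar (v 1) (v 2) - crossJ k v 0 := by
  have : IsProbabilityMeasure angle := Berry.angle_prob
  have h1 : ∀ θ : ℝ, crossJ k v (Complex.arg ((dirS θ : S1) : ℂ)) = crossJ k v θ := by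
    intro θ
    refine crossJ_congr k v ?_
    have := GJT.exp_arg (dirS θ)
    rw [this]
    rfl
  have hc : Continuous fun θ : ℝ => crossJ k v θ := by
    have e : (fun θ : ℝ => crossJ k v θ) = fun θ : ℝ =>
        (crossJ k v (Complex.arg ((dirS θ : S1) : ℂ)) - crossJ k v 0) + crossJ k v 0 := by
      funext θ
      rw [h1, sub_add_cancel]
    rw [e]
    have hd : Continuous dirS := by
      unfold dirS
      exact Continuous.subtype_mk (by fun_prop) _
    exact ((cont_diff k v).comp hd).add continuous_const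
  simp only [h1]
  rw [integral_sub (WKJ.integrable_ang hc) (integrable_const _), int_crossJ, integral_const,
    probReal_univ, one_smul]

end QEC

open QEC in
/-- the crossing term of the Liouville measure -/
theorem qe_int (hI : StmtQei) {ρ : ℍ → ℝ} (hρ : Continuous ρ) {D : Set ℍ} (hD : MeasurableSet D)
    (hA : Berry.area ρ D < ⊤) {w : ℍ → ℝ} (hw : Continuous w) (hb : ∃ B, ∀ z, |w z| ≤ B)
    (k : Fin 4 → ℕ) (v : ∀ i, Fin (k i) → ℂ) :
    ∫ p in D ×ˢ (univ : Set S1), w p.1 *
        ((crossJ k v (Complex.arg (p.2 : ℂ)) - crossJ k v 0) / (p.2 : ℂ).im ^ 2)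
        ∂(crossS ρ (ProbabilityTheory.Kernel.const ℍ uniS))
      = (∫ z in D, w z ∂(Berry.area ρ)) * (covar (v 0) (v 1) * covar (v 2) (v 3)
        + covar (v 0) (v 2) * covar (v 1) (v 3) + covar (v 0) (v 3) * covar (v 1) (v 2)
        - crossJ k v 0) := by
  rw [hI ρ D hρ hD hA w hw hb _ (cont_diff k v), int_diff]

end

end CRM
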