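import Pool.Agent.CRM.Qe
import Pool.Agent.CRM.QEI
import Pool.Agent.CRM.QES

/-!
The four-jet statistics of quantum ergodic eigenfunctions.
-/

open MeasureTheory Filter Topology Set
open UpperHalfPlane hiding I
open scoped ContDiff MatrixGroups ProbabilityTheory

namespace CRM

open QE QE.NC QJ U3 NFP CRN

noncomputable section

/-- an average over `D` -/
lemma rAvg_eq {ρ : ℍ → ℝ} {D : Set ℍ} (f : ℍ → ℝ) :
    Berry.rAvg ρ D f = (Berry.area ρ D).toReal⁻¹ * ∫ z in D, f z ∂(Berry.area ρ) := by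
  unfold Berry.rAvg ProbabilityTheory.cond
  rw [integral_smul_measure, ENNReal.toReal_inv, smul_eq_mul]

/-- the four-jet statistics if the crossing measure is that of the Liouville measure -/
theorem qe_jets {Γ : Subgroup SL(2, ℝ)} [Countable Γ] {D : Set ℍ} {ρ : ℍ → ℝ}
    {φ : ℕ → ℍ → ℝ} {m : ℕ → ℝ} (T : Dta Γ D ρ φ m) {N : ℕ} (hN : ∀ n, 0 < m (n + N))
    (C : Cmp Γ ρ (fun n => 1 / m (n + N)) (fun n z => (φ (n + N) (ofComplex z) : ℂ))
      (crossS ρ (ProbabilityTheory.Kernel.const ℍ uniS)))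
    {w : ℍ → ℝ} (hws : ContDiffOn ℝ ∞ (fun z : ℂ => w (ofComplex z)) {z | 0 < z.im})
    (hwi : ∀ γ ∈ Γ, ∀ z, w (γ • z) = w z) (k : Fin 4 → ℕ) (v : ∀ i, Fin (k i) → ℂ) :
    Tendsto (fun n => (∫ p, w p.1 * jetProd k v (fun x => Berry.rWave ρ (φ n) (m n) x p)
        ∂(Berry.rFrameProb ρ D))
      - (Berry.rAvg ρ D w * (covar (v 0) (v 1) * covar (v 2) (v 3)
          + covar (v 0) (v 2) * covar (v 1) (v 3) + covar (v 0) (v 3) * covar (v 1) (v 2))
        + (Berry.rAvg ρ D (fun z => w z * φ n z ^ 4) - 3 * Berry.rAvg ρ D w) / 3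
          * crossJ k v 0)) atTop (𝓝 0) := by
  have hwc : Continuous w := QE.continuous_of_smooth hws
  have hρc : Continuous ρ := QE.continuous_of_smooth T.fac.smooth
  have hb : ∃ B, ∀ z, |w z| ≤ B := Berry.bdd_of_cocompact hwc hwi T.fac.cpt
  have geo : Berry.Geo Γ ρ D := (Berry.surf_of_cocompact (GJT.dom T.meas T.strict) T.meas T.fac.cpt
    hρc T.fac.inv T.eig).geo
  have hA : Berry.area ρ D < ⊤ := lt_top_iff_ne_top.2 (Berry.area_ne_top geo)
  have h1 := (jets QEC.quo T hN C hws hwi k v).2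
  rw [qe_int t_QEI hρc T.meas hA hwc hb, ← mul_assoc, ← rAvg_eq] at h1
  have h2 := h1.sub (tendsto_const_nhds (x := Berry.rAvg ρ D w * (covar (v 0) (v 1) * covar (v 2) (v 3)
    + covar (v 0) (v 2) * covar (v 1) (v 3) + covar (v 0) (v 3) * covar (v 1) (v 2)
    - crossJ k v 0)))
  rw [sub_self] at h2
  refine h2.congr fun n => ?_
  ring

end

end CRM
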