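import Pool.Agent.CRM.Qj
import Pool.Agent.CRN.CSI

/-!
The crossing term of the Liouville measure for the values at four points, and for the lower bound.
-/

open MeasureTheory Filter Topology Set
open UpperHalfPlane hiding I
open scoped ContDiff MatrixGroups ProbabilityTheory ENNReal

namespace CRM

open QE QE.NC QJ U3 NFP CRN

noncomputable section

/-- the sum over the three pairings for the isotropic Gaussian wave -/
def wickK (x : Fin 4 → ℂ) : ℝ :=
  Berry.waveK (x 0 - x 1) * Berry.waveK (x 2 - x 3)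
    + Berry.waveK (x 0 - x 2) * Berry.waveK (x 1 - x 3)
    + Berry.waveK (x 0 - x 3) * Berry.waveK (x 1 - x 2)

namespace QEP

lemma waveK_rot (θ : ℝ) (y : ℂ) : Berry.waveK (Complex.exp (θ * Complex.I) * y) = Berry.waveK y := by
  rw [Berry.waveK_eq_norm, Berry.waveK_eq_norm y, norm_mul, Complex.norm_exp_ofReal_mul_I, one_mul]

lemma dirK_uniS (y : ℂ) : NFP.dirK uniS y = Berry.waveK y := by
  unfold NFP.dirK Berry.waveK
  rw [QEI.int_uniS (fun w : S1 => Real.cos (y * (starRingEnd ℂ) (w : ℂ)).re) (by fun_prop),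
    CRP.int_angle]
  congr 1
  refine intervalIntegral.integral_congr fun θ _ => ?_
  show Real.cos (y * (starRingEnd ℂ) (Complex.exp (θ * Complex.I))).re
    = Real.cos (y.re * Real.cos θ + y.im * Real.sin θ)
  congr 1
  rw [Complex.mul_re, Complex.conj_re, Complex.conj_im, Complex.exp_ofReal_mul_I_re,
    Complex.exp_ofReal_mul_I_im]
  ring

lemma dirWick_uniS (x : Fin 4 → ℂ) : dirWick uniS x = wickK x := by
  have hpi := Real.pi_pos
  unfold dirWick wickK
  simp only [dirK_uniS, waveK_rot]
  rw [intervalIntegral.integral_const, sub_zero, smul_eq_mul]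
  field_simp

/-- the difference of the crossing sums as a function on the circle -/
lemma cont (x : Fin 4 → ℂ) : Continuous fun t : S1 =>
    crossP x (Complex.arg (t : ℂ)) - crossP x 0 := by
  have e : (fun t : S1 => crossP x (Complex.arg (t : ℂ)) - crossP x 0)
      = fun t : S1 => CRP.cP x t - crossP x 0 := by
    funext t
    rw [CRP.crossP_arg]
  rw [e]
  exact ((CRP.continuous_cP x).comp continuous_subtype_val).sub continuous_const

lemma mean (x : Fin 4 → ℂ) :
    ∫ θ, (crossP x (Complex.arg ((dirS θ : S1) : ℂ)) - crossP x 0) ∂angle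
      = wickK x - crossP x 0 := by
  have h0 : IsProbabilityMeasure angle := Berry.angle_prob
  have h1 := int_crossP uniS x
  have h2 : ∀ w : S1, ∫ w' : S1, crossP x (Complex.arg ((w / w' : S1) : ℂ)) ∂uniS
      = ∫ θ, crossP x (Complex.arg ((dirS θ : S1) : ℂ)) ∂angle := by
    intro w
    have hc : Continuous fun t : S1 => crossP x (Complex.arg (t : ℂ)) := by
      refine ((cont x).add (continuous_const (y := crossP x 0))).congr fun t => ?_
      rw [Pi.add_apply, sub_add_cancel]
    exact QEI.inv (fun t : S1 => crossP x (Complex.arg (t : ℂ))) hc w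
  simp only [h2] at h1
  rw [integral_const, probReal_univ, one_smul, dirWick_uniS] at h1
  have hc : Continuous fun θ : ℝ => crossP x (Complex.arg ((dirS θ : S1) : ℂ)) := by
    refine (((cont x).add (continuous_const (y := crossP x 0))).comp QEI.cont_dirS).congr
      fun t => ?_
    rw [Function.comp_apply, Pi.add_apply, sub_add_cancel]
  rw [integral_sub (WKJ.integrable_ang hc) (integrable_const _), h1, integral_const,
    probReal_univ, one_smul]

end QEP

open QEP in
/-- the crossing term of the Liouville measure -/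
theorem qp_int {ρ : ℍ → ℝ} (hρ : Continuous ρ) {D : Set ℍ} (hD : MeasurableSet D)
    (hA : Berry.area ρ D < ⊤) {w : ℍ → ℝ} (hw : Continuous w) (hb : ∃ B, ∀ z, |w z| ≤ B)
    (x : Fin 4 → ℂ) :
    ∫ p in D ×ˢ (univ : Set S1), w p.1 *
        ((crossP x (Complex.arg (p.2 : ℂ)) - crossP x 0) / (p.2 : ℂ).im ^ 2)
        ∂(crossS ρ (ProbabilityTheory.Kernel.const ℍ uniS))
      = (∫ z in D, w z ∂(Berry.area ρ)) * (wickK x - crossP x 0) := by
  rw [t_QEI ρ D hρ hD hA w hw hb _ (cont x), mean]

open QEI in
/-- the total crossing mass of the Liouville measure -/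
theorem ql_int {ρ : ℍ → ℝ} {D : Set ℍ} (hD : MeasurableSet D) {w : ℍ → ℝ} (hw : Continuous w) :
    ∫⁻ p in D ×ˢ (univ : Set S1), ENNReal.ofReal (w p.1 / (p.2 : ℂ).im ^ 2)
        ∂(crossS ρ (ProbabilityTheory.Kernel.const ℍ uniS))
      = ∫⁻ z in D, ENNReal.ofReal (w z) ∂(Berry.area ρ) := by
  have hDu : MeasurableSet (D ×ˢ (univ : Set S1)) := hD.prod MeasurableSet.univ
  have hDuu : MeasurableSet ((D ×ˢ (univ : Set S1)) ×ˢ (univ : Set S1)) :=
    hDu.prod MeasurableSet.univ
  have hpre : qm ⁻¹' (D ×ˢ univ) = ((D ×ˢ univ) ×ˢ univ : Set ((ℍ × S1) × S1)) := by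
    ext p
    simp [qm]
  have hmF : Measurable fun p : ℍ × S1 => ENNReal.ofReal (w p.1 / (p.2 : ℂ).im ^ 2) := by
    refine ((hw.comp continuous_fst).measurable.div ?_).ennreal_ofReal
    exact ((Complex.continuous_im.comp (continuous_subtype_val.comp continuous_snd)).pow 2).measurable
  have hmG : Measurable fun p : (ℍ × S1) × S1 =>
      ENNReal.ofReal (w (qm p).1 / ((qm p).2 : ℂ).im ^ 2) := hmF.comp cont_qm.measurable
  rw [crossS_const, setLIntegral_map hDu hmF cont_qm.measurable, hpre,
    restrict_withDensity hDuu,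
    lintegral_withDensity_eq_lintegral_mul _ cont_im2.measurable.ennreal_ofReal hmG]
  have hres : ((((Berry.area ρ).prod uniS).prod uniS).restrict ((D ×ˢ univ) ×ˢ univ))
      = (((Berry.area ρ).restrict D).prod uniS).prod uniS := by
    rw [← Measure.prod_restrict, ← Measure.prod_restrict, Measure.restrict_univ]
  rw [hres]
  have hae : ∀ᵐ p ∂((((Berry.area ρ).restrict D).prod uniS).prod uniS),
      ((fun p : (ℍ × S1) × S1 => ENNReal.ofReal (((p.1.2 / p.2 : S1) : ℂ).im ^ 2)) *
        fun p => ENNReal.ofReal (w (qm p).1 / ((qm p).2 : ℂ).im ^ 2)) p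
      = ENNReal.ofReal (w p.1.1) := by
    have hcl : IsClosed {p : (ℍ × S1) × S1 | ((p.1.2 / p.2 : S1) : ℂ).im = 0} :=
      isClosed_eq (Complex.continuous_im.comp (continuous_subtype_val.comp
        (continuous_snd.comp cont_qm))) continuous_const
    have hnull : ((((Berry.area ρ).restrict D).prod uniS).prod uniS)
        {p : (ℍ × S1) × S1 | ((p.1.2 / p.2 : S1) : ℂ).im = 0} = 0 := by
      rw [Measure.measure_prod_null hcl.measurableSet]
      exact Eventually.of_forall fun q => null q.2
    have h1 : ∀ᵐ p ∂((((Berry.area ρ).restrict D).prod uniS).prod uniS),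
        ((p.1.2 / p.2 : S1) : ℂ).im ≠ 0 := by
      rw [ae_iff]
      simpa using hnull
    filter_upwards [h1] with p hp
    rw [Pi.mul_apply, ← ENNReal.ofReal_mul (sq_nonneg _)]
    show ENNReal.ofReal (((p.1.2 / p.2 : S1) : ℂ).im ^ 2 *
      (w p.1.1 / ((p.1.2 / p.2 : S1) : ℂ).im ^ 2)) = ENNReal.ofReal (w p.1.1)
    congr 1
    field_simp
  refine (lintegral_congr_ae hae).trans ?_
  have m1 : Measurable fun p : (ℍ × S1) × S1 => ENNReal.ofReal (w p.1.1) :=
    (hw.comp (continuous_fst.comp continuous_fst)).measurable.ennreal_ofReal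
  have m2 : Measurable fun p : ℍ × S1 => ENNReal.ofReal (w p.1) :=
    (hw.comp continuous_fst).measurable.ennreal_ofReal
  rw [lintegral_prod _ m1.aemeasurable]
  simp only [lintegral_const, measure_univ, mul_one]
  rw [lintegral_prod _ m2.aemeasurable]
  simp only [lintegral_const, measure_univ, mul_one]

end

end CRM
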