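import Pool.Agent.CRM.StG

/-!
The crossing measure of a semiclassical measure on a closed surface gives no mass to the angle zero:
definitions and statements.
-/

open Complex MeasureTheory Filter Topology Set
open UpperHalfPlane hiding I
open scoped ContDiff MatrixGroups

namespace CRM

open QE QE.NC QJ U3 NFP

noncomputable section

/-! ### definitions -/

/-- two frames at distance at most `r`, with base points `ε`-close and with directions at an angle of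
order `Y` -/
structure SmG (ρ : ℍ → ℝ) (r ε Y : ℝ) (v w : SL(2, ℝ)) : Prop where
  d : dd v w ≤ r
  x : |xx ρ v w| ≤ ε
  t : |tt ρ v w| ≤ ε
  lo : Y ≤ |yy ρ v w|
  hi : |yy ρ v w| ≤ 2 * Y

lemma norm_dirG (g : SL(2, ℝ)) : ‖dirG g‖ = 1 := FejerN.norm_dirG' g

/-- the base point and the direction of a frame -/
def toS (g : SL(2, ℝ)) : ℍ × S1 :=
  (g • UpperHalfPlane.I, ⟨dirG g, by rw [mem_sphere_zero_iff_norm]; exact norm_dirG g⟩)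

/-! ### statements -/

/-- ARS: the area of a set of points which are close to each other and to a diagonal.
Proof. If `S` is not empty take `x ∈ S`. The linear map `(s, t) ↦ (s, t - s)` preserves the area and
`S` is contained in the preimage of
`[x.1 - a, x.1 + a] × [x.2 - x.1 - b, x.2 - x.1 + b]`, of area `4 a b`. (Compare `U3.ARE.area` in
`Pool/Agent/BWM/C23.lean`, line 670.) -/
def StmtArs : Prop :=
  ∀ (S : Set (ℝ × ℝ)) (a b : ℝ), 0 ≤ a → 0 ≤ b →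
    (∀ x ∈ S, ∀ y ∈ S, |y.1 - x.1| ≤ a ∧ |(y.2 - x.2) - (y.1 - x.1)| ≤ b) →
    (volume : Measure (ℝ × ℝ)) S ≤ ENNReal.ofReal (4 * a * b)

/-- SMP: two geodesics which are close at two pairs of times, at a small angle.
Proof. Write `x, y, τ` for `xx ρ, yy ρ, tt ρ`. `NC.stmtAlg`, `NC.stmtFl`, `NC.stmtDer` (C29, C28, C30;
hypothesis `NC.stmtLip`) hold for all metrics; with `NC.at_alg_mono`, `at_fl_mono`, `at_der_mono` (C29,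
line 389-401) take common constants `c ≥ 1`, `0 < r ≤ 1`, `L ≥ 0`; and `|kap ρ| ≤ k` (as
`NC.at_kap_bd` in C29, without the sign: `kap ρ` is continuous and invariant, `at_lap_cont`,
`at_lap_inv`). Let `K = 5 c ^ 4 e ^ L`. Let `δ = t - s`, `W = Φ δ w`, so `Φ s W = Φ t w`, `|δ| ≤ 2 T`.
(0) `dd v w ≤ c (2 ε + 2 Y) ≤ 4 c Y` (`dle`, `c₁ ≤ 1`). For `|a| ≤ |δ|`:
`dd v (Φ a w) ≤ c (4 c Y + c |δ|)` (`dtri`, `dmove`) and for `|σ| ≤ |s|`: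
`dd (Φ σ v) (Φ σ W) ≤ c e ^ L c ^ 2 (4 Y + |δ|) ≤ K (Y + |δ|) ≤ r` (`dflow`), for small `T`, `Y₀`.
(1) `|τ(v, W)| ≤ |τ(Φ s v, Φ s W)| + |s| c K² (Y + |δ|)² ≤ ε + |s| c K² (Y + |δ|)²` (`td` and the mean
value theorem), `|τ(v, W) - τ(v, w) - δ| ≤ |δ| c K (Y + |δ|)` (`tm`). For small `T`, `Y₀`
(`c K (Y + |δ|) ≤ 1/4`, `T K ≤ 1/2`): `|δ| ≤ 2 ε + (Y + |δ|) / 8 + |δ| / 4`, so
`|δ| ≤ 4 ε + Y / 4 ≤ Y` (`c₁ ≤ 1/16`). Insert this again: `|δ| ≤ 4 ε + 8 c K² |s| Y²`.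
(2) `|y(v, W) - y(v, w)| ≤ |δ| c 2 K Y ≤ Y / 4` (`ym`), `|x(v, W)| ≤ ε + 2 c K Y |δ|` (`xm`). Along
`σ ∈ [0, s]` (or `[s, 0]`): `|d/dσ y(Φ σ v, Φ σ W)| ≤ k c 2 K Y + 4 c K² Y²` (`yd`, `xle`), so
`|y(Φ σ v, Φ σ W) - y(v, W)| ≤ Y / 4` for small `T`. So `y(Φ σ v, Φ σ W)` has the sign of `y(v, w)` and
absolute value at least `Y / 2`, and `x' = y + O(4 c K² Y²)` (`xd`) has this sign and absolute value at
least `Y / 4`. Hence `|s| Y / 4 ≤ |x(Φ s v, Φ s W) - x(v, W)| ≤ 2 ε + 2 c K Y |δ|`, that is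
`|s| ≤ 8 ε / Y + 8 c K |δ|`.
(3) With (1): `|s| ≤ 8 ε / Y + 32 c K ε + 64 c² K³ Y² |s|`, so `|s| ≤ 20 ε / Y` for small `Y₀`, and
`|δ| ≤ 5 ε`. (Compare the proof of `NC.PairSys.area` in `Pool/Agent/BWM/C42.lean`, line 437, which has
all the technical steps: `dd_rect`, `shift_d`, `shift_m`.) -/
def StmtSmp : Prop :=
  ∀ (Γ : Subgroup SL(2, ℝ)) (ρ : ℍ → ℝ) (Φ : ℝ → SL(2, ℝ) → SL(2, ℝ)), Fac Γ ρ → GFlow ρ Φ →
    ∃ C r T Y₀ c₁ : ℝ, 0 < C ∧ 0 < r ∧ 0 < T ∧ 0 < Y₀ ∧ 0 < c₁ ∧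
      ∀ (Y ε s t : ℝ) (v w : SL(2, ℝ)), 0 < Y → Y ≤ Y₀ → 0 < ε → ε ≤ c₁ * Y → |s| ≤ T → |t| ≤ T →
        SmG ρ r ε Y v w → SmG ρ r ε Y (Φ s v) (Φ t w) → |s| ≤ C * ε / Y ∧ |t - s| ≤ C * ε

/-- SMA: the mass of the pairs of frames which are close, at a small angle.
Proof (from `StmtSmp`, `StmtArs`). `r, Y₀, c₁, T` are those of `StmtSmp`. For `σ = ±` let
`N_σ = {x | x.1 ∈ K ∧ SmG ρ r ε Y x.1 (σ x.2)}`, a closed set (`NC.continuous_dd` in C21,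
`PairAlg.xc`, `yc`, `tc` of `NC.stmtAlg`). If `v ∈ K`, `dd v w ≤ r` then `w ∈ K'`, a compact set
(`w = v (v⁻¹ w)`, the `g` with `nn g ≤ r` form a compact set); so if `s, t ∈ [0, T]` and
`(Φ s v, Φ t w) ∈ N_σ` then `v, w ∈ L`, the compact image of `[-T, 0] × (K ∪ K' ∪ -K')` under `Φ`.
For all `(v, w)` the set of the `(s, t) ∈ [0, T]²` with `(Φ s v, Φ t w) ∈ N_σ` has area at most
`4 (C ε / Y) (C ε)`: for two such points `(s₀, t₀)`, `(s₁, t₁)` apply `StmtSmp` to `Φ s₀ v`,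
`σ Φ t₀ w`, `s₁ - s₀`, `t₁ - t₀` (`GFlow.add`, `GFlow.neg`) and use `StmtArs`. By the invariance of `ν`
and Tonelli, `T² (ν × ν)(N_σ) ≤ 4 C² ε² / Y · ν(L)²`: this is `U3.NCR.key` (C23, line 893), with `MM`
replaced by `L ×ˢ L`. -/
def StmtSma : Prop :=
  ∀ [MeasurableSpace SL(2, ℝ)] [BorelSpace SL(2, ℝ)] (Γ : Subgroup SL(2, ℝ)) (ρ : ℍ → ℝ)
    (Φ : ℝ → SL(2, ℝ) → SL(2, ℝ)) (ν : Measure SL(2, ℝ)) [IsFiniteMeasureOnCompacts ν]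
    [SigmaFinite ν], Fac Γ ρ → GFlow ρ Φ → (∀ t, Measure.map (Φ t) ν = ν) →
    ∃ r Y₀ c₁ : ℝ, 0 < r ∧ 0 < Y₀ ∧ 0 < c₁ ∧ ∀ K : Set SL(2, ℝ), IsCompact K →
      ∃ C : ℝ, 0 < C ∧ ∀ Y ε : ℝ, 0 < Y → Y ≤ Y₀ → 0 < ε → ε ≤ c₁ * Y →
        (ν.prod ν) {x | x.1 ∈ K ∧ (SmG ρ r ε Y x.1 x.2 ∨ SmG ρ r ε Y x.1 (-x.2))}
          ≤ ENNReal.ofReal (C * ε ^ 2 / Y)

/-- CNV: coordinates of close pairs.
Proof. `B` is the constant of `NC.stmtLip` (C28). Let `g = v⁻¹ w`, with entries `a, b, c, d`,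
`z = g • i`. The left side of the hypothesis is invariant: `‖z - i‖² / Im z ≤ ε²` (e.g.
`UpperHalfPlane.sinh_half_dist` and `dist_smul`), that is `FejerN.dsq g ≤ ε²` (`FejerN.dsq_eq`, C19,
line 88; `Im z = 1 / (c² + d²)`), so `|b + c| ≤ ε`, `|a - d| ≤ ε`, `|xx ρ v w|, |tt ρ v w| ≤ e^B ε`.
`‖z - i‖ ≤ 2 ε` for `ε ≤ 1/4`. As in `FejerN.dir_sep` (C19, line 280):
`dirG w - dirG v = i (phase v z (phase g i - 1) + (phase v z - phase v i))`,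
`‖phase v z - phase v i‖ ≤ 4 ‖z - i‖ ≤ 8 ε` (`FejerN.phase_sub_le`), `‖phase v z‖ = 1`, so
`|‖dirG w - dirG v‖ - ‖phase g i - 1‖| ≤ 8 ε`, and `2 |c| = ‖phase g i - 1‖ ‖den g i‖`
(`FejerN.phase_I_sub_one`), `‖den g i‖² = c² + d²` is within `2 ε` of one. So
`|c| ≤ θ + 8 ε`, `θ ≤ 4 |c| + 8 ε`, `θ = ‖uG v - uG w‖ = ‖dirG v - dirG w‖`. Let `w' = ± w` be such
that `d > 0` (for `-w` the matrix `g` changes the sign; `uG (-w) = uG w`): `|d - 1| ≤ |d² - 1| ≤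
2 ε + c²`, `|a - 1| ≤ |a - d| + |d - 1|`, `|b| ≤ |b + c| + |c|`, so
`dd v w' = |a - 1| + |b| + |c| + |d - 1| ≤ 20 (ε + |c|) ≤ r` for small `a`. Finally
`yy ρ v w' = 2 c - (b + c) - (a - d) Pr + (b + c) Hr`, so `|yy ρ v w' - 2 c| ≤ (1 + 2 B) ε`. -/
def StmtCnv : Prop :=
  ∀ (Γ : Subgroup SL(2, ℝ)) (ρ : ℍ → ℝ), Fac Γ ρ → ∀ r : ℝ, 0 < r →
    ∃ C a : ℝ, 0 < C ∧ 0 < a ∧ ∀ (ε : ℝ) (v w : SL(2, ℝ)), 0 < ε → ε ≤ a →
      ‖pG v - pG w‖ ^ 2 ≤ ε ^ 2 * ((pG v).im * (pG w).im) → ‖uG v - uG w‖ ≤ a →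
      ∃ w' : SL(2, ℝ), (w' = w ∨ w' = -w) ∧ dd v w' ≤ r ∧ |xx ρ v w'| ≤ C * ε ∧
        |tt ρ v w'| ≤ C * ε ∧ |yy ρ v w'| ≤ C * (‖uG v - uG w‖ + ε) ∧
        ‖uG v - uG w‖ ≤ C * (|yy ρ v w'| + ε)

/-- ANG: the contribution of the small angles.
Proof (from `StmtSma`, `StmtCnv`, and `U3.con`, C40). Let `r, Y₀, c₁` be the constants of `StmtSma` (one may
suppose `c₁ ≤ 1`), `C₂ ≥ 1`, `a` those of `StmtCnv` for this `r`, `C₁` that of `StmtSma` for `K`. Write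
`θ = ‖uG v - uG w‖`, `y = |yy ρ v w'|`. Let `η ≤ η₀` with `η₀ ≤ a`, `4 C₂ η₀ ≤ Y₀`, and let
`ε ≤ η`, `ε₂ = C₂ ε`, `Y_k = 4 C₂ η 2^{-k}`. On the set in question `y ≤ C₂ (η + ε) ≤ Y_1`. The set is
contained in the union of the sets `{SmG ρ r ε₂ Y_k v w'}`, `k = 2, 3, ..., m`, where `m` is the last
`k` with `ε₂ ≤ c₁ Y_k`, and of the set where `y ≤ 2 ε₂ / c₁`. In the first sets
`θ² ≤ C₂² (2 Y_k + ε)² ≤ 9 C₂² Y_k²` and the mass is at most `C₁ ε₂² / Y_k`, so they contribute at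
most `(π ε²)⁻¹ Σ 9 C₂² Y_k² C₁ C₂² ε² / Y_k ≤ 9 C₁ C₂⁴ Σ Y_k ≤ 36 C₁ C₂⁵ η`. In the last set
`θ² ≤ C₂² (2 C₂ / c₁ + 1)² ε²`, so its contribution is at most `C` times the mass of
`{v ∈ K, ‖pG v - pG w‖² ≤ ε² Im Im, θ ≤ C ε}`, which tends to zero as `ε → 0`: these sets are closed,
decreasing, of finite measure for small `ε`, and their intersection is contained in
`{v ∈ K, w = v or w = - v}` (`U3.StmtRot`, C23), of measure zero, because `ν` has no atoms (`U3.con`).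
So `C` is e.g. `36 C₁ C₂⁵ + 1`, and the bound holds for all sufficiently small `ε` (depending on
`η`). -/
def StmtAng : Prop :=
  ∀ [MeasurableSpace SL(2, ℝ)] [BorelSpace SL(2, ℝ)] (Γ : Subgroup SL(2, ℝ)) (ρ : ℍ → ℝ)
    (Φ : ℝ → SL(2, ℝ) → SL(2, ℝ)) (ν : Measure SL(2, ℝ)) [IsFiniteMeasureOnCompacts ν]
    [SigmaFinite ν], Fac Γ ρ → GFlow ρ Φ → (∀ t, Measure.map (Φ t) ν = ν) →
    ∀ K : Set SL(2, ℝ), IsCompact K → ∃ C η₀ : ℝ, 0 < C ∧ 0 < η₀ ∧ ∀ η : ℝ, 0 < η → η ≤ η₀ →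
      ∀ᶠ ε in 𝓝[>] (0 : ℝ), ENNReal.ofReal (Real.pi * ε ^ 2)⁻¹ *
        ∫⁻ x in {x : SL(2, ℝ) × SL(2, ℝ) | x.1 ∈ K ∧
            ‖pG x.1 - pG x.2‖ ^ 2 ≤ ε ^ 2 * ((pG x.1).im * (pG x.2).im) ∧ ‖uG x.1 - uG x.2‖ ≤ η},
          ENNReal.ofReal (‖uG x.1 - uG x.2‖ ^ 2) ∂(ν.prod ν) ≤ ENNReal.ofReal (C * η)

/-- AN2: no mass at the angle zero.
Proof (from `StmtAng`). `|ρ| ≤ B` (`NC.stmtLip`). Let `χ` be continuous with compact support,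
`0 ≤ χ ≤ 1`, `χ = 1` on `K`, and `f(z, t) = χ(z) max (1 - ‖t - 1‖ / η) 0`, continuous with compact
support, `f(z, 1) = 1` for `z ∈ K`. So `ϖ (K × {1}) ≤ ∫ f dϖ = lim XG ρ μ ε f`. In `XG`, with the image
measure `μ = toS ν` (`integral_map`, `Measure.map_prod_map`; `toS` is continuous): on `clo ρ ε`
`‖pG v - pG w‖² ≤ (e^B ε)² Im Im`, `Im (t)² ≤ ‖t - 1‖²` for `‖t‖ = 1`,
`‖t - 1‖ = ‖dirG v - dirG w‖ = ‖uG v - uG w‖` for `t = dirG v / dirG w`. So `XG ρ μ ε f` is at most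
`e^{2B}` times the quantity of `StmtAng` for `e^B ε` and the compact set of the `v` with
`v • i ∈ tsupport χ`, so at most `e^{2B} C η` for small `ε`. Let `η → 0`. -/
def StmtAn2 : Prop :=
  ∀ [MeasurableSpace SL(2, ℝ)] [BorelSpace SL(2, ℝ)] (Γ : Subgroup SL(2, ℝ)) (ρ : ℍ → ℝ)
    (Φ : ℝ → SL(2, ℝ) → SL(2, ℝ)) (ν : Measure SL(2, ℝ)) [IsFiniteMeasureOnCompacts ν]
    [SigmaFinite ν], Fac Γ ρ → GFlow ρ Φ → (∀ t, Measure.map (Φ t) ν = ν) →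
    ∀ ϖ : Measure (ℍ × S1), Crossing ρ (Measure.map toS ν) ϖ → ∀ K : Set ℍ, IsCompact K →
      ϖ {p | p.1 ∈ K ∧ (p.2 : ℂ) = 1} = 0

/-- NUI: a semiclassical measure comes from an invariant measure on the frames.
Proof (from `StmtDns`, `U3.wgl` (C40), `U3.stmtLcz`). `U3.wgl` gives a sequence `s` and `ν`. Let
`μ' = toS ν`; it is finite over compact sets (`U3.StmtRot`: the preimage of a compact subset of `UH`
under `pG` is compact). `(g • i : ℂ) = pG g`, `uG g = I * conj (dirG g)`. For local data `V, σ, φ'`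
which agree with `g = gr ρ`, `φ` and `Test V ζ`, the limits along `s` of `∫ ζ E_k E_0` are both
`∫ ζ e^{-2σ} (i conj t)^k dμ` (`JG` with `l = 0`) and the same with `μ'`. So for every test function `ζ`
on `V` (apply this to `ζ e^{2σ} i^k`) the integrals of `ζ(z) t^{-k}` with respect to `μ` and `μ'`
agree. Every continuous function `f` with compact support has its support over some compact `K ⊆ UH`,
and `U3.StmtLcz` gives `V ⊇ K`; `StmtDns` for `V` and the extension of `f` as in `StmtExf` gives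
`∫ f dμ = ∫ f dμ'`, so `μ = μ'` (both are finite on compact sets, `ℍ × S1` is locally compact and second
countable). -/
def StmtNui : Prop :=
  ∀ [MeasurableSpace SL(2, ℝ)] [BorelSpace SL(2, ℝ)] (Γ : Subgroup SL(2, ℝ)) (ρ : ℍ → ℝ)
    (Φ : ℝ → SL(2, ℝ) → SL(2, ℝ)), Fac Γ ρ → GFlow ρ Φ → ∀ (h : ℕ → ℝ) (φ : ℕ → ℂ → ℂ)
    (μ : Measure (ℍ × S1)), LocU UH (gr ρ) h φ → FinK μ → JG ρ h φ μ →
    ∃ ν : Measure SL(2, ℝ), IsFiniteMeasureOnCompacts ν ∧ SigmaFinite ν ∧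
      (∀ t, Measure.map (Φ t) ν = ν) ∧ Measure.map toS ν = μ

/-- ANZ: the crossing measure gives no mass to the angles `0` and `π`.
Proof (from `StmtNui`, `StmtAn2`, `StmtSym`, `StmtDns`, `NC.StmtFlow`). `MeasurableSpace SL(2, ℝ)` is
the Borel σ-algebra. `StmtNui`, `StmtAn2`: no mass at `t = 1` over compact sets, hence none (`ℍ` is
σ-compact). By `StmtSym` the odd moments of `ϖ` vanish (for negative odd `k` use
`t^{-1} = conj t`), so `ϖ` and its image under `(z, t) ↦ (z, -t)` have the same moments and are equal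
by `StmtDns` (as in `StmtIvm`); so there is no mass at `t = -1`. -/
def StmtAnz : Prop :=
  ∀ (Γ : Subgroup SL(2, ℝ)) (ρ : ℍ → ℝ), Fac Γ ρ → ∀ (h : ℕ → ℝ) (φ : ℕ → ℂ → ℂ)
    (μ ϖ : Measure (ℍ × S1)), LocU UH (gr ρ) h φ → FinK μ → JG ρ h φ μ → Crossing ρ μ ϖ →
    ϖ {p | (p.2 : ℂ) ^ 2 = 1} = 0

end

end CRM
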