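import Pool.Agent.CRM.Stmts
import Pool.Agent.NFP.Defs
import Pool.Agent.BWM.C23

/-!
The crossing measure of a semiclassical measure on a closed surface: definitions and statements of the
global part.
-/

open Complex MeasureTheory Filter Topology Set
open UpperHalfPlane hiding I
open scoped ContDiff MatrixGroups

namespace CRM

open QE QE.NC QJ U3 NFP

noncomputable section

/-! ### definitions -/

/-- the pairs of points of `ℍ × S¹` whose base points are at distance less than `ε` for the metric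
`e^{2ρ} (dx² + dy²) / y²` (up to a factor which tends to one as `ε → 0`) -/
def clo (ρ : ℍ → ℝ) (ε : ℝ) : Set ((ℍ × S1) × (ℍ × S1)) :=
  {x | Real.exp (ρ x.1.1 + ρ x.2.1) * ‖(x.1.1 : ℂ) - (x.2.1 : ℂ)‖ ^ 2
    < ε ^ 2 * (x.1.1.im * x.2.1.im)}

/-- the mass of the pairs of points of `ℍ × S¹` with base points at distance less than `ε`, divided by
`π ε²`, weighted with the square of the sine of the angle of the directions and with a function `f`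
of the base point and the angle -/
def XG (ρ : ℍ → ℝ) (μ : Measure (ℍ × S1)) (ε : ℝ) (f : ℍ × S1 → ℝ) : ℝ :=
  (Real.pi * ε ^ 2)⁻¹ * ∫ x in clo ρ ε,
    ((x.1.2 / x.2.2 : S1) : ℂ).im ^ 2 * f (x.1.1, x.1.2 / x.2.2) ∂(μ.prod μ)

/-- **The crossing measure** of `μ` (multiplied by the square of the sine of the angle): the limit as
`ε → 0` of the pairs at distance less than `ε` -/
structure Crossing (ρ : ℍ → ℝ) (μ ϖ : Measure (ℍ × S1)) : Prop where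
  fin : ∀ K : Set ℍ, IsCompact K → ϖ (K ×ˢ univ) < ⊤
  lim : ∀ f : ℍ × S1 → ℝ, Continuous f → HasCompactSupport f →
    Tendsto (fun ε : ℝ => XG ρ μ ε f) (𝓝[>] 0) (𝓝 (∫ p, f p ∂ϖ))

/-- the base point, as a complex number -/
def pS (o : ℍ × S1) : ℂ := (o.1 : ℂ)

/-- the direction, in the convention of the jets -/
def uS (o : ℍ × S1) : ℂ := Complex.I * (starRingEnd ℂ) (o.2 : ℂ)

/-- the measure `e^{-2σ} μ` over the set `F` -/
def muS (μ : Measure (ℍ × S1)) (F : Set ℂ) (σ : ℂ → ℝ) : Measure (ℍ × S1) :=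
  (μ.restrict (pS ⁻¹' F)).withDensity fun o => ENNReal.ofReal (Real.exp (-(2 * σ (pS o))))

/-- the products of two jets converge to the moments of `e^{-2σ} μ` (the conclusion of
`NFP.StmtSemU`) -/
def JG (ρ : ℍ → ℝ) (h : ℕ → ℝ) (φ : ℕ → ℂ → ℂ) (μ : Measure (ℍ × S1)) : Prop :=
  ∀ (V : Set ℂ) (σ : ℂ → ℝ) (φ' : ℕ → ℂ → ℂ), Agree V UH (gr ρ) h φ σ φ' →
    ∀ (j l : ℤ) (ζ : ℂ → ℂ), Test V ζ →
      Tendsto (fun n => ∫ z, ζ z * (QJ.E σ h φ' j n z * QJ.E σ h φ' l n z)) atTop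
        (𝓝 ((-1) ^ l * ∫ p : ℍ × S1, ζ p.1 * ((Real.exp (-(2 * σ p.1)) : ℝ) : ℂ)
          * (Complex.I * (starRingEnd ℂ) (p.2 : ℂ)) ^ (j + l) ∂μ))

/-- finite over the compact subsets of `ℍ` -/
def FinK (μ : Measure (ℍ × S1)) : Prop := ∀ K : Set ℍ, IsCompact K → μ (K ×ˢ univ) < ⊤

/-! ### statements -/

/-- GLM: the local hypotheses.
Proof. `LocB V' σ h φ'` is the restriction of `A.loc` to the smaller open set `V'`. `LimM`: `muS` is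
finite because `μ` is finite over the compact set `F` (the preimage of `F` in `ℍ` is compact: `ℍ → ℂ` is
an open embedding, `F ⊆ UH`) and `e^{-2σ}` is bounded on `F`; `pS`, `uS` are continuous; `‖uS‖ = 1`;
`cpt` with `K = F`. `lim`: for `ζ` with support in `V' ⊆ F` the integral over `muS` is
`∫ ζ(p) e^{-2σ(p)} u^(j+m) dμ` (`integral_withDensity_eq_integral_toReal_smul`, restriction to the
preimage of `F`, outside of which `ζ` vanishes), which is the limit in `JG` (`Test V ζ`). -/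
def StmtGlm : Prop :=
  ∀ (ρ : ℍ → ℝ) (h : ℕ → ℝ) (φ : ℕ → ℂ → ℂ) (μ : Measure (ℍ × S1)), FinK μ → JG ρ h φ μ →
    ∀ (V : Set ℂ) (σ : ℂ → ℝ) (φ' : ℕ → ℂ → ℂ), Agree V UH (gr ρ) h φ σ φ' →
    ∀ V' F : Set ℂ, IsOpen V' → V' ⊆ V → V' ⊆ F → IsCompact F → F ⊆ UH →
      LocB V' σ h φ' ∧ LimM V' σ h φ' (muS μ F σ) pS uS

/-- CLB: close points.
Proof. `ρ` is bounded (`Berry.bdd_of_cocompact`, `C13`/`LibH11`, or directly), `|ρ| ≤ M`. If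
`(o, o') ∈ clo ρ ε`, `ε ≤ 1`, `o.1 ∈ K` then `‖z - w‖² ≤ e^{2M} ε² Im z Im w`; since
`|Im w - Im z| ≤ ‖z - w‖`, this bounds `Im w` by a constant (`K` compact), hence
`‖z - w‖ ≤ C ε`, and then `w` is in a compact subset of `ℍ` and within `η` of `z` for small `ε`
(`Im w ≥ Im z - C ε`; for `ε` not small use `‖z - w‖² ≥ (Im z - Im w)²`, so `Im w → 0` is impossible:
`(Im z - Im w)² ≤ C Im w`). -/
def StmtClb : Prop :=
  ∀ (Γ : Subgroup SL(2, ℝ)) (ρ : ℍ → ℝ), Fac Γ ρ → ∀ K : Set ℍ, IsCompact K →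
    ∃ (C : ℝ) (K' : Set ℍ), IsCompact K' ∧ K ⊆ K' ∧ ∀ ε, 0 < ε → ε ≤ 1 →
      ∀ x ∈ clo ρ ε, (x : (ℍ × S1) × (ℍ × S1)).1.1 ∈ K →
        x.2.1 ∈ K' ∧ ‖(x.1.1 : ℂ) - (x.2.1 : ℂ)‖ ≤ C * ε

/-- GKR: comparison of the local and the global kernel.
Proof (from `StmtClb`). For `o = (z, w₁)`, `o' = (z', w₂)`: `uS o / uS o' = conj (w₁ / w₂)`,
`s2 (conj t) = (Im t)²` for `‖t‖ = 1`. For small `ε` both kernels live on pairs with `z ∈ K`
(resp. in the compact set of `TF V g`; enlarge `K`), `‖z - z'‖ ≤ C ε`, hence `z' ∈ V` (for the local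
kernel: `z' ∈ F`, `σ` is bounded on the compact set `F`, so `r2 < ε²` gives `‖z - z'‖ ≤ C ε`; for the
global one `StmtClb`), and for `z, z' ∈ V` one has `e^{2σ(z)} = gr ρ z = e^{2ρ(z)} / (Im z)²`, so
`r2 σ z z' < ε²` is the same as `(o, o') ∈ clo ρ ε`. So the difference is
`(π ε²)⁻¹ ∬_{clo} (e^{2σ(z)} e^{2σ(z)} e^{-2σ(z)-2σ(z')} / e^{2σ(z)} · e^{...})`: explicitly, the local
integrand with respect to `μ × μ` is `(π ε²)⁻¹ e^{2σ(z)} s2 · e^{2σ(z)} f(z,t) · e^{-2σ(z) - 2σ(z')}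
= (π ε²)⁻¹ s2 f(z,t) e^{2σ(z) - 2σ(z')}` and the global one `(π ε²)⁻¹ s2 f(z,t)`; since
`|e^{2σ(z) - 2σ(z')} - 1| ≤ C ε`, the difference is at most
`C ε · ε⁻² ∬_{z ∈ K, ‖z - z'‖ ≤ C ε} s2 dμ dμ ≤ C ε` by `PairB.sine` (for `muS`; the density
`e^{-2σ}` is bounded below on `F`). -/
def StmtGkr : Prop :=
  ∀ (Γ : Subgroup SL(2, ℝ)) (ρ : ℍ → ℝ), Fac Γ ρ → ∀ μ : Measure (ℍ × S1), FinK μ →
    ∀ (V F : Set ℂ) (σ : ℂ → ℝ), IsOpen V → V ⊆ F → F ⊆ UH → IsCompact F → ContDiff ℝ ∞ σ →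
    (∀ z ∈ V, Real.exp (2 * σ z) = gr ρ z) → PairB V (muS μ F σ) pS uS →
    ∀ (f : ℍ × S1 → ℝ) (K : Set ℂ), Continuous f → IsCompact K → K ⊆ V →
    (∀ (z : ℍ) (t : S1), (z : ℂ) ∉ K → f (z, t) = 0) → ∀ g : ℂ × ℂ → ℂ, TF V g →
    (∀ (z : ℍ) (t : S1), (z : ℂ) ∈ V →
      g (z, (starRingEnd ℂ) (t : ℂ)) = ((Real.exp (2 * σ z) * f (z, t) : ℝ) : ℂ)) →
    Tendsto (fun ε : ℝ => XK (muS μ F σ) pS uS (ki σ ε) g - (XG ρ μ ε f : ℂ)) (𝓝[>] 0) (𝓝 0)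

/-- EXF: existence of the limits for all test functions.
Proof (from `StmtLcz`, `StmtGlm`, `StmtCrl`, `StmtGkr`). Let `K` be the (compact) projection of the
support of `f`, as a subset of `ℂ`. `U3.StmtLcz` gives `V, F, σ, φ'` with `K ⊆ V ⊆ F ⊆ UH` and
`Agree` (`g = gr ρ` is smooth and positive on `UH`). `StmtGlm` with `V' = V`; `StmtCrl` gives `PairB`
and the limit for the test function `g(z, t) = e^{2σ(z)} f(z, conj t / |t|) min(|t|, 1)` (zero for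
`z ∉ UH` or `t = 0`), which is continuous on `ℂ × ℂ`, has support over `K` and satisfies the condition
of `StmtGkr`. Take real parts. -/
def StmtExf : Prop :=
  ∀ (Γ : Subgroup SL(2, ℝ)) (ρ : ℍ → ℝ), Fac Γ ρ → ∀ (h : ℕ → ℝ) (φ : ℕ → ℂ → ℂ)
    (μ : Measure (ℍ × S1)), LocU UH (gr ρ) h φ → FinK μ → JG ρ h φ μ →
    ∀ f : ℍ × S1 → ℝ, Continuous f → HasCompactSupport f →
      ∃ l : ℝ, Tendsto (fun ε : ℝ => XG ρ μ ε f) (𝓝[>] 0) (𝓝 l)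

/-- RSZ: the measure.
Proof (from `StmtClb`). For `0 < ε ≤ 1` and `f` continuous with compact support (over `K`) the integrand
is bounded with support in `{z ∈ K, z' ∈ K'}`, of finite measure (`StmtClb`, `FinK`); so `XG` is additive,
homogeneous and monotone in `f` for these `ε`. Hence `Λ f = lim XG ρ μ ε f` is a positive linear
functional on `C_c(ℍ × S1, ℝ)`; Riesz-Markov-Kakutani: `RealRMK.rieszMeasure`,
`RealRMK.integral_rieszMeasure` (compare `Lam`, `mu` in `Pool/Agent/BWM/C20.lean`, line 4271, and C39).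
It is finite on compact sets. -/
def StmtRsz : Prop :=
  ∀ (Γ : Subgroup SL(2, ℝ)) (ρ : ℍ → ℝ), Fac Γ ρ → ∀ μ : Measure (ℍ × S1), FinK μ →
    (∀ f : ℍ × S1 → ℝ, Continuous f → HasCompactSupport f →
      ∃ l : ℝ, Tendsto (fun ε : ℝ => XG ρ μ ε f) (𝓝[>] 0) (𝓝 l)) →
    ∃ ϖ : Measure (ℍ × S1), Crossing ρ μ ϖ

/-- LNK: the limits of the four-jet integrals in terms of the crossing measure.
Proof (from `StmtGlm`, `StmtCrl`, `StmtGkr`). Given `V, σ, φ'` and `ζ`, let `F ⊆ V` be a compact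
neighbourhood of `tsupport ζ` and `V' = interior F`. `StmtGlm`, `StmtCrl` for `V'` and `muS μ F σ` give
`L` with the claim for `lk L a b c d`, and `StmtGkr` (for the real and the imaginary part of
`ζ(z) gk k t e^{-2σ(z)}`; `gk k (conj t) = gk k t`; multiply by a continuous function of the variable
`t` only if needed) with `Crossing.lim`: `L k = ∫ ζ(p) e^{-2σ(p)} gk k dϖ` for even `k`. Insert this
into `lk` (linear in `L`, only even indices occur). -/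
def StmtLnk : Prop :=
  ∀ (Γ : Subgroup SL(2, ℝ)) (ρ : ℍ → ℝ), Fac Γ ρ → ∀ (h : ℕ → ℝ) (φ : ℕ → ℂ → ℂ)
    (μ ϖ : Measure (ℍ × S1)), FinK μ → JG ρ h φ μ → Crossing ρ μ ϖ →
    ∀ (V : Set ℂ) (σ : ℂ → ℝ) (φ' : ℕ → ℂ → ℂ), Agree V UH (gr ρ) h φ σ φ' →
    ∀ ζ : ℂ → ℂ, Test V ζ → ∀ a b c d : ℤ, a + b + c + d = 0 →
      Tendsto (fun n => E4 σ h φ' ζ a b c d n - cl4 a b c d * E4 σ h φ' ζ 0 0 0 0 n) atTop
        (𝓝 (∫ p : ℍ × S1, ζ p.1 * ((Real.exp (-(2 * σ p.1)) : ℝ) : ℂ)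
          * lk (fun k => (gk k (p.2 : ℂ) : ℂ)) a b c d ∂ϖ))

/-- SYM: the symmetries of the crossing measure.
Proof (from `StmtLcz`, `StmtGlm`, `StmtCrl`, `StmtGkr`). As in `StmtExf`, with the last two claims of
`StmtCrl`, for `V ⊇ tsupport ζ`, real `ζ` (real and imaginary parts), the test function
`e^{2σ(z)} ζ(z)` instead of `ζ`, and the real and imaginary parts of `t^k`. -/
def StmtSym : Prop :=
  ∀ (Γ : Subgroup SL(2, ℝ)) (ρ : ℍ → ℝ), Fac Γ ρ → ∀ (h : ℕ → ℝ) (φ : ℕ → ℂ → ℂ)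
    (μ ϖ : Measure (ℍ × S1)), LocU UH (gr ρ) h φ → FinK μ → JG ρ h φ μ → Crossing ρ μ ϖ →
    ∀ (ζ : ℂ → ℂ), Test UH ζ → ∀ k : ℕ,
      (Odd k → ∫ p : ℍ × S1, ζ p.1 * (p.2 : ℂ) ^ k ∂ϖ = 0) ∧
      ∫ p : ℍ × S1, ζ p.1 * (p.2 : ℂ) ^ k ∂ϖ
        = ∫ p : ℍ × S1, ζ p.1 * (starRingEnd ℂ) (p.2 : ℂ) ^ k ∂ϖ

/-- COV: the jets are covariant.
Proof. On `V`, `e^{2σ} = e^{2ρ(z)} / (Im z)²`, so `e^{σ(γz)} |γ'(z)| = e^{σ(z)}`, where
`γ'(z) = 1 / den γ z ^ 2` (`Im (γz) = Im z / |den γ z|²`, `ρ (γz) = ρ z`). Induction on `m` for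
`jet σ h φ' m n`, at all points `z ∈ V` with `mob γ z ∈ V` (an open set), with `k = m`: if
`f₁(z) = phase γ z ^ k * f₂(γz)` near `z` then `D σ k f₁ z = phase γ z ^ (k+1) * D σ k f₂ (γz)`: indeed
`phase γ z = γ' / |γ'|`, `e^{-kσ(z)} f₁(z) = (γ')^k |γ'|^{-2k} (e^{-kσ} f₂)(γz)
= (conj γ')^{-k} (e^{-kσ} f₂)(γz)`, the function `(conj γ')^{-k}` is antiholomorphic, so
`dz` of the product is `(conj γ')^{-k} γ' (dz (e^{-kσ} f₂))(γz)` (`dz_comp_mob`, C18 / C04 / C44), and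
`e^{(k-1)σ(z)} (conj γ')^{-k} γ' = e^{(k-1)σ(γz)} |γ'|^{k-1} (conj γ')^{-k} γ' = e^{(k-1)σ(γz)}
(γ'/|γ'|)^{k+1}`. Negative indices: conjugate (`conj (phase) = phase⁻¹`). See `jet_equiv`, `E_equiv`
in `Pool/Agent/BWM/C44.lean`, lines 900-975, and `QJ.D_eq`. -/
def StmtCov : Prop :=
  ∀ (Γ : Subgroup SL(2, ℝ)) (ρ : ℍ → ℝ), Fac Γ ρ → ∀ (h : ℕ → ℝ) (φ : ℕ → ℂ → ℂ) (V : Set ℂ)
    (σ : ℂ → ℝ) (φ' : ℕ → ℂ → ℂ), Agree V UH (gr ρ) h φ σ φ' →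
    (∀ γ ∈ Γ, ∀ n, ∀ z ∈ UH, φ n (mob γ z) = φ n z) →
    ∀ γ ∈ Γ, ∀ (j : ℤ) (n : ℕ), ∀ z ∈ V, mob γ z ∈ V →
      QJ.E σ h φ' j n z = phase γ z ^ j * QJ.E σ h φ' j n (mob γ z)

/-- INE: invariance of the limits of the four-jet integrals.
Proof (from `StmtCov`, `StmtLcz`, `StmtLnk`). Let `ζ` be a test function on `UH`, `γ ∈ Γ`,
`ζ'(z) = ζ(γz)` (zero outside `UH`), also a test function. `U3.StmtLcz` for
`K = tsupport ζ ∪ tsupport ζ'` gives `V, σ, φ'`. For `a + b + c + d = 0` the product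
`Q(z) = E_a E_b E_c E_d (z)` satisfies `Q(z) = Q(γz)` when `z, γz ∈ V` (`StmtCov`), and
`e^{2σ(z)} dx dy` is invariant, so
`E4 (e^{2σ} ζ') a b c d n = E4 (e^{2σ} ζ) a b c d n` (change of variables: `QE.NC.Mob.transpose` or the
measure preserving action of `γ` on `ℍ`; `Pool/Agent/BWM/C18.lean`, line 1535). Compare the limits in
`StmtLnk` for `(a, b, c, d) = (k, -k, 0, 0)`, `k` even, where `lk (gk) = - 2 gk k` (`gk 0 = 0`). -/
def StmtIne : Prop :=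
  ∀ (Γ : Subgroup SL(2, ℝ)) (ρ : ℍ → ℝ), Fac Γ ρ → ∀ (h : ℕ → ℝ) (φ : ℕ → ℂ → ℂ)
    (μ ϖ : Measure (ℍ × S1)), LocU UH (gr ρ) h φ → FinK μ → JG ρ h φ μ → Crossing ρ μ ϖ →
    (∀ γ ∈ Γ, ∀ n, ∀ z ∈ UH, φ n (mob γ z) = φ n z) →
    ∀ ζ : ℂ → ℂ, Test UH ζ → ∀ γ ∈ Γ, ∀ k : ℤ, Even k →
      ∫ p : ℍ × S1, ζ (mob γ p.1) * (gk k (p.2 : ℂ) : ℂ) ∂ϖ
        = ∫ p : ℍ × S1, ζ p.1 * (gk k (p.2 : ℂ) : ℂ) ∂ϖ

/-- IVM: invariance of the crossing measure.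
Proof (from `StmtDns`, `StmtSym`, `StmtIne`). Let `ϖ'` be the image of `ϖ` under
`(z, t) ↦ (γz, t)`. It is finite over compact sets. For test functions `ζ` on `UH` the integrals of
`ζ(z) t^k` with respect to `ϖ` and `ϖ'` agree: for odd `k` both vanish (`StmtSym`; for negative `k`
use `t^{-1} = conj t`); for `k = 2 j` both are symmetric in `k → -k`, so it suffices to treat
`ζ(z) Re t^{2j}`, which is a combination of `ζ gk` (`gk 2 = 2`,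
`4 Re t^{2j} = gk (2j+2) t - 2 gk (2j) t + gk (2j-2) t` for `j ≥ 1`), `StmtIne`. By `StmtDns`
(`V = UH`; a continuous function `f` on `ℍ × S1` with compact support extends to the test function
`f(z, t / |t|) min(|t|, 1)`, zero for `z ∉ UH`, as in `StmtExf`) all continuous functions with compact
support have the same integrals, hence `ϖ' = ϖ`
(`MeasureTheory.Measure.ext_of_integral_eq_on_compactlySupported`; `ℍ × S1` is locally compact and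
second countable, both measures are finite on compact sets, hence regular). -/
def StmtIvm : Prop :=
  ∀ (Γ : Subgroup SL(2, ℝ)) (ρ : ℍ → ℝ), Fac Γ ρ → ∀ (h : ℕ → ℝ) (φ : ℕ → ℂ → ℂ)
    (μ ϖ : Measure (ℍ × S1)), LocU UH (gr ρ) h φ → FinK μ → JG ρ h φ μ → Crossing ρ μ ϖ →
    (∀ γ ∈ Γ, ∀ n, ∀ z ∈ UH, φ n (mob γ z) = φ n z) →
    ∀ γ ∈ Γ, Measure.map (fun p : ℍ × S1 => (γ • p.1, p.2)) ϖ = ϖ

/-- CRG: the crossing measure, its invariance and the link with the four-jet integrals -/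
def StmtCrg : Prop :=
  ∀ (Γ : Subgroup SL(2, ℝ)) (ρ : ℍ → ℝ), Fac Γ ρ → ∀ (h : ℕ → ℝ) (φ : ℕ → ℂ → ℂ)
    (μ : Measure (ℍ × S1)), LocU UH (gr ρ) h φ → FinK μ → JG ρ h φ μ →
    (∀ γ ∈ Γ, ∀ n, ∀ z ∈ UH, φ n (mob γ z) = φ n z) →
    ∃ ϖ : Measure (ℍ × S1), Crossing ρ μ ϖ ∧
      (∀ γ ∈ Γ, Measure.map (fun p : ℍ × S1 => (γ • p.1, p.2)) ϖ = ϖ) ∧
      ∀ (V : Set ℂ) (σ : ℂ → ℝ) (φ' : ℕ → ℂ → ℂ), Agree V UH (gr ρ) h φ σ φ' →
      ∀ ζ : ℂ → ℂ, Test V ζ → ∀ a b c d : ℤ, a + b + c + d = 0 →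
        Tendsto (fun n => E4 σ h φ' ζ a b c d n - cl4 a b c d * E4 σ h φ' ζ 0 0 0 0 n) atTop
          (𝓝 (∫ p : ℍ × S1, ζ p.1 * ((Real.exp (-(2 * σ p.1)) : ℝ) : ℂ)
            * lk (fun k => (gk k (p.2 : ℂ) : ℂ)) a b c d ∂ϖ))

theorem crg_of (h1 : StmtExf) (h2 : StmtRsz) (h3 : StmtLnk) (h4 : StmtIvm) : StmtCrg := by
  intro Γ ρ hF h φ μ hL hμ hJ hφ
  obtain ⟨ϖ, hϖ⟩ := h2 Γ ρ hF μ hμ (h1 Γ ρ hF h φ μ hL hμ hJ)
  exact ⟨ϖ, hϖ, h4 Γ ρ hF h φ μ ϖ hL hμ hJ hϖ hφ, h3 Γ ρ hF h φ μ ϖ hμ hJ hϖ⟩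

end

end CRM
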