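import Pool.Agent.CRM.StG
import Pool.Agent.NFP.StI

/-!
The crossing measure of a semiclassical measure with a square integrable density, and of the Liouville
measure: statements.
-/

open Complex MeasureTheory Filter Topology Set
open UpperHalfPlane hiding I
open scoped ContDiff MatrixGroups ProbabilityTheory

namespace CRM

open QE QE.NC QJ U3 NFP

noncomputable section

/-- a direction given by its angle -/
def dirS (θ : ℝ) : S1 :=
  ⟨Complex.exp (θ * Complex.I), by
    rw [mem_sphere_zero_iff_norm]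
    exact Complex.norm_exp_ofReal_mul_I θ⟩

/-- the uniform probability measure on the circle -/
def uniS : Measure S1 := Measure.map dirS angle

/-- AVG: averages of locally square integrable functions over small discs.
Proof. Let `k ε z = (π ε²)⁻¹ area {z' | (z, z') close}`, `A ε G z = (π ε²)⁻¹ ∫_{z' close to z} G z' darea`
where close means `e^{ρ z + ρ z'} ‖z - z'‖² < ε² Im z Im z'` (a symmetric relation). Let `K` be compact
with `ζ = 0` outside of `K`, and `K'` a compact set which contains all `z'` close to a point of `K` for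
`ε ≤ 1` (`StmtClb`, applied to `clo`). (1) `k ε z → 1` as `ε → 0`, uniformly for `z ∈ K`; in particular
it is bounded by some `C` for `z ∈ K'` and small `ε`: for `z' = x' + i y'` close to `z`,
`‖z - z'‖ ≤ C ε`, so the set of the `z'` is contained in the disc of center `z` and radius
`(1 + C ε) ε y e^{-ρ(z)}` and contains the one with radius `(1 - C ε) ε y e^{-ρ(z)}`, and the density
`e^{2ρ(z')} / y'²` of the area is `(1 + O(ε)) e^{2ρ(z)} / y²`. (2) If `G` is continuous then
`A ε G → G` uniformly on `K`. (3) By Cauchy-Schwarz and (1), with the symmetry,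
`∫_K |A ε G|² ≤ C ∫_K A ε |G|² ≤ C² ∫_{K'} |G|²`. (4) The continuous functions are dense in
`L²(K', area)`; so `A ε G → G` in `L²(K)` for every `G` which is square integrable on `K'`
(approximate `G` by a continuous function and use (2), (3)). Take `G = conj G₂` and pair with
`ζ G₁ ∈ L²(K)`. The double integral is the integral over `z` of `ζ G₁ A ε (conj G₂)` by Fubini
(`K × K'` has finite area and the integrand is integrable there: `|G₁| |G₂| ≤ |G₁|² + |G₂|²`). -/
def StmtAvg : Prop :=
  ∀ (Γ : Subgroup SL(2, ℝ)) (ρ : ℍ → ℝ), Fac Γ ρ → ∀ G₁ G₂ : ℍ → ℂ, Measurable G₁ → Measurable G₂ →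
    (∀ K : Set ℍ, IsCompact K → IntegrableOn (fun z => ‖G₁ z‖ ^ 2) K (Berry.area ρ)) →
    (∀ K : Set ℍ, IsCompact K → IntegrableOn (fun z => ‖G₂ z‖ ^ 2) K (Berry.area ρ)) →
    ∀ ζ : ℍ → ℂ, Continuous ζ → HasCompactSupport ζ →
      Tendsto (fun ε : ℝ => (((Real.pi * ε ^ 2)⁻¹ : ℝ) : ℂ) *
        ∫ x in {x : ℍ × ℍ | Real.exp (ρ x.1 + ρ x.2) * ‖(x.1 : ℂ) - (x.2 : ℂ)‖ ^ 2
            < ε ^ 2 * (x.1.im * x.2.im)},
          ζ x.1 * G₁ x.1 * (starRingEnd ℂ) (G₂ x.2) ∂((Berry.area ρ).prod (Berry.area ρ)))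
        (𝓝[>] 0) (𝓝 (∫ z, ζ z * G₁ z * (starRingEnd ℂ) (G₂ z) ∂(Berry.area ρ)))

/-- CRS: the crossing measure of a measure with a square integrable density.
Proof (from `StmtAvg`, `StmtClb`, `StmtDns`). For an integer `j` let `F_j z = ∫ t^j ds_z`, a measurable
function with `‖F_j z‖ ≤ s_z(S¹)`. For a test function `ζ` on `UH` and an integer `k`, the limit of
`(π ε²)⁻¹ ∫_{clo ρ ε} Im(t/t')² ζ(z) (t/t')^k d(μ × μ)` is the integral of `ζ(z) t^k` with respect to
`crossS ρ s`: `Im(t)² = (2 - t² - t⁻²) / 4` on the circle, `t / t' = t conj(t')`, and for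
`μ = area ⊗ₘ s` the double integral of `ζ(z) (t/t')^j` is that of `ζ(z) F_j(z) conj(F_j(z'))`
(`Measure.integral_compProd`, Fubini); use `StmtAvg`, and the same formula for `crossS`
(`integral_map`, `integral_withDensity_eq_integral_toReal_smul`). Let `f` be a continuous real function
with compact support on `ℍ × S¹`; `StmtDns` (for the extension of `f`, see the proof of `StmtExf`, and
`EXF.gx`) gives test functions `ζ_k` with support in a fixed compact set `K` with
`|f - Σ ζ_k t^k| ≤ δ` and both sides are zero outside of `K`; the error in `XG` is at most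
`δ (π ε²)⁻¹ ∫_{clo, z ∈ K} s_z(S¹) s_z'(S¹)`, which is bounded by `C δ` (`StmtAvg` with
`G₁ = G₂ = s_z(S¹)` and a cutoff function), and the one for `crossS` at most
`δ ∫_K s_z(S¹)² darea`. So `XG ρ μ ε f → ∫ f dcrossS`, hence `∫ f dϖ = ∫ f dcrossS`
(`Crossing.lim`, `tendsto_nhds_unique`), and both measures are finite over compact sets; so they are
equal (`Measure.ext_of_integral_eq_on_compactlySupported`; compare `CRM.ANZ.ext_moments`,
`CRM.IVM.ext_of_moments`: it suffices to compare the moments `∫ ζ(z) t^k` for test functions `ζ`, which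
are limits of complex combinations of `XG ρ μ ε f` for real `f`; this avoids the approximation
argument altogether: for real `ζ` take `f = ζ Re t^k`, `f = ζ Im t^k`). -/
def StmtCrs : Prop :=
  ∀ (Γ : Subgroup SL(2, ℝ)) (ρ : ℍ → ℝ), Fac Γ ρ → ∀ (s : ProbabilityTheory.Kernel ℍ S1)
    (ϖ : Measure (ℍ × S1)), (∀ z, IsFiniteMeasure (s z)) →
    (∀ K : Set ℍ, IsCompact K → IntegrableOn (fun z => (s z univ).toReal ^ 2) K (Berry.area ρ)) →
    Crossing ρ ((Berry.area ρ) ⊗ₘ s) ϖ → ϖ = crossS ρ s

/-- QES: quantum ergodicity means that the semiclassical measure is the Liouville measure.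
Proof. `fin`: the area of a compact set is finite. `lim`: `(area ρ) ⊗ₘ const = (area ρ).prod uniS`
(`Measure.compProd_const`). For a test function `ζ`, let `ζ' = ζ gr` (`gr = e^{2ρ} / y²`, smooth on `UH`;
zero outside of `UH`), again a test function. The integral over `ℍ` with respect to `area ρ` is the
integral over the plane with the weight `gr` (`volume` on `ℍ` is `dx dy / y²`; compare
`NFP.SemTwo`/`NFP.SemU` and `lintegral_uhp`, C13), so the claim is `QuantumErgodic` for `ζ'`; the limit
`∫ ζ'(z) (mean of (r cos θ)^j (r sin θ)^k)`, `r = e^ρ / y`, is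
`∫ ζ(z) ∫ (r Re t)^j (r Im t)^k duniS darea` (`integral_map`, `angle` is the uniform probability
measure on `(0, 2π]`). -/
def StmtQes : Prop :=
  ∀ (Γ : Subgroup SL(2, ℝ)) (ρ : ℍ → ℝ), Fac Γ ρ → ∀ (φ : ℕ → ℍ → ℝ) (m : ℕ → ℝ),
    (∀ n, ContDiffOn ℝ ∞ (fun w : ℂ => φ n (ofComplex w)) {w | 0 < w.im}) →
    QE.QuantumErgodic ρ φ m →
    Semiclassical ρ φ m ((Berry.area ρ) ⊗ₘ (ProbabilityTheory.Kernel.const ℍ uniS))

/-- QEI: integrals with respect to the crossing measure of the Liouville measure.
Proof. `crossS ρ (const uniS)`: by `integral_map`, `integral_withDensity_eq_integral_toReal_smul`, and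
`area ⊗ₘ const uniS ⊗ₘ const uniS = area × uniS × uniS`, the left side is
`∫_D w darea · ∬ Im(t/t')² g(t/t') / Im(t/t')² duniS duniS` (restriction to `D ×ˢ univ`), the integrand
is `g (t / t')` where `Im (t/t') ≠ 0` and zero elsewhere, a null set (for fixed `t'` the `t` with
`Im (t/t') = 0` are two points, and `uniS` has no atoms); `uniS` is invariant under rotations, so the
inner integral is `∫ g duniS = ∫ g(e^{iθ}) dθ / 2π`. -/
def StmtQei : Prop :=
  ∀ (ρ : ℍ → ℝ) (D : Set ℍ), Continuous ρ → MeasurableSet D → Berry.area ρ D < ⊤ → ∀ w : ℍ → ℝ,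
    Continuous w → (∃ B, ∀ z, |w z| ≤ B) → ∀ g : S1 → ℝ, Continuous g →
    ∫ p in D ×ˢ (univ : Set S1), w p.1 * (g p.2 / (p.2 : ℂ).im ^ 2)
        ∂(crossS ρ (ProbabilityTheory.Kernel.const ℍ uniS))
      = (∫ z in D, w z ∂(Berry.area ρ)) * ∫ θ, g (dirS θ) ∂angle

end

end CRM
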