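import Pool.Agent.CRM.Defs

/-!
The crossing measure of a semiclassical measure: statements of the steps (local part). Each step is a
`Prop`; a module proves one of them, possibly from others taken as hypotheses. The proofs are given in
the doc strings. `∬` is the integral over the pairs `x = (x.1, x.2)` for `μ.prod μ`; `z = p x.1`,
`w = p x.2`, `t = u x.1 / u x.2` (a complex number of modulus one); `C` are constants which do not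
depend on `ε`.
-/

open Complex MeasureTheory Filter Topology Set
open scoped ContDiff

namespace CRM

open QE QJ U3

noncomputable section

/-- BMP: bump functions.
Proof. (1), (2): let `χ` be smooth on `ℝ`, nonincreasing, `0 ≤ χ ≤ 1`, `χ = 1` on `t ≤ 1 / (1 + δ)`
(respectively on `t ≤ 1 / 4`), `χ = 0` for `t ≥ 1` (`Real.smoothTransition`), and
`m = ∫ z : ℂ, χ (‖z‖ ^ 2)`. Since the indicator of the disc of area `π / (1 + δ)` is at most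
`χ (‖z‖²)`, which is at most the indicator of the unit disc, `π / (1 + δ) ≤ m ≤ π` (respectively
`0 < m`). Take `β = χ / m`.
(3) linearity. (4) `∫ z : ℂ, β (‖z‖ ^ 2 / s ^ 2) / s ^ 2 = ∫ β (‖z‖ ^ 2)` (scaling,
`Measure.integral_comp_smul`), and `1 ≤ t` implies `1 ≤ t / s ^ 2`. -/
def StmtBmp : Prop :=
  (∃ (β : ℝ → ℝ) (c : ℝ), Bump β ∧ 0 < c ∧ ∀ t, 0 ≤ t → t ≤ 1 / 4 → c ≤ β t) ∧
  (∀ δ : ℝ, 0 < δ → ∃ β : ℝ → ℝ, Bump β ∧ (∀ t, 0 ≤ t → β t ≤ (1 + δ) / Real.pi) ∧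
    ∀ t, 0 ≤ t → t ≤ 1 / (1 + δ) → 1 / Real.pi ≤ β t) ∧
  (∀ β β' : ℝ → ℝ, Bump β → Bump β' → Bump (fun t => (β t + β' t) / 2)) ∧
  (∀ (β : ℝ → ℝ) (s : ℝ), Bump β → 0 < s → s ≤ 1 → Bump (sc β s))

/-- LMT: the mollified quartic functionals converge as `ε → 0`, to the limits of the four-jet
integrals.
Proof (from `StmtFouB`, `StmtBmp`). Let `S ε` be the function of `ε` in the statement (for a bump `β`)
and `e n` the sequence. `StmtFouB` says: `e n - S (ε n) → 0` for every sequence `ε n > 0` with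
`ε n → 0`. Hence `S (ε n) - S (ε' n) → 0` for any two such sequences, so `S` is Cauchy at `0+` (if not,
there are `η > 0` and `ε n, ε' n < 1 / (n + 1)` with `‖S (ε n) - S (ε' n)‖ ≥ η`), hence converges to
some `l` (`cauchy_map_iff_exists_tendsto`). With `ε n = 1 / (n + 1)`: `e n → l`. The limit for
another bump is again the limit of `e n`. A bump exists by `StmtBmp`. -/
def StmtLmt : Prop :=
  ∀ (V : Set ℂ) (σ : ℂ → ℝ) (h : ℕ → ℝ) (φ : ℕ → ℂ → ℂ) (Ω : Type) [MeasurableSpace Ω]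
    (μ : Measure Ω) (p u : Ω → ℂ), LocB V σ h φ → LimM V σ h φ μ p u → ∀ ζ : ℂ → ℂ, Test V ζ →
    ∀ a b c d : ℤ, a + b + c + d = 0 → ∃ l : ℂ,
      Tendsto (fun n => E4 σ h φ ζ a b c d n - cl4 a b c d * E4 σ h φ ζ 0 0 0 0 n) atTop (𝓝 l) ∧
      ∀ β, Bump β → Tendsto (fun ε : ℝ => (∫ z, ζ z * wkp (pe β σ ε μ p u) a b c d z)
        - cl4 a b c d * ∫ z, ζ z * wkp (pe β σ ε μ p u) 0 0 0 0 z) (𝓝[>] 0) (𝓝 l)

/-- POL: polarisation.
Proof (from `StmtLmt`, `StmtBmp`, `U3.StmtDir`, `U3.StmtPeO`, `U3.StmtPeS`; the last for the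
continuity in `z`, hence integrability, of the mollified moments). Write `P k = pe β σ ε μ p u k`. Then
`P (-k) = conj (P k)` (`ta` and `u` have modulus one, `ke` is real), `P 0` is real, and
`mx β β 0 - mx β β k = |P 0|² - |P k|²`. For even `k`: `wkp P k (-k) 0 0 = |P 0|² + 2 |P k|²`,
`wkp P 0 0 0 0 = 3 |P 0|²`, `cl4 k (-k) 0 0 = 1`, so that, with `l` the limit of `StmtLmt` for
`(k, -k, 0, 0)` and `L k = - l / 2`, the second part holds for `β' = β`. For `β ≠ β'` let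
`γ = (β + β') / 2` (a bump): `pe γ = (pe β + pe β') / 2`, hence
`mx β β' k = 2 mx γ γ k - mx β β k / 2 - mx β' β' k / 2`, and `2 - 1/2 - 1/2 = 1`.
First part: for small `ε` the odd moments vanish on `tsupport ζ` (`U3.StmtPeO`, with `StmtDir` for
`DirM`), so on `tsupport ζ`, `wkp P a b c d - cl4 a b c d * wkp P 0 0 0 0` is: if `a, b, c, d` have the
same parity (`cl4 = 1`, all signs `+`): `-((|P 0|² - |P (a+b)|²) + (|P 0|² - |P (a+c)|²) +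
(|P 0|² - |P (a+d)|²))`; otherwise (`cl4 = -1/3`) exactly one of `a+b`, `a+c`, `a+d` is even, its sign
in `wkp` is `-1`, and the result is `|P 0|² - |P (that sum)|²`. Integrate, let `ε → 0`, and compare
with `StmtLmt` for `(a, b, c, d)` (uniqueness of limits). -/
def StmtPol : Prop :=
  ∀ (V : Set ℂ) (σ : ℂ → ℝ) (h : ℕ → ℝ) (φ : ℕ → ℂ → ℂ) (Ω : Type) [MeasurableSpace Ω]
    (μ : Measure Ω) (p u : Ω → ℂ), LocB V σ h φ → LimM V σ h φ μ p u → ∀ ζ : ℂ → ℂ, Test V ζ →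
    ∃ L : ℤ → ℂ,
      (∀ a b c d : ℤ, a + b + c + d = 0 →
        Tendsto (fun n => E4 σ h φ ζ a b c d n - cl4 a b c d * E4 σ h φ ζ 0 0 0 0 n) atTop
          (𝓝 (lk L a b c d))) ∧
      ∀ k : ℤ, Even k → ∀ β β', Bump β → Bump β' →
        Tendsto (fun ε : ℝ => ∫ z, ζ z * ((mx β β' σ ε μ p u 0 z - mx β β' σ ε μ p u k z : ℝ) : ℂ))
          (𝓝[>] 0) (𝓝 (L k))

/-- MAS: the mass of the pairs of close points.
Proof. Let `r > 0` with `K' = cthickening r K ⊆ V` (compact) and `C` the constant of `DirM.grow` for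
`K'`. For `ε < r` and `x₁` with `p x₁ ∈ K` the section is contained in
`p ⁻¹' (K' ∩ closedBall (p x₁) ε)`, of mass at most `C ε`. Integrate over `x₁`
(`Measure.prod_apply`): at most `C ε (μ univ)`. -/
def StmtMas : Prop :=
  ∀ (V : Set ℂ) (σ : ℂ → ℝ) (Ω : Type) [MeasurableSpace Ω] (μ : Measure Ω) (p u : Ω → ℂ),
    IsOpen V → DirM V σ μ p u → ∀ K, IsCompact K → K ⊆ V →
    ∃ C ε₀ : ℝ, 0 < ε₀ ∧ ∀ ε, 0 < ε → ε < ε₀ →
      ((μ.prod μ) {x | p x.1 ∈ K ∧ ‖p x.1 - p x.2‖ ≤ ε}).toReal ≤ C * ε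

/-- KEL: a lower bound for the kernel.
Proof. Let `|σ| ≤ M` on `cthickening 1 K`. If `c₁ ≤ min 1 (exp (-M) / 2)` and
`‖z - w‖ ≤ c₁ ε ≤ 1` then `r2 σ z w / ε² ≤ exp (2 M) c₁² ≤ 1 / 4`, so
`ke β σ ε z w ≥ exp (-2 M) c / ε²`. -/
def StmtKel : Prop :=
  ∀ (β : ℝ → ℝ) (c : ℝ) (σ : ℂ → ℝ) (K : Set ℂ), Bump β → 0 < c →
    (∀ t, 0 ≤ t → t ≤ 1 / 4 → c ≤ β t) → ContDiff ℝ ∞ σ → IsCompact K →
    ∃ c₁ : ℝ, 0 < c₁ ∧ ∀ ε, 0 < ε → ε ≤ 1 → ∀ z w : ℂ, z ∈ K → ‖z - w‖ ≤ c₁ * ε →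
      c₁ / ε ^ 2 ≤ ke β σ ε z w

/-- FBN: the mixed quadratic functionals as integrals over the pairs.
Proof. `pe β k z * conj (pe β' k z) = ∬ ke β z w₁ * ke β' z w₂ * (ta z w₁)⁻¹ ^ k u₁ ^ k *
conj ((ta z w₂)⁻¹ ^ k u₂ ^ k)` (`integral_prod_mul`, `integral_conj`), and the conjugate of a number
of modulus one is its inverse. Take real parts (`ck 0 = 1`), multiply by `ζ z`, integrate over `z` and
exchange the integrals (`integral_integral_swap`): `μ.prod μ` is finite, `p` lies in a compact set a.e.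
(`DirM.cpt`), `ζ` has compact support, so the integrand is a.e. bounded and supported in a set of finite
measure; joint measurability: it is a continuous function of `(z, p x.1, p x.2, u x.1, u x.2)` (use
`z * conj` for the inverse, or restrict to modulus one). -/
def StmtFbn : Prop :=
  ∀ (V : Set ℂ) (σ : ℂ → ℝ) (Ω : Type) [MeasurableSpace Ω] (μ : Measure Ω) (p u : Ω → ℂ)
    (β β' : ℝ → ℝ) (ζ : ℂ → ℂ) (ε : ℝ) (k : ℤ), ContDiff ℝ ∞ σ → DirM V σ μ p u → Bump β →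
    Bump β' → Test V ζ → 0 < ε →
    ∫ z, ζ z * ((mx β β' σ ε μ p u 0 z - mx β β' σ ε μ p u k z : ℝ) : ℂ)
      = II μ fun x => ∫ z, ζ z * ((ke β σ ε z (p x.1) * ke β' σ ε z (p x.2)
          * (1 - ck k (ta σ z (p x.2) / ta σ z (p x.1) * (u x.1 / u x.2))) : ℝ) : ℂ)

/-- SNE: the pairs of close points, weighted by the square of the sine of the angle.
Proof (from `StmtMas`, `StmtKel`, `StmtFbn`, `U3.StmtKsz`). The mass part is `StmtMas`. Sine part: let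
`K₀` be a compact set with `p ∈ K₀` a.e., `ζ ≥ 0` a test function on `V`, `ζ ≤ 1`, `ζ = 1` on
`K₁ = cthickening r K` (exists: `QE.exists_cutoff_nonneg` or similar). By `StmtFbn` (`k = 2`,
`β' = β`), since `1 - ck 2 t = 2 s2 t` for `‖t‖ = 1`,
`S(ε) = ∫ ζ (mx 0 - mx 2) = ∬ ∫_y ζ(y) ke(y,z) ke(y,w) 2 s2(q t) dy`, `q = ta(y,w) / ta(y,z)`; all
terms are `≥ 0`. Let `c₁` be the constant of `StmtKel` for `K₁`, `c₂ = c₁ / 2`, `c₂ ε ≤ r`. If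
`z ∈ K`, `‖z - w‖ ≤ c₂ ε` and `‖y - z‖ ≤ c₂ ε`, then `ζ(y) = 1`, both kernels are at least
`c₁ / ε²`, and `‖q - 1‖ ≤ C ε` (`U3.StmtKsz`: `‖ta - 1‖ ≤ C ‖w - z‖` on compact sets, `‖ta‖ = 1`), so
that `s2 (q t) ≥ s2 t / 2 - C² ε²` (as `|q² t² - 1| ≥ |t² - 1| - |q² - 1| ≥ |t² - 1| - 2 C ε` and
`(x - y)² ≥ x² / 2 - y²`; if `x < y` the right side of the claim is nonpositive). Integrating over `y`
in the disc: `S(ε) ≥ π c₂² ε² (c₁² / ε⁴) (∬_{G(ε)} s2 t - 2 C² ε² (μ×μ)(G(ε)))`,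
`G(ε) = {z ∈ K, ‖z - w‖ ≤ c₂ ε}`. Since `S` converges as `ε → 0` it is bounded near `0`, and
`(μ×μ)(G(ε)) ≤ C ε`: `∬_{G(ε)} s2 ≤ C ε²`. Replace `ε` by `ε / c₂`. -/
def StmtSne : Prop :=
  ∀ (V : Set ℂ) (σ : ℂ → ℝ) (Ω : Type) [MeasurableSpace Ω] (μ : Measure Ω) (p u : Ω → ℂ)
    (β : ℝ → ℝ) (c : ℝ), IsOpen V → ContDiff ℝ ∞ σ → DirM V σ μ p u → Bump β → 0 < c →
    (∀ t, 0 ≤ t → t ≤ 1 / 4 → c ≤ β t) →
    (∀ ζ : ℂ → ℂ, Test V ζ → ∃ l : ℂ, Tendsto (fun ε : ℝ => ∫ z, ζ z *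
      ((mx β β σ ε μ p u 0 z - mx β β σ ε μ p u 2 z : ℝ) : ℂ)) (𝓝[>] 0) (𝓝 l)) →
    PairB V μ p u

/-- TPH: the effect of a small phase.
Proof, with `C = k²`. `Re ((q t)^k) - Re (t^k) = Re (t^k (q^k - 1)) = Re t^k Re (q^k - 1) -
Im t^k Im (q^k - 1)`. Here `|Re (q^k - 1)| = |q^k - 1|² / 2 ≤ k² |q - 1|² / 2`,
`|Im (q^k - 1)| ≤ |q^k - 1| ≤ |k| |q - 1|`, and `|Im t^k| = |t^{2k} - 1| / 2 ≤ |k| |t² - 1| / 2 =
|k| √(s2 t)` (for a number of modulus one, `2 i Im s = s - conj s = (s² - 1) / s`). -/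
def StmtTph : Prop :=
  ∀ k : ℤ, ∃ C : ℝ, ∀ q t : ℂ, ‖q‖ = 1 → ‖t‖ = 1 →
    |ck k (q * t) - ck k t| ≤ C * (‖q - 1‖ * Real.sqrt (s2 t) + ‖q - 1‖ ^ 2)

/-- KCP: the product of a kernel and a kernel on a much smaller scale.
Proof. `ke (sc b s) σ ε y w = ke b σ (s ε) y w`. All points `y ∈ tsupport ζ`, `z, w ∈ K₀` lie in a
fixed compact set, on which `U3.StmtKsz` gives `0 ≤ ke ≤ C / ε²` and `ke = 0` unless the distance is at
most `C ε` (`C s ε` for the second kernel, which is at most `C / (s ε)²`), and `‖ta - 1‖ ≤ C` times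
the distance. This gives the third and fourth claims, with `K = cthickening (C ε₀) (tsupport ζ)`, where
`ε₀` is so small that this is contained in `V`. Second claim:
`∫ ke (sc b s) y w dy ≤ C (s ε)² · C / (s ε)²` and the first kernel is at most `C / ε²`. First claim: for
`‖y - w‖ ≤ C s ε`, `|ζ(y) ke β(y,z) - ζ(z) kb β(z,w)| ≤ C (s + ε) / ε²`, because both terms vanish
unless `‖y - z‖ ≤ C ε`, resp. `‖z - w‖ ≤ C ε`, `ζ` and `β` are Lipschitz and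
`|r2(y,z) - r2(w,z)| ≤ C s ε²` when `‖y - z‖` or `‖w - z‖` is at most `C ε`; integrate against
`ke (sc b s) y w`, whose integral is at most `C`; and `|∫ ke (sc b s) y w dy - 1| ≤ C s ε`: with
`y = w + s ε e^{-σ(w)} v` this integral is `∫ b(e^{σ(y) - σ(w)} |v|²) dv` over `|v| ≤ C`, and
`|e^{σ(y) - σ(w)} - 1| ≤ C s ε`, `∫ b(|v|²) dv = 1`. -/
def StmtKcp : Prop :=
  ∀ (β b : ℝ → ℝ) (σ : ℂ → ℝ) (V K₀ : Set ℂ) (ζ : ℂ → ℂ), Bump β → Bump b → ContDiff ℝ ∞ σ →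
    Test V ζ → IsOpen V → IsCompact K₀ → ∃ (C ε₀ : ℝ) (K : Set ℂ), 0 < ε₀ ∧ IsCompact K ∧ K ⊆ V ∧
      ∀ ε s, 0 < ε → ε < ε₀ → 0 < s → s ≤ 1 → ∀ z ∈ K₀, ∀ w ∈ K₀,
      ‖(∫ y, ζ y * ((ke β σ ε y z * ke (sc b s) σ ε y w : ℝ) : ℂ)) - ζ z * (kb β σ ε z w : ℂ)‖
        ≤ C * (s + ε) / ε ^ 2 ∧
      (∫ y, ‖ζ y‖ * (ke β σ ε y z * ke (sc b s) σ ε y w)) ≤ C / ε ^ 2 ∧
      ((∃ y, ζ y * ((ke β σ ε y z * ke (sc b s) σ ε y w : ℝ) : ℂ) ≠ 0) ∨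
        ζ z * (kb β σ ε z w : ℂ) ≠ 0 → z ∈ K ∧ ‖z - w‖ ≤ C * ε) ∧
      ∀ y, ζ y * ((ke β σ ε y z * ke (sc b s) σ ε y w : ℝ) : ℂ) ≠ 0 →
        ‖ta σ y w / ta σ y z - 1‖ ≤ C * ε

/-- KBL: the kernel `kb` has the same limits as the mixed quadratic functionals.
Proof (from `StmtBmp` part 4, `StmtTph`, `StmtKcp`, `StmtFbn`). Let `b = β`, `0 < s ≤ 1`, `K₀` a compact
set with `p ∈ K₀` a.e. (`DirM.cpt`). By `StmtFbn`, with `H(x) = ∫_y ζ(y) ke β(y,z) ke (sc b s)(y,w)`,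
`S_s(ε) = ∫ ζ (mx β (sc b s) 0 - mx β (sc b s) k) = ∬ ∫_y ζ ke ke' (1 - ck k (q t))
= ∬ H (1 - ck k t) + Err`, and by `StmtTph` and `StmtKcp`
`|Err| ≤ C / ε² ∬_{z ∈ K, ‖z-w‖ ≤ C ε} (ε √(s2 t) + ε²)`, which by Cauchy-Schwarz and the bounds of
`PairB` is at most `C / ε² · (ε (C ε · C ε²)^{1/2} + C ε³) ≤ C ε^{1/2}`, with `C` independent of `s`
(or: `ε √(s2) ≤ (ε^{1/2} s2 + ε^{3/2}) / 2`). For `‖t‖ = 1` and even `k`, `1 - ck k t = s2 t * gk k t`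
(`k = 2 j`: `1 - Re t^{2j} = |t^{2j} - 1|² / 2 = |t² - 1|² |1 + t² + ... + t^{2(|j|-1)}|² / 2`) and
`gk k t ≤ k²`. So by `StmtKcp` the difference between `∬ H (1 - ck k t)` and
`XK (kb β) (ζ gk) = ∬ ζ(z) kb(z,w) (1 - ck k t)` is at most `C (s + ε) / ε² · k² ∬ s2 ≤ C (s + ε)`.
Hence `‖XK(ε) - S_s(ε)‖ ≤ C (s + ε + ε^{1/2})` for all small `ε` and all `s`. As `S_s(ε) → l` when
`ε → 0` for each `s`, `limsup ‖XK(ε) - l‖ ≤ C s` for every `s > 0`. -/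
def StmtKbl : Prop :=
  ∀ (V : Set ℂ) (σ : ℂ → ℝ) (Ω : Type) [MeasurableSpace Ω] (μ : Measure Ω) (p u : Ω → ℂ)
    (ζ : ℂ → ℂ) (k : ℤ) (l : ℂ), IsOpen V → ContDiff ℝ ∞ σ → DirM V σ μ p u → PairB V μ p u →
    Test V ζ → Even k →
    (∀ β β', Bump β → Bump β' → Tendsto (fun ε : ℝ => ∫ z, ζ z *
      ((mx β β' σ ε μ p u 0 z - mx β β' σ ε μ p u k z : ℝ) : ℂ)) (𝓝[>] 0) (𝓝 l)) →
    ∀ β, Bump β → Tendsto (fun ε : ℝ => XK μ p u (kb β σ ε) fun x => ζ x.1 * (gk k x.2 : ℂ))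
      (𝓝[>] 0) (𝓝 l)

/-- SWP: the limits are symmetric.
Proof. Exchange `x.1` and `x.2` (`integral_prod_swap`) in the first term; `s2 (t⁻¹) = s2 t` for
`‖t‖ = 1`. The difference of the two terms is `∬ (ζ(w) kb(w,z) - ζ(z) kb(z,w)) s2(t) t^(-k)`. As
`r2 σ z w = r2 σ w z`, the bracket is `(ζ(w) e^{2σ(w)} - ζ(z) e^{2σ(z)}) β(r2/ε²) / ε²`, at most
`C ε / ε²` and zero unless `‖z - w‖ ≤ C ε` (`U3.StmtKsz` or directly; `p` is in a compact set a.e.)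
and `z ∈ K = cthickening (C ε₀) (tsupport ζ) ⊆ V`. So the difference is at most `C ε⁻¹ ∬ s2 ≤ C ε`
(`PairB.sine`). -/
def StmtSwp : Prop :=
  ∀ (V : Set ℂ) (σ : ℂ → ℝ) (Ω : Type) [MeasurableSpace Ω] (μ : Measure Ω) (p u : Ω → ℂ)
    (ζ : ℂ → ℂ) (k : ℤ) (β : ℝ → ℝ), IsOpen V → ContDiff ℝ ∞ σ → DirM V σ μ p u →
    PairB V μ p u → Test V ζ → Bump β →
    Tendsto (fun ε : ℝ => (XK μ p u (kb β σ ε) fun x => ζ x.1 * x.2 ^ k)
      - XK μ p u (kb β σ ε) fun x => ζ x.1 * x.2 ^ (-k)) (𝓝[>] 0) (𝓝 0)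

/-- ODD: the odd part vanishes.
Proof. For `‖t‖ = 1`, `s2 t = (2 - t ^ 2 - t ^ (-2)) / 4`, so the integrand is
`ζ(z) kb(z,w) (2 t^k - t^(k+2) - t^(k-2)) / 4` with odd exponents, and `t^j = u₁^j u₂^(-j)`. For fixed
`x.2` the integral over `x.1` of `ζ(z) kb(z, w) u₁^j`, `j` odd, vanishes by `DirM.odd` for the test
function `y ↦ ζ y * kb β σ ε y w` (smooth, compact support in `V`). Fubini: the integrand is bounded a.e.
(`DirM.cpt`) and measurable, `μ.prod μ` is finite. -/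
def StmtOdd : Prop :=
  ∀ (V : Set ℂ) (σ : ℂ → ℝ) (Ω : Type) [MeasurableSpace Ω] (μ : Measure Ω) (p u : Ω → ℂ)
    (ζ : ℂ → ℂ) (k : ℤ) (β : ℝ → ℝ) (ε : ℝ), IsOpen V → ContDiff ℝ ∞ σ → DirM V σ μ p u →
    Test V ζ → Odd k → Bump β → 0 < ε → XK μ p u (kb β σ ε) (fun x => ζ x.1 * x.2 ^ k) = 0

/-- DNS: density of the trigonometric polynomials.
Proof. Let `K₁ ⊆ V` be the compact set of `TF`, `r > 0` with `K = cthickening r K₁ ⊆ V`. Fejér: for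
`F(z,t) = f(z,t)` on `ℂ × S¹`, which is uniformly continuous (compact support), the Fejér means
`Σ_{|k| ≤ N} (1 - |k|/(N+1)) a_k(z) t^k`, `a_k(z) = (1/2π) ∫_0^{2π} f(z, e^{iθ}) e^{-ikθ} dθ`, are
within `δ / 2` of `f` for some `N` (or: Stone-Weierstrass, `ContinuousMap` on `K₁' × S¹`, see
`span_fourier_closure_eq_top`, and a cutoff function of `z`). Each `a_k` is continuous with support in
`K₁`; replace it by a smooth `ζ_k` with support in `K` and `sup ‖a_k - ζ_k‖ ≤ δ / (2 (2N + 1))`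
(convolution with a `ContDiffBump` of radius at most `r` and so small that the modulus of continuity is
small; `QE.exists_smooth_between` for the real and imaginary parts may also help). -/
def StmtDns : Prop :=
  ∀ (V : Set ℂ) (f : ℂ × ℂ → ℂ), IsOpen V → TF V f → ∃ K, IsCompact K ∧ K ⊆ V ∧
    ∀ δ : ℝ, 0 < δ → ∃ (N : ℕ) (ζ : ℤ → ℂ → ℂ), (∀ k, Test V (ζ k)) ∧ (∀ k, tsupport (ζ k) ⊆ K) ∧
      (∀ z, z ∉ K → ∀ t, f (z, t) = 0) ∧
      ∀ z t : ℂ, ‖t‖ = 1 → ‖f (z, t) - ∑ k ∈ Finset.Icc (-(N : ℤ)) N, ζ k z * t ^ k‖ ≤ δ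

/-- ALL: convergence for all test functions, smooth kernel.
Proof (from `StmtDns`, `U3.StmtKsz`-type bounds). Let `K` be the set of `StmtDns` for `f`. Since
`0 ≤ kb ≤ C / ε²` and `kb = 0` unless `‖z - w‖ ≤ C ε` (for `z, w` in the compact set of `DirM.cpt`),
`PairB.sine` gives, for functions `F` which vanish for `z ∉ K` and with `‖F(z,t)‖ ≤ δ` for
`‖t‖ = 1`: `‖XK (kb β σ ε) F‖ ≤ δ C_β` for all small `ε`. Apply it to `F = f - g`,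
`g = Σ ζ_k(z) t^k` with `δ → 0`: `XK f` is Cauchy as `ε → 0+`, so it has a limit `l_β`, and
`‖l_β - l(g)‖ ≤ C_β δ`, where `l(g)` does not depend on `β`. Hence `l_β` does not depend on `β`. -/
def StmtAll : Prop :=
  ∀ (V : Set ℂ) (σ : ℂ → ℝ) (Ω : Type) [MeasurableSpace Ω] (μ : Measure Ω) (p u : Ω → ℂ),
    IsOpen V → ContDiff ℝ ∞ σ → DirM V σ μ p u → PairB V μ p u →
    (∀ (k : ℤ) (ζ : ℂ → ℂ), Test V ζ → ∃ l : ℂ, ∀ β, Bump β →
      Tendsto (fun ε : ℝ => XK μ p u (kb β σ ε) fun x => ζ x.1 * x.2 ^ k) (𝓝[>] 0) (𝓝 l)) →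
    ∀ f : ℂ × ℂ → ℂ, TF V f → ∃ l : ℂ, ∀ β, Bump β →
      Tendsto (fun ε : ℝ => XK μ p u (kb β σ ε) f) (𝓝[>] 0) (𝓝 l)

/-- IND: from the smooth kernels to the indicator kernel.
Proof (from `StmtBmp`). Write `f = f₁ - f₂ + i (f₃ - f₄)` with real nonnegative continuous `f_j`
(positive and negative parts of the real and imaginary parts), each is in `TF V`; by hypothesis each has
a limit `l_j ≥ 0` for the kernels `kb β`, the same for all bumps, and `l = l₁ - l₂ + i (l₃ - l₄)`. Let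
`f ≥ 0`, `δ > 0` and `β` the bump of `StmtBmp` (2). Then (a) `kb β σ ε ≤ (1 + δ) ki σ ε` (as `β = 0`
for arguments `≥ 1` and `β ≤ (1 + δ) / π`), so `XK (ki ε) f ≥ XK (kb β ε) f / (1 + δ)`;
(b) `ki σ ε ≤ (1 + δ) kb β σ ε'` with `ε' = (1 + δ)^{1/2} ε` (if `r2 < ε²` then
`r2 / ε'² ≤ 1 / (1 + δ)`, `β ≥ 1 / π`, and `1 / ε² = (1 + δ) / ε'²`), so
`XK (ki ε) f ≤ (1 + δ) XK (kb β ε') f`. Let `ε → 0`, then `δ → 0`. The integrals exist: the kernels are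
bounded for fixed `ε`, `p` is in a compact set a.e., `μ.prod μ` is finite; `XK` of real nonnegative
functions is a real nonnegative number. -/
def StmtInd : Prop :=
  ∀ (V : Set ℂ) (σ : ℂ → ℝ) (Ω : Type) [MeasurableSpace Ω] (μ : Measure Ω) (p u : Ω → ℂ),
    IsOpen V → ContDiff ℝ ∞ σ → DirM V σ μ p u →
    (∀ g : ℂ × ℂ → ℂ, TF V g → ∃ l : ℂ, ∀ β, Bump β →
        Tendsto (fun ε : ℝ => XK μ p u (kb β σ ε) g) (𝓝[>] 0) (𝓝 l)) →
    ∀ f : ℂ × ℂ → ℂ, TF V f → ∀ (l : ℂ) (β : ℝ → ℝ), Bump β →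
        Tendsto (fun ε : ℝ => XK μ p u (kb β σ ε) f) (𝓝[>] 0) (𝓝 l) →
        Tendsto (fun ε : ℝ => XK μ p u (ki σ ε) f) (𝓝[>] 0) (𝓝 l)

/-- CRL: the local crossing measure.
Proof (from all the others and `U3.StmtDir`). `DirM` from `StmtDir`; `L` from `StmtPol`; `PairB` from
`StmtSne` with the bump of `StmtBmp` (1) and `StmtPol` for `k = 2`. By `StmtKbl`,
`XK (kb β) (ζ gk k) → L k` for even `k`. The monomials `ζ(z) t^k`: for odd `k` the value is `0`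
(`StmtOdd`). For `k = 2 j`: since `gk 2 = 2` and, for `‖t‖ = 1`,
`gk (2 j) t = 2 Σ_{|i| < |j|} (|j| - |i|) Re t^{2i}`, one has
`4 Re t^{2j} = gk (2j+2) t - 2 gk (2j) t + gk (2j-2) t` for `j ≥ 1`, so
`XK (kb β) (ζ Re t^{2j})` converges to a limit independent of `β`, and
`ζ t^{2j} = ζ Re t^{2j} + (ζ t^{2j} - ζ t^{-2j}) / 2`, where the last term tends to zero (`StmtSwp`);
similarly for negative `j`. By `StmtAll` and `StmtInd` all test functions have limits for `ki`, equal to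
those for `kb β`; `ζ(z) gk k t` is a test function. The last two claims: `ζ(z) t^k` and
`ζ(z) (conj t)^k` (`k` natural) are test functions, and for `‖t‖ = 1` the second is `ζ(z) t^{-k}`; use
`StmtOdd`, `StmtSwp` and `StmtInd`. -/
def StmtCrl : Prop :=
  ∀ (V : Set ℂ) (σ : ℂ → ℝ) (h : ℕ → ℝ) (φ : ℕ → ℂ → ℂ) (Ω : Type) [MeasurableSpace Ω]
    (μ : Measure Ω) (p u : Ω → ℂ), LocB V σ h φ → LimM V σ h φ μ p u →
    PairB V μ p u ∧
    (∀ f : ℂ × ℂ → ℂ, TF V f → ∃ l : ℂ,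
      Tendsto (fun ε : ℝ => XK μ p u (ki σ ε) f) (𝓝[>] 0) (𝓝 l)) ∧
    ∀ ζ : ℂ → ℂ, Test V ζ → ∃ L : ℤ → ℂ,
      (∀ k : ℤ, Even k → Tendsto (fun ε : ℝ => XK μ p u (ki σ ε) fun x => ζ x.1 * (gk k x.2 : ℂ))
        (𝓝[>] 0) (𝓝 (L k))) ∧
      (∀ a b c d : ℤ, a + b + c + d = 0 →
        Tendsto (fun n => E4 σ h φ ζ a b c d n - cl4 a b c d * E4 σ h φ ζ 0 0 0 0 n) atTop
          (𝓝 (lk L a b c d))) ∧
      (∀ k : ℕ, Odd k → Tendsto (fun ε : ℝ => XK μ p u (ki σ ε) fun x => ζ x.1 * x.2 ^ k)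
        (𝓝[>] 0) (𝓝 0)) ∧
      ∀ k : ℕ, Tendsto (fun ε : ℝ => (XK μ p u (ki σ ε) fun x => ζ x.1 * x.2 ^ k)
        - XK μ p u (ki σ ε) fun x => ζ x.1 * (starRingEnd ℂ) x.2 ^ k) (𝓝[>] 0) (𝓝 0)

end

end CRM
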